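import Pool.Agent.Run7.h745.CPb

/-!
# Piece CP, part 3: existence, orbit representations, density
-/

set_option autoImplicit false
set_option linter.unusedSectionVars false

noncomputable section

namespace Run7.h745

open Filter Topology Matrix
open scoped ENNReal NNReal InnerProductSpace BoundedContinuousFunction

section
variable {X : Type} [TopologicalSpace X] [CompactSpace X] {T : X ≃ₜ X}
  {C : Type} [CStarAlgebra C] {ι : C(X, ℂ) →⋆ₐ[ℂ] C} {u : unitary C}
  {C' : Type} [CStarAlgebra C'] {ι' : C(X, ℂ) →⋆ₐ[ℂ] C'} {u' : unitary C'}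

lemma map_up (φ : C →⋆ₐ[ℂ] C') (hu : φ (u : C) = u') (k : ℤ) : φ (up u k) = up u' k := by
  induction k using Int.induction_on with
  | zero => rw [up_zero, up_zero, map_one]
  | succ n ih => rw [up_add, up_add, map_mul, ih, up_one, up_one, hu]
  | pred n ih =>
    have h1 : φ (up u (-1)) = up u' (-1) := by rw [up_neg, up_neg, map_star, up_one, up_one, hu]
    rw [sub_eq_add_neg, up_add, up_add, map_mul, ih, h1]

lemma map_laur (φ : C →⋆ₐ[ℂ] C') (hι : ∀ f, φ (ι f) = ι' f) (hu : φ (u : C) = u') (L : ℕ)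
    (f : ℤ → C(X, ℂ)) : φ (laur u ι L f) = laur u' ι' L f := by
  unfold laur
  rw [map_sum]
  refine Finset.sum_congr rfl fun k _ => ?_
  rw [map_mul, hι, map_up φ hu]

lemma laur_trunc (L : ℕ) (f : ℤ → C(X, ℂ)) :
    laur u ι L f = laur u ι L (fun k => if |k| ≤ (L : ℤ) then f k else 0) := by
  unfold laur
  refine Finset.sum_congr rfl fun k hk => ?_
  rw [Finset.mem_Icc] at hk
  simp only
  rw [if_pos (abs_le.mpr hk)]

variable (ι u) in
/-- the span of the elements `ι(f) u^k` -/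
def LSp : Submodule ℂ C := Submodule.span ℂ (Set.range fun p : C(X, ℂ) × ℤ => ι p.1 * up u p.2)

lemma gen_mem_LSp (f : C(X, ℂ)) (k : ℤ) : ι f * up u k ∈ LSp ι u :=
  Submodule.subset_span ⟨(f, k), rfl⟩

lemma laur_mem_LSp (L : ℕ) (f : ℤ → C(X, ℂ)) : laur u ι L f ∈ LSp ι u :=
  Submodule.sum_mem _ fun k _ => gen_mem_LSp (f k) k

lemma LSp_laur {a : C} (ha : a ∈ LSp ι u) :
    ∃ (L : ℕ) (f : ℤ → C(X, ℂ)), (∀ k : ℤ, (L : ℤ) < |k| → f k = 0) ∧ a = laur u ι L f := by
  refine Submodule.span_induction (p := fun a _ => ∃ (L : ℕ) (f : ℤ → C(X, ℂ)),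
    (∀ k : ℤ, (L : ℤ) < |k| → f k = 0) ∧ a = laur u ι L f) ?_ ?_ ?_ ?_ ha
  · rintro _ ⟨⟨f, k⟩, rfl⟩
    refine ⟨k.natAbs, fun j => if j = k then f else 0, ?_, ?_⟩
    · intro j hj
      show (if j = k then f else 0) = 0
      rw [if_neg]
      rintro rfl
      rw [Int.abs_eq_natAbs] at hj
      exact lt_irrefl _ hj
    · unfold laur
      rw [Finset.sum_eq_single k]
      · show ι f * up u k = ι (if k = k then f else 0) * up u k
        rw [if_pos rfl]
      · intro j _ hj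
        show ι (if j = k then f else 0) * up u j = 0
        rw [if_neg hj, map_zero, zero_mul]
      · intro h
        exfalso; apply h
        rw [Finset.mem_Icc]; omega
  · refine ⟨0, 0, fun _ _ => rfl, ?_⟩
    unfold laur
    symm
    refine Finset.sum_eq_zero fun k _ => ?_
    rw [Pi.zero_apply, map_zero, zero_mul]
  · rintro a b _ _ ⟨L, f, hf, rfl⟩ ⟨L', f', hf', rfl⟩
    refine ⟨max L L', f + f', ?_, ?_⟩
    · intro k hk
      rw [Pi.add_apply, hf k (by push_cast at hk; exact (le_max_left _ _).trans_lt hk),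
        hf' k (by push_cast at hk; exact (le_max_right _ _).trans_lt hk), add_zero]
    · rw [← laur_mono (le_max_left L L') f hf, ← laur_mono (le_max_right L L') f' hf']
      unfold laur
      rw [← Finset.sum_add_distrib]
      refine Finset.sum_congr rfl fun k _ => ?_
      rw [Pi.add_apply, map_add, add_mul]
  · rintro c a _ ⟨L, f, hf, rfl⟩
    refine ⟨L, c • f, ?_, ?_⟩
    · intro k hk
      rw [Pi.smul_apply, hf k hk, smul_zero]
    · unfold laur
      rw [Finset.smul_sum]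
      refine Finset.sum_congr rfl fun k _ => ?_
      rw [Pi.smul_apply, map_smul, smul_mul_assoc]

lemma LSp_mul (hc : Covariant T ι u) {a b : C} (ha : a ∈ LSp ι u) (hb : b ∈ LSp ι u) :
    a * b ∈ LSp ι u := by
  refine Submodule.span_induction (p := fun a _ => a * b ∈ LSp ι u) ?_ ?_ ?_ ?_ ha
  · rintro _ ⟨⟨f, k⟩, rfl⟩
    refine Submodule.span_induction (p := fun b _ => ι f * up u k * b ∈ LSp ι u) ?_ ?_ ?_ ?_ hb
    · rintro _ ⟨⟨g, l⟩, rfl⟩
      have h : ι f * up u k * (ι g * up u l) = ι (f * cT T (-k) g) * up u (k + l) := by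
        calc ι f * up u k * (ι g * up u l) = ι f * (up u k * ι g) * up u l := by noncomm_ring
          _ = _ := by rw [cov_up hc, map_mul, up_add]; noncomm_ring
      rw [h]; exact gen_mem_LSp _ _
    · rw [mul_zero]; exact zero_mem _
    · intro x y _ _ hx hy; rw [mul_add]; exact add_mem hx hy
    · intro c x _ hx; rw [mul_smul_comm]; exact Submodule.smul_mem _ _ hx
  · rw [zero_mul]; exact zero_mem _
  · intro x y _ _ hx hy; rw [add_mul]; exact add_mem hx hy
  · intro c x _ hx; rw [smul_mul_assoc]; exact Submodule.smul_mem _ _ hx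

lemma LSp_star (hc : Covariant T ι u) {a : C} (ha : a ∈ LSp ι u) : star a ∈ LSp ι u := by
  refine Submodule.span_induction (p := fun a _ => star a ∈ LSp ι u) ?_ ?_ ?_ ?_ ha
  · rintro _ ⟨⟨f, k⟩, rfl⟩
    have h : star (ι f * up u k) = ι (cT T k (star f)) * up u (-k) := by
      rw [star_mul, star_up, ← map_star, cov_up hc, neg_neg]
    rw [h]; exact gen_mem_LSp _ _
  · rw [star_zero]; exact zero_mem _
  · intro x y _ _ hx hy; rw [star_add]; exact add_mem hx hy
  · intro c x _ hx; rw [star_smul]; exact Submodule.smul_mem _ _ hx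

lemma ι_mem_LSp (f : C(X, ℂ)) : ι f ∈ LSp ι u := by
  have := gen_mem_LSp (ι := ι) (u := u) f 0
  rwa [up_zero, mul_one] at this

lemma u_mem_LSp : (u : C) ∈ LSp ι u := by
  have := gen_mem_LSp (ι := ι) (u := u) 1 1
  rwa [up_one, map_one, one_mul] at this

/-- the C*-subalgebra generated by a covariant pair -/
def LS (hc : Covariant T ι u) : StarSubalgebra ℂ C :=
  StarSubalgebra.topologicalClosure
    { carrier := LSp ι u
      mul_mem' := fun ha hb => LSp_mul hc ha hb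
      one_mem' := by
        have := ι_mem_LSp (ι := ι) (u := u) 1
        rwa [map_one] at this
      add_mem' := fun ha hb => add_mem ha hb
      zero_mem' := zero_mem _
      algebraMap_mem' := fun c => by
        have := ι_mem_LSp (ι := ι) (u := u) (algebraMap ℂ _ c)
        rwa [AlgHomClass.commutes] at this
      star_mem' := fun ha => LSp_star hc ha }

lemma LS_coe (hc : Covariant T ι u) : (LS hc : Set C) = closure (LSp ι u : Set C) := rfl

lemma mem_LS (hc : Covariant T ι u) {a : C} (ha : a ∈ LSp ι u) : a ∈ LS hc := by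
  rw [← SetLike.mem_coe, LS_coe]
  exact subset_closure ha

instance (hc : Covariant T ι u) : IsClosed (LS hc : Set C) := by
  rw [LS_coe]; exact isClosed_closure

instance LS.instC (hc : Covariant T ι u) : CStarAlgebra (LS hc) := StarSubalgebra.cstarAlgebra _

/-- the corestricted pair -/
def LSι (hc : Covariant T ι u) : C(X, ℂ) →⋆ₐ[ℂ] LS hc where
  toFun f := ⟨ι f, mem_LS hc (ι_mem_LSp f)⟩
  map_one' := Subtype.ext (map_one ι)
  map_mul' f g := Subtype.ext (map_mul ι f g)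
  map_zero' := Subtype.ext (map_zero ι)
  map_add' f g := Subtype.ext (map_add ι f g)
  commutes' c := Subtype.ext (AlgHomClass.commutes ι c)
  map_star' f := Subtype.ext (map_star ι f)

def LSu (hc : Covariant T ι u) : unitary (LS hc) :=
  ⟨⟨u, mem_LS hc u_mem_LSp⟩, by
    rw [Unitary.mem_iff]
    exact ⟨Subtype.ext (Unitary.coe_star_mul_self u), Subtype.ext (Unitary.coe_mul_star_self u)⟩⟩

lemma LS_cov (hc : Covariant T ι u) : Covariant T (LSι hc) (LSu hc) := fun f =>
  Subtype.ext (hc f)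

/-- inclusion -/
def LSi (hc : Covariant T ι u) : LS hc →⋆ₐ[ℂ] C := (LS hc).subtype

lemma LSi_apply (hc : Covariant T ι u) (a : LS hc) : LSi hc a = a.1 := rfl

/-- laurent polynomials in the subalgebra -/
lemma LSi_laur (hc : Covariant T ι u) (L : ℕ) (f : ℤ → C(X, ℂ)) :
    (laur (LSu hc) (LSι hc) L f : LS hc).1 = laur u ι L f :=
  map_laur (LSi hc) (fun _ => rfl) rfl L f

lemma LS_dense (hc : Covariant T ι u) (a : LS hc) (ε : ℝ) (hε : 0 < ε) :
    ∃ (L : ℕ) (f : ℤ → C(X, ℂ)), (∀ k : ℤ, (L : ℤ) < |k| → f k = 0) ∧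
      ‖a - laur (LSu hc) (LSι hc) L f‖ < ε := by
  have ha : a.1 ∈ closure (LSp ι u : Set C) := a.2
  obtain ⟨b, hb, hab⟩ := Metric.mem_closure_iff.mp ha ε hε
  obtain ⟨L, f, hf, rfl⟩ := LSp_laur hb
  refine ⟨L, f, hf, ?_⟩
  rw [dist_eq_norm_sub] at hab
  rw [← LSi_laur hc] at hab
  exact hab

/-- homomorphisms which agree on the generators agree -/
lemma LS_ext (hc : Covariant T ι u) (φ φ' : LS hc →⋆ₐ[ℂ] C') (h1 : ∀ f, φ (LSι hc f) = φ' (LSι hc f))
    (h2 : φ (LSu hc : LS hc) = φ' (LSu hc : LS hc)) : φ = φ' := by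
  ext1 a
  rw [← sub_eq_zero, ← norm_le_zero_iff]
  refine le_of_forall_pos_le_add fun ε hε => ?_
  obtain ⟨L, f, -, hLf⟩ := LS_dense hc a (ε / 2) (by positivity)
  set y := laur (LSu hc) (LSι hc) L f with hy
  let w : unitary C' := ⟨φ' (LSu hc : LS hc), by
    have h := Unitary.mem_iff.mp (LSu hc).2
    rw [Unitary.mem_iff, ← map_star, ← map_mul, ← map_mul, h.1, h.2, map_one]
    exact ⟨rfl, rfl⟩⟩
  have h3 : φ y = φ' y := by
    rw [hy, map_laur φ (ι' := φ'.comp (LSι hc)) (u' := w) h1 h2,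
      map_laur φ' (ι' := φ'.comp (LSι hc)) (u' := w) (fun _ => rfl) rfl]
  have e : φ a - φ' a = φ (a - y) - φ' (a - y) := by
    rw [map_sub, map_sub, h3]; abel
  rw [e, zero_add]
  calc _ ≤ ‖φ (a - y)‖ + ‖φ' (a - y)‖ := norm_sub_le _ _
    _ ≤ ‖a - y‖ + ‖a - y‖ := add_le_add (NonUnitalStarAlgHom.norm_apply_le φ _)
        (NonUnitalStarAlgHom.norm_apply_le φ' _)
    _ ≤ ε := by linarith

end

theorem cp3 : S_CP3 := by
  intro X _ _ _ T A _ ι u hA a ε hε
  obtain ⟨φ, ⟨hφ1, hφ2⟩, -⟩ := hA.univ (LS hA.cov) (LSι hA.cov) (LSu hA.cov) (LS_cov hA.cov)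
  obtain ⟨ψ, -, hψ⟩ := hA.univ A ι u hA.cov
  have h1 : (LSi hA.cov).comp φ = ψ := hψ _ ⟨fun f => by
    show LSi hA.cov (φ (ι f)) = ι f
    rw [hφ1]; rfl, by
    show LSi hA.cov (φ u) = u
    rw [hφ2]; rfl⟩
  have h2 : StarAlgHom.id ℂ A = ψ := hψ _ ⟨fun f => rfl, rfl⟩
  have h3 : (φ a).1 = a := by
    have := congrArg (fun χ : A →⋆ₐ[ℂ] A => χ a) (h1.trans h2.symm)
    exact this
  obtain ⟨L, f, -, hLf⟩ := LS_dense hA.cov (φ a) ε hε
  refine ⟨L, f, ?_⟩
  have h4 : ‖(φ a).1 - (laur (LSu hA.cov) (LSι hA.cov) L f : LS hA.cov).1‖ < ε := hLf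
  rw [h3, LSi_laur] at h4
  exact h4

theorem cp2 : S_CP2 := by
  intro X _ _ _ T A _ ι u hA
  have h1 : ∀ x : X, ∃ π : A →⋆ₐ[ℂ] (HH →L[ℂ] HH), (∀ f, π (ι f) = rep T x f) ∧ π (u : A) = Sh :=
    fun x => (hA.univ (HH →L[ℂ] HH) (rep T x) Sh (rep_cov T x)).exists
  choose π hπ1 hπ2 using h1
  have hlaur : ∀ x L f, π x (laur u ι L f) = laur Sh (rep T x) L f := fun x L f =>
    map_laur (π x) (hπ1 x) (hπ2 x) L f
  have hdense : ∀ (a : A) (ε : ℝ), 0 < ε → ∃ (L : ℕ) (f : ℤ → C(X, ℂ)),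
      (∀ k : ℤ, (L : ℤ) < |k| → f k = 0) ∧ ‖a - laur u ι L f‖ < ε := by
    intro a ε hε
    obtain ⟨L, f, hf⟩ := cp3 X T A ι u hA a ε hε
    refine ⟨L, fun k => if |k| ≤ (L : ℤ) then f k else 0, fun k hk => if_neg (not_le.mpr hk), ?_⟩
    rw [← laur_trunc]
    exact hf
  refine ⟨π, ⟨fun x => ⟨fun f i => ?_, fun i => ?_⟩, ?_, ?_⟩⟩
  · rw [hπ1, rep_dl]
  · rw [hπ2, Sh_dl]
  · intro a i j
    refine continuous_of_uniform_approx_of_continuous fun V hV => ?_
    obtain ⟨ε, hε, hVε⟩ := Metric.mem_uniformity_dist.mp hV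
    obtain ⟨L, f, hf, hLf⟩ := hdense a ε hε
    refine ⟨fun x => f (i - j) ((T ^ i : X ≃ₜ X) x),
      (f (i - j)).continuous.comp (T ^ i : X ≃ₜ X).continuous, fun x => hVε ?_⟩
    rw [dist_eq_norm_sub]
    show ‖⟪dl i, π x a (dl j)⟫_ℂ - f (i - j) ((T ^ i : X ≃ₜ X) x)‖ < ε
    rw [← rep_laur_coef T x L f hf i j, ← hlaur, ← inner_sub_right,
      ← _root_.sub_apply, ← map_sub]
    refine (coef_le _ i j).trans_lt (lt_of_le_of_lt ?_ hLf)
    exact NonUnitalStarAlgHom.norm_apply_le (π x) _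
  · intro a ha
    rw [← norm_le_zero_iff]
    refine le_of_forall_pos_le_add fun ε hε => ?_
    obtain ⟨L, f, hf, hLf⟩ := hdense a (ε / 2) (by positivity)
    set y := laur u ι L f with hy
    have h2 : ‖y‖ ≤ ε / 2 := by
      refine fejer hA.cov L f hf (ε / 2) (by positivity) fun x => ?_
      rw [← hlaur, ← hy]
      have h3 : π x y = π x (y - a) := by rw [map_sub, ha x, sub_zero]
      rw [h3]
      refine (NonUnitalStarAlgHom.norm_apply_le (π x) _).trans ?_
      rw [norm_sub_rev]; exact hLf.le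
    calc ‖a‖ = ‖(a - y) + y‖ := by rw [sub_add_cancel]
      _ ≤ ‖a - y‖ + ‖y‖ := norm_add_le _ _
      _ ≤ 0 + ε := by linarith

/-! ### Existence -/

/-- `X` with the discrete topology -/
def DX (X : Type) : Type := X

instance (X : Type) : TopologicalSpace (DX X) := ⊥
instance (X : Type) : DiscreteTopology (DX X) := ⟨rfl⟩

/-- the operators on `HH` -/
def OP : Type := HH →L[ℂ] HH

instance : CStarAlgebra OP := inferInstanceAs (CStarAlgebra (HH →L[ℂ] HH))

section
variable {X : Type} [TopologicalSpace X] [CompactSpace X] (T : X ≃ₜ X)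

/-- the C*-algebra of bounded families of operators -/
abbrev BB (X : Type) : Type := DX X →ᵇ OP

lemma rep_norm (x : X) (f : C(X, ℂ)) : ‖rep T x f‖ ≤ ‖f‖ :=
  NonUnitalStarAlgHom.norm_apply_le (rep T x) f

/-- all orbit representations -/
def repB : C(X, ℂ) →⋆ₐ[ℂ] BB X where
  toFun f := BoundedContinuousFunction.ofNormedAddCommGroupDiscrete
    (fun x : DX X => (rep T x f : OP)) ‖f‖ fun x => rep_norm T x f
  map_one' := by ext1 x; exact map_one (rep T x)
  map_mul' f g := by ext1 x; exact map_mul (rep T x) f g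
  map_zero' := by ext1 x; exact map_zero (rep T x)
  map_add' f g := by ext1 x; exact map_add (rep T x) f g
  commutes' c := by ext1 x; exact AlgHomClass.commutes (rep T x) c
  map_star' f := by ext1 x; exact map_star (rep T x) f

def ShB (X : Type) : unitary (BB X) :=
  ⟨BoundedContinuousFunction.const (DX X) ((Sh : HH →L[ℂ] HH) : OP), by
    rw [Unitary.mem_iff]
    constructor
    · ext1 x; exact Unitary.coe_star_mul_self Sh
    · ext1 x; exact Unitary.coe_mul_star_self Sh⟩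

lemma repB_cov : Covariant T (repB T) (ShB X) := by
  intro f
  ext1 x
  exact rep_cov T x f

/-- evaluation -/
def evB (x : X) : BB X →⋆ₐ[ℂ] (HH →L[ℂ] HH) where
  toFun F := F (x : DX X)
  map_one' := rfl
  map_mul' _ _ := rfl
  map_zero' := rfl
  map_add' _ _ := rfl
  commutes' _ := rfl
  map_star' _ := rfl

lemma fejer' {B : Type} [CStarAlgebra B] {π : C(X, ℂ) →⋆ₐ[ℂ] B} {v : unitary B}
    (hc : Covariant T π v) (L : ℕ) (f : ℤ → C(X, ℂ)) (hf : ∀ k : ℤ, (L : ℤ) < |k| → f k = 0) :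
    ‖laur v π L f‖ ≤ ‖laur (ShB X) (repB T) L f‖ := by
  refine fejer hc L f hf _ (norm_nonneg _) fun x => ?_
  rw [← map_laur (evB x) (ι := repB T) (u := ShB X) (ι' := rep T x) (u' := Sh) (fun _ => rfl) rfl]
  exact NonUnitalStarAlgHom.norm_apply_le (evB x) _

end

theorem cp1 : S_CP1 := by
  intro X _ _ _ T
  set hc := repB_cov T with hhc
  refine ⟨LS hc, LS.instC hc, LSι hc, LSu hc, LS_cov hc, fun B _ π v hv => ?_⟩
  -- the graph algebra
  let ιP : C(X, ℂ) →⋆ₐ[ℂ] (BB X × B) := (repB T).prod π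
  let uP : unitary (BB X × B) := ⟨((ShB X : BB X), (v : B)), by
    rw [Unitary.mem_iff]
    exact ⟨Prod.ext (Unitary.coe_star_mul_self _) (Unitary.coe_star_mul_self _),
      Prod.ext (Unitary.coe_mul_star_self _) (Unitary.coe_mul_star_self _)⟩⟩
  have hcP : Covariant T ιP uP := fun f => Prod.ext (hc f) (hv f)
  have hl1 : ∀ L f, (laur uP ιP L f).1 = laur (ShB X) (repB T) L f := fun L f =>
    map_laur (StarAlgHom.fst ℂ (BB X) B) (fun _ => rfl) rfl L f
  have hl2 : ∀ L f, (laur uP ιP L f).2 = laur v π L f := fun L f =>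
    map_laur (StarAlgHom.snd ℂ (BB X) B) (fun _ => rfl) rfl L f
  have hle : ∀ g : LS hcP, ‖g.1.2‖ ≤ ‖g.1.1‖ := by
    intro g
    have h1 : IsClosed {a : BB X × B | ‖a.2‖ ≤ ‖a.1‖} :=
      isClosed_le (continuous_norm.comp continuous_snd) (continuous_norm.comp continuous_fst)
    have h2 : (LSp ιP uP : Set (BB X × B)) ⊆ {a | ‖a.2‖ ≤ ‖a.1‖} := by
      intro a ha
      obtain ⟨L, f, hf, rfl⟩ := LSp_laur ha
      show ‖(laur uP ιP L f).2‖ ≤ ‖(laur uP ιP L f).1‖
      rw [hl1, hl2]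
      exact fejer' T hv L f hf
    exact closure_minimal h2 h1 g.2
  have hmem : ∀ g : LS hcP, g.1.1 ∈ LS hc := by
    intro g
    have h1 : IsClosed {a : BB X × B | a.1 ∈ LS hc} :=
      IsClosed.preimage continuous_fst (inferInstance : IsClosed (LS hc : Set (BB X)))
    have h2 : (LSp ιP uP : Set (BB X × B)) ⊆ {a | a.1 ∈ LS hc} := by
      intro a ha
      obtain ⟨L, f, hf, rfl⟩ := LSp_laur ha
      show (laur uP ιP L f).1 ∈ LS hc
      rw [hl1]
      exact mem_LS hc (laur_mem_LSp L f)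
    exact closure_minimal h2 h1 g.2
  let p1 : LS hcP →⋆ₐ[ℂ] LS hc :=
    { toFun := fun g => ⟨g.1.1, hmem g⟩
      map_one' := rfl
      map_mul' := fun _ _ => rfl
      map_zero' := rfl
      map_add' := fun _ _ => rfl
      commutes' := fun _ => rfl
      map_star' := fun _ => rfl }
  have hinj : Function.Injective p1 := by
    rw [injective_iff_map_eq_zero]
    intro g hg
    have h1 : g.1.1 = 0 := congrArg Subtype.val hg
    have h2 := hle g
    rw [h1, norm_zero] at h2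
    exact Subtype.ext (Prod.ext h1 (norm_le_zero_iff.mp h2))
  have hiso : Isometry p1 := AddMonoidHomClass.isometry_of_norm p1 fun g =>
    NonUnitalStarAlgHom.norm_map p1 hinj g
  have hcl : IsClosed (Set.range p1) := hiso.isClosedEmbedding.isClosed_range
  have hp1l : ∀ L f, p1 (laur (LSu hcP) (LSι hcP) L f) = laur (LSu hc) (LSι hc) L f := fun L f =>
    map_laur p1 (fun _ => rfl) rfl L f
  have hsurj : Function.Surjective p1 := by
    intro s
    have h1 : s ∈ closure (Set.range p1) := by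
      rw [Metric.mem_closure_iff]
      intro ε hε
      obtain ⟨L, f, -, hLf⟩ := LS_dense hc s ε hε
      refine ⟨_, ⟨laur (LSu hcP) (LSι hcP) L f, rfl⟩, ?_⟩
      rw [hp1l, dist_eq_norm_sub]
      exact hLf
    rw [hcl.closure_eq] at h1
    exact h1
  let E : LS hcP ≃⋆ₐ[ℂ] LS hc := StarAlgEquiv.ofBijective p1 ⟨hinj, hsurj⟩
  let p2 : LS hcP →⋆ₐ[ℂ] B := (StarAlgHom.snd ℂ (BB X) B).comp (LSi hcP)
  let φ : LS hc →⋆ₐ[ℂ] B := p2.comp (E.symm : LS hc →⋆ₐ[ℂ] LS hcP)
  have hE1 : ∀ f, E (LSι hcP f) = LSι hc f := fun f => rfl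
  have hE2 : E (LSu hcP : LS hcP) = (LSu hc : LS hc) := rfl
  have hφ1 : ∀ f, φ (LSι hc f) = π f := by
    intro f
    show p2 (E.symm (LSι hc f)) = π f
    rw [← hE1, E.symm_apply_apply]; rfl
  have hφ2 : φ (LSu hc : LS hc) = v := by
    show p2 (E.symm (LSu hc : LS hc)) = v
    rw [← hE2, E.symm_apply_apply]; rfl
  refine ⟨φ, ⟨hφ1, hφ2⟩, ?_⟩
  rintro ψ ⟨h1, h2⟩
  exact LS_ext hc ψ φ (fun f => by rw [h1, hφ1]) (by rw [h2, hφ2])

end Run7.h745
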