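import Pool.Agent.Run7.h745.Ell

/-!
# Piece FK1: from towers to matrices
-/

set_option autoImplicit false
set_option linter.unusedSectionVars false

noncomputable section

namespace Run7.h745

open Filter Topology Matrix Pool.Agent.TH249

lemma cls_zero_size {A : Type} [CStarAlgebra A] (M : Matrix (Fin 0) (Fin 0) A) (hM : IsPrj M) :
    K0.cls ⟨0, M, hM⟩ = 0 := by
  have h1 : V.mk ⟨0, M, hM⟩ = 0 := by
    rw [vI_mk]
    exact vI_empty (I := Fin 0) M hM
  unfold K0.cls
  rw [h1, map_zero]

lemma isStarProjection_of {A : Type} [CStarAlgebra A] {k : ℕ} {M : Matrix (Fin k) (Fin k) A}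
    (hM : IsPrj M) : IsStarProjection (Mat.of M) :=
  ⟨by show Mat.of M * Mat.of M = _; rw [← map_mul, hM.2],
    by show star (Mat.of M) = _; rw [← map_star, star_eq_conjTranspose, hM.1]⟩

lemma kapK_of {A : Type} [CStarAlgebra A] {K : ℕ} {M : Matrix (Fin (K + 1)) (Fin (K + 1)) A}
    (hM : IsPrj M) : kapK A K (K0.cls (Prj.of (Mat.of M) (isStarProjection_of hM))) =
      K0.cls ⟨K + 1, M, hM⟩ := by
  unfold K0.cls
  rw [kapK_ofV]
  congr 1
  rw [vI_mk ⟨K + 1, M, hM⟩]
  show vI (fl (Matrix.of fun (_ _ : Fin 1) => Mat.of M)) (isPrj_fl (isPrj_of (Mat.of M)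
    (isStarProjection_of hM))) = _
  rw [vI_eq]
  refine Eqv.of_submatrix (isPrj_fl (isPrj_of (Mat.of M) (isStarProjection_of hM)))
    (Equiv.uniqueProd (Fin (K + 1)) (Fin 1)).symm ?_
  rfl

theorem fk1 : S_FK1 := by
  intro sys2 cp4 _ hg X _ _ _ T D A _ ι u hA P
  obtain ⟨n, M, hM⟩ := P
  cases n with
  | zero =>
    refine ⟨0, 0, gen D ι 0, isG_gen D 0, ?_⟩
    rw [cls_zero_size M hM]
    simp
  | succ K =>
    obtain ⟨T', hT', -, hD'⟩ := sys2 X T K
    obtain ⟨D', -, -, -, hVT⟩ := hD' D
    obtain ⟨ι', u', hA', hι'⟩ := cp4 X T A ι u K T' hA hT'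
    obtain ⟨n, r, g', hg', he⟩ := hg _ T' D' _ ι' u' hA' (Mat.of M) (isStarProjection_of hM)
    refine ⟨n, r, gen D ι n, isG_gen D n, ?_⟩
    have h1 := congrArg (kapK A K) he
    rw [map_add, map_zsmul, map_zsmul, kapK_of hM] at h1
    have h3 : ∀ s, kapK A K (K0.cls (g' s)) = K0.cls (gen D ι n s) := by
      intro s
      rw [hg'.K0_cls D' s]
      have e1 : ι' (ind (D'.VT n s)) = Mat.of (Matrix.diagonal fun p =>
          if p = 0 then ι (ind (D.VT n s)) else 0) := by
        rw [hι']
        congr 2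
        funext p
        by_cases hp : p = 0
        · subst hp
          rw [if_pos rfl]
          congr 1
          ext x
          show ind (D'.VT n s) (x, 0) = ind (D.VT n s) x
          have h2 : (x, (0 : Fin (K + 1))) ∈ D'.VT n s ↔ x ∈ D.VT n s := by
            rw [hVT]
            exact ⟨fun h => h.1, fun h => ⟨h, rfl⟩⟩
          by_cases hx : x ∈ D.VT n s
          · rw [ind_mem (D'.isClopen_VT n s) (h2.mpr hx), ind_mem (D.isClopen_VT n s) hx]
          · rw [ind_notMem (D'.isClopen_VT n s) (fun h => hx (h2.mp h)),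
              ind_notMem (D.isClopen_VT n s) hx]
        · rw [if_neg hp, ← map_zero ι]
          congr 1
          ext x
          show ind (D'.VT n s) (x, p) = 0
          rw [ind_apply (D'.isClopen_VT n s), hVT]
          simp [hp]
      have e2 : ∀ p : Fin (K + 1), IsStarProjection (if p = 0 then ι (ind (D.VT n s)) else 0) := by
        intro p
        split_ifs
        · exact isStarProjection_ind ι (D.isClopen_VT n s)
        · exact isStarProjection_zero'
      have e3 : gen D' ι' n s = Prj.of (Mat.of (Matrix.diagonal fun p : Fin (K + 1) =>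
          if p = 0 then ι (ind (D.VT n s)) else 0))
          (isStarProjection_of (isPrj_diagonal _ e2)) := by
        unfold gen
        congr 1
      rw [e3, kapK_of (isPrj_diagonal _ e2)]
      unfold K0.cls
      congr 1
      rw [vI_mk]
      show vI (Matrix.diagonal fun p : Fin (K + 1) => if p = 0 then ι (ind (D.VT n s)) else 0)
        (isPrj_diagonal _ e2) = _
      rw [vI_diag _ e2, Finset.sum_eq_single 0]
      · exact v1_congr _ (if_pos rfl)
      · intro b _ hb
        exact (v1_congr _ (if_neg hb)).trans v1_zero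
      · intro h; exact absurd (Finset.mem_univ _) h
    rw [h1, h3, h3]

end Run7.h745
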