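import Pool.Agent.Run7.h745.Tr
import Pool.Agent.Run7.h745.FK1

/-!
# Piece FK2: `K_0(A)` is uniquely 2-divisible and 2-unperforated
-/

set_option autoImplicit false
set_option linter.unusedSectionVars false

noncomputable section

namespace Run7.h745

open Filter Topology Matrix Pool.Agent.TH249
open scoped InnerProductSpace

section
variable {X : Type} [TopologicalSpace X] [CompactSpace X] {T : X ≃ₜ X} (D : TowerData X T)
  {A : Type} [CStarAlgebra A] {ι : C(X, ℂ) →⋆ₐ[ℂ] A} {u : unitary A}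

lemma isClopen_empty' : IsClopen (∅ : Set X) := isClopen_empty

lemma vS_empty : vS ι (∅ : Set X) isClopen_empty = 0 := by
  unfold vS
  exact (v1_congr _ (by rw [ind_empty, map_zero])).trans v1_zero

lemma vS_biUnion {α : Type} (s : Finset α) (W : α → Set X) (hW : ∀ j, IsClopen (W j))
    (hd : ∀ i ∈ s, ∀ j ∈ s, i ≠ j → Disjoint (W i) (W j)) (S : Set X) (hS : IsClopen S)
    (h : S = ⋃ j ∈ s, W j) : vS ι S hS = ∑ j ∈ s, vS ι (W j) (hW j) := by
  classical
  induction s using Finset.induction_on generalizing S with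
  | empty =>
    rw [Finset.sum_empty]
    have h1 : S = ∅ := by rw [h]; simp
    exact (vS_congr hS h1).trans vS_empty
  | insert a s ha ih =>
    have hc : IsClopen (⋃ j ∈ s, W j) :=
      Set.Finite.isClopen_biUnion (Finset.finite_toSet s) fun j _ => hW j
    have h1 : S = W a ∪ ⋃ j ∈ s, W j := by rw [h, Finset.set_biUnion_insert]
    have hdis : Disjoint (W a) (⋃ j ∈ s, W j) := by
      rw [Set.disjoint_iUnion₂_right]
      intro j hj
      exact hd a (Finset.mem_insert_self _ _) j (Finset.mem_insert_of_mem hj)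
        (fun e => ha (e ▸ hj))
    rw [Finset.sum_insert ha, ← ih (fun i hi j hj => hd i (Finset.mem_insert_of_mem hi) j
      (Finset.mem_insert_of_mem hj)) _ hc rfl, ← vS_union (hW a) hc hdis]
    exact vS_congr hS h1

/-- what is left of `VT n s` in the `j`-th sub-block -/
def TowerData.Zj (n j : ℕ) (s : Bool) : Set X :=
  if j ∈ D.fidx n then D.VT (n + 1) s else if D.sty n j = s then D.V (n + 1) else ∅

lemma TowerData.isClopen_Zj (n j : ℕ) (s : Bool) : IsClopen (D.Zj n j s) := by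
  unfold TowerData.Zj
  split_ifs
  · exact D.isClopen_VT _ _
  · exact D.isClopen_V _
  · exact isClopen_empty

lemma TowerData.Zj_sub (n j : ℕ) (s : Bool) : D.Zj n j s ⊆ D.V (n + 1) := by
  unfold TowerData.Zj
  split_ifs
  · exact D.VT_sub _ _
  · exact le_rfl
  · exact Set.empty_subset _

lemma TowerData.mem_VT_sub (n j : ℕ) (hj : j < D.q n) (s : Bool) (y : X) (hy : y ∈ D.V (n + 1)) :
    (T ^ ((j * D.h n : ℕ) : ℤ) : X ≃ₜ X) y ∈ D.VT n s ↔ y ∈ D.Zj n j s := by
  have hyn : y ∈ D.V n := D.V_succ n hy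
  have hV : (T ^ ((j * D.h n : ℕ) : ℤ) : X ≃ₜ X) y ∈ D.V n := by
    rw [D.mem_V_iff n _ y hyn]
    push_cast
    exact dvd_mul_left _ _
  have hty : ∀ i : ℕ, (T ^ (i : ℤ) : X ≃ₜ X) ((T ^ ((j * D.h n : ℕ) : ℤ) : X ≃ₜ X) y) =
      (T ^ ((j * D.h n + i : ℕ) : ℤ) : X ≃ₜ X) y := by
    intro i
    rw [← zp_add]
    congr 2
    push_cast; ring
  obtain ⟨i₀, hi₀⟩ := D.free_nonempty n
  unfold TowerData.Zj
  by_cases hf : j ∈ D.fidx n
  · rw [if_pos hf]
    have hfree : ∀ i ∈ D.free n, j * D.h n + i ∈ D.free (n + 1) := by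
      intro i hi
      rw [D.free_succ]
      have hi' := D.free_lt n i hi
      rw [add_comm, Nat.add_mul_div_right _ _ (D.h_pos n), Nat.div_eq_of_lt hi', zero_add,
        Nat.add_mul_mod_self_right, Nat.mod_eq_of_lt hi']
      exact ⟨hf, hi⟩
    constructor
    · intro h
      refine ⟨hy, fun i hi => ?_⟩
      have h1 := h.2 i₀ hi₀
      rw [hty] at h1
      rw [D.free_ty (n + 1) y hy i hi _ (hfree i₀ hi₀), h1]
    · intro h
      refine ⟨hV, fun i hi => ?_⟩
      rw [hty]
      exact h.2 _ (hfree i hi)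
  · rw [if_neg hf]
    have h1 := D.sty_spec n y hy j hj hf
    by_cases hs : D.sty n j = s
    · rw [if_pos hs]
      refine ⟨fun _ => hy, fun _ => ⟨hV, fun i hi => ?_⟩⟩
      rw [hty, h1 i hi, hs]
    · rw [if_neg hs]
      refine ⟨fun h => ?_, fun h => absurd h (Set.notMem_empty _)⟩
      have h2 := h.2 i₀ hi₀
      rw [hty, h1 i₀ hi₀] at h2
      exact absurd h2 hs

lemma TowerData.VT_decomp (n : ℕ) (s : Bool) : D.VT n s =
    ⋃ j ∈ Finset.range (D.q n), (T ^ (-((j * D.h n : ℕ) : ℤ)) : X ≃ₜ X) ⁻¹' D.Zj n j s := by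
  ext x
  simp only [Set.mem_iUnion, Finset.mem_range, Set.mem_preimage]
  constructor
  · intro hx
    obtain ⟨i, ⟨hi, hi'⟩, -⟩ := D.part (n + 1) x
    have hyn := D.V_succ n hi'
    have h1 : (T ^ (i : ℤ) : X ≃ₜ X) ((T ^ (-(i : ℤ)) : X ≃ₜ X) x) ∈ D.V n := by
      rw [zp_cancel_neg]; exact hx.1
    rw [D.mem_V_iff n _ _ hyn] at h1
    obtain ⟨j, hj⟩ := Int.natCast_dvd_natCast.mp h1
    have hj' : i = j * D.h n := by rw [hj, mul_comm]
    have hjq : j < D.q n := by
      rw [hj', D.h_succ] at hi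
      exact Nat.lt_of_mul_lt_mul_right hi
    refine ⟨j, hjq, ?_⟩
    rw [hj'] at hi'
    rw [← D.mem_VT_sub n j hjq s _ hi', zp_cancel_neg]
    exact hx
  · rintro ⟨j, hj, h⟩
    have h2 := (D.mem_VT_sub n j hj s _ (D.Zj_sub n j s h)).mpr h
    rwa [zp_cancel_neg] at h2

lemma TowerData.Zj_disj (n : ℕ) (s : Bool) : ∀ i ∈ Finset.range (D.q n),
    ∀ j ∈ Finset.range (D.q n), i ≠ j →
    Disjoint ((T ^ (-((i * D.h n : ℕ) : ℤ)) : X ≃ₜ X) ⁻¹' D.Zj n i s)
      ((T ^ (-((j * D.h n : ℕ) : ℤ)) : X ≃ₜ X) ⁻¹' D.Zj n j s) := by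
  intro i hi j hj hij
  rw [Finset.mem_range] at hi hj
  have hpos := D.h_pos n
  refine Disjoint.mono (Set.preimage_mono (D.Zj_sub n i s)) (Set.preimage_mono (D.Zj_sub n j s))
    (D.disj (n + 1) _ _ ?_ ?_)
  · intro h
    apply hij
    have h1 : i * D.h n = j * D.h n := by
      have := neg_injective h
      exact_mod_cast this
    exact Nat.eq_of_mul_eq_mul_right hpos h1
  · rw [D.h_succ]
    have h1 : i * D.h n < D.q n * D.h n := Nat.mul_lt_mul_of_pos_right hi hpos
    have h2 : j * D.h n < D.q n * D.h n := Nat.mul_lt_mul_of_pos_right hj hpos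
    rw [abs_lt]
    constructor <;> push_cast at * <;> omega

/-- number of frozen sub-blocks of type `s` -/
def TowerData.en (n : ℕ) (s : Bool) : ℕ :=
  ((Finset.range (D.q n)).filter fun j => j ∉ D.fidx n ∧ D.sty n j = s).card

/-- class of the level `n` blocks of type `s` in `K_0` -/
def TowerData.Gc (ι : C(X, ℂ) →⋆ₐ[ℂ] A) (n : ℕ) (s : Bool) : K0 A := K0.cls (gen D ι n s)

lemma TowerData.vS_step (hc : Covariant T ι u) (n : ℕ) (s : Bool) :
    vS ι (D.VT n s) (D.isClopen_VT n s) =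
      (D.fidx n).card • vS ι (D.VT (n + 1) s) (D.isClopen_VT (n + 1) s) +
      D.en n s • (vS ι (D.VT (n + 1) false) (D.isClopen_VT (n + 1) false) +
        vS ι (D.VT (n + 1) true) (D.isClopen_VT (n + 1) true)) := by
  classical
  have hcl : ∀ j : ℕ, IsClopen ((T ^ (-((j * D.h n : ℕ) : ℤ)) : X ≃ₜ X) ⁻¹' D.Zj n j s) := fun j =>
    isClopen_pre T _ (D.isClopen_Zj n j s)
  rw [vS_biUnion (ι := ι) (Finset.range (D.q n))
    (fun j => (T ^ (-((j * D.h n : ℕ) : ℤ)) : X ≃ₜ X) ⁻¹' D.Zj n j s) hcl (D.Zj_disj n s) _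
    (D.isClopen_VT n s) (D.VT_decomp n s)]
  rw [Finset.sum_congr rfl fun j _ => vS_shift hc (D.isClopen_Zj n j s) _]
  have hV : vS ι (D.V (n + 1)) (D.isClopen_V (n + 1)) =
      vS ι (D.VT (n + 1) false) (D.isClopen_VT (n + 1) false) +
        vS ι (D.VT (n + 1) true) (D.isClopen_VT (n + 1) true) := by
    rw [← vS_union _ _ (D.VT_disj (n + 1))]
    exact vS_congr _ (D.VT_union (n + 1)).symm
  have hterm : ∀ j, vS ι (D.Zj n j s) (D.isClopen_Zj n j s) =
      (if j ∈ D.fidx n then vS ι (D.VT (n + 1) s) (D.isClopen_VT (n + 1) s) else 0) +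
      (if j ∉ D.fidx n ∧ D.sty n j = s then vS ι (D.V (n + 1)) (D.isClopen_V (n + 1)) else 0) := by
    intro j
    by_cases hf : j ∈ D.fidx n
    · rw [if_pos hf, if_neg (fun h => h.1 hf), add_zero]
      refine vS_congr _ ?_
      unfold TowerData.Zj; rw [if_pos hf]
    · rw [if_neg hf, zero_add]
      by_cases hs : D.sty n j = s
      · rw [if_pos ⟨hf, hs⟩]
        refine vS_congr _ ?_
        unfold TowerData.Zj; rw [if_neg hf, if_pos hs]
      · rw [if_neg (fun h => hs h.2)]
        refine (vS_congr _ ?_).trans vS_empty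
        unfold TowerData.Zj; rw [if_neg hf, if_neg hs]
  rw [Finset.sum_congr rfl fun j _ => hterm j, Finset.sum_add_distrib]
  congr 1
  · rw [← Finset.sum_filter, Finset.sum_const]
    congr 1
    congr 1
    ext j
    rw [Finset.mem_filter, Finset.mem_range]
    exact ⟨fun h => h.2, fun h => ⟨by have := (D.fidx_lt n j h).2; omega, h⟩⟩
  · rw [← Finset.sum_filter, Finset.sum_const, hV]
    rfl

lemma TowerData.Gc_step (hc : Covariant T ι u) (n : ℕ) (s : Bool) :
    D.Gc ι n s = (D.fidx n).card • D.Gc ι (n + 1) s +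
      D.en n s • (D.Gc ι (n + 1) false + D.Gc ι (n + 1) true) := by
  have h := congrArg (K0.ofV A) (D.vS_step (ι := ι) (u := u) hc n s)
  rw [map_add, map_nsmul, map_nsmul, map_add] at h
  exact h

/-- `x` is a combination of the classes of level `n` -/
def TowerData.Rp (ι : C(X, ℂ) →⋆ₐ[ℂ] A) (n : ℕ) (R : Bool → ℤ) (x : K0 A) : Prop :=
  x = R false • D.Gc ι n false + R true • D.Gc ι n true

/-- the coefficients at the next level -/
def TowerData.stp (n : ℕ) (R : Bool → ℤ) (s : Bool) : ℤ :=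
  (D.fidx n).card * R s + (D.en n false * R false + D.en n true * R true)

lemma TowerData.Rp_step (hc : Covariant T ι u) {n : ℕ} {R : Bool → ℤ} {x : K0 A}
    (h : D.Rp ι n R x) : D.Rp ι (n + 1) (D.stp n R) x := by
  unfold TowerData.Rp at h ⊢
  rw [h, D.Gc_step hc n false, D.Gc_step hc n true]
  unfold TowerData.stp
  simp only [← natCast_zsmul, smul_add, smul_smul, add_smul]
  have e1 : R false * ((D.en n false : ℕ) : ℤ) = ((D.en n false : ℕ) : ℤ) * R false := mul_comm _ _
  have e2 : R true * ((D.en n true : ℕ) : ℤ) = ((D.en n true : ℕ) : ℤ) * R true := mul_comm _ _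
  have e3 : R false * (((D.fidx n).card : ℕ) : ℤ) = (((D.fidx n).card : ℕ) : ℤ) * R false :=
    mul_comm _ _
  have e4 : R true * (((D.fidx n).card : ℕ) : ℤ) = (((D.fidx n).card : ℕ) : ℤ) * R true :=
    mul_comm _ _
  rw [e1, e2, e3, e4]
  abel

lemma TowerData.stp_diff (n : ℕ) (R : Bool → ℤ) : D.stp n R true - D.stp n R false =
    (D.fidx n).card * (R true - R false) := by
  unfold TowerData.stp; ring

lemma TowerData.stp_even (n : ℕ) (R : Bool → ℤ) (s : Bool) : Even (D.stp n R s) := by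
  unfold TowerData.stp
  have h1 : Even (((D.fidx n).card : ℕ) : ℤ) := by exact_mod_cast D.even_fidx n
  have h2 : ∀ s, Even ((D.en n s : ℕ) : ℤ) := fun s => by exact_mod_cast D.even_sty n s
  exact (h1.mul_right _).add (((h2 false).mul_right _).add ((h2 true).mul_right _))

lemma TowerData.Rp_ge (hc : Covariant T ι u) {n : ℕ} {R : Bool → ℤ} {x : K0 A}
    (h : D.Rp ι n R x) (m : ℕ) (hm : n ≤ m) : ∃ R' : Bool → ℤ, D.Rp ι m R' x ∧
      (((R' true - R' false : ℤ) : ℝ)) = (((R true - R false : ℤ) : ℝ)) / (D.free n).card *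
        (D.free m).card := by
  have hpos : (0 : ℝ) < (D.free n).card := by
    exact_mod_cast Finset.card_pos.mpr (D.free_nonempty n)
  induction m, hm using Nat.le_induction with
  | base => exact ⟨R, h, by field_simp⟩
  | succ m _ ih =>
    obtain ⟨R', h1, h2⟩ := ih
    refine ⟨D.stp m R', D.Rp_step hc h1, ?_⟩
    rw [D.stp_diff, D.card_free_succ]
    push_cast
    push_cast at h2
    rw [h2]
    ring

lemma TowerData.Rp_all (hc : Covariant T ι u) (hG : Gen D ι) (x : K0 A) : ∃ (n : ℕ) (R : Bool → ℤ),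
    D.Rp ι n R x := by
  obtain ⟨P, Q, rfl⟩ := K0.exists_sub x
  obtain ⟨n, r, g, hg, h1⟩ := hG P
  obtain ⟨m, r', g', hg', h2⟩ := hG Q
  rw [hg.K0_cls D, hg.K0_cls D] at h1
  rw [hg'.K0_cls D, hg'.K0_cls D] at h2
  obtain ⟨R, h3, -⟩ := D.Rp_ge hc (R := r) (x := K0.cls P) h1 (max n m) (le_max_left _ _)
  obtain ⟨R', h4, -⟩ := D.Rp_ge hc (R := r') (x := K0.cls Q) h2 (max n m) (le_max_right _ _)
  refine ⟨max n m, fun s => R s - R' s, ?_⟩
  unfold TowerData.Rp at h3 h4 ⊢
  conv_lhs => rw [h3, h4]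
  simp only [sub_smul]
  abel

lemma tr_Gc (τ : TracialState A) (n : ℕ) (s : Bool) :
    τ.onK0 (D.Gc ι n s) = (τ.val (ι (ind (D.VT n s)))).re := by
  unfold TowerData.Gc
  rw [TracialState.onK0_cls]
  unfold TracialState.mat
  congr 1
  show ∑ i : Fin 1, τ.val (ι (ind (D.VT n s))) = _
  simp

lemma TowerData.Gc_pos (n : ℕ) (R : Bool → ℤ) (h : ∀ s, 0 ≤ R s) (x : K0 A) (hx : D.Rp ι n R x) :
    x ∈ K0.pos A := by
  rw [mem_pos]
  obtain ⟨a, ha⟩ := Int.eq_ofNat_of_zero_le (h false)
  obtain ⟨b, hb⟩ := Int.eq_ofNat_of_zero_le (h true)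
  refine ⟨a • V.mk (gen D ι n false) + b • V.mk (gen D ι n true), ?_⟩
  unfold TowerData.Rp at hx
  rw [hx, ha, hb, map_add, map_nsmul, map_nsmul, natCast_zsmul, natCast_zsmul]
  rfl

lemma tr_prj {A : Type} [CStarAlgebra A] (τ : TracialState A) {I : Type} [Fintype I]
    (P : Matrix I I A) (hP : IsPrj P) :
    (τ.mat P).re = ∑ i, ∑ j, (τ.val (star (P j i) * P j i)).re := by
  have h2 : τ.mat P = ∑ i, ∑ j, τ.val (star (P j i) * P j i) := by
    conv_lhs => rw [← hP.2]
    simp only [TracialState.mat, mul_apply, map_sum]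
    refine Finset.sum_congr rfl fun i _ => Finset.sum_congr rfl fun j _ => ?_
    have h3 := congrFun (congrFun hP.1 i) j
    rw [conjTranspose_apply] at h3
    rw [h3]
  rw [h2, Complex.re_sum]
  exact Finset.sum_congr rfl fun i _ => Complex.re_sum _ _

lemma tr_prj_pos {A : Type} [CStarAlgebra A] (τ : TracialState A)
    (hτ : ∀ a : A, a ≠ 0 → 0 < (τ.val (star a * a)).re) {I : Type} [Fintype I]
    (P : Matrix I I A) (hP : IsPrj P) (h0 : P ≠ 0) : 0 < (τ.mat P).re := by
  rw [tr_prj τ P hP]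
  have h1 : ∃ i j, P j i ≠ 0 := by
    by_contra hcon
    push Not at hcon
    exact h0 (by ext j i; exact hcon i j)
  obtain ⟨i, j, hij⟩ := h1
  refine Finset.sum_pos' (fun i _ => Finset.sum_nonneg fun j _ => (τ.nonneg _).1)
    ⟨i, Finset.mem_univ _, Finset.sum_pos' (fun j _ => (τ.nonneg _).1)
      ⟨j, Finset.mem_univ _, hτ _ hij⟩⟩

end

theorem fk2 : S_FK2 := by
  intro X _ _ _ T D A _ ι u π hmin hA hπ av hG
  have hc := hA.cov
  obtain ⟨τf, hf1, hf2⟩ := D.type_trace av hA hπ false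
  obtain ⟨τt, ht1, ht2⟩ := D.type_trace av hA hπ true
  have hcard : ∀ m, ((D.free m).card : ℝ) ≤ D.h m := by
    intro m
    have h4 : D.free m ⊆ Finset.range (D.h m) := fun j hj => Finset.mem_range.mpr (D.free_lt m j hj)
    have h5 := Finset.card_le_card h4
    rw [Finset.card_range] at h5
    exact_mod_cast h5
  -- the formulas for the traces
  have key : ∀ (x : K0 A), ∃ (n : ℕ) (c : ℝ), ∀ m, n ≤ m → ∃ R : Bool → ℤ, D.Rp ι m R x ∧
      (R true : ℝ) - R false = c * (D.free m).card ∧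
      (∃ p : ℝ, 0 ≤ p ∧ p ≤ D.ep m ∧ D.h m * τf.onK0 x = R false + c * (D.free m).card * p) ∧
      ∃ p : ℝ, 0 ≤ p ∧ p ≤ D.ep m ∧ D.h m * τt.onK0 x = R true - c * (D.free m).card * p := by
    intro x
    obtain ⟨n, R, hR⟩ := D.Rp_all hc hG x
    refine ⟨n, ((R true - R false : ℤ) : ℝ) / (D.free n).card, fun m hm => ?_⟩
    obtain ⟨R', h1, h2⟩ := D.Rp_ge hc hR m hm
    have hpos : (0 : ℝ) < D.h m := by exact_mod_cast D.h_pos m
    push_cast at h2
    refine ⟨R', h1, by push_cast; exact h2, ?_, ?_⟩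
    · refine ⟨D.h m * (τf.val (ι (ind (D.VT m true)))).re,
        mul_nonneg hpos.le (tr_ind_nonneg τf (D.isClopen_VT m true)), hf1 m, ?_⟩
      have h3 := tr_VT_add D hc τf m
      have h4 : τf.onK0 x = R' false * (τf.val (ι (ind (D.VT m false)))).re +
          R' true * (τf.val (ι (ind (D.VT m true)))).re := by
        rw [h1, map_add, map_zsmul, map_zsmul, tr_Gc, tr_Gc]
        simp
      push_cast
      rw [← h2, h4]
      have h5 : D.h m * ((τf.val (ι (ind (D.VT m false)))).re +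
        (τf.val (ι (ind (D.VT m true)))).re) = 1 := by rw [h3]; exact mul_inv_cancel₀ hpos.ne'
      linear_combination (R' false : ℝ) * h5
    · refine ⟨D.h m * (τt.val (ι (ind (D.VT m false)))).re,
        mul_nonneg hpos.le (tr_ind_nonneg τt (D.isClopen_VT m false)), ht1 m, ?_⟩
      have h3 := tr_VT_add D hc τt m
      have h4 : τt.onK0 x = R' false * (τt.val (ι (ind (D.VT m false)))).re +
          R' true * (τt.val (ι (ind (D.VT m true)))).re := by
        rw [h1, map_add, map_zsmul, map_zsmul, tr_Gc, tr_Gc]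
        simp
      push_cast
      rw [← h2, h4]
      have h5 : D.h m * ((τt.val (ι (ind (D.VT m false)))).re +
        (τt.val (ι (ind (D.VT m true)))).re) = 1 := by rw [h3]; exact mul_inv_cancel₀ hpos.ne'
      linear_combination (R' true : ℝ) * h5
  have hzero : ∀ x : K0 A, τf.onK0 x = 0 → τt.onK0 x = 0 → x = 0 := by
    intro x h1 h2
    obtain ⟨n, c, hm⟩ := key x
    obtain ⟨m₀, hm₀⟩ := (D.ep_tendsto.eventually
      (gt_mem_nhds (show (0 : ℝ) < 1 / 2 by norm_num))).exists_forall_of_atTop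
    obtain ⟨R, h3, h4, ⟨p, hp0, hp, h5⟩, ⟨q, hq0, hq, h6⟩⟩ := hm (max n m₀) (le_max_left _ _)
    have he := hm₀ (max n m₀) (le_max_right _ _)
    rw [h1, mul_zero] at h5
    rw [h2, mul_zero] at h6
    have h7 : c * (D.free (max n m₀)).card * (1 - p - q) = 0 := by linarith
    have h8 : (1 - p - q) ≠ 0 := by
      have : 0 < 1 - p - q := by linarith
      exact this.ne'
    have h9 : c * (D.free (max n m₀)).card = 0 := by
      rcases mul_eq_zero.mp h7 with h | h
      · exact h
      · exact absurd h h8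
    rw [h9, zero_mul, add_zero] at h5
    rw [h9, zero_mul, sub_zero] at h6
    have e1 : R false = 0 := by exact_mod_cast h5.symm
    have e2 : R true = 0 := by exact_mod_cast h6.symm
    rw [h3, e1, e2]
    simp
  refine ⟨?_, ?_, ?_⟩
  · intro x
    obtain ⟨n, R, hR⟩ := D.Rp_all hc hG x
    have h1 := D.Rp_step hc hR
    obtain ⟨a, ha⟩ := D.stp_even n R false
    obtain ⟨b, hb⟩ := D.stp_even n R true
    refine ⟨a • D.Gc ι (n + 1) false + b • D.Gc ι (n + 1) true, ?_⟩
    unfold TowerData.Rp at h1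
    rw [h1, ha, hb, two_nsmul, add_smul, add_smul]
    abel
  · intro x hx
    apply hzero
    · have := congrArg τf.onK0 hx
      rw [map_nsmul, map_zero, nsmul_eq_mul] at this
      simpa using this
    · have := congrArg τt.onK0 hx
      rw [map_nsmul, map_zero, nsmul_eq_mul] at this
      simpa using this
  · intro x hx
    obtain ⟨P, hP⟩ := hx
    by_cases h0 : P.mat = 0
    · have hcls : K0.cls P = 0 := by
        unfold K0.cls
        have h1 : V.mk P = 0 := by
          rw [V.zero_def, V.mk_eq]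
          refine ⟨0, ?_, ?_⟩
          · rw [h0]; simp
          · ext i; exact Fin.elim0 i
        rw [h1, map_zero]
      have h2x : x = 0 := by
        apply hzero
        · have := congrArg τf.onK0 hP
          rw [hcls, map_nsmul, map_zero, nsmul_eq_mul] at this
          simpa using this.symm
        · have := congrArg τt.onK0 hP
          rw [hcls, map_nsmul, map_zero, nsmul_eq_mul] at this
          simpa using this.symm
      rw [h2x, mem_pos]
      exact ⟨0, (map_zero _).symm⟩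
    · have hpf : 0 < τf.onK0 x := by
        have h1 := tr_prj_pos τf (hf2 hmin) P.mat P.isPrj h0
        rw [← TracialState.onK0_cls, hP, map_nsmul, nsmul_eq_mul] at h1
        push_cast at h1
        linarith
      have hpt : 0 < τt.onK0 x := by
        have h1 := tr_prj_pos τt (ht2 hmin) P.mat P.isPrj h0
        rw [← TracialState.onK0_cls, hP, map_nsmul, nsmul_eq_mul] at h1
        push_cast at h1
        linarith
      obtain ⟨n, c, hm⟩ := key x
      have htd : Tendsto (fun m => |c| * D.ep m) atTop (𝓝 0) := by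
        have := D.ep_tendsto.const_mul |c|
        rwa [mul_zero] at this
      obtain ⟨m₀, hm₀⟩ := (htd.eventually (gt_mem_nhds
        (lt_min hpf hpt))).exists_forall_of_atTop
      obtain ⟨R, h3, h4, ⟨p, hp0, hp, h5⟩, ⟨q, hq0, hq, h6⟩⟩ := hm (max n m₀) (le_max_left _ _)
      have he := hm₀ (max n m₀) (le_max_right _ _)
      have hpos : (0 : ℝ) < D.h (max n m₀) := by exact_mod_cast D.h_pos _
      have hcd := hcard (max n m₀)
      have hbound : ∀ r : ℝ, 0 ≤ r → r ≤ D.ep (max n m₀) →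
          |c * (D.free (max n m₀)).card * r| ≤ D.h (max n m₀) * (|c| * D.ep (max n m₀)) := by
        intro r hr0 hr
        rw [abs_mul, abs_mul, abs_of_nonneg hr0, Nat.abs_cast]
        have h7 : |c| * ((D.free (max n m₀)).card : ℝ) * r ≤ |c| * D.h (max n m₀) * D.ep (max n m₀) :=
          mul_le_mul (mul_le_mul_of_nonneg_left hcd (abs_nonneg _)) hr hr0 (by positivity)
        linarith
      have hb1 := hbound p hp0 hp
      have hb2 := hbound q hq0 hq
      have hlt1 : D.h (max n m₀) * (|c| * D.ep (max n m₀)) < D.h (max n m₀) * τf.onK0 x :=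
        mul_lt_mul_of_pos_left (lt_of_lt_of_le he (min_le_left _ _)) hpos
      have hlt2 : D.h (max n m₀) * (|c| * D.ep (max n m₀)) < D.h (max n m₀) * τt.onK0 x :=
        mul_lt_mul_of_pos_left (lt_of_lt_of_le he (min_le_right _ _)) hpos
      have hRf : (0 : ℝ) < R false := by
        have := (abs_le.mp hb1).2
        linarith
      have hRt : (0 : ℝ) < R true := by
        have := (abs_le.mp hb2).1
        linarith
      refine D.Gc_pos _ R ?_ x h3
      intro s
      cases s
      · exact_mod_cast hRf.le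
      · exact_mod_cast hRt.le

end Run7.h745
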