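import Pool.Agent.Run7.h745.KTb

/-!
# Piece KT, part 3: the approximate projections are close to matrix-valued functions
-/

set_option autoImplicit false
set_option linter.unusedSectionVars false

noncomputable section

namespace Run7.h745

open Filter Topology Matrix
open scoped InnerProductSpace

/-! ### The projection onto `ℓ²(ℤ_{≥0})` -/

/-- sequences vanishing at negative integers -/
def Kpos : Submodule ℂ HH := ⨅ i : {i : ℤ // i < 0}, LinearMap.ker (innerSL ℂ (dl i.1)).toLinearMap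

lemma mem_Kpos (f : HH) : f ∈ Kpos ↔ ∀ i : ℤ, i < 0 → f i = 0 := by
  simp only [Kpos, Submodule.mem_iInf]
  constructor
  · intro h i hi
    have h1 := h ⟨i, hi⟩
    rw [LinearMap.mem_ker] at h1
    rw [← dl_inner]; exact h1
  · intro h i
    rw [LinearMap.mem_ker]
    show ⟪dl i.1, f⟫_ℂ = 0
    rw [dl_inner]; exact h i.1 i.2

lemma isClosed_Kpos : IsClosed (Kpos : Set HH) := by
  have h : (Kpos : Set HH) = ⋂ i : {i : ℤ // i < 0}, {f : HH | ⟪dl i.1, f⟫_ℂ = 0} := by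
    ext f
    simp only [Kpos, Submodule.coe_iInf, Set.mem_iInter]
    rfl
  rw [h]
  exact isClosed_iInter fun i => isClosed_eq (by fun_prop) continuous_const

instance : CompleteSpace Kpos := isClosed_Kpos.completeSpace_coe

/-- the projection `P₊` -/
def Pp : HH →L[ℂ] HH := Kpos.starProjection

lemma isStarProjection_Pp : IsStarProjection Pp := isStarProjection_starProjection

lemma Pp_dl (i : ℤ) : Pp (dl i) = if 0 ≤ i then dl i else 0 := by
  by_cases h : 0 ≤ i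
  · rw [if_pos h]
    refine Submodule.starProjection_eq_self_iff.mpr ?_
    rw [mem_Kpos]
    intro j hj
    rw [dl_apply, if_neg (by omega)]
  · rw [if_neg h]
    refine (Submodule.starProjection_apply_eq_zero_iff _).mpr ?_
    rw [Submodule.mem_orthogonal]
    intro f hf
    rw [← inner_conj_symm, dl_inner, (mem_Kpos f).mp hf i (by omega)]
    simp

lemma Pp_coef (i : ℤ) (f : HH) : ⟪dl i, Pp f⟫_ℂ = if 0 ≤ i then ⟪dl i, f⟫_ℂ else 0 := by
  have h1 : ⟪dl i, Pp f⟫_ℂ = ⟪Pp (dl i), f⟫_ℂ := by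
    conv_lhs => rw [← isStarProjection_Pp.isSelfAdjoint.star_eq]
    rw [ContinuousLinearMap.star_eq_adjoint, ContinuousLinearMap.adjoint_inner_right]
  rw [h1, Pp_dl]
  split_ifs
  · rfl
  · rw [inner_zero_left]

/-- the off-diagonal part -/
def Xo : (HH →L[ℂ] HH) →ₗ[ℂ] (HH →L[ℂ] HH) where
  toFun S := Pp * S * (1 - Pp) + (1 - Pp) * S * Pp
  map_add' S S' := by noncomm_ring
  map_smul' c S := by
    simp only [mul_smul_comm, smul_mul_assoc, smul_add, RingHom.id_apply]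

lemma Xo_apply (S : HH →L[ℂ] HH) : Xo S = Pp * S * (1 - Pp) + (1 - Pp) * S * Pp := rfl

lemma Xo_coef (S : HH →L[ℂ] HH) (i j : ℤ) : ⟪dl i, Xo S (dl j)⟫_ℂ =
    if (0 ≤ i ∧ j < 0) ∨ (i < 0 ∧ 0 ≤ j) then ⟪dl i, S (dl j)⟫_ℂ else 0 := by
  rw [Xo_apply, _root_.add_apply, inner_add_right]
  simp only [mul_apply_eq_comp, _root_.sub_apply, one_apply_eq_self, inner_sub_right,
    Pp_coef, map_sub, Pp_dl]
  by_cases hi : 0 ≤ i <;> by_cases hj : 0 ≤ j
  · simp [hi, hj, not_lt.mpr hi, not_lt.mpr hj]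
  · simp [hi, hj, not_le.mp hj]
  · simp [hi, hj, not_le.mp hi]
  · simp [hi, hj]

lemma Xo_norm (S : HH →L[ℂ] HH) : ‖Xo S‖ ≤ 2 * ‖S‖ := by
  have h1 := IsStarProjection.norm_le Pp isStarProjection_Pp
  have h2 := IsStarProjection.norm_le (1 - Pp) isStarProjection_Pp.one_sub
  have h3 : ∀ Q R : HH →L[ℂ] HH, ‖Q‖ ≤ 1 → ‖R‖ ≤ 1 → ‖Q * S * R‖ ≤ ‖S‖ := by
    intro Q R hQ hR
    calc ‖Q * S * R‖ ≤ ‖Q * S‖ * ‖R‖ := norm_mul_le _ _
      _ ≤ (‖Q‖ * ‖S‖) * ‖R‖ := mul_le_mul_of_nonneg_right (norm_mul_le _ _) (norm_nonneg _)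
      _ ≤ (1 * ‖S‖) * 1 := mul_le_mul (mul_le_mul_of_nonneg_right hQ (norm_nonneg _)) hR
          (norm_nonneg _) (by positivity)
      _ = ‖S‖ := by ring
  rw [Xo_apply]
  calc _ ≤ ‖Pp * S * (1 - Pp)‖ + ‖(1 - Pp) * S * Pp‖ := norm_add_le _ _
    _ ≤ ‖S‖ + ‖S‖ := add_le_add (h3 _ _ h1 h2) (h3 _ _ h2 h1)
    _ = 2 * ‖S‖ := by ring

lemma Xo_cont : Continuous fun S => Xo S := by
  simp only [Xo_apply]
  fun_prop

section
variable {X : Type} [TopologicalSpace X] [CompactSpace X] [T2Space X] {T : X ≃ₜ X}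
  (D : TowerData X T) {A : Type} [CStarAlgebra A] {ι : C(X, ℂ) →⋆ₐ[ℂ] A} {u : unitary A}
  {x₀ : X} {P : A →⋆ₐ[ℂ] (HH →L[ℂ] HH)}

/-- off-diagonal parts of Laurent polynomials -/
lemma Xo_laur (hP : IsOrbitRep T ι u x₀ P) (L : ℕ) (f : ℤ → C(X, ℂ))
    (hf : ∀ k : ℤ, (L : ℤ) < |k| → f k = 0) :
    Xo (P (laur u ι L f)) =
      ∑ i ∈ Finset.Ico (0 : ℤ) L, ∑ j ∈ Finset.Ico (-(L : ℤ)) 0,
        f (i - j) ((T ^ i : X ≃ₜ X) x₀) • EE i j +
      ∑ i ∈ Finset.Ico (-(L : ℤ)) 0, ∑ j ∈ Finset.Ico (0 : ℤ) L,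
        f (i - j) ((T ^ i : X ≃ₜ X) x₀) • EE i j := by
  have hz : ∀ i j : ℤ, (L : ℤ) < |i - j| → f (i - j) ((T ^ i : X ≃ₜ X) x₀) = 0 := by
    intro i j h
    rw [hf _ h]; rfl
  refine HH_ext' fun a b => ?_
  rw [Xo_coef, hP.laur_coef L f hf, _root_.add_apply, inner_add_right]
  have hsum : ∀ I J : Finset ℤ, ⟪dl a, (∑ i ∈ I, ∑ j ∈ J,
      f (i - j) ((T ^ i : X ≃ₜ X) x₀) • EE i j) (dl b)⟫_ℂ =
      if a ∈ I ∧ b ∈ J then f (a - b) ((T ^ a : X ≃ₜ X) x₀) else 0 := by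
    intro I J
    simp only [_root_.sum_apply, _root_.smul_apply, inner_sum, inner_smul_right, EE_coef]
    by_cases ha : a ∈ I
    · rw [Finset.sum_eq_single a]
      · by_cases hb : b ∈ J
        · rw [Finset.sum_eq_single b]
          · simp [ha, hb]
          · intro j _ hj
            simp [hj]
          · intro h; exact absurd hb h
        · rw [if_neg fun h => hb h.2]
          refine Finset.sum_eq_zero fun j hj => ?_
          have hne : ¬(a = a ∧ j = b) := fun h => hb (h.2 ▸ hj)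
          rw [if_neg hne, mul_zero]
      · intro i _ hi
        refine Finset.sum_eq_zero fun j _ => ?_
        rw [if_neg fun h => hi h.1.symm, mul_zero]
      · intro h; exact absurd ha h
    · rw [if_neg fun h => ha h.1]
      refine Finset.sum_eq_zero fun i hi => Finset.sum_eq_zero fun j _ => ?_
      have hne : ¬(a = i ∧ j = b) := fun h => ha (h.1 ▸ hi)
      rw [if_neg hne, mul_zero]
  rw [hsum, hsum]
  simp only [Finset.mem_Ico]
  by_cases hL : (L : ℤ) < |a - b|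
  · rw [hz a b hL]; simp
  · rw [lt_abs] at hL
    by_cases h1 : 0 ≤ a ∧ b < 0
    · rw [if_pos (Or.inl h1), if_pos (by omega), if_neg (by omega), add_zero]
    · by_cases h2 : a < 0 ∧ 0 ≤ b
      · rw [if_pos (Or.inr h2), if_neg (by omega), if_pos (by omega), zero_add]
      · rw [if_neg (by omega), if_neg (by omega), if_neg (by omega), add_zero]

/-- off-diagonal parts are compact -/
lemma Xo_mem_Kc (hA : IsCrossedProduct T ι u) (cp3 : S_CP3) (hP : IsOrbitRep T ι u x₀ P) (a : A) :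
    Xo (P a) ∈ Kc := by
  have hcl : IsClosed {a : A | Xo (P a) ∈ Kc} := by
    have hPc : Continuous fun a : A => P a :=
      AddMonoidHomClass.continuous_of_bound P 1 fun a => by
        rw [one_mul]; exact NonUnitalStarAlgHom.norm_apply_le P a
    exact isClosed_Kc.preimage (Xo_cont.comp hPc)
  rw [← isSeqClosed_iff_isClosed] at hcl
  have h1 : ∀ n : ℕ, ∃ y : A, Xo (P y) ∈ Kc ∧ ‖a - y‖ < 1 / ((n : ℝ) + 1) := by
    intro n
    obtain ⟨L, f, hf⟩ := cp3 X T A ι u hA a (1 / ((n : ℝ) + 1)) (by positivity)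
    refine ⟨_, ?_, hf⟩
    have h2 : (∑ j ∈ Finset.Icc (-(L : ℤ)) L, ι (f j) * ((u ^ j : unitary A) : A)) =
        laur u ι L (fun k => if |k| ≤ L then f k else 0) := by
      unfold laur
      refine Finset.sum_congr rfl fun k hk => ?_
      rw [Finset.mem_Icc] at hk
      show ι (f k) * up u k = ι (if |k| ≤ (L : ℤ) then f k else 0) * up u k
      rw [if_pos (abs_le.mpr hk)]
    rw [h2, Xo_laur hP L _ (fun k hk => if_neg (not_le.mpr hk))]
    refine Kc.add_mem ?_ ?_ <;>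
      exact Kc.sum_mem fun i _ => Kc.sum_mem fun j _ => Kc.smul_mem _ (EE_mem_Kc i j)
  choose y hy hy' using h1
  refine hcl (x := y) hy ?_
  rw [tendsto_iff_norm_sub_tendsto_zero]
  refine squeeze_zero (fun n => norm_nonneg _) (fun n => ?_) tendsto_one_div_add_atTop_nhds_zero_nat
  rw [norm_sub_rev]; exact (hy' n).le

/-! ### Decomposition of Laurent polynomials along the towers -/

/-- the term `u^i f_{i-j}(T^i ·) χ u^{-j}` -/
def TowerData.Ft (ι : C(X, ℂ) →⋆ₐ[ℂ] A) (u : unitary A) (n : ℕ) (f : ℤ → C(X, ℂ)) (i j : ℤ) : A :=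
  D.eu ι u n (cT T i (f (i - j))) i j

lemma TowerData.eu_zero (n : ℕ) (i j : ℤ) : D.eu ι u n 0 i j = 0 := by
  simp [TowerData.eu]

lemma TowerData.Ft_zero (n : ℕ) (L : ℕ) (f : ℤ → C(X, ℂ)) (hf : ∀ k : ℤ, (L : ℤ) < |k| → f k = 0)
    (i j : ℤ) (h : (L : ℤ) < |i - j|) : D.Ft ι u n f i j = 0 := by
  unfold TowerData.Ft
  rw [hf _ h]
  have : cT T i (0 : C(X, ℂ)) = 0 := rfl
  rw [this, D.eu_zero]

lemma TowerData.Ft_shift (hc : Covariant T ι u) (n : ℕ) (f : ℤ → C(X, ℂ)) (i j : ℤ) :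
    D.Ft ι u n f (i + D.h n) (j + D.h n) = D.Ft ι u n f i j := by
  unfold TowerData.Ft
  have h1 := D.eu_shift hc n (cT T (i + D.h n) (f (i + D.h n - (j + D.h n)))) i j 1
  rw [one_mul] at h1
  rw [h1, cT_cT]
  congr 2
  · ring
  · ring_nf

lemma TowerData.laur_decomp (hc : Covariant T ι u) (n : ℕ) (L : ℕ) (hL : L ≤ D.h n)
    (f : ℤ → C(X, ℂ)) (hf : ∀ k : ℤ, (L : ℤ) < |k| → f k = 0) :
    laur u ι L f =
      ∑ i ∈ Finset.Ico (0 : ℤ) (D.h n), ∑ j ∈ Finset.Ico (0 : ℤ) (D.h n), D.Ft ι u n f i j +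
      (∑ i ∈ Finset.Ico (0 : ℤ) L, ∑ j ∈ Finset.Ico (-(L : ℤ)) 0, D.Ft ι u n f i j +
      ∑ i ∈ Finset.Ico (-(L : ℤ)) 0, ∑ j ∈ Finset.Ico (0 : ℤ) L, D.Ft ι u n f i j) := by
  have hz := D.Ft_zero (ι := ι) (u := u) n L f hf
  -- step 1
  have h1 : laur u ι L f = ∑ i ∈ Finset.Ico (0 : ℤ) (D.h n),
      ∑ j ∈ Finset.Ico (-(L : ℤ)) (D.h n + L), D.Ft ι u n f i j := by
    have h2 : laur u ι L f = ∑ i ∈ Finset.Ico (0 : ℤ) (D.h n), ∑ k ∈ Finset.Icc (-(L : ℤ)) L,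
        D.eu ι u n (cT T i (f k)) i (i - k) := by
      have h3 : (1 : A) = ∑ i ∈ Finset.Ico (0 : ℤ) (D.h n), D.eu ι u n 1 i i := by
        rw [← D.sum_eu hc n]
        refine Finset.sum_bij (fun (i : ℕ) _ => (i : ℤ)) ?_ ?_ ?_ ?_
        · intro i hi
          rw [Finset.mem_range] at hi
          rw [Finset.mem_Ico]; omega
        · intro i _ j _ h; exact_mod_cast h
        · intro k hk
          rw [Finset.mem_Ico] at hk
          exact ⟨k.toNat, by rw [Finset.mem_range]; omega, by omega⟩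
        · intro i _; rfl
      rw [← one_mul (laur u ι L f), h3, Finset.sum_mul]
      refine Finset.sum_congr rfl fun i _ => ?_
      unfold laur
      rw [Finset.mul_sum]
      refine Finset.sum_congr rfl fun k _ => ?_
      rw [← mul_assoc, D.eu_ind hc, D.eu_up, one_mul]
    rw [h2]
    refine Finset.sum_congr rfl fun i hi => ?_
    rw [Finset.mem_Ico] at hi
    have h4 : ∑ k ∈ Finset.Icc (-(L : ℤ)) L, D.eu ι u n (cT T i (f k)) i (i - k) =
        ∑ j ∈ Finset.Icc (i - L) (i + L), D.Ft ι u n f i j := by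
      refine Finset.sum_bij (fun k _ => i - k) ?_ ?_ ?_ ?_
      · intro k hk
        rw [Finset.mem_Icc] at hk ⊢; omega
      · intro k _ k' _ h; omega
      · intro j hj
        rw [Finset.mem_Icc] at hj
        exact ⟨i - j, by rw [Finset.mem_Icc]; omega, by ring⟩
      · intro k _
        unfold TowerData.Ft
        rw [show i - (i - k) = k by ring]
    rw [h4]
    refine Finset.sum_subset ?_ ?_
    · intro j hj
      rw [Finset.mem_Icc] at hj
      rw [Finset.mem_Ico]; omega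
    · intro j _ hj
      refine hz i j ?_
      rw [Finset.mem_Icc] at hj
      rw [lt_abs]; omega
  rw [h1]
  have h5 : ∀ i : ℤ, ∑ j ∈ Finset.Ico (-(L : ℤ)) (D.h n + L), D.Ft ι u n f i j =
      ∑ j ∈ Finset.Ico (0 : ℤ) (D.h n), D.Ft ι u n f i j +
      (∑ j ∈ Finset.Ico (-(L : ℤ)) 0, D.Ft ι u n f i j +
      ∑ j ∈ Finset.Ico (D.h n : ℤ) (D.h n + L), D.Ft ι u n f i j) := by
    intro i
    have hs : ∀ a b c : ℤ, a ≤ b → b ≤ c → ∑ j ∈ Finset.Ico a c, D.Ft ι u n f i j =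
        ∑ j ∈ Finset.Ico a b, D.Ft ι u n f i j + ∑ j ∈ Finset.Ico b c, D.Ft ι u n f i j := by
      intro a b c hab hbc
      rw [← Finset.Ico_union_Ico_eq_Ico hab hbc, Finset.sum_union (Finset.disjoint_left.mpr
        fun j hj hj' => by rw [Finset.mem_Ico] at hj hj'; omega)]
    rw [hs (-(L : ℤ)) 0 (D.h n + L) (by omega) (by omega),
      hs 0 (D.h n) (D.h n + L) (by omega) (by omega)]
    abel
  simp only [h5, Finset.sum_add_distrib]
  congr 1
  congr 1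
  · -- low crossing
    symm
    refine Finset.sum_subset ?_ ?_
    · intro i hi
      rw [Finset.mem_Ico] at hi ⊢; omega
    · intro i hi hi'
      refine Finset.sum_eq_zero fun j hj => hz i j ?_
      rw [Finset.mem_Ico] at hi hi' hj
      rw [lt_abs]; omega
  · -- high crossing
    have h6 : ∑ i ∈ Finset.Ico (0 : ℤ) (D.h n), ∑ j ∈ Finset.Ico (D.h n : ℤ) (D.h n + L),
        D.Ft ι u n f i j = ∑ i ∈ Finset.Ico ((D.h n : ℤ) - L) (D.h n),
          ∑ j ∈ Finset.Ico (D.h n : ℤ) (D.h n + L), D.Ft ι u n f i j := by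
      symm
      refine Finset.sum_subset ?_ ?_
      · intro i hi
        rw [Finset.mem_Ico] at hi ⊢; omega
      · intro i hi hi'
        refine Finset.sum_eq_zero fun j hj => hz i j ?_
        rw [Finset.mem_Ico] at hi hi' hj
        rw [lt_abs]; omega
    rw [h6]
    refine Finset.sum_bij (fun i _ => i - D.h n) ?_ ?_ ?_ ?_
    · intro i hi
      rw [Finset.mem_Ico] at hi ⊢; omega
    · intro i _ i' _ h; omega
    · intro i hi
      rw [Finset.mem_Ico] at hi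
      exact ⟨i + D.h n, by rw [Finset.mem_Ico]; omega, by ring⟩
    · intro i _
      refine Finset.sum_bij (fun j _ => j - D.h n) ?_ ?_ ?_ ?_
      · intro j hj
        rw [Finset.mem_Ico] at hj ⊢; omega
      · intro j _ j' _ h; omega
      · intro j hj
        rw [Finset.mem_Ico] at hj
        exact ⟨j + D.h n, by rw [Finset.mem_Ico]; omega, by ring⟩
      · intro j _
        have h7 := D.Ft_shift hc n f (i - D.h n) (j - D.h n)
        rw [sub_add_cancel, sub_add_cancel] at h7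
        exact h7

/-- the crossing terms converge -/
lemma TowerData.Ft_tendsto (hx₀ : ⋂ n, D.V n = {x₀}) (f : ℤ → C(X, ℂ)) (i j : ℤ) :
    Tendsto (fun n => D.Ft ι u n f i j - f (i - j) ((T ^ i : X ≃ₜ X) x₀) • D.eu ι u n 1 i j) atTop
      (𝓝 0) := by
  have h2 := D.shrink hx₀ (cT T i (f (i - j)) -
    algebraMap ℂ C(X, ℂ) (f (i - j) ((T ^ i : X ≃ₜ X) x₀))) (by
    rw [ContinuousMap.sub_apply, cT_apply]
    exact sub_self _)
  refine squeeze_zero_norm (fun n => ?_) h2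
  have h3 : D.Ft ι u n f i j - f (i - j) ((T ^ i : X ≃ₜ X) x₀) • D.eu ι u n 1 i j =
      D.eu ι u n (cT T i (f (i - j)) -
        algebraMap ℂ C(X, ℂ) (f (i - j) ((T ^ i : X ≃ₜ X) x₀))) i j := by
    unfold TowerData.Ft
    rw [← D.eu_smul, sub_eq_iff_eq_add, ← D.eu_add, Algebra.algebraMap_eq_smul_one,
      sub_add_cancel]
  rw [h3]
  exact D.eu_norm ι u n _ i j

lemma TowerData.cross_tendsto (hP : IsOrbitRep T ι u x₀ P) (hx₀ : ⋂ n, D.V n = {x₀}) (L : ℕ)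
    (f : ℤ → C(X, ℂ)) (hf : ∀ k : ℤ, (L : ℤ) < |k| → f k = 0) :
    Tendsto (fun n => (∑ i ∈ Finset.Ico (0 : ℤ) L, ∑ j ∈ Finset.Ico (-(L : ℤ)) 0,
        D.Ft ι u n f i j +
      ∑ i ∈ Finset.Ico (-(L : ℤ)) 0, ∑ j ∈ Finset.Ico (0 : ℤ) L, D.Ft ι u n f i j) -
      D.Th ι u n (Xo (P (laur u ι L f)))) atTop (𝓝 0) := by
  have h1 : ∀ I J : Finset ℤ, Tendsto (fun n => ∑ i ∈ I, ∑ j ∈ J, (D.Ft ι u n f i j -
      f (i - j) ((T ^ i : X ≃ₜ X) x₀) • D.eu ι u n 1 i j)) atTop (𝓝 0) := by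
    intro I J
    have h2 := tendsto_finsetSum (f := fun i n => ∑ j ∈ J, (D.Ft ι u n f i j -
      f (i - j) ((T ^ i : X ≃ₜ X) x₀) • D.eu ι u n 1 i j)) (a := fun _ => 0) (x := atTop) I
      (fun i _ => by
        have h3 := tendsto_finsetSum (f := fun j n => (D.Ft ι u n f i j -
          f (i - j) ((T ^ i : X ≃ₜ X) x₀) • D.eu ι u n 1 i j)) (a := fun _ => 0) (x := atTop) J
          (fun j _ => D.Ft_tendsto hx₀ f i j)
        simpa using h3)
    simpa using h2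
  have h2 := (h1 (Finset.Ico (0 : ℤ) L) (Finset.Ico (-(L : ℤ)) 0)).add
    (h1 (Finset.Ico (-(L : ℤ)) 0) (Finset.Ico (0 : ℤ) L))
  rw [add_zero] at h2
  refine h2.congr' ?_
  have hev : ∀ᶠ n in atTop, (L : ℤ) ≤ D.lh n := by
    filter_upwards [D.ev_lh L] with n hn
    exact (le_abs_self _).trans hn
  filter_upwards [hev] with n hn
  rw [Xo_laur hP L f hf]
  simp only [map_add, map_sum, map_smul, Finset.sum_sub_distrib]
  have h3 : ∀ I J : Finset ℤ, (∀ i ∈ I, |i| ≤ D.lh n) → (∀ j ∈ J, |j| ≤ D.lh n) →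
      ∑ i ∈ I, ∑ j ∈ J, f (i - j) ((T ^ i : X ≃ₜ X) x₀) • D.Th ι u n (EE i j) =
      ∑ i ∈ I, ∑ j ∈ J, f (i - j) ((T ^ i : X ≃ₜ X) x₀) • D.eu ι u n 1 i j := by
    intro I J hI hJ
    refine Finset.sum_congr rfl fun i hi => Finset.sum_congr rfl fun j hj => ?_
    rw [D.Th_EE ι u n i j (hI i hi) (hJ j hj)]
  have h4 : ∀ i ∈ Finset.Ico (0 : ℤ) L, |i| ≤ D.lh n := by
    intro i hi
    rw [Finset.mem_Ico] at hi
    rw [abs_le]; omega
  have h5 : ∀ i ∈ Finset.Ico (-(L : ℤ)) 0, |i| ≤ D.lh n := by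
    intro i hi
    rw [Finset.mem_Ico] at hi
    rw [abs_le]; omega
  rw [h3 _ _ h4 h5, h3 _ _ h5 h4]
  abel

end

end Run7.h745
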