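import Pool.Agent.Run7.h745.KHa
import Pool.Agent.Run7.h745.KTc

/-!
# Piece KH, part 2
-/

set_option autoImplicit false
set_option linter.unusedSectionVars false

noncomputable section

namespace Run7.h745

open Filter Topology
open scoped InnerProductSpace

/-- compact self-adjoint operators have countable spectrum -/
lemma Kc_count (c : HH →L[ℂ] HH) (hc : c ∈ Kc) (hsa : IsSelfAdjoint c) :
    {ν : ℝ | ν ≠ 0 ∧ (ν : ℂ) ∈ spectrum ℂ c}.Countable := by
  set S := {ν : ℝ | ν ≠ 0 ∧ (ν : ℂ) ∈ spectrum ℂ c} with hS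
  have h1 : ∀ ν : S, ∃ v : HH, v ≠ 0 ∧ c v = ((ν : ℝ) : ℂ) • v := by
    intro ν
    have h2 := (IsCompactOperator.hasEigenvalue_iff_mem_spectrum (isCompactOperator_of_Kc hc)
      (by exact_mod_cast ν.2.1 : (((ν : ℝ) : ℂ)) ≠ 0)).mpr ν.2.2
    obtain ⟨v, hv⟩ := h2.exists_hasEigenvector
    exact ⟨v, hv.2, hv.apply_eq_smul⟩
  choose v hv0 hv using h1
  have hsym : ∀ x y : HH, ⟪c x, y⟫_ℂ = ⟪x, c y⟫_ℂ := by
    intro x y
    conv_rhs => rw [← hsa.star_eq]
    rw [ContinuousLinearMap.star_eq_adjoint, ContinuousLinearMap.adjoint_inner_right]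
  let w : S → HH := fun ν => ((‖v ν‖⁻¹ : ℝ) : ℂ) • v ν
  have hw : Orthonormal ℂ w := by
    constructor
    · intro ν
      have h0 : ‖v ν‖ ≠ 0 := norm_ne_zero_iff.mpr (hv0 ν)
      show ‖((‖v ν‖⁻¹ : ℝ) : ℂ) • v ν‖ = 1
      rw [norm_smul]
      simp [h0]
    · intro ν ν' hne
      show ⟪((‖v ν‖⁻¹ : ℝ) : ℂ) • v ν, ((‖v ν'‖⁻¹ : ℝ) : ℂ) • v ν'⟫_ℂ = 0
      rw [inner_smul_left, inner_smul_right]
      have h2 : ⟪v ν, v ν'⟫_ℂ = 0 := by
        have h3 := hsym (v ν) (v ν')
        rw [hv, hv, inner_smul_left, inner_smul_right, Complex.conj_ofReal] at h3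
        have h4 : (((ν : ℝ) : ℂ) - ((ν' : ℝ) : ℂ)) * ⟪v ν, v ν'⟫_ℂ = 0 := by
          rw [sub_mul, h3, sub_self]
        rcases mul_eq_zero.mp h4 with h5 | h5
        · exfalso; apply hne
          apply Subtype.ext
          exact_mod_cast sub_eq_zero.mp h5
        · exact h5
      rw [h2, mul_zero, mul_zero]
  have h2 : ∀ j : ℤ, {ν : S | ⟪w ν, dl j⟫_ℂ ≠ 0}.Countable := by
    intro j
    have h3 := (hw.inner_products_summable (dl j)).countable_support
    refine h3.mono fun ν hν => ?_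
    rw [Function.mem_support]
    exact pow_ne_zero 2 (norm_ne_zero_iff.mpr hν)
  have h3 : (Set.univ : Set S) ⊆ ⋃ j : ℤ, {ν : S | ⟪w ν, dl j⟫_ℂ ≠ 0} := by
    intro ν _
    rw [Set.mem_iUnion]
    by_contra hcon
    push Not at hcon
    have h4 : w ν = 0 := by
      ext j
      have h5 : ⟪w ν, dl j⟫_ℂ = 0 := by
        by_contra h; exact hcon j h
      rw [← dl_inner, ← inner_conj_symm, h5]; simp
    have h5 := hw.1 ν
    rw [h4, norm_zero] at h5
    exact zero_ne_one h5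
  have h4 : (Set.univ : Set S).Countable := (Set.countable_iUnion h2).mono h3
  exact Set.countable_coe_iff.mp (Set.countable_univ_iff.mp h4)

/-- projections in `Kc` have finite rank -/
lemma fin_proj (f : HH →L[ℂ] HH) (hf : IsStarProjection f) (hK : f ∈ Kc) :
    ∃ (r : ℕ) (w R : HH →L[ℂ] HH), w ∈ Kc ∧ IsCoord r R ∧ star w * w = f ∧ w * star w = R ∧
      w * f = w := by
  have hff := hf.isIdempotentElem.eq
  have hfa : ∀ x, f (f x) = f x := fun x => by rw [← mul_apply_eq_comp, hff]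
  have hsym : ∀ x y : HH, ⟪f x, y⟫_ℂ = ⟪x, f y⟫_ℂ := by
    intro x y
    conv_rhs => rw [← hf.isSelfAdjoint.star_eq]
    rw [ContinuousLinearMap.star_eq_adjoint, ContinuousLinearMap.adjoint_inner_right]
  let E : Submodule ℂ HH := LinearMap.ker ((1 - f : HH →L[ℂ] HH) : HH →ₗ[ℂ] HH)
  have hE : ∀ x, x ∈ E ↔ f x = x := by
    intro x
    rw [LinearMap.mem_ker]
    show x - f x = 0 ↔ _
    rw [sub_eq_zero, eq_comm]
  have hEc : IsClosed (E : Set HH) := (1 - f : HH →L[ℂ] HH).isClosed_ker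
  have : CompleteSpace E := hEc.completeSpace_coe
  have hV : ∀ x ∈ E, (f : HH →ₗ[ℂ] HH) x ∈ E := fun x _ => (hE _).mpr (hfa x)
  have hcomp : IsCompactOperator (id : E → E) := by
    have h1 := (isCompactOperator_of_Kc hK).restrict' (f := (f : HH →ₗ[ℂ] HH)) hV
    have h2 : ⇑((f : HH →ₗ[ℂ] HH).restrict hV) = (id : E → E) := by
      funext x
      apply Subtype.ext
      exact (hE x.1).mp x.2
    rwa [h2] at h1
  have : FiniteDimensional ℂ E := FiniteDimensional.of_isCompactOperator_id hcomp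
  let b := stdOrthonormalBasis ℂ E
  set r := Module.finrank ℂ E with hr
  let w : HH →L[ℂ] HH := ∑ i, (innerSL ℂ ((b i : E) : HH)).smulRight (dl ((i : ℕ) : ℤ))
  let ws : HH →L[ℂ] HH := ∑ i : Fin r, (innerSL ℂ (dl ((i : ℕ) : ℤ))).smulRight ((b i : E) : HH)
  have hw : ∀ x, w x = ∑ i, ⟪((b i : E) : HH), x⟫_ℂ • dl ((i : ℕ) : ℤ) := by
    intro x
    simp only [w, _root_.sum_apply]; rfl
  have hws : ∀ x, ws x = ∑ i, ⟪dl (((i : Fin r) : ℕ) : ℤ), x⟫_ℂ • ((b i : E) : HH) := by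
    intro x
    simp only [ws, _root_.sum_apply]; rfl
  have hstar : star w = ws := by
    ext1 x
    refine ext_inner_left ℂ fun y => ?_
    rw [ContinuousLinearMap.star_eq_adjoint, ContinuousLinearMap.adjoint_inner_right, hw, hws,
      sum_inner, inner_sum]
    refine Finset.sum_congr rfl fun i _ => ?_
    rw [inner_smul_left, inner_smul_right, inner_conj_symm, mul_comm]
  have hfb : ∀ i, f ((b i : E) : HH) = b i := fun i => (hE _).mp (b i).2
  have hdl : ∀ i j : Fin r, ⟪dl ((i : ℕ) : ℤ), dl ((j : ℕ) : ℤ)⟫_ℂ = if i = j then 1 else 0 := by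
    intro i j
    rw [dl_dl]
    by_cases h : i = j
    · rw [if_pos h, if_pos (by rw [h])]
    · rw [if_neg h, if_neg fun h' => h (Fin.ext (by exact_mod_cast h'))]
  have h1 : star w * w = f := by
    ext1 x
    rw [hstar, mul_apply_eq_comp, hws]
    have h2 : ∀ i : Fin r, ⟪dl ((i : ℕ) : ℤ), w x⟫_ℂ = ⟪((b i : E) : HH), x⟫_ℂ := by
      intro i
      rw [hw, inner_sum]
      simp only [inner_smul_right, hdl, mul_ite, mul_one, mul_zero, Finset.sum_ite_eq,
        Finset.mem_univ, if_true]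
    simp only [h2]
    have h3 : f x ∈ E := (hE _).mpr (hfa x)
    have h4 := congrArg (Subtype.val) (b.sum_repr' ⟨f x, h3⟩)
    simp only [Submodule.coe_sum, Submodule.coe_smul] at h4
    rw [← h4]
    refine Finset.sum_congr rfl fun i _ => ?_
    congr 1
    show _ = ⟪((b i : E) : HH), f x⟫_ℂ
    rw [← hsym, hfb]
  have h5 : w * f = w := by
    ext1 x
    rw [mul_apply_eq_comp, hw, hw]
    refine Finset.sum_congr rfl fun i _ => ?_
    rw [← hsym, hfb]
  refine ⟨r, w, w * star w, ?_, ?_, h1, rfl, h5⟩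
  · rw [← h5]; exact Kc_mul_left _ hK
  · intro j
    rw [hstar, mul_apply_eq_comp, hws]
    split_ifs with h
    · obtain ⟨k, rfl⟩ := Int.eq_ofNat_of_zero_le h.1
      have hk : k < r := by exact_mod_cast h.2
      have h6 : ∑ i : Fin r, ⟪dl ((i : ℕ) : ℤ), dl (k : ℤ)⟫_ℂ • ((b i : E) : HH) =
          ((b ⟨k, hk⟩ : E) : HH) := by
        rw [Finset.sum_eq_single ⟨k, hk⟩]
        · rw [hdl ⟨k, hk⟩ ⟨k, hk⟩, if_pos rfl, one_smul]
        · intro i _ hi
          have := hdl i ⟨k, hk⟩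
          rw [if_neg hi] at this
          rw [this, zero_smul]
        · intro h; exact absurd (Finset.mem_univ _) h
      rw [h6, hw, Finset.sum_eq_single ⟨k, hk⟩]
      · have h7 : ⟪((b ⟨k, hk⟩ : E) : HH), ((b ⟨k, hk⟩ : E) : HH)⟫_ℂ = 1 := by
          rw [← Submodule.coe_inner, b.inner_eq_ite, if_pos rfl]
        rw [h7, one_smul]
      · intro i _ hi
        have h7 : ⟪((b i : E) : HH), ((b ⟨k, hk⟩ : E) : HH)⟫_ℂ = 0 := by
          rw [← Submodule.coe_inner, b.inner_eq_ite, if_neg hi]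
        rw [h7, zero_smul]
      · intro h; exact absurd (Finset.mem_univ _) h
    · have h6 : ∑ i : Fin r, ⟪dl ((i : ℕ) : ℤ), dl j⟫_ℂ • ((b i : E) : HH) = 0 := by
        refine Finset.sum_eq_zero fun i _ => ?_
        rw [dl_dl, if_neg, zero_smul]
        intro h'
        apply h
        have := i.2
        omega
      rw [h6, map_zero]

lemma star_Xo (S : HH →L[ℂ] HH) : star (Xo S) = Xo (star S) := by
  have h1 := isStarProjection_Pp.isSelfAdjoint.star_eq
  rw [Xo_apply, Xo_apply, star_add, star_mul, star_mul, star_mul, star_mul, star_sub, star_one, h1]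
  noncomm_ring

theorem kh : S_KH := by
  intro p₀ d hp₀ hdec hdiag hK
  have hXo : Xo p₀ = p₀ - d := by
    refine HH_ext' fun i j => ?_
    rw [Xo_coef]
    by_cases h : (0 ≤ i ∧ j < 0) ∨ (i < 0 ∧ 0 ≤ j)
    · rw [if_pos h, _root_.sub_apply, inner_sub_right, hdec i j h, sub_zero]
    · rw [if_neg h]
      exact (hdiag i j (by omega)).symm
  have hpp := hp₀.isIdempotentElem.eq
  have hps := hp₀.isSelfAdjoint.star_eq
  have hd : d = p₀ - Xo p₀ := by rw [hXo]; abel
  have hdsa : IsSelfAdjoint d := by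
    show star d = d
    rw [hd, star_sub, star_Xo, hps]
  have hPP := isStarProjection_Pp.isIdempotentElem.eq
  set e := Pp with he
  set f : HH →L[ℂ] HH := 1 - e with hf
  have hef : e * f = 0 := by rw [hf, mul_sub, mul_one, hPP, sub_self]
  have hfe : f * e = 0 := by rw [hf, sub_mul, one_mul, hPP, sub_self]
  have hff : f * f = f := by nth_rewrite 2 [hf]; rw [mul_sub, mul_one, hfe, sub_zero]
  have hXo' : Xo p₀ = e * p₀ * f + f * p₀ * e := rfl
  have h1 : e + f = 1 := by rw [hf]; abel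
  have hd2 : d = e * p₀ * e + f * p₀ * f := by
    have h2 : p₀ = (e + f) * p₀ * (e + f) := by rw [h1, one_mul, mul_one]
    rw [hd, hXo']
    nth_rewrite 1 [h2]
    noncomm_ring
  have hdd : d - d * d = (p₀ - d) * (p₀ - d) := by
    have h3 : d * d = e * p₀ * e * p₀ * e + f * p₀ * f * p₀ * f := by
      rw [hd2]
      calc (e * p₀ * e + f * p₀ * f) * (e * p₀ * e + f * p₀ * f)
          = e * p₀ * (e * e) * p₀ * e + e * p₀ * (e * f) * p₀ * f + f * p₀ * (f * e) * p₀ * e +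
            f * p₀ * (f * f) * p₀ * f := by noncomm_ring
        _ = _ := by rw [hPP, hef, hfe, hff]; noncomm_ring
    have h4 : (p₀ - d) * (p₀ - d) = e * p₀ * f * p₀ * e + f * p₀ * e * p₀ * f := by
      rw [← hXo, hXo']
      calc (e * p₀ * f + f * p₀ * e) * (e * p₀ * f + f * p₀ * e)
          = e * p₀ * (f * e) * p₀ * f + e * p₀ * (f * f) * p₀ * e + f * p₀ * (e * e) * p₀ * f +
            f * p₀ * (e * f) * p₀ * e := by noncomm_ring
        _ = _ := by rw [hPP, hef, hfe, hff]; noncomm_ring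
    rw [h3, h4, sub_eq_iff_eq_add]
    calc d = e * (p₀ * p₀) * e + f * (p₀ * p₀) * f := by rw [hpp, hd2]
      _ = e * (p₀ * (e + f) * p₀) * e + f * (p₀ * (e + f) * p₀) * f := by rw [h1, mul_one]
      _ = _ := by noncomm_ring
  have hcPd : Commute d e := by
    show d * e = e * d
    rw [hd2]
    calc (e * p₀ * e + f * p₀ * f) * e = e * p₀ * (e * e) + f * p₀ * (f * e) := by noncomm_ring
      _ = (e * e) * p₀ * e + (e * f) * p₀ * f := by rw [hPP, hfe, hef]; noncomm_ring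
      _ = _ := by noncomm_ring
  obtain ⟨t, E, v, ht, htc, htK, hE, hEK, cEp, cEt, hvK, hv1, hv2, hEv, hvE⟩ :=
    KH_abs (B := HH →L[ℂ] HH) Kc (fun b k hk => Kc_mul_left b hk) (fun b k hk => Kc_mul_right b hk)
      (fun c hc hsa => Kc_count c hc hsa) p₀ d hp₀ hdsa hK (by
        rw [hdd]; exact Kc_mul_left _ hK)
  have cte : Commute t e := htc e hcPd
  have hf1 : IsStarProjection (p₀ * E) := by
    refine ⟨?_, ?_⟩
    · show p₀ * E * (p₀ * E) = p₀ * E
      calc p₀ * E * (p₀ * E) = p₀ * (E * p₀) * E := by noncomm_ring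
        _ = p₀ * p₀ * (E * E) := by rw [cEp.eq]; noncomm_ring
        _ = _ := by rw [hpp, hE.isIdempotentElem.eq]
    · show star (p₀ * E) = p₀ * E
      rw [star_mul, hps, hE.isSelfAdjoint.star_eq, cEp.eq]
  have hf2 : IsStarProjection (t * E) := by
    refine ⟨?_, ?_⟩
    · show t * E * (t * E) = t * E
      calc t * E * (t * E) = t * (E * t) * E := by noncomm_ring
        _ = t * t * (E * E) := by rw [cEt.eq]; noncomm_ring
        _ = _ := by rw [ht.isIdempotentElem.eq, hE.isIdempotentElem.eq]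
    · show star (t * E) = t * E
      rw [star_mul, ht.isSelfAdjoint.star_eq, hE.isSelfAdjoint.star_eq, cEt.eq]
  obtain ⟨r₁, w₁, R₁, hw₁, hR₁, a1, a2, a3⟩ := fin_proj _ hf1 (Kc_mul_left _ hEK)
  obtain ⟨r₂, w₂, R₂, hw₂, hR₂, b1, b2, b3⟩ := fin_proj _ hf2 (Kc_mul_left _ hEK)
  refine ⟨t, v, w₁, w₂, r₁, r₂, R₁, R₂, ht, ?_, htK, hvK, hw₁, hw₂, hR₁, hR₂, ?_, ?_, b2, ?_, ?_, a2⟩
  · -- decoupled
    have hPpdl : ∀ i : ℤ, 0 ≤ i → e (dl i) = dl i := fun i hi => by rw [he, Pp_dl, if_pos hi]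
    have hPpdl' : ∀ i : ℤ, i < 0 → e (dl i) = 0 := fun i hi => by
      rw [he, Pp_dl, if_neg (not_le.mpr hi)]
    have hsym : ∀ x y : HH, ⟪e x, y⟫_ℂ = ⟪x, e y⟫_ℂ := by
      intro x y
      have : star e = e := isStarProjection_Pp.isSelfAdjoint.star_eq
      conv_rhs => rw [← this]
      rw [ContinuousLinearMap.star_eq_adjoint, ContinuousLinearMap.adjoint_inner_right]
    have hcom : ∀ x, e (t x) = t (e x) := fun x => by
      rw [← mul_apply_eq_comp, ← mul_apply_eq_comp, cte.eq]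
    rintro i j (⟨hi, hj⟩ | ⟨hi, hj⟩)
    · rw [← hPpdl i hi, hsym, hcom, hPpdl' j hj, map_zero, inner_zero_right]
    · rw [← hPpdl j hj, ← hcom, ← hsym, hPpdl' i hi, inner_zero_left]
  · rw [hv1, a1, ← mul_add, sub_add_cancel, mul_one]
  · rw [← b3]
    calc w₂ * (t * E) * v = w₂ * t * (E * v) := by noncomm_ring
      _ = 0 := by rw [hEv, mul_zero]
  · rw [hv2, b1, ← mul_add, sub_add_cancel, mul_one]
  · rw [← a3]
    have h6 : E * star v = 0 := by
      have := congrArg star hvE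
      rwa [star_mul, hE.isSelfAdjoint.star_eq, star_zero] at this
    calc w₁ * (p₀ * E) * star v = w₁ * p₀ * (E * star v) := by noncomm_ring
      _ = 0 := by rw [h6, mul_zero]

end Run7.h745
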