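import Pool.Agent.Run7.h745.Basic3

/-!
# Lemmas on classes of projections
-/

set_option autoImplicit false
set_option linter.unusedSectionVars false

noncomputable section

namespace Run7.h745

open Filter Topology Matrix Pool.Agent.TH249

section
variable {A : Type} [CStarAlgebra A] {I J : Type} [Fintype I] [Fintype J]

/-- class of a projection matrix with any finite index type -/
def vI (P : Matrix I I A) (hP : IsPrj P) : V A :=
  V.mk ⟨Fintype.card I, P.submatrix (Fintype.equivFin I).symm (Fintype.equivFin I).symm,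
    hP.submatrix _⟩

lemma vI_eq {P : Matrix I I A} {Q : Matrix J J A} (hP : IsPrj P) (hQ : IsPrj Q) :
    vI P hP = vI Q hQ ↔ Eqv P Q := by
  unfold vI
  rw [V.mk_eq]
  constructor
  · intro h
    exact ((Eqv.submatrix hP _).trans hP (hQ.submatrix _) h).trans hP hQ (Eqv.submatrix hQ _).symm
  · intro h
    exact ((Eqv.submatrix hP _).symm.trans (hP.submatrix _) hQ h).trans (hP.submatrix _)
      (hQ.submatrix _) (Eqv.submatrix hQ _)

lemma vI_mk (P : Prj A) : V.mk P = vI P.mat P.isPrj := by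
  unfold vI
  rw [V.mk_eq]
  exact Eqv.submatrix P.isPrj _

lemma vI_blocks {P : Matrix I I A} {Q : Matrix J J A} (hP : IsPrj P) (hQ : IsPrj Q) :
    vI (fromBlocks P 0 0 Q) (hP.blocks hQ) = vI P hP + vI Q hQ := by
  have h1 : vI P hP + vI Q hQ = V.mk (Prj.add ⟨Fintype.card I,
    P.submatrix (Fintype.equivFin I).symm (Fintype.equivFin I).symm, hP.submatrix _⟩
    ⟨Fintype.card J, Q.submatrix (Fintype.equivFin J).symm (Fintype.equivFin J).symm,
    hQ.submatrix _⟩) := rfl
  rw [h1, vI_mk, vI_eq]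
  have h2 := Eqv.blocks (Eqv.submatrix hP (Fintype.equivFin I).symm)
    (Eqv.submatrix hQ (Fintype.equivFin J).symm)
  refine h2.trans (hP.blocks hQ) (isPrj_add _ _) ?_
  exact Prj.add_eqv ⟨Fintype.card I,
    P.submatrix (Fintype.equivFin I).symm (Fintype.equivFin I).symm, hP.submatrix _⟩
    ⟨Fintype.card J, Q.submatrix (Fintype.equivFin J).symm (Fintype.equivFin J).symm,
    hQ.submatrix _⟩

lemma vI_congr {P Q : Matrix I I A} (hP : IsPrj P) (hQ : IsPrj Q) (h : P = Q) :
    vI P hP = vI Q hQ := by subst h; rfl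

lemma vI_reindex {P : Matrix I I A} (hP : IsPrj P) (e : J ≃ I) :
    vI (P.submatrix e e) (hP.submatrix e) = vI P hP :=
  ((vI_eq _ _).mpr (Eqv.submatrix hP e)).symm

/-- class of a projection of `A` -/
def v1 (p : A) (hp : IsStarProjection p) : V A := V.mk (Prj.of p hp)

lemma v1_congr {p q : A} (hp : IsStarProjection p) (h : p = q) :
    v1 p hp = v1 q (h ▸ hp) := by subst h; rfl

lemma isPrj_const {I : Type} [Fintype I] [Unique I] (p : A) (hp : IsStarProjection p) :
    IsPrj (Matrix.of fun (_ _ : I) => p) := by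
  refine ⟨?_, ?_⟩
  · ext i j; simp [conjTranspose_apply, hp.isSelfAdjoint.star_eq]
  · ext i j; simp [mul_apply, hp.isIdempotentElem.eq]

lemma v1_vI (p : A) (hp : IsStarProjection p) {I : Type} [Fintype I] [Unique I] :
    v1 p hp = vI (Matrix.of fun (_ _ : I) => p) (isPrj_const p hp) := by
  unfold v1
  rw [vI_mk]
  refine (vI_eq _ _).mpr ?_
  refine Eqv.of_submatrix (isPrj_of p hp) (Equiv.ofUnique I (Fin 1)) ?_
  ext i j; rfl

/-- equivalence of projections in `A` -/
lemma v1_eq {p q v : A} (hp : IsStarProjection p) (hq : IsStarProjection q) (h1 : star v * v = p)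
    (h2 : v * star v = q) : v1 p hp = v1 q hq := by
  unfold v1
  rw [V.mk_eq]
  refine ⟨(Matrix.of fun (_ _ : Fin 1) => v), ?_, ?_⟩
  · show (Matrix.of fun (_ _ : Fin 1) => v)ᴴ * (Matrix.of fun (_ _ : Fin 1) => v) =
      Matrix.of fun (_ _ : Fin 1) => p
    ext i j
    simp [mul_apply, conjTranspose_apply, h1]
  · show (Matrix.of fun (_ _ : Fin 1) => v) * (Matrix.of fun (_ _ : Fin 1) => v)ᴴ =
      Matrix.of fun (_ _ : Fin 1) => q
    ext i j
    simp [mul_apply, conjTranspose_apply, h2]

lemma isPrj_diagonal [DecidableEq I] (p : I → A) (hp : ∀ i, IsStarProjection (p i)) :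
    IsPrj (Matrix.diagonal p) := by
  refine ⟨?_, ?_⟩
  · rw [diagonal_conjTranspose]
    congr 1
    funext i
    exact (hp i).isSelfAdjoint.star_eq
  · rw [diagonal_mul_diagonal]
    congr 1
    funext i
    exact (hp i).isIdempotentElem.eq

lemma vI_empty [IsEmpty I] (P : Matrix I I A) (hP : IsPrj P) : vI P hP = 0 := by
  rw [V.zero_def, vI_mk, vI_eq]
  refine ⟨fun i => Fin.elim0 i, ?_, ?_⟩
  · ext i; exact isEmptyElim i
  · ext i; exact Fin.elim0 i

lemma vI_diag_succ {n : ℕ} (p : Fin (n + 1) → A) (hp : ∀ i, IsStarProjection (p i)) :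
    vI (Matrix.diagonal p) (isPrj_diagonal p hp) = v1 (p 0) (hp 0) +
      vI (Matrix.diagonal fun i : Fin n => p i.succ)
        (isPrj_diagonal (fun i : Fin n => p i.succ) fun i => hp i.succ) := by
  have h := vI_blocks (isPrj_const (I := Fin 1) (p 0) (hp 0))
    (isPrj_diagonal (fun i : Fin n => p i.succ) fun i => hp i.succ)
  rw [v1_vI (p 0) (hp 0) (I := Fin 1)]
  refine Eq.trans ?_ h
  refine (vI_eq _ _).mpr ?_
  refine Eqv.of_submatrix (isPrj_diagonal p hp)
    ((finSumFinEquiv (m := 1) (n := n)).trans (finCongr (add_comm 1 n))) ?_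
  ext i j
  rcases i with i | i <;> rcases j with j | j
  · have hi : i = 0 := Subsingleton.elim _ _
    have hj : j = 0 := Subsingleton.elim _ _
    subst hi; subst hj
    rw [fromBlocks_apply₁₁, submatrix_apply]
    show p 0 = diagonal p 0 0
    rw [diagonal_apply_eq]
  · rw [fromBlocks_apply₁₂, submatrix_apply, Matrix.zero_apply, diagonal_apply_ne]
    intro h
    have := congrArg Fin.val h
    simp [finSumFinEquiv] at this
  · rw [fromBlocks_apply₂₁, submatrix_apply, Matrix.zero_apply, diagonal_apply_ne]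
    intro h
    have := congrArg Fin.val h
    simp [finSumFinEquiv] at this
  · rw [fromBlocks_apply₂₂, submatrix_apply]
    by_cases hij : i = j
    · subst hij
      rw [diagonal_apply_eq, diagonal_apply_eq]
      congr 1
      apply Fin.ext
      simp [finSumFinEquiv]
    · rw [diagonal_apply_ne _ hij, diagonal_apply_ne]
      intro h
      apply hij
      have := congrArg Fin.val h
      simp [finSumFinEquiv] at this
      exact Fin.ext this

/-- class of a diagonal projection -/
lemma vI_diag [DecidableEq I] (p : I → A) (hp : ∀ i, IsStarProjection (p i)) :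
    vI (Matrix.diagonal p) (isPrj_diagonal p hp) = ∑ i, v1 (p i) (hp i) := by
  classical
  -- reduce to Fin n
  have key : ∀ (n : ℕ) (p : Fin n → A) (hp : ∀ i, IsStarProjection (p i)),
      vI (Matrix.diagonal p) (isPrj_diagonal p hp) = ∑ i, v1 (p i) (hp i) := by
    intro n
    induction n with
    | zero =>
      intro p hp
      rw [vI_empty]; simp
    | succ n ih =>
      intro p hp
      rw [Fin.sum_univ_succ, vI_diag_succ, ih]
  let e := (Fintype.equivFin I).symm
  have h1 := key _ (fun i => p (e i)) (fun i => hp (e i))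
  have h2 : Matrix.diagonal (fun i => p (e i)) = (Matrix.diagonal p).submatrix e e := by
    rw [submatrix_diagonal_equiv]; rfl
  rw [vI_congr _ ((isPrj_diagonal p hp).submatrix e) h2, vI_reindex (isPrj_diagonal p hp)] at h1
  rw [h1]
  exact Equiv.sum_comp e fun i => v1 (p i) (hp i)

/-- class of an orthogonal sum -/
lemma v1_add {p q : A} (hp : IsStarProjection p) (hq : IsStarProjection q) (h : p * q = 0)
    (hpq : IsStarProjection (p + q)) : v1 (p + q) hpq = v1 p hp + v1 q hq := by
  have hqp : q * p = 0 := by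
    have := congrArg star h
    rwa [star_mul, star_zero, hp.isSelfAdjoint.star_eq, hq.isSelfAdjoint.star_eq] at this
  have h1 := vI_diag (fun i : Fin 2 => ![p, q] i) (by
    intro i; fin_cases i
    · exact hp
    · exact hq)
  rw [Fin.sum_univ_two] at h1
  have h2 : v1 p hp + v1 q hq = vI (Matrix.diagonal fun i : Fin 2 => ![p, q] i) (isPrj_diagonal _ (by
    intro i; fin_cases i
    · exact hp
    · exact hq)) := h1.symm
  rw [h2, v1_vI (I := Fin 1)]
  refine (vI_eq _ _).mpr ?_
  refine ⟨Matrix.of fun i _ => ![p, q] i, ?_, ?_⟩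
  · ext i j
    simp only [mul_apply, conjTranspose_apply, of_apply, Fin.sum_univ_two]
    simp [hp.isSelfAdjoint.star_eq, hq.isSelfAdjoint.star_eq, hp.isIdempotentElem.eq,
      hq.isIdempotentElem.eq]
  · ext i j
    simp only [mul_apply, conjTranspose_apply, of_apply, Finset.univ_unique, Finset.sum_singleton]
    fin_cases i <;> fin_cases j <;>
      simp [hp.isSelfAdjoint.star_eq, hq.isSelfAdjoint.star_eq, hp.isIdempotentElem.eq,
        hq.isIdempotentElem.eq, h, hqp]

lemma isStarProjection_zero' : IsStarProjection (0 : A) := ⟨by simp [IsIdempotentElem], by simp⟩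

lemma v1_zero : v1 (0 : A) isStarProjection_zero' = 0 := by
  rw [V.zero_def]
  unfold v1
  rw [V.mk_eq]
  refine ⟨(0 : Matrix (Fin 0) (Fin 1) A), ?_, ?_⟩
  · show (0 : Matrix (Fin 0) (Fin 1) A)ᴴ * (0 : Matrix (Fin 0) (Fin 1) A) =
      Matrix.of fun (_ _ : Fin 1) => (0 : A)
    ext i j; simp
  · ext i; exact Fin.elim0 i

/-- finite orthogonal sums -/
lemma v1_sum {α : Type} (s : Finset α) (p : α → A) (hp : ∀ a, IsStarProjection (p a))
    (h : ∀ a ∈ s, ∀ b ∈ s, a ≠ b → p a * p b = 0) :
    ∃ hs : IsStarProjection (∑ a ∈ s, p a), v1 (∑ a ∈ s, p a) hs = ∑ a ∈ s, v1 (p a) (hp a) := by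
  classical
  induction s using Finset.induction_on with
  | empty =>
    refine ⟨by rw [Finset.sum_empty]; exact isStarProjection_zero', ?_⟩
    refine (v1_congr _ Finset.sum_empty).trans ?_
    exact v1_zero.trans Finset.sum_empty.symm
  | insert a s ha ih =>
    obtain ⟨hs, h1⟩ := ih fun x hx y hy => h x (Finset.mem_insert_of_mem hx) y
      (Finset.mem_insert_of_mem hy)
    have h2 : p a * ∑ x ∈ s, p x = 0 := by
      rw [Finset.mul_sum]
      exact Finset.sum_eq_zero fun x hx => h a (Finset.mem_insert_self _ _) x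
        (Finset.mem_insert_of_mem hx) (fun h => ha (h ▸ hx))
    have h3 : (∑ x ∈ s, p x) * p a = 0 := by
      have := congrArg star h2
      rwa [star_mul, star_zero, (hp a).isSelfAdjoint.star_eq, hs.isSelfAdjoint.star_eq] at this
    have h4 : IsStarProjection (p a + ∑ x ∈ s, p x) := by
      refine ⟨?_, (hp a).isSelfAdjoint.add hs.isSelfAdjoint⟩
      show (p a + ∑ x ∈ s, p x) * (p a + ∑ x ∈ s, p x) = _
      rw [add_mul, mul_add, mul_add, h2, h3, (hp a).isIdempotentElem.eq, hs.isIdempotentElem.eq]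
      abel
    refine ⟨by rw [Finset.sum_insert ha]; exact h4, ?_⟩
    rw [v1_congr _ (Finset.sum_insert ha), v1_add (hp a) hs h2, h1, Finset.sum_insert ha]

end

/-! ### Classes of indicator functions -/

section
variable {X : Type} [TopologicalSpace X] [CompactSpace X] {T : X ≃ₜ X} (D : TowerData X T)
  {A : Type} [CStarAlgebra A] {ι : C(X, ℂ) →⋆ₐ[ℂ] A} {u : unitary A}

lemma isStarProjection_ind (ι : C(X, ℂ) →⋆ₐ[ℂ] A) {S : Set X} (hS : IsClopen S) :
    IsStarProjection (ι (ind S)) :=
  ⟨by show ι (ind S) * ι (ind S) = _; rw [← map_mul, ind_mul_self hS],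
    by show star (ι (ind S)) = _; rw [← map_star, star_ind]⟩

/-- class of `χ_S` -/
def vS (ι : C(X, ℂ) →⋆ₐ[ℂ] A) (S : Set X) (hS : IsClopen S) : V A :=
  v1 (ι (ind S)) (isStarProjection_ind ι hS)

lemma vS_congr {S S' : Set X} (hS : IsClopen S) (h : S = S') :
    vS ι S hS = vS ι S' (h ▸ hS) := by subst h; rfl

lemma vS_shift (hc : Covariant T ι u) {S : Set X} (hS : IsClopen S) (n : ℤ) :
    vS ι ((T ^ n : X ≃ₜ X) ⁻¹' S) (isClopen_pre T n hS) = vS ι S hS := by
  unfold vS
  have h1 : up u (-n) * ι (ind S) * up u n = ι (ind ((T ^ n : X ≃ₜ X) ⁻¹' S)) := by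
    have h2 := cov_conj hc (-n) (ind S)
    rw [neg_neg] at h2
    rw [h2, cT_ind T n hS]
  refine v1_eq (v := up u n * ι (ind ((T ^ n : X ≃ₜ X) ⁻¹' S))) _ _ ?_ ?_
  · rw [star_mul, star_up, ← map_star, star_ind, mul_assoc, ← mul_assoc (up u (-n)), up_neg_mul_up,
      one_mul, ← map_mul, ind_mul_self (isClopen_pre T n hS)]
  · rw [star_mul, star_up, ← map_star, star_ind, mul_assoc, ← mul_assoc (ι _), ← map_mul,
      ind_mul_self (isClopen_pre T n hS), ← h1, mul_assoc, mul_assoc, up_mul_up_neg, mul_one,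
      ← mul_assoc, up_mul_up_neg, one_mul]

lemma vS_union {S S' : Set X} (hS : IsClopen S) (hS' : IsClopen S') (h : Disjoint S S') :
    vS ι (S ∪ S') (hS.union hS') = vS ι S hS + vS ι S' hS' := by
  unfold vS
  have h1 : ι (ind (S ∪ S')) = ι (ind S) + ι (ind S') := by
    rw [ind_union hS hS' h, map_add]
  rw [v1_congr _ h1, v1_add]
  rw [← map_mul, ind_disj hS hS' h, map_zero]

/-- `g s` has the class of `χ_{VT n s}` -/
lemma IsG.cls {n : ℕ} {g : Bool → Prj A} (hg : IsG D ι n g) (s : Bool) :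
    V.mk (g s) = vS ι (D.VT n s) (D.isClopen_VT n s) := by
  obtain ⟨h1, h2⟩ := hg s
  unfold vS v1
  rw [V.mk_eq]
  have h3 : (g s).mat = (Matrix.of fun (_ _ : Fin 1) => ι (ind (D.VT n s))).submatrix
      (finCongr h1) (finCongr h1) := by
    ext i j
    rw [h2]; rfl
  exact (Eqv.of_submatrix (isPrj_of _ (isStarProjection_ind ι (D.isClopen_VT n s)))
    (finCongr h1) h3).symm

/-- the canonical choice -/
def gen (ι : C(X, ℂ) →⋆ₐ[ℂ] A) (n : ℕ) (s : Bool) : Prj A :=
  Prj.of (ι (ind (D.VT n s))) (isStarProjection_ind ι (D.isClopen_VT n s))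

lemma isG_gen (n : ℕ) : IsG D ι n (gen D ι n) := fun _ => ⟨rfl, fun _ _ => rfl⟩

lemma IsG.K0_cls {n : ℕ} {g : Bool → Prj A} (hg : IsG D ι n g) (s : Bool) :
    K0.cls (g s) = K0.cls (gen D ι n s) := by
  unfold K0.cls
  rw [hg.cls D s, (isG_gen D n).cls D s]

end

end Run7.h745
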