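import Pool.Agent.Run7.h745.Basic

/-!
# Piece SYS1: construction of the minimal system
-/

set_option autoImplicit false
set_option linter.unusedSectionVars false

noncomputable section

namespace Run7.h745

namespace Sys1

open Filter Topology

/-! ### Compactness of the letters -/

lemma isCompact_coneSet (m : ℕ) : IsCompact (coneSet m) := by
  have h1 : coneSet m = (fun ζ : Fin (2 * m + 1) → ℝ => fun i j => ζ i * ζ j) ''
      {ζ | ∑ i, ζ i ^ 2 ≤ 1} := by
    ext z
    constructor
    · rintro ⟨ζ, h, h'⟩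
      exact ⟨ζ, h, by ext i j; exact (h' i j).symm⟩
    · rintro ⟨ζ, h, rfl⟩
      exact ⟨ζ, h, fun i j => rfl⟩
  rw [h1]
  refine IsCompact.image ?_ (by fun_prop)
  have h2 : IsCompact (Set.pi Set.univ fun _ : Fin (2 * m + 1) => Set.Icc (-1 : ℝ) 1) :=
    isCompact_univ_pi fun _ => isCompact_Icc
  refine h2.of_isClosed_subset (isClosed_le (by fun_prop) continuous_const) ?_
  intro ζ hζ i _
  have h3 : ζ i ^ 2 ≤ 1 := by
    refine le_trans ?_ hζ
    exact Finset.single_le_sum (f := fun i => ζ i ^ 2) (fun i _ => sq_nonneg _) (Finset.mem_univ i)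
  exact abs_le.mp (by nlinarith [sq_abs (ζ i), abs_nonneg (ζ i)])

instance (m : ℕ) : CompactSpace (coneSet m) := isCompact_iff_compactSpace.mp (isCompact_coneSet m)

instance : CompactSpace QQ := inferInstance

/-- the zero letter -/
def zQ : QQ := fun _ => ⟨0, ⟨0, by simp, by simp⟩⟩

lemma zQ_mem (s : Bool) : zQ ∈ QS s := by
  cases s
  · intro m _ i j; rfl
  · exact Set.mem_univ _

lemma isClosed_QS (s : Bool) : IsClosed (QS s) := by
  cases s
  · have h : QS false = ⋂ (m : ℕ) (_ : m ≠ 1) (i) (j), {q : QQ | (q m).1 i j = 0} := by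
      ext q; simp [QS]
    rw [h]
    refine isClosed_iInter fun m => isClosed_iInter fun _ => isClosed_iInter fun i =>
      isClosed_iInter fun j => ?_
    refine isClosed_eq ?_ continuous_const
    exact (continuous_apply j).comp ((continuous_apply i).comp
      (continuous_subtype_val.comp (continuous_apply m)))
  · exact isClosed_univ

/-- a metric on the letters -/
@[instance_reducible] def mQ : MetricSpace QQ := TopologicalSpace.metrizableSpaceMetric QQ

/-- the distance of letters -/
def dQ (a b : QQ) : ℝ := mQ.dist a b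

lemma dQ_self (a : QQ) : dQ a a = 0 := mQ.dist_self a

lemma dQ_comm (a b : QQ) : dQ a b = dQ b a := mQ.dist_comm a b

lemma tendsto_of_dQ (f : ℕ → QQ) (a : QQ) (h : ∀ n, dQ (f n) a ≤ 1 / ((n : ℝ) + 1)) :
    Tendsto f atTop (𝓝 a) := by
  let _ := mQ
  rw [tendsto_iff_dist_tendsto_zero]
  refine squeeze_zero (fun n => dist_nonneg) h ?_
  exact tendsto_one_div_add_atTop_nhds_zero_nat

lemma isOpen_ball (F : Finset ℕ) (w : ℕ → QQ) (ε : ℝ) :
    IsOpen {w' : ℕ → QQ | ∀ i ∈ F, dQ (w i) (w' i) < ε} := by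
  let _ := mQ
  have h : {w' : ℕ → QQ | ∀ i ∈ F, dQ (w i) (w' i) < ε} =
      ⋂ i ∈ F, (fun w' : ℕ → QQ => w' i) ⁻¹' {q | dist (w i) q < ε} := by
    ext w'; simp [dQ]
  rw [h]
  refine isOpen_biInter_finset fun i _ => ?_
  exact (isOpen_lt (continuous_const.dist continuous_id) continuous_const).preimage
    (continuous_apply i)

/-- finite nets of contents -/
lemma net_exists (F : Finset ℕ) (ε : ℝ) (hε : 0 < ε) :
    ∃ p : ℕ × (ℕ → Bool × (ℕ → QQ)), 0 < p.1 ∧
      (∀ c < p.1, ∀ i ∈ F, (p.2 c).2 i ∈ QS (p.2 c).1) ∧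
      ∀ (s : Bool) (w : ℕ → QQ), (∀ i ∈ F, w i ∈ QS s) →
        ∃ c < p.1, (p.2 c).1 = s ∧ ∀ i ∈ F, dQ ((p.2 c).2 i) (w i) < ε := by
  classical
  have h1 : ∀ s : Bool, ∃ t : Finset (ℕ → QQ), (∀ w ∈ t, ∀ i, w i ∈ QS s) ∧
      ∀ w : ℕ → QQ, (∀ i ∈ F, w i ∈ QS s) → ∃ w' ∈ t, ∀ i ∈ F, dQ (w' i) (w i) < ε := by
    intro s
    have hK : IsCompact (Set.pi Set.univ fun _ : ℕ => QS s) :=
      isCompact_univ_pi fun _ => (isClosed_QS s).isCompact
    obtain ⟨t, ht, ht'⟩ := hK.elim_nhds_subcover
      (fun w => {w' : ℕ → QQ | ∀ i ∈ F, dQ (w i) (w' i) < ε}) (by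
        intro w _
        exact (isOpen_ball F w ε).mem_nhds (by intro i _; rw [dQ_self]; exact hε))
    refine ⟨t, fun w hw i => ht w hw i (Set.mem_univ i), fun w hw => ?_⟩
    have h2 : (fun i => if i ∈ F then w i else zQ) ∈ Set.pi Set.univ fun _ : ℕ => QS s := by
      intro i _
      by_cases hi : i ∈ F
      · simp only [hi, if_true]; exact hw i hi
      · simp only [hi, if_false]; exact zQ_mem s
    obtain ⟨w', hw', hw''⟩ := Set.mem_iUnion₂.mp (ht' h2)
    refine ⟨w', hw', fun i hi => ?_⟩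
    have := hw'' i hi
    simpa [hi] using this
  choose t ht ht' using h1
  let L : List (Bool × (ℕ → QQ)) := ((t false).toList.map fun w => (false, w)) ++
    ((t true).toList.map fun w => (true, w))
  have hL : ∀ s w, (s, w) ∈ L ↔ w ∈ t s := by
    intro s w
    cases s <;> simp [L]
  refine ⟨(L.length, fun c => L.getD c (false, fun _ => zQ)), ?_, ?_, ?_⟩
  · obtain ⟨w', hw', -⟩ := ht' false (fun _ => zQ) (fun i _ => zQ_mem _)
    exact List.length_pos_of_mem ((hL false w').mpr hw')
  · intro c hc i _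
    simp only [List.getD_eq_getElem _ _ hc]
    have h3 : L[c] ∈ L := List.getElem_mem hc
    have h4 := (hL (L[c]).1 (L[c]).2).mp h3
    exact ht _ _ h4 i
  · intro s w hw
    obtain ⟨w', hw', h5⟩ := ht' s w hw
    obtain ⟨c, hc, hc'⟩ := List.getElem_of_mem ((hL s w').mpr hw')
    refine ⟨c, hc, ?_, ?_⟩
    · simp only [List.getD_eq_getElem _ _ hc, hc']
    · intro i hi
      simp only [List.getD_eq_getElem _ _ hc, hc']
      exact h5 i hi

/-! ### The levels -/

/-- data of a level: height, free positions, frozen letters -/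
structure Lev where
  h : ℕ
  free : Finset ℕ
  fr : ℕ → Bool × QQ

/-- the net used at level `n` -/
def net (n : ℕ) (F : Finset ℕ) : ℕ × (ℕ → Bool × (ℕ → QQ)) :=
  Classical.choose (net_exists F (1 / ((n : ℝ) + 1)) (by positivity))

lemma net_spec (n : ℕ) (F : Finset ℕ) : 0 < (net n F).1 ∧
      (∀ c < (net n F).1, ∀ i ∈ F, ((net n F).2 c).2 i ∈ QS ((net n F).2 c).1) ∧
      ∀ (s : Bool) (w : ℕ → QQ), (∀ i ∈ F, w i ∈ QS s) →
        ∃ c < (net n F).1, ((net n F).2 c).1 = s ∧
          ∀ i ∈ F, dQ (((net n F).2 c).2 i) (w i) < 1 / ((n : ℝ) + 1) :=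
  Classical.choose_spec (net_exists F (1 / ((n : ℝ) + 1)) (by positivity))

/-- number of free sub-blocks -/
def fN (n : ℕ) (F : Finset ℕ) : ℕ := 2 ^ (n + 4) * (2 * (net n F).1)

open Classical in
/-- the next level -/
def step (n : ℕ) (L : Lev) : Lev where
  h := (fN n L.free + 2 * (net n L.free).1) * L.h
  free := (Finset.range ((fN n L.free + 2 * (net n L.free).1) * L.h)).filter fun i =>
    i / L.h ∈ Finset.Icc 1 (fN n L.free) ∧ i % L.h ∈ L.free
  fr i := if i % L.h ∈ L.free then
      (((net n L.free).2 ((i / L.h - fN n L.free) / 2)).1,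
        ((net n L.free).2 ((i / L.h - fN n L.free) / 2)).2 (i % L.h))
    else L.fr (i % L.h)

/-- the levels -/
def lev : ℕ → Lev
  | 0 => ⟨1, {0}, fun _ => (false, zQ)⟩
  | n + 1 => step n (lev n)

def h (n : ℕ) : ℕ := (lev n).h
def fr (n : ℕ) : ℕ → Bool × QQ := (lev n).fr
def free (n : ℕ) : Finset ℕ := (lev n).free
/-- number of net elements -/
def k (n : ℕ) : ℕ := (net n (free n)).1
/-- net elements -/
def C (n : ℕ) : ℕ → Bool × (ℕ → QQ) := (net n (free n)).2
def f (n : ℕ) : ℕ := fN n (free n)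
def q (n : ℕ) : ℕ := f n + 2 * k n

lemma h_zero : h 0 = 1 := rfl
lemma free_zero : free 0 = {0} := rfl
lemma h_succ (n : ℕ) : h (n + 1) = q n * h n := rfl
lemma f_eq (n : ℕ) : f n = 2 ^ (n + 4) * (2 * k n) := rfl
lemma fr_succ (n i : ℕ) : fr (n + 1) i = open Classical in if i % h n ∈ free n then
    ((C n ((i / h n - f n) / 2)).1, (C n ((i / h n - f n) / 2)).2 (i % h n)) else fr n (i % h n) := rfl

lemma k_pos (n : ℕ) : 0 < k n := (net_spec n (free n)).1

lemma f_pos (n : ℕ) : 0 < f n := by
  have := k_pos n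
  rw [f_eq]; positivity

lemma q_pos (n : ℕ) : 0 < q n := by
  have := f_pos n
  unfold q; omega

lemma h_pos (n : ℕ) : 0 < h n := by
  induction n with
  | zero => rw [h_zero]; exact one_pos
  | succ n ih => rw [h_succ]; exact Nat.mul_pos (q_pos n) ih

lemma free_lt (n i : ℕ) (hi : i ∈ free n) : i < h n := by
  cases n with
  | zero =>
    rw [free_zero, Finset.mem_singleton] at hi
    rw [hi, h_zero]; exact one_pos
  | succ n => exact Finset.mem_range.mp (Finset.mem_filter.mp hi).1

lemma free_succ (n i : ℕ) : i ∈ free (n + 1) ↔ i / h n ∈ Finset.Icc 1 (f n) ∧ i % h n ∈ free n := by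
  constructor
  · intro hi
    exact (Finset.mem_filter.mp hi).2
  · intro hi
    refine Finset.mem_filter.mpr ⟨Finset.mem_range.mpr ?_, hi⟩
    show i < q n * h n
    have h1 := (Finset.mem_Icc.mp hi.1).2
    have h2 : i / h n < q n := by
      have := k_pos n
      unfold q; omega
    exact (Nat.div_lt_iff_lt_mul (h_pos n)).mp h2

lemma free_nonempty (n : ℕ) : (free n).Nonempty := by
  induction n with
  | zero => exact ⟨0, by rw [free_zero]; simp⟩
  | succ n ih =>
    obtain ⟨i, hi⟩ := ih
    refine ⟨1 * h n + i, (free_succ n _).mpr ?_⟩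
    have hi' := free_lt n i hi
    rw [add_comm, Nat.add_mul_div_right _ _ (h_pos n), Nat.div_eq_of_lt hi', zero_add,
      Nat.add_mul_mod_self_right, Nat.mod_eq_of_lt hi']
    exact ⟨Finset.mem_Icc.mpr ⟨le_rfl, f_pos n⟩, hi⟩

lemma h_dvd {m n : ℕ} (hmn : m ≤ n) : h m ∣ h n := by
  induction n, hmn using Nat.le_induction with
  | base => exact dvd_rfl
  | succ n _ ih => rw [h_succ]; exact dvd_mul_of_dvd_right ih _

lemma two_le_q (n : ℕ) : 2 ≤ q n := by
  have := k_pos n
  unfold q; omega

lemma h_lt_succ (n : ℕ) : h n < h (n + 1) := by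
  rw [h_succ]
  have h1 := two_le_q n
  have h2 := h_pos n
  nlinarith

lemma h_strictMono : StrictMono h := strictMono_nat_of_lt_succ h_lt_succ

lemma le_h (n : ℕ) : n ≤ h n := h_strictMono.le_apply

/-! ### Density -/

lemma card_free_succ (n : ℕ) : (free (n + 1)).card = f n * (free n).card := by
  have h1 : (Finset.Icc 1 (f n)).card = f n := by simp
  rw [← h1, ← Finset.card_product]
  refine Finset.card_bij' (fun i _ => (i / h n, i % h n)) (fun p _ => p.1 * h n + p.2)
    ?_ ?_ ?_ ?_
  · intro i hi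
    exact Finset.mem_product.mpr ((free_succ n i).mp hi)
  · rintro ⟨j, l⟩ hjk
    obtain ⟨hj, hk⟩ := Finset.mem_product.mp hjk
    have hk' := free_lt n l hk
    rw [free_succ]
    simp only
    rw [add_comm, Nat.add_mul_div_right _ _ (h_pos n), Nat.div_eq_of_lt hk', zero_add,
      Nat.add_mul_mod_self_right, Nat.mod_eq_of_lt hk']
    exact ⟨hj, hk⟩
  · intro i hi
    simp only
    rw [mul_comm]; exact Nat.div_add_mod i (h n)
  · rintro ⟨j, l⟩ hjk
    obtain ⟨hj, hk⟩ := Finset.mem_product.mp hjk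
    have hk' := free_lt n l hk
    simp only [Prod.mk.injEq]
    rw [add_comm, Nat.add_mul_div_right _ _ (h_pos n), Nat.div_eq_of_lt hk', zero_add,
      Nat.add_mul_mod_self_right, Nat.mod_eq_of_lt hk']
    exact ⟨rfl, rfl⟩

lemma card_free_le (n : ℕ) : (free n).card ≤ h n := by
  have h1 : free n ⊆ Finset.range (h n) := fun i hi => Finset.mem_range.mpr (free_lt n i hi)
  simpa using Finset.card_le_card h1

lemma density' (n : ℕ) : (3 / 4 + 1 / 2 ^ (n + 2) : ℝ) * h n ≤ (free n).card := by
  induction n with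
  | zero => rw [h_zero, free_zero]; norm_num
  | succ n ih =>
    rw [card_free_succ, h_succ]
    push_cast
    have hk : (0 : ℝ) < k n := by exact_mod_cast k_pos n
    have hh : (0 : ℝ) < h n := by exact_mod_cast h_pos n
    have hq : (q n : ℝ) = f n + 2 * k n := by simp [q]
    have hf : (f n : ℝ) = 2 ^ (n + 4) * (2 * k n) := by rw [f_eq]; push_cast; ring
    have hf0 : (0 : ℝ) < f n := by exact_mod_cast f_pos n
    have hc : ((free n).card : ℝ) ≤ h n := by exact_mod_cast card_free_le n
    have h2 : (2 * k n : ℝ) = f n / 2 ^ (n + 4) := by rw [hf]; field_simp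
    rw [hq, h2]
    have h3 : (3 / 4 + 1 / 2 ^ (n + 1 + 2) : ℝ) * (f n + f n / 2 ^ (n + 4)) ≤
        (3 / 4 + 1 / 2 ^ (n + 2) : ℝ) * f n := by
      have h4 : (1 : ℝ) / 2 ^ (n + 2) = 4 * (1 / 2 ^ (n + 4)) := by
        rw [show n + 4 = (n + 2) + 2 by ring, pow_add _ (n + 2) 2]; field_simp; norm_num
      have h5 : (1 : ℝ) / 2 ^ (n + 1 + 2) = 2 * (1 / 2 ^ (n + 4)) := by
        rw [show n + 4 = (n + 1 + 2) + 1 by ring, pow_succ _ (n + 1 + 2)]; field_simp
      have h6 : (f n : ℝ) / 2 ^ (n + 4) = f n * (1 / 2 ^ (n + 4)) := by ring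
      rw [h4, h5, h6]
      set e : ℝ := 1 / 2 ^ (n + 4) with he
      have he0 : 0 < e := by positivity
      have he1 : e ≤ 1 / 16 := by
        rw [he]
        apply one_div_le_one_div_of_le (by norm_num)
        have : (2 : ℝ) ^ 4 ≤ 2 ^ (n + 4) := pow_le_pow_right₀ (by norm_num) (by omega)
        linarith
      nlinarith [mul_pos he0 hf0, mul_pos (mul_pos he0 he0) hf0]
    calc (3 / 4 + 1 / 2 ^ (n + 1 + 2) : ℝ) * ((f n + f n / 2 ^ (n + 4)) * h n)
        = ((3 / 4 + 1 / 2 ^ (n + 1 + 2) : ℝ) * (f n + f n / 2 ^ (n + 4))) * h n := by ring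
      _ ≤ ((3 / 4 + 1 / 2 ^ (n + 2) : ℝ) * f n) * h n := by
          exact mul_le_mul_of_nonneg_right h3 hh.le
      _ = f n * ((3 / 4 + 1 / 2 ^ (n + 2) : ℝ) * h n) := by ring
      _ ≤ f n * (free n).card := mul_le_mul_of_nonneg_left ih hf0.le

lemma density (n : ℕ) : (3 / 4 : ℝ) * h n ≤ (free n).card := by
  refine le_trans ?_ (density' n)
  have hh : (0 : ℝ) < h n := by exact_mod_cast h_pos n
  have : (0 : ℝ) < 1 / 2 ^ (n + 2) := by positivity
  nlinarith

/-! ### Parity -/

lemma even_pairs (P : ℕ → Prop) [DecidablePred P] (k : ℕ) :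
    Even ((Finset.range (2 * k)).filter fun c => P (c / 2)).card := by
  induction k with
  | zero => simp
  | succ k ih =>
    have h1 : 2 * (k + 1) = 2 * k + 1 + 1 := by ring
    rw [h1, Finset.range_add_one, Finset.range_add_one, Finset.filter_insert, Finset.filter_insert]
    have h2 : (2 * k + 1) / 2 = k := by omega
    have h3 : (2 * k) / 2 = k := by omega
    rw [h2, h3]
    by_cases hP : P k
    · simp only [hP, if_true]
      rw [Finset.card_insert_of_notMem, Finset.card_insert_of_notMem]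
      · exact ih.add_one.add_one
      · simp
      · simp
    · simp only [hP, if_false]
      exact ih

/-- type of the frozen sub-blocks -/
def sty (n j : ℕ) : Bool := (C n ((j - f n) / 2)).1

lemma even_sty (n : ℕ) (s : Bool) :
    Even ((Finset.range (q n)).filter fun j => j ∉ Finset.Icc 1 (f n) ∧ sty n j = s).card := by
  have h1 : ((Finset.range (q n)).filter fun j => j ∉ Finset.Icc 1 (f n) ∧ sty n j = s).card =
      ((Finset.range (2 * k n)).filter fun c => (C n (c / 2)).1 = s).card := by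
    refine (Finset.card_bij (fun c _ => if c = 0 then 0 else f n + c) ?_ ?_ ?_).symm
    · intro c hc
      rw [Finset.mem_filter, Finset.mem_range] at hc
      rw [Finset.mem_filter, Finset.mem_range]
      have hq := q_pos n
      have hf := f_pos n
      by_cases h0 : c = 0
      · subst h0
        simp only [if_true, sty, Nat.zero_sub, Nat.zero_div, Finset.mem_Icc]
        refine ⟨hq, by omega, hc.2⟩
      · simp only [h0, if_false, sty, Finset.mem_Icc]
        refine ⟨by unfold q; omega, by omega, ?_⟩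
        rw [Nat.add_sub_cancel_left]; exact hc.2
    · intro c hc c' hc' h
      have hf := f_pos n
      by_cases h0 : c = 0
      · by_cases h0' : c' = 0
        · rw [h0, h0']
        · rw [if_pos h0, if_neg h0'] at h; omega
      · by_cases h0' : c' = 0
        · rw [if_neg h0, if_pos h0'] at h; omega
        · rw [if_neg h0, if_neg h0'] at h; omega
    · intro j hj
      rw [Finset.mem_filter, Finset.mem_range, Finset.mem_Icc] at hj
      by_cases h0 : j = 0
      · refine ⟨0, ?_, by simp [h0]⟩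
        rw [Finset.mem_filter, Finset.mem_range]
        have := k_pos n
        refine ⟨by omega, ?_⟩
        have := hj.2.2
        subst h0
        simpa [sty] using this
      · refine ⟨j - f n, ?_, ?_⟩
        · rw [Finset.mem_filter, Finset.mem_range]
          have := hj.1
          unfold q at this
          exact ⟨by omega, hj.2.2⟩
        · have : j - f n ≠ 0 := by omega
          simp only [this, if_false]; omega
  rw [h1]
  exact even_pairs (fun c => (C n c).1 = s) (k n)

lemma even_f (n : ℕ) : Even (f n) := by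
  rw [f_eq]
  exact ⟨2 ^ (n + 4) * k n, by ring⟩

end Sys1

end Run7.h745
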