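import Pool.Agent.Run7.h745.Psi
import Pool.Agent.Run7.h745.K0lem
import Pool.Agent.Run7.h745.Sys1

/-!
# Piece KT3: classes of projections given by matrix-valued functions
-/

set_option autoImplicit false
set_option linter.unusedSectionVars false

noncomputable section

namespace Run7.h745

open Filter Topology Matrix Pool.Agent.TH249
open scoped InnerProductSpace

/-! ### Contractibility -/

/-- scaling of letters -/
def scL (t : unitInterval) {m : ℕ} (z : coneSet m) : coneSet m :=
  ⟨fun i j => t.1 * z.1 i j, by
    obtain ⟨ζ, h1, h2⟩ := z.2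
    have ht := t.2.1
    refine ⟨fun i => √t.1 * ζ i, ?_, ?_⟩
    · have h3 : ∀ i, (√t.1 * ζ i) ^ 2 = t.1 * ζ i ^ 2 := by
        intro i; rw [mul_pow, Real.sq_sqrt ht]
      simp only [h3]
      rw [← Finset.mul_sum]
      have := t.2.2
      have h4 : 0 ≤ ∑ i, ζ i ^ 2 := Finset.sum_nonneg fun i _ => sq_nonneg _
      nlinarith
    · intro i j
      have h3 : √t.1 * √t.1 = t.1 := Real.mul_self_sqrt ht
      calc t.1 * z.1 i j = (√t.1 * √t.1) * (ζ i * ζ j) := by rw [h3, h2]
        _ = _ := by ring⟩

/-- scaling -/
def scS (t : unitInterval) {s : Bool} (q : QS s) : QS s :=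
  ⟨fun m => scL t (q.1 m), by
    rcases q with ⟨q, hq⟩
    cases s
    · intro m hm i j
      show t.1 * (q m).1 i j = 0
      rw [hq m hm i j, mul_zero]
    · exact Set.mem_univ _⟩

lemma scS_coe (t : unitInterval) {s : Bool} (q : QS s) (m : ℕ) (i j) :
    (((scS t q).1 m).1 i j : ℝ) = t.1 * (q.1 m).1 i j := rfl

lemma continuous_scS {s : Bool} : Continuous fun p : unitInterval × QS s => scS p.1 p.2 := by
  refine Continuous.subtype_mk (continuous_pi fun m => Continuous.subtype_mk
    (continuous_pi fun i => continuous_pi fun j => ?_) _) _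
  refine (continuous_subtype_val.comp continuous_fst).mul ?_
  exact (continuous_apply j).comp ((continuous_apply i).comp (continuous_subtype_val.comp
    ((continuous_apply m).comp (continuous_subtype_val.comp continuous_snd))))

/-- the zero letter -/
def zS (s : Bool) : QS s := ⟨Sys1.zQ, Sys1.zQ_mem s⟩

lemma contractible_W (F : Finset ℕ) (s : Bool) : ContractibleSpace (F → QS s) := by
  rw [contractible_iff_id_nullhomotopic]
  refine ⟨fun _ => zS s, ⟨⟨⟨fun p i => scS (unitInterval.symm p.1) (p.2 i), ?_⟩, ?_, ?_⟩⟩⟩
  · refine continuous_pi fun i => ?_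
    exact continuous_scS.comp ((unitInterval.continuous_symm.comp continuous_fst).prodMk
      ((continuous_apply i).comp continuous_snd))
  · intro w
    funext i
    refine Subtype.ext (funext fun m => Subtype.ext (funext fun a => funext fun b => ?_))
    show (unitInterval.symm 0 : unitInterval).1 * _ = _
    simp
  · intro w
    funext i
    refine Subtype.ext (funext fun m => Subtype.ext (funext fun a => funext fun b => ?_))
    show (unitInterval.symm 1 : unitInterval).1 * _ = (0 : ℝ)
    simp

/-- retraction onto the letters of type `s` -/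
def rho : (s : Bool) → QQ → QS s
  | true => fun q => ⟨q, Set.mem_univ _⟩
  | false => fun q => ⟨fun m => if m = 1 then q m else Sys1.zQ m, by
      intro m hm i j
      simp only [if_neg hm]; rfl⟩

lemma continuous_rho (s : Bool) : Continuous (rho s) := by
  cases s
  · refine Continuous.subtype_mk (continuous_pi fun m => ?_) _
    by_cases h : m = 1
    · simp only [h, if_true]; exact continuous_apply (A := fun m => coneSet (m + 1)) m
    · simp only [h, if_false]; exact continuous_const
  · exact Continuous.subtype_mk continuous_id _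

lemma rho_coe {s : Bool} {q : QQ} (hq : q ∈ QS s) : (rho s q).1 = q := by
  cases s
  · funext m
    show (if m = 1 then q m else Sys1.zQ m) = q m
    split_ifs with h
    · rfl
    · refine Subtype.ext (funext fun i => funext fun j => ?_)
      rw [hq m h i j]; rfl
  · rfl

section
variable {X : Type} [TopologicalSpace X] [CompactSpace X] [T2Space X] {T : X ≃ₜ X}
  (D : TowerData X T) {A : Type} [CStarAlgebra A] {ι : C(X, ℂ) →⋆ₐ[ℂ] A} {u : unitary A}

/-- the content map -/
def TowerData.ct (n : ℕ) (s : Bool) : C(X, D.free n → QS s) :=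
  ⟨fun x i => rho s (D.z ((T ^ ((i : ℕ) : ℤ) : X ≃ₜ X) x)), continuous_pi fun i =>
    (continuous_rho s).comp (D.continuous_z.comp (T ^ ((i : ℕ) : ℤ) : X ≃ₜ X).continuous)⟩

lemma TowerData.ct_spec (n : ℕ) (s : Bool) (x : X) (hx : x ∈ D.VT n s) (i : D.free n) :
    D.z ((T ^ ((i : ℕ) : ℤ) : X ≃ₜ X) x) = (D.ct n s x i).1 := by
  have h := D.z_mem ((T ^ ((i : ℕ) : ℤ) : X ≃ₜ X) x)
  rw [hx.2 i.1 i.2] at h
  exact (rho_coe h).symm

/-- trivialisation on the blocks of type `s` -/
lemma TowerData.triv (s3c : S_SYS3c) (prt3 : S_PRT3) (n : ℕ) (G : C(X, Mat (D.h n) ℂ))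
    (hG : ∀ x ∈ D.V n, IsStarProjection (G x))
    (hsame : ∀ x ∈ D.V n, ∀ y ∈ D.V n, D.SameBlock n x y → G x = G y) (s : Bool) :
    ∃ (r : ℕ) (U : C(X, Mat (D.h n) ℂ)), r ≤ D.h n ∧ ∀ x ∈ D.VT n s,
      star (U x) * U x = G x ∧ U x * star (U x) = Mat.of (diagProj (D.h n) r) := by
  obtain ⟨g', hg', hgx⟩ := s3c X T D n s (Mat (D.h n) ℂ) (fun x => G x) G.continuous hsame
  have hproj : ∀ w, IsStarProjection (g' w) := by
    intro w
    classical
    obtain ⟨x, hx, h⟩ := D.surj n s (fun i => if h : i ∈ D.free n then (w ⟨i, h⟩).1 else Sys1.zQ) (by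
        intro i hi
        simp only [hi, dif_pos]
        exact (w ⟨i, hi⟩).2)
    rw [← hgx x ⟨hx, fun i hi => (h i hi).1⟩ w (fun i => by rw [(h i.1 i.2).2, dif_pos i.2])]
    exact hG x hx
  have : CompactSpace (QS s) := isCompact_iff_compactSpace.mp (Sys1.isClosed_QS s).isCompact
  have : ContractibleSpace (D.free n → QS s) := contractible_W (D.free n) s
  obtain ⟨r, U, hr, h1, h2⟩ := prt3 (D.free n → QS s) (D.h n) ⟨g', hg'⟩ hproj
  refine ⟨r, U.comp (D.ct n s), hr, fun x hx => ⟨?_, ?_⟩⟩
  · rw [hgx x hx (D.ct n s x) (D.ct_spec n s x hx)]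
    exact h1 _
  · exact h2 _

lemma TowerData.psi_congr (hc : Covariant T ι u) (n : ℕ) {G G' : C(X, Mat (D.h n) ℂ)}
    (h : ∀ x ∈ D.V n, G x = G' x) : D.psiHom hc n G = D.psiHom hc n G' := by
  rw [D.psiHom_apply, D.psiHom_apply]
  refine Finset.sum_congr rfl fun i _ => Finset.sum_congr rfl fun j _ => ?_
  unfold TowerData.eu
  congr 3
  ext x
  rw [ContinuousMap.mul_apply, ContinuousMap.mul_apply, ent_apply, ent_apply]
  by_cases hx : x ∈ D.V n
  · rw [h x hx]
  · rw [ind_notMem (D.isClopen_V n) hx, zero_mul, zero_mul]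

end

theorem kt3 : S_KT3 := by
  intro X _ _ _ T D A _ ι u π n hA hπ s3c prt3 _ G hG hsame P hP hPp
  classical
  choose r U hr hU using D.triv s3c prt3 n G hG hsame
  let W : C(X, Mat (D.h n) ℂ) :=
    ⟨fun x => ind (D.VT n false) x • U false x + ind (D.VT n true) x • U true x, by fun_prop⟩
  have hW : ∀ s, ∀ x ∈ D.VT n s, W x = U s x := by
    intro s x hx
    have hd := Set.disjoint_left.mp (D.VT_disj n)
    show ind (D.VT n false) x • U false x + ind (D.VT n true) x • U true x = U s x
    cases s
    · rw [ind_mem (D.isClopen_VT n false) hx, ind_notMem (D.isClopen_VT n true) (hd hx), one_smul,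
        zero_smul, add_zero]
    · rw [ind_mem (D.isClopen_VT n true) hx, ind_notMem (D.isClopen_VT n false)
        (fun h => hd h hx), one_smul, zero_smul, zero_add]
  set Ψ := D.psiHom hA.cov n with hΨ
  have h1 : star (Ψ W) * Ψ W = P := by
    rw [← map_star, ← map_mul, hP]
    show Ψ (star W * W) = Ψ G
    refine D.psi_congr hA.cov n fun x hx => ?_
    rw [ContinuousMap.mul_apply, ContinuousMap.star_apply]
    rcases D.mem_VT_or n x hx with h | h
    · rw [hW _ x h, (hU _ x h).1]
    · rw [hW _ x h, (hU _ x h).1]
  -- the other projection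
  let p : (Σ _ : Bool, ℕ) → A := fun a => ι (ind ((T ^ (-(a.2 : ℤ)) : X ≃ₜ X) ⁻¹' D.VT n a.1))
  have hp : ∀ a, IsStarProjection (p a) := fun a =>
    isStarProjection_ind ι (isClopen_pre T _ (D.isClopen_VT n a.1))
  let S : Finset (Σ _ : Bool, ℕ) := Finset.univ.sigma fun s => Finset.range (r s)
  obtain ⟨hs, h2⟩ := v1_sum S p hp (by
    rintro ⟨s, i⟩ hi ⟨s', i'⟩ hi' hne
    rw [Finset.mem_sigma, Finset.mem_range] at hi hi'
    have h3 := hr s
    have h4 := hr s'
    have h5 := hi.2
    have h6 := hi'.2
    simp only at h5 h6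
    show ι _ * ι _ = 0
    rw [← map_mul, ind_disj (isClopen_pre T _ (D.isClopen_VT n _))
      (isClopen_pre T _ (D.isClopen_VT n _)), map_zero]
    by_cases hii : i = i'
    · subst hii
      have hss : s ≠ s' := fun h => hne (by rw [h])
      refine Disjoint.preimage _ ?_
      cases s <;> cases s'
      · exact absurd rfl hss
      · exact D.VT_disj n
      · exact (D.VT_disj n).symm
      · exact absurd rfl hss
    · refine (D.disj n (-(i : ℤ)) (-(i' : ℤ)) ?_ ?_).mono ?_ ?_
      · intro h; apply hii; omega
      · rw [abs_lt]; omega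
      · exact Set.preimage_mono (D.VT_sub n s)
      · exact Set.preimage_mono (D.VT_sub n s'))
  have h3 : Ψ W * star (Ψ W) = ∑ a ∈ S, p a := by
    rw [← map_star, ← map_mul, hΨ, D.psiHom_apply]
    have h4 : ∀ i j : Fin (D.h n), D.eu ι u n (ent (W * star W) i j) ((i : ℕ) : ℤ) ((j : ℕ) : ℤ) =
        if i = j then ∑ s : Bool, (if (i : ℕ) < r s then
          ι (ind ((T ^ (-((i : ℕ) : ℤ)) : X ≃ₜ X) ⁻¹' D.VT n s)) else 0) else 0 := by
      intro i j
      have h5 : ind (D.V n) * ent (W * star W) i j = if i = j then
          ∑ s : Bool, (if (i : ℕ) < r s then ind (D.VT n s) else 0) else 0 := by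
        ext x
        rw [ContinuousMap.mul_apply, ent_apply]
        by_cases hx : x ∈ D.V n
        · rw [ind_mem (D.isClopen_V n) hx, one_mul, ContinuousMap.mul_apply,
            ContinuousMap.star_apply]
          have h6 : ∀ s, x ∈ D.VT n s → (Mat.of.symm (W x * star (W x))) i j =
              if i = j then (if (i : ℕ) < r s then (1 : ℂ) else 0) else 0 := by
            intro s h
            rw [hW s x h, (hU s x h).2]
            show diagProj (D.h n) (r s) i j = _
            unfold diagProj
            rw [Matrix.diagonal_apply]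
          have hd := Set.disjoint_left.mp (D.VT_disj n)
          rcases D.mem_VT_or n x hx with h | h
          · rw [h6 _ h]
            by_cases hij : i = j
            · rw [if_pos hij, if_pos hij, Fintype.sum_bool, ContinuousMap.add_apply]
              have h7 : (if (i : ℕ) < r true then ind (D.VT n true) else 0) x = 0 := by
                split_ifs
                · exact ind_notMem (D.isClopen_VT n true) (hd h)
                · rfl
              rw [h7, zero_add]
              split_ifs
              · exact (ind_mem (D.isClopen_VT n false) h).symm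
              · rfl
            · rw [if_neg hij, if_neg hij]; rfl
          · rw [h6 _ h]
            by_cases hij : i = j
            · rw [if_pos hij, if_pos hij, Fintype.sum_bool, ContinuousMap.add_apply]
              have h7 : (if (i : ℕ) < r false then ind (D.VT n false) else 0) x = 0 := by
                split_ifs
                · exact ind_notMem (D.isClopen_VT n false) (fun h' => hd h' h)
                · rfl
              rw [h7, add_zero]
              split_ifs
              · exact (ind_mem (D.isClopen_VT n true) h).symm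
              · rfl
            · rw [if_neg hij, if_neg hij]; rfl
        · rw [ind_notMem (D.isClopen_V n) hx, zero_mul]
          by_cases hij : i = j
          · rw [if_pos hij, Fintype.sum_bool, ContinuousMap.add_apply]
            have h7 : ∀ s, (if (i : ℕ) < r s then ind (D.VT n s) else 0) x = 0 := by
              intro s
              split_ifs
              · exact ind_notMem (D.isClopen_VT n s) (fun h => hx h.1)
              · rfl
            rw [h7, h7, add_zero]
          · rw [if_neg hij]; rfl
      unfold TowerData.eu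
      rw [h5]
      by_cases hij : i = j
      · subst hij
        rw [if_pos rfl, if_pos rfl, map_sum, Finset.mul_sum, Finset.sum_mul]
        refine Finset.sum_congr rfl fun s _ => ?_
        split_ifs
        · rw [cov_conj hA.cov, cT_ind T _ (D.isClopen_VT n s)]
        · simp
      · rw [if_neg hij, if_neg hij]; simp
    simp only [h4, Finset.sum_ite_eq, Finset.mem_univ, if_true]
    rw [Finset.sum_comm, Finset.sum_sigma]
    refine Finset.sum_congr rfl fun s _ => ?_
    rw [Fin.sum_univ_eq_sum_range (fun i => if i < r s then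
      ι (ind ((T ^ (-(i : ℤ)) : X ≃ₜ X) ⁻¹' D.VT n s)) else 0) (D.h n), ← Finset.sum_filter]
    refine Finset.sum_congr ?_ fun i _ => rfl
    ext i
    have := hr s
    rw [Finset.mem_filter, Finset.mem_range, Finset.mem_range]
    omega
  have h4 := v1_eq hPp (h3 ▸ hs) h1 rfl
  rw [v1_congr _ h3, h2, Finset.sum_sigma] at h4
  have h5 : ∀ s : Bool, ∑ i ∈ Finset.range (r s), v1 (p ⟨s, i⟩) (hp ⟨s, i⟩) =
      r s • vS ι (D.VT n s) (D.isClopen_VT n s) := by
    intro s
    have h6 : ∀ i ∈ Finset.range (r s), v1 (p ⟨s, i⟩) (hp ⟨s, i⟩) =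
        vS ι (D.VT n s) (D.isClopen_VT n s) := fun i _ =>
      vS_shift hA.cov (D.isClopen_VT n s) (-(i : ℤ))
    rw [Finset.sum_congr rfl h6, Finset.sum_const, Finset.card_range]
  rw [Fintype.sum_bool, h5, h5] at h4
  refine ⟨r, gen D ι n, isG_gen D n, ?_⟩
  have h6 := congrArg (K0.ofV A) h4
  rw [map_add, map_nsmul, map_nsmul, add_comm] at h6
  exact h6

end Run7.h745
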