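import Pool.Agent.Run7.h745.KTd

/-!
# Piece KT, part 5: end of the proof
-/

set_option autoImplicit false
set_option linter.unusedSectionVars false

noncomputable section

namespace Run7.h745

open Filter Topology Matrix Pool.Agent.TH249
open scoped InnerProductSpace

section
variable {X : Type} [TopologicalSpace X] [CompactSpace X] [T2Space X] {T : X ≃ₜ X}
  (D : TowerData X T) {A : Type} [CStarAlgebra A] {ι : C(X, ℂ) →⋆ₐ[ℂ] A} {u : unitary A}
  {x₀ : X} {P : A →⋆ₐ[ℂ] (HH →L[ℂ] HH)}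

lemma TowerData.Phi_star (n : ℕ) (a : A) (S : HH →L[ℂ] HH) :
    star (D.Phi ι u P n a S) = D.Phi ι u P n (star a) (star S) := by
  unfold TowerData.Phi
  rw [star_add, D.Th_star, star_sub, map_star]

lemma TowerData.Phi_zero (n : ℕ) (S : HH →L[ℂ] HH) :
    D.Phi ι u P n 0 S = D.Th ι u n S := by
  unfold TowerData.Phi
  rw [map_zero, sub_zero, zero_add]

lemma TowerData.Th_coord (hc : Covariant T ι u) {r : ℕ} {R : HH →L[ℂ] HH} (hR : IsCoord r R)
    (n : ℕ) (hn : r ≤ D.lh n) : D.Th ι u n R =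
      ∑ i ∈ Finset.range r, ι (ind ((T ^ (-(i : ℤ)) : X ≃ₜ X) ⁻¹' D.V n)) := by
  have h1 : R = ∑ i ∈ Finset.range r, EE i i := by
    refine HH_ext fun j => ?_
    rw [hR j, _root_.sum_apply]
    simp only [EE_dl]
    split_ifs with h
    · obtain ⟨k, rfl⟩ := Int.eq_ofNat_of_zero_le h.1
      rw [Finset.sum_eq_single k]
      · simp
      · intro b _ hb
        rw [if_neg fun h => hb (by exact_mod_cast h)]
      · intro h'; exact absurd (Finset.mem_range.mpr (by exact_mod_cast h.2)) h'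
    · symm
      refine Finset.sum_eq_zero fun i hi => ?_
      rw [Finset.mem_range] at hi
      rw [if_neg]
      intro h'; apply h; omega
  rw [h1, map_sum]
  refine Finset.sum_congr rfl fun i hi => ?_
  rw [Finset.mem_range] at hi
  have h2 : |(i : ℤ)| ≤ D.lh n := by rw [abs_le]; omega
  rw [D.Th_EE ι u n i i h2 h2]
  unfold TowerData.eu
  rw [mul_one, cov_conj hc, cT_ind T _ (D.isClopen_V n)]

lemma TowerData.coord_cls (hc : Covariant T ι u) {r : ℕ} {R : HH →L[ℂ] HH} (hR : IsCoord r R)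
    (n : ℕ) (hn : r ≤ D.lh n) : ∃ h : IsStarProjection (D.Th ι u n R),
      v1 (D.Th ι u n R) h = r • (vS ι (D.VT n false) (D.isClopen_VT n false) +
        vS ι (D.VT n true) (D.isClopen_VT n true)) := by
  have hl := D.lh_spec n
  obtain ⟨h1, h2⟩ := v1_sum (Finset.range r)
    (fun i : ℕ => ι (ind ((T ^ (-(i : ℤ)) : X ≃ₜ X) ⁻¹' D.V n)))
    (fun i => isStarProjection_ind ι (isClopen_pre T _ (D.isClopen_V n))) (by
      intro i hi j hj hij
      rw [Finset.mem_range] at hi hj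
      rw [← map_mul, ind_disj (isClopen_pre T _ (D.isClopen_V n)) (isClopen_pre T _ (D.isClopen_V n)),
        map_zero]
      refine D.disj n _ _ ?_ ?_
      · intro h; apply hij; omega
      · rw [abs_lt]; omega)
  have h3 := D.Th_coord hc hR n hn
  refine ⟨h3 ▸ h1, ?_⟩
  rw [v1_congr _ h3, h2]
  have h4 : ∀ i ∈ Finset.range r, v1 (ι (ind ((T ^ (-(i : ℤ)) : X ≃ₜ X) ⁻¹' D.V n)))
      (isStarProjection_ind ι (isClopen_pre T _ (D.isClopen_V n))) =
      vS ι (D.VT n false) (D.isClopen_VT n false) + vS ι (D.VT n true) (D.isClopen_VT n true) := by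
    intro i _
    have h5 := vS_shift hc (D.isClopen_V n) (-(i : ℤ))
    rw [← vS_union (D.isClopen_VT n false) (D.isClopen_VT n true) (D.VT_disj n),
      vS_congr _ (D.VT_union n)]
    exact h5
  rw [Finset.sum_congr rfl h4, Finset.sum_const, Finset.card_range]

lemma tendsto_mat2 {f : ℕ → Matrix (Fin 2) (Fin 2) A}
    (h : ∀ i j, Tendsto (fun n => f n i j) atTop (𝓝 0)) :
    Tendsto (fun n => (Mat.of (f n) : Mat 2 A)) atTop (𝓝 0) := by
  have h1 : Tendsto f atTop (𝓝 0) :=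
    tendsto_pi_nhds.mpr fun i => tendsto_pi_nhds.mpr fun j => h i j
  have h2 := (Mat.continuous_of (k := 2) (A := A)).tendsto 0
  rw [map_zero] at h2
  exact h2.comp h1

lemma W1_apply (a b c p r : A) (i j : Fin 2) :
    ((Matrix.of ![![a, b], ![c, 0]])ᴴ * (Matrix.of ![![a, b], ![c, 0]]) -
      Matrix.diagonal ![p, r] : Matrix (Fin 2) (Fin 2) A) i j =
    (Matrix.of ![![star a * a + star c * c - p, star a * b], ![star b * a, star b * b - r]]) i j := by
  fin_cases i <;> fin_cases j <;>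
    simp [Matrix.mul_apply, Fin.sum_univ_two, -Matrix.cons_mul, Matrix.diagonal]

lemma W2_apply (a b c p r : A) (i j : Fin 2) :
    ((Matrix.of ![![a, b], ![c, 0]]) * (Matrix.of ![![a, b], ![c, 0]])ᴴ -
      Matrix.diagonal ![p, r] : Matrix (Fin 2) (Fin 2) A) i j =
    (Matrix.of ![![a * star a + b * star b - p, a * star c], ![c * star a, c * star c - r]]) i j := by
  fin_cases i <;> fin_cases j <;>
    simp [Matrix.mul_apply, Fin.sum_univ_two, -Matrix.cons_mul, Matrix.diagonal]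

lemma isStarProjection_matOf {k : ℕ} {M : Matrix (Fin k) (Fin k) A} (h : IsPrj M) :
    IsStarProjection (Mat.of M : Mat k A) :=
  ⟨by show Mat.of M * Mat.of M = _; rw [← map_mul, h.2],
   by show star (Mat.of M) = _; rw [← map_star]; exact congrArg Mat.of h.1⟩

end

lemma prt2' (prt2 : S_PRT2) (ε : ℝ) (hε : 0 < ε) : ∃ η : ℝ, 0 < η ∧
    ∀ (C : Type) [CStarAlgebra C] (G : C), IsSelfAdjoint G → ‖G * G - G‖ < η →
      ∃ (f : ℝ → ℝ) (P' : C), f 0 = 0 ∧ IsStarProjection P' ∧ ‖G - P'‖ < ε ∧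
        ∀ (B : Type) [CStarAlgebra B] (φ : C →⋆ₐ[ℂ] B), φ P' = cfc f (φ G) := by
  obtain ⟨η, hη, h⟩ := prt2 ε hε
  refine ⟨η, hη, fun C _ G hG hGG => ?_⟩
  obtain ⟨f, hf1, hf2, hf3, hf4⟩ := h C G hG hGG
  refine ⟨f, cfc f G, hf2, hf3, hf4, fun B _ φ => ?_⟩
  have hφ : Continuous φ := AddMonoidHomClass.continuous_of_bound φ 1 fun a => by
    rw [one_mul]; exact NonUnitalStarAlgHom.norm_apply_le φ a
  exact StarAlgHomClass.map_cfc (R := ℝ) (S := ℂ) φ f G hf1 hφ hG (hG.map φ)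

theorem kt : S_KT := by
  intro s3a s3b s3c cp3 kh prt1 prt2 prt3 psi kt3 X _ _ _ T D A _ ι u π hA hπ p hp
  obtain ⟨x₀, hx₀⟩ := s3a X T D
  have hP : IsOrbitRep T ι u x₀ (π x₀) := hπ.rep x₀
  generalize π x₀ = P at hP
  have hp₀ : IsStarProjection (P p) := hp.map P
  obtain ⟨t, v, w₁, w₂, r₁, r₂, R₁, R₂, ht, htd, htK, hvK, hw₁, hw₂, hR₁, hR₂, e1, e2, e3, e4, e5,
    e6⟩ := kh (P p) (P p - Xo (P p)) hp₀ (by
      intro i j h
      rw [_root_.sub_apply, inner_sub_right, Xo_coef, if_pos h, sub_self]) (by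
      intro i j h
      rw [sub_sub_cancel, Xo_coef, if_neg (by omega)]) (by
      rw [sub_sub_cancel]; exact Xo_mem_Kc hA cp3 hP p)
  have hvK' : star v - P p ∈ Kc := by
    have := Kc_star hvK
    rwa [star_sub, hp₀.isSelfAdjoint.star_eq] at this
  have hw₁' := Kc_star hw₁
  have hw₂' := Kc_star hw₂
  have hpp : p * p = p := hp.isIdempotentElem.eq
  have hps : star p = p := hp.isSelfAdjoint.star_eq
  have z0 : ∀ {S : HH →L[ℂ] HH}, S ∈ Kc → S - P 0 ∈ Kc := by
    intro S hS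
    rw [map_zero, sub_zero]; exact hS
  -- limits
  have a11 : Tendsto (fun n => star (D.Phi ι u P n p v) * D.Phi ι u P n p v +
      star (D.Th ι u n w₁) * D.Th ι u n w₁ - p) atTop (𝓝 0) := by
    have h1 := D.Phi_mul hA cp3 hx₀ hP hvK' hvK
    have h2 := D.Th_mul (ι := ι) (u := u) hA.cov hw₁' hw₁
    have h3 := h1.add h2
    rw [add_zero] at h3
    refine h3.congr fun n => ?_
    have h4 : D.Phi ι u P n (p * p) (star v * v) + D.Th ι u n (star w₁ * w₁) = p := by
      unfold TowerData.Phi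
      rw [hpp, add_assoc, ← map_add, sub_add_eq_add_sub, e1, sub_self, map_zero, add_zero]
    rw [D.Phi_star, hps, D.Th_star]
    have h5 : ∀ a b c d : A, c + d = p → a - c + (b - d) = a + b - p := by
      intro a b c d h; rw [← h]; abel
    exact h5 _ _ _ _ h4
  have a12 : Tendsto (fun n => star (D.Phi ι u P n p v) * D.Th ι u n (star w₂)) atTop (𝓝 0) := by
    have h1 := D.Phi_mul hA cp3 hx₀ hP hvK' (z0 hw₂')
    refine h1.congr fun n => ?_
    have h4 : star v * star w₂ = 0 := by rw [← star_mul, e2, star_zero]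
    rw [h4, mul_zero, D.Phi_zero, D.Phi_zero, map_zero, sub_zero, D.Phi_star, hps]
  have a22 : Tendsto (fun n => star (D.Th ι u n (star w₂)) * D.Th ι u n (star w₂) -
      D.Th ι u n R₂) atTop (𝓝 0) := by
    have h2 := D.Th_mul (ι := ι) (u := u) hA.cov hw₂ hw₂'
    refine h2.congr fun n => ?_
    rw [D.Th_star, star_star, e3]
  have b11 : Tendsto (fun n => D.Phi ι u P n p v * star (D.Phi ι u P n p v) +
      D.Th ι u n (star w₂) * star (D.Th ι u n (star w₂)) - D.Phi ι u P n p t) atTop (𝓝 0) := by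
    have h1 := D.Phi_mul hA cp3 hx₀ hP hvK hvK'
    have h2 := D.Th_mul (ι := ι) (u := u) hA.cov hw₂' hw₂
    have h3 := h1.add h2
    rw [add_zero] at h3
    refine h3.congr fun n => ?_
    have h4 : D.Phi ι u P n (p * p) (v * star v) + D.Th ι u n (star w₂ * w₂) =
        D.Phi ι u P n p t := by
      unfold TowerData.Phi
      rw [hpp, add_assoc, ← map_add, sub_add_eq_add_sub, e4]
    rw [D.Phi_star, hps, D.Th_star, star_star, ← h4]
    abel
  have b12 : Tendsto (fun n => D.Phi ι u P n p v * star (D.Th ι u n w₁)) atTop (𝓝 0) := by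
    have h1 := D.Phi_mul hA cp3 hx₀ hP hvK (z0 hw₁')
    refine h1.congr fun n => ?_
    have h4 : v * star w₁ = 0 := by
      have := congrArg star e5
      rwa [star_mul, star_star, star_zero] at this
    rw [h4, mul_zero, D.Phi_zero, D.Phi_zero, map_zero, sub_zero, D.Th_star]
  have b22 : Tendsto (fun n => D.Th ι u n w₁ * star (D.Th ι u n w₁) -
      D.Th ι u n R₁) atTop (𝓝 0) := by
    have h2 := D.Th_mul (ι := ι) (u := u) hA.cov hw₁ hw₁'
    refine h2.congr fun n => ?_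
    rw [D.Th_star, e6]
  have c11 : Tendsto (fun n => D.Phi ι u P n p t * D.Phi ι u P n p t - D.Phi ι u P n p t) atTop
      (𝓝 0) := by
    have h1 := D.Phi_mul hA cp3 hx₀ hP htK htK
    rwa [hpp, ht.isIdempotentElem.eq] at h1
  let W : ℕ → Matrix (Fin 2) (Fin 2) A := fun n =>
    Matrix.of ![![D.Phi ι u P n p v, D.Th ι u n (star w₂)], ![D.Th ι u n w₁, 0]]
  have hW1 : Tendsto (fun n => (Mat.of ((W n)ᴴ * W n -
      Matrix.diagonal ![p, D.Th ι u n R₂]) : Mat 2 A)) atTop (𝓝 0) := by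
    refine tendsto_mat2 fun i j => ?_
    simp only [W, W1_apply]
    fin_cases i <;> fin_cases j
    · exact a11
    · exact a12
    · have := a12.star
      rw [star_zero] at this
      refine this.congr fun n => ?_
      rw [star_mul, star_star]; rfl
    · exact a22
  have hW2 : Tendsto (fun n => (Mat.of (W n * (W n)ᴴ -
      Matrix.diagonal ![D.Phi ι u P n p t, D.Th ι u n R₁]) : Mat 2 A)) atTop (𝓝 0) := by
    refine tendsto_mat2 fun i j => ?_
    simp only [W, W2_apply]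
    fin_cases i <;> fin_cases j
    · exact b11
    · exact b12
    · have := b12.star
      rw [star_zero] at this
      refine this.congr fun n => ?_
      rw [star_mul, star_star]; rfl
    · exact b22
  -- constants
  obtain ⟨ε₁, hε₁, hprt1⟩ := prt1
  obtain ⟨δ₀, hδ₀, hδ⟩ : ∃ δ : ℝ, 0 < δ ∧ ∀ a : A, ‖a‖ < δ →
      ‖(Mat.of (Matrix.diagonal ![a, 0]) : Mat 2 A)‖ < ε₁ / 2 := by
    have h1 : Continuous fun a : A => (Mat.of (Matrix.diagonal ![a, 0]) : Mat 2 A) := by
      refine Mat.continuous_of.comp ?_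
      refine continuous_pi fun i => continuous_pi fun j => ?_
      fin_cases i <;> fin_cases j <;> simp [Matrix.diagonal] <;> fun_prop
    obtain ⟨δ, hδ, h2⟩ := (Metric.continuous_iff.mp h1) 0 (ε₁ / 2) (by positivity)
    refine ⟨δ, hδ, fun a ha => ?_⟩
    have h3 := h2 a (by rw [dist_zero_right]; exact ha)
    have h4 : (Mat.of (Matrix.diagonal ![(0 : A), 0]) : Mat 2 A) = 0 := by
      have : (Matrix.diagonal ![(0 : A), 0] : Matrix (Fin 2) (Fin 2) A) = 0 := by
        ext i j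
        fin_cases i <;> fin_cases j <;> simp [Matrix.diagonal]
      rw [this, map_zero]
    rw [h4, dist_zero_right] at h3
    exact h3
  obtain ⟨η, hη, hprt2⟩ := prt2' prt2 (δ₀ / 2) (by positivity)
  set C : ℝ := ‖p‖ + ‖t - P p‖ with hC
  have hC0 : 0 ≤ C := by positivity
  set ε' : ℝ := min (δ₀ / 2) (min 1 (η / (2 * (2 * C + 2)))) with hε'
  have hε'0 : 0 < ε' := by
    refine lt_min (by positivity) (lt_min one_pos (by positivity))
  have hε'1 : ε' ≤ 1 := (min_le_right _ _).trans (min_le_left _ _)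
  have hε'2 : ε' ≤ δ₀ / 2 := min_le_left _ _
  have hε'3 : (2 * C + 2) * ε' ≤ η / 2 := by
    have h1 : ε' ≤ η / (2 * (2 * C + 2)) := (min_le_right _ _).trans (min_le_right _ _)
    calc (2 * C + 2) * ε' ≤ (2 * C + 2) * (η / (2 * (2 * C + 2))) :=
          mul_le_mul_of_nonneg_left h1 (by positivity)
      _ = η / 2 := by field_simp
  have hPhiC : ∀ n, ‖D.Phi ι u P n p t‖ ≤ C := by
    intro n
    exact (norm_add_le _ _).trans (add_le_add_right (D.Th_norm ι u hA.cov n _) _)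
  -- choose n
  have hev1 := (Metric.tendsto_nhds.mp hW1) ε₁ hε₁
  have hev2 := (Metric.tendsto_nhds.mp hW2) (ε₁ / 2) (by positivity)
  have hev3 := (Metric.tendsto_nhds.mp c11) (η / 2) (by positivity)
  have hev4 := D.close hA s3b cp3 hx₀ hP hp.isSelfAdjoint ht.isSelfAdjoint htd ε' hε'0
  have hev5 := tendsto_atTop.mp D.lh_tendsto (max r₁ r₂)
  obtain ⟨n, ⟨⟨⟨⟨hn1, hn2⟩, hn3⟩, hn4⟩, hn5⟩⟩ :=
    ((((hev1.and hev2).and hev3).and hev4).and hev5).exists
  rw [dist_zero_right] at hn1 hn2 hn3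
  obtain ⟨Ψ, hΨ, hΨn, -⟩ := psi X T D A ι u π n hA hπ
  obtain ⟨G, hG1, hG2, hG3, hG4⟩ := hn4 Ψ hΨ
  have hGG : ‖G * G - G‖ < η := by
    have hz : ∀ x, x ∉ D.V n → (G * G - G) x = 0 := by
      intro x hx
      rw [ContinuousMap.sub_apply, ContinuousMap.mul_apply, hG2 x hx, mul_zero, sub_zero]
    rw [← hΨn _ hz, map_sub, map_mul]
    set F := D.Phi ι u P n p t with hF
    have h1 : Ψ G * Ψ G - Ψ G = (Ψ G * (Ψ G - F) + (Ψ G - F) * F) + (F * F - F) + (F - Ψ G) := by
      noncomm_ring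
    have h2 : ‖Ψ G - F‖ < ε' := by rw [norm_sub_rev]; exact hG4
    have h3 : ‖Ψ G‖ ≤ C + ε' := by
      calc ‖Ψ G‖ = ‖F + (Ψ G - F)‖ := by congr 1; abel
        _ ≤ ‖F‖ + ‖Ψ G - F‖ := norm_add_le _ _
        _ ≤ _ := add_le_add (hPhiC n) h2.le
    have h4 : ‖Ψ G * (Ψ G - F)‖ ≤ (C + ε') * ε' :=
      (norm_mul_le _ _).trans (mul_le_mul h3 h2.le (norm_nonneg _) (by positivity))
    have h5 : ‖(Ψ G - F) * F‖ ≤ ε' * C :=
      (norm_mul_le _ _).trans (mul_le_mul h2.le (hPhiC n) (norm_nonneg _) (by positivity))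
    rw [h1]
    calc _ ≤ ‖Ψ G * (Ψ G - F) + (Ψ G - F) * F‖ + ‖F * F - F‖ + ‖F - Ψ G‖ := norm_add₃_le
      _ ≤ (‖Ψ G * (Ψ G - F)‖ + ‖(Ψ G - F) * F‖) + ‖F * F - F‖ + ‖F - Ψ G‖ := by
          gcongr; exact norm_add_le _ _
      _ < (C + ε') * ε' + ε' * C + η / 2 + ε' := by linarith
      _ ≤ (2 * C + 2) * ε' + η / 2 := by nlinarith
      _ ≤ η := by linarith
  obtain ⟨f, P', hf2, hf3, hf4, hf5⟩ := hprt2 C(X, Mat (D.h n) ℂ) G hG1 hGG
  have hev : ∀ x, P' x = cfc f (G x) := by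
    intro x
    let φ : C(X, Mat (D.h n) ℂ) →⋆ₐ[ℂ] Mat (D.h n) ℂ :=
      { toFun := fun G => G x
        map_one' := rfl
        map_mul' := fun _ _ => rfl
        map_zero' := rfl
        map_add' := fun _ _ => rfl
        commutes' := fun _ => rfl
        map_star' := fun _ => rfl }
    exact hf5 _ φ
  have hPx : ∀ x, IsStarProjection (P' x) := by
    intro x
    refine ⟨?_, ?_⟩
    · show P' x * P' x = P' x
      rw [← ContinuousMap.mul_apply, hf3.isIdempotentElem.eq]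
    · show star (P' x) = P' x
      rw [← ContinuousMap.star_apply, hf3.isSelfAdjoint.star_eq]
  obtain ⟨r, g, hg, hcls⟩ := kt3 X T D A ι u π n hA hπ s3c prt3 psi P' (fun x _ => hPx x) (by
    intro x hx y hy hxy
    rw [hev, hev, hG3 x hx y hy hxy]) (Ψ P') (hΨ P') (hf3.map Ψ)
  -- equivalence in M_2
  obtain ⟨hρ₁, cρ₁⟩ := D.coord_cls (ι := ι) hA.cov hR₁ n ((le_max_left _ _).trans hn5)
  obtain ⟨hρ₂, cρ₂⟩ := D.coord_cls (ι := ι) hA.cov hR₂ n ((le_max_right _ _).trans hn5)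
  have hd1 : ∀ i, IsStarProjection ((![p, D.Th ι u n R₂] : Fin 2 → A) i) := by
    intro i; fin_cases i
    · exact hp
    · exact hρ₂
  have hd2 : ∀ i, IsStarProjection ((![Ψ P', D.Th ι u n R₁] : Fin 2 → A) i) := by
    intro i; fin_cases i
    · exact hf3.map Ψ
    · exact hρ₁
  have hPr1 := isPrj_diagonal _ hd1
  have hPr2 := isPrj_diagonal _ hd2
  obtain ⟨V, hV1, hV2⟩ := hprt1 (Mat 2 A) (Mat.of (Matrix.diagonal ![p, D.Th ι u n R₂]))
    (Mat.of (Matrix.diagonal ![Ψ P', D.Th ι u n R₁])) (Mat.of (W n))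
    (isStarProjection_matOf hPr1) (isStarProjection_matOf hPr2) (by
      rw [← map_star, ← map_mul, ← map_sub]
      exact hn1) (by
      rw [← map_star, ← map_mul, ← map_sub]
      have h1 : W n * star (W n) - Matrix.diagonal ![Ψ P', D.Th ι u n R₁] =
          (W n * (W n)ᴴ - Matrix.diagonal ![D.Phi ι u P n p t, D.Th ι u n R₁]) +
          Matrix.diagonal ![D.Phi ι u P n p t - Ψ P', 0] := by
        rw [Matrix.star_eq_conjTranspose, sub_add, Matrix.diagonal_sub]
        congr 2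
        funext i
        fin_cases i <;> simp
      rw [h1, map_add]
      have h2 : ‖D.Phi ι u P n p t - Ψ P'‖ < δ₀ := by
        have h3 : ‖Ψ G - Ψ P'‖ ≤ ‖G - P'‖ := by
          rw [← map_sub]; exact NonUnitalStarAlgHom.norm_apply_le Ψ _
        calc ‖D.Phi ι u P n p t - Ψ P'‖ = ‖(D.Phi ι u P n p t - Ψ G) + (Ψ G - Ψ P')‖ := by
              congr 1; abel
          _ ≤ _ := norm_add_le _ _
          _ < δ₀ / 2 + δ₀ / 2 := by linarith
          _ = δ₀ := by ring
      refine (norm_add_le _ _).trans_lt ?_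
      linarith [hδ _ h2])
  have hE : Eqv (Matrix.diagonal ![p, D.Th ι u n R₂]) (Matrix.diagonal ![Ψ P', D.Th ι u n R₁]) :=
    ⟨Mat.of.symm V, Mat.of.injective hV1, Mat.of.injective hV2⟩
  have hV := (vI_eq hPr1 hPr2).mpr hE
  rw [vI_diag _ hd1, vI_diag _ hd2, Fin.sum_univ_two, Fin.sum_univ_two] at hV
  have hV' : v1 p hp + v1 (D.Th ι u n R₂) hρ₂ = v1 (Ψ P') (hf3.map Ψ) + v1 (D.Th ι u n R₁) hρ₁ := hV
  rw [cρ₁, cρ₂] at hV'
  have hK := congrArg (K0.ofV A) hV'
  rw [map_add, map_add, map_nsmul, map_nsmul, map_add] at hK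
  have k1 : K0.ofV A (v1 p hp) = K0.cls (Prj.of p hp) := rfl
  have k2 : K0.ofV A (v1 (Ψ P') (hf3.map Ψ)) = K0.cls (Prj.of (Ψ P') (hf3.map Ψ)) := rfl
  have k3 : ∀ s, K0.ofV A (vS ι (D.VT n s) (D.isClopen_VT n s)) = K0.cls (g s) := by
    intro s
    rw [← hg.cls D s]; rfl
  rw [k1, k2, k3, k3, hcls] at hK
  refine ⟨n, fun s => (r s : ℤ) + r₁ - r₂, g, hg, ?_⟩
  have hK' := eq_sub_of_add_eq hK
  rw [hK']
  simp only [sub_smul, add_smul, natCast_zsmul, smul_add]
  abel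

end Run7.h745
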