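import Pool.Agent.Run7.h745.OBb

/-!
# Piece OB, part 3: the obstruction
-/

set_option autoImplicit false
set_option linter.unusedSectionVars false

noncomputable section

namespace Run7.h745

open Filter Topology Matrix
open scoped InnerProductSpace

theorem ob : S_OB := by
  classical
  intro X _ _ _ T D A _ ι u π hA hπ s3b s3c cp3 n₀ m t l n₂ s σ v hs hv
  let R : Type := Nb m ⊕ Fin l
  let Bc : Matrix R R C(X, ℂ) := Matrix.fromBlocks (D.bF n₀ m) 0 0
    (Matrix.diagonal fun j => ind (D.VT n₂ (σ j)))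
  let B : Matrix R R A := fun r r' => ι (Bc r r')
  have hB : Matrix.fromBlocks ((D.bF n₀ m).map ι) 0 0
      (Matrix.diagonal fun j => ι (ind (D.VT n₂ (σ j)))) = B := by
    ext r r'
    rcases r with r | r <;> rcases r' with r' | r'
    · rfl
    · show (0 : A) = ι 0
      rw [map_zero]
    · show (0 : A) = ι 0
      rw [map_zero]
    · show Matrix.diagonal (fun j => ι (ind (D.VT n₂ (σ j)))) r r' =
        ι (Matrix.diagonal (fun j => ind (D.VT n₂ (σ j))) r r')
      rw [Matrix.diagonal_apply, Matrix.diagonal_apply]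
      split_ifs
      · rfl
      · rw [map_zero]
  rw [hB] at hv
  -- approximation
  let Cst : ℝ := 1 + ∑ i, ∑ r, ‖(vᴴ * B) i r‖
  have hCst0 : 0 ≤ ∑ i, ∑ r, ‖(vᴴ * B) i r‖ :=
    Finset.sum_nonneg fun _ _ => Finset.sum_nonneg fun _ _ => norm_nonneg _
  have hCst : 0 < Cst := by show 0 < 1 + _; linarith
  have hδ : 0 < 1 / (((t : ℝ) + 1) * Cst) := by positivity
  choose L N₀ f hf hf0 hfa using fun (r : R) (j : Fin t) =>
    laur_approx D hA s3b cp3 (v r j) _ hδ
  let Lm : ℕ := Finset.univ.sup fun r : R => Finset.univ.sup fun j : Fin t => L r j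
  have hLm : ∀ r j, L r j ≤ Lm := fun r j =>
    (Finset.le_sup (f := fun j : Fin t => L r j) (Finset.mem_univ j)).trans
      (Finset.le_sup (f := fun r : R => Finset.univ.sup fun j : Fin t => L r j) (Finset.mem_univ r))
  let Nm : ℕ := Finset.univ.sup fun r : R => Finset.univ.sup fun j : Fin t => N₀ r j
  have hNm : ∀ r j, N₀ r j ≤ Nm := fun r j =>
    (Finset.le_sup (f := fun j : Fin t => N₀ r j) (Finset.mem_univ j)).trans
      (Finset.le_sup (f := fun r : R => Finset.univ.sup fun j : Fin t => N₀ r j) (Finset.mem_univ r))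
  have hf0' : ∀ r j (k : ℤ), (Lm : ℤ) < |k| → f r j k = 0 := fun r j k hk =>
    hf0 r j k (lt_of_le_of_lt (by exact_mod_cast hLm r j) hk)
  let w : Matrix R (Fin t) A := fun r j => laur u ι Lm (f r j)
  have hw : ∀ r j, ‖(v - w) r j‖ ≤ 1 / (((t : ℝ) + 1) * Cst) := by
    intro r j
    show ‖v r j - laur u ι Lm (f r j)‖ ≤ _
    rw [laur_mono (hLm r j) _ (hf0 r j)]
    exact (hfa r j).le
  have hErr : ∀ i j, ‖(vᴴ * B * (v - w)) i j‖ ≤ 1 / ((t : ℝ) + 1) := by
    intro i j
    rw [Matrix.mul_apply]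
    calc ‖∑ r, (vᴴ * B) i r * (v - w) r j‖ ≤ ∑ r, ‖(vᴴ * B) i r * (v - w) r j‖ := norm_sum_le _ _
      _ ≤ ∑ r, ‖(vᴴ * B) i r‖ * (1 / (((t : ℝ) + 1) * Cst)) := by
          refine Finset.sum_le_sum fun r _ => ?_
          exact (norm_mul_le _ _).trans (mul_le_mul_of_nonneg_left (hw r j) (norm_nonneg _))
      _ = (∑ r, ‖(vᴴ * B) i r‖) * (1 / (((t : ℝ) + 1) * Cst)) := by rw [Finset.sum_mul]
      _ ≤ Cst * (1 / (((t : ℝ) + 1) * Cst)) := by
          refine mul_le_mul_of_nonneg_right ?_ hδ.le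
          have h1 : (∑ r, ‖(vᴴ * B) i r‖) ≤ ∑ i, ∑ r, ‖(vᴴ * B) i r‖ :=
            Finset.single_le_sum (f := fun i => ∑ r, ‖(vᴴ * B) i r‖)
              (fun _ _ => Finset.sum_nonneg fun _ _ => norm_nonneg _) (Finset.mem_univ i)
          show _ ≤ 1 + _
          linarith
      _ = 1 / ((t : ℝ) + 1) := by field_simp
  refine ⟨2 * t * Lm, max Nm (max n₂ n₀), fun n hn x₀ hx₀ => ?_⟩
  have hnN : Nm ≤ n := (le_max_left _ _).trans hn
  have hn2 : n₂ ≤ n := ((le_max_left _ _).trans (le_max_right _ _)).trans hn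
  have hn0 : n₀ ≤ n := ((le_max_right _ _).trans (le_max_right _ _)).trans hn
  by_contra hcon
  push Not at hcon
  -- the sets of killed coordinates
  let late : Finset ℕ := (Finset.range (D.h n)).filter fun i : ℕ => i % D.h n₀ ∈ D.free n₀ ∧ i ∉ D.free n
  let P : R → Finset ℕ := Sum.elim (fun _ => late) fun j =>
    (Finset.range (D.h n)).filter fun i : ℕ => (T ^ (i : ℤ) : X ≃ₜ X) x₀ ∈ D.VT n₂ (σ j)
  let E : Finset (Σ _ : R, ℕ) := Finset.univ.sigma P
  have hEcard : E.card = ∑ j, ((Finset.range (D.h n)).filter fun i : ℕ =>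
      (T ^ (i : ℤ) : X ≃ₜ X) x₀ ∈ D.VT n₂ (σ j)).card + Fintype.card (Nb m) * late.card := by
    rw [Finset.card_sigma, Fintype.sum_sum_type]
    simp only [P, Sum.elim_inl, Sum.elim_inr, Finset.sum_const, Finset.card_univ, smul_eq_mul]
    ring
  set N' : ℕ := D.h n - 2 * Lm with hN'
  have hcon' : 2 * t * Lm + E.card < t * D.h n := by
    rw [hEcard, ← add_assoc]; exact hcon
  have ht : 0 < t := by
    rcases Nat.eq_zero_or_pos t with h0 | h0
    · rw [h0] at hcon'; simp at hcon'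
    · exact h0
  have hhL : 2 * Lm < D.h n := by
    by_contra hc
    push Not at hc
    have : t * D.h n ≤ t * (2 * Lm) := Nat.mul_le_mul_left _ hc
    nlinarith
  have hEN : E.card < t * N' := by
    have : t * N' = t * D.h n - t * (2 * Lm) := by rw [hN', Nat.mul_sub]
    rw [this]
    have h2 : t * (2 * Lm) = 2 * t * Lm := by ring
    omega
  have hN'0 : 0 < N' := by omega
  -- the functions of the letters
  have hG0 : ∀ (r : R) (j : Fin t) (k : ℤ) (i : ℕ), ∃ g' : (D.free n → QS s) → ℂ, Continuous g' ∧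
      (i < D.h n → ∀ x ∈ D.VT n s, ∀ w : D.free n → QS s,
        (∀ i : D.free n, D.z ((T ^ ((i : ℕ) : ℤ) : X ≃ₜ X) x) = (w i).1) →
        f r j k ((T ^ (i : ℤ) : X ≃ₜ X) x) = g' w) := by
    intro r j k i
    by_cases hi : i < D.h n
    · obtain ⟨g', hg', h1⟩ := s3c X T D n s ℂ (fun x => f r j k ((T ^ (i : ℤ) : X ≃ₜ X) x))
        ((f r j k).continuous.comp (T ^ (i : ℤ) : X ≃ₜ X).continuous)
        (fun x hx y hy hxy => (hf r j k n ((hNm r j).trans hnN)).1 x hx y hy hxy i hi)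
      exact ⟨g', hg', fun _ x hx w hw => h1 x hx w hw⟩
    · exact ⟨fun _ => 0, continuous_const, fun h => absurd h hi⟩
  choose g hgc hg using hG0
  let G : (Σ _ : R, ℕ) → ℕ → (D.free n → QS s) → ℂ := fun e a w' =>
    if hj : a / N' < t then g e.1 ⟨a / N', hj⟩ ((e.2 : ℤ) - ((Lm : ℤ) + ((a % N' : ℕ) : ℤ))) e.2 w'
    else 0
  have hGc : ∀ e a, Continuous (G e a) := by
    intro e a
    simp only [G]
    by_cases hj : a / N' < t
    · simp only [hj, dif_pos]; exact hgc _ _ _ _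
    · simp only [hj, dif_neg, not_false_iff]; exact continuous_const
  obtain ⟨ζ, c, hζ, ⟨a₀, ha₀, hca₀⟩, hE0, hF0⟩ := OB.bu hs (D.free n) (t * N') E hEN G hGc
    (fun i b p => ⟨Sum.inl (Sum.inl (b, p)), i⟩)
  obtain ⟨x, hxV, hx⟩ := D.surj n s (fun i => OB.letter m (ζ i)) (fun i _ => OB.letter_mem hs _)
  have hxVT : x ∈ D.VT n s := ⟨hxV, fun i hi => (hx i hi).1⟩
  have hcontent : ∀ i : D.free n, D.z ((T ^ ((i : ℕ) : ℤ) : X ≃ₜ X) x) =
      (OB.cont hs (D.free n) ζ i).1 := fun i => (hx i.1 i.2).2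
  -- the coefficients of `w ξ`
  let Y : R → ℤ → ℂ := fun r i => ∑ j : Fin t, ∑ p ∈ Finset.range N',
    c (j * N' + p) * f r j (i - ((Lm : ℤ) + (p : ℤ))) ((T ^ i : X ≃ₜ X) x)
  let ξ : Fin t → HH := fun j => ∑ p ∈ Finset.range N', c (j * N' + p) • dl ((Lm : ℤ) + (p : ℤ))
  have hcoef : ∀ r i, ⟪dl i, OB.act (π x) w ξ r⟫_ℂ = Y r i := by
    intro r i
    simp only [OB.act, ξ, Y, inner_sum, map_sum, map_smul, inner_smul_right]
    refine Finset.sum_congr rfl fun j _ => Finset.sum_congr rfl fun p _ => ?_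
    rw [(hπ.rep x).laur_coef Lm (f r j) (hf0' r j)]
  have hYin : ∀ r (i : ℕ), i < D.h n → Y r i =
      ∑ a ∈ Finset.range (t * N'), c a * G ⟨r, i⟩ a (OB.cont hs (D.free n) ζ) := by
    intro r i hi
    rw [OB.sum_range_mul, Finset.sum_range]
    refine Finset.sum_congr rfl fun j _ => Finset.sum_congr rfl fun p hp => ?_
    rw [Finset.mem_range] at hp
    congr 1
    have h1 : ((j : ℕ) * N' + p) / N' = j := by
      rw [add_comm, Nat.add_mul_div_right _ _ hN'0, Nat.div_eq_of_lt hp, zero_add]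
    have h2 : ((j : ℕ) * N' + p) % N' = p := by
      rw [add_comm, Nat.add_mul_mod_self_right, Nat.mod_eq_of_lt hp]
    simp only [G, h1, h2, j.2, dif_pos]
    exact hg r j _ i hi x hxVT _ hcontent
  have hYout : ∀ r (i : ℤ), (i < 0 ∨ (D.h n : ℤ) ≤ i) → Y r i = 0 := by
    intro r i hi
    refine Finset.sum_eq_zero fun j _ => Finset.sum_eq_zero fun p hp => ?_
    rw [Finset.mem_range] at hp
    rw [hf0' r j _ (by rw [lt_abs]; omega)]
    simp
  have hBW : OB.act (π x) B (OB.act (π x) w ξ) = 0 := by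
    funext r
    ext i
    rw [← dl_inner]
    have h1 : ⟪dl i, OB.act (π x) B (OB.act (π x) w ξ) r⟫_ℂ =
        ∑ r', Bc r r' ((T ^ i : X ≃ₜ X) x) * Y r' i := by
      rw [OB.act, inner_sum]
      refine Finset.sum_congr rfl fun r' _ => ?_
      rw [(hπ.rep x).coef, hcoef]
    rw [h1]
    show _ = (0 : ℂ)
    by_cases hi : i < 0 ∨ (D.h n : ℤ) ≤ i
    · exact Finset.sum_eq_zero fun r' _ => by rw [hYout r' i hi, mul_zero]
    · push Not at hi
      obtain ⟨i', rfl⟩ := Int.eq_ofNat_of_zero_le hi.1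
      have hi' : i' < D.h n := by exact_mod_cast hi.2
      have hkill : ∀ r', i' ∈ P r' → Y r' (i' : ℤ) = 0 := by
        intro r' hr'
        rw [hYin r' i' hi']
        exact hE0 ⟨r', i'⟩ (Finset.mem_sigma.mpr ⟨Finset.mem_univ _, hr'⟩)
      rw [Fintype.sum_sum_type]
      rcases r with r | j
      · -- the part bF
        have h2 : ∀ j : Fin l, Bc (Sum.inl r) (Sum.inr j) ((T ^ (i' : ℤ) : X ≃ₜ X) x) = 0 :=
          fun j => rfl
        simp only [h2, zero_mul, Finset.sum_const_zero, add_zero]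
        show ∑ r', D.bF n₀ m r r' ((T ^ (i' : ℤ) : X ≃ₜ X) x) * Y (Sum.inl r') (i' : ℤ) = 0
        by_cases hfree : i' ∈ D.free n
        · refine OB.bF_kill D n₀ m _ (ζ i') (hζ i') ?_ (fun r' => Y (Sum.inl r') (i' : ℤ)) ?_ r
          · exact (hx i' hfree).2
          · intro p
            have h3 := hF0 i' hfree p
            simp only [hYin _ i' hi']
            exact h3
        · by_cases hmod : i' % D.h n₀ ∈ D.free n₀
          · refine Finset.sum_eq_zero fun r' _ => ?_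
            rw [hkill (Sum.inl r') (by
              show i' ∈ late
              exact Finset.mem_filter.mpr ⟨Finset.mem_range.mpr hi', hmod, hfree⟩), mul_zero]
          · refine Finset.sum_eq_zero fun r' _ => ?_
            rw [OB.bF_off D n₀ m _ (fun hc => hmod
              ((D.mem_FS_iff x (D.V_anti hn0 hxV) i').mp hc)), zero_mul]
      · have h2 : ∀ r' : Nb m, Bc (Sum.inr j) (Sum.inl r') ((T ^ (i' : ℤ) : X ≃ₜ X) x) = 0 :=
          fun r' => rfl
        simp only [h2, zero_mul, Finset.sum_const_zero, zero_add]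
        rw [Finset.sum_eq_single j]
        · show Matrix.diagonal (fun j => ind (D.VT n₂ (σ j))) j j ((T ^ (i' : ℤ) : X ≃ₜ X) x) * _ = 0
          rw [Matrix.diagonal_apply_eq]
          by_cases hmem : (T ^ (i' : ℤ) : X ≃ₜ X) x ∈ D.VT n₂ (σ j)
          · rw [hkill (Sum.inr j) (by
              show i' ∈ (Finset.range (D.h n)).filter fun i : ℕ =>
                (T ^ (i : ℤ) : X ≃ₜ X) x₀ ∈ D.VT n₂ (σ j)
              exact Finset.mem_filter.mpr ⟨Finset.mem_range.mpr hi',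
                (D.mem_VT_congr hn2 s (σ j) x x₀ hxVT hx₀ i' hi').mp hmem⟩), mul_zero]
          · rw [ind_notMem (D.isClopen_VT _ _) hmem, zero_mul]
        · intro j' _ hj'
          show Matrix.diagonal (fun j => ind (D.VT n₂ (σ j))) j j' ((T ^ (i' : ℤ) : X ≃ₜ X) x) * _ = 0
          rw [Matrix.diagonal_apply_ne _ (Ne.symm hj')]
          simp
        · intro h; exact absurd (Finset.mem_univ j) h
  have hξ : OB.act (π x) (vᴴ * B * (v - w)) ξ = ξ := by
    have h1 : vᴴ * B * (v - w) = vᴴ * B * v - vᴴ * B * w := by rw [Matrix.mul_sub]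
    rw [h1, hv, OB.act_sub, OB.act_one, OB.act_mul, OB.act_mul, hBW, OB.act_zero, sub_zero]
  have hξ0 := OB.eq_zero_of_act (π x) _ hErr ξ hξ
  -- contradiction
  have hj₀ : a₀ / N' < t := (Nat.div_lt_iff_lt_mul hN'0).mpr ha₀
  have hp₀ : a₀ % N' < N' := Nat.mod_lt _ hN'0
  have h1 : ⟪dl ((Lm : ℤ) + ((a₀ % N' : ℕ) : ℤ)), ξ ⟨a₀ / N', hj₀⟩⟫_ℂ = c a₀ := by
    simp only [ξ, inner_sum, inner_smul_right, dl_dl]
    rw [Finset.sum_eq_single (a₀ % N')]
    · simp only [if_true, mul_one]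
      congr 1
      exact Nat.div_add_mod' a₀ N'
    · intro p _ hp
      rw [if_neg (by intro h; apply hp; omega), mul_zero]
    · intro h; exact absurd (Finset.mem_range.mpr hp₀) h
  rw [hξ0] at h1
  simp only [Pi.zero_apply, inner_zero_right] at h1
  exact hca₀ h1.symm

end Run7.h745
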