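import Pool.Agent.Run7.h745.Basic
import Pool.Agent.H494R3.Homot

/-!
# Pieces PRT1, PRT2, PRT3: perturbation lemmas for projections
-/

set_option autoImplicit false
set_option linter.unusedSectionVars false

noncomputable section

namespace Run7.h745

open Filter Topology Matrix Pool.Agent.TH249
open scoped ComplexOrder

section
variable {A : Type} [CStarAlgebra A]

/-- Close to a partial isometry. -/
lemma pi_of_close {p q y : A} (hp : IsStarProjection p) (hq : IsStarProjection q)
    (hqy : q * y = y) (hyp : y * p = y) (h1 : ‖star y * y - p‖ < 1) (h2 : ‖y * star y - q‖ < 1) :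
    ∃ v : A, star v * v = p ∧ v * star v = q := by
  let _ : PartialOrder A := CStarAlgebra.spectralOrder A
  have _ : StarOrderedRing A := CStarAlgebra.spectralOrderedRing A
  have hpp := hp.isIdempotentElem.eq
  have hps := hp.isSelfAdjoint.star_eq
  have hqq := hq.isIdempotentElem.eq
  have hqs := hq.isSelfAdjoint.star_eq
  have hpy : p * star y = star y := by
    have := congrArg star hyp
    rwa [star_mul, hps] at this
  have hyq : star y * q = star y := by
    have := congrArg star hqy
    rwa [star_mul, hqs] at this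
  set z : A := star y * y + (1 - p) with hz
  have hzu : IsUnit z := by
    have : z = 1 - (p - star y * y) := by rw [hz]; abel
    rw [this]
    exact isUnit_one_sub_of_norm_lt_one (by rwa [norm_sub_rev])
  have hwu : IsUnit (y * star y + (1 - q)) := by
    have : y * star y + (1 - q) = 1 - (q - y * star y) := by abel
    rw [this]
    exact isUnit_one_sub_of_norm_lt_one (by rwa [norm_sub_rev])
  have h1p : (1 - p) = star (1 - p) * (1 - p) := by
    rw [star_sub, star_one, hps, mul_sub, mul_one, sub_mul, one_mul, hpp, sub_self, sub_zero]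
  have hz0 : 0 ≤ z := by
    rw [hz]
    refine add_nonneg (star_mul_self_nonneg y) ?_
    rw [h1p]; exact star_mul_self_nonneg _
  have hzpos : IsStrictlyPositive z := ⟨hz0, hzu⟩
  set s : A := z ^ (-(1/2 : ℝ)) with hs
  have hs0 : 0 ≤ s := CFC.rpow_nonneg
  have hsa : star s = s := (IsSelfAdjoint.of_nonneg hs0).star_eq
  have hsz : Commute s z := by
    rw [hs, CFC.rpow_def]
    exact Commute.cfc_nnreal (by exact Commute.refl z) _
  have hss : s * s = z ^ (-1 : ℝ) := by
    rw [hs, ← CFC.rpow_add hzu]
    norm_num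
  have hssz : s * s * z = 1 := by
    rw [hss]
    have := CFC.rpow_neg_mul_rpow (a := z) 1 hzpos
    rwa [CFC.rpow_one z hz0] at this
  have hp0 : (1 - p) * (1 - p) = 1 - p := by
    rw [mul_sub, mul_one, sub_mul, one_mul, hpp, sub_self, sub_zero]
  have hzp : z * (1 - p) = 1 - p := by
    rw [hz, add_mul, hp0, mul_sub, mul_one, mul_assoc, hyp, sub_self, zero_add]
  have hssp : s * s * (1 - p) = 1 - p := by
    calc s * s * (1 - p) = s * s * (z * (1 - p)) := by rw [hzp]
      _ = (s * s * z) * (1 - p) := by noncomm_ring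
      _ = 1 - p := by rw [hssz, one_mul]
  have hyy : star y * y = z - (1 - p) := by rw [hz]; abel
  have hszs : s * z * s = 1 := by
    calc s * z * s = s * (z * s) := by rw [mul_assoc]
      _ = s * (s * z) := by rw [hsz.eq]
      _ = 1 := by rw [← mul_assoc, hssz]
  have hsps : s * (1 - p) * s = 1 - p := by
    -- s commutes with 1 - p
    have hzc : Commute z (1 - p) := by
      show z * (1 - p) = (1 - p) * z
      have : (1 - p) * z = 1 - p := by
        rw [hz, mul_add, hp0, ← mul_assoc, sub_mul, one_mul, hpy, sub_self, zero_mul, zero_add]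
      rw [hzp, this]
    have hsc : Commute s (1 - p) := by
      rw [hs, CFC.rpow_def]
      exact Commute.cfc_nnreal (by exact hzc) _
    calc s * (1 - p) * s = s * ((1 - p) * s) := by rw [mul_assoc]
      _ = s * (s * (1 - p)) := by rw [hsc.eq]
      _ = 1 - p := by rw [← mul_assoc, hssp]
  refine ⟨y * s, ?_, ?_⟩
  · rw [star_mul, hsa]
    calc s * star y * (y * s) = s * (star y * y) * s := by noncomm_ring
      _ = s * z * s - s * (1 - p) * s := by rw [hyy]; noncomm_ring
      _ = p := by rw [hszs, hsps, sub_sub_cancel]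
  · rw [star_mul, hsa]
    have e1 : y * s * (s * star y) = y * (s * s) * star y := by noncomm_ring
    rw [e1]
    set e := y * (s * s) * star y with he
    have hey : e * y = y := by
      calc e * y = y * (s * s) * (star y * y) := by rw [he]; noncomm_ring
        _ = y * (s * s * z) - y * (s * s * (1 - p)) := by rw [hyy]; noncomm_ring
        _ = y := by rw [hssz, hssp, mul_one, mul_sub, mul_one, hyp, sub_self, sub_zero]
    have heq : e * q = e := by rw [he, mul_assoc, hyq]
    have h3 : e * (y * star y + (1 - q)) = q * (y * star y + (1 - q)) := by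
      rw [mul_add, mul_add, ← mul_assoc, ← mul_assoc, hey, hqy, mul_sub, mul_sub, mul_one, mul_one,
        heq, hqq, sub_self, sub_self]
    exact hwu.mul_right_cancel h3

lemma norm_proj_le {p : A} (hp : IsStarProjection p) : ‖p‖ ≤ 1 := IsStarProjection.norm_le p hp

lemma norm_sandwich_le {p : A} (hp : IsStarProjection p) (a : A) : ‖p * a * p‖ ≤ ‖a‖ := by
  have h := norm_proj_le hp
  calc ‖p * a * p‖ ≤ ‖p * a‖ * ‖p‖ := norm_mul_le _ _
    _ ≤ (‖p‖ * ‖a‖) * ‖p‖ := mul_le_mul_of_nonneg_right (norm_mul_le _ _) (norm_nonneg _)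
    _ ≤ (1 * ‖a‖) * 1 := mul_le_mul (mul_le_mul_of_nonneg_right h (norm_nonneg _)) h
        (norm_nonneg _) (by positivity)
    _ = ‖a‖ := by ring

/-- norm bound used twice in PRT1 -/
lemma prt1_aux {p q x : A} (hp : IsStarProjection p)
    (h1 : ‖star x * x - p‖ < 1 / 10) (h2 : ‖x * star x - q‖ < 1 / 10) :
    ‖star x * q * x - p‖ < 1 := by
  have hpp := hp.isIdempotentElem.eq
  have hn : ‖star x * x‖ ≤ 11 / 10 := by
    calc ‖star x * x‖ = ‖p + (star x * x - p)‖ := by congr 1; abel
      _ ≤ ‖p‖ + ‖star x * x - p‖ := norm_add_le _ _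
      _ ≤ 1 + 1 / 10 := add_le_add (norm_proj_le hp) h1.le
      _ = 11 / 10 := by norm_num
  have hx : ‖x‖ * ‖x‖ ≤ 11 / 10 := by rw [← CStarRing.norm_star_mul_self]; exact hn
  have e : star x * q * x - p = -(star x * (x * star x - q) * x) +
      ((star x * x) * (star x * x - p) + (star x * x - p) * p) := by
    have : (star x * x) * (star x * x - p) + (star x * x - p) * p =
        star x * x * (star x * x) - p * p := by noncomm_ring
    rw [this, hpp]
    noncomm_ring
  rw [e]
  have a1 : ‖star x * (x * star x - q) * x‖ ≤ 11 / 10 * (1 / 10) := by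
    calc ‖star x * (x * star x - q) * x‖ ≤ ‖star x * (x * star x - q)‖ * ‖x‖ := norm_mul_le _ _
      _ ≤ (‖star x‖ * ‖x * star x - q‖) * ‖x‖ :=
          mul_le_mul_of_nonneg_right (norm_mul_le _ _) (norm_nonneg _)
      _ = (‖x‖ * ‖x‖) * ‖x * star x - q‖ := by rw [norm_star]; ring
      _ ≤ 11 / 10 * (1 / 10) := mul_le_mul hx h2.le (norm_nonneg _) (by norm_num)
  have a2 : ‖(star x * x) * (star x * x - p)‖ ≤ 11 / 10 * (1 / 10) :=
    (norm_mul_le _ _).trans (mul_le_mul hn h1.le (norm_nonneg _) (by norm_num))
  have a3 : ‖(star x * x - p) * p‖ ≤ 1 / 10 * 1 :=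
    (norm_mul_le _ _).trans (mul_le_mul h1.le (norm_proj_le hp) (norm_nonneg _) (by norm_num))
  calc _ ≤ ‖-(star x * (x * star x - q) * x)‖ +
        ‖(star x * x) * (star x * x - p) + (star x * x - p) * p‖ := norm_add_le _ _
    _ ≤ ‖star x * (x * star x - q) * x‖ + (‖(star x * x) * (star x * x - p)‖ +
        ‖(star x * x - p) * p‖) := by
        rw [norm_neg]; gcongr; exact norm_add_le _ _
    _ < 1 := by linarith

end

theorem prt1 : S_PRT1 := by
  refine ⟨1 / 10, by norm_num, fun B _ p q x hp hq h1 h2 => ?_⟩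
  have hpp := hp.isIdempotentElem.eq
  have hps := hp.isSelfAdjoint.star_eq
  have hqq := hq.isIdempotentElem.eq
  have hqs := hq.isSelfAdjoint.star_eq
  refine pi_of_close (y := q * x * p) hp hq ?_ ?_ ?_ ?_
  · rw [← mul_assoc, ← mul_assoc, hqq]
  · rw [mul_assoc, hpp]
  · have e : star (q * x * p) * (q * x * p) - p = p * (star x * q * x - p) * p := by
      rw [star_mul, star_mul, hps, hqs]
      calc p * (star x * q) * (q * x * p) - p = p * (star x * (q * q) * x) * p - p * p * p := by
            rw [hpp, hpp]; noncomm_ring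
        _ = _ := by rw [hqq]; noncomm_ring
    rw [e]
    exact (norm_sandwich_le hp _).trans_lt (prt1_aux hp h1 h2)
  · have e : (q * x * p) * star (q * x * p) - q = q * (x * p * star x - q) * q := by
      rw [star_mul, star_mul, hps, hqs]
      calc q * x * p * (p * (star x * q)) - q = q * (x * (p * p) * star x) * q - q * q * q := by
            rw [hqq, hqq]; noncomm_ring
        _ = _ := by rw [hpp]; noncomm_ring
    rw [e]
    have h3 := prt1_aux (x := star x) (p := q) (q := p) hq (by rwa [star_star])
      (by rwa [star_star])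
    rw [star_star] at h3
    exact (norm_sandwich_le hq _).trans_lt h3

theorem prt2 : S_PRT2 := by
  intro ε hε
  refine ⟨min (1 / 8) (ε / 4), by positivity, fun C _ G hG hGG => ?_⟩
  have hη1 := min_le_left (1 / 8 : ℝ) (ε / 4)
  have hη2 := min_le_right (1 / 8 : ℝ) (ε / 4)
  have hsp : ∀ t ∈ spectrum ℝ G, |t * t - t| < min (1 / 8) (ε / 4) := by
    intro t ht
    have h1 : cfc (fun t : ℝ => t * t - t) G = G * G - G := by
      rw [cfc_sub (fun t : ℝ => t * t) (fun t : ℝ => t) G, cfc_mul (fun t : ℝ => t)
        (fun t : ℝ => t) G, cfc_id' ℝ G]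
    have h2 := norm_apply_le_norm_cfc (fun t : ℝ => t * t - t) G ht
    rw [h1, Real.norm_eq_abs] at h2
    exact h2.trans_lt hGG
  have hsp2 : ∀ t ∈ spectrum ℝ G, t ≠ 1 / 2 := by
    rintro t ht rfl
    have := hsp _ ht
    norm_num at this
  let f : ℝ → ℝ := fun t => if 1 / 2 < t then 1 else 0
  have hf : ContinuousOn f (spectrum ℝ G) := by
    intro t ht
    refine ContinuousAt.continuousWithinAt ?_
    rcases lt_or_gt_of_ne (hsp2 t ht) with h | h
    · refine (continuousAt_const (y := (0 : ℝ))).congr ?_
      filter_upwards [Iio_mem_nhds h] with a ha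
      exact (if_neg (not_lt.mpr (le_of_lt ha))).symm
    · refine (continuousAt_const (y := (1 : ℝ))).congr ?_
      filter_upwards [Ioi_mem_nhds h] with a ha
      exact (if_pos ha).symm
  refine ⟨f, hf, by simp [f], ⟨?_, cfc_predicate f G⟩, ?_⟩
  · show cfc f G * cfc f G = cfc f G
    rw [← cfc_mul f f G hf hf]
    refine cfc_congr fun t _ => ?_
    simp only [f]
    split_ifs <;> norm_num
  · have h1 : G - cfc f G = cfc (fun t => t - f t) G := by
      rw [cfc_sub (fun t : ℝ => t) f G (by fun_prop) hf, cfc_id' ℝ G]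
    rw [h1]
    refine lt_of_le_of_lt (norm_cfc_le (c := ε / 2) (by positivity) fun t ht => ?_) (by linarith)
    rw [Real.norm_eq_abs]
    have h2 := hsp t ht
    have h3 : |t| * |t - 1| < min (1 / 8) (ε / 4) := by
      rw [← abs_mul]
      have : t * (t - 1) = t * t - t := by ring
      rwa [this]
    simp only [f]
    split_ifs with h
    · have h4 : 1 / 2 < |t| := lt_of_lt_of_le h (le_abs_self t)
      have h5 := abs_nonneg (t - 1)
      nlinarith
    · rw [sub_zero]
      have h4 : 1 / 2 ≤ |t - 1| := by
        rw [abs_sub_comm]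
        refine le_trans ?_ (le_abs_self _)
        linarith
      have h5 := abs_nonneg t
      nlinarith

/-- projections in `M_N(ℂ)` are equivalent to diagonal ones -/
lemma proj_diag (N : ℕ) (M : Matrix (Fin N) (Fin N) ℂ) (hM : IsPrj M) :
    ∃ r ≤ N, Eqv M (diagProj N r) := by
  classical
  have hH : M.IsHermitian := hM.1
  set lam := hH.eigenvalues with hlam
  set U : Matrix (Fin N) (Fin N) ℂ := (hH.eigenvectorUnitary : Matrix (Fin N) (Fin N) ℂ) with hU
  have hUU : Uᴴ * U = 1 := by
    have := Unitary.coe_star_mul_self hH.eigenvectorUnitary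
    exact this
  have hUU' : U * Uᴴ = 1 := by
    have := Unitary.coe_mul_star_self hH.eigenvectorUnitary
    exact this
  have hsp : M = U * diagonal (fun i => (lam i : ℂ)) * Uᴴ := hH.spectral_theorem
  have hD : Uᴴ * M * U = diagonal (fun i => (lam i : ℂ)) := by
    rw [hsp]
    calc Uᴴ * (U * diagonal (fun i => (lam i : ℂ)) * Uᴴ) * U
        = (Uᴴ * U) * diagonal (fun i => (lam i : ℂ)) * (Uᴴ * U) := by
          simp only [Matrix.mul_assoc]
      _ = _ := by rw [hUU, Matrix.one_mul, Matrix.mul_one]
  have hDP : IsPrj (diagonal (fun i => (lam i : ℂ))) := by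
    refine ⟨?_, ?_⟩
    · rw [← hD, conjTranspose_mul, conjTranspose_mul, conjTranspose_conjTranspose, hM.1,
        Matrix.mul_assoc]
    · rw [← hD]
      calc Uᴴ * M * U * (Uᴴ * M * U) = Uᴴ * M * (U * Uᴴ) * M * U := by
            simp only [Matrix.mul_assoc]
        _ = Uᴴ * (M * M) * U := by rw [hUU', Matrix.mul_one]; simp only [Matrix.mul_assoc]
        _ = _ := by rw [hM.2]
  have h01 : ∀ i, lam i = 0 ∨ lam i = 1 := by
    intro i
    have h := congrFun (congrFun hDP.2 i) i
    rw [diagonal_mul_diagonal, diagonal_apply_eq, diagonal_apply_eq] at h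
    have h' : lam i * lam i = lam i := by exact_mod_cast h
    have h2 : lam i * (lam i - 1) = 0 := by linarith
    rcases mul_eq_zero.mp h2 with h3 | h3
    · exact Or.inl h3
    · exact Or.inr (by linarith)
  have e1 : Eqv M (diagonal (fun i => (lam i : ℂ))) := by
    refine ⟨diagonal (fun i => (lam i : ℂ)) * Uᴴ, ?_, ?_⟩
    · rw [conjTranspose_mul, conjTranspose_conjTranspose, hDP.1]
      calc U * diagonal (fun i => (lam i : ℂ)) * (diagonal (fun i => (lam i : ℂ)) * Uᴴ)
          = U * (diagonal (fun i => (lam i : ℂ)) * diagonal (fun i => (lam i : ℂ))) * Uᴴ := by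
            simp only [Matrix.mul_assoc]
        _ = _ := by rw [hDP.2, ← hsp]
    · rw [conjTranspose_mul, conjTranspose_conjTranspose, hDP.1]
      calc diagonal (fun i => (lam i : ℂ)) * Uᴴ * (U * diagonal (fun i => (lam i : ℂ)))
          = diagonal (fun i => (lam i : ℂ)) * (Uᴴ * U) * diagonal (fun i => (lam i : ℂ)) := by
            simp only [Matrix.mul_assoc]
        _ = _ := by rw [hUU, Matrix.mul_one, hDP.2]
  let r := Fintype.card {i : Fin N // lam i = 1}
  have hr : r ≤ N := by
    have := Fintype.card_subtype_le (fun i : Fin N => lam i = 1)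
    rwa [Fintype.card_fin] at this
  have hcard : Fintype.card {i : Fin N // lam i = 1} = Fintype.card {i : Fin N // (i : ℕ) < r} := by
    have h1 : Fintype.card {i : Fin N // (i : ℕ) < r} = r := by
      rw [Fintype.card_subtype]
      have h2 : (Finset.univ.filter fun i : Fin N => (i : ℕ) < r) =
          (Finset.range r).attachFin (fun i hi => (Finset.mem_range.mp hi).trans_le hr) := by
        ext i; simp
      rw [h2, Finset.card_attachFin, Finset.card_range]
    rw [h1]
  let e : {i : Fin N // lam i = 1} ≃ {i : Fin N // (i : ℕ) < r} := Fintype.equivOfCardEq hcard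
  let σ : Equiv.Perm (Fin N) := e.extendSubtype
  refine ⟨r, hr, ?_⟩
  have h2 : diagProj N r = (diagonal (fun i => (lam i : ℂ))).submatrix σ.symm σ.symm := by
    rw [submatrix_diagonal_equiv]
    unfold diagProj
    congr 1
    funext i
    show _ = (lam (σ.symm i) : ℂ)
    have h3 : i = σ (σ.symm i) := (σ.apply_symm_apply i).symm
    split_ifs with h
    · by_contra hne
      have h4 : ¬ lam (σ.symm i) = 1 := fun h' => hne (by rw [h']; simp)
      have h5 := e.extendSubtype_not_mem (σ.symm i) h4
      apply h5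
      show ((σ (σ.symm i) : Fin N) : ℕ) < r
      rw [← h3]; exact h
    · rcases h01 (σ.symm i) with h4 | h4
      · rw [h4]; simp
      · exfalso
        have h5 := e.extendSubtype_mem (σ.symm i) h4
        apply h
        have h6 : ((σ (σ.symm i) : Fin N) : ℕ) < r := h5
        rwa [← h3] at h6
  have e2 := Eqv.submatrix hDP σ.symm
  rw [← h2] at e2
  exact e1.trans hM (h2 ▸ hDP.submatrix σ.symm) e2

theorem prt3 : S_PRT3 := by
  intro W _ _ _ _ N G hG
  obtain ⟨w₀, ⟨H⟩⟩ := contractible_iff_id_nullhomotopic W |>.mp inferInstance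
  -- the path of projections
  let F : C(unitInterval, C(W, Mat N ℂ)) := (G.comp H.toContinuousMap).curry
  have hF : ∀ t w, F t w = G (H (t, w)) := fun _ _ => rfl
  obtain ⟨u, hu1, hu2, hu3⟩ := Pool.Agent.H494R3.path_proj (A := C(W, Mat N ℂ)) (fun t => F t)
    F.continuous (by
      intro t
      ext1 w
      rw [ContinuousMap.mul_apply, hF]
      exact (hG _).isIdempotentElem.eq) (by
      intro t
      ext1 w
      rw [ContinuousMap.star_apply, hF]
      exact (hG _).isSelfAdjoint.star_eq)
  have hF0 : F 0 = G := by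
    ext1 w
    rw [hF]
    congr 1
    exact H.apply_zero w
  have hF1 : ∀ w, F 1 w = G w₀ := by
    intro w
    rw [hF]
    congr 1
    exact H.apply_one w
  have hG0 : IsPrj (Mat.of.symm (G w₀)) := by
    have h := hG w₀
    refine ⟨?_, ?_⟩
    · have := congrArg Mat.of.symm h.isSelfAdjoint.star_eq
      rw [map_star] at this
      exact this
    · have := congrArg Mat.of.symm h.isIdempotentElem.eq
      rwa [map_mul] at this
  obtain ⟨r, hr, v, hv1, hv2⟩ := proj_diag N _ hG0
  have hv1' : star (Mat.of v) * Mat.of v = G w₀ := by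
    rw [← map_star, ← map_mul]
    have := congrArg Mat.of hv1
    exact this
  have hv2' : Mat.of v * star (Mat.of v) = Mat.of (diagProj N r) := by
    rw [← map_star, ← map_mul]
    have := congrArg Mat.of hv2
    exact this
  have hu1' : ∀ w, star (u w) * u w = 1 := fun w => by
    rw [← ContinuousMap.star_apply, ← ContinuousMap.mul_apply, hu1]; rfl
  have hu2' : ∀ w, u w * star (u w) = 1 := fun w => by
    rw [← ContinuousMap.star_apply, ← ContinuousMap.mul_apply, hu2]; rfl
  have hu3' : ∀ w, u w * G w * star (u w) = G w₀ := fun w => by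
    have h := congrArg (fun f : C(W, Mat N ℂ) => f w) hu3
    simp only [hF0] at h
    rw [← hF1 w, ← h]; rfl
  refine ⟨r, ContinuousMap.const W (Mat.of v) * u, hr, fun w => ?_, fun w => ?_⟩
  · rw [ContinuousMap.mul_apply, ContinuousMap.const_apply, star_mul]
    calc star (u w) * star (Mat.of v) * (Mat.of v * u w)
        = star (u w) * (star (Mat.of v) * Mat.of v) * u w := by noncomm_ring
      _ = (star (u w) * u w) * G w * (star (u w) * u w) := by
          rw [hv1', ← hu3' w]; noncomm_ring
      _ = G w := by rw [hu1', one_mul, mul_one]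
  · rw [ContinuousMap.mul_apply, ContinuousMap.const_apply, star_mul]
    calc Mat.of v * u w * (star (u w) * star (Mat.of v))
        = Mat.of v * (u w * star (u w)) * star (Mat.of v) := by noncomm_ring
      _ = _ := by rw [hu2', mul_one, hv2']

end Run7.h745
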