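import Pool.Agent.Run7.h745.KTa

/-!
# Piece PSI: matrix-valued functions on the towers
-/

set_option autoImplicit false
set_option linter.unusedSectionVars false

noncomputable section

namespace Run7.h745

open Filter Topology Matrix
open scoped InnerProductSpace

section ent
variable {X : Type} [TopologicalSpace X] {N : ℕ}

lemma ent_apply (G : C(X, Mat N ℂ)) (i j : Fin N) (x : X) :
    ent G i j x = (Mat.of.symm (G x)) i j := rfl

lemma ent_add (G G' : C(X, Mat N ℂ)) (i j : Fin N) : ent (G + G') i j = ent G i j + ent G' i j := by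
  ext x
  rw [ent_apply, ContinuousMap.add_apply, map_add]; rfl

lemma ent_zero (i j : Fin N) : ent (0 : C(X, Mat N ℂ)) i j = 0 := by
  ext x
  rw [ent_apply, ContinuousMap.zero_apply, map_zero]; rfl

lemma ent_mul (G G' : C(X, Mat N ℂ)) (i j : Fin N) :
    ent (G * G') i j = ∑ k, ent G i k * ent G' k j := by
  ext x
  rw [ent_apply, ContinuousMap.mul_apply, map_mul, Matrix.mul_apply, ContinuousMap.sum_apply]
  rfl

lemma ent_star (G : C(X, Mat N ℂ)) (i j : Fin N) : ent (star G) i j = star (ent G j i) := by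
  ext x
  rw [ent_apply, ContinuousMap.star_apply, map_star]; rfl

lemma ent_algebraMap (c : ℂ) (i j : Fin N) :
    ent (algebraMap ℂ C(X, Mat N ℂ) c) i j = if i = j then algebraMap ℂ C(X, ℂ) c else 0 := by
  ext x
  rw [ent_apply]
  have h1 : (algebraMap ℂ C(X, Mat N ℂ) c) x = algebraMap ℂ (Mat N ℂ) c := rfl
  rw [h1, AlgHomClass.commutes, Matrix.algebraMap_matrix_apply]
  split_ifs <;> rfl

lemma ent_one (i j : Fin N) :
    ent (1 : C(X, Mat N ℂ)) i j = if i = j then 1 else 0 := by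
  have h := ent_algebraMap (X := X) (N := N) 1 i j
  rw [map_one, map_one] at h
  exact h

end ent

section
variable {X : Type} [TopologicalSpace X] [CompactSpace X] [T2Space X] {T : X ≃ₜ X}
  (D : TowerData X T) {A : Type} [CStarAlgebra A] {ι : C(X, ℂ) →⋆ₐ[ℂ] A} {u : unitary A}

lemma TowerData.eu_zero' (n : ℕ) (i j : ℤ) : D.eu ι u n 0 i j = 0 := by
  simp [TowerData.eu]

/-- the homomorphism `Ψ` -/
def TowerData.psiHom (hc : Covariant T ι u) (n : ℕ) : C(X, Mat (D.h n) ℂ) →⋆ₐ[ℂ] A where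
  toFun G := ∑ i : Fin (D.h n), ∑ j : Fin (D.h n),
    D.eu ι u n (ent G i j) ((i : ℕ) : ℤ) ((j : ℕ) : ℤ)
  map_one' := by
    have h1 : ∀ i : Fin (D.h n), ∑ j : Fin (D.h n), D.eu ι u n (ent (1 : C(X, Mat (D.h n) ℂ)) i j)
        ((i : ℕ) : ℤ) ((j : ℕ) : ℤ) = D.eu ι u n 1 ((i : ℕ) : ℤ) ((i : ℕ) : ℤ) := by
      intro i
      rw [Finset.sum_eq_single i]
      · rw [ent_one, if_pos rfl]
      · intro j _ hj
        rw [ent_one, if_neg (Ne.symm hj), D.eu_zero']
      · intro h; exact absurd (Finset.mem_univ i) h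
    rw [Finset.sum_congr rfl fun i _ => h1 i, ← D.sum_eu hc n]
    exact Fin.sum_univ_eq_sum_range (fun i => D.eu ι u n 1 (i : ℤ) (i : ℤ)) (D.h n)
  map_zero' := by
    refine Finset.sum_eq_zero fun i _ => Finset.sum_eq_zero fun j _ => ?_
    rw [ent_zero, D.eu_zero']
  map_add' G G' := by
    simp only [ent_add, D.eu_add, Finset.sum_add_distrib]
  commutes' c := by
    have h1 : ∀ i : Fin (D.h n), ∑ j : Fin (D.h n),
        D.eu ι u n (ent (algebraMap ℂ C(X, Mat (D.h n) ℂ) c) i j)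
        ((i : ℕ) : ℤ) ((j : ℕ) : ℤ) = c • D.eu ι u n 1 ((i : ℕ) : ℤ) ((i : ℕ) : ℤ) := by
      intro i
      rw [Finset.sum_eq_single i]
      · rw [ent_algebraMap, if_pos rfl, Algebra.algebraMap_eq_smul_one, D.eu_smul]
      · intro j _ hj
        rw [ent_algebraMap, if_neg (Ne.symm hj), D.eu_zero']
      · intro h; exact absurd (Finset.mem_univ i) h
    rw [Finset.sum_congr rfl fun i _ => h1 i, ← Finset.smul_sum, Algebra.algebraMap_eq_smul_one]
    congr 1
    rw [← D.sum_eu hc n]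
    exact Fin.sum_univ_eq_sum_range (fun i => D.eu ι u n 1 (i : ℤ) (i : ℤ)) (D.h n)
  map_mul' G G' := by
    have h3 : ∀ i j k l : Fin (D.h n), D.eu ι u n (ent G i j) ((i : ℕ) : ℤ) ((j : ℕ) : ℤ) *
        D.eu ι u n (ent G' k l) ((k : ℕ) : ℤ) ((l : ℕ) : ℤ) =
        if j = k then D.eu ι u n (ent G i j * ent G' j l) ((i : ℕ) : ℤ) ((l : ℕ) : ℤ) else 0 := by
      intro i j k l
      by_cases h : j = k
      · subst h
        rw [if_pos rfl, D.eu_mul_same]
      · rw [if_neg h]
        refine D.eu_mul_diff hc n _ _ _ _ _ _ ?_ ?_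
        · intro h'; apply h; apply Fin.ext; exact_mod_cast h'
        · have := j.2
          have := k.2
          rw [abs_lt]; omega
    calc ∑ i : Fin (D.h n), ∑ l : Fin (D.h n),
          D.eu ι u n (ent (G * G') i l) ((i : ℕ) : ℤ) ((l : ℕ) : ℤ)
        = ∑ i : Fin (D.h n), ∑ l : Fin (D.h n), ∑ j : Fin (D.h n),
          D.eu ι u n (ent G i j * ent G' j l) ((i : ℕ) : ℤ) ((l : ℕ) : ℤ) := by
          refine Finset.sum_congr rfl fun i _ => Finset.sum_congr rfl fun l _ => ?_
          rw [ent_mul, D.eu_sum]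
      _ = ∑ i : Fin (D.h n), ∑ j : Fin (D.h n), ∑ l : Fin (D.h n),
          D.eu ι u n (ent G i j * ent G' j l) ((i : ℕ) : ℤ) ((l : ℕ) : ℤ) :=
          Finset.sum_congr rfl fun i _ => Finset.sum_comm
      _ = ∑ i : Fin (D.h n), ∑ j : Fin (D.h n), ∑ k : Fin (D.h n), ∑ l : Fin (D.h n),
          D.eu ι u n (ent G i j) ((i : ℕ) : ℤ) ((j : ℕ) : ℤ) *
            D.eu ι u n (ent G' k l) ((k : ℕ) : ℤ) ((l : ℕ) : ℤ) := by
          refine Finset.sum_congr rfl fun i _ => Finset.sum_congr rfl fun j _ => ?_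
          symm
          rw [Finset.sum_eq_single j]
          · refine Finset.sum_congr rfl fun l _ => ?_
            rw [h3, if_pos rfl]
          · intro k _ hk
            refine Finset.sum_eq_zero fun l _ => ?_
            rw [h3, if_neg (Ne.symm hk)]
          · intro h; exact absurd (Finset.mem_univ j) h
      _ = _ := by
          rw [Finset.sum_mul]
          refine Finset.sum_congr rfl fun i _ => ?_
          rw [Finset.sum_mul]
          refine Finset.sum_congr rfl fun j _ => ?_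
          rw [Finset.mul_sum]
          refine Finset.sum_congr rfl fun k _ => ?_
          rw [Finset.mul_sum]
  map_star' G := by
    simp only [star_sum, D.star_eu, ent_star]
    rw [Finset.sum_comm]

lemma TowerData.psiHom_apply (hc : Covariant T ι u) (n : ℕ) (G : C(X, Mat (D.h n) ℂ)) :
    D.psiHom hc n G = ∑ i : Fin (D.h n), ∑ j : Fin (D.h n),
      D.eu ι u n (ent G i j) ((i : ℕ) : ℤ) ((j : ℕ) : ℤ) := rfl

/-- coefficients -/
lemma TowerData.psi_coef (hc : Covariant T ι u) (n : ℕ) {x : X} {P : A →⋆ₐ[ℂ] (HH →L[ℂ] HH)}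
    (hP : IsOrbitRep T ι u x P) (hx : x ∈ D.V n) (G : C(X, Mat (D.h n) ℂ)) (i j : Fin (D.h n)) :
    ⟪dl ((i : ℕ) : ℤ), P (D.psiHom hc n G) (dl ((j : ℕ) : ℤ))⟫_ℂ = (Mat.of.symm (G x)) i j := by
  rw [D.psiHom_apply]
  simp only [map_sum, _root_.sum_apply, inner_sum]
  have h1 : ∀ i' j' : Fin (D.h n), ⟪dl ((i : ℕ) : ℤ),
      P (D.eu ι u n (ent G i' j') ((i' : ℕ) : ℤ) ((j' : ℕ) : ℤ)) (dl ((j : ℕ) : ℤ))⟫_ℂ =
      if i' = i ∧ j' = j then (Mat.of.symm (G x)) i j else 0 := by
    intro i' j'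
    unfold TowerData.eu
    rw [hP.conj, inner_smul_right, dl_dl, ContinuousMap.mul_apply]
    by_cases hj : j' = j
    · subst hj
      have h2 : (((j' : ℕ) : ℤ) + -((j' : ℕ) : ℤ)) = 0 := by ring
      rw [h2, zp_zero, ind_mem (D.isClopen_V n) hx, zero_add]
      by_cases hi : i' = i
      · subst hi
        rw [if_pos rfl, if_pos ⟨rfl, rfl⟩, one_mul, mul_one]; rfl
      · rw [if_neg fun h => hi (Fin.ext (by exact_mod_cast h.symm)), if_neg fun h => hi h.1,
          mul_zero]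
    · have hne : ¬(i' = i ∧ j' = j) := fun h => hj h.2
      rw [if_neg hne]
      have h2 : (T ^ (((j : ℕ) : ℤ) + -((j' : ℕ) : ℤ)) : X ≃ₜ X) x ∉ D.V n := by
        rw [D.mem_V_iff n _ x hx]
        intro h3
        have h4 : (((j : ℕ) : ℤ) + -((j' : ℕ) : ℤ)) ≠ 0 := by
          intro h; apply hj; apply Fin.ext; omega
        have h5 := Int.le_of_dvd (abs_pos.mpr h4) ((dvd_abs _ _).mpr h3)
        have h6 := j.2
        have h7 := j'.2
        rcases abs_cases (((j : ℕ) : ℤ) + -((j' : ℕ) : ℤ)) with h8 | h8 <;> omega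
      rw [ind_notMem (D.isClopen_V n) h2, zero_mul, zero_mul]
  simp only [h1]
  rw [Finset.sum_eq_single i, Finset.sum_eq_single j]
  · rw [if_pos ⟨rfl, rfl⟩]
  · intro j' _ hj'
    rw [if_neg fun h => hj' h.2]
  · intro h; exact absurd (Finset.mem_univ j) h
  · intro i' _ hi'
    refine Finset.sum_eq_zero fun j' _ => ?_
    rw [if_neg fun h => hi' h.1]
  · intro h; exact absurd (Finset.mem_univ i) h

/-- matrix units in `M_N(ℂ)` -/
def mE (N : ℕ) (i j : Fin N) : Mat N ℂ := Mat.of (Matrix.single i j 1)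

lemma mE_mul (N : ℕ) (i j k l : Fin N) : mE N i j * mE N k l = if j = k then mE N i l else 0 := by
  unfold mE
  rw [← map_mul]
  by_cases h : j = k
  · subst h
    rw [if_pos rfl, Matrix.single_mul_single_same, mul_one]
  · rw [if_neg h, Matrix.single_mul_single_of_ne _ _ _ _ h, map_zero]

lemma mE_star (N : ℕ) (i j : Fin N) : star (mE N i j) = mE N j i := by
  unfold mE
  rw [← map_star, Matrix.star_eq_conjTranspose, Matrix.conjTranspose_single, star_one]

lemma mE_sum (N : ℕ) (M : Mat N ℂ) : M = ∑ i, ∑ j, (Mat.of.symm M) i j • mE N i j := by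
  have h1 : M = Mat.of (Mat.of.symm M) := rfl
  conv_lhs => rw [h1, Matrix.matrix_eq_sum_single (Mat.of.symm M)]
  simp only [map_sum]
  refine Finset.sum_congr rfl fun i _ => Finset.sum_congr rfl fun j _ => ?_
  unfold mE
  rw [← map_smul, Matrix.smul_single, smul_eq_mul, mul_one]

end

theorem psi : S_PSI := by
  intro X _ _ _ T D A _ ι u π n hA hπ
  refine ⟨D.psiHom hA.cov n, fun G => rfl, fun G hG => ?_, fun G x hx i j =>
    D.psi_coef hA.cov n (hπ.rep x) hx G i j⟩
  refine le_antisymm (NonUnitalStarAlgHom.norm_apply_le _ _) ?_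
  refine (ContinuousMap.norm_le _ (norm_nonneg _)).mpr fun x => ?_
  by_cases hx : x ∈ D.V n
  · rw [mE_sum (D.h n) (G x)]
    have h1 := mu_norm (mE (D.h n)) (mE_mul _) (mE_star _) (fun i => ((i : ℕ) : ℤ)) (by
      intro i j h
      apply Fin.ext
      simp only at h
      exact_mod_cast h) (π x (D.psiHom hA.cov n G))
    have h2 : ∑ i : Fin (D.h n), ∑ j : Fin (D.h n), (Mat.of.symm (G x)) i j • mE (D.h n) i j =
        ∑ i : Fin (D.h n), ∑ j : Fin (D.h n), ⟪dl ((i : ℕ) : ℤ), π x (D.psiHom hA.cov n G) (dl ((j : ℕ) : ℤ))⟫_ℂ •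
          mE (D.h n) i j := by
      refine Finset.sum_congr rfl fun i _ => Finset.sum_congr rfl fun j _ => ?_
      rw [D.psi_coef hA.cov n (hπ.rep x) hx G i j]
    rw [h2]
    exact h1.trans (NonUnitalStarAlgHom.norm_apply_le (π x) _)
  · rw [hG x hx, norm_zero]
    exact norm_nonneg _

end Run7.h745
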