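import Pool.Agent.Run7.h745.MatTr

/-!
# Tracial states are quasitraces
-/

set_option autoImplicit false
set_option linter.unusedSectionVars false

noncomputable section

namespace Run7.h745

open Filter Topology Matrix Pool.Agent.TH249

lemma TracialState.isQuasitrace_mat {A : Type} [CStarAlgebra A] (τ : TracialState A) (n : ℕ) :
    IsQuasitrace (fun M : Matrix (Fin n) (Fin n) A => τ.mat M) := by
  have hadd : ∀ M N : Matrix (Fin n) (Fin n) A, τ.mat (M + N) = τ.mat M + τ.mat N := by
    intro M N
    simp only [TracialState.mat, Matrix.add_apply, map_add, Finset.sum_add_distrib]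
  have hsmul : ∀ (c : ℂ) (M : Matrix (Fin n) (Fin n) A), τ.mat (c • M) = c * τ.mat M := by
    intro c M
    simp only [TracialState.mat, Matrix.smul_apply, map_smul, smul_eq_mul, Finset.mul_sum]
  refine ⟨?_, ?_, ?_, ?_⟩
  · intro M
    have h2 : τ.mat (star M * M) = ∑ i, ∑ j, τ.val (star (M j i) * M j i) := by
      simp only [TracialState.mat, mul_apply, map_sum, star_eq_conjTranspose, conjTranspose_apply]
    show 0 ≤ (τ.mat (star M * M)).re ∧ (τ.mat (star M * M)).im = 0
    rw [h2, Complex.re_sum, Complex.im_sum]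
    constructor
    · refine Finset.sum_nonneg fun i _ => ?_
      rw [Complex.re_sum]
      exact Finset.sum_nonneg fun j _ => (τ.nonneg _).1
    · refine Finset.sum_eq_zero fun i _ => ?_
      rw [Complex.im_sum]
      exact Finset.sum_eq_zero fun j _ => (τ.nonneg _).2
  · intro M
    exact τ.mat_mul_comm _ _
  · intro M N _ _
    show τ.mat (M + Complex.I • N) = τ.mat M + Complex.I * τ.mat N
    rw [hadd, hsmul]
  · intro c M N _ _ _ _
    show τ.mat (c • M + N) = c * τ.mat M + τ.mat N
    rw [hadd, hsmul]

/-- every tracial state gives a normalised 2-quasitrace -/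
def TracialState.toQT {A : Type} [CStarAlgebra A] (τ : TracialState A) : QT A where
  val := fun _ M => τ.mat M
  isQuasitrace := τ.isQuasitrace_mat
  corner := fun n M => by
    show τ.mat (Run7.h745.corner M) = τ.mat M
    simp only [TracialState.mat, Run7.h745.corner, Matrix.of_apply]
    rw [Fin.sum_univ_castSucc]
    have h1 : ∀ i : Fin n, (if h : ((Fin.castSucc i : Fin (n + 1)) : ℕ) < n ∧
        ((Fin.castSucc i : Fin (n + 1)) : ℕ) < n then M ⟨_, h.1⟩ ⟨_, h.2⟩ else 0) = M i i := by
      intro i
      rw [dif_pos ⟨i.2, i.2⟩]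
      rfl
    have h2 : (if h : ((Fin.last n : Fin (n + 1)) : ℕ) < n ∧ ((Fin.last n : Fin (n + 1)) : ℕ) < n
        then M ⟨_, h.1⟩ ⟨_, h.2⟩ else 0) = 0 := by
      rw [dif_neg]
      simp
    rw [h2, map_zero, add_zero]
    exact Finset.sum_congr rfl fun i _ => by rw [h1]
  map_one := by
    show τ.mat (1 : Matrix (Fin 1) (Fin 1) A) = 1
    simp [TracialState.mat, τ.map_one]

end Run7.h745
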