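import Pool.Agent.Run7.h745.Sys1b

/-!
# Piece SYS1, part 3: existence of points, minimality
-/

set_option autoImplicit false
set_option linter.unusedSectionVars false

noncomputable section

namespace Run7.h745

namespace Sys1

open Filter Topology

/-! ### Periodic words -/

open Classical in
/-- the periodic word made of a level `m` block -/
def per (m : ℕ) (s : Bool) (w : ℕ → QQ) : Pt := fun k =>
  (fun l => if l ≤ m ∧ (h l : ℤ) ∣ k then true else false,
    blk m s w (k % (h m : ℤ)).toNat)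

lemma per_let (m : ℕ) (s : Bool) (w : ℕ → QQ) (k : ℤ) :
    (per m s w k).2 = blk m s w (k % (h m : ℤ)).toNat := rfl

lemma per_mark (m : ℕ) (s : Bool) (w : ℕ → QQ) (k : ℤ) (l : ℕ) :
    (per m s w k).1 l = true ↔ l ≤ m ∧ (h l : ℤ) ∣ k := by
  simp [per]

lemma per_mark_false (m : ℕ) (s : Bool) (w : ℕ → QQ) (k : ℤ) (l : ℕ) :
    (per m s w k).1 l = false ↔ ¬ (l ≤ m ∧ (h l : ℤ) ∣ k) := by
  rw [← per_mark m s w k l]; simp

lemma hz_pos (n : ℕ) : (0 : ℤ) < h n := by exact_mod_cast h_pos n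

lemma per_block {m : ℕ} {s : Bool} {w : ℕ → QQ} (hw : Val m s w) {l : ℕ} (hl : l ≤ m) (k : ℤ)
    (hk : (h l : ℤ) ∣ k) :
    ∃ s' w', Val l s' w' ∧ ∀ i < h l, (per m s w (k + (i : ℕ))).2 = blk l s' w' i := by
  obtain ⟨r, hr⟩ := h_dvd hl
  have hm := hz_pos m
  have hlpos := hz_pos l
  have h0 := Int.emod_nonneg k hm.ne'
  have h1 := Int.emod_lt_of_pos k hm
  have h2 : (h l : ℤ) ∣ k % h m := by
    rw [Int.emod_def]
    exact dvd_sub hk (dvd_mul_of_dvd_left (by exact_mod_cast h_dvd hl) _)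
  obtain ⟨a, ha⟩ := h2
  have ha0 : 0 ≤ a := by
    by_contra hc
    push Not at hc
    nlinarith
  obtain ⟨a', rfl⟩ := Int.eq_ofNat_of_zero_le ha0
  have h3 : (a' + 1) * h l ≤ h m := by
    have hr' : (h m : ℤ) = h l * r := by exact_mod_cast hr
    have h4 : (h l * a' : ℤ) < h l * r := by rw [← ha, ← hr']; exact h1
    have h5 : (a' : ℤ) < r := lt_of_mul_lt_mul_left h4 hlpos.le
    have h6 : a' + 1 ≤ r := by omega
    rw [hr, mul_comm]
    exact Nat.mul_le_mul_left _ h6
  obtain ⟨s', w', hw', h7⟩ := blk_sub' hl s w hw a' h3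
  refine ⟨s', w', hw', fun i hi => ?_⟩
  rw [← h7 i hi]
  show blk m s w ((k + (i : ℕ)) % (h m : ℤ)).toNat = _
  congr 1
  have h8 : (k + (i : ℕ)) % (h m : ℤ) = h l * a' + i := by
    have h9 : a' * h l + i < h m := by nlinarith
    rw [← ha, ← Int.emod_add_emod, ha]
    refine Int.emod_eq_of_lt (by positivity) ?_
    have : ((a' * h l + i : ℕ) : ℤ) < h m := by exact_mod_cast h9
    push_cast at this
    linarith
  rw [h8]
  have h10 : (h l * a' + i : ℤ) = ((a' * h l + i : ℕ) : ℤ) := by push_cast; ring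
  rw [h10, Int.toNat_natCast]

lemma per_good {m : ℕ} {s : Bool} {w : ℕ → QQ} (hw : Val m s w) {l : ℕ} (hl : l ≤ m) :
    Good l (per m s w) where
  ex k := by
    have h0 := Int.emod_nonneg k (hz_pos l).ne'
    have h1 := Int.emod_lt_of_pos k (hz_pos l)
    refine ⟨(k % h l).toNat, Finset.mem_range.mpr (by omega), ?_⟩
    rw [per_mark]
    refine ⟨hl, ?_⟩
    rw [Int.toNat_of_nonneg h0]
    exact Int.dvd_self_sub_emod
  uniq k i hi j hj hij hm := by
    rw [Finset.mem_range] at hi hj
    rw [per_mark] at hm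
    rw [per_mark_false]
    rintro ⟨-, h2⟩
    have h3 := dvd_sub hm.2 h2
    have h4 : k - (i : ℤ) - (k - j) = j - i := by ring
    rw [h4] at h3
    have h5 := Int.eq_zero_of_abs_lt_dvd h3 (by rw [abs_lt]; omega)
    omega
  ret k hm := by
    rw [per_mark] at hm ⊢
    exact ⟨hm.1, dvd_add hm.2 dvd_rfl⟩
  dec k hm := by
    rw [per_mark] at hm ⊢
    exact ⟨hl, dvd_trans (by exact_mod_cast h_dvd (Nat.le_succ l)) hm.2⟩
  val k := by
    have h0 := Int.emod_nonneg k (hz_pos m).ne'
    have h1 := Int.emod_lt_of_pos k (hz_pos m)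
    exact blk_val hw (by omega)
  fro k hm i hi hi' := by
    rw [per_mark] at hm
    obtain ⟨s', w', -, h2⟩ := per_block hw hl k hm.2
    rw [h2 i (Finset.mem_range.mp hi), blk_frozen hi']
  typ k hm i hi j hj := by
    rw [per_mark] at hm
    obtain ⟨s', w', -, h2⟩ := per_block hw hl k hm.2
    rw [h2 i (free_lt l i hi), h2 j (free_lt l j hj), blk_free hi, blk_free hj]

/-- all contents occur in points of the space -/
lemma surj (n : ℕ) (s : Bool) (w : ℕ → QQ) (hw : Val n s w) :
    ∃ x : XX, (x.1 0).1 n = true ∧ ∀ i ∈ free n, (x.1 (i : ℕ)).2 = (s, w i) := by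
  let Y : ℕ → Set Pt := fun m => {x | (∀ l ≤ m, Good l x) ∧ (x 0).1 n = true ∧
    ∀ i ∈ free n, (x (i : ℕ)).2 = (s, w i)}
  have hY1 : ∀ m, Y (m + 1) ⊆ Y m := fun m x hx =>
    ⟨fun l hl => hx.1 l (by omega), hx.2⟩
  have hY2 : ∀ m, IsClosed (Y m) := by
    intro m
    have h1 : Y m = (⋂ l ∈ Set.Iic m, {x | Good l x}) ∩ ({x : Pt | (x 0).1 n = true} ∩
        ⋂ i ∈ free n, {x : Pt | (x (i : ℕ)).2 = (s, w i)}) := by
      ext x; simp [Y]
    rw [h1]
    exact (isClosed_biInter fun l _ => isClosed_good l).inter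
      ((clopen_mark 0 n true).isClosed.inter (isClosed_biInter fun i _ =>
        isClosed_eq (cont_let _) continuous_const))
  have hY3 : ∀ m, n ≤ m → (Y m).Nonempty := by
    intro m hnm
    have hw' : Val m s (fun i => w (i % h n)) := by
      intro i hi
      have : i % h n ∈ free n := by
        clear hw
        induction m, hnm using Nat.le_induction generalizing i with
        | base => rw [Nat.mod_eq_of_lt (free_lt n i hi)]; exact hi
        | succ m hm ih =>
          have h1 := ih _ ((free_succ m i).mp hi).2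
          rwa [Nat.mod_mod_of_dvd _ (h_dvd hm)] at h1
      exact hw _ this
    obtain ⟨i₀, hi₀⟩ := free_nonempty m
    have h2 := free_block hnm i₀ hi₀
    refine ⟨fun k => per m s (fun i => w (i % h n)) (k + ((i₀ / h n * h n : ℕ) : ℤ)),
      fun l hl => good_sh l _ _ (per_good hw' hl), ?_, fun i hi => ?_⟩
    · rw [per_mark]
      refine ⟨hnm, ?_⟩
      rw [zero_add]; push_cast
      exact dvd_mul_left _ _
    · have h3 := h2 i hi
      have h4 := free_lt m _ h3
      show (per m s _ ((i : ℤ) + ((i₀ / h n * h n : ℕ) : ℤ))).2 = _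
      have h5 : ((i : ℤ) + ((i₀ / h n * h n : ℕ) : ℤ)) = ((i₀ / h n * h n + i : ℕ) : ℤ) := by
        push_cast; ring
      rw [h5, per_let]
      have h6 : (((i₀ / h n * h n + i : ℕ) : ℤ) % (h m : ℤ)) = ((i₀ / h n * h n + i : ℕ) : ℤ) :=
        Int.emod_eq_of_lt (by positivity) (by exact_mod_cast h4)
      rw [h6, Int.toNat_natCast, blk_free h3]
      have h7 : (i₀ / h n * h n + i) % h n = i := by
        rw [add_comm, Nat.add_mul_mod_self_right, Nat.mod_eq_of_lt (free_lt n i hi)]
      simp only [h7]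
  have hY4 : ∀ m, (Y m).Nonempty := by
    intro m
    obtain ⟨x, hx⟩ := hY3 (max m n) (le_max_right _ _)
    exact ⟨x, fun l hl => hx.1 l (hl.trans (le_max_left _ _)), hx.2⟩
  have h1 := IsCompact.nonempty_iInter_of_sequence_nonempty_isCompact_isClosed Y hY1 hY4
    (hY2 0).isCompact hY2
  obtain ⟨x, hx⟩ := h1
  rw [Set.mem_iInter] at hx
  exact ⟨⟨x, fun l => (hx l).1 l le_rfl⟩, (hx 0).2⟩

/-! ### Marks and letters of points -/

lemma mark_sub (x : XX) (n : ℕ) (k : ℤ) (hk : (x.1 k).1 n = true) : (x.1 (k - h n)).1 n = true := by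
  obtain ⟨i, hi, h1⟩ := (x.2 n).ex (k - h n)
  have h2 := (x.2 n).ret _ h1
  have h3 : k - (h n : ℤ) - i + h n = k - i := by ring
  rw [h3] at h2
  by_cases h0 : i = 0
  · subst h0
    simpa using h1
  · have h4 := (x.2 n).uniq k i hi 0 (Finset.mem_range.mpr (h_pos n)) h0 h2
    simp only [Nat.cast_zero, sub_zero] at h4
    rw [hk] at h4
    exact absurd h4 (by simp)

lemma mark_mul (x : XX) (n : ℕ) (k : ℤ) (hk : (x.1 k).1 n = true) (a : ℤ) :
    (x.1 (k + a * h n)).1 n = true := by
  induction a using Int.induction_on with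
  | zero => rw [zero_mul, add_zero]; exact hk
  | succ a ih =>
    have h1 := (x.2 n).ret _ ih
    rw [← h1]; ring_nf
  | pred a ih =>
    have h1 := mark_sub x n _ ih
    rw [← h1]; ring_nf

lemma mark_iff (x : XX) (n : ℕ) (k : ℤ) (hk : (x.1 k).1 n = true) (j : ℤ) :
    (x.1 (k + j)).1 n = true ↔ (h n : ℤ) ∣ j := by
  constructor
  · intro hj
    have h0 := Int.emod_nonneg j (hz_pos n).ne'
    have h1 := Int.emod_lt_of_pos j (hz_pos n)
    by_contra hc
    have h2 : j % h n ≠ 0 := fun h => hc (Int.dvd_of_emod_eq_zero h)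
    -- marks at k + j and at k + (j / h) h, distance j % h
    have h3 := mark_mul x n k hk (j / h n)
    have h4 := (x.2 n).uniq (k + j) 0 (Finset.mem_range.mpr (h_pos n)) (j % h n).toNat
      (Finset.mem_range.mpr (by omega)) (by omega) (by simpa using hj)
    rw [Int.toNat_of_nonneg h0] at h4
    have h5 : k + j - j % h n = k + j / h n * h n := by
      have := Int.mul_ediv_add_emod j (h n)
      linarith
    rw [h5, h3] at h4
    exact absurd h4 (by simp)
  · rintro ⟨a, rfl⟩
    rw [mul_comm]; exact mark_mul x n k hk a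

lemma mark_le (x : XX) {l n : ℕ} (hl : l ≤ n) (k : ℤ) (hk : (x.1 k).1 n = true) :
    (x.1 k).1 l = true := by
  induction n, hl using Nat.le_induction with
  | base => exact hk
  | succ n _ ih => exact ih ((x.2 n).dec k hk)

/-- every level `m + 1` block contains approximations of all level `n` blocks, `n ≤ m` -/
lemma net_block (x : XX) {n m : ℕ} (hnm : n ≤ m) (s : Bool) (w : ℕ → QQ) (hw : Val n s w) :
    ∃ t : ℤ, (x.1 t).1 n = true ∧ ∀ i ∈ free n, (x.1 (t + (i : ℕ))).2.1 = s ∧
      dQ (x.1 (t + (i : ℕ))).2.2 (w i) < 1 / ((m : ℝ) + 1) := by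
  have hmod : ∀ i ∈ free m, i % h n ∈ free n := by
    clear hw
    induction m, hnm using Nat.le_induction with
    | base => intro i hi; rw [Nat.mod_eq_of_lt (free_lt n i hi)]; exact hi
    | succ m hm ih =>
      intro i hi
      have h1 := ih _ ((free_succ m i).mp hi).2
      rwa [Nat.mod_mod_of_dvd _ (h_dvd hm)] at h1
  obtain ⟨c, hc, hc1, hc2⟩ := (net_spec m (free m)).2.2 s (fun i => w (i % h n))
    (fun i hi => hw _ (hmod i hi))
  -- the frozen index showing c
  obtain ⟨j, hj, hj', hjc⟩ : ∃ j, j < q m ∧ j ∉ Finset.Icc 1 (f m) ∧ (j - f m) / 2 = c := by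
    have hc' : c < k m := hc
    by_cases h0 : c = 0
    · refine ⟨0, q_pos m, by simp, by simp [h0]⟩
    · refine ⟨f m + 2 * c, by unfold q; omega, by rw [Finset.mem_Icc]; omega, by
        rw [Nat.add_sub_cancel_left]; omega⟩
  obtain ⟨i₁, hi₁, h1⟩ := (x.2 (m + 1)).ex 0
  set t₀ : ℤ := 0 - (i₁ : ℕ) with ht₀
  obtain ⟨i₀, hi₀⟩ := free_nonempty m
  have hpos : ∀ i ∈ free n, j * h m + (i₀ / h n * h n + i) < h (m + 1) ∧
      j * h m + (i₀ / h n * h n + i) ∉ free (m + 1) := by
    intro i hi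
    have h2 := free_block hnm i₀ hi₀ i hi
    have h3 := free_lt m _ h2
    constructor
    · rw [h_succ]; nlinarith
    · rw [free_succ' h3]; exact fun h => hj' h.1
  refine ⟨t₀ + ((j * h m + i₀ / h n * h n : ℕ) : ℤ), ?_, fun i hi => ?_⟩
  · have h2 := mark_le x (show n ≤ m + 1 by omega) t₀ h1
    rw [mark_iff x n t₀ h2]
    obtain ⟨r, hr⟩ := h_dvd hnm
    refine ⟨j * r + i₀ / h n, ?_⟩
    push_cast [hr]; ring
  · have h2 := free_block hnm i₀ hi₀ i hi
    have h3 := free_lt m _ h2
    have h4 := (x.2 (m + 1)).fro t₀ h1 _ (Finset.mem_range.mpr (hpos i hi).1) (hpos i hi).2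
    have h5 : t₀ + ((j * h m + i₀ / h n * h n : ℕ) : ℤ) + (i : ℕ) =
        t₀ + ((j * h m + (i₀ / h n * h n + i) : ℕ) : ℤ) := by push_cast; ring
    rw [h5, h4, fr_succ' h3, blk_free h2]
    have h7 : (i₀ / h n * h n + i) % h n = i := by
      rw [add_comm, Nat.add_mul_mod_self_right, Nat.mod_eq_of_lt (free_lt n i hi)]
    refine ⟨?_, ?_⟩
    · simp only [sty, hjc]; exact hc1
    · simp only [hjc]
      have := hc2 _ h2
      simp only [h7] at this
      exact this

/-- approximation of the windows of `y` in the orbit of `x` -/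
lemma approx (x y : XX) (N : ℕ) : ∃ t : ℤ, ∀ p : ℤ, |p| ≤ N →
    (∀ l ≤ N, (x.1 (p + t)).1 l = (y.1 p).1 l) ∧ (x.1 (p + t)).2.1 = (y.1 p).2.1 ∧
      dQ (x.1 (p + t)).2.2 (y.1 p).2.2 ≤ 1 / ((N : ℝ) + 1) := by
  -- level n' with h n' > 2N, n' ≥ N
  obtain ⟨n', hn'N, hn'⟩ : ∃ n', N ≤ n' ∧ 2 * N < h n' :=
    ⟨2 * N + 1, by omega, lt_of_lt_of_le (by omega) (le_h (2 * N + 1))⟩
  obtain ⟨i₁, hi₁, hk⟩ := (y.2 (n' + 1)).ex (N : ℤ)
  rw [Finset.mem_range] at hi₁
  set k : ℤ := (N : ℤ) - (i₁ : ℕ) with hkdef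
  -- content of the block at k
  obtain ⟨i₂, hi₂⟩ := free_nonempty (n' + 1)
  have hw : Val (n' + 1) (y.1 (k + (i₂ : ℕ))).2.1 (fun i => (y.1 (k + (i : ℕ))).2.2) := by
    intro i hi
    have h1 := (y.2 (n' + 1)).val (k + (i : ℕ))
    rw [(y.2 (n' + 1)).typ k hk i hi i₂ hi₂] at h1
    exact h1
  obtain ⟨t', ht', ht''⟩ := net_block x (show n' + 1 ≤ n' + 1 + N by omega) _ _ hw
  refine ⟨t' - k, fun p hp => ?_⟩
  have hpa := abs_le.mp hp
  have hpt : p + (t' - k) = t' + (p - k) := by ring
  have hpk : p = k + (p - k) := by ring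
  constructor
  · intro l hl
    have h1 := mark_le x (show l ≤ n' + 1 by omega) t' ht'
    have h2 := mark_le y (show l ≤ n' + 1 by omega) k hk
    have h3 := mark_iff x l t' h1 (p - k)
    have h4 := mark_iff y l k h2 (p - k)
    rw [hpt, hpk, show k + (p - k) - k = p - k by ring]
    rw [Bool.eq_iff_iff, h3, h4]
  · -- letters
    have hε : (1 : ℝ) / (((n' + 1 + N : ℕ) : ℝ) + 1) ≤ 1 / ((N : ℝ) + 1) := by
      apply one_div_le_one_div_of_le (by positivity)
      push_cast
      have : (0 : ℝ) ≤ n' := by positivity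
      linarith
    have hε0 : (0 : ℝ) ≤ 1 / ((N : ℝ) + 1) := by positivity
    by_cases hpk0 : 0 ≤ p - k
    · obtain ⟨i, hi⟩ := Int.eq_ofNat_of_zero_le hpk0
      have hil : i < h (n' + 1) := by
        have : (i : ℤ) ≤ i₁ := by rw [← hi]; omega
        omega
      rw [hpt, hpk, show k + (p - k) - k = p - k by ring, hi]
      by_cases hf : i ∈ free (n' + 1)
      · obtain ⟨h5, h6⟩ := ht'' i hf
        refine ⟨?_, h6.le.trans hε⟩
        rw [h5]
        exact (y.2 (n' + 1)).typ k hk i₂ hi₂ i hf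
      · have h5 := (x.2 (n' + 1)).fro t' ht' i (Finset.mem_range.mpr hil) hf
        have h6 := (y.2 (n' + 1)).fro k hk i (Finset.mem_range.mpr hil) hf
        rw [h5, h6]
        exact ⟨rfl, by rw [dQ_self]; exact hε0⟩
    · -- previous block
      have hx := mark_sub x (n' + 1) t' ht'
      have hy := mark_sub y (n' + 1) k hk
      have hh : (h n' : ℤ) ≤ h (n' + 1) := by exact_mod_cast (h_lt_succ n').le
      have hge : -(2 * N : ℤ) ≤ p - k := by omega
      obtain ⟨i, hi⟩ := Int.eq_ofNat_of_zero_le (show 0 ≤ (h (n' + 1) : ℤ) + (p - k) by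
        have : (2 * N : ℤ) < h n' := by exact_mod_cast hn'
        omega)
      have hil : i < h (n' + 1) := by
        have : (i : ℤ) < h (n' + 1) := by rw [← hi]; omega
        exact_mod_cast this
      have hf : i ∉ free (n' + 1) := by
        intro hc
        have h1 := ((free_succ n' i).mp hc).1
        rw [Finset.mem_Icc] at h1
        have h2 : (i / h n' + 1) * h n' ≤ f n' * h n' + h n' := by
          have := Nat.mul_le_mul_right (h n') h1.2
          rw [add_mul, one_mul]; omega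
        have h3 : i < (i / h n' + 1) * h n' := by
          have h4 := Nat.div_add_mod' i (h n')
          have h5 := Nat.mod_lt i (h_pos n')
          rw [add_mul, one_mul]; omega
        have h4 : h (n' + 1) = (f n' + 2 * Sys1.k n') * h n' := rfl
        have h5 := k_pos n'
        have h6 : (f n' + 2) * h n' ≤ h (n' + 1) := by
          rw [h_succ]
          exact Nat.mul_le_mul_right _ (by unfold q; omega)
        have h7 : (h (n' + 1) : ℤ) - h n' < i := by
          rw [← hi]
          have : (2 * N : ℤ) < h n' := by exact_mod_cast hn'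
          omega
        have h8 : h (n' + 1) < i + h n' := by omega
        nlinarith
      have e1 : p + (t' - k) = t' - h (n' + 1) + (i : ℕ) := by
        rw [← hi]; ring
      have e2 : p = k - h (n' + 1) + (i : ℕ) := by
        rw [← hi]; ring
      have h5 := (x.2 (n' + 1)).fro _ hx i (Finset.mem_range.mpr hil) hf
      have h6 := (y.2 (n' + 1)).fro _ hy i (Finset.mem_range.mpr hil) hf
      have h7 : (y.1 p).2 = fr (n' + 1) i := by rw [e2]; exact h6
      rw [e1, h5, h7]
      exact ⟨rfl, by rw [dQ_self]; exact hε0⟩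

lemma minimal : IsMinimalHomeo TT := by
  intro x y
  choose t ht using approx x y
  refine mem_closure_of_tendsto (b := (atTop : Filter ℕ))
    (f := fun N : ℕ => (TT ^ t N : XX ≃ₜ XX) x) ?_ (Eventually.of_forall fun N => ⟨t N, rfl⟩)
  rw [tendsto_subtype_rng, tendsto_pi_nhds]
  intro p
  simp only [TT_zpow]
  have hev : ∀ᶠ N : ℕ in atTop, |p| ≤ N := by
    filter_upwards [eventually_ge_atTop p.natAbs] with N hN
    rw [abs_le]; omega
  refine Tendsto.prodMk_nhds (mx := fun N => (x.1 (p + t N)).1)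
    (my := fun N => (x.1 (p + t N)).2) ?_ (Tendsto.prodMk_nhds (mx := fun N => (x.1 (p + t N)).2.1)
    (my := fun N => (x.1 (p + t N)).2.2) ?_ ?_)
  · rw [tendsto_pi_nhds]
    intro l
    refine tendsto_const_nhds.congr' ?_
    filter_upwards [hev, eventually_ge_atTop l] with N h1 h2
    exact ((ht N p h1).1 l h2).symm
  · refine tendsto_const_nhds.congr' ?_
    filter_upwards [hev] with N h1
    exact (ht N p h1).2.1.symm
  · let _ := mQ
    rw [tendsto_iff_dist_tendsto_zero]
    refine squeeze_zero' (Eventually.of_forall fun N => dist_nonneg) ?_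
      tendsto_one_div_add_atTop_nhds_zero_nat
    filter_upwards [hev] with N h1
    exact (ht N p h1).2.2

/-- the tower data -/
def tower : TowerData XX TT where
  h := h
  q := q
  free := free
  fidx n := Finset.Icc 1 (f n)
  V n := {x | (x.1 0).1 n = true}
  ty x := (x.1 0).2.1
  z x := (x.1 0).2.2
  frty n i := (fr n i).1
  frz n i := (fr n i).2
  sty := sty
  δ := 3 / 4
  δ_pos := by norm_num
  h_pos := h_pos
  h_succ := h_succ
  free_lt := free_lt
  free_nonempty := free_nonempty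
  density := density
  fidx_lt n j hj := by
    rw [Finset.mem_Icc] at hj
    have := k_pos n
    unfold q; omega
  free_succ := free_succ
  even_fidx n := by
    have h1 : (Finset.Icc 1 (f n)).card = f n := by simp
    rw [h1]; exact even_f n
  even_sty n s := by
    convert even_sty n s using 2
  continuous_ty := continuous_fst.comp ((cont_let 0).comp continuous_subtype_val)
  continuous_z := continuous_snd.comp ((cont_let 0).comp continuous_subtype_val)
  z_mem x := (x.2 0).val 0
  isClopen_V n := (clopen_mark 0 n true).preimage continuous_subtype_val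
  V_succ n x hx := (x.2 n).dec 0 hx
  part n x := by
    obtain ⟨i, hi, h1⟩ := (x.2 n).ex 0
    refine ⟨i, ⟨Finset.mem_range.mp hi, ?_⟩, ?_⟩
    · show (((TT ^ (-(i : ℤ)) : XX ≃ₜ XX) x).1 0).1 n = true
      rw [TT_zpow]; rw [← h1]; ring_nf
    · rintro j ⟨hj, h2⟩
      replace h2 : (((TT ^ (-(j : ℤ)) : XX ≃ₜ XX) x).1 0).1 n = true := h2
      rw [TT_zpow] at h2
      by_contra hc
      have h3 := (x.2 n).uniq 0 i hi j (Finset.mem_range.mpr hj) (Ne.symm hc) h1
      rw [show (0 : ℤ) - j = 0 + -j by ring, h2] at h3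
      exact absurd h3 (by simp)
  ret n x hx := by
    show (((TT ^ (h n : ℤ) : XX ≃ₜ XX) x).1 0).1 n = true
    rw [TT_zpow]
    exact (x.2 n).ret 0 hx
  frozen n x hx i hi hi' := by
    have h1 := (x.2 n).fro 0 hx i (Finset.mem_range.mpr hi) hi'
    rw [TT_zpow, h1]
    exact ⟨rfl, rfl⟩
  free_ty n x hx i hi j hj := by
    rw [TT_zpow, TT_zpow]
    exact (x.2 n).typ 0 hx i hi j hj
  surj n s w hw := by
    obtain ⟨x, hx, h1⟩ := surj n s w hw
    refine ⟨x, hx, fun i hi => ?_⟩
    rw [TT_zpow, zero_add, h1 i hi]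
    exact ⟨rfl, rfl⟩
  sty_spec n x hx j hj hj' i hi := by
    have hil := free_lt n i hi
    have h1 := (x.2 (n + 1)).fro 0 hx (j * h n + i) (Finset.mem_range.mpr (by
      rw [h_succ]; nlinarith)) (by rw [free_succ' hil]; exact fun h => hj' h.1)
    rw [TT_zpow, h1, fr_succ' hil, blk_free hi]
  sep x y h1 h2 := by
    apply Subtype.ext
    ext1 k
    have h3 := h2 k
    rw [TT_zpow, TT_zpow, zero_add] at h3
    refine Prod.ext ?_ (Prod.ext h3.1 h3.2)
    ext1 n
    have h4 := h1 n k
    simp only [Set.mem_ofPred_eq, TT_zpow, zero_add] at h4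
    rw [Bool.eq_iff_iff]; exact h4
  h_tendsto := h_strictMono.tendsto_atTop

lemma infinite_XX : Infinite XX := by
  rw [← not_finite_iff_infinite]
  intro hfin
  have := Fintype.ofFinite XX
  obtain ⟨x, hx, -⟩ := surj (Fintype.card XX) false (fun _ => zQ) (fun i _ => zQ_mem _)
  have hx' : x ∈ tower.V (Fintype.card XX) := hx
  set n := Fintype.card XX with hn
  have h1 : Function.Injective fun i : Fin (h (n + 1)) => (TT ^ ((i : ℕ) : ℤ) : XX ≃ₜ XX)
      (Classical.choose (surj (n + 1) false (fun _ => zQ) (fun i _ => zQ_mem _))) := by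
    have h2 := (Classical.choose_spec (surj (n + 1) false (fun _ => zQ)
      (fun i _ => zQ_mem _))).1
    set y := Classical.choose (surj (n + 1) false (fun _ => zQ) (fun i _ => zQ_mem _))
    intro i j hij
    simp only at hij
    have h3 : (TT ^ ((i : ℤ) - (j : ℤ)) : XX ≃ₜ XX) y = y := by
      rw [sub_eq_add_neg, add_comm, zp_add, hij, zp_neg_cancel]
    have h4 := (tower.mem_V_iff (n + 1) ((i : ℤ) - (j : ℤ)) y h2).mp (by rw [h3]; exact h2)
    have h5 : (tower.h (n + 1) : ℤ) = h (n + 1) := rfl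
    rw [h5] at h4
    have hi := i.2
    have hj := j.2
    have h6 := Int.eq_zero_of_abs_lt_dvd h4 (by rw [abs_lt]; omega)
    ext; omega
  have h2 := Fintype.card_le_of_injective _ h1
  rw [Fintype.card_fin, ← hn] at h2
  have := le_h (n + 1)
  omega

end Sys1

theorem sys1 : S_SYS1 := by
  let m : MetricSpace Sys1.XX := TopologicalSpace.metrizableSpaceMetric Sys1.XX
  exact ⟨Sys1.XX, m, inferInstance, Sys1.infinite_XX, Sys1.TT, Sys1.minimal, Sys1.tower, rfl⟩

end Run7.h745
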