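import Pool.Agent.Run7.h745.Basic

/-!
# Piece SYS2: towers
-/

set_option autoImplicit false
set_option linter.unusedSectionVars false

noncomputable section

namespace Run7.h745

namespace Sys2

open Filter Topology

variable {X : Type} [TopologicalSpace X] (T : X ≃ₜ X) (K : ℕ)

/-- the inverse of the tower map -/
def invFun (y : X × Fin (K + 1)) : X × Fin (K + 1) :=
  if h : 0 < (y.2 : ℕ) then (y.1, ⟨y.2 - 1, by omega⟩) else (T.symm y.1, ⟨K, by omega⟩)

lemma towerFun_lt (x : X) (p : Fin (K + 1)) (h : (p : ℕ) < K) :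
    towerFun T K (x, p) = (x, ⟨p + 1, by omega⟩) := by
  simp [towerFun, h]

lemma towerFun_ge (x : X) (p : Fin (K + 1)) (h : ¬ (p : ℕ) < K) :
    towerFun T K (x, p) = (T x, 0) := by
  simp [towerFun, h]

/-- the tower homeomorphism -/
def TK : X × Fin (K + 1) ≃ₜ X × Fin (K + 1) where
  toFun := towerFun T K
  invFun := invFun T K
  left_inv := by
    rintro ⟨x, p⟩
    by_cases h : (p : ℕ) < K
    · rw [towerFun_lt T K x p h]
      simp [invFun]
    · rw [towerFun_ge T K x p h]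
      have hp : p = ⟨K, by omega⟩ := Fin.ext (by have := p.2; simp; omega)
      simp [invFun, hp]
  right_inv := by
    rintro ⟨x, p⟩
    by_cases h : 0 < (p : ℕ)
    · have h1 : invFun T K (x, p) = (x, ⟨p - 1, by omega⟩) := by simp [invFun, h]
      rw [h1, towerFun_lt _ _ _ _ (by simp only; omega)]
      exact Prod.ext rfl (Fin.ext (by simp only; omega))
    · have h1 : invFun T K (x, p) = (T.symm x, ⟨K, by omega⟩) := by simp [invFun, h]
      rw [h1, towerFun_ge _ _ _ _ (by simp)]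
      have hp : p = 0 := Fin.ext (by have h2 : (p : ℕ) = 0 := by omega
                                     simpa using h2)
      rw [hp]; simp
  continuous_toFun := by
    rw [continuous_prod_of_discrete_right]
    intro p
    by_cases h : (p : ℕ) < K
    · simp only [towerFun_lt T K _ p h]; fun_prop
    · simp only [towerFun_ge T K _ p h]; fun_prop
  continuous_invFun := by
    rw [continuous_prod_of_discrete_right]
    intro p
    by_cases h : 0 < (p : ℕ)
    · have h1 : ∀ x, invFun T K (x, p) = (x, ⟨p - 1, by omega⟩) := fun x => by simp [invFun, h]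
      simp only [h1]; fun_prop
    · have h1 : ∀ x, invFun T K (x, p) = (T.symm x, ⟨K, by omega⟩) := fun x => by simp [invFun, h]
      simp only [h1]; fun_prop

lemma TK_lt (x : X) (p : Fin (K + 1)) (h : (p : ℕ) < K) :
    TK T K (x, p) = (x, ⟨p + 1, by omega⟩) := towerFun_lt T K x p h

lemma TK_ge (x : X) (p : Fin (K + 1)) (h : ¬ (p : ℕ) < K) :
    TK T K (x, p) = (T x, 0) := towerFun_ge T K x p h

lemma mod_lt' (j : ℤ) : (j % ((K + 1 : ℕ) : ℤ)).toNat < K + 1 := by
  have h0 := Int.emod_nonneg j (show ((K + 1 : ℕ) : ℤ) ≠ 0 by omega)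
  have h1 := Int.emod_lt_of_pos j (show (0 : ℤ) < ((K + 1 : ℕ) : ℤ) by omega)
  omega

/-- the explicit powers -/
def FF (x : X) (j : ℤ) : X × Fin (K + 1) :=
  ((T ^ (j / ((K + 1 : ℕ) : ℤ)) : X ≃ₜ X) x, ⟨(j % ((K + 1 : ℕ) : ℤ)).toNat, mod_lt' K j⟩)

lemma TK_FF (x : X) (j : ℤ) : TK T K (FF T K x j) = FF T K x (j + 1) := by
  have hM : (0 : ℤ) < ((K + 1 : ℕ) : ℤ) := by omega
  have h0 := Int.emod_nonneg j hM.ne'
  have h1 := Int.emod_lt_of_pos j hM
  have h2 := Int.mul_ediv_add_emod j ((K + 1 : ℕ) : ℤ)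
  by_cases h : (j % ((K + 1 : ℕ) : ℤ)).toNat < K
  · have h3 : (j + 1) / ((K + 1 : ℕ) : ℤ) = j / ((K + 1 : ℕ) : ℤ) ∧
        (j + 1) % ((K + 1 : ℕ) : ℤ) = j % ((K + 1 : ℕ) : ℤ) + 1 := by
      refine (Int.ediv_emod_unique hM).mpr ⟨by linarith, by omega, by omega⟩
    simp only [FF]
    rw [TK_lt T K _ _ h, h3.1]
    refine Prod.ext rfl (Fin.ext ?_)
    simp only [h3.2]; omega
  · have h3 : (j + 1) / ((K + 1 : ℕ) : ℤ) = j / ((K + 1 : ℕ) : ℤ) + 1 ∧
        (j + 1) % ((K + 1 : ℕ) : ℤ) = 0 := by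
      refine (Int.ediv_emod_unique hM).mpr ⟨?_, by omega, by omega⟩
      have h4 : j % ((K + 1 : ℕ) : ℤ) = K := by omega
      rw [mul_add, mul_one]; push_cast at *; linarith
    simp only [FF]
    rw [TK_ge T K _ _ h, h3.1]
    refine Prod.ext ?_ (Fin.ext ?_)
    · simp only
      rw [add_comm (j / ((K + 1 : ℕ) : ℤ)) 1, zp_add, zp_one]
    · simp only [h3.2]; simp

lemma zp_TK (x : X) (p : Fin (K + 1)) (j : ℤ) :
    (TK T K ^ j : _ ≃ₜ _) (x, p) = FF T K x (j + (p : ℕ)) := by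
  induction j using Int.induction_on with
  | zero =>
    rw [zp_zero, zero_add]
    have h1 : ((p : ℕ) : ℤ) / ((K + 1 : ℕ) : ℤ) = 0 ∧ ((p : ℕ) : ℤ) % ((K + 1 : ℕ) : ℤ) = (p : ℕ) := by
      refine (Int.ediv_emod_unique (by omega)).mpr ⟨by simp, by omega, by omega⟩
    simp only [FF]
    rw [h1.1]
    refine Prod.ext ?_ (Fin.ext ?_)
    · simp only; rw [zp_zero]
    · simp only [h1.2]; simp
  | succ j ih =>
    rw [add_comm (j : ℤ) 1, zp_add, zp_one, ih, TK_FF]
    congr 1; ring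
  | pred j ih =>
    apply (TK T K).injective
    rw [TK_FF, ← zp_one (TK T K), ← zp_add]
    rw [show (1 : ℤ) + (-(j : ℤ) - 1) = -(j : ℤ) by ring, ih]
    congr 1; ring

lemma zp_TK_zero (x : X) (j : ℤ) : (TK T K ^ j : _ ≃ₜ _) (x, 0) = FF T K x j := by
  rw [zp_TK]; simp

lemma FF_mul (x : X) (a : ℤ) (b : ℕ) (hb : b < K + 1) :
    FF T K x (((K + 1 : ℕ) : ℤ) * a + b) = ((T ^ a : X ≃ₜ X) x, ⟨b, hb⟩) := by
  have h1 : (((K + 1 : ℕ) : ℤ) * a + b) / ((K + 1 : ℕ) : ℤ) = a ∧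
      (((K + 1 : ℕ) : ℤ) * a + b) % ((K + 1 : ℕ) : ℤ) = b := by
    refine (Int.ediv_emod_unique (by omega)).mpr ⟨by ring, by omega, by omega⟩
  simp only [FF]
  rw [h1.1]
  exact Prod.ext rfl (Fin.ext (by simp only [h1.2]; simp))

lemma minimal (hT : IsMinimalHomeo T) : IsMinimalHomeo (TK T K) := by
  rintro ⟨x, p⟩ ⟨y, r⟩
  have h1 : Continuous fun x : X => (x, r) := by fun_prop
  have h2 : y ∈ closure (Set.range fun n : ℤ => (T ^ n : X ≃ₜ X) x) := hT x y
  have h3 := image_closure_subset_closure_image h1 (Set.mem_image_of_mem _ h2)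
  refine closure_mono ?_ h3
  rintro _ ⟨_, ⟨n, rfl⟩, rfl⟩
  refine ⟨((K + 1 : ℕ) : ℤ) * n + (r : ℕ) - (p : ℕ), ?_⟩
  simp only
  rw [zp_TK, sub_add_cancel, FF_mul _ _ _ _ _ r.2]

variable {T} (D : TowerData X T)

/-- the zero letter -/
def zQ : QQ := fun _ => ⟨0, ⟨0, by simp, by simp⟩⟩

lemma zQ_mem (s : Bool) : zQ ∈ QS s := by
  cases s
  · intro m _ i j; rfl
  · exact Set.mem_univ _

lemma nat_aux (a : ℕ) : ((K + 1) * a) / (K + 1) = a ∧ ((K + 1) * a) % (K + 1) = 0 :=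
  ⟨Nat.mul_div_cancel_left a (by omega), Nat.mul_mod_right _ _⟩

lemma FF_nat (x : X) (i : ℕ) : FF T K x (i : ℤ) =
    ((T ^ ((i / (K + 1) : ℕ) : ℤ) : X ≃ₜ X) x, ⟨i % (K + 1), Nat.mod_lt _ (by omega)⟩) := by
  have h1 : (i : ℤ) = ((K + 1 : ℕ) : ℤ) * ((i / (K + 1) : ℕ) : ℤ) + ((i % (K + 1) : ℕ) : ℤ) := by
    have := Nat.div_add_mod i (K + 1)
    exact_mod_cast this.symm
  conv_lhs => rw [h1]
  rw [FF_mul]

lemma dvd_iff (x : X) (n : ℕ) (j : ℤ) :
    ((FF T K x j).1 ∈ D.V n ∧ (FF T K x j).2 = 0) ↔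
      ∃ a : ℤ, j = ((K + 1 : ℕ) : ℤ) * a ∧ (T ^ a : X ≃ₜ X) x ∈ D.V n := by
  constructor
  · rintro ⟨h1, h2⟩
    have h0 := Int.emod_nonneg j (show ((K + 1 : ℕ) : ℤ) ≠ 0 by omega)
    have h3 : (j % ((K + 1 : ℕ) : ℤ)).toNat = 0 := congrArg Fin.val h2
    refine ⟨j / ((K + 1 : ℕ) : ℤ), ?_, h1⟩
    have h4 := Int.mul_ediv_add_emod j ((K + 1 : ℕ) : ℤ)
    omega
  · rintro ⟨a, rfl, h⟩
    have h1 := FF_mul T K x a 0 (by omega)
    rw [Nat.cast_zero, add_zero] at h1
    rw [h1]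
    exact ⟨h, rfl⟩

open Classical in
/-- the tower data of the tower -/
def tower : TowerData (X × Fin (K + 1)) (TK T K) where
  h n := (K + 1) * D.h n
  q := D.q
  free n := (D.free n).image fun i => (K + 1) * i
  fidx := D.fidx
  V n := {y | y.1 ∈ D.V n ∧ y.2 = 0}
  ty y := if y.2 = 0 then D.ty y.1 else false
  z y := if y.2 = 0 then D.z y.1 else zQ
  frty n i := if i % (K + 1) = 0 then D.frty n (i / (K + 1)) else false
  frz n i := if i % (K + 1) = 0 then D.frz n (i / (K + 1)) else zQ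
  sty := D.sty
  δ := D.δ / (K + 1)
  δ_pos := div_pos D.δ_pos (by positivity)
  h_pos n := Nat.mul_pos (by omega) (D.h_pos n)
  h_succ n := by rw [D.h_succ]; ring
  free_lt n i hi := by
    obtain ⟨a, ha, rfl⟩ := Finset.mem_image.mp hi
    exact Nat.mul_lt_mul_of_pos_left (D.free_lt n a ha) (by omega)
  free_nonempty n := (D.free_nonempty n).image _
  density n := by
    rw [Finset.card_image_of_injective _ (fun a b h => Nat.eq_of_mul_eq_mul_left (by omega) h)]
    have := D.density n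
    push_cast
    calc D.δ / (K + 1) * ((K + 1) * (D.h n : ℝ)) = D.δ * D.h n := by field_simp
      _ ≤ _ := this
  fidx_lt := D.fidx_lt
  free_succ n i := by
    constructor
    · intro hi
      obtain ⟨a, ha, rfl⟩ := Finset.mem_image.mp hi
      have h1 := (D.free_succ n a).mp ha
      rw [Nat.mul_div_mul_left _ _ (by omega), Nat.mul_mod_mul_left]
      exact ⟨h1.1, Finset.mem_image.mpr ⟨_, h1.2, rfl⟩⟩
    · rintro ⟨h1, h2⟩
      obtain ⟨b, hb, hb'⟩ := Finset.mem_image.mp h2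
      have h3 := Nat.div_add_mod i ((K + 1) * D.h n)
      have h4 : i = (K + 1) * (D.h n * (i / ((K + 1) * D.h n)) + b) := by
        rw [mul_add, hb', ← mul_assoc]; exact h3.symm
      set a := D.h n * (i / ((K + 1) * D.h n)) + b with ha
      refine Finset.mem_image.mpr ⟨a, ?_, h4.symm⟩
      rw [h4, Nat.mul_div_mul_left _ _ (by omega)] at h1
      rw [h4, Nat.mul_mod_mul_left] at hb'
      have h5 := Nat.eq_of_mul_eq_mul_left (by omega) hb'
      rw [D.free_succ]
      exact ⟨h1, h5 ▸ hb⟩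
  even_fidx := D.even_fidx
  even_sty n s := by
    convert D.even_sty n s using 2
  continuous_ty := by
    rw [continuous_prod_of_discrete_right]
    intro p
    by_cases h : p = 0
    · simp only [h, if_true]; exact D.continuous_ty
    · simp only [h, if_false]; exact continuous_const
  continuous_z := by
    rw [continuous_prod_of_discrete_right]
    intro p
    by_cases h : p = 0
    · simp only [h, if_true]; exact D.continuous_z
    · simp only [h, if_false]; exact continuous_const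
  z_mem := by
    rintro ⟨x, p⟩
    by_cases h : p = 0
    · simp only [h, if_true]; exact D.z_mem x
    · simp only [h, if_false]; exact zQ_mem _
  isClopen_V n := by
    have h1 : {y : X × Fin (K + 1) | y.1 ∈ D.V n ∧ y.2 = 0} =
        (Prod.fst ⁻¹' D.V n) ∩ (Prod.snd ⁻¹' {0}) := by ext y; simp
    rw [h1]
    exact ((D.isClopen_V n).preimage continuous_fst).inter
      ((isClopen_discrete _).preimage continuous_snd)
  V_succ n y hy := ⟨D.V_succ n hy.1, hy.2⟩
  part := by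
    rintro n ⟨x, p⟩
    obtain ⟨a, ⟨ha, ha'⟩, hu⟩ := D.part n x
    have hiff : ∀ i : ℕ, (TK T K ^ (-(i : ℤ)) : _ ≃ₜ _) (x, p) ∈
        {y : X × Fin (K + 1) | y.1 ∈ D.V n ∧ y.2 = 0} ↔
        ∃ b : ℤ, -(i : ℤ) + (p : ℕ) = ((K + 1 : ℕ) : ℤ) * b ∧ (T ^ b : X ≃ₜ X) x ∈ D.V n := by
      intro i
      rw [Set.mem_ofPred_eq, zp_TK]
      exact dvd_iff K D x n _
    refine ⟨(K + 1) * a + p, ⟨?_, ?_⟩, ?_⟩
    · have hp := p.2
      calc (K + 1) * a + p < (K + 1) * a + (K + 1) := by omega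
        _ = (K + 1) * (a + 1) := by ring
        _ ≤ (K + 1) * D.h n := Nat.mul_le_mul_left _ (by omega)
    · rw [hiff]
      exact ⟨-(a : ℤ), by push_cast; ring, ha'⟩
    · rintro i ⟨hi, hi'⟩
      rw [hiff] at hi'
      obtain ⟨b, hb, hb'⟩ := hi'
      have hp := p.2
      have hb0 : b ≤ 0 := by
        by_contra hc
        push Not at hc
        have h1 : ((K + 1 : ℕ) : ℤ) * 1 ≤ ((K + 1 : ℕ) : ℤ) * b :=
          mul_le_mul_of_nonneg_left (by omega) (by omega)
        omega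
      obtain ⟨c, hc⟩ := Int.eq_ofNat_of_zero_le (show 0 ≤ -b by omega)
      have hbc : b = -(c : ℤ) := by rw [← hc]; ring
      rw [hbc] at hb hb'
      have hic : i = (K + 1) * c + p := by
        have : (i : ℤ) = ((K + 1 : ℕ) : ℤ) * c + (p : ℕ) := by linarith
        exact_mod_cast this
      have hch : c < D.h n := by
        rw [hic] at hi
        have : (K + 1) * c < (K + 1) * D.h n := by omega
        exact Nat.lt_of_mul_lt_mul_left this
      rw [hic, hu c ⟨hch, hb'⟩]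
  ret := by
    rintro n ⟨x, p⟩ ⟨hx, hp⟩
    simp only at hx hp
    subst hp
    rw [Set.mem_ofPred_eq, zp_TK_zero]
    rw [dvd_iff]
    exact ⟨D.h n, by push_cast; ring, D.ret n x hx⟩
  frozen := by
    rintro n ⟨x, p⟩ ⟨hx, hp⟩ i hi hi'
    simp only at hx hp
    subst hp
    rw [zp_TK_zero, FF_nat]
    by_cases h0 : i % (K + 1) = 0
    · have h1 : i = (K + 1) * (i / (K + 1)) := by
        have := Nat.div_add_mod i (K + 1)
        omega
      have h2 : i / (K + 1) ∉ D.free n := fun h => hi' (Finset.mem_image.mpr ⟨_, h, h1.symm⟩)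
      have h3 : i / (K + 1) < D.h n := by
        rw [h1] at hi
        exact Nat.lt_of_mul_lt_mul_left hi
      have h4 := D.frozen n x hx _ h3 h2
      have h5 : (⟨i % (K + 1), Nat.mod_lt _ (by omega)⟩ : Fin (K + 1)) = 0 := Fin.ext h0
      simp only [h0, if_true]
      exact h4
    · have h5 : (⟨i % (K + 1), Nat.mod_lt _ (by omega)⟩ : Fin (K + 1)) ≠ 0 := fun h =>
        h0 (congrArg Fin.val h)
      simp only [h5, h0, if_false]
      exact ⟨trivial, trivial⟩
  free_ty := by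
    rintro n ⟨x, p⟩ ⟨hx, hp⟩ i hi j hj
    simp only at hx hp
    subst hp
    obtain ⟨a, ha, rfl⟩ := Finset.mem_image.mp hi
    obtain ⟨b, hb, rfl⟩ := Finset.mem_image.mp hj
    rw [zp_TK_zero, zp_TK_zero, FF_nat, FF_nat]
    simp only [(nat_aux K a).1, (nat_aux K a).2, (nat_aux K b).1, (nat_aux K b).2]
    simp only [Fin.mk_zero', if_true]
    exact D.free_ty n x hx a ha b hb
  surj := by
    intro n s w hw
    obtain ⟨x, hx, h1⟩ := D.surj n s (fun i => w ((K + 1) * i)) (fun i hi => hw _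
      (Finset.mem_image.mpr ⟨i, hi, rfl⟩))
    refine ⟨(x, 0), ⟨hx, rfl⟩, fun i hi => ?_⟩
    obtain ⟨a, ha, rfl⟩ := Finset.mem_image.mp hi
    rw [zp_TK_zero, FF_nat]
    simp only [(nat_aux K a).1, (nat_aux K a).2]
    simp only [Fin.mk_zero', if_true]
    exact h1 a ha
  sty_spec := by
    rintro n ⟨x, p⟩ ⟨hx, hp⟩ j hj hj' i hi
    simp only at hx hp
    subst hp
    obtain ⟨a, ha, rfl⟩ := Finset.mem_image.mp hi
    have e : j * ((K + 1) * D.h n) + (K + 1) * a = (K + 1) * (j * D.h n + a) := by ring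
    rw [e, zp_TK_zero, FF_nat]
    simp only [(nat_aux K _).1, (nat_aux K _).2]
    simp only [Fin.mk_zero', if_true]
    exact D.sty_spec n x hx j hj hj' a ha
  sep := by
    rintro ⟨x, p⟩ ⟨y, r⟩ h1 h2
    -- the second coordinates agree
    have key : ∀ (x y : X) (p r : Fin (K + 1)),
        (∀ (n : ℕ) (i : ℤ), (TK T K ^ i : _ ≃ₜ _) (x, p) ∈
          {y : X × Fin (K + 1) | y.1 ∈ D.V n ∧ y.2 = 0} ↔
          (TK T K ^ i : _ ≃ₜ _) (y, r) ∈ {y : X × Fin (K + 1) | y.1 ∈ D.V n ∧ y.2 = 0}) →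
        p = r := by
      intro x y p r h
      obtain ⟨a, ⟨ha, ha'⟩, -⟩ := D.part 0 x
      have h3 := (h 0 (-(((K + 1) * a + p : ℕ) : ℤ))).mp (by
        rw [Set.mem_ofPred_eq, zp_TK, dvd_iff]
        exact ⟨-(a : ℤ), by push_cast; ring, ha'⟩)
      rw [Set.mem_ofPred_eq, zp_TK, dvd_iff] at h3
      obtain ⟨b, hb, -⟩ := h3
      have hp := p.2
      have hr := r.2
      have h4 : ((K + 1 : ℕ) : ℤ) ∣ ((r : ℕ) : ℤ) - (p : ℕ) :=
        ⟨b + a, by push_cast at hb ⊢; linarith⟩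
      have h5 := Int.eq_zero_of_abs_lt_dvd h4 (by rw [abs_lt]; omega)
      exact Fin.ext (by omega)
    have hpr := key x y p r h1
    subst hpr
    have hxy : x = y := by
      refine D.sep x y (fun n i => ?_) fun i => ?_
      · have h3 := h1 n (((K + 1 : ℕ) : ℤ) * i - (p : ℕ))
        rw [Set.mem_ofPred_eq, Set.mem_ofPred_eq, zp_TK, zp_TK, sub_add_cancel, dvd_iff, dvd_iff] at h3
        have hM : ((K + 1 : ℕ) : ℤ) ≠ 0 := by omega
        constructor
        · intro h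
          obtain ⟨a, ha, ha'⟩ := h3.mp ⟨i, rfl, h⟩
          rw [mul_left_cancel₀ hM ha]; exact ha'
        · intro h
          obtain ⟨a, ha, ha'⟩ := h3.mpr ⟨i, rfl, h⟩
          rw [mul_left_cancel₀ hM ha]; exact ha'
      · have h3 := h2 (((K + 1 : ℕ) : ℤ) * i - (p : ℕ))
        rw [zp_TK, zp_TK, sub_add_cancel] at h3
        have h4 := FF_mul T K x i 0 (by omega)
        have h5 := FF_mul T K y i 0 (by omega)
        rw [Nat.cast_zero, add_zero] at h4 h5
        rw [h4, h5] at h3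
        simpa using h3
    rw [hxy]
  h_tendsto := by
    refine tendsto_atTop_mono (fun n => ?_) D.h_tendsto
    exact Nat.le_mul_of_pos_left _ (by omega)

end Sys2

theorem sys2 : S_SYS2 := by
  intro X _ _ _ T K
  refine ⟨Sys2.TK T K, fun y => rfl, Sys2.minimal T K, fun D => ⟨Sys2.tower K D, fun n => rfl,
    fun n => ?_, fun n => rfl, fun n s => ?_⟩⟩
  · exact Finset.card_image_of_injective _ (fun a b h => Nat.eq_of_mul_eq_mul_left (by omega) h)
  · ext ⟨x, p⟩
    constructor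
    · rintro ⟨⟨hx, hp⟩, h⟩
      simp only at hx hp
      subst hp
      refine ⟨⟨hx, fun i hi => ?_⟩, rfl⟩
      have h1 := h ((K + 1) * i) (Finset.mem_image.mpr ⟨i, hi, rfl⟩)
      rw [Sys2.zp_TK_zero, Sys2.FF_nat] at h1
      simp only [(Sys2.nat_aux K _).1, (Sys2.nat_aux K _).2] at h1
      simpa [Sys2.tower] using h1
    · rintro ⟨⟨hx, h⟩, hp⟩
      simp only at hx hp h
      subst hp
      refine ⟨⟨hx, rfl⟩, fun i hi => ?_⟩
      obtain ⟨a, ha, rfl⟩ := Finset.mem_image.mp hi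
      rw [Sys2.zp_TK_zero, Sys2.FF_nat]
      simp only [(Sys2.nat_aux K _).1, (Sys2.nat_aux K _).2]
      simpa [Sys2.tower] using h a ha

end Run7.h745
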