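import Pool.Agent.Run7.h745.Basic

/-!
# Pieces SYS3a, SYS3b, SYS3c
-/

set_option autoImplicit false
set_option linter.unusedSectionVars false

noncomputable section

namespace Run7.h745

open Filter Topology

namespace TowerData
variable {X : Type} [TopologicalSpace X] {T : X ≃ₜ X} (D : TowerData X T)

/-- letters near the boundaries of blocks are frozen -/
lemma frozen_near (n : ℕ) (i : ℤ) (h1 : -(D.h n : ℤ) ≤ i) (h2 : i < D.h n) (x y : X)
    (hx : x ∈ D.V (n + 1)) (hy : y ∈ D.V (n + 1)) :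
    D.ty ((T ^ i : X ≃ₜ X) x) = D.ty ((T ^ i : X ≃ₜ X) y) ∧
      D.z ((T ^ i : X ≃ₜ X) x) = D.z ((T ^ i : X ≃ₜ X) y) := by
  have hle : D.h n ≤ D.h (n + 1) := D.h_mono (Nat.le_succ n)
  have hpos := D.h_pos n
  by_cases h0 : 0 ≤ i
  · obtain ⟨j, rfl⟩ := Int.eq_ofNat_of_zero_le h0
    have hj : j < D.h n := by exact_mod_cast h2
    have hx' := D.frozen (n + 1) x hx j (by omega) (D.not_free_of_lt hj)
    have hy' := D.frozen (n + 1) y hy j (by omega) (D.not_free_of_lt hj)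
    rw [hx'.1, hx'.2, hy'.1, hy'.2]
    exact ⟨rfl, rfl⟩
  · obtain ⟨j, hj⟩ := Int.eq_ofNat_of_zero_le (show 0 ≤ i + D.h (n + 1) by omega)
    have hj1 : j < D.h (n + 1) := by omega
    have hj2 : D.h (n + 1) ≤ j + D.h n := by omega
    have e : ∀ w : X, (T ^ i : X ≃ₜ X) w =
        (T ^ (j : ℤ) : X ≃ₜ X) ((T ^ (-(D.h (n + 1) : ℤ)) : X ≃ₜ X) w) := by
      intro w
      rw [← zp_add, ← hj]
      congr 2; ring
    have hx' := D.frozen (n + 1) _ (D.ret_neg _ x hx) j hj1 (D.not_free_of_ge hj2)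
    have hy' := D.frozen (n + 1) _ (D.ret_neg _ y hy) j hj1 (D.not_free_of_ge hj2)
    rw [e x, e y, hx'.1, hx'.2, hy'.1, hy'.2]
    exact ⟨rfl, rfl⟩

lemma exists_h_gt (i : ℤ) : ∃ n, ∀ m, n ≤ m → |i| < D.h m := by
  obtain ⟨n, hn⟩ := (tendsto_atTop.mp D.h_tendsto (i.natAbs + 1)).exists_forall_of_atTop
  exact ⟨n, fun m hm => by have := hn m hm; rw [Int.abs_eq_natAbs]; omega⟩

end TowerData

theorem sys3a : S_SYS3a := by
  intro X _ _ _ T D
  obtain ⟨x₀, hx₀⟩ := IsCompact.nonempty_iInter_of_sequence_nonempty_isCompact_isClosed D.V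
    D.V_succ (fun n => (D.VT_nonempty n true).mono (D.VT_sub n true))
    (D.isClopen_V 0).isClosed.isCompact fun n => (D.isClopen_V n).isClosed
  rw [Set.mem_iInter] at hx₀
  refine ⟨x₀, Set.eq_singleton_iff_unique_mem.mpr ⟨Set.mem_iInter.mpr hx₀, fun y hy => ?_⟩⟩
  rw [Set.mem_iInter] at hy
  refine D.sep y x₀ (fun n i => ?_) fun i => ?_
  · rw [D.mem_V_iff n i y (hy n), D.mem_V_iff n i x₀ (hx₀ n)]
  · obtain ⟨n, hn⟩ := D.exists_h_gt i
    have h1 := abs_lt.mp (hn n le_rfl)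
    exact D.frozen_near n i h1.1.le h1.2 y x₀ (hy _) (hx₀ _)

/-! ### SYS3b -/

namespace Sys3

variable {X : Type} [TopologicalSpace X] {T : X ≃ₜ X} (D : TowerData X T)

lemma isC_mul {n : ℕ} {f g : C(X, ℂ)} (hf : D.IsC n f) (hg : D.IsC n g) : D.IsC n (f * g) := by
  intro x hx y hy h i hi
  rw [ContinuousMap.mul_apply, ContinuousMap.mul_apply, hf x hx y hy h i hi, hg x hx y hy h i hi]

lemma isC_add {n : ℕ} {f g : C(X, ℂ)} (hf : D.IsC n f) (hg : D.IsC n g) : D.IsC n (f + g) := by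
  intro x hx y hy h i hi
  rw [ContinuousMap.add_apply, ContinuousMap.add_apply, hf x hx y hy h i hi, hg x hx y hy h i hi]

lemma isC_star {n : ℕ} {f : C(X, ℂ)} (hf : D.IsC n f) : D.IsC n (star f) := by
  intro x hx y hy h i hi
  rw [ContinuousMap.star_apply, ContinuousMap.star_apply, hf x hx y hy h i hi]

lemma isC_const {n : ℕ} (c : ℂ) : D.IsC n (algebraMap ℂ C(X, ℂ) c) := by
  intro x hx y hy h i hi
  rfl

lemma isP_mul {n : ℕ} {f g : C(X, ℂ)} (hf : D.IsP n f) (hg : D.IsP n g) : D.IsP n (f * g) := by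
  intro i hi
  obtain ⟨P, hP⟩ := hf i hi
  obtain ⟨Q, hQ⟩ := hg i hi
  refine ⟨P * Q, fun x hx ζ hζ => ?_⟩
  rw [ContinuousMap.mul_apply, hP x hx ζ hζ, hQ x hx ζ hζ, map_mul]

lemma isP_add {n : ℕ} {f g : C(X, ℂ)} (hf : D.IsP n f) (hg : D.IsP n g) : D.IsP n (f + g) := by
  intro i hi
  obtain ⟨P, hP⟩ := hf i hi
  obtain ⟨Q, hQ⟩ := hg i hi
  refine ⟨P + Q, fun x hx ζ hζ => ?_⟩
  rw [ContinuousMap.add_apply, hP x hx ζ hζ, hQ x hx ζ hζ, map_add]

lemma isP_const {n : ℕ} (c : ℂ) : D.IsP n (algebraMap ℂ C(X, ℂ) c) := by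
  intro i hi
  refine ⟨MvPolynomial.C c, fun x hx ζ hζ => ?_⟩
  rw [MvPolynomial.eval_C]; rfl

lemma eval_conj {σ : Type} (P : MvPolynomial σ ℂ) (ζ : σ → ℝ) :
    MvPolynomial.eval (fun p => (ζ p : ℂ)) (MvPolynomial.map (starRingEnd ℂ) P) =
      star (MvPolynomial.eval (fun p => (ζ p : ℂ)) P) := by
  induction P using MvPolynomial.induction_on with
  | C a => simp
  | add p q hp hq => rw [map_add, map_add, map_add, hp, hq, star_add]
  | mul_X p i hp => rw [map_mul, map_mul, map_mul, hp, star_mul]; simp [mul_comm]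

lemma isP_star {n : ℕ} {f : C(X, ℂ)} (hf : D.IsP n f) : D.IsP n (star f) := by
  intro i hi
  obtain ⟨P, hP⟩ := hf i hi
  refine ⟨MvPolynomial.map (starRingEnd ℂ) P, fun x hx ζ hζ => ?_⟩
  rw [ContinuousMap.star_apply, hP x hx ζ hζ]
  exact (eval_conj P (fun p => ζ p.1 p.2)).symm

/-- the star algebra of functions determined by blocks -/
def SA : StarSubalgebra ℂ C(X, ℂ) where
  carrier := {g | ∃ n₀, ∀ n, n₀ ≤ n → D.IsC n g ∧ D.IsP n g}
  mul_mem' := by
    rintro f g ⟨n, hn⟩ ⟨m, hm⟩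
    exact ⟨max n m, fun k hk => ⟨isC_mul D (hn k (le_trans (le_max_left _ _) hk)).1
      (hm k (le_trans (le_max_right _ _) hk)).1, isP_mul D (hn k (le_trans (le_max_left _ _) hk)).2
      (hm k (le_trans (le_max_right _ _) hk)).2⟩⟩
  add_mem' := by
    rintro f g ⟨n, hn⟩ ⟨m, hm⟩
    exact ⟨max n m, fun k hk => ⟨isC_add D (hn k (le_trans (le_max_left _ _) hk)).1
      (hm k (le_trans (le_max_right _ _) hk)).1, isP_add D (hn k (le_trans (le_max_left _ _) hk)).2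
      (hm k (le_trans (le_max_right _ _) hk)).2⟩⟩
  algebraMap_mem' c := ⟨0, fun n _ => ⟨isC_const D c, isP_const D c⟩⟩
  star_mem' := by
    rintro f ⟨n, hn⟩
    exact ⟨n, fun k hk => ⟨isC_star D (hn k hk).1, isP_star D (hn k hk).2⟩⟩

/-- functions which are constant on each level of each large tower -/
lemma mem_SA_const (g : C(X, ℂ)) (n₀ : ℕ)
    (h : ∀ n, n₀ ≤ n → ∀ i < D.h n, ∃ c : ℂ, ∀ x ∈ D.V n, g ((T ^ (i : ℤ) : X ≃ₜ X) x) = c) :
    g ∈ SA D := by
  refine ⟨n₀, fun n hn => ⟨fun x hx y hy _ i hi => ?_, fun i hi => ?_⟩⟩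
  · obtain ⟨c, hc⟩ := h n hn i hi
    rw [hc x hx, hc y hy]
  · obtain ⟨c, hc⟩ := h n hn i hi
    refine ⟨MvPolynomial.C c, fun x hx ζ _ => ?_⟩
    rw [MvPolynomial.eval_C, hc x hx.1]

lemma ind_mem_SA (l : ℕ) (i : ℤ) : cT T i (ind (D.V l)) ∈ SA D := by
  classical
  refine mem_SA_const D _ l fun n hn k hk =>
    ⟨if (D.h l : ℤ) ∣ i + k then 1 else 0, fun x hx => ?_⟩
  rw [cT_apply, ← zp_add, ind_apply (D.isClopen_V l)]
  simp only [D.mem_V_iff l (i + k) x (D.V_anti hn hx)]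

/-- functions of the letter at the position `i` -/
lemma letter_mem_SA (F : Bool × QQ → ℂ) (g : C(X, ℂ)) (hg : ∀ x, g x = F (D.ty x, D.z x))
    (P : MvPolynomial (Fin 5) ℂ)
    (hP : ∀ q ∈ QS false, ∀ ζ : Fin 5 → ℝ, (∀ a b : Fin 5, (q 1).1 a b = ζ a * ζ b) →
      F (false, q) = MvPolynomial.eval (fun a => (ζ a : ℂ)) P) (i : ℤ) :
    cT T i g ∈ SA D := by
  obtain ⟨n, hn⟩ := D.exists_h_gt i
  refine ⟨n + 1, fun N hN => ?_⟩
  obtain ⟨m, rfl⟩ : ∃ m, N = m + 1 := ⟨N - 1, by omega⟩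
  have hi := abs_lt.mp (hn m (by omega))
  have hle : D.h m ≤ D.h (m + 1) := D.h_mono (Nat.le_succ m)
  -- the value at `T^k x` of cT T i g is F of the letter at k + i
  have hval : ∀ x : X, ∀ k : ℤ, cT T i g ((T ^ k : X ≃ₜ X) x) =
      F (D.ty ((T ^ (i + k) : X ≃ₜ X) x), D.z ((T ^ (i + k) : X ≃ₜ X) x)) := by
    intro x k
    rw [cT_apply, ← zp_add, hg]
  -- trichotomy
  have key : ∀ k < D.h (m + 1), (∃ c : ℂ, ∀ x ∈ D.V (m + 1), cT T i g ((T ^ (k : ℤ) : X ≃ₜ X) x) = c) ∨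
      ∃ j ∈ D.free (m + 1), i + k = j := by
    intro k hk
    obtain ⟨x₀, hx₀⟩ := D.VT_nonempty (m + 1) true
    by_cases h1 : i + k < 0
    · refine Or.inl ⟨F (D.ty ((T ^ (i + k) : X ≃ₜ X) x₀), D.z ((T ^ (i + k) : X ≃ₜ X) x₀)),
        fun x hx => ?_⟩
      rw [hval, (D.frozen_near m (i + k) (by omega) (by omega) x x₀ hx hx₀.1).1,
        (D.frozen_near m (i + k) (by omega) (by omega) x x₀ hx hx₀.1).2]
    · by_cases h2 : i + k < D.h (m + 1)
      · obtain ⟨j, hj⟩ := Int.eq_ofNat_of_zero_le (not_lt.mp h1)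
        by_cases h3 : j ∈ D.free (m + 1)
        · exact Or.inr ⟨j, h3, hj⟩
        · refine Or.inl ⟨F (D.frty (m + 1) j, D.frz (m + 1) j), fun x hx => ?_⟩
          have h4 := D.frozen (m + 1) x hx j (by omega) h3
          rw [hval, hj]
          rw [← h4.1, ← h4.2]
      · refine Or.inl ⟨F (D.ty ((T ^ (i + k - D.h (m + 1)) : X ≃ₜ X) x₀),
          D.z ((T ^ (i + k - D.h (m + 1)) : X ≃ₜ X) x₀)), fun x hx => ?_⟩
        have h5 := D.ret (m + 1) x hx
        have h6 := D.frozen_near m (i + k - D.h (m + 1)) (by omega) (by omega) _ x₀ h5 hx₀.1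
        rw [← zp_add, sub_add_cancel] at h6
        rw [hval, h6.1, h6.2]
  constructor
  · intro x hx y hy hxy k hk
    rcases key k hk with ⟨c, hc⟩ | ⟨j, hj, hj'⟩
    · rw [hc x hx, hc y hy]
    · rw [hval, hval, hj', (hxy j hj).1, (hxy j hj).2]
  · intro k hk
    rcases key k hk with ⟨c, hc⟩ | ⟨j, hj, hj'⟩
    · refine ⟨MvPolynomial.C c, fun x hx ζ _ => ?_⟩
      rw [MvPolynomial.eval_C, hc x hx.1]
    · refine ⟨MvPolynomial.rename (fun a => (j, a)) P, fun x hx ζ hζ => ?_⟩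
      have h1 := hx.2 j hj
      have h2 := D.z_mem ((T ^ (j : ℤ) : X ≃ₜ X) x)
      rw [h1] at h2
      rw [hval, hj', h1, hP _ h2 (ζ j) (hζ j hj), MvPolynomial.eval_rename]
      rfl

/-- the indicator function of the type -/
def tyF : C(X, ℂ) := ⟨fun x => if D.ty x = true then 1 else 0, by
  have h1 : Continuous fun b : Bool => (if b = true then (1 : ℂ) else 0) := continuous_of_discreteTopology
  exact h1.comp D.continuous_ty⟩

/-- the entries of the letters -/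
def zF (m : ℕ) (a b : Fin (2 * (m + 1) + 1)) : C(X, ℂ) := ⟨fun x => (((D.z x m).1 a b : ℝ) : ℂ), by
  have h1 : Continuous fun x => (D.z x m).1 :=
    continuous_subtype_val.comp ((continuous_apply m).comp D.continuous_z)
  have h2 : Continuous fun x => (D.z x m).1 a b :=
    (continuous_apply b).comp ((continuous_apply a).comp h1)
  exact Complex.continuous_ofReal.comp h2⟩

lemma tyF_mem (i : ℤ) : cT T i (tyF D) ∈ SA D := by
  refine letter_mem_SA D (fun p => if p.1 = true then 1 else 0) (tyF D) (fun x => rfl) 0 ?_ i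
  intro q _ ζ _
  simp

lemma zF_mem (m : ℕ) (a b : Fin (2 * (m + 1) + 1)) (i : ℤ) : cT T i (zF D m a b) ∈ SA D := by
  by_cases hm : m = 1
  · subst hm
    refine letter_mem_SA D (fun p => (((p.2 1).1 a b : ℝ) : ℂ)) (zF D 1 a b) (fun x => rfl)
      (MvPolynomial.X a * MvPolynomial.X b) ?_ i
    intro q _ ζ hζ
    rw [map_mul, MvPolynomial.eval_X, MvPolynomial.eval_X]
    simp only
    rw [hζ a b]; push_cast; rfl
  · refine letter_mem_SA D (fun p => (((p.2 m).1 a b : ℝ) : ℂ)) (zF D m a b) (fun x => rfl) 0 ?_ i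
    intro q hq ζ _
    simp only
    rw [hq m hm a b]; simp

lemma SA_separates : (SA D).SeparatesPoints := by
  classical
  intro x y hxy
  by_contra hc
  push Not at hc
  have hc' : ∀ f ∈ SA D, f x = f y := fun f hf => hc f ⟨f, hf, rfl⟩
  apply hxy
  refine D.sep x y (fun n i => ?_) (fun i => ⟨?_, ?_⟩)
  · have h1 := hc' _ (ind_mem_SA D n i)
    rw [cT_apply, cT_apply, ind_apply (D.isClopen_V n), ind_apply (D.isClopen_V n)] at h1
    by_cases h2 : (T ^ i : X ≃ₜ X) x ∈ D.V n <;> by_cases h3 : (T ^ i : X ≃ₜ X) y ∈ D.V n <;>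
      simp [h2, h3] at h1 ⊢
  · have h1 := hc' _ (tyF_mem D i)
    rw [cT_apply, cT_apply] at h1
    simp only [tyF, ContinuousMap.coe_mk] at h1
    rcases h2 : D.ty ((T ^ i : X ≃ₜ X) x) with _ | _ <;>
      rcases h3 : D.ty ((T ^ i : X ≃ₜ X) y) with _ | _ <;> simp [h2, h3] at h1 ⊢
  · ext m a b
    have h1 := hc' _ (zF_mem D m a b i)
    rw [cT_apply, cT_apply] at h1
    simp only [zF, ContinuousMap.coe_mk] at h1
    exact_mod_cast h1

end Sys3

theorem sys3b : S_SYS3b := by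
  intro X _ _ _ T D f ε hε
  have h1 := ContinuousMap.starSubalgebra_topologicalClosure_eq_top_of_separatesPoints
    (Sys3.SA D) (Sys3.SA_separates D)
  have h2 : f ∈ (Sys3.SA D).topologicalClosure := by rw [h1]; trivial
  have h3 : f ∈ closure (Sys3.SA D : Set C(X, ℂ)) := h2
  obtain ⟨g, hg, hg'⟩ := Metric.mem_closure_iff.mp h3 ε hε
  obtain ⟨n₀, hn₀⟩ := hg
  exact ⟨n₀, g, by rwa [dist_eq_norm] at hg', hn₀⟩

/-! ### SYS3c -/

theorem sys3c : S_SYS3c := by
  intro X _ _ _ T D n s Y _ g hg hfac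
  classical
  -- the content map
  let c : D.VT n s → (D.free n → QS s) := fun x i =>
    ⟨D.z ((T ^ ((i : ℕ) : ℤ) : X ≃ₜ X) x.1), by
      have h := D.z_mem ((T ^ ((i : ℕ) : ℤ) : X ≃ₜ X) x.1)
      rwa [x.2.2 i.1 i.2] at h⟩
  have hc : Continuous c := by
    refine continuous_pi fun i => Continuous.subtype_mk ?_ _
    exact D.continuous_z.comp ((T ^ ((i : ℕ) : ℤ) : X ≃ₜ X).continuous.comp continuous_subtype_val)
  have hsurj : Function.Surjective c := by
    intro w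
    obtain ⟨x, hx, h⟩ := D.surj n s (fun i => if h : i ∈ D.free n then (w ⟨i, h⟩).1 else fun _ =>
      ⟨0, ⟨0, by simp, by simp⟩⟩) (by
        intro i hi
        simp only [hi, dif_pos]
        exact (w ⟨i, hi⟩).2)
    refine ⟨⟨x, hx, fun i hi => (h i hi).1⟩, ?_⟩
    funext i
    apply Subtype.ext
    show D.z ((T ^ ((i : ℕ) : ℤ) : X ≃ₜ X) x) = _
    rw [(h i.1 i.2).2, dif_pos i.2]
  have hcomp : CompactSpace (D.VT n s) :=
    isCompact_iff_compactSpace.mp (D.isClopen_VT n s).isClosed.isCompact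
  have hquot : IsQuotientMap c := hc.isClosedMap.isQuotientMap hc hsurj
  let g' : (D.free n → QS s) → Y := fun w => g (Classical.choose (hsurj w)).1
  have hg' : ∀ x : D.VT n s, g' (c x) = g x.1 := by
    intro x
    have h1 := Classical.choose_spec (hsurj (c x))
    refine hfac _ (Classical.choose (hsurj (c x))).2.1 _ x.2.1 fun i hi => ⟨?_, ?_⟩
    · rw [(Classical.choose (hsurj (c x))).2.2 i hi, x.2.2 i hi]
    · have h2 := congrFun h1 ⟨i, hi⟩
      exact congrArg Subtype.val h2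
  refine ⟨g', ?_, fun x hx w hw => ?_⟩
  · rw [hquot.continuous_iff]
    have : g' ∘ c = fun x => g x.1 := by funext x; exact hg' x
    rw [this]
    exact hg.comp continuous_subtype_val
  · have h1 : c ⟨x, hx⟩ = w := by
      funext i
      exact Subtype.ext (hw i)
    rw [← h1, hg']

end Run7.h745
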