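import Pool.Agent.Run7.h745.K1

/-!
# Piece ELL: `A` and `M_2(A)` have the same Elliott invariant
-/

set_option autoImplicit false
set_option linter.unusedSectionVars false

noncomputable section

namespace Run7.h745

open Filter Topology Matrix Pool.Agent.TH249

section
variable {A : Type} [CStarAlgebra A]

lemma TracialState.ext {σ τ : TracialState A} (h : ∀ a, σ.val a = τ.val a) : σ = τ := by
  cases σ; cases τ
  congr
  exact LinearMap.ext h

/-- `a ↦ a ⊗ 1` -/
def diagH (A : Type) [CStarAlgebra A] (k : ℕ) : A →⋆ₐ[ℂ] Mat k A where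
  toFun a := Mat.of (Matrix.diagonal fun _ => a)
  map_one' := by
    rw [show (Matrix.diagonal fun _ : Fin k => (1 : A)) = 1 from diagonal_one, map_one]
  map_mul' a b := by rw [← map_mul, diagonal_mul_diagonal]
  map_zero' := by rw [show (Matrix.diagonal fun _ : Fin k => (0 : A)) = 0 from diagonal_zero, map_zero]
  map_add' a b := by rw [← map_add, diagonal_add]
  commutes' c := by
    rw [Algebra.algebraMap_eq_smul_one, Algebra.algebraMap_eq_smul_one]
    rw [← map_one (Mat.of (k := k) (A := A)), ← map_smul]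
    congr 1
    ext i j
    by_cases h : i = j
    · subst h; simp
    · simp [diagonal_apply_ne _ h, Matrix.one_apply_ne h]
  map_star' a := by
    rw [← map_star]
    congr 1
    rw [star_eq_conjTranspose, diagonal_conjTranspose]
    rfl

lemma diagH_apply (k : ℕ) (a : A) : diagH A k a = Mat.of (Matrix.diagonal fun _ => a) := rfl

/-- matrix units -/
def mu (k : ℕ) (i j : Fin k) (a : A) : Mat k A := Mat.of (Matrix.single i j a)

lemma mu_mul {k : ℕ} (i j l m : Fin k) (a b : A) : mu k i j a * mu k l m b =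
    if j = l then mu k i m (a * b) else 0 := by
  unfold mu
  rw [← map_mul]
  by_cases h : j = l
  · subst h
    rw [if_pos rfl, single_mul_single_same]
  · rw [if_neg h, single_mul_single_of_ne _ _ _ _ h, map_zero]

lemma sum_mu {k : ℕ} (M : Mat k A) : M = ∑ i, ∑ j, mu k i j (Mat.of.symm M i j) := by
  have h := Matrix.matrix_eq_sum_single (Mat.of.symm M)
  have h2 := congrArg Mat.of h
  rw [StarAlgEquiv.apply_symm_apply] at h2
  rw [map_sum] at h2
  refine h2.trans ?_
  refine Finset.sum_congr rfl fun i _ => ?_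
  rw [map_sum]
  rfl

lemma TracialState.mu_ne {k : ℕ} (σ : TracialState (Mat k A)) {i j : Fin k} (h : i ≠ j) (a : A) :
    σ.val (mu k i j a) = 0 := by
  have h1 : mu k i j a = mu k i i 1 * mu k i j a := by rw [mu_mul, if_pos rfl, one_mul]
  rw [h1, σ.comm, mu_mul, if_neg (Ne.symm h), map_zero]

lemma TracialState.mu_eq {k : ℕ} (σ : TracialState (Mat k A)) (i j : Fin k) (a : A) :
    σ.val (mu k i i a) = σ.val (mu k j j a) := by
  have h1 : mu k i i a = mu k i j 1 * mu k j i a := by rw [mu_mul, if_pos rfl, one_mul]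
  rw [h1, σ.comm, mu_mul, if_pos rfl, mul_one]

lemma TracialState.eq_up (k : ℕ) (σ : TracialState (Mat (k + 1) A)) :
    (σ.comap (diagH A (k + 1))).up k = σ := by
  apply TracialState.ext
  intro M
  have hd : ∀ a : A, diagH A (k + 1) a = ∑ i, mu (k + 1) i i a := by
    intro a
    rw [diagH_apply, sum_mu (Mat.of _)]
    refine Finset.sum_congr rfl fun i _ => ?_
    rw [Finset.sum_eq_single i]
    · simp
    · intro j _ hj
      rw [StarAlgEquiv.symm_apply_apply, diagonal_apply_ne _ (Ne.symm hj)]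
      unfold mu
      simp
    · intro h; exact absurd (Finset.mem_univ _) h
  have h1 : ∀ a : A, σ.val (diagH A (k + 1) a) = ((k : ℂ) + 1) * σ.val (mu (k + 1) 0 0 a) := by
    intro a
    rw [hd, map_sum, Finset.sum_congr rfl fun i _ => σ.mu_eq i 0 a]
    simp
  rw [TracialState.up_val]
  simp only [TracialState.mat, TracialState.comap_val, h1]
  rw [← Finset.mul_sum, ← mul_assoc, inv_mul_cancel₀ (by exact_mod_cast Nat.succ_ne_zero k), one_mul]
  conv_rhs => rw [sum_mu M]
  rw [map_sum]
  refine Finset.sum_congr rfl fun i _ => ?_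
  rw [map_sum, Finset.sum_eq_single i, σ.mu_eq i 0]
  · intro j _ hj
    exact σ.mu_ne (Ne.symm hj) _
  · intro h; exact absurd (Finset.mem_univ _) h

lemma TracialState.up_comap (k : ℕ) (τ : TracialState A) :
    (τ.up k).comap (diagH A (k + 1)) = τ := by
  apply TracialState.ext
  intro a
  rw [TracialState.comap_val, TracialState.up_val, diagH_apply, StarAlgEquiv.symm_apply_apply]
  simp only [TracialState.mat, diagonal_apply_eq, Finset.sum_const, Finset.card_univ,
    Fintype.card_fin, nsmul_eq_mul]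
  push_cast
  rw [← mul_assoc, inv_mul_cancel₀ (by exact_mod_cast Nat.succ_ne_zero k), one_mul]

/-- the homeomorphism of the spaces of tracial states -/
def trH (A : Type) [CStarAlgebra A] (k : ℕ) :
    TracialState (Mat (k + 1) A) ≃ₜ TracialState A where
  toFun σ := σ.comap (diagH A (k + 1))
  invFun τ := τ.up k
  left_inv σ := TracialState.eq_up k σ
  right_inv τ := TracialState.up_comap k τ
  continuous_toFun := by
    rw [continuous_induced_rng]
    refine continuous_pi fun a => ?_
    exact (continuous_apply (diagH A (k + 1) a)).comp continuous_induced_dom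
  continuous_invFun := by
    rw [continuous_induced_rng]
    refine continuous_pi fun M => ?_
    have h : ∀ i : Fin (k + 1), Continuous fun τ : TracialState A => τ.val (Mat.of.symm M i i) :=
      fun i => (continuous_apply (Mat.of.symm M i i)).comp continuous_induced_dom
    exact continuous_const.mul (continuous_finsetSum _ fun i _ => h i)

lemma TracialState.vI_fl {k : ℕ} (τ : TracialState A) (P : Prj (Mat (k + 1) A)) :
    (τ.up k).onK0 (K0.cls P) = ((k : ℝ) + 1)⁻¹ * τ.onK0 (kapK A k (K0.cls P)) := by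
  rw [TracialState.onK0_cls, TracialState.up_mat]
  have h1 : kapK A k (K0.cls P) = K0.ofV A (vI (fl P.mat) (isPrj_fl P.isPrj)) :=
    kapK_ofV A k _
  have h2 : τ.onK0 (K0.ofV A (vI (fl P.mat) (isPrj_fl P.isPrj))) = (τ.mat (fl P.mat)).re := by
    have h3 := τ.onK0_cls ⟨Fintype.card (Fin P.n × Fin (k + 1)), (fl P.mat).submatrix
      (Fintype.equivFin _).symm (Fintype.equivFin _).symm, (isPrj_fl P.isPrj).submatrix _⟩
    refine h3.trans ?_
    show (τ.mat ((fl P.mat).submatrix _ _)).re = _
    rw [TracialState.mat_submatrix]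
  rw [h1, h2]
  have h3 : ((k : ℂ) + 1)⁻¹ = (((k : ℝ) + 1)⁻¹ : ℝ) := by push_cast; rfl
  rw [h3, Complex.re_ofReal_mul]

lemma TracialState.up_onK0 {k : ℕ} (τ : TracialState A) (x : K0 (Mat (k + 1) A)) :
    (τ.up k).onK0 x = ((k : ℝ) + 1)⁻¹ * τ.onK0 (kapK A k x) := by
  obtain ⟨P, Q, rfl⟩ := K0.exists_sub x
  rw [map_sub, map_sub, map_sub, TracialState.vI_fl, TracialState.vI_fl]
  ring

lemma fl_unit (k : ℕ) : fl (Matrix.of fun (_ _ : Fin 1) => (1 : Mat (k + 1) A)) =
    Matrix.diagonal fun _ : Fin 1 × Fin (k + 1) => (1 : A) := by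
  ext ⟨i, p⟩ ⟨j, q⟩
  have hij : i = j := Subsingleton.elim _ _
  subst hij
  show (Mat.of.symm (1 : Mat (k + 1) A)) p q = _
  rw [map_one]
  by_cases h : p = q
  · subst h; simp
  · rw [Matrix.one_apply_ne h, diagonal_apply_ne]
    intro h2; exact h (Prod.ext_iff.mp h2).2

lemma vI_fl_unit (k : ℕ) (h : IsPrj (fl (Matrix.of fun (_ _ : Fin 1) => (1 : Mat (k + 1) A)))) :
    vI (fl (Matrix.of fun (_ _ : Fin 1) => (1 : Mat (k + 1) A))) h =
      (k + 1) • v1 (1 : A) (IsStarProjection.one A) := by
  rw [vI_congr _ (isPrj_diagonal _ fun _ => IsStarProjection.one A) (fl_unit k), vI_diag]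
  refine (Finset.sum_const (v1 (1 : A) (IsStarProjection.one A))).trans ?_
  congr 1
  simp

lemma kapK_unit (k : ℕ) : kapK A k (K0.unit (Mat (k + 1) A)) = (k + 1) • K0.unit A := by
  unfold K0.unit K0.cls
  rw [kapK_ofV, ← map_nsmul]
  exact congrArg (K0.ofV A) (vI_fl_unit k (isPrj_fl (isPrj_of (1 : Mat (k + 1) A)
    (IsStarProjection.one _))))

theorem ell : S_ELL := by
  intro _ A _ hdiv htf hpos
  have hbij : Function.Bijective (nsmulAddMonoidHom (α := K0 A) 2) := by
    constructor
    · intro x y h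
      have h1 : 2 • (x - y) = 0 := by
        rw [smul_sub, sub_eq_zero]; exact h
      exact sub_eq_zero.mp (htf _ h1)
    · intro x
      obtain ⟨y, hy⟩ := hdiv x
      exact ⟨y, hy.symm⟩
  let dbl : K0 A ≃+ K0 A := AddEquiv.ofBijective (nsmulAddMonoidHom (α := K0 A) 2) hbij
  have hd : ∀ x, dbl x = 2 • x := fun x => rfl
  let K : K0 (Mat 2 A) ≃+ K0 A := kapK A 1
  refine ⟨dbl.trans K.symm, trH A 1, ?_, ?_, ?_, ?_, ?_⟩
  · intro x
    have h1 := kapK_pos A 1 (K.symm (dbl x))
    rw [show (dbl.trans K.symm) x = K.symm (dbl x) from rfl]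
    refine Iff.trans ?_ h1.symm
    rw [show kapK A 1 (K.symm (dbl x)) = dbl x from K.apply_symm_apply _, hd]
    constructor
    · intro h
      rw [mem_pos] at h ⊢
      obtain ⟨y, rfl⟩ := h
      exact ⟨2 • y, (map_nsmul _ _ _).symm⟩
    · exact hpos x
  · show K.symm (dbl (K0.unit A)) = _
    rw [AddEquiv.symm_apply_eq, hd]
    exact (kapK_unit (A := A) 1).symm
  · intro s σ τ ρ _ _ h x
    exact h _
  · intro τ x
    have h1 : ((trH A 1) τ).up 1 = τ := (trH A 1).left_inv τ
    have h2 := TracialState.up_onK0 (k := 1) ((trH A 1) τ) ((dbl.trans K.symm) x)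
    rw [h1] at h2
    rw [h2, show kapK A 1 ((dbl.trans K.symm) x) = dbl x from K.apply_symm_apply _, hd, map_nsmul]
    simp only [Nat.cast_one, nsmul_eq_mul, Nat.cast_ofNat]
    ring
  · exact ⟨K1 A, inferInstance, K1.cls, K1 A, inferInstance, fun U => K1.cls U.flat, isK1_cls A,
      isK1_flat A 1, ⟨MulEquiv.refl _⟩⟩

end

end Run7.h745
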