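import Pool.Agent.Run7.h745.Ua
import Pool.Agent.Run7.h745.Ell

/-!
# Piece U: the upper bound
-/

set_option autoImplicit false
set_option linter.unusedSectionVars false

noncomputable section

namespace Run7.h745

open Filter Topology Matrix Pool.Agent.TH249
open scoped InnerProductSpace

section lin
variable {A : Type} [CStarAlgebra A]

/-- the first `t` columns of the identity -/
def Ecol (k t : ℕ) (A : Type) [CStarAlgebra A] : Matrix (Fin k) (Fin t) A :=
  Matrix.of fun i j => if (i : ℕ) = j then 1 else 0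

lemma Ecol_conj {k t : ℕ} (h : t ≤ k) (d : Fin k → A) :
    (Ecol k t A)ᴴ * Matrix.diagonal d * Ecol k t A =
      Matrix.diagonal fun j : Fin t => d (Fin.castLE h j) := by
  ext a b
  rw [mul_apply, Finset.sum_eq_single (Fin.castLE h b)]
  · rw [mul_diagonal, conjTranspose_apply]
    simp only [Ecol, of_apply, Fin.val_castLE]
    by_cases hab : a = b
    · subst hab; simp
    · rw [diagonal_apply_ne _ hab, if_neg]
      · simp
      · intro h2; exact hab (Fin.ext h2.symm)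
  · intro i _ hi
    simp only [Ecol, of_apply]
    rw [if_neg, mul_zero]
    intro h2
    exact hi (Fin.ext h2)
  · intro h2; exact absurd (Finset.mem_univ _) h2

lemma rows_conj {k t : ℕ} (c : Matrix (Fin k) (Fin k) A) (e : Matrix (Fin t) (Fin t) A)
    (W : Matrix (Fin k) (Fin t) A) :
    (fromRows W (1 : Matrix (Fin t) (Fin t) A))ᴴ * fromBlocks c 0 0 e *
      fromRows W (1 : Matrix (Fin t) (Fin t) A) = Wᴴ * c * W + e := by
  rw [conjTranspose_fromRows_eq_fromCols_conjTranspose, fromCols_mul_fromBlocks,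
    fromCols_mul_fromRows]
  simp

lemma tr_star_mul_self (τ : TracialState A) {m n : ℕ} (Z : Matrix (Fin m) (Fin n) A) :
    0 ≤ (τ.mat (Zᴴ * Z)).re := by
  simp only [TracialState.mat, mul_apply, map_sum, conjTranspose_apply]
  rw [Complex.re_sum]
  refine Finset.sum_nonneg fun i _ => ?_
  rw [Complex.re_sum]
  exact Finset.sum_nonneg fun j _ => (τ.nonneg _).1

lemma diag_pos {t : ℕ} (p : A) (hp : IsStarProjection p) (r : ℝ) (hr : 0 ≤ r) :
    ∃ Y : Mat t A, Mat.of (Matrix.diagonal fun _ : Fin t => (r : ℂ) • p) = star Y * Y := by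
  refine ⟨Mat.of (Matrix.diagonal fun _ : Fin t => (Real.sqrt r : ℂ) • p), ?_⟩
  rw [← map_star, ← map_mul, star_eq_conjTranspose, diagonal_conjTranspose, diagonal_mul_diagonal]
  congr 2
  funext i
  show _ = star ((Real.sqrt r : ℂ) • p) * ((Real.sqrt r : ℂ) • p)
  rw [star_smul, hp.isSelfAdjoint.star_eq, smul_mul_smul_comm, hp.isIdempotentElem.eq,
    Complex.star_def, Complex.conj_ofReal, ← Complex.ofReal_mul, Real.mul_self_sqrt hr]

end lin

theorem hu : S_U := by
  classical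
  intro sys2 cp4 cp2 u0 X _ _ _ T D A _ ι u hA s3b s3c cp3 psi av g2 u1
  obtain ⟨π, hπ⟩ := cp2 X T A ι u hA
  obtain ⟨τ₀, hτ₀⟩ := u0 X T D A ι u π hA hπ av
  refine ⟨τ₀, ?_⟩
  rintro t k c ⟨y₁, hy₁⟩ ⟨y₂, hy₂⟩ hc ε hε
  have htk : (t : ℝ) + 4 ≤ k := by
    have h1 := hc τ₀
    have h2 : (τ₀.mat (1 - c)).re = k - (τ₀.mat c).re := by
      simp only [TracialState.mat, Matrix.sub_apply, map_sub, Finset.sum_sub_distrib,
        Matrix.one_apply_eq, τ₀.map_one, Complex.sub_re]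
      simp
    have h3 : 0 ≤ (τ₀.mat (1 - c)).re := by rw [hy₂]; exact tr_star_mul_self τ₀ y₂
    linarith
  obtain ⟨K, rfl⟩ : ∃ K, k = K + 1 := by
    refine ⟨k - 1, ?_⟩
    have h1 : (0 : ℝ) < k := by
      have := Nat.cast_nonneg (α := ℝ) t
      linarith
    have h2 : 0 < k := by exact_mod_cast h1
    omega
  have htK : t ≤ K + 1 := by
    have h1 : (t : ℝ) ≤ ((K + 1 : ℕ) : ℝ) := by linarith
    exact_mod_cast h1
  obtain ⟨T', hT', -, hD'⟩ := sys2 X T K
  have hTT : T' = Sys2.TK T K := by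
    ext y : 1
    rw [hT' y]
    rfl
  subst hTT
  obtain ⟨D', hh, hfree, hV, hVT⟩ := hD' D
  obtain ⟨ι', u', hA', hι'⟩ := cp4 X T A ι u K _ hA hT'
  obtain ⟨π', hπ'⟩ := cp2 _ _ _ ι' u' hA'
  have hKp : (0 : ℝ) < (K : ℝ) + 1 := by positivity
  let I : Finset ℕ := (Finset.range (D'.h 0)).filter fun i => i % (K + 1) < t
  have hIcard : I.card ≤ t * D.h 0 := by
    have h1 : I.card ≤ ((Finset.range t) ×ˢ (Finset.range (D.h 0))).card := by
      refine Finset.card_le_card_of_injOn (fun i => (i % (K + 1), i / (K + 1))) ?_ ?_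
      · intro i hi
        obtain ⟨h2, h3⟩ := Finset.mem_filter.mp hi
        rw [Finset.mem_range, hh] at h2
        simp only [Finset.coe_product, Finset.coe_range, Set.mem_prod, Set.mem_Iio]
        exact ⟨h3, Nat.div_lt_of_lt_mul h2⟩
      · intro i _ j _ hij
        simp only [Prod.mk.injEq] at hij
        rw [← Nat.div_add_mod i (K + 1), ← Nat.div_add_mod j (K + 1), hij.1, hij.2]
    rwa [Finset.card_product, Finset.card_range, Finset.card_range] at h1
  have hcast : ∀ n, (D'.h n : ℝ) = ((K : ℝ) + 1) * D.h n := by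
    intro n; rw [hh]; push_cast; rfl
  have hH0 : ∀ n, (0 : ℝ) < D.h n := fun n => by exact_mod_cast D.h_pos n
  have hρ : ∀ n, 3 * ((D'.free n).card : ℝ) ≤ 3 / ((K : ℝ) + 1) * D'.h n := by
    intro n
    rw [hcast, hfree]
    have h4 : D.free n ⊆ Finset.range (D.h n) := fun j hj => Finset.mem_range.mpr (D.free_lt n j hj)
    have h5 := Finset.card_le_card h4
    rw [Finset.card_range] at h5
    have h6 : ((D.free n).card : ℝ) ≤ D.h n := by exact_mod_cast h5
    have h7 : 3 / ((K : ℝ) + 1) * (((K : ℝ) + 1) * D.h n) = 3 * D.h n := by field_simp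
    rw [h7]; linarith
  have htr : ∀ τ' : TracialState (Mat (K + 1) A), (I.card : ℝ) / D'.h 0 + 3 / ((K : ℝ) + 1) +
      1 / ((K : ℝ) + 1) ≤ (τ'.val (Mat.of c)).re := by
    intro τ'
    have h1 := TracialState.eq_up K τ'
    rw [← h1, TracialState.up_val, StarAlgEquiv.symm_apply_apply]
    have h2 := hc (τ'.comap (diagH A (K + 1)))
    have h3 : ((K : ℂ) + 1)⁻¹ = (((K : ℝ) + 1)⁻¹ : ℝ) := by push_cast; rfl
    rw [h3, Complex.re_ofReal_mul]
    have h4 : (I.card : ℝ) / D'.h 0 ≤ t / ((K : ℝ) + 1) := by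
      rw [hcast, div_le_div_iff₀ (mul_pos hKp (hH0 0)) hKp]
      have h5 : (I.card : ℝ) ≤ t * D.h 0 := by exact_mod_cast hIcard
      nlinarith
    have h5 : ((K : ℝ) + 1)⁻¹ * (t + 4) ≤ ((K : ℝ) + 1)⁻¹ *
        ((τ'.comap (diagH A (K + 1))).mat c).re :=
      mul_le_mul_of_nonneg_left h2 (inv_nonneg.mpr hKp.le)
    refine le_trans ?_ h5
    have h6 : ((K : ℝ) + 1)⁻¹ * (t + 4) = t / ((K : ℝ) + 1) + 3 / ((K : ℝ) + 1) +
      1 / ((K : ℝ) + 1) := by field_simp; ring
    rw [h6]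
    linarith
  obtain ⟨n₀, hn₀⟩ := u1 _ _ D' _ ι' u' π' hA' hπ' s3b s3c cp3 psi av g2 (Mat.of c) 0 I
    (3 / ((K : ℝ) + 1)) (1 / ((K : ℝ) + 1))
    ⟨Mat.of y₁, by rw [← map_star, ← map_mul, star_eq_conjTranspose, hy₁]⟩
    ⟨Mat.of y₂, by rw [← map_star, ← map_mul, star_eq_conjTranspose, ← hy₂, map_sub, map_one]⟩
    (fun i hi => Finset.mem_range.mp (Finset.mem_filter.mp hi).1) hρ (by positivity) htr
  obtain ⟨n₁, hn₁⟩ := hτ₀ (ε / (t + 1)) (by positivity)
  obtain ⟨v', θ, χ', hθ, hχ', -, y', hy'⟩ := hn₀ (max n₀ n₁) (le_max_left _ _)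
  have hlow := hn₁ (max n₀ n₁) (le_max_right _ _)
  generalize max n₀ n₁ = n at hχ' hlow
  -- the function χ'
  have hχ : ∀ (x : X) (p : Fin (K + 1)), χ' (x, p) = if (p : ℕ) < t then D.chiT n false x else 0 := by
    intro x p
    rw [hχ']
    have e1 : (∃ i ∈ I, (Sys2.TK T K ^ (-(i : ℤ)) : _ ≃ₜ _) (x, p) ∈ D'.V 0) ↔ (p : ℕ) < t := by
      have h1 := Sys2.pos_iff T K x p (D.V 0) (D.h 0) (fun i => i % (K + 1) < t)
        (fun i => by simp)
      have h2 : (∃ i ∈ I, (Sys2.TK T K ^ (-(i : ℤ)) : _ ≃ₜ _) (x, p) ∈ D'.V 0) ↔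
          (∃ i, i < (K + 1) * D.h 0 ∧ i % (K + 1) < t ∧
            (Sys2.TK T K ^ (-(i : ℤ)) : _ ≃ₜ _) (x, p) ∈
            {y : X × Fin (K + 1) | y.1 ∈ D.V 0 ∧ y.2 = 0}) := by
        rw [hV]
        constructor
        · rintro ⟨i, hi, h⟩
          obtain ⟨h3, h4⟩ := Finset.mem_filter.mp hi
          rw [Finset.mem_range, hh] at h3
          exact ⟨i, h3, h4, h⟩
        · rintro ⟨i, h3, h4, h⟩
          refine ⟨i, Finset.mem_filter.mpr ⟨?_, h4⟩, h⟩
          rw [Finset.mem_range, hh]; exact h3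
      rw [h2, h1]
      simp only [Nat.mod_eq_of_lt p.2]
      obtain ⟨i₀, ⟨hi₀, hi₀'⟩, -⟩ := D.part 0 x
      exact ⟨fun h => h.1, fun h => ⟨h, i₀, hi₀, hi₀'⟩⟩
    have e2 : (∃ i < D'.h n, (Sys2.TK T K ^ (-(i : ℤ)) : _ ≃ₜ _) (x, p) ∈ D'.VT n false) ↔
        ∃ i < D.h n, (T ^ (-(i : ℤ)) : X ≃ₜ X) x ∈ D.VT n false := by
      have h1 := Sys2.pos_iff T K x p (D.VT n false) (D.h n) (fun _ => True) (fun i => Iff.rfl)
      have h2 : (∃ i < D'.h n, (Sys2.TK T K ^ (-(i : ℤ)) : _ ≃ₜ _) (x, p) ∈ D'.VT n false) ↔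
          (∃ i, i < (K + 1) * D.h n ∧ True ∧ (Sys2.TK T K ^ (-(i : ℤ)) : _ ≃ₜ _) (x, p) ∈
            {y : X × Fin (K + 1) | y.1 ∈ D.VT n false ∧ y.2 = 0}) := by
        rw [hVT, hh]
        simp only [true_and]
      rw [h2, h1]
      exact ⟨fun h => h.2, fun h => ⟨trivial, h⟩⟩
    rw [D.chiT_apply]
    by_cases hp : (p : ℕ) < t
    · rw [if_pos hp]
      by_cases hx : ∃ i < D.h n, (T ^ (-(i : ℤ)) : X ≃ₜ X) x ∈ D.VT n false
      · rw [if_pos ⟨e1.mpr hp, e2.mpr hx⟩, if_pos hx]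
      · rw [if_neg (fun h => hx (e2.mp h.2)), if_neg hx]
    · rw [if_neg (fun h => hp (e1.mp h.1)), if_neg hp]
  have hιχ : ι' χ' = Mat.of (Matrix.diagonal fun p : Fin (K + 1) =>
      if (p : ℕ) < t then ι (D.chiT n false) else 0) := by
    rw [hι']
    congr 2
    funext p
    by_cases hp : (p : ℕ) < t
    · rw [if_pos hp]
      congr 1
      ext x
      show χ' (x, p) = _
      rw [hχ, if_pos hp]
    · rw [if_neg hp, ← map_zero ι]
      congr 1
      ext x
      show χ' (x, p) = 0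
      rw [hχ, if_neg hp]
  let e : Matrix (Fin t) (Fin t) A := Matrix.diagonal fun _ => ι (D.chiT n true)
  have he : IsPrj e := isPrj_diagonal _ fun _ => D.isStarProjection_chiT ι n true
  let E : Matrix (Fin (K + 1)) (Fin t) A := Ecol (K + 1) t A
  let W : Matrix (Fin (K + 1)) (Fin t) A := Mat.of.symm v' * E
  let S : Mat t A := Mat.of (Wᴴ * c * W + e)
  -- S is bounded below
  have hS : ∃ Y : Mat t A, S - ((min θ 1 : ℝ) : ℂ) • (1 : Mat t A) = star Y * Y := by
    have h1 : Wᴴ * c * W = (θ : ℂ) • Matrix.diagonal (fun _ : Fin t => ι (D.chiT n false)) +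
        (Mat.of.symm y' * E)ᴴ * (Mat.of.symm y' * E) := by
      have h2 : (Mat.of.symm v')ᴴ * c * Mat.of.symm v' = (θ : ℂ) • Mat.of.symm (ι' χ') +
          (Mat.of.symm y')ᴴ * Mat.of.symm y' := by
        have h3 := congrArg Mat.of.symm hy'
        rw [map_sub, map_mul, map_mul, map_star, map_smul, map_mul, map_star,
          StarAlgEquiv.symm_apply_apply, star_eq_conjTranspose, star_eq_conjTranspose] at h3
        rw [← h3]; abel
      calc Wᴴ * c * W = Eᴴ * ((Mat.of.symm v')ᴴ * c * Mat.of.symm v') * E := by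
            show (Mat.of.symm v' * E)ᴴ * c * (Mat.of.symm v' * E) = _
            rw [conjTranspose_mul]; simp only [Matrix.mul_assoc]
        _ = (θ : ℂ) • (Eᴴ * Mat.of.symm (ι' χ') * E) +
            (Mat.of.symm y' * E)ᴴ * (Mat.of.symm y' * E) := by
            rw [h2, conjTranspose_mul, Matrix.mul_add, Matrix.add_mul, Matrix.mul_smul,
              Matrix.smul_mul]
            simp only [Matrix.mul_assoc]
        _ = _ := by
            rw [hιχ, StarAlgEquiv.symm_apply_apply, Ecol_conj htK]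
            congr 2
            ext a b
            simp
    obtain ⟨Y₁, hY₁⟩ := rect_pos (Mat.of.symm y' * E)
    obtain ⟨Y₂, hY₂⟩ := diag_pos (t := t) _ (D.isStarProjection_chiT ι n false) (θ - min θ 1)
      (sub_nonneg.mpr (min_le_left _ _))
    obtain ⟨Y₃, hY₃⟩ := diag_pos (t := t) _ (D.isStarProjection_chiT ι n true) (1 - min θ 1)
      (sub_nonneg.mpr (min_le_right _ _))
    obtain ⟨Y₄, hY₄⟩ := add_pos_factor Y₁ Y₂
    obtain ⟨Y₅, hY₅⟩ := add_pos_factor Y₄ Y₃
    refine ⟨Y₅, ?_⟩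
    rw [← hY₅, ← hY₄, ← hY₁, ← hY₂, ← hY₃]
    have h4 : (1 : Mat t A) = Mat.of (Matrix.diagonal fun _ : Fin t =>
        ι (D.chiT n false) + ι (D.chiT n true)) := by
      rw [← map_add, D.chiT_add, map_one, ← map_one Mat.of, ← diagonal_one]
    show Mat.of (Wᴴ * c * W + e) - ((min θ 1 : ℝ) : ℂ) • (1 : Mat t A) = _
    rw [h4, ← map_smul, ← map_sub, ← map_add Mat.of, ← map_add Mat.of]
    congr 1
    rw [h1]
    show (θ : ℂ) • Matrix.diagonal (fun _ : Fin t => ι (D.chiT n false)) +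
        (Mat.of.symm y' * E)ᴴ * (Mat.of.symm y' * E) + Matrix.diagonal (fun _ => ι (D.chiT n true)) -
        ((min θ 1 : ℝ) : ℂ) • Matrix.diagonal (fun _ : Fin t =>
          ι (D.chiT n false) + ι (D.chiT n true)) = _
    have h5 : ∀ (r : ℂ) (a : A), r • Matrix.diagonal (fun _ : Fin t => a) =
        Matrix.diagonal (fun _ : Fin t => r • a) := by
      intro r a
      ext i j
      by_cases hij : i = j
      · subst hij; simp
      · simp [diagonal_apply_ne _ hij]
    rw [h5, h5]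
    ext i j
    by_cases hij : i = j
    · subst hij
      simp only [Matrix.add_apply, Matrix.sub_apply, diagonal_apply_eq]
      push_cast
      simp only [sub_smul, smul_add, one_smul]
      abel
    · simp only [Matrix.add_apply, Matrix.sub_apply, diagonal_apply_ne _ hij]
      simp
  obtain ⟨Y, hY⟩ := hS
  obtain ⟨R, hR, hRS⟩ := normalize S Y (min θ 1) (lt_min hθ one_pos) hY
  refine ⟨t, e, fromRows W 1 * Mat.of.symm R, he, ?_, ?_⟩
  · have h1 : τ₀.mat e = t * ((D.h n : ℂ) * τ₀.val (ι (ind (D.VT n true)))) := by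
      rw [← tr_chiT D hA.cov]
      simp [TracialState.mat, e]
    have h2 : (t : ℂ) * ((D.h n : ℂ) * τ₀.val (ι (ind (D.VT n true)))) =
        ((t * D.h n : ℝ) : ℂ) * τ₀.val (ι (ind (D.VT n true))) := by push_cast; ring
    rw [h1, h2, Complex.re_ofReal_mul]
    have h3 : (0 : ℝ) ≤ D.h n * (τ₀.val (ι (ind (D.VT n true)))).re :=
      mul_nonneg (hH0 n).le (tr_ind_nonneg τ₀ (D.isClopen_VT n true))
    rw [lt_div_iff₀ (by positivity)] at hlow
    have h4 : (t : ℝ) * D.h n * (τ₀.val (ι (ind (D.VT n true)))).re ≤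
        D.h n * (τ₀.val (ι (ind (D.VT n true)))).re * (t + 1) := by nlinarith
    linarith
  · rw [conjTranspose_mul]
    have h1 : (Mat.of.symm R)ᴴ = Mat.of.symm R := by
      rw [← star_eq_conjTranspose, ← map_star, hR.star_eq]
    have h2 := rows_conj c e W
    generalize fromRows W (1 : Matrix (Fin t) (Fin t) A) = w at h2
    have h3 : Mat.of.symm S = Wᴴ * c * W + e := rfl
    have h4 := congrArg Mat.of.symm hRS
    rw [map_mul, map_mul, map_one, h3, ← h2] at h4
    rw [h1, ← h4]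
    simp only [Matrix.mul_assoc]

end Run7.h745
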