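import Pool.Agent.Run7.h745.Basic3
import Pool.Agent.Helper133.BUProd

/-!
# Piece OB, part 1: the Borsuk-Ulam input
-/

set_option autoImplicit false
set_option linter.unusedSectionVars false

noncomputable section

namespace Run7.h745

namespace OB

open Filter Topology Pool.Agent.Helper133.BU Pool.Agent.Helper133.BT

/-- squared length -/
def S2 (m : ℕ) (ζ : ℕ → ℝ) : ℝ := ∑ c ∈ Finset.range (2 * (m + 1) + 1), ζ c ^ 2

lemma S2_nonneg (m : ℕ) (ζ : ℕ → ℝ) : 0 ≤ S2 m ζ := Finset.sum_nonneg fun _ _ => sq_nonneg _

lemma S2_neg (m : ℕ) (ζ : ℕ → ℝ) : S2 m (fun a => -ζ a) = S2 m ζ := by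
  unfold S2
  exact Finset.sum_congr rfl fun c _ => neg_sq _

/-- the letter with component `m` equal to `ζ ζᵀ / |ζ|²` -/
def letter (m : ℕ) (ζ : ℕ → ℝ) : QQ := fun m' =>
  ⟨fun a b => if m' = m then ζ a * ζ b / S2 m ζ else 0, by
    by_cases h : m' = m
    · subst h
      refine ⟨fun a => ζ a / Real.sqrt (S2 m' ζ), ?_, fun i j => ?_⟩
      · have h1 : ∀ i : Fin (2 * (m' + 1) + 1), (ζ i / Real.sqrt (S2 m' ζ)) ^ 2 =
            ζ i ^ 2 / S2 m' ζ := by
          intro i
          rw [div_pow, Real.sq_sqrt (S2_nonneg _ _)]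
        simp only [h1]
        rw [← Finset.sum_div]
        have h2 : ∑ i : Fin (2 * (m' + 1) + 1), ζ i ^ 2 = S2 m' ζ := by
          rw [S2, Finset.sum_range]
        rw [h2]
        exact div_self_le_one _
      · simp only [if_true]
        rw [div_mul_div_comm, Real.mul_self_sqrt (S2_nonneg _ _)]
    · exact ⟨0, by simp, fun i j => by simp [h]⟩⟩

lemma letter_neg (m : ℕ) (ζ : ℕ → ℝ) : letter m (fun a => -ζ a) = letter m ζ := by
  funext m'
  apply Subtype.ext
  funext a b
  simp only [letter, S2_neg, neg_mul_neg]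

lemma letter_mem {m : ℕ} {s : Bool} (hs : s = true ∨ m = 1) (ζ : ℕ → ℝ) : letter m ζ ∈ QS s := by
  cases s
  · have hm : m = 1 := by simpa using hs
    intro m' hm' i j
    simp only [letter]
    rw [if_neg (by rw [hm]; exact hm')]
  · exact Set.mem_univ _

/-- the content made of the letters of `ζ i` -/
def cont {m : ℕ} {s : Bool} (hs : s = true ∨ m = 1) (F : Finset ℕ) (ζ : ℕ → ℕ → ℝ) : F → QS s :=
  fun i => ⟨letter m (ζ i), letter_mem hs _⟩

/-! ### Parametrisation -/

/-- dimensions -/
def nn (m E : ℕ) : ℕ → ℕ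
  | 0 => max 1 (2 * E)
  | _ + 1 => 2 * (m + 1)

/-- the vector `ζ i` -/
def zt (m E : ℕ) (v : Om (nn m E)) (i a : ℕ) : ℝ :=
  if h : a < 2 * (m + 1) + 1 then v (i + 1) ⟨a, h⟩ else 0

/-- extension by zero of the block `0` -/
def ez (m E : ℕ) (v : Om (nn m E)) (k : ℕ) : ℝ :=
  if h : k < nn m E 0 + 1 then v 0 ⟨k, h⟩ else 0

/-- the coefficients -/
def cc (m E : ℕ) (v : Om (nn m E)) (a : ℕ) : ℂ := ⟨ez m E v (2 * a), ez m E v (2 * a + 1)⟩

section
variable {m E : ℕ}

lemma ez_flp_zero (v : Om (nn m E)) (k : ℕ) : ez m E (flp _ 0 v) k = - ez m E v k := by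
  unfold ez flp
  by_cases h : k < nn m E 0 + 1
  · rw [dif_pos h, dif_pos h, Function.update_self]; rfl
  · rw [dif_neg h, dif_neg h, neg_zero]

lemma ez_flp_succ (v : Om (nn m E)) (j k : ℕ) : ez m E (flp _ (j + 1) v) k = ez m E v k := by
  unfold ez flp
  by_cases h : k < nn m E 0 + 1
  · rw [dif_pos h, dif_pos h, Function.update_of_ne (by omega)]
  · rw [dif_neg h, dif_neg h]

lemma cc_flp_zero (v : Om (nn m E)) (a : ℕ) : cc m E (flp _ 0 v) a = - cc m E v a := by
  unfold cc
  rw [ez_flp_zero, ez_flp_zero]; rfl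

lemma cc_flp_succ (v : Om (nn m E)) (j a : ℕ) : cc m E (flp _ (j + 1) v) a = cc m E v a := by
  unfold cc
  rw [ez_flp_succ, ez_flp_succ]

lemma zt_flp_zero (v : Om (nn m E)) (i a : ℕ) : zt m E (flp _ 0 v) i a = zt m E v i a := by
  unfold zt flp
  by_cases h : a < 2 * (m + 1) + 1
  · rw [dif_pos h, dif_pos h, Function.update_of_ne (by omega)]
  · rw [dif_neg h, dif_neg h]

lemma zt_flp_self (v : Om (nn m E)) (i a : ℕ) : zt m E (flp _ (i + 1) v) i a = - zt m E v i a := by
  unfold zt flp
  by_cases h : a < 2 * (m + 1) + 1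
  · rw [dif_pos h, dif_pos h, Function.update_self]; rfl
  · rw [dif_neg h, dif_neg h, neg_zero]

lemma zt_flp_ne (v : Om (nn m E)) (i j a : ℕ) (hij : i ≠ j) :
    zt m E (flp _ (j + 1) v) i a = zt m E v i a := by
  unfold zt flp
  by_cases h : a < 2 * (m + 1) + 1
  · rw [dif_pos h, dif_pos h, Function.update_of_ne (by omega)]
  · rw [dif_neg h, dif_neg h]

lemma S2_ne {v : Om (nn m E)} (hv : v ∈ PP (nn m E)) (i : ℕ) : S2 m (zt m E v i) ≠ 0 := by
  intro h0
  have h1 : ∀ c ∈ Finset.range (2 * (m + 1) + 1), zt m E v i c ^ 2 = 0 :=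
    (Finset.sum_eq_zero_iff_of_nonneg fun _ _ => sq_nonneg _).mp h0
  have h2 : ∑ a : Fin (nn m E (i + 1) + 1), |v (i + 1) a| = 1 := hv (i + 1)
  have h3 : ∀ a : Fin (nn m E (i + 1) + 1), |v (i + 1) a| = 0 := by
    intro a
    have ha : (a : ℕ) < 2 * (m + 1) + 1 := a.2
    have h4 := h1 a (Finset.mem_range.mpr ha)
    have h5 : zt m E v i a = v (i + 1) a := by
      unfold zt
      rw [dif_pos ha]
    rw [h5] at h4
    rw [abs_eq_zero]
    exact pow_eq_zero_iff (two_ne_zero) |>.mp h4
  rw [Finset.sum_eq_zero fun a _ => h3 a] at h2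
  exact zero_ne_one h2

variable {s : Bool} (hs : s = true ∨ m = 1) (F : Finset ℕ)

lemma cont_flp_zero (v : Om (nn m E)) : cont hs F (zt m E (flp _ 0 v)) = cont hs F (zt m E v) := by
  funext i
  apply Subtype.ext
  have h : zt m E (flp _ 0 v) (i : ℕ) = zt m E v (i : ℕ) := funext fun a => zt_flp_zero v i a
  show letter m (zt m E (flp _ 0 v) (i : ℕ)) = letter m (zt m E v (i : ℕ))
  rw [h]

lemma cont_flp_succ (v : Om (nn m E)) (j : ℕ) :
    cont hs F (zt m E (flp _ (j + 1) v)) = cont hs F (zt m E v) := by
  funext i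
  apply Subtype.ext
  show letter m _ = letter m _
  by_cases h : (i : ℕ) = j
  · have h1 : zt m E (flp _ (j + 1) v) (i : ℕ) = fun a => - zt m E v (i : ℕ) a := by
      funext a
      rw [← h]
      exact zt_flp_self v i a
    rw [h1, letter_neg]
  · congr 1
    funext a
    exact zt_flp_ne v i j a h

lemma continuous_zt (i a : ℕ) : Continuous fun v : Om (nn m E) => zt m E v i a := by
  unfold zt
  by_cases h : a < 2 * (m + 1) + 1
  · simp only [h, dif_pos]
    exact (continuous_apply (⟨a, h⟩ : Fin (nn m E (i + 1) + 1))).comp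
      (continuous_apply (A := fun i => Fin (nn m E i + 1) → ℝ) (i + 1))
  · simp only [h, dif_neg, not_false_iff]
    exact continuous_const

lemma continuous_ez (k : ℕ) : Continuous fun v : Om (nn m E) => ez m E v k := by
  unfold ez
  by_cases h : k < nn m E 0 + 1
  · simp only [h, dif_pos]
    exact (continuous_apply (⟨k, h⟩ : Fin (nn m E 0 + 1))).comp
      (continuous_apply (A := fun i => Fin (nn m E i + 1) → ℝ) 0)
  · simp only [h, dif_neg, not_false_iff]
    exact continuous_const

lemma continuous_cc (a : ℕ) : Continuous fun v : Om (nn m E) => cc m E v a := by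
  have h : (fun v : Om (nn m E) => cc m E v a) =
      fun v => ((ez m E v (2 * a) : ℝ) : ℂ) + ((ez m E v (2 * a + 1) : ℝ) : ℂ) * Complex.I := by
    funext v
    exact (Complex.mk_eq_add_mul_I _ _)
  rw [h]
  exact (Complex.continuous_ofReal.comp (continuous_ez _)).add
    ((Complex.continuous_ofReal.comp (continuous_ez _)).mul continuous_const)

lemma continuousOn_cont : ContinuousOn (fun v : Om (nn m E) => cont hs F (zt m E v))
    (PP (nn m E)) := by
  rw [continuousOn_pi]
  intro i
  rw [continuousOn_iff_continuous_domRestrict]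
  refine Continuous.subtype_mk ?_ _
  refine continuous_pi fun m' => Continuous.subtype_mk ?_ _
  refine continuous_pi fun a => continuous_pi fun b => ?_
  by_cases h : m' = m
  · simp only [h, if_true]
    refine Continuous.div ?_ ?_ ?_
    · exact ((continuous_zt i a).comp continuous_subtype_val).mul
        ((continuous_zt i b).comp continuous_subtype_val)
    · unfold S2
      exact continuous_finsetSum _ fun c _ =>
        ((continuous_zt i c).comp continuous_subtype_val).pow 2
    · intro v
      exact S2_ne v.2 i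
  · simp only [h, if_false]
    exact continuous_const

end

/-- **Borsuk-Ulam input.** -/
lemma bu {m : ℕ} {s : Bool} (hs : s = true ∨ m = 1) (F : Finset ℕ) (Nξ : ℕ) {I : Type}
    (E : Finset I) (hE : E.card < Nξ) (G : I → ℕ → (F → QS s) → ℂ)
    (hG : ∀ e a, Continuous (G e a)) (J : ℕ → Fin (2 * (m + 1) + 1) → Fin (m + 1) → I) :
    ∃ (ζ : ℕ → ℕ → ℝ) (c : ℕ → ℂ), (∀ i, S2 m (ζ i) ≠ 0) ∧ (∃ a < Nξ, c a ≠ 0) ∧
      (∀ e ∈ E, ∑ a ∈ Finset.range Nξ, c a * G e a (cont hs F ζ) = 0) ∧
      ∀ i ∈ F, ∀ p, ∑ b : Fin (2 * (m + 1) + 1), (ζ i b : ℂ) *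
        ∑ a ∈ Finset.range Nξ, c a * G (J i b p) a (cont hs F ζ) = 0 := by
  classical
  set e := E.card with he
  -- the complex functionals
  let Φ : I → Om (nn m e) → ℂ := fun x v =>
    ∑ a ∈ Finset.range Nξ, cc m e v a * G x a (cont hs F (zt m e v))
  let Ψ : ℕ → Fin (m + 1) → Om (nn m e) → ℂ := fun i p v =>
    ∑ b : Fin (2 * (m + 1) + 1), (zt m e v i b : ℂ) * Φ (J i b p) v
  have hΦc : ∀ x, ContinuousOn (Φ x) (PP (nn m e)) := by
    intro x
    refine continuousOn_finsetSum _ fun a _ => ?_
    exact (continuous_cc a).continuousOn.mul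
      ((hG x a).comp_continuousOn (continuousOn_cont hs F))
  have hΨc : ∀ i p, ContinuousOn (Ψ i p) (PP (nn m e)) := by
    intro i p
    refine continuousOn_finsetSum _ fun b _ => ?_
    exact (Complex.continuous_ofReal.comp (continuous_zt i b)).continuousOn.mul (hΦc _)
  have hΦ0 : ∀ x v, Φ x (flp _ 0 v) = - Φ x v := by
    intro x v
    simp only [Φ, cc_flp_zero, cont_flp_zero, neg_mul, Finset.sum_neg_distrib]
  have hΦs : ∀ x v j, Φ x (flp _ (j + 1) v) = Φ x v := by
    intro x v j
    simp only [Φ, cc_flp_succ, cont_flp_succ]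
  have hΨ0 : ∀ i p v, Ψ i p (flp _ 0 v) = - Ψ i p v := by
    intro i p v
    simp only [Ψ, zt_flp_zero, hΦ0, mul_neg, Finset.sum_neg_distrib]
  have hΨi : ∀ i p v, Ψ i p (flp _ (i + 1) v) = - Ψ i p v := by
    intro i p v
    simp only [Ψ, zt_flp_self, hΦs]
    push_cast
    simp only [neg_mul, Finset.sum_neg_distrib]
  have hΨs : ∀ i p v j, i ≠ j → Ψ i p (flp _ (j + 1) v) = Ψ i p v := by
    intro i p v j hij
    simp only [Ψ, hΦs]
    refine Finset.sum_congr rfl fun b _ => ?_
    rw [zt_flp_ne v i j b hij]
  -- real and imaginary parts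
  let RI : ℕ → ℂ → ℝ := fun r z => if r % 2 = 0 then z.re else z.im
  have hRIc : ∀ r, Continuous (RI r) := by
    intro r
    by_cases h : r % 2 = 0
    · simp only [RI, h, if_true]; exact Complex.continuous_re
    · simp only [RI, h, if_false]; exact Complex.continuous_im
  have hRIn : ∀ r z, RI r (-z) = - RI r z := by
    intro r z
    simp only [RI]
    split_ifs <;> simp
  let f : ℕ → ℕ → Om (nn m e) → ℝ := fun i r v =>
    match i with
    | 0 => if h : r / 2 < e then RI r (Φ (E.equivFin.symm ⟨r / 2, h⟩).1 v) else 0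
    | i + 1 => if i ∈ F then (if h : r / 2 < m + 1 then RI r (Ψ i ⟨r / 2, h⟩ v) else 0)
        else zt m e v i r
  let p : ℕ → ℕ → ℕ → ZMod 2 := fun i r k =>
    if k = i then 1 else if k = 0 ∧ i - 1 ∈ F ∧ 0 < i then 1 else 0
  have hn : ∀ i, 1 ≤ nn m e i := by
    intro i
    cases i with
    | zero => exact le_max_left _ _
    | succ i => show 1 ≤ 2 * (m + 1); omega
  obtain ⟨v, hv, hzero⟩ := triangular (nn m e) hn ((F.sup id) + 2) p
    (fun i r => by simp [p])
    (fun i r k hik => by
      simp only [p]
      rw [if_neg (by omega), if_neg (by omega)])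
    f
    (by
      intro i r
      cases i with
      | zero =>
        simp only [f]
        by_cases h : r / 2 < e
        · simp only [h, dif_pos]
          exact (hRIc r).comp_continuousOn (hΦc _)
        · simp only [h, dif_neg, not_false_iff]
          exact continuousOn_const
      | succ i =>
        simp only [f]
        by_cases hF : i ∈ F
        · simp only [hF, if_true]
          by_cases h : r / 2 < m + 1
          · simp only [h, dif_pos]
            exact (hRIc r).comp_continuousOn (hΨc _ _)
          · simp only [h, dif_neg, not_false_iff]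
            exact continuousOn_const
        · simp only [hF, if_false]
          exact (continuous_zt i r).continuousOn)
    (by
      intro i hi r hr k hk v hv
      cases i with
      | zero =>
        cases k with
        | zero =>
          have hp : p 0 r 0 = 1 := by simp [p]
          rw [hp]
          simp only [f, sgn]
          rw [if_neg (by decide)]
          split_ifs with h
          · rw [hΦ0, hRIn]; ring
          · ring
        | succ k =>
          have hp : p 0 r (k + 1) = 0 := by simp [p]
          rw [hp]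
          simp only [f, sgn, if_true]
          split_ifs with h
          · rw [hΦs]; ring
          · ring
      | succ i =>
        by_cases hF : i ∈ F
        · cases k with
          | zero =>
            have hp : p (i + 1) r 0 = 1 := by simp [p, hF]
            rw [hp]
            simp only [f, sgn, hF, if_true]
            rw [if_neg (by decide)]
            split_ifs with h
            · rw [hΨ0, hRIn]; ring
            · ring
          | succ k =>
            by_cases hki : i = k
            · subst hki
              have hp : p (i + 1) r (i + 1) = 1 := by simp [p]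
              rw [hp]
              simp only [f, sgn, hF, if_true]
              rw [if_neg (by decide)]
              split_ifs with h
              · rw [hΨi, hRIn]; ring
              · ring
            · have hp : p (i + 1) r (k + 1) = 0 := by
                simp only [p]
                rw [if_neg (by omega), if_neg (by omega)]
              rw [hp]
              simp only [f, sgn, hF, if_true]
              split_ifs with h
              · rw [hΨs _ _ _ _ hki]; ring
              · ring
        · cases k with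
          | zero =>
            have hp : p (i + 1) r 0 = 0 := by simp [p, hF]
            rw [hp]
            simp only [f, sgn, hF, if_true, if_false]
            rw [zt_flp_zero]; ring
          | succ k =>
            by_cases hki : i = k
            · subst hki
              have hp : p (i + 1) r (i + 1) = 1 := by simp [p]
              rw [hp]
              simp only [f, sgn, hF, if_false]
              rw [if_neg (by decide), zt_flp_self]; ring
            · have hp : p (i + 1) r (k + 1) = 0 := by
                simp only [p]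
                rw [if_neg (by omega), if_neg (by omega)]
              rw [hp]
              simp only [f, sgn, hF, if_true, if_false]
              rw [zt_flp_ne _ _ _ _ hki]; ring)
  refine ⟨zt m e v, cc m e v, S2_ne hv, ?_, ?_, ?_⟩
  · -- a nonzero coefficient
    have h2 : ∑ a : Fin (nn m e 0 + 1), |v 0 a| = 1 := hv 0
    obtain ⟨k, hk⟩ : ∃ k : Fin (nn m e 0 + 1), v 0 k ≠ 0 := by
      by_contra hc
      push Not at hc
      simp [hc] at h2
    have hkl := k.2
    have hnn : nn m e 0 = max 1 (2 * e) := rfl
    have hk2 : (k : ℕ) < 2 * Nξ := by omega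
    refine ⟨(k : ℕ) / 2, by omega, fun h0 => hk ?_⟩
    have hez : ez m e v k = v 0 k := by
      unfold ez
      rw [dif_pos k.2]
    rcases Nat.mod_two_eq_zero_or_one (k : ℕ) with h3 | h3
    · have h4 : 2 * ((k : ℕ) / 2) = k := by omega
      have h5 : (cc m e v ((k : ℕ) / 2)).re = ez m e v (2 * ((k : ℕ) / 2)) := rfl
      rw [h0, h4, hez] at h5
      exact h5.symm
    · have h4 : 2 * ((k : ℕ) / 2) + 1 = k := by omega
      have h5 : (cc m e v ((k : ℕ) / 2)).im = ez m e v (2 * ((k : ℕ) / 2) + 1) := rfl
      rw [h0, h4, hez] at h5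
      exact h5.symm
  · intro x hx
    set j := E.equivFin ⟨x, hx⟩ with hj
    have hjl : (j : ℕ) < e := j.2
    have hnn : nn m e 0 = max 1 (2 * e) := rfl
    have h1 := hzero 0 (by omega) (2 * j) (by rw [hnn]; omega)
    have h2 := hzero 0 (by omega) (2 * j + 1) (by rw [hnn]; omega)
    have e1 : (2 * (j : ℕ)) / 2 = j := by omega
    have e2 : (2 * (j : ℕ) + 1) / 2 = j := by omega
    simp only [f, e1, e2, hjl, dif_pos] at h1 h2
    have hx' : (E.equivFin.symm ⟨(j : ℕ), hjl⟩).1 = x := by
      have : (⟨(j : ℕ), hjl⟩ : Fin E.card) = E.equivFin ⟨x, hx⟩ := rfl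
      rw [this, Equiv.symm_apply_apply]
    rw [hx'] at h1 h2
    simp only [RI] at h1 h2
    rw [if_pos (by omega)] at h1
    rw [if_neg (by omega)] at h2
    exact Complex.ext h1 h2
  · intro i hi q
    have hil : i ≤ F.sup id := Finset.le_sup (f := id) hi
    have hq := q.2
    have h1 := hzero (i + 1) (by omega) (2 * q) (by show _ < 2 * (m + 1); omega)
    have h2 := hzero (i + 1) (by omega) (2 * q + 1) (by show _ < 2 * (m + 1); omega)
    have e1 : (2 * (q : ℕ)) / 2 = q := by omega
    have e2 : (2 * (q : ℕ) + 1) / 2 = q := by omega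
    simp only [f, hi, if_true, e1, e2, hq, dif_pos] at h1 h2
    simp only [RI] at h1 h2
    rw [if_pos (by omega)] at h1
    rw [if_neg (by omega)] at h2
    exact Complex.ext h1 h2

end OB

end Run7.h745
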