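import Pool.Agent.Run7.h745.Defs2

/-!
# MP_456758_an: interface of the pieces

GOAL (`S_FINAL`): compact metric spaces `X₁ = X`, `X₂ = X × Fin 2` and minimal homeomorphisms
`T₁ = T`, `T₂ = tower T 2` whose crossed products `A` and `M_2(A)` have the same Elliott invariant,
both have radius of comparison `∞`, and are not isomorphic.

The system: bi-infinite words built from blocks. A level `n` block has length `h n` and a type
`s : Bool`; its letters at the positions `free n` are free (letters of type `s`), the letters at the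
other positions are frozen, i.e. prescribed.  A level `n + 1` block is a concatenation of `q n` level
`n` blocks; those with index in `fidx n` are free and of the same type, the others (among them the
first and the last one) are constant.  Letters of type `true` have values in the infinite
dimensional contractible space `QQ` (product of the cones over `RP^{2(m+1)}`), those of type `false`
values in the cone over `RP^4`.

Each piece is a `def S_... : Prop`.  To prove a piece, write `theorem foo : S_...` in a new file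
`Pool/Agent/Run7/h745/<Piece>.lean` importing this file.
-/

set_option autoImplicit false

noncomputable section

namespace Run7.h745

open Filter Topology Matrix Pool.Agent.TH249
open scoped ENNReal NNReal ComplexOrder

/-! ### Letters -/

/-- The cone over `RP^{2m}`: the matrices `ζ ζᵀ` with `ζ ∈ ℝ^{2m+1}`, `|ζ| ≤ 1`. -/
def coneSet (m : ℕ) : Set (Fin (2 * m + 1) → Fin (2 * m + 1) → ℝ) :=
  {z | ∃ ζ : Fin (2 * m + 1) → ℝ, ∑ i, ζ i ^ 2 ≤ 1 ∧ ∀ i j, z i j = ζ i * ζ j}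

/-- Values of letters: component `m` is in the cone over `RP^{2(m+1)}`. -/
abbrev QQ : Type := ∀ m : ℕ, coneSet (m + 1)

/-- Values allowed for letters of type `s`: all of `QQ` for `s = true`, only the component in the
cone over `RP^4` for `s = false`. -/
def QS : Bool → Set QQ
  | true => Set.univ
  | false => {q | ∀ m, m ≠ 1 → ∀ i j, (q m).1 i j = 0}

/-! ### Tower data -/

/-- The structure of the minimal system (see the introduction).  `ty x`, `z x` are the type and the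
value of the letter at the origin; `V n` is the set of points with a level `n` block starting at the
origin. -/
structure TowerData (X : Type) [TopologicalSpace X] (T : X ≃ₜ X) where
  /-- length of level `n` blocks -/
  h : ℕ → ℕ
  /-- number of level `n` blocks in a level `n + 1` block -/
  q : ℕ → ℕ
  /-- free positions in level `n` blocks -/
  free : ℕ → Finset ℕ
  /-- free sub-blocks of level `n + 1` blocks -/
  fidx : ℕ → Finset ℕ
  V : ℕ → Set X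
  ty : X → Bool
  z : X → QQ
  /-- the frozen letters -/
  frty : ℕ → ℕ → Bool
  frz : ℕ → ℕ → QQ
  /-- types of the frozen sub-blocks -/
  sty : ℕ → ℕ → Bool
  /-- lower bound of the density of the free positions -/
  δ : ℝ
  δ_pos : 0 < δ
  h_pos : ∀ n, 0 < h n
  h_succ : ∀ n, h (n + 1) = q n * h n
  free_lt : ∀ n, ∀ i ∈ free n, i < h n
  free_nonempty : ∀ n, (free n).Nonempty
  density : ∀ n, δ * h n ≤ (free n).card
  fidx_lt : ∀ n, ∀ j ∈ fidx n, 0 < j ∧ j + 1 < q n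
  free_succ : ∀ n i, i ∈ free (n + 1) ↔ i / h n ∈ fidx n ∧ i % h n ∈ free n
  even_fidx : ∀ n, Even (fidx n).card
  even_sty : ∀ n s, Even ((Finset.range (q n)).filter fun j => j ∉ fidx n ∧ sty n j = s).card
  continuous_ty : Continuous ty
  continuous_z : Continuous z
  z_mem : ∀ x, z x ∈ QS (ty x)
  isClopen_V : ∀ n, IsClopen (V n)
  V_succ : ∀ n, V (n + 1) ⊆ V n
  /-- every point lies in exactly one level `T^i V_n`, `i < h n` -/
  part : ∀ n x, ∃! i : ℕ, i < h n ∧ (T ^ (-(i : ℤ)) : X ≃ₜ X) x ∈ V n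
  ret : ∀ n x, x ∈ V n → (T ^ (h n : ℤ) : X ≃ₜ X) x ∈ V n
  frozen : ∀ n x, x ∈ V n → ∀ i < h n, i ∉ free n →
    ty ((T ^ (i : ℤ) : X ≃ₜ X) x) = frty n i ∧ z ((T ^ (i : ℤ) : X ≃ₜ X) x) = frz n i
  free_ty : ∀ n x, x ∈ V n → ∀ i ∈ free n, ∀ j ∈ free n,
    ty ((T ^ (i : ℤ) : X ≃ₜ X) x) = ty ((T ^ (j : ℤ) : X ≃ₜ X) x)
  /-- all values of the free letters occur -/
  surj : ∀ (n : ℕ) (s : Bool) (w : ℕ → QQ), (∀ i ∈ free n, w i ∈ QS s) →
    ∃ x ∈ V n, ∀ i ∈ free n, ty ((T ^ (i : ℤ) : X ≃ₜ X) x) = s ∧ z ((T ^ (i : ℤ) : X ≃ₜ X) x) = w i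
  sty_spec : ∀ n x, x ∈ V (n + 1) → ∀ j < q n, j ∉ fidx n → ∀ i ∈ free n,
    ty ((T ^ ((j * h n + i : ℕ) : ℤ) : X ≃ₜ X) x) = sty n j
  /-- points are separated by the levels and the letters of their orbits -/
  sep : ∀ x y : X,
    (∀ (n : ℕ) (i : ℤ), (T ^ i : X ≃ₜ X) x ∈ V n ↔ (T ^ i : X ≃ₜ X) y ∈ V n) →
    (∀ i : ℤ, ty ((T ^ i : X ≃ₜ X) x) = ty ((T ^ i : X ≃ₜ X) y) ∧
      z ((T ^ i : X ≃ₜ X) x) = z ((T ^ i : X ≃ₜ X) y)) → x = y
  h_tendsto : Tendsto h atTop atTop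

namespace TowerData

variable {X : Type} [TopologicalSpace X] {T : X ≃ₜ X} (D : TowerData X T)

/-- the points at which a level `n` block of type `s` starts -/
def VT (n : ℕ) (s : Bool) : Set X :=
  {x | x ∈ D.V n ∧ ∀ i ∈ D.free n, D.ty ((T ^ (i : ℤ) : X ≃ₜ X) x) = s}

/-- `x` and `y` (in `V n`) have the same level `n` block at the origin -/
def SameBlock (n : ℕ) (x y : X) : Prop :=
  ∀ i ∈ D.free n, D.ty ((T ^ (i : ℤ) : X ≃ₜ X) x) = D.ty ((T ^ (i : ℤ) : X ≃ₜ X) y) ∧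
    D.z ((T ^ (i : ℤ) : X ≃ₜ X) x) = D.z ((T ^ (i : ℤ) : X ≃ₜ X) y)

/-- `f` is determined by the level `n` block: on `T^i V_n`, `i < h n`, it depends only on the level
`n` block and on `i`. -/
def IsC (n : ℕ) (f : C(X, ℂ)) : Prop :=
  ∀ x ∈ D.V n, ∀ y ∈ D.V n, D.SameBlock n x y → ∀ i < D.h n,
    f ((T ^ (i : ℤ) : X ≃ₜ X) x) = f ((T ^ (i : ℤ) : X ≃ₜ X) y)

/-- `f` is a polynomial in the parameters `ζ` of the letters `ζ ζᵀ` on the blocks of type
`false`. -/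
def IsP (n : ℕ) (f : C(X, ℂ)) : Prop :=
  ∀ i < D.h n, ∃ P : MvPolynomial (ℕ × Fin 5) ℂ, ∀ x ∈ D.VT n false, ∀ ζ : ℕ → Fin 5 → ℝ,
    (∀ j ∈ D.free n, ∀ a b : Fin 5,
      (D.z ((T ^ (j : ℤ) : X ≃ₜ X) x) 1).1 a b = ζ j a * ζ j b) →
    f ((T ^ (i : ℤ) : X ≃ₜ X) x) = MvPolynomial.eval (fun p => (ζ p.1 p.2 : ℂ)) P

end TowerData

open Classical in
/-- indicator function of a clopen set (zero for other sets) -/
def ind {X : Type} [TopologicalSpace X] (S : Set X) : C(X, ℂ) :=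
  if h : IsClopen S then ⟨S.indicator fun _ => 1, (continuous_const).indicator (fun a ha => by
    rw [h.frontier_eq] at ha; exact absurd ha (Set.notMem_empty a))⟩ else 0

/-! ### Piece SYS: the system -/

/-- SYS1. Construction: nets of constants are chosen recursively; `X ⊆ (∏ ℤ/h n) × (Bool × QQ)^ℤ`. -/
def S_SYS1 : Prop :=
  ∃ (X : Type) (_ : MetricSpace X) (_ : CompactSpace X) (_ : Infinite X) (T : X ≃ₜ X),
    IsMinimalHomeo T ∧ ∃ D : TowerData X T, D.δ = 3 / 4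

/-- the homeomorphism of the tower of height `K + 1`: `(x, p) ↦ (x, p + 1)`,
`(x, K) ↦ (T x, 0)`. -/
def towerFun {X : Type} (T : X → X) (K : ℕ) (y : X × Fin (K + 1)) : X × Fin (K + 1) :=
  if h : (y.2 : ℕ) < K then (y.1, ⟨y.2 + 1, by omega⟩) else (T y.1, 0)

/-- `T'` is the tower homeomorphism. -/
def IsTower {X : Type} [TopologicalSpace X] (T : X ≃ₜ X) (K : ℕ)
    (T' : X × Fin (K + 1) ≃ₜ X × Fin (K + 1)) : Prop :=
  ∀ y, T' y = towerFun T K y

/-- SYS2. Towers: existence of the homeomorphism, minimality, tower data.  In the tower data for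
`X × Fin (K + 1)` the base is `V n × {0}` and the heights are multiplied by `K + 1`; the new letters
(at `p ≠ 0`) are frozen (`ty = false`, `z = 0`). -/
def S_SYS2 : Prop :=
  ∀ (X : Type) [TopologicalSpace X] [CompactSpace X] [T2Space X] (T : X ≃ₜ X) (K : ℕ),
    ∃ T' : X × Fin (K + 1) ≃ₜ X × Fin (K + 1), IsTower T K T' ∧
      (IsMinimalHomeo T → IsMinimalHomeo T') ∧
      ∀ D : TowerData X T, ∃ D' : TowerData (X × Fin (K + 1)) T',
        (∀ n, D'.h n = (K + 1) * D.h n) ∧ (∀ n, (D'.free n).card = (D.free n).card) ∧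
        (∀ n, D'.V n = {y | y.1 ∈ D.V n ∧ y.2 = 0}) ∧
        (∀ n s, D'.VT n s = {y | y.1 ∈ D.VT n s ∧ y.2 = 0})

/-- SYS3a. The sets `V n` shrink to one point. -/
def S_SYS3a : Prop :=
  ∀ (X : Type) [TopologicalSpace X] [CompactSpace X] [T2Space X] (T : X ≃ₜ X)
    (D : TowerData X T), ∃ x₀, ⋂ n, D.V n = {x₀}

/-- SYS3b. Approximation by functions which are determined by blocks (Stone-Weierstrass; note that
the letters near the ends of the neighbouring blocks are frozen). -/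
def S_SYS3b : Prop :=
  ∀ (X : Type) [TopologicalSpace X] [CompactSpace X] [T2Space X] (T : X ≃ₜ X)
    (D : TowerData X T) (f : C(X, ℂ)) (ε : ℝ), 0 < ε → ∃ (n₀ : ℕ) (g : C(X, ℂ)), ‖f - g‖ < ε ∧
      ∀ n, n₀ ≤ n → D.IsC n g ∧ D.IsP n g

/-- SYS3c. A continuous function which depends only on the level `n` block is a continuous function
of the values of the free letters. -/
def S_SYS3c : Prop :=
  ∀ (X : Type) [TopologicalSpace X] [CompactSpace X] [T2Space X] (T : X ≃ₜ X)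
    (D : TowerData X T) (n : ℕ) (s : Bool) (Y : Type) [TopologicalSpace Y] (g : X → Y),
    Continuous g → (∀ x ∈ D.V n, ∀ y ∈ D.V n, D.SameBlock n x y → g x = g y) →
    ∃ g' : (D.free n → QS s) → Y, Continuous g' ∧ ∀ x ∈ D.VT n s, ∀ w : D.free n → QS s,
      (∀ i : D.free n, D.z ((T ^ ((i : ℕ) : ℤ) : X ≃ₜ X) x) = (w i).1) → g x = g' w

/-! ### Piece CP: crossed products -/

/-- CP1. Existence of crossed products. -/
def S_CP1 : Prop :=
  ∀ (X : Type) [TopologicalSpace X] [CompactSpace X] [T2Space X] (T : X ≃ₜ X),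
    ∃ (A : Type) (_ : CStarAlgebra A) (ι : C(X, ℂ) →⋆ₐ[ℂ] A) (u : unitary A),
      IsCrossedProduct T ι u

/-- the Hilbert space `ℓ²(ℤ)` -/
abbrev HH : Type := lp (fun _ : ℤ => ℂ) 2

/-- the standard basis -/
def dl (i : ℤ) : HH := lp.single 2 i (1 : ℂ)

/-- `π` is the representation of the crossed product on `ℓ²(ℤ)` given by the orbit of `x`. -/
structure IsOrbitRep {X : Type} [TopologicalSpace X] [CompactSpace X] (T : X ≃ₜ X)
    {A : Type} [CStarAlgebra A] (ι : C(X, ℂ) →⋆ₐ[ℂ] A) (u : unitary A) (x : X)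
    (π : A →⋆ₐ[ℂ] (HH →L[ℂ] HH)) : Prop where
  fn : ∀ (f : C(X, ℂ)) (i : ℤ), π (ι f) (dl i) = f ((T ^ i : X ≃ₜ X) x) • dl i
  sh : ∀ i : ℤ, π (u : A) (dl i) = dl (i + 1)

/-- `π` is the family of all orbit representations. -/
structure IsOrbitFamily {X : Type} [TopologicalSpace X] [CompactSpace X] (T : X ≃ₜ X)
    {A : Type} [CStarAlgebra A] (ι : C(X, ℂ) →⋆ₐ[ℂ] A) (u : unitary A)
    (π : X → (A →⋆ₐ[ℂ] (HH →L[ℂ] HH))) : Prop where
  rep : ∀ x, IsOrbitRep T ι u x (π x)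
  cont : ∀ (a : A) (i j : ℤ), Continuous fun x => inner ℂ (dl i) (π x a (dl j))
  faithful : ∀ a, (∀ x, π x a = 0) → a = 0

/-- CP2. Orbit representations: existence, continuity of the matrix coefficients, joint
faithfulness (Fejér averages). -/
def S_CP2 : Prop :=
  ∀ (X : Type) [TopologicalSpace X] [CompactSpace X] [T2Space X] (T : X ≃ₜ X)
    (A : Type) [CStarAlgebra A] (ι : C(X, ℂ) →⋆ₐ[ℂ] A) (u : unitary A),
    IsCrossedProduct T ι u → ∃ π : X → (A →⋆ₐ[ℂ] (HH →L[ℂ] HH)), IsOrbitFamily T ι u π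

/-- CP3. Laurent polynomials `∑ ι(f_j) u^j` are dense. -/
def S_CP3 : Prop :=
  ∀ (X : Type) [TopologicalSpace X] [CompactSpace X] [T2Space X] (T : X ≃ₜ X)
    (A : Type) [CStarAlgebra A] (ι : C(X, ℂ) →⋆ₐ[ℂ] A) (u : unitary A),
    IsCrossedProduct T ι u → ∀ (a : A) (ε : ℝ), 0 < ε →
      ∃ (L : ℕ) (f : ℤ → C(X, ℂ)), ‖a - ∑ j ∈ Finset.Icc (-(L : ℤ)) L,
        ι (f j) * ((u ^ j : unitary A) : A)‖ < ε

/-- CP4. `M_{K+1}(A)` is the crossed product of the tower; `ι' f` is the diagonal matrix of the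
`ι (f (·, p))`. -/
def S_CP4 : Prop :=
  ∀ (X : Type) [TopologicalSpace X] [CompactSpace X] [T2Space X] (T : X ≃ₜ X)
    (A : Type) [CStarAlgebra A] (ι : C(X, ℂ) →⋆ₐ[ℂ] A) (u : unitary A) (K : ℕ)
    (T' : X × Fin (K + 1) ≃ₜ X × Fin (K + 1)),
    IsCrossedProduct T ι u → IsTower T K T' →
      ∃ (ι' : C(X × Fin (K + 1), ℂ) →⋆ₐ[ℂ] Mat (K + 1) A) (u' : unitary (Mat (K + 1) A)),
        IsCrossedProduct T' ι' u' ∧
        ∀ f : C(X × Fin (K + 1), ℂ), ι' f = Mat.of (Matrix.diagonal fun p =>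
          ι (f.comp ⟨fun x => (x, p), by fun_prop⟩))

/-- AV. Limits of averages along orbit pieces are tracial states. -/
def S_AV : Prop :=
  ∀ (X : Type) [TopologicalSpace X] [CompactSpace X] [T2Space X] (T : X ≃ₜ X)
    (A : Type) [CStarAlgebra A] (ι : C(X, ℂ) →⋆ₐ[ℂ] A) (u : unitary A)
    (π : X → (A →⋆ₐ[ℂ] (HH →L[ℂ] HH))),
    IsCrossedProduct T ι u → IsOrbitFamily T ι u π →
    ∀ (F : Ultrafilter ℕ) (N : ℕ → ℕ) (x : ℕ → X), Tendsto N F atTop →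
      ∃ τ : TracialState A, ∀ a : A, Tendsto (fun k =>
        ((N k : ℂ))⁻¹ * ∑ i ∈ Finset.range (N k), inner ℂ (dl i) (π (x k) a (dl i))) F
          (𝓝 (τ.val a))

/-! ### Piece ELL: the Elliott invariants of `A` and `M_2(A)` -/

/-- an `n × n` matrix over `M_k(A)` as an `nk × nk` matrix over `A` -/
def flatM {n k : ℕ} {A : Type} [CStarAlgebra A] (M : Matrix (Fin n) (Fin n) (Mat k A)) :
    Matrix (Fin (n * k)) (Fin (n * k)) A :=
  Matrix.of fun i j =>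
    (Mat.of.symm (M (finProdFinEquiv.symm i).1 (finProdFinEquiv.symm j).1))
      (finProdFinEquiv.symm i).2 (finProdFinEquiv.symm j).2

/-- KAP. The canonical isomorphism `κ : K_0(M_{k+1}(A)) → K_0(A)`. -/
def S_KAP : Prop :=
  ∀ (A : Type) [CStarAlgebra A] (k : ℕ), ∃ κ : K0 (Mat (k + 1) A) ≃+ K0 A,
    (∀ x, x ∈ K0.pos (Mat (k + 1) A) ↔ κ x ∈ K0.pos A) ∧
    ∀ (P : Prj (Mat (k + 1) A)) (Q : Prj A) (h : Q.n = P.n * (k + 1)),
      Q.mat = (flatM P.mat).submatrix (Fin.cast h) (Fin.cast h) → κ (K0.cls P) = K0.cls Q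

/-- ELL.  `φ₀ = κ⁻¹ ∘ (×2)` with the canonical isomorphism `κ : K_0(M_2(A)) → K_0(A)`. -/
def S_ELL : Prop :=
  S_KAP → ∀ (A : Type) [CStarAlgebra A], (∀ x : K0 A, ∃ y, x = 2 • y) →
    (∀ x : K0 A, 2 • x = 0 → x = 0) →
    (∀ x : K0 A, 2 • x ∈ K0.pos A → x ∈ K0.pos A) → SameElliott A (Mat 2 A)

/-! ### Piece KH: Hilbert space lemma -/

/-- No matrix coefficients between `i ≥ 0` and `j < 0`. -/
def Decoupled (S : HH →L[ℂ] HH) : Prop :=
  ∀ i j : ℤ, (0 ≤ i ∧ j < 0 ∨ i < 0 ∧ 0 ≤ j) → inner ℂ (dl i) (S (dl j)) = 0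

/-- coordinate projection onto the span of `dl i`, `0 ≤ i < r` -/
def IsCoord (r : ℕ) (R : HH →L[ℂ] HH) : Prop :=
  ∀ i : ℤ, R (dl i) = if 0 ≤ i ∧ i < r then dl i else 0

/-- the operator `|dl i⟩⟨dl j|` -/
def EE (i j : ℤ) : HH →L[ℂ] HH := (innerSL ℂ (dl j)).smulRight (dl i)

/-- the closed span of the matrix units, i.e. the compact operators on `ℓ²(ℤ)` -/
def Kc : Submodule ℂ (HH →L[ℂ] HH) :=
  (Submodule.span ℂ (Set.range fun p : ℤ × ℤ => EE p.1 p.2)).topologicalClosure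

/-- KH. Let `p₀` be a projection on `ℓ²(ℤ)` whose off-diagonal part with respect to
`ℓ²(ℤ) = ℓ²(ℤ_{<0}) ⊕ ℓ²(ℤ_{≥0})` is compact (`d` is the diagonal part of `p₀`).  Then there is a
decoupled projection `t` with `t - p₀` compact, and `diag(p₀, R_{r₂})` and `diag(t, R_{r₁})` are
equivalent by a matrix `[[v, w₂*], [w₁, 0]]` with `v - p₀`, `w₁`, `w₂` compact. -/
def S_KH : Prop :=
  ∀ (p₀ d : HH →L[ℂ] HH), IsStarProjection p₀ → Decoupled d →
    (∀ i j : ℤ, (0 ≤ i ∧ 0 ≤ j ∨ i < 0 ∧ j < 0) → inner ℂ (dl i) ((p₀ - d) (dl j)) = 0) →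
    p₀ - d ∈ Kc →
    ∃ (t v w₁ w₂ : HH →L[ℂ] HH) (r₁ r₂ : ℕ) (R₁ R₂ : HH →L[ℂ] HH),
      IsStarProjection t ∧ Decoupled t ∧ t - p₀ ∈ Kc ∧ v - p₀ ∈ Kc ∧ w₁ ∈ Kc ∧ w₂ ∈ Kc ∧
      IsCoord r₁ R₁ ∧ IsCoord r₂ R₂ ∧
      star v * v + star w₁ * w₁ = p₀ ∧ w₂ * v = 0 ∧ w₂ * star w₂ = R₂ ∧
      v * star v + star w₂ * w₂ = t ∧ w₁ * star v = 0 ∧ w₁ * star w₁ = R₁

/-! ### Piece PRT: perturbation lemmas for projections -/

/-- PRT1. Approximately equivalent projections are equivalent. -/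
def S_PRT1 : Prop :=
  ∃ ε : ℝ, 0 < ε ∧ ∀ (B : Type) [CStarAlgebra B] (p q x : B), IsStarProjection p →
    IsStarProjection q → ‖star x * x - p‖ < ε → ‖x * star x - q‖ < ε →
    ∃ v : B, star v * v = p ∧ v * star v = q

/-- PRT2. An approximate projection is close to a projection which is a function of it. -/
def S_PRT2 : Prop :=
  ∀ ε : ℝ, 0 < ε → ∃ η : ℝ, 0 < η ∧ ∀ (C : Type) [CStarAlgebra C] (G : C), IsSelfAdjoint G →
    ‖G * G - G‖ < η → ∃ f : ℝ → ℝ, ContinuousOn f (spectrum ℝ G) ∧ f 0 = 0 ∧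
      IsStarProjection (cfc f G) ∧ ‖G - cfc f G‖ < ε

/-- diagonal constant projection of rank `r` -/
def diagProj (N r : ℕ) : Matrix (Fin N) (Fin N) ℂ :=
  Matrix.diagonal fun i => if (i : ℕ) < r then 1 else 0

/-- PRT3. A projection-valued function on a compact space which is contractible is equivalent to a
constant diagonal projection. -/
def S_PRT3 : Prop :=
  ∀ (W : Type) [TopologicalSpace W] [CompactSpace W] [T2Space W] [ContractibleSpace W] (N : ℕ)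
    (G : C(W, Mat N ℂ)), (∀ w, IsStarProjection (G w)) →
    ∃ (r : ℕ) (U : C(W, Mat N ℂ)), r ≤ N ∧ (∀ w, star (U w) * U w = G w) ∧
      ∀ w, U w * star (U w) = Mat.of (diagProj N r)

/-! ### Piece PSI: matrix-valued functions on the towers -/

/-- the entry `i j` of a matrix-valued function -/
def ent {X : Type} [TopologicalSpace X] {N : ℕ} (G : C(X, Mat N ℂ)) (i j : Fin N) : C(X, ℂ) :=
  ⟨fun x => (Mat.of.symm (G x)) i j,
    ((continuous_apply_apply i j).comp Mat.continuous_of_symm).comp G.continuous⟩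

/-- PSI. For a level `n`, the matrix-valued functions act on the towers:
`Ψ(G) = ∑ u^i ι(χ_{V n} G_ij) u^{-j}` is a unital *-homomorphism, isometric on the functions which
vanish outside `V n`. -/
def S_PSI : Prop :=
  ∀ (X : Type) [TopologicalSpace X] [CompactSpace X] [T2Space X] (T : X ≃ₜ X)
    (D : TowerData X T) (A : Type) [CStarAlgebra A] (ι : C(X, ℂ) →⋆ₐ[ℂ] A) (u : unitary A)
    (π : X → (A →⋆ₐ[ℂ] (HH →L[ℂ] HH))) (n : ℕ),
    IsCrossedProduct T ι u → IsOrbitFamily T ι u π →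
    ∃ Ψ : C(X, Mat (D.h n) ℂ) →⋆ₐ[ℂ] A,
      (∀ G : C(X, Mat (D.h n) ℂ), Ψ G = ∑ i : Fin (D.h n), ∑ j : Fin (D.h n),
        ((u ^ ((i : ℕ) : ℤ) : unitary A) : A) * ι (ind (D.V n) * ent G i j) *
          ((u ^ (-((j : ℕ) : ℤ)) : unitary A) : A)) ∧
      (∀ G : C(X, Mat (D.h n) ℂ), (∀ x, x ∉ D.V n → G x = 0) → ‖Ψ G‖ = ‖G‖) ∧
      ∀ (G : C(X, Mat (D.h n) ℂ)) (x : X), x ∈ D.V n → ∀ i j : Fin (D.h n),
        inner ℂ (dl ((i : ℕ) : ℤ)) (π x (Ψ G) (dl ((j : ℕ) : ℤ))) = (Mat.of.symm (G x)) i j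

/-! ### Piece KT: `K_0` of the crossed product -/

/-- `g s` is the projection `ι (χ_{VT n s})` -/
def IsG {X : Type} [TopologicalSpace X] [CompactSpace X] {T : X ≃ₜ X} (D : TowerData X T)
    {A : Type} [CStarAlgebra A] (ι : C(X, ℂ) →⋆ₐ[ℂ] A) (n : ℕ) (g : Bool → Prj A) : Prop :=
  ∀ s, (g s).n = 1 ∧ ∀ i j, (g s).mat i j = ι (ind (D.VT n s))

/-- KT3. The class of a projection given by a matrix-valued function of the level `n` blocks. -/
def S_KT3 : Prop :=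
  ∀ (X : Type) [TopologicalSpace X] [CompactSpace X] [T2Space X] (T : X ≃ₜ X)
    (D : TowerData X T) (A : Type) [CStarAlgebra A] (ι : C(X, ℂ) →⋆ₐ[ℂ] A) (u : unitary A)
    (π : X → (A →⋆ₐ[ℂ] (HH →L[ℂ] HH))) (n : ℕ),
    IsCrossedProduct T ι u → IsOrbitFamily T ι u π → S_SYS3c → S_PRT3 → S_PSI →
    ∀ (G : C(X, Mat (D.h n) ℂ)), (∀ x ∈ D.V n, IsStarProjection (G x)) →
      (∀ x ∈ D.V n, ∀ y ∈ D.V n, D.SameBlock n x y → G x = G y) →
      ∀ P : A, P = (∑ i : Fin (D.h n), ∑ j : Fin (D.h n),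
        ((u ^ ((i : ℕ) : ℤ) : unitary A) : A) * ι (ind (D.V n) * ent G i j) *
          ((u ^ (-((j : ℕ) : ℤ)) : unitary A) : A)) → ∀ hP : IsStarProjection P,
      ∃ (r : Bool → ℕ) (g : Bool → Prj A), IsG D ι n g ∧
        K0.cls (Prj.of P hP) = r false • K0.cls (g false) + r true • K0.cls (g true)

/-- All classes of projections in the crossed product are integral combinations of the
classes of the indicator functions of the `VT n s`. -/
def Gen1 {X : Type} [TopologicalSpace X] [CompactSpace X] {T : X ≃ₜ X} (D : TowerData X T)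
    {A : Type} [CStarAlgebra A] (ι : C(X, ℂ) →⋆ₐ[ℂ] A) : Prop :=
  ∀ (p : A) (hp : IsStarProjection p), ∃ (n : ℕ) (r : Bool → ℤ) (g : Bool → Prj A), IsG D ι n g ∧
    K0.cls (Prj.of p hp) = r false • K0.cls (g false) + r true • K0.cls (g true)

/-- KT. Every projection in the crossed product has the class of an integral combination of the
classes of the indicator functions of the `VT n s`. -/
def S_KT : Prop :=
  S_SYS3a → S_SYS3b → S_SYS3c → S_CP3 → S_KH → S_PRT1 → S_PRT2 → S_PRT3 → S_PSI → S_KT3 →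
  ∀ (X : Type) [TopologicalSpace X] [CompactSpace X] [T2Space X] (T : X ≃ₜ X)
    (D : TowerData X T) (A : Type) [CStarAlgebra A] (ι : C(X, ℂ) →⋆ₐ[ℂ] A) (u : unitary A)
    (π : X → (A →⋆ₐ[ℂ] (HH →L[ℂ] HH))),
    IsCrossedProduct T ι u → IsOrbitFamily T ι u π → Gen1 D ι

/-! ### Piece FK: consequences for `K_0` -/

/-- all classes of projections are combinations of the classes of the `VT n s` -/
def Gen {X : Type} [TopologicalSpace X] [CompactSpace X] {T : X ≃ₜ X} (D : TowerData X T)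
    {A : Type} [CStarAlgebra A] (ι : C(X, ℂ) →⋆ₐ[ℂ] A) : Prop :=
  ∀ P : Prj A, ∃ (n : ℕ) (r : Bool → ℤ) (g : Bool → Prj A), IsG D ι n g ∧
    K0.cls P = r false • K0.cls (g false) + r true • K0.cls (g true)

/-- FK1. From towers to matrices. -/
def S_FK1 : Prop :=
  S_SYS2 → S_CP4 → S_KAP →
  (∀ (X : Type) [TopologicalSpace X] [CompactSpace X] [T2Space X] (T : X ≃ₜ X)
    (D : TowerData X T) (A : Type) [CStarAlgebra A] (ι : C(X, ℂ) →⋆ₐ[ℂ] A) (u : unitary A),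
    IsCrossedProduct T ι u → Gen1 D ι) →
  ∀ (X : Type) [TopologicalSpace X] [CompactSpace X] [T2Space X] (T : X ≃ₜ X)
    (D : TowerData X T) (A : Type) [CStarAlgebra A] (ι : C(X, ℂ) →⋆ₐ[ℂ] A) (u : unitary A),
    IsCrossedProduct T ι u → Gen D ι

/-- FK2. `K_0(A)` is uniquely 2-divisible and `2x ≥ 0` implies `x ≥ 0`. Uses the two traces obtained
from the blocks of type `s`, which are faithful by minimality. -/
def S_FK2 : Prop :=
  ∀ (X : Type) [TopologicalSpace X] [CompactSpace X] [T2Space X] (T : X ≃ₜ X)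
    (D : TowerData X T) (A : Type) [CStarAlgebra A] (ι : C(X, ℂ) →⋆ₐ[ℂ] A) (u : unitary A)
    (π : X → (A →⋆ₐ[ℂ] (HH →L[ℂ] HH))),
    IsMinimalHomeo T → IsCrossedProduct T ι u → IsOrbitFamily T ι u π → S_AV → Gen D ι →
    (∀ x : K0 A, ∃ y, x = 2 • y) ∧ (∀ x : K0 A, 2 • x = 0 → x = 0) ∧
    (∀ x : K0 A, 2 • x ∈ K0.pos A → x ∈ K0.pos A)

/-! ### The invariant -/

/-- The property which distinguishes `A` from `M_2(A)`: there is a tracial state `τ₀` such that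
every positive contraction `c` over `A` with `τ(c) ≥ t + r` for all `τ` satisfies `1_t ≾ c ⊕ e` for
projections `e` with `τ₀(e)` arbitrarily small. -/
def Pr (A : Type) [CStarAlgebra A] (r : ℝ) : Prop :=
  ∃ τ₀ : TracialState A, ∀ (t k : ℕ) (c : Matrix (Fin k) (Fin k) A),
    (∃ y : Matrix (Fin k) (Fin k) A, c = yᴴ * y) →
    (∃ y : Matrix (Fin k) (Fin k) A, 1 - c = yᴴ * y) →
    (∀ τ : TracialState A, t + r ≤ (τ.mat c).re) →
    ∀ ε : ℝ, 0 < ε → ∃ (l : ℕ) (e : Matrix (Fin l) (Fin l) A)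
      (v : Matrix (Fin k ⊕ Fin l) (Fin t) A),
      IsPrj e ∧ (τ₀.mat e).re < ε ∧ vᴴ * Matrix.fromBlocks c 0 0 e * v = 1

/-- PR1. Scaling. -/
def S_PR1 : Prop :=
  ∀ (A : Type) [CStarAlgebra A] (r : ℝ), Pr A (2 * r) → Pr (Mat 2 A) r

/-- PR2. Isomorphism invariance. -/
def S_PR2 : Prop :=
  ∀ (A B : Type) [CStarAlgebra A] [CStarAlgebra B], Nonempty (A ≃⋆ₐ[ℂ] B) → ∀ r : ℝ,
    Pr A r → Pr B r

/-! ### Piece G: general position -/

/-- G1. A Lipschitz family of matrices of rank at least `s + r` on a compact subset of `ℝ^M`,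
`M ≤ 2r + 1`: some constant `N × s` matrix `V` makes all `B w * V` injective (Hausdorff dimension
count). -/
def S_G1 : Prop :=
  ∀ (M N s r : ℕ) (K : Set (Fin M → ℝ)) (B : (Fin M → ℝ) → Matrix (Fin N) (Fin N) ℂ) (L : ℝ),
    IsCompact K → (∀ x ∈ K, ∀ y ∈ K, ∀ i j, ‖B x i j - B y i j‖ ≤ L * ‖x - y‖) →
    (∀ x ∈ K, s + r ≤ (B x).rank) → M ≤ 2 * r + 1 →
    ∃ V : Matrix (Fin N) (Fin s) ℂ, ∀ x ∈ K, ∀ ξ : Fin s → ℂ, ξ ≠ 0 →
      B x *ᵥ (V *ᵥ ξ) ≠ 0

/-- G2. For a Lipschitz family of positive matrices `C w ≤ 1 + θ` with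
`Tr (C w) ≥ (1 + θ)(s + r) + 2 θ N` there is a family `v w`, depending only on `C w` and continuously
on it, with `v* (C w - θ) v ≥ c` for a constant `c > 0`.  (`v = (C w - 2θ)₊ V` with `V` from G1; the
positive part of Hermitian matrices is Lipschitz in the Hilbert-Schmidt norm.) -/
def S_G2 : Prop :=
  ∀ (M N s r : ℕ) (θ : ℝ) (K : Set (Fin M → ℝ)) (C : (Fin M → ℝ) → Matrix (Fin N) (Fin N) ℂ)
    (L : ℝ), 0 < θ → IsCompact K →
    (∀ x ∈ K, ∀ y ∈ K, ∀ i j, ‖C x i j - C y i j‖ ≤ L * ‖x - y‖) →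
    (∀ x ∈ K, (C x).PosSemidef ∧
      (((1 + θ : ℝ) : ℂ) • (1 : Matrix (Fin N) (Fin N) ℂ) - C x).PosSemidef) →
    (∀ x ∈ K, (1 + θ) * (s + r) + 2 * θ * N ≤ (C x).trace.re) → M ≤ 2 * r + 1 →
    ∃ (v : Matrix (Fin N) (Fin N) ℂ → Matrix (Fin N) (Fin s) ℂ) (c : ℝ), 0 < c ∧
      ContinuousOn v {H | H.IsHermitian} ∧
      ∀ x ∈ K, ((v (C x))ᴴ * (C x - (θ : ℂ) • (1 : Matrix (Fin N) (Fin N) ℂ)) * v (C x)
        - (c : ℂ) • (1 : Matrix (Fin s) (Fin s) ℂ)).PosSemidef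

/-! ### Piece U: the upper bound -/

/-- U0. The trace `τ₀` concentrated on type `false`. -/
def S_U0 : Prop :=
  ∀ (X : Type) [TopologicalSpace X] [CompactSpace X] [T2Space X] (T : X ≃ₜ X)
    (D : TowerData X T) (A : Type) [CStarAlgebra A] (ι : C(X, ℂ) →⋆ₐ[ℂ] A) (u : unitary A)
    (π : X → (A →⋆ₐ[ℂ] (HH →L[ℂ] HH))),
    IsCrossedProduct T ι u → IsOrbitFamily T ι u π → S_AV → ∃ τ₀ : TracialState A, ∀ ε : ℝ, 0 < ε →
      ∃ n₀, ∀ n, n₀ ≤ n → (D.h n : ℝ) * (τ₀.val (ι (ind (D.VT n true)))).re < ε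

open Classical in
/-- U1. Let `c` be a positive contraction, `F` the union of the levels `T^i V_{n₁}`, `i ∈ I`, and
`τ(c) ≥ τ(F) + ρ + η` for all `τ`, where `3 |free n| ≤ ρ h n`.  Then for all large `n` the part of `F`
on the towers of type `false` is below `c`: there is `v` with `v* c v ≥ θ χ`, `v = v χ`, `χ` the
indicator function of `F ∩ ⋃_{i < h n} T^i (VT n false)`. -/
def S_U1 : Prop :=
  ∀ (X : Type) [TopologicalSpace X] [CompactSpace X] [T2Space X] (T : X ≃ₜ X)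
    (D : TowerData X T) (A : Type) [CStarAlgebra A] (ι : C(X, ℂ) →⋆ₐ[ℂ] A) (u : unitary A)
    (π : X → (A →⋆ₐ[ℂ] (HH →L[ℂ] HH))),
    IsCrossedProduct T ι u → IsOrbitFamily T ι u π → S_SYS3b → S_SYS3c → S_CP3 → S_PSI → S_AV →
    S_G2 →
    ∀ (c : A) (n₁ : ℕ) (I : Finset ℕ) (ρ η : ℝ), (∃ y : A, c = star y * y) →
      (∃ y : A, 1 - c = star y * y) → (∀ i ∈ I, i < D.h n₁) →
      (∀ n, 3 * ((D.free n).card : ℝ) ≤ ρ * D.h n) → 0 < η →
      (∀ τ : TracialState A, (I.card : ℝ) / D.h n₁ + ρ + η ≤ (τ.val c).re) →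
      ∃ n₀, ∀ n, n₀ ≤ n → ∃ (v : A) (θ : ℝ) (χ : C(X, ℂ)), 0 < θ ∧
        (∀ x, χ x = if (∃ i ∈ I, (T ^ (-(i : ℤ)) : X ≃ₜ X) x ∈ D.V n₁) ∧
          (∃ i < D.h n, (T ^ (-(i : ℤ)) : X ≃ₜ X) x ∈ D.VT n false) then 1 else 0) ∧
        v = v * ι χ ∧ ∃ y : A, star v * c * v - (θ : ℂ) • ι χ = star y * y

/-- U. `Pr A 4`. -/
def S_U : Prop :=
  S_SYS2 → S_CP4 → S_CP2 → S_U0 →
  ∀ (X : Type) [TopologicalSpace X] [CompactSpace X] [T2Space X] (T : X ≃ₜ X)
    (_ : TowerData X T) (A : Type) [CStarAlgebra A] (ι : C(X, ℂ) →⋆ₐ[ℂ] A) (u : unitary A),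
    IsCrossedProduct T ι u → S_SYS3b → S_SYS3c → S_CP3 → S_PSI → S_AV → S_G2 → S_U1 → Pr A 4

/-! ### Piece OB: the obstruction -/

/-- size of the matrix `bF` -/
abbrev Nb (m : ℕ) : Type := (Fin (2 * (m + 1) + 1) × Fin (m + 1)) ⊕ Fin (m + 1)

namespace TowerData

variable {X : Type} [TopologicalSpace X] {T : X ≃ₜ X} (D : TowerData X T)

/-- the matrix `z(x)_m` of continuous functions (the component in the cone over `RP^{2(m+1)}`) -/
def zM (m : ℕ) : Matrix (Fin (2 * (m + 1) + 1)) (Fin (2 * (m + 1) + 1)) C(X, ℂ) :=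
  Matrix.of fun a b => ⟨fun x => (((D.z x m).1 a b : ℝ) : ℂ), by
    have h1 : Continuous fun x => (D.z x m).1 :=
      continuous_subtype_val.comp ((continuous_apply m).comp D.continuous_z)
    have h2 : Continuous fun x => (D.z x m).1 a b :=
      (continuous_apply b).comp ((continuous_apply a).comp h1)
    exact Complex.continuous_ofReal.comp h2⟩

/-- the points at positions which are free at level `n₀` -/
def FS (n₀ : ℕ) : Set X := {x | ∃ i ∈ D.free n₀, (T ^ (-(i : ℤ)) : X ≃ₜ X) x ∈ D.V n₀}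

/-- The positive matrix `(z²)^{⊕(m+1)} ⊕ (1 - (tr z)²) 1_{m+1}` for the component
`z = z(x)_m ∈ cone(RP^{2(m+1)})`, multiplied by the indicator function of the positions which are
free at level `n₀`; its trace at such positions is `m + 1`. -/
def bF (n₀ m : ℕ) : Matrix (Nb m) (Nb m) C(X, ℂ) :=
  (ind (D.FS n₀)) • Matrix.fromBlocks (Matrix.blockDiagonal fun _ => D.zM m * D.zM m) 0 0
    (Matrix.diagonal fun _ => 1 - (D.zM m).trace ^ 2)

end TowerData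

open Classical in
/-- OB. The obstruction from the triangular Borsuk-Ulam theorem
(`Pool.Agent.Helper133.BT.triangular`). -/
def S_OB : Prop :=
  ∀ (X : Type) [TopologicalSpace X] [CompactSpace X] [T2Space X] (T : X ≃ₜ X)
    (D : TowerData X T) (A : Type) [CStarAlgebra A] (ι : C(X, ℂ) →⋆ₐ[ℂ] A) (u : unitary A)
    (π : X → (A →⋆ₐ[ℂ] (HH →L[ℂ] HH))),
    IsCrossedProduct T ι u → IsOrbitFamily T ι u π → S_SYS3b → S_SYS3c → S_CP3 →
    ∀ (n₀ m t l n₂ : ℕ) (s : Bool) (σ : Fin l → Bool) (v : Matrix (Nb m ⊕ Fin l) (Fin t) A),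
      (s = true ∨ m = 1) →
      vᴴ * Matrix.fromBlocks ((D.bF n₀ m).map ι) 0 0
        (Matrix.diagonal fun j => ι (ind (D.VT n₂ (σ j)))) * v = 1 →
      ∃ C n₁ : ℕ, ∀ n, n₁ ≤ n → ∀ x ∈ D.VT n s,
        t * D.h n ≤ C + ∑ j, ((Finset.range (D.h n)).filter fun i : ℕ =>
            (T ^ (i : ℤ) : X ≃ₜ X) x ∈ D.VT n₂ (σ j)).card +
          Fintype.card (Nb m) * ((Finset.range (D.h n)).filter fun i : ℕ =>
            i % D.h n₀ ∈ D.free n₀ ∧ i ∉ D.free n).card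

/-- L. The lower bound. -/
def S_L : Prop :=
  ∀ (X : Type) [TopologicalSpace X] [CompactSpace X] [T2Space X] (T : X ≃ₜ X)
    (D : TowerData X T) (A : Type) [CStarAlgebra A] (ι : C(X, ℂ) →⋆ₐ[ℂ] A) (u : unitary A)
    (π : X → (A →⋆ₐ[ℂ] (HH →L[ℂ] HH))),
    IsCrossedProduct T ι u → IsOrbitFamily T ι u π → S_SYS3b → S_SYS3c → S_CP3 → S_OB →
    Gen D ι → D.δ = 3 / 4 → ¬ Pr A (1 / 4)

/-- QTR. The value of quasitraces on `bF`: `d_τ(b) ≥ τ(b) = (m + 1) |free n₀| / h n₀`; the ranks of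
`1_t`. -/
def S_QTR : Prop :=
  ∀ (X : Type) [TopologicalSpace X] [CompactSpace X] [T2Space X] (T : X ≃ₜ X)
    (D : TowerData X T) (A : Type) [CStarAlgebra A] (ι : C(X, ℂ) →⋆ₐ[ℂ] A) (u : unitary A),
    IsCrossedProduct T ι u → ∀ (n₀ m : ℕ), ∃ (k : ℕ) (b a : Matrix (Fin (k + 1)) (Fin (k + 1)) A)
      (e : Fin (k + 1) ≃ Nb m),
      b = ((D.bF n₀ m).map ι).submatrix e e ∧ IsPos b ∧
      a = Matrix.diagonal (fun i => if i = 0 then 1 else 0) ∧ IsPos a ∧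
      ∀ τ : QT A, τ.rank a ≤ 1 ∧
        ENNReal.ofReal ((m + 1) * ((D.free n₀).card : ℝ) / D.h n₀) ≤ τ.rank b

/-- RC. The radius of comparison is infinite. -/
def S_RC : Prop :=
  ∀ (X : Type) [TopologicalSpace X] [CompactSpace X] [T2Space X] (T : X ≃ₜ X)
    (_ : TowerData X T) (A : Type) [CStarAlgebra A] (ι : C(X, ℂ) →⋆ₐ[ℂ] A) (u : unitary A)
    (π : X → (A →⋆ₐ[ℂ] (HH →L[ℂ] HH))),
    IsCrossedProduct T ι u → IsOrbitFamily T ι u π → S_SYS3b → S_SYS3c → S_CP3 → S_OB → S_QTR →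
    rc A = ⊤

/-- The goal. -/
def S_FINAL : Prop :=
  ∃ (X₁ : Type) (_ : MetricSpace X₁) (_ : CompactSpace X₁) (_ : Infinite X₁)
    (X₂ : Type) (_ : MetricSpace X₂) (_ : CompactSpace X₂) (_ : Infinite X₂)
    (T₁ : X₁ ≃ₜ X₁) (T₂ : X₂ ≃ₜ X₂)
    (A₁ : Type) (_ : CStarAlgebra A₁) (ι₁ : C(X₁, ℂ) →⋆ₐ[ℂ] A₁) (u₁ : unitary A₁)
    (A₂ : Type) (_ : CStarAlgebra A₂) (ι₂ : C(X₂, ℂ) →⋆ₐ[ℂ] A₂) (u₂ : unitary A₂),
    IsMinimalHomeo T₁ ∧ IsMinimalHomeo T₂ ∧
    IsCrossedProduct T₁ ι₁ u₁ ∧ IsCrossedProduct T₂ ι₂ u₂ ∧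
    SameElliott A₁ A₂ ∧ rc A₁ = ⊤ ∧ rc A₂ = ⊤ ∧ IsEmpty (A₁ ≃⋆ₐ[ℂ] A₂)

end Run7.h745
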