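import Pool.Agent.Run7.h745.Iface

/-!
# Assembly of the pieces
-/

set_option autoImplicit false

noncomputable section

namespace Run7.h745

open Filter Topology Matrix Pool.Agent.TH249
open scoped ENNReal NNReal

theorem assembly (sys1 : S_SYS1) (sys2 : S_SYS2) (sys3a : S_SYS3a) (sys3b : S_SYS3b)
    (sys3c : S_SYS3c) (cp1 : S_CP1) (cp2 : S_CP2) (cp3 : S_CP3) (cp4 : S_CP4) (av : S_AV)
    (kap : S_KAP) (ell : S_ELL) (kh : S_KH) (prt1 : S_PRT1) (prt2 : S_PRT2) (prt3 : S_PRT3)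
    (psi : S_PSI) (kt3 : S_KT3) (kt : S_KT) (fk1 : S_FK1) (fk2 : S_FK2) (pr1 : S_PR1)
    (pr2 : S_PR2) (g1 : S_G1) (g2 : S_G1 → S_G2) (u0 : S_U0) (u1 : S_U1) (hu : S_U) (ob : S_OB)
    (hl : S_L) (qtr : S_QTR) (hrc : S_RC) : S_FINAL := by
  obtain ⟨X, mX, cX, iX, T, hT, D, hδ⟩ := sys1
  obtain ⟨A, iA, ι, u, hA⟩ := cp1 X T
  obtain ⟨π, hπ⟩ := cp2 X T A ι u hA
  obtain ⟨T', hT', hmin, hD'⟩ := sys2 X T 1
  obtain ⟨D', -, -, -, -⟩ := hD' D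
  obtain ⟨ι', u', hA', -⟩ := cp4 X T A ι u 1 T' hA hT'
  obtain ⟨π', hπ'⟩ := cp2 _ T' _ ι' u' hA'
  have gen : Gen D ι := by
    refine fk1 sys2 cp4 kap ?_ X T D A ι u hA
    intro Y _ _ _ S E B _ κ w hB
    obtain ⟨ρ, hρ⟩ := cp2 Y S B κ w hB
    exact kt sys3a sys3b sys3c cp3 kh prt1 prt2 prt3 psi kt3 Y S E B κ w ρ hB hρ
  obtain ⟨k1, k2, k3⟩ := fk2 X T D A ι u π hT hA hπ av gen
  have hE := ell kap A k1 k2 k3
  have hU : Pr A 4 := hu sys2 cp4 cp2 u0 X T D A ι u hA sys3b sys3c cp3 psi av (g2 g1) u1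
  have hL : ¬ Pr A (1 / 4) := hl X T D A ι u π hA hπ sys3b sys3c cp3 ob gen hδ
  letI : MetricSpace (X × Fin 2) := TopologicalSpace.metrizableSpaceMetric (X × Fin 2)
  refine ⟨X, mX, cX, iX, X × Fin 2, this, inferInstance, inferInstance, T, T', A, iA, ι, u,
    Mat 2 A, inferInstance, ι', u', hT, hmin hT, hA, hA', hE,
    hrc X T D A ι u π hA hπ sys3b sys3c cp3 ob qtr,
    hrc _ T' D' _ ι' u' π' hA' hπ' sys3b sys3c cp3 ob qtr, ⟨fun e => hL ?_⟩⟩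
  have step : ∀ r : ℝ, Pr A (2 * r) → Pr A r := fun r h => pr2 _ _ ⟨e.symm⟩ r (pr1 A r h)
  apply step
  apply step
  apply step
  apply step
  norm_num
  exact hU

end Run7.h745
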