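import Pool.Agent.Run7.h745.Iface

/-!
# Basic lemmas for the pieces
-/

set_option autoImplicit false

noncomputable section

namespace Run7.h745

open Filter Topology Matrix Pool.Agent.TH249
open scoped ENNReal NNReal

/-! ### Powers of a homeomorphism -/

section zp
variable {X : Type} [TopologicalSpace X] (T : X ≃ₜ X)

lemma zp_add (m n : ℤ) (x : X) : (T ^ (m + n) : X ≃ₜ X) x = (T ^ m : X ≃ₜ X) ((T ^ n : X ≃ₜ X) x) := by
  rw [_root_.zpow_add]; rfl

lemma zp_zero (x : X) : (T ^ (0 : ℤ) : X ≃ₜ X) x = x := by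
  rw [zpow_zero]; rfl

lemma zp_one (x : X) : (T ^ (1 : ℤ) : X ≃ₜ X) x = T x := by
  rw [zpow_one]

lemma zp_neg_one (x : X) : (T ^ (-1 : ℤ) : X ≃ₜ X) x = T.symm x := by
  rw [_root_.zpow_neg_one]; rfl

lemma zp_neg_cancel (n : ℤ) (x : X) : (T ^ (-n) : X ≃ₜ X) ((T ^ n : X ≃ₜ X) x) = x := by
  rw [← zp_add, neg_add_cancel, zp_zero]

lemma zp_cancel_neg (n : ℤ) (x : X) : (T ^ n : X ≃ₜ X) ((T ^ (-n) : X ≃ₜ X) x) = x := by
  rw [← zp_add, add_neg_cancel, zp_zero]

/-- `f ∘ T^n` -/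
def cT (n : ℤ) (f : C(X, ℂ)) : C(X, ℂ) := f.comp ⟨(T ^ n : X ≃ₜ X), (T ^ n : X ≃ₜ X).continuous⟩

@[simp] lemma cT_apply (n : ℤ) (f : C(X, ℂ)) (x : X) : cT T n f x = f ((T ^ n : X ≃ₜ X) x) := rfl

lemma cT_cT (m n : ℤ) (f : C(X, ℂ)) : cT T m (cT T n f) = cT T (n + m) f := by
  ext x
  simp only [cT_apply]
  rw [← zp_add]

lemma cT_zero (f : C(X, ℂ)) : cT T 0 f = f := by
  ext x; rw [cT_apply, zp_zero]

lemma cT_mul (n : ℤ) (f g : C(X, ℂ)) : cT T n (f * g) = cT T n f * cT T n g := rfl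

lemma pull_eq (f : C(X, ℂ)) : pull T f = cT T (-1) f := by
  ext x
  rw [cT_apply, zp_neg_one]; rfl

end zp

/-! ### Covariance -/

section cov
variable {X : Type} [TopologicalSpace X] [CompactSpace X] {T : X ≃ₜ X}
  {A : Type} [CStarAlgebra A] {ι : C(X, ℂ) →⋆ₐ[ℂ] A} {u : unitary A}

/-- the power `u ^ n` as an element of `A` -/
def up (u : unitary A) (n : ℤ) : A := ((u ^ n : unitary A) : A)

lemma up_add (u : unitary A) (m n : ℤ) : up u (m + n) = up u m * up u n := by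
  simp only [up]; rw [_root_.zpow_add]; rfl

lemma up_zero (u : unitary A) : up u 0 = 1 := by simp [up]

lemma up_one (u : unitary A) : up u 1 = (u : A) := by simp [up]

lemma up_neg (u : unitary A) (n : ℤ) : up u (-n) = star (up u n) := by
  simp only [up]; rw [_root_.zpow_neg]
  rfl

lemma star_up (u : unitary A) (n : ℤ) : star (up u n) = up u (-n) := (up_neg u n).symm

lemma up_mul_up_neg (u : unitary A) (n : ℤ) : up u n * up u (-n) = 1 := by
  rw [← up_add, add_neg_cancel, up_zero]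

lemma up_neg_mul_up (u : unitary A) (n : ℤ) : up u (-n) * up u n = 1 := by
  rw [← up_add, neg_add_cancel, up_zero]

lemma cov_one (h : Covariant T ι u) (f : C(X, ℂ)) : up u 1 * ι f = ι (cT T (-1) f) * up u 1 := by
  have h1 := h f
  rw [pull_eq] at h1
  rw [← h1, up_one, mul_assoc, Unitary.coe_star_mul_self, mul_one]

lemma cov_neg_one (h : Covariant T ι u) (f : C(X, ℂ)) :
    up u (-1) * ι f = ι (cT T 1 f) * up u (-1) := by
  have h1 := cov_one h (cT T 1 f)
  rw [cT_cT] at h1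
  norm_num at h1
  rw [cT_zero] at h1
  have h2 : up u (-1) * (up u 1 * ι (cT T 1 f)) * up u (-1) = up u (-1) * (ι f * up u 1) * up u (-1) := by
    rw [h1]
  rw [← mul_assoc, up_neg_mul_up, one_mul, ← mul_assoc, mul_assoc (up u (-1) * ι f), up_mul_up_neg,
    mul_one] at h2
  exact h2.symm

/-- `u^n ι(f) = ι(f ∘ T^{-n}) u^n` -/
lemma cov_up (h : Covariant T ι u) (n : ℤ) (f : C(X, ℂ)) :
    up u n * ι f = ι (cT T (-n) f) * up u n := by
  induction n using Int.induction_on with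
  | zero => simp [up_zero, cT_zero]
  | succ n ih =>
    rw [add_comm, up_add, mul_assoc, ih, ← mul_assoc, cov_one h, mul_assoc, cT_cT]
    congr 3
    ring
  | pred n ih =>
    rw [sub_eq_add_neg, add_comm, up_add, mul_assoc, ih, ← mul_assoc, cov_neg_one h, mul_assoc, cT_cT]
    congr 3
    ring

/-- `ι(f) u^n = u^n ι(f ∘ T^n)` -/
lemma cov_up' (h : Covariant T ι u) (n : ℤ) (f : C(X, ℂ)) :
    ι f * up u n = up u n * ι (cT T n f) := by
  rw [cov_up h, cT_cT, add_neg_cancel, cT_zero]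

lemma cov_conj (h : Covariant T ι u) (n : ℤ) (f : C(X, ℂ)) :
    up u n * ι f * up u (-n) = ι (cT T (-n) f) := by
  rw [cov_up h, mul_assoc, up_mul_up_neg, mul_one]

end cov

/-! ### Indicator functions -/

section indic
variable {X : Type} [TopologicalSpace X]

lemma ind_mem {S : Set X} (hS : IsClopen S) {x : X} (hx : x ∈ S) : ind S x = 1 := by
  simp [ind, hS, hx]

lemma ind_notMem {S : Set X} (hS : IsClopen S) {x : X} (hx : x ∉ S) : ind S x = 0 := by
  simp [ind, hS, hx]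

open Classical in
lemma ind_apply {S : Set X} (hS : IsClopen S) (x : X) : ind S x = if x ∈ S then 1 else 0 := by
  split_ifs with h
  · exact ind_mem hS h
  · exact ind_notMem hS h

lemma ind_mul {S S' : Set X} (hS : IsClopen S) (hS' : IsClopen S') :
    ind S * ind S' = ind (S ∩ S') := by
  classical
  ext x
  rw [ContinuousMap.mul_apply, ind_apply hS, ind_apply hS', ind_apply (hS.inter hS')]
  by_cases h1 : x ∈ S <;> by_cases h2 : x ∈ S' <;> simp [h1, h2]

lemma ind_empty : ind (∅ : Set X) = 0 := by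
  ext x
  rw [ind_notMem isClopen_empty (Set.notMem_empty x)]; rfl

lemma ind_univ : ind (Set.univ : Set X) = 1 := by
  ext x
  rw [ind_mem isClopen_univ (Set.mem_univ x)]; rfl

lemma ind_mul_self {S : Set X} (hS : IsClopen S) : ind S * ind S = ind S := by
  rw [ind_mul hS hS, Set.inter_self]

lemma star_ind (S : Set X) : star (ind S) = ind S := by
  classical
  ext x
  by_cases hS : IsClopen S
  · rw [ContinuousMap.star_apply, ind_apply hS]
    split_ifs <;> simp
  · simp [ind, hS]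

lemma ind_disj {S S' : Set X} (hS : IsClopen S) (hS' : IsClopen S') (h : Disjoint S S') :
    ind S * ind S' = 0 := by
  rw [ind_mul hS hS', Set.disjoint_iff_inter_eq_empty.mp h, ind_empty]

lemma ind_union {S S' : Set X} (hS : IsClopen S) (hS' : IsClopen S') (h : Disjoint S S') :
    ind (S ∪ S') = ind S + ind S' := by
  classical
  ext x
  rw [ContinuousMap.add_apply, ind_apply hS, ind_apply hS', ind_apply (hS.union hS')]
  have h3 : x ∈ S → x ∉ S' := fun h1 h2 => Set.disjoint_left.mp h h1 h2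
  by_cases h1 : x ∈ S <;> by_cases h2 : x ∈ S' <;> simp_all

lemma isClopen_pre (T : X ≃ₜ X) (n : ℤ) {S : Set X} (hS : IsClopen S) :
    IsClopen ((T ^ n : X ≃ₜ X) ⁻¹' S) := hS.preimage (T ^ n : X ≃ₜ X).continuous

lemma cT_ind (T : X ≃ₜ X) (n : ℤ) {S : Set X} (hS : IsClopen S) :
    cT T n (ind S) = ind ((T ^ n : X ≃ₜ X) ⁻¹' S) := by
  classical
  ext x
  rw [cT_apply, ind_apply hS, ind_apply (isClopen_pre T n hS)]; rfl

end indic

/-! ### Tower data -/

namespace TowerData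
variable {X : Type} [TopologicalSpace X] {T : X ≃ₜ X} (D : TowerData X T)

lemma V_anti {m n : ℕ} (h : m ≤ n) : D.V n ⊆ D.V m := by
  induction n, h using Nat.le_induction with
  | base => exact le_rfl
  | succ n _ ih => exact (D.V_succ n).trans ih

lemma h_dvd {m n : ℕ} (h : m ≤ n) : D.h m ∣ D.h n := by
  induction n, h using Nat.le_induction with
  | base => exact dvd_rfl
  | succ n _ ih => rw [D.h_succ]; exact dvd_mul_of_dvd_right ih _

lemma h_mono {m n : ℕ} (h : m ≤ n) : D.h m ≤ D.h n := Nat.le_of_dvd (D.h_pos n) (D.h_dvd h)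

lemma q_pos (n : ℕ) : 0 < D.q n := by
  have h := D.h_pos (n + 1)
  rw [D.h_succ] at h
  exact Nat.pos_of_mul_pos_right h |> fun h' => by
    rcases Nat.eq_zero_or_pos (D.q n) with h0 | h0
    · rw [h0] at h; simp at h
    · exact h0

/-- `T^{-h} V = V` -/
lemma ret_neg (n : ℕ) (x : X) (hx : x ∈ D.V n) : (T ^ (-(D.h n : ℤ)) : X ≃ₜ X) x ∈ D.V n := by
  obtain ⟨i, ⟨hi, hi'⟩, -⟩ := D.part n ((T ^ (-(D.h n : ℤ)) : X ≃ₜ X) x)
  have h1 := D.ret n _ hi'
  rw [← zp_add, ← zp_add] at h1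
  have h2 : ((D.h n : ℤ) + -(i : ℤ) + -(D.h n : ℤ)) = -(i : ℤ) := by ring
  rw [h2] at h1
  obtain ⟨j, -, hj⟩ := D.part n x
  have h3 := hj i ⟨hi, h1⟩
  have h4 := hj 0 ⟨D.h_pos n, by
    simp only [Nat.cast_zero, neg_zero]; rw [zp_zero]; exact hx⟩
  have h5 : i = 0 := by rw [h3, ← h4]
  rw [h5] at hi'
  simp only [Nat.cast_zero, neg_zero] at hi'
  rwa [zp_zero] at hi'

lemma ret_mul (n : ℕ) (k : ℤ) (x : X) (hx : x ∈ D.V n) :
    (T ^ (k * (D.h n : ℤ)) : X ≃ₜ X) x ∈ D.V n := by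
  induction k using Int.induction_on with
  | zero => rw [zero_mul, zp_zero]; exact hx
  | succ k ih =>
    have h := D.ret n _ ih
    rw [← zp_add] at h
    convert h using 3
    ring
  | pred k ih =>
    have h := D.ret_neg n _ ih
    rw [← zp_add] at h
    convert h using 3
    ring

/-- for `x ∈ V n`: `T^i x ∈ V n` iff `h n ∣ i` -/
lemma mem_V_iff (n : ℕ) (i : ℤ) (x : X) (hx : x ∈ D.V n) :
    (T ^ i : X ≃ₜ X) x ∈ D.V n ↔ (D.h n : ℤ) ∣ i := by
  constructor
  · intro h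
    have hpos : (0 : ℤ) < D.h n := by exact_mod_cast D.h_pos n
    have h0 := Int.emod_nonneg i hpos.ne'
    have h1 := Int.emod_lt_of_pos i hpos
    have h2 := D.ret_mul n (-(i / D.h n)) _ h
    rw [← zp_add] at h2
    have h3 : -(i / (D.h n : ℤ)) * (D.h n : ℤ) + i = i % D.h n := by
      have := Int.mul_ediv_add_emod i (D.h n)
      linarith
    rw [h3] at h2
    obtain ⟨k, hk⟩ := Int.eq_ofNat_of_zero_le h0
    rw [hk] at h2 h1
    obtain ⟨j, -, hj⟩ := D.part n ((T ^ (k : ℤ) : X ≃ₜ X) x)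
    have h4 := hj k ⟨by exact_mod_cast h1, by rw [zp_neg_cancel]; exact hx⟩
    have h5 := hj 0 ⟨D.h_pos n, by
      simp only [Nat.cast_zero, neg_zero]; rw [zp_zero]; exact h2⟩
    have h6 : k = 0 := by rw [h4, ← h5]
    rw [h6] at hk
    exact Int.dvd_of_emod_eq_zero (by simpa using hk)
  · rintro ⟨k, rfl⟩
    rw [mul_comm]
    exact D.ret_mul n k x hx

lemma preimage_h (n : ℕ) (k : ℤ) : (T ^ (k * (D.h n : ℤ)) : X ≃ₜ X) ⁻¹' D.V n = D.V n := by
  ext x
  constructor
  · intro h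
    have h2 := D.ret_mul n (-k) _ h
    rw [← zp_add] at h2
    have h3 : -k * (D.h n : ℤ) + k * (D.h n : ℤ) = 0 := by ring
    rwa [h3, zp_zero] at h2
  · intro h
    exact D.ret_mul n k x h

/-- the levels `T^{-i} V` and `T^{-j} V` are disjoint if `0 < |i - j| < h` -/
lemma disj (n : ℕ) (i j : ℤ) (h1 : i ≠ j) (h2 : |i - j| < D.h n) :
    Disjoint ((T ^ i : X ≃ₜ X) ⁻¹' D.V n) ((T ^ j : X ≃ₜ X) ⁻¹' D.V n) := by
  rw [Set.disjoint_left]
  intro x hi hj
  have h3 : (T ^ (i - j) : X ≃ₜ X) ((T ^ j : X ≃ₜ X) x) ∈ D.V n := by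
    rw [← zp_add, sub_add_cancel]; exact hi
  have h4 := (D.mem_V_iff n (i - j) _ hj).mp h3
  have h5 := Int.le_of_dvd (abs_pos.mpr (sub_ne_zero.mpr h1)) ((dvd_abs _ _).mpr h4)
  omega

lemma q_ge_two (n : ℕ) : 2 ≤ D.q n := by
  obtain ⟨i, hi⟩ := D.free_nonempty (n + 1)
  have h1 := ((D.free_succ n i).mp hi).1
  have h2 := D.fidx_lt n _ h1
  omega

/-- positions in the first and the last sub-block are frozen -/
lemma not_free_of_lt {n i : ℕ} (h : i < D.h n) : i ∉ D.free (n + 1) := by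
  intro hi
  have h1 := ((D.free_succ n i).mp hi).1
  rw [Nat.div_eq_of_lt h] at h1
  exact absurd (D.fidx_lt n 0 h1).1 (lt_irrefl 0)

lemma not_free_of_ge {n i : ℕ} (h : D.h (n + 1) ≤ i + D.h n) : i ∉ D.free (n + 1) := by
  intro hi
  have h1 := ((D.free_succ n i).mp hi).1
  have h2 := (D.fidx_lt n _ h1).2
  have h3 : D.h (n + 1) = D.q n * D.h n := D.h_succ n
  have h4 : i < (i / D.h n + 1) * D.h n := by
    have := Nat.lt_div_mul_add (D.h_pos n) (a := i)
    nlinarith [Nat.div_add_mod i (D.h n), Nat.mod_lt i (D.h_pos n)]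
  have h5 : (i / D.h n + 2) * D.h n ≤ D.q n * D.h n := Nat.mul_le_mul_right _ (by omega)
  nlinarith

lemma card_free_succ (n : ℕ) : (D.free (n + 1)).card = (D.fidx n).card * (D.free n).card := by
  rw [← Finset.card_product]
  refine Finset.card_bij' (fun i _ => (i / D.h n, i % D.h n)) (fun p _ => p.1 * D.h n + p.2)
    ?_ ?_ ?_ ?_
  · intro i hi
    exact Finset.mem_product.mpr ((D.free_succ n i).mp hi)
  · rintro ⟨j, k⟩ hjk
    obtain ⟨hj, hk⟩ := Finset.mem_product.mp hjk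
    have hk' := D.free_lt n k hk
    rw [D.free_succ]
    simp only
    rw [add_comm, Nat.add_mul_div_right _ _ (D.h_pos n), Nat.div_eq_of_lt hk', zero_add,
      Nat.add_mul_mod_self_right, Nat.mod_eq_of_lt hk']
    exact ⟨hj, hk⟩
  · intro i hi
    simp only
    rw [mul_comm]; exact Nat.div_add_mod i (D.h n)
  · rintro ⟨j, k⟩ hjk
    obtain ⟨hj, hk⟩ := Finset.mem_product.mp hjk
    have hk' := D.free_lt n k hk
    simp only [Prod.mk.injEq]
    rw [add_comm, Nat.add_mul_div_right _ _ (D.h_pos n), Nat.div_eq_of_lt hk', zero_add,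
      Nat.add_mul_mod_self_right, Nat.mod_eq_of_lt hk']
    exact ⟨rfl, rfl⟩

/-- every position `i < h m` is either free at level `n ≤ m` after reduction mod `h n` or not; free
positions at level `m` are free at level `n` -/
lemma free_mod {n m : ℕ} (h : n ≤ m) (i : ℕ) (hi : i ∈ D.free m) : i % D.h n ∈ D.free n := by
  induction m, h using Nat.le_induction generalizing i with
  | base => rw [Nat.mod_eq_of_lt (D.free_lt n i hi)]; exact hi
  | succ m hm ih =>
    have h1 := ih _ ((D.free_succ m i).mp hi).2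
    rwa [Nat.mod_mod_of_dvd _ (D.h_dvd hm)] at h1

lemma VT_sub (n : ℕ) (s : Bool) : D.VT n s ⊆ D.V n := fun _ h => h.1

lemma isClopen_VT (n : ℕ) (s : Bool) : IsClopen (D.VT n s) := by
  have h : D.VT n s = D.V n ∩ ⋂ i ∈ D.free n, (fun x => D.ty ((T ^ (i : ℤ) : X ≃ₜ X) x)) ⁻¹' {s} := by
    ext x
    simp [VT]
  rw [h]
  refine (D.isClopen_V n).inter (Set.Finite.isClopen_biInter (Finset.finite_toSet _) fun i _ => ?_)
  exact (isClopen_discrete {s}).preimage (D.continuous_ty.comp (T ^ (i : ℤ) : X ≃ₜ X).continuous)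

lemma VT_disj (n : ℕ) : Disjoint (D.VT n false) (D.VT n true) := by
  rw [Set.disjoint_left]
  intro x h1 h2
  obtain ⟨i, hi⟩ := D.free_nonempty n
  have := (h1.2 i hi).symm.trans (h2.2 i hi)
  simp at this

lemma VT_union (n : ℕ) : D.VT n false ∪ D.VT n true = D.V n := by
  ext x
  constructor
  · rintro (h | h) <;> exact h.1
  · intro h
    obtain ⟨i, hi⟩ := D.free_nonempty n
    rcases hb : D.ty ((T ^ (i : ℤ) : X ≃ₜ X) x) with _ | _
    · left
      exact ⟨h, fun j hj => (D.free_ty n x h j hj i hi).trans hb⟩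
    · right
      exact ⟨h, fun j hj => (D.free_ty n x h j hj i hi).trans hb⟩

lemma mem_VT_or (n : ℕ) (x : X) (hx : x ∈ D.V n) : x ∈ D.VT n false ∨ x ∈ D.VT n true := by
  rw [← D.VT_union n] at hx; exact hx

lemma VT_nonempty (n : ℕ) (s : Bool) : (D.VT n s).Nonempty := by
  obtain ⟨x, hx, h⟩ := D.surj n s (fun _ => fun m => ⟨0, ⟨0, by simp, by simp⟩⟩) (by
    intro i _
    cases s
    · intro m _ i j; rfl
    · exact Set.mem_univ _)
  exact ⟨x, hx, fun i hi => (h i hi).1⟩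

end TowerData

end Run7.h745
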