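import Pool.Agent.Run7.h745.Basic

/-!
# Basic lemmas for the pieces, part 2: orbit representations and matrix units
-/

set_option autoImplicit false
set_option linter.unusedSectionVars false

noncomputable section

namespace Run7.h745

open Filter Topology Matrix Pool.Agent.TH249
open scoped ENNReal NNReal InnerProductSpace

/-! ### The Hilbert space `ℓ²(ℤ)` -/

lemma dl_inner (i : ℤ) (f : HH) : ⟪dl i, f⟫_ℂ = f i := by
  rw [dl, lp.inner_single_left]
  simp

lemma dl_apply (i j : ℤ) : (dl i : HH) j = if j = i then 1 else 0 := by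
  rw [dl, lp.single_apply, Pi.single_apply]

lemma dl_dl (i j : ℤ) : ⟪dl i, dl j⟫_ℂ = if i = j then 1 else 0 := by
  rw [dl_inner, dl_apply]

lemma dl_norm (i : ℤ) : ‖dl i‖ = 1 := by
  rw [dl, lp.norm_single (by norm_num)]; simp

/-- operators are determined by their values on the basis -/
lemma HH_ext {S S' : HH →L[ℂ] HH} (h : ∀ j, S (dl j) = S' (dl j)) : S = S' := by
  ext1 f
  have h1 := (lp.hasSum_single (by norm_num : (2 : ℝ≥0∞) ≠ ⊤) f)
  have h2 : HasSum (fun i => (f i) • dl i) f := by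
    convert h1 using 2 with i
    rw [dl, ← lp.single_smul]
    simp
  have h3 := S.hasSum h2
  have h4 := S'.hasSum h2
  simp only [map_smul, h] at h3 h4
  exact h3.unique h4

lemma HH_ext' {S S' : HH →L[ℂ] HH} (h : ∀ i j, ⟪dl i, S (dl j)⟫_ℂ = ⟪dl i, S' (dl j)⟫_ℂ) :
    S = S' := by
  refine HH_ext fun j => ?_
  ext i
  rw [← dl_inner, ← dl_inner]
  exact h i j

lemma star_coef (S : HH →L[ℂ] HH) (i j : ℤ) :
    ⟪dl i, (star S) (dl j)⟫_ℂ = star ⟪dl j, S (dl i)⟫_ℂ := by
  rw [ContinuousLinearMap.star_eq_adjoint, ContinuousLinearMap.adjoint_inner_right]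
  exact (inner_conj_symm _ _).symm

lemma coef_le (S : HH →L[ℂ] HH) (i j : ℤ) : ‖⟪dl i, S (dl j)⟫_ℂ‖ ≤ ‖S‖ := by
  calc ‖⟪dl i, S (dl j)⟫_ℂ‖ ≤ ‖dl i‖ * ‖S (dl j)‖ := norm_inner_le_norm _ _
    _ ≤ 1 * (‖S‖ * ‖dl j‖) := by
        rw [dl_norm]
        exact mul_le_mul_of_nonneg_left (S.le_opNorm _) zero_le_one
    _ = ‖S‖ := by rw [dl_norm]; ring

/-! ### Orbit representations -/

section orb
variable {X : Type} [TopologicalSpace X] [CompactSpace X] {T : X ≃ₜ X}
  {A : Type} [CStarAlgebra A] {ι : C(X, ℂ) →⋆ₐ[ℂ] A} {u : unitary A} {x : X}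
  {π : A →⋆ₐ[ℂ] (HH →L[ℂ] HH)}

lemma IsOrbitRep.up (h : IsOrbitRep T ι u x π) (n i : ℤ) : π (up u n) (dl i) = dl (i + n) := by
  have h1 : ∀ i, π (h745.up u (-1)) (dl i) = dl (i - 1) := by
    intro i
    have h2 := h.sh (i - 1)
    rw [sub_add_cancel] at h2
    rw [← h2, ← up_one, ← mul_apply_eq_comp, ← map_mul, up_neg_mul_up, map_one]; rfl
  induction n using Int.induction_on generalizing i with
  | zero => rw [up_zero, map_one, add_zero]; rfl
  | succ n ih =>
    rw [up_add, map_mul, mul_apply_eq_comp, up_one, h.sh, ih]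
    congr 1; ring
  | pred n ih =>
    rw [sub_eq_add_neg, up_add, map_mul, mul_apply_eq_comp, h1, ih]
    congr 1; ring

lemma IsOrbitRep.fn_up (h : IsOrbitRep T ι u x π) (f : C(X, ℂ)) (n i : ℤ) :
    π (ι f * h745.up u n) (dl i) = f ((T ^ (i + n) : X ≃ₜ X) x) • dl (i + n) := by
  rw [map_mul, mul_apply_eq_comp, h.up, h.fn]

lemma IsOrbitRep.conj (h : IsOrbitRep T ι u x π) (f : C(X, ℂ)) (m n i : ℤ) :
    π (h745.up u m * ι f * h745.up u n) (dl i) = f ((T ^ (i + n) : X ≃ₜ X) x) • dl (i + n + m) := by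
  rw [mul_assoc, map_mul, mul_apply_eq_comp, h.fn_up, map_smul, h.up]

end orb

/-! ### Matrix units -/

section mu
variable {X : Type} [TopologicalSpace X] [CompactSpace X] {T : X ≃ₜ X} (D : TowerData X T)
  {A : Type} [CStarAlgebra A] (ι : C(X, ℂ) →⋆ₐ[ℂ] A) (u : unitary A)

/-- `u^i f χ_{V n} u^{-j}` -/
def TowerData.eu (n : ℕ) (f : C(X, ℂ)) (i j : ℤ) : A :=
  up u i * ι (ind (D.V n) * f) * up u (-j)

variable {ι u}

lemma TowerData.star_eu (n : ℕ) (f : C(X, ℂ)) (i j : ℤ) :
    star (D.eu ι u n f i j) = D.eu ι u n (star f) j i := by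
  simp only [TowerData.eu, star_mul, star_up, neg_neg, ← map_star, star_ind]
  rw [mul_assoc, mul_comm (star f)]

/-- product of matrix units with the same inner index -/
lemma TowerData.eu_mul_same (n : ℕ) (f g : C(X, ℂ)) (i j k : ℤ) :
    D.eu ι u n f i j * D.eu ι u n g j k = D.eu ι u n (f * g) i k := by
  simp only [TowerData.eu]
  calc up u i * ι (ind (D.V n) * f) * up u (-j) * (up u j * ι (ind (D.V n) * g) * up u (-k))
      = up u i * (ι (ind (D.V n) * f) * (up u (-j) * up u j) * ι (ind (D.V n) * g)) * up u (-k) := by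
        noncomm_ring
    _ = _ := by
        rw [up_neg_mul_up, mul_one, ← map_mul]
        congr 3
        calc ind (D.V n) * f * (ind (D.V n) * g) = (ind (D.V n) * ind (D.V n)) * (f * g) := by ring
          _ = _ := by rw [ind_mul_self (D.isClopen_V n)]

/-- product of matrix units with different inner indices -/
lemma TowerData.eu_mul_diff (hc : Covariant T ι u) (n : ℕ) (f g : C(X, ℂ)) (i j j' k : ℤ)
    (h1 : j ≠ j') (h2 : |j - j'| < D.h n) :
    D.eu ι u n f i j * D.eu ι u n g j' k = 0 := by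
  simp only [TowerData.eu]
  calc up u i * ι (ind (D.V n) * f) * up u (-j) * (up u j' * ι (ind (D.V n) * g) * up u (-k))
      = up u i * (ι (ind (D.V n) * f) * ((up u (-j) * up u j') * ι (ind (D.V n) * g))) * up u (-k) := by
        noncomm_ring
    _ = up u i * (ι ((ind (D.V n) * f) * cT T (-(-j + j')) (ind (D.V n) * g)) * up u (-j + j')) *
          up u (-k) := by
        rw [← up_add, cov_up hc, ← mul_assoc (ι (ind (D.V n) * f)), ← map_mul]
    _ = 0 := by
        have h3 : (ind (D.V n) * f) * cT T (-(-j + j')) (ind (D.V n) * g) = 0 := by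
          rw [cT_mul, cT_ind T _ (D.isClopen_V n)]
          have h4 := D.disj n 0 (-(-j + j')) (by omega) (by
            have : (0 - -(-j + j') : ℤ) = -(j - j') := by ring
            rw [this, abs_neg]; exact h2)
          have h5 : (T ^ (0 : ℤ) : X ≃ₜ X) ⁻¹' D.V n = D.V n := by
            ext x; rw [Set.mem_preimage, zp_zero]
          rw [h5] at h4
          have h6 := ind_disj (D.isClopen_V n) (isClopen_pre T _ (D.isClopen_V n)) h4
          calc ind (D.V n) * f * (ind ((T ^ (-(-j + j')) : X ≃ₜ X) ⁻¹' D.V n) *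
                cT T (-(-j + j')) g)
              = (ind (D.V n) * ind ((T ^ (-(-j + j')) : X ≃ₜ X) ⁻¹' D.V n)) *
                (f * cT T (-(-j + j')) g) := by ring
            _ = 0 := by rw [h6, zero_mul]
        rw [h3, map_zero, zero_mul, mul_zero, zero_mul]

/-- shift by multiples of the height -/
lemma TowerData.eu_shift (hc : Covariant T ι u) (n : ℕ) (f : C(X, ℂ)) (i j k : ℤ) :
    D.eu ι u n f (i + k * D.h n) (j + k * D.h n) = D.eu ι u n (cT T (-(k * D.h n)) f) i j := by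
  simp only [TowerData.eu]
  rw [up_add, neg_add, add_comm (-j), up_add, mul_assoc (up u i), mul_assoc (up u i), ← mul_assoc _ (up u (-(k * (D.h n : ℤ)))),
    cov_conj hc, cT_mul, cT_ind T _ (D.isClopen_V n)]
  have h1 : -(k * (D.h n : ℤ)) = (-k) * (D.h n : ℤ) := by ring
  rw [h1, D.preimage_h n (-k), mul_assoc]

lemma TowerData.ind_eu (hc : Covariant T ι u) (n : ℕ) (f g : C(X, ℂ)) (i j : ℤ) :
    ι g * D.eu ι u n f i j = D.eu ι u n (cT T i g * f) i j := by
  simp only [TowerData.eu]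
  rw [← mul_assoc, ← mul_assoc, cov_up' hc, mul_assoc (up u i), ← map_mul]
  congr 3
  ring

lemma TowerData.eu_ind (hc : Covariant T ι u) (n : ℕ) (f g : C(X, ℂ)) (i j : ℤ) :
    D.eu ι u n f i j * ι g = D.eu ι u n (f * cT T j g) i j := by
  simp only [TowerData.eu]
  rw [mul_assoc (up u i * ι (ind (D.V n) * f)), cov_up hc (-j) g, ← mul_assoc,
    mul_assoc (up u i) (ι (ind (D.V n) * f)), ← map_mul, neg_neg, mul_assoc (ind (D.V n))]

lemma TowerData.up_eu (n : ℕ) (f : C(X, ℂ)) (i j k : ℤ) :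
    up u k * D.eu ι u n f i j = D.eu ι u n f (k + i) j := by
  simp only [TowerData.eu]
  rw [← mul_assoc, ← mul_assoc, ← up_add]

lemma TowerData.eu_up (n : ℕ) (f : C(X, ℂ)) (i j k : ℤ) :
    D.eu ι u n f i j * up u k = D.eu ι u n f i (j - k) := by
  simp only [TowerData.eu]
  rw [mul_assoc, ← up_add]
  congr 2; ring

lemma TowerData.eu_add (n : ℕ) (f g : C(X, ℂ)) (i j : ℤ) :
    D.eu ι u n (f + g) i j = D.eu ι u n f i j + D.eu ι u n g i j := by
  simp only [TowerData.eu]
  rw [mul_add, map_add, mul_add, add_mul]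

lemma TowerData.eu_smul (n : ℕ) (c : ℂ) (f : C(X, ℂ)) (i j : ℤ) :
    D.eu ι u n (c • f) i j = c • D.eu ι u n f i j := by
  simp only [TowerData.eu]
  rw [mul_smul_comm, map_smul, mul_smul_comm, smul_mul_assoc]

lemma TowerData.eu_sum {α : Type} (s : Finset α) (n : ℕ) (f : α → C(X, ℂ)) (i j : ℤ) :
    D.eu ι u n (∑ a ∈ s, f a) i j = ∑ a ∈ s, D.eu ι u n (f a) i j := by
  simp only [TowerData.eu]
  rw [Finset.mul_sum, map_sum, Finset.mul_sum, Finset.sum_mul]

/-- partition of unity -/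
lemma TowerData.sum_eu (hc : Covariant T ι u) (n : ℕ) :
    ∑ i ∈ Finset.range (D.h n), D.eu ι u n 1 i i = 1 := by
  classical
  have h1 : ∀ i : ℕ, D.eu ι u n 1 i i = ι (ind ((T ^ (-(i : ℤ)) : X ≃ₜ X) ⁻¹' D.V n)) := by
    intro i
    simp only [TowerData.eu]
    rw [mul_one, cov_conj hc, cT_ind T _ (D.isClopen_V n)]
  simp only [h1]
  rw [← map_sum, ← map_one ι]
  congr 1
  ext x
  rw [ContinuousMap.sum_apply, ContinuousMap.one_apply]
  obtain ⟨i, ⟨hi, hi'⟩, hu⟩ := D.part n x
  rw [Finset.sum_eq_single i]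
  · exact ind_mem (isClopen_pre T _ (D.isClopen_V n)) hi'
  · intro j hj hji
    refine ind_notMem (isClopen_pre T _ (D.isClopen_V n)) fun h => hji ?_
    exact hu j ⟨Finset.mem_range.mp hj, h⟩
  · intro h
    exact absurd (Finset.mem_range.mpr hi) h

end mu

end Run7.h745
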