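import Pool.Agent.Run7.h745.Basic2

/-!
# Basic lemmas for the pieces, part 3: Laurent approximation by block functions
-/

set_option autoImplicit false
set_option linter.unusedSectionVars false

noncomputable section

namespace Run7.h745

open Filter Topology Matrix Pool.Agent.TH249
open scoped ENNReal NNReal InnerProductSpace

section
variable {X : Type} [TopologicalSpace X] [CompactSpace X] {T : X ≃ₜ X}
  {A : Type} [CStarAlgebra A] {ι : C(X, ℂ) →⋆ₐ[ℂ] A} {u : unitary A} {x : X}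
  {π : A →⋆ₐ[ℂ] (HH →L[ℂ] HH)}

/-- functions act diagonally -/
lemma IsOrbitRep.coef (h : IsOrbitRep T ι u x π) (f : C(X, ℂ)) (η : HH) (i : ℤ) :
    ⟪dl i, π (ι f) η⟫_ℂ = f ((T ^ i : X ≃ₜ X) x) * ⟪dl i, η⟫_ℂ := by
  have h1 : π (ι f) = star (π (ι (star f))) := by rw [← map_star, ← map_star, star_star]
  rw [h1, ContinuousLinearMap.star_eq_adjoint, ContinuousLinearMap.adjoint_inner_right, h.fn,
    inner_smul_left, ContinuousMap.star_apply]
  simp

variable (u) in
/-- the Laurent polynomial `∑ ι(f_k) u^k`, `|k| ≤ L` -/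
def laur (ι : C(X, ℂ) →⋆ₐ[ℂ] A) (L : ℕ) (f : ℤ → C(X, ℂ)) : A :=
  ∑ k ∈ Finset.Icc (-(L : ℤ)) L, ι (f k) * up u k

lemma laur_mono {L L' : ℕ} (hL : L ≤ L') (f : ℤ → C(X, ℂ)) (hf : ∀ k : ℤ, (L : ℤ) < |k| → f k = 0) :
    laur u ι L' f = laur u ι L f := by
  unfold laur
  refine (Finset.sum_subset (Finset.Icc_subset_Icc (by omega) (by omega)) fun k _ hk => ?_).symm
  rw [hf k, map_zero, zero_mul]
  rw [Finset.mem_Icc, not_and_or] at hk
  rw [lt_abs]; omega

/-- approximation by Laurent polynomials with coefficients determined by blocks -/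
lemma laur_approx (D : TowerData X T) [T2Space X] (hA : IsCrossedProduct T ι u) (s3b : S_SYS3b)
    (cp3 : S_CP3) (a : A) (ε : ℝ) (hε : 0 < ε) :
    ∃ (L N₀ : ℕ) (f : ℤ → C(X, ℂ)), (∀ k n, N₀ ≤ n → D.IsC n (f k) ∧ D.IsP n (f k)) ∧
      (∀ k : ℤ, (L : ℤ) < |k| → f k = 0) ∧ ‖a - laur u ι L f‖ < ε := by
  obtain ⟨L, g, hg⟩ := cp3 X T A ι u hA a (ε / 2) (by positivity)
  have h1 : ∀ k : ℤ, ∃ (n₀ : ℕ) (g' : C(X, ℂ)), ‖g k - g'‖ < ε / (2 * (2 * L + 2)) ∧
      ∀ n, n₀ ≤ n → D.IsC n g' ∧ D.IsP n g' := fun k => s3b X T D (g k) _ (by positivity)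
  choose n₀ g' hg' hn₀ using h1
  let S := Finset.Icc (-(L : ℤ)) L
  have hz : ∀ n, D.IsC n (0 : C(X, ℂ)) ∧ D.IsP n (0 : C(X, ℂ)) := by
    intro n
    refine ⟨fun x _ y _ _ i _ => rfl, fun i _ => ⟨0, fun x _ ζ _ => by simp⟩⟩
  refine ⟨L, S.sup n₀, fun k => if k ∈ S then g' k else 0, ?_, ?_, ?_⟩
  · intro k n hn
    by_cases hk : k ∈ S
    · simp only [hk, if_true]
      exact hn₀ k n ((Finset.le_sup hk).trans hn)
    · simp only [hk, if_false]
      exact hz n
  · intro k hk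
    have : k ∉ S := by
      rw [Finset.mem_Icc]
      rw [lt_abs] at hk; omega
    simp only [this, if_false]
  · have h2 : laur u ι L (fun k => if k ∈ S then g' k else 0) = laur u ι L g' := by
      unfold laur
      refine Finset.sum_congr rfl fun k hk => ?_
      have hk' : k ∈ S := hk
      simp only [hk', if_true]
    rw [h2]
    have h3 : ‖laur u ι L g - laur u ι L g'‖ ≤ ε / 2 := by
      unfold laur
      rw [← Finset.sum_sub_distrib]
      calc ‖∑ k ∈ Finset.Icc (-(L : ℤ)) L, (ι (g k) * up u k - ι (g' k) * up u k)‖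
          ≤ ∑ k ∈ Finset.Icc (-(L : ℤ)) L, ‖ι (g k) * up u k - ι (g' k) * up u k‖ :=
            norm_sum_le _ _
        _ ≤ ∑ k ∈ Finset.Icc (-(L : ℤ)) (L : ℤ), ε / (2 * (2 * L + 2)) := by
            refine Finset.sum_le_sum fun k _ => ?_
            rw [← sub_mul, ← map_sub]
            have h4 : ‖ι (g k - g' k) * up u k‖ = ‖ι (g k - g' k)‖ :=
              CStarRing.norm_mul_mem_unitary _ (u ^ k).2
            rw [h4]
            exact (NonUnitalStarAlgHom.norm_apply_le ι _).trans (hg' k).le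
        _ = (2 * L + 1) * (ε / (2 * (2 * L + 2))) := by
            rw [Finset.sum_const, Int.card_Icc, nsmul_eq_mul]
            congr 1
            have : ((L : ℤ) + 1 - -(L : ℤ)).toNat = 2 * L + 1 := by omega
            rw [this]; push_cast; ring
        _ ≤ (2 * L + 2) * (ε / (2 * (2 * L + 2))) :=
            mul_le_mul_of_nonneg_right (by linarith) (by positivity)
        _ = ε / 2 := by field_simp
    have h5 : ‖a - laur u ι L g‖ < ε / 2 := hg
    calc ‖a - laur u ι L g'‖ = ‖(a - laur u ι L g) + (laur u ι L g - laur u ι L g')‖ := by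
          congr 1; abel
      _ ≤ ‖a - laur u ι L g‖ + ‖laur u ι L g - laur u ι L g'‖ := norm_add_le _ _
      _ < ε / 2 + ε / 2 := by linarith
      _ = ε := by ring

/-- coefficients of Laurent polynomials in orbit representations -/
lemma IsOrbitRep.laur_dl (h : IsOrbitRep T ι u x π) (L : ℕ) (f : ℤ → C(X, ℂ)) (p : ℤ) :
    π (laur u ι L f) (dl p) = ∑ k ∈ Finset.Icc (-(L : ℤ)) L,
      f k ((T ^ (p + k) : X ≃ₜ X) x) • dl (p + k) := by
  unfold laur
  rw [map_sum, _root_.sum_apply]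
  exact Finset.sum_congr rfl fun k _ => h.fn_up (f k) k p

lemma IsOrbitRep.laur_coef (h : IsOrbitRep T ι u x π) (L : ℕ) (f : ℤ → C(X, ℂ))
    (hf : ∀ k : ℤ, (L : ℤ) < |k| → f k = 0) (i p : ℤ) :
    ⟪dl i, π (laur u ι L f) (dl p)⟫_ℂ = f (i - p) ((T ^ i : X ≃ₜ X) x) := by
  rw [h.laur_dl, inner_sum]
  by_cases hip : i - p ∈ Finset.Icc (-(L : ℤ)) L
  · rw [Finset.sum_eq_single (i - p)]
    · rw [inner_smul_right, dl_dl, show p + (i - p) = i by ring]
      simp
    · intro k _ hk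
      rw [inner_smul_right, dl_dl, if_neg (by intro h'; apply hk; rw [h']; ring), mul_zero]
    · intro h'; exact absurd hip h'
  · rw [Finset.sum_eq_zero]
    · rw [hf (i - p) (by rw [Finset.mem_Icc, not_and_or] at hip; rw [lt_abs]; omega)]; rfl
    · intro k hk
      rw [inner_smul_right, dl_dl, if_neg (by intro h'; apply hip; rw [h']; simpa using hk), mul_zero]

end

/-! ### Types of sub-blocks -/

namespace TowerData
variable {X : Type} [TopologicalSpace X] {T : X ≃ₜ X} (D : TowerData X T)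

/-- the positions of level `n₂` sub-blocks of type `b` in a level `n` block of type `s` are
determined -/
lemma mem_VT_congr {n n₂ : ℕ} (hn : n₂ ≤ n) (s b : Bool) (x y : X) (hx : x ∈ D.VT n s)
    (hy : y ∈ D.VT n s) (i : ℕ) (hi : i < D.h n) :
    (T ^ (i : ℤ) : X ≃ₜ X) x ∈ D.VT n₂ b ↔ (T ^ (i : ℤ) : X ≃ₜ X) y ∈ D.VT n₂ b := by
  have main : ∀ x y : X, x ∈ D.VT n s → y ∈ D.VT n s →
      (T ^ (i : ℤ) : X ≃ₜ X) x ∈ D.VT n₂ b → (T ^ (i : ℤ) : X ≃ₜ X) y ∈ D.VT n₂ b := by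
    intro x y hx hy h
    have h1 := (D.mem_V_iff n₂ i x (D.V_anti hn hx.1)).mp h.1
    refine ⟨(D.mem_V_iff n₂ i y (D.V_anti hn hy.1)).mpr h1, fun p hp => ?_⟩
    have h2 := h.2 p hp
    rw [← zp_add] at h2 ⊢
    have hp' := D.free_lt n₂ p hp
    have h3 : (p : ℤ) + (i : ℤ) = ((i + p : ℕ) : ℤ) := by push_cast; ring
    rw [h3] at h2 ⊢
    have h4 : i + p < D.h n := by
      obtain ⟨a, ha⟩ := D.h_dvd hn
      obtain ⟨c, hc⟩ := Int.natCast_dvd_natCast.mp h1
      have h5 : c < a := by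
        rw [hc, ha] at hi
        exact Nat.lt_of_mul_lt_mul_left hi
      calc i + p < D.h n₂ * c + D.h n₂ := by omega
        _ = D.h n₂ * (c + 1) := by ring
        _ ≤ D.h n₂ * a := Nat.mul_le_mul_left _ h5
        _ = D.h n := ha.symm
    by_cases h6 : i + p ∈ D.free n
    · rw [hx.2 _ h6] at h2
      rw [hy.2 _ h6]; exact h2
    · rw [(D.frozen n x hx.1 _ h4 h6).1] at h2
      rw [(D.frozen n y hy.1 _ h4 h6).1]; exact h2
  exact ⟨main x y hx hy, main y x hy hx⟩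

/-- the level `i` of a block is free at level `n₀` -/
lemma mem_FS_iff {n₀ : ℕ} (x : X) (hx : x ∈ D.V n₀) (i : ℕ) :
    (T ^ (i : ℤ) : X ≃ₜ X) x ∈ D.FS n₀ ↔ i % D.h n₀ ∈ D.free n₀ := by
  have hpos := D.h_pos n₀
  constructor
  · rintro ⟨j, hj, h⟩
    rw [← zp_add] at h
    have h1 := (D.mem_V_iff n₀ _ x hx).mp h
    have hj' := D.free_lt n₀ j hj
    have h2 : (i : ℤ) % D.h n₀ = j := by
      have h3 : ((i : ℤ) - j) % D.h n₀ = 0 := Int.emod_eq_zero_of_dvd (by
        have : (-(j : ℤ) + i) = i - j := by ring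
        rwa [this] at h1)
      have h4 := Int.emod_emod_of_dvd
      have h5 : (i : ℤ) % D.h n₀ = (j : ℤ) % D.h n₀ := Int.emod_emod_of_dvd (i : ℤ) dvd_rfl ▸
        (Int.emod_emod_of_dvd (j : ℤ) (dvd_refl (D.h n₀ : ℤ))) ▸ by
          exact (Int.emod_emod_of_dvd _ dvd_rfl).trans (Int.ModEq.symm (Int.modEq_of_dvd (by
            have : (-(j : ℤ) + i) = i - j := by ring
            rwa [this] at h1))) |>.trans (Int.emod_emod_of_dvd _ dvd_rfl).symm
      rw [h5]
      exact Int.emod_eq_of_lt (by omega) (by exact_mod_cast hj')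
    have h3 : i % D.h n₀ = j := by exact_mod_cast h2
    rw [h3]; exact hj
  · intro h
    refine ⟨i % D.h n₀, h, ?_⟩
    rw [← zp_add, D.mem_V_iff n₀ _ x hx]
    have h1 : (-((i % D.h n₀ : ℕ) : ℤ) + (i : ℤ)) = D.h n₀ * ((i / D.h n₀ : ℕ) : ℤ) := by
      have := Nat.div_add_mod i (D.h n₀)
      push_cast
      have h2 : (i : ℤ) = D.h n₀ * ((i / D.h n₀ : ℕ) : ℤ) + ((i % D.h n₀ : ℕ) : ℤ) := by
        exact_mod_cast this.symm
      push_cast at h2
      linarith
    rw [h1]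
    exact dvd_mul_right _ _

lemma isClopen_FS (n₀ : ℕ) : IsClopen (D.FS n₀) := by
  have h : D.FS n₀ = ⋃ i ∈ D.free n₀, (T ^ (-(i : ℤ)) : X ≃ₜ X) ⁻¹' D.V n₀ := by
    ext x; simp [FS]
  rw [h]
  exact Set.Finite.isClopen_biUnion (Finset.finite_toSet _) fun i _ =>
    isClopen_pre T _ (D.isClopen_V n₀)

end TowerData

end Run7.h745
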