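import Pool.Agent.Run7.h745.Basic3

/-!
# Piece CP, part 1: orbit representations
-/

set_option autoImplicit false
set_option linter.unusedSectionVars false

noncomputable section

namespace Run7.h745

open Filter Topology Matrix
open scoped ENNReal NNReal InnerProductSpace

lemma two_pos' : (0 : ℝ) < (2 : ℝ≥0∞).toReal := by norm_num

/-- reindexing operators -/
def reix (e : ℤ ≃ ℤ) : HH →L[ℂ] HH :=
  LinearMap.mkContinuous
    { toFun := fun η => ⟨fun i => η (e i), memℓp_gen (by
        have h := (lp.memℓp η).summable two_pos'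
        exact (e.summable_iff (f := fun i => ‖η i‖ ^ (2 : ℝ≥0∞).toReal)).mpr h)⟩
      map_add' := fun η η' => rfl
      map_smul' := fun c η => rfl } 1 (by
    intro η
    rw [one_mul]
    refine lp.norm_le_of_forall_sum_le two_pos' (norm_nonneg _) fun s => ?_
    have h := lp.sum_rpow_le_norm_rpow two_pos' η (s.map e.toEmbedding)
    rw [Finset.sum_map] at h
    exact h)

lemma reix_apply (e : ℤ ≃ ℤ) (η : HH) (i : ℤ) : reix e η i = η (e i) := rfl

lemma reix_dl (e : ℤ ≃ ℤ) (i : ℤ) : reix e (dl i) = dl (e.symm i) := by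
  ext j
  rw [reix_apply, dl_apply, dl_apply]
  by_cases h : e j = i
  · rw [if_pos h, if_pos (by rw [← h, Equiv.symm_apply_apply])]
  · rw [if_neg h, if_neg fun h' => h (by rw [h', Equiv.apply_symm_apply])]

lemma reix_mul (e e' : ℤ ≃ ℤ) : reix e * reix e' = reix (e.trans e') := by
  ext η i
  rfl

lemma reix_refl : reix (Equiv.refl ℤ) = 1 := by
  ext η i
  rfl

lemma reix_star (e : ℤ ≃ ℤ) : star (reix e) = reix e.symm := by
  refine HH_ext' fun i j => ?_
  rw [star_coef, reix_dl, reix_dl, dl_dl, dl_dl]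
  by_cases h : j = e.symm i
  · rw [if_pos h, if_pos (by rw [h]; simp)]; simp
  · rw [if_neg h, if_neg]
    · simp
    · intro h'; apply h; rw [h']; simp

/-- the bilateral shift -/
def Sh : unitary (HH →L[ℂ] HH) :=
  ⟨reix (Equiv.subRight 1), by
    rw [Unitary.mem_iff, reix_star, reix_mul, reix_mul]
    constructor
    · rw [Equiv.symm_trans_self, reix_refl]
    · rw [Equiv.self_trans_symm, reix_refl]⟩

lemma Sh_dl (i : ℤ) : (Sh : HH →L[ℂ] HH) (dl i) = dl (i + 1) := by
  show reix (Equiv.subRight 1) (dl i) = _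
  rw [reix_dl]; rfl

lemma Sh_star_dl (i : ℤ) : star (Sh : HH →L[ℂ] HH) (dl i) = dl (i - 1) := by
  show star (reix (Equiv.subRight 1)) (dl i) = _
  rw [reix_star, reix_dl]; rfl

section
variable {X : Type} [TopologicalSpace X] [CompactSpace X] (T : X ≃ₜ X)

/-- diagonal operators -/
def dgo (x : X) (f : C(X, ℂ)) : HH →L[ℂ] HH :=
  LinearMap.mkContinuous
    { toFun := fun η => ⟨fun i => f ((T ^ i : X ≃ₜ X) x) * η i, by
        refine ((lp.memℓp η).const_smul ((‖f‖ : ℝ) : ℂ)).mono' fun i => ?_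
        rw [Pi.smul_apply, norm_mul, norm_smul]
        refine mul_le_mul_of_nonneg_right ?_ (norm_nonneg _)
        rw [Complex.norm_real, norm_norm]
        exact f.norm_coe_le_norm _⟩
      map_add' := fun η η' => by
        ext i
        exact mul_add _ _ _
      map_smul' := fun c η => by
        ext i
        show f _ * (c * η i) = c * (f _ * η i)
        ring } ‖f‖ (by
    intro η
    have h1 : ‖f‖ * ‖η‖ = ‖((‖f‖ : ℝ) : ℂ) • η‖ := by
      rw [norm_smul, Complex.norm_real, norm_norm]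
    refine le_of_le_of_eq ?_ h1.symm
    refine lp.norm_mono (by norm_num) fun i => ?_
    rw [lp.coeFn_smul, Pi.smul_apply, norm_smul]
    show ‖f ((T ^ i : X ≃ₜ X) x) * η i‖ ≤ _
    rw [norm_mul]
    refine mul_le_mul_of_nonneg_right ?_ (norm_nonneg _)
    rw [Complex.norm_real, norm_norm]
    exact f.norm_coe_le_norm _)

lemma dgo_apply (x : X) (f : C(X, ℂ)) (η : HH) (i : ℤ) :
    dgo T x f η i = f ((T ^ i : X ≃ₜ X) x) * η i := rfl

lemma dgo_dl (x : X) (f : C(X, ℂ)) (i : ℤ) :
    dgo T x f (dl i) = f ((T ^ i : X ≃ₜ X) x) • dl i := by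
  ext j
  rw [dgo_apply, lp.coeFn_smul, Pi.smul_apply, dl_apply]
  by_cases h : j = i
  · rw [if_pos h, h]; rfl
  · rw [if_neg h, mul_zero, smul_zero]

/-- the representation of `C(X)` given by the orbit of `x` -/
def rep (x : X) : C(X, ℂ) →⋆ₐ[ℂ] (HH →L[ℂ] HH) where
  toFun := dgo T x
  map_one' := by
    refine HH_ext fun i => ?_
    rw [dgo_dl, ContinuousMap.one_apply, one_smul]; rfl
  map_mul' f g := by
    refine HH_ext fun i => ?_
    rw [mul_apply_eq_comp, dgo_dl, dgo_dl, map_smul, dgo_dl, smul_smul, ContinuousMap.mul_apply,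
      mul_comm]
  map_zero' := by
    refine HH_ext fun i => ?_
    rw [dgo_dl, ContinuousMap.zero_apply, zero_smul]; rfl
  map_add' f g := by
    refine HH_ext fun i => ?_
    rw [_root_.add_apply, dgo_dl, dgo_dl, dgo_dl, ContinuousMap.add_apply, add_smul]
  commutes' c := by
    refine HH_ext fun i => ?_
    rw [dgo_dl]; rfl
  map_star' f := by
    refine HH_ext' fun i j => ?_
    rw [star_coef, dgo_dl, dgo_dl, inner_smul_right, inner_smul_right, dl_dl, dl_dl,
      ContinuousMap.star_apply]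
    by_cases h : i = j
    · subst h; simp
    · rw [if_neg h, if_neg (Ne.symm h)]; simp

lemma rep_dl (x : X) (f : C(X, ℂ)) (i : ℤ) :
    rep T x f (dl i) = f ((T ^ i : X ≃ₜ X) x) • dl i := dgo_dl T x f i

lemma rep_cov (x : X) : Covariant T (rep T x) Sh := by
  intro f
  refine HH_ext fun i => ?_
  rw [mul_apply_eq_comp, mul_apply_eq_comp, Sh_star_dl, rep_dl, map_smul, Sh_dl, rep_dl,
    sub_add_cancel, pull_eq, cT_apply, ← zp_add]
  congr 3
  ring_nf

/-- the pair `(rep x, Sh)` as an orbit representation of itself -/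
lemma rep_laur_coef (x : X) (L : ℕ) (f : ℤ → C(X, ℂ)) (hf : ∀ k : ℤ, (L : ℤ) < |k| → f k = 0)
    (i p : ℤ) : ⟪dl i, laur Sh (rep T x) L f (dl p)⟫_ℂ = f (i - p) ((T ^ i : X ≃ₜ X) x) := by
  have h : IsOrbitRep T (rep T x) Sh x (StarAlgHom.id ℂ (HH →L[ℂ] HH)) :=
    ⟨fun f i => rep_dl T x f i, fun i => Sh_dl i⟩
  exact h.laur_coef L f hf i p

end

end Run7.h745
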