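import Pool.Agent.Run7.h745.KTc
import Pool.Agent.Run7.h745.K0lem

/-!
# Piece KT, part 4: the approximate projections are close to matrix-valued functions, continued
-/

set_option autoImplicit false
set_option linter.unusedSectionVars false

noncomputable section

namespace Run7.h745

open Filter Topology Matrix Pool.Agent.TH249
open scoped InnerProductSpace

lemma Xo_of_decoupled {S : HH →L[ℂ] HH} (h : Decoupled S) : Xo S = 0 := by
  refine HH_ext' fun i j => ?_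
  rw [Xo_coef, _root_.zero_apply, inner_zero_right]
  split_ifs with h1
  · exact h i j h1
  · rfl

lemma sum2_subset {M : Type} [AddCommMonoid M] {I J : Finset ℤ} (h : I ⊆ J) (F : ℤ → ℤ → M)
    (hF : ∀ i ∈ J, ∀ j ∈ J, ¬(i ∈ I ∧ j ∈ I) → F i j = 0) :
    ∑ i ∈ J, ∑ j ∈ J, F i j = ∑ i ∈ I, ∑ j ∈ I, F i j := by
  symm
  calc ∑ i ∈ I, ∑ j ∈ I, F i j = ∑ i ∈ I, ∑ j ∈ J, F i j := by
        refine Finset.sum_congr rfl fun i hi => ?_
        refine Finset.sum_subset h fun j hj hj' => ?_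
        exact hF i (h hi) j hj fun h' => hj' h'.2
    _ = ∑ i ∈ J, ∑ j ∈ J, F i j := by
        refine Finset.sum_subset h fun i hi hi' => ?_
        exact Finset.sum_eq_zero fun j hj => hF i hi j hj fun h' => hi' h'.1

lemma sum_Ico_fin (N : ℕ) {M : Type} [AddCommMonoid M] (f : ℤ → M) :
    ∑ i ∈ Finset.Ico (0 : ℤ) N, f i = ∑ i : Fin N, f ((i : ℕ) : ℤ) := by
  refine (Finset.sum_bij (fun (i : Fin N) _ => ((i : ℕ) : ℤ)) ?_ ?_ ?_ ?_).symm
  · intro i _
    have := i.2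
    rw [Finset.mem_Ico]; omega
  · intro i _ j _ h
    apply Fin.ext; omega
  · intro k hk
    rw [Finset.mem_Ico] at hk
    refine ⟨⟨k.toNat, by omega⟩, Finset.mem_univ _, ?_⟩
    simp only; omega
  · intro i _; rfl

/-- a matrix-valued function from its entries -/
def mkG {X : Type} [TopologicalSpace X] {N : ℕ} (g : Fin N → Fin N → C(X, ℂ)) : C(X, Mat N ℂ) :=
  ⟨fun x => Mat.of (Matrix.of fun i j => g i j x),
    Mat.continuous_of.comp (continuous_pi fun i => continuous_pi fun j => (g i j).continuous)⟩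

lemma mkG_apply {X : Type} [TopologicalSpace X] {N : ℕ} (g : Fin N → Fin N → C(X, ℂ)) (x : X) :
    mkG g x = Mat.of (Matrix.of fun i j => g i j x) := rfl

lemma ent_mkG {X : Type} [TopologicalSpace X] {N : ℕ} (g : Fin N → Fin N → C(X, ℂ))
    (i j : Fin N) : ent (mkG g) i j = g i j := rfl

section
variable {X : Type} [TopologicalSpace X] [CompactSpace X] [T2Space X] {T : X ≃ₜ X}
  (D : TowerData X T) {A : Type} [CStarAlgebra A] {ι : C(X, ℂ) →⋆ₐ[ℂ] A} {u : unitary A}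
  {x₀ : X} {P : A →⋆ₐ[ℂ] (HH →L[ℂ] HH)}

/-- coefficients of `Th` in the window `[0, h)` -/
def TowerData.cc (n : ℕ) (S : HH →L[ℂ] HH) (i j : ℤ) : ℂ :=
  (if i ≤ D.lh n ∧ j ≤ D.lh n then ⟪dl i, S (dl j)⟫_ℂ else 0) +
  (if (D.h n : ℤ) - D.lh n ≤ i ∧ (D.h n : ℤ) - D.lh n ≤ j then
    ⟪dl (i - D.h n), S (dl (j - D.h n))⟫_ℂ else 0)

lemma TowerData.Th_diag (hc : Covariant T ι u) (n : ℕ) (S : HH →L[ℂ] HH) (hS : Xo S = 0) :
    D.Th ι u n S = ∑ i ∈ Finset.Ico (0 : ℤ) (D.h n), ∑ j ∈ Finset.Ico (0 : ℤ) (D.h n),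
      D.cc n S i j • D.eu ι u n 1 i j := by
  have hl := D.lh_spec n
  have hz : ∀ i j : ℤ, (0 ≤ i ∧ j < 0) ∨ (i < 0 ∧ 0 ≤ j) → ⟪dl i, S (dl j)⟫_ℂ = 0 := by
    intro i j h
    have h1 := Xo_coef S i j
    rw [if_pos h, hS, _root_.zero_apply, inner_zero_right] at h1
    exact h1.symm
  rw [D.Th_apply]
  have e1 : ∀ i j : ℤ, ⟪dl i, S (dl j)⟫_ℂ • D.eu ι u n 1 i j =
      (if 0 ≤ i ∧ 0 ≤ j then ⟪dl i, S (dl j)⟫_ℂ else 0) • D.eu ι u n 1 i j +
      (if i < 0 ∧ j < 0 then ⟪dl i, S (dl j)⟫_ℂ else 0) • D.eu ι u n 1 i j := by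
    intro i j
    rw [← add_smul]
    congr 1
    by_cases hi : 0 ≤ i <;> by_cases hj : 0 ≤ j
    · rw [if_pos ⟨hi, hj⟩, if_neg (by omega), add_zero]
    · rw [if_neg (by omega), if_neg (by omega), hz i j (Or.inl (by omega)), add_zero]
    · rw [if_neg (by omega), if_neg (by omega), hz i j (Or.inr (by omega)), add_zero]
    · rw [if_neg (by omega), if_pos (by omega), zero_add]
  simp only [e1, TowerData.cc, add_smul, Finset.sum_add_distrib]
  congr 1
  · rw [sum2_subset (I := Finset.Icc (0 : ℤ) (D.lh n)) (Finset.Icc_subset_Icc (by omega) le_rfl),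
      sum2_subset (I := Finset.Icc (0 : ℤ) (D.lh n)) (J := Finset.Ico (0 : ℤ) (D.h n))]
    · refine Finset.sum_congr rfl fun i hi => Finset.sum_congr rfl fun j hj => ?_
      rw [Finset.mem_Icc] at hi hj
      rw [if_pos (by omega), if_pos (by omega)]
    · intro i hi
      rw [Finset.mem_Icc] at hi
      rw [Finset.mem_Ico]; omega
    · intro i hi j hj h
      rw [Finset.mem_Ico] at hi hj
      rw [Finset.mem_Icc, Finset.mem_Icc] at h
      rw [if_neg (by omega), zero_smul]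
    · intro i hi j hj h
      rw [Finset.mem_Icc] at hi hj
      rw [Finset.mem_Icc, Finset.mem_Icc] at h
      rw [if_neg (by omega), zero_smul]
  · rw [sum2_subset (I := Finset.Ico (-(D.lh n : ℤ)) 0),
      sum2_subset (I := Finset.Ico ((D.h n : ℤ) - D.lh n) (D.h n))
        (J := Finset.Ico (0 : ℤ) (D.h n))]
    · refine Finset.sum_bij (fun i _ => i + D.h n) ?_ ?_ ?_ ?_
      · intro i hi
        rw [Finset.mem_Ico] at hi ⊢; omega
      · intro i _ j _ h; omega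
      · intro i hi
        rw [Finset.mem_Ico] at hi
        exact ⟨i - D.h n, by rw [Finset.mem_Ico]; omega, by ring⟩
      · intro i hi
        refine Finset.sum_bij (fun j _ => j + D.h n) ?_ ?_ ?_ ?_
        · intro j hj
          rw [Finset.mem_Ico] at hj ⊢; omega
        · intro i _ j _ h; omega
        · intro j hj
          rw [Finset.mem_Ico] at hj
          exact ⟨j - D.h n, by rw [Finset.mem_Ico]; omega, by ring⟩
        · intro j hj
          rw [Finset.mem_Ico] at hi hj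
          have h7 := D.eu_shift hc n 1 i j 1
          rw [one_mul] at h7
          have h8 : cT T (-(D.h n : ℤ)) (1 : C(X, ℂ)) = 1 := rfl
          rw [h8] at h7
          rw [if_pos (by omega), if_pos (by omega), h7, add_sub_cancel_right, add_sub_cancel_right]
    · intro i hi
      rw [Finset.mem_Ico] at hi ⊢; omega
    · intro i hi j hj h
      rw [Finset.mem_Ico] at hi hj
      rw [Finset.mem_Ico, Finset.mem_Ico] at h
      rw [if_neg (by omega), zero_smul]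
    · intro i hi
      rw [Finset.mem_Ico] at hi
      rw [Finset.mem_Icc]; omega
    · intro i hi j hj h
      rw [Finset.mem_Icc] at hi hj
      rw [Finset.mem_Ico, Finset.mem_Ico] at h
      rw [if_neg (by omega), zero_smul]

/-- the norm of the symmetrised difference -/
lemma norm_symm_le {a b : A} (ha : IsSelfAdjoint a) :
    ‖a - (2 : ℂ)⁻¹ • (b + star b)‖ ≤ ‖a - b‖ := by
  have h1 : a - (2 : ℂ)⁻¹ • (b + star b) = (2 : ℂ)⁻¹ • ((a - b) + star (a - b)) := by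
    rw [star_sub, ha.star_eq, smul_add, smul_add, smul_sub, smul_sub]
    have : a = (2 : ℂ)⁻¹ • a + (2 : ℂ)⁻¹ • a := by
      rw [← add_smul]; norm_num
    nth_rewrite 1 [this]
    abel
  rw [h1, norm_smul]
  have h2 : ‖(a - b) + star (a - b)‖ ≤ ‖a - b‖ + ‖a - b‖ := by
    refine (norm_add_le _ _).trans ?_
    rw [norm_star]
  have h3 : ‖(2 : ℂ)⁻¹‖ = 1 / 2 := by simp
  rw [h3]
  linarith

/-- the approximate projections are close to the range of `Ψ` -/
lemma TowerData.close (hA : IsCrossedProduct T ι u) (s3b : S_SYS3b) (cp3 : S_CP3)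
    (hx₀ : ⋂ n, D.V n = {x₀}) (hP : IsOrbitRep T ι u x₀ P) {p : A} (hp : IsSelfAdjoint p)
    {t : HH →L[ℂ] HH} (ht : IsSelfAdjoint t) (htd : Decoupled t) (ε : ℝ) (hε : 0 < ε) :
    ∀ᶠ n in atTop, ∀ Ψ : C(X, Mat (D.h n) ℂ) →⋆ₐ[ℂ] A,
      (∀ G : C(X, Mat (D.h n) ℂ), Ψ G = ∑ i : Fin (D.h n), ∑ j : Fin (D.h n),
        ((u ^ ((i : ℕ) : ℤ) : unitary A) : A) * ι (ind (D.V n) * ent G i j) *
          ((u ^ (-((j : ℕ) : ℤ)) : unitary A) : A)) →
      ∃ G : C(X, Mat (D.h n) ℂ), IsSelfAdjoint G ∧ (∀ x, x ∉ D.V n → G x = 0) ∧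
        (∀ x ∈ D.V n, ∀ y ∈ D.V n, D.SameBlock n x y → G x = G y) ∧
        ‖D.Phi ι u P n p t - Ψ G‖ < ε := by
  obtain ⟨L, N₀, f, hf1, hf2, hf3⟩ := laur_approx D hA s3b cp3 p (ε / 4) (by positivity)
  have hcr := D.cross_tendsto hP hx₀ L f hf2
  have hcr' := (Metric.tendsto_atTop.mp hcr (ε / 4) (by positivity))
  obtain ⟨N₁, hN₁⟩ := hcr'
  filter_upwards [eventually_ge_atTop N₀, eventually_ge_atTop N₁,
    tendsto_atTop.mp D.h_tendsto L] with n hn0 hn1 hnL Ψ hΨ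
  have hcross := hN₁ n hn1
  rw [dist_zero_right] at hcross
  set y := laur u ι L f with hy
  set κ := t - P p with hκ
  set Nκ := κ - Xo κ with hNκ
  have hXN : Xo Nκ = 0 := by
    refine HH_ext' fun i j => ?_
    rw [Xo_coef, _root_.zero_apply, inner_zero_right]
    split_ifs with h1
    · rw [hNκ, _root_.sub_apply, inner_sub_right, Xo_coef, if_pos h1, sub_self]
    · rfl
  let g : Fin (D.h n) → Fin (D.h n) → C(X, ℂ) := fun i j =>
    ind (D.V n) * (cT T ((i : ℕ) : ℤ) (f (((i : ℕ) : ℤ) - ((j : ℕ) : ℤ))) +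
      algebraMap ℂ C(X, ℂ) (D.cc n Nκ ((i : ℕ) : ℤ) ((j : ℕ) : ℤ)))
  let G₀ := mkG g
  have hG₀ : Ψ G₀ = ∑ i ∈ Finset.Ico (0 : ℤ) (D.h n), ∑ j ∈ Finset.Ico (0 : ℤ) (D.h n),
      D.Ft ι u n f i j + D.Th ι u n Nκ := by
    rw [D.Th_diag hA.cov n Nκ hXN, hΨ]
    simp only [sum_Ico_fin, ← Finset.sum_add_distrib]
    refine Finset.sum_congr rfl fun i _ => Finset.sum_congr rfl fun j _ => ?_
    have h1 : ind (D.V n) * ent G₀ i j = ind (D.V n) *
        (cT T ((i : ℕ) : ℤ) (f (((i : ℕ) : ℤ) - ((j : ℕ) : ℤ))) +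
      algebraMap ℂ C(X, ℂ) (D.cc n Nκ ((i : ℕ) : ℤ) ((j : ℕ) : ℤ))) := by
      show ind (D.V n) * (ind (D.V n) * _) = _
      rw [← mul_assoc, ind_mul_self (D.isClopen_V n)]
    rw [h1]
    show D.eu ι u n (cT T ((i : ℕ) : ℤ) (f (((i : ℕ) : ℤ) - ((j : ℕ) : ℤ))) +
      algebraMap ℂ C(X, ℂ) (D.cc n Nκ ((i : ℕ) : ℤ) ((j : ℕ) : ℤ))) ((i : ℕ) : ℤ) ((j : ℕ) : ℤ) = _
    rw [D.eu_add, Algebra.algebraMap_eq_smul_one, D.eu_smul]
    rfl
  have hd : D.Phi ι u P n p t - Ψ G₀ = (p - y) +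
      ((∑ i ∈ Finset.Ico (0 : ℤ) L, ∑ j ∈ Finset.Ico (-(L : ℤ)) 0, D.Ft ι u n f i j +
      ∑ i ∈ Finset.Ico (-(L : ℤ)) 0, ∑ j ∈ Finset.Ico (0 : ℤ) L, D.Ft ι u n f i j) -
      D.Th ι u n (Xo (P y))) + D.Th ι u n (Xo (P (y - p))) := by
    have h1 := D.laur_decomp hA.cov n L hnL f hf2
    rw [← hy] at h1
    have h2 : Xo κ = -Xo (P p) := by
      rw [hκ, map_sub, Xo_of_decoupled htd, zero_sub]
    have h4 : D.Th ι u n Nκ = D.Th ι u n κ + D.Th ι u n (Xo (P p)) := by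
      rw [hNκ, h2, sub_neg_eq_add, map_add]
    have h5 : D.Th ι u n (Xo (P (y - p))) = D.Th ι u n (Xo (P y)) - D.Th ι u n (Xo (P p)) := by
      rw [map_sub, map_sub, map_sub]
    have h3 : (∑ i ∈ Finset.Ico (0 : ℤ) L, ∑ j ∈ Finset.Ico (-(L : ℤ)) 0, D.Ft ι u n f i j +
      ∑ i ∈ Finset.Ico (-(L : ℤ)) 0, ∑ j ∈ Finset.Ico (0 : ℤ) L, D.Ft ι u n f i j) =
        y - ∑ i ∈ Finset.Ico (0 : ℤ) (D.h n), ∑ j ∈ Finset.Ico (0 : ℤ) (D.h n),
          D.Ft ι u n f i j := by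
      rw [h1]; abel
    rw [hG₀, h4, h5, h3]
    unfold TowerData.Phi
    rw [← hκ]
    abel
  have hlast : ‖D.Th ι u n (Xo (P (y - p)))‖ ≤ 2 * ‖p - y‖ := by
    refine (D.Th_norm ι u hA.cov n _).trans ((Xo_norm _).trans ?_)
    have := NonUnitalStarAlgHom.norm_apply_le P (y - p)
    rw [norm_sub_rev p y]; linarith
  have hnorm : ‖D.Phi ι u P n p t - Ψ G₀‖ < ε := by
    rw [hd]
    calc _ ≤ _ := norm_add_le _ _
      _ ≤ _ := add_le_add_left (norm_add_le _ _) _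
      _ < ε := by linarith
  have hPhi : IsSelfAdjoint (D.Phi ι u P n p t) := by
    unfold TowerData.Phi
    refine hp.add ?_
    show star _ = _
    rw [D.Th_star, star_sub, ← map_star, ht.star_eq, hp.star_eq]
  have hsame : ∀ x ∈ D.V n, ∀ y ∈ D.V n, D.SameBlock n x y → G₀ x = G₀ y := by
    intro x hx y hy hxy
    show Mat.of _ = Mat.of _
    congr 1
    ext i j
    show ind (D.V n) x * (f _ ((T ^ ((i : ℕ) : ℤ) : X ≃ₜ X) x) + _) =
      ind (D.V n) y * (f _ ((T ^ ((i : ℕ) : ℤ) : X ≃ₜ X) y) + _)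
    rw [ind_mem (D.isClopen_V n) hx, ind_mem (D.isClopen_V n) hy,
      (hf1 _ n hn0).1 x hx y hy hxy i i.2]
    rfl
  have hzero : ∀ x, x ∉ D.V n → G₀ x = 0 := by
    intro x hx
    show Mat.of _ = Mat.of 0
    congr 1
    ext i j
    show ind (D.V n) x * _ = 0
    rw [ind_notMem (D.isClopen_V n) hx, zero_mul]
  refine ⟨(2 : ℂ)⁻¹ • (G₀ + star G₀), ?_, ?_, ?_, ?_⟩
  · show star ((2 : ℂ)⁻¹ • (G₀ + star G₀)) = _
    rw [star_smul, star_add, star_star, add_comm]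
    congr 1
    simp
  · intro x hx
    rw [ContinuousMap.smul_apply, ContinuousMap.add_apply, ContinuousMap.star_apply, hzero x hx]
    simp
  · intro x hx y hy hxy
    rw [ContinuousMap.smul_apply, ContinuousMap.add_apply, ContinuousMap.star_apply,
      ContinuousMap.smul_apply, ContinuousMap.add_apply, ContinuousMap.star_apply,
      hsame x hx y hy hxy]
  · rw [map_smul, map_add, map_star]
    exact (norm_symm_le hPhi).trans_lt hnorm

end

end Run7.h745
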