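import Pool.Agent.Run7.h745.CPa
import Pool.Agent.Run7.h745.KTd
import Pool.Agent.Run7.h745.Psi

/-!
# Piece CP, part 2: the norm estimate (Fejér averages)
-/

set_option autoImplicit false
set_option linter.unusedSectionVars false

noncomputable section

namespace Run7.h745

open Filter Topology Matrix
open scoped ENNReal NNReal InnerProductSpace

/-! ### Averages -/

section avg
variable {B : Type} [NormedAddCommGroup B]

lemma shift_sum_eq (L n : ℕ) (t : ℤ → B) (ht : ∀ k : ℤ, (L : ℤ) < |k| → t k = 0) (i : ℕ)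
    (h1 : L ≤ i) (h2 : i + L < n) :
    ∑ j ∈ Finset.range n, t ((i : ℤ) - j) = ∑ k ∈ Finset.Icc (-(L : ℤ)) L, t k := by
  refine Finset.sum_bij_ne_zero (fun j _ _ => (i : ℤ) - j) ?_ ?_ ?_ ?_
  · intro j _ hne
    rw [Finset.mem_Icc]
    by_contra hc
    apply hne
    apply ht
    rw [lt_abs]; omega
  · intro a _ _ b _ _ h
    omega
  · intro k hk _
    rw [Finset.mem_Icc] at hk
    refine ⟨((i : ℤ) - k).toNat, ?_, ?_, ?_⟩
    · rw [Finset.mem_range]; omega
    · have : (i : ℤ) - (((i : ℤ) - k).toNat : ℤ) = k := by omega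
      rw [this]; assumption
    · omega
  · intro j _ _; rfl

lemma shift_sum_le (L n : ℕ) (t : ℤ → ℝ) (h0 : ∀ k, 0 ≤ t k)
    (ht : ∀ k : ℤ, (L : ℤ) < |k| → t k = 0) (i : ℕ) :
    ∑ j ∈ Finset.range n, t ((i : ℤ) - j) ≤ ∑ k ∈ Finset.Icc (-(L : ℤ)) L, t k := by
  have h1 : ∑ j ∈ Finset.range n, t ((i : ℤ) - j) =
      ∑ k ∈ (Finset.range n).image (fun j : ℕ => (i : ℤ) - j), t k := by
    rw [Finset.sum_image]
    intro a _ b _ h
    simp only at h
    omega
  rw [h1]
  have h2 : ∑ k ∈ (Finset.range n).image (fun j : ℕ => (i : ℤ) - j), t k =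
      ∑ k ∈ ((Finset.range n).image (fun j : ℕ => (i : ℤ) - j)).filter
        (fun k => k ∈ Finset.Icc (-(L : ℤ)) L), t k := by
    symm
    refine Finset.sum_subset (Finset.filter_subset _ _) fun k hk hk' => ?_
    apply ht
    by_contra hc
    apply hk'
    rw [Finset.mem_filter, Finset.mem_Icc]
    rw [lt_abs] at hc
    exact ⟨hk, by omega, by omega⟩
  rw [h2]
  refine Finset.sum_le_sum_of_subset_of_nonneg ?_ fun k _ _ => h0 k
  intro k hk
  exact (Finset.mem_filter.mp hk).2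

/-- the averages `∑ t(i - j)` are close to `n ∑ t(k)` -/
lemma avg_bound (L n : ℕ) (t : ℤ → B) (ht : ∀ k : ℤ, (L : ℤ) < |k| → t k = 0) :
    ‖∑ i ∈ Finset.range n, ∑ j ∈ Finset.range n, t ((i : ℤ) - j) -
      n • ∑ k ∈ Finset.Icc (-(L : ℤ)) L, t k‖ ≤
      2 * L * (2 * ∑ k ∈ Finset.Icc (-(L : ℤ)) L, ‖t k‖) := by
  set y := ∑ k ∈ Finset.Icc (-(L : ℤ)) L, t k with hy
  set S := ∑ k ∈ Finset.Icc (-(L : ℤ)) L, ‖t k‖ with hS
  have hS0 : 0 ≤ S := Finset.sum_nonneg fun _ _ => norm_nonneg _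
  have h1 : ∑ i ∈ Finset.range n, ∑ j ∈ Finset.range n, t ((i : ℤ) - j) - n • y =
      ∑ i ∈ Finset.range n, (∑ j ∈ Finset.range n, t ((i : ℤ) - j) - y) := by
    rw [Finset.sum_sub_distrib, Finset.sum_const, Finset.card_range]
  rw [h1]
  have h2 : ∀ i ∈ Finset.range n, ‖∑ j ∈ Finset.range n, t ((i : ℤ) - j) - y‖ ≤
      if L ≤ i ∧ i + L < n then 0 else 2 * S := by
    intro i _
    split_ifs with h
    · rw [shift_sum_eq L n t ht i h.1 h.2, sub_self, norm_zero]
    · have h3 : ‖∑ j ∈ Finset.range n, t ((i : ℤ) - j)‖ ≤ S := by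
        refine (norm_sum_le _ _).trans ?_
        exact shift_sum_le L n (fun k => ‖t k‖) (fun _ => norm_nonneg _)
          (fun k hk => by rw [ht k hk, norm_zero]) i
      have h4 : ‖y‖ ≤ S := norm_sum_le _ _
      calc _ ≤ ‖∑ j ∈ Finset.range n, t ((i : ℤ) - j)‖ + ‖y‖ := norm_sub_le _ _
        _ ≤ 2 * S := by linarith
  refine (norm_sum_le _ _).trans ((Finset.sum_le_sum h2).trans ?_)
  have h3 : ∑ i ∈ Finset.range n, (if L ≤ i ∧ i + L < n then (0 : ℝ) else 2 * S) =
      ((Finset.range n).filter fun i => ¬(L ≤ i ∧ i + L < n)).card * (2 * S) := by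
    rw [Finset.sum_ite, Finset.sum_const_zero, zero_add, Finset.sum_const, nsmul_eq_mul]
  rw [h3]
  refine mul_le_mul_of_nonneg_right ?_ (by positivity)
  have h4 : (Finset.range n).filter (fun i => ¬(L ≤ i ∧ i + L < n)) ⊆
      Finset.range L ∪ Finset.Ico (n - L) n := by
    intro i hi
    rw [Finset.mem_filter, Finset.mem_range] at hi
    rw [Finset.mem_union, Finset.mem_range, Finset.mem_Ico]
    omega
  have h5 := (Finset.card_le_card h4).trans (Finset.card_union_le _ _)
  rw [Finset.card_range, Nat.card_Ico] at h5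
  have h6 : ((Finset.range n).filter fun i => ¬(L ≤ i ∧ i + L < n)).card ≤ 2 * L := by omega
  exact_mod_cast h6

end avg

/-! ### Matrices over `B` -/

section mat
variable {X : Type} [TopologicalSpace X] [CompactSpace X] {T : X ≃ₜ X}
  {B : Type} [CStarAlgebra B]

/-- entrywise application of `π` -/
def matHom (π : C(X, ℂ) →⋆ₐ[ℂ] B) (N : ℕ) : C(X, Mat N ℂ) →⋆ₐ[ℂ] Mat N B where
  toFun G := Mat.of (Matrix.of fun i j => π (ent G i j))
  map_one' := by
    rw [← map_one (Mat.of (k := N) (A := B))]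
    congr 1
    ext i j
    rw [of_apply, ent_one, Matrix.one_apply]
    split_ifs
    · rw [map_one]
    · rw [map_zero]
  map_mul' G G' := by
    rw [← map_mul (Mat.of (k := N) (A := B))]
    congr 1
    ext i j
    rw [of_apply, ent_mul, Matrix.mul_apply, map_sum]
    exact Finset.sum_congr rfl fun k _ => map_mul _ _ _
  map_zero' := by
    rw [← map_zero (Mat.of (k := N) (A := B))]
    congr 1
    ext i j
    rw [of_apply, ent_zero, map_zero]; rfl
  map_add' G G' := by
    rw [← map_add (Mat.of (k := N) (A := B))]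
    congr 1
    ext i j
    rw [of_apply, ent_add, map_add]; rfl
  commutes' c := by
    have h1 : algebraMap ℂ (Mat N B) c = Mat.of (algebraMap ℂ _ c) :=
      (AlgHomClass.commutes (Mat.of (k := N) (A := B)) c).symm
    rw [h1]
    congr 1
    ext i j
    rw [of_apply, ent_algebraMap, Matrix.algebraMap_matrix_apply]
    split_ifs
    · exact AlgHomClass.commutes π c
    · rw [map_zero]
  map_star' G := by
    rw [← map_star (Mat.of (k := N) (A := B))]
    congr 1
    ext i j
    rw [of_apply, ent_star, map_star, Matrix.star_apply, of_apply]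

lemma matHom_apply (π : C(X, ℂ) →⋆ₐ[ℂ] B) (N : ℕ) (G : C(X, Mat N ℂ)) :
    matHom π N G = Mat.of (Matrix.of fun i j => π (ent G i j)) := rfl

/-- the upper left corner -/
def cornerHom (B : Type) [CStarAlgebra B] (N : ℕ) : B →⋆ₙₐ[ℂ] Mat (N + 1) B where
  toFun b := Mat.of (Matrix.single 0 0 b)
  map_smul' c b := by
    rw [← Matrix.smul_single, map_smul]; rfl
  map_zero' := by rw [Matrix.single_zero, map_zero]
  map_add' b b' := by rw [Matrix.single_add, map_add]
  map_mul' b b' := by rw [← map_mul, Matrix.single_mul_single_same]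
  map_star' b := by
    rw [← map_star, Matrix.star_eq_conjTranspose, Matrix.conjTranspose_single]

lemma norm_corner (N : ℕ) (b : B) : ‖(Mat.of (Matrix.single 0 0 b) : Mat (N + 1) B)‖ = ‖b‖ := by
  refine NonUnitalStarAlgHom.norm_map (cornerHom B N) ?_ b
  intro a a' h
  have h0 : (Mat.of (Matrix.single 0 0 a) : Mat (N + 1) B) = Mat.of (Matrix.single 0 0 a') := h
  have h1 := congrFun (congrFun (Mat.of.injective h0) 0) 0
  rwa [Matrix.single_apply_same, Matrix.single_apply_same] at h1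

/-- the matrix with first column `c` -/
def colM {N : ℕ} (c : Fin (N + 1) → B) : Matrix (Fin (N + 1)) (Fin (N + 1)) B :=
  Matrix.of fun i j => if j = 0 then c i else 0

lemma col_sandwich {N : ℕ} (c : Fin (N + 1) → B) (R : Matrix (Fin (N + 1)) (Fin (N + 1)) B) :
    star (colM c) * R * colM c = Matrix.single 0 0 (∑ i, ∑ j, star (c i) * R i j * c j) := by
  ext a b
  rw [Matrix.mul_apply]
  simp only [Matrix.mul_apply, Matrix.star_apply, colM, of_apply]
  by_cases ha : a = 0
  · by_cases hb : b = 0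
    · subst ha; subst hb
      simp only [if_true, Matrix.single_apply_same]
      simp only [Finset.sum_mul]
      rw [Finset.sum_comm]
    · simp only [hb, if_false, mul_zero, Finset.sum_const_zero]
      rw [Matrix.single_apply, if_neg fun h => hb h.2.symm]
  · simp only [ha, if_false, star_zero, zero_mul, Finset.sum_const_zero]
    rw [Matrix.single_apply, if_neg fun h => ha h.1.symm]

/-- norm bound for quadratic forms -/
lemma quad_bound {N : ℕ} (c : Fin (N + 1) → B) (hc : ∀ i, star (c i) * c i = 1)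
    (R : Mat (N + 1) B) :
    ‖∑ i, ∑ j, star (c i) * (Mat.of.symm R) i j * c j‖ ≤ (N + 1) * ‖R‖ := by
  set C : Mat (N + 1) B := Mat.of (colM c) with hC
  have h1 : star C * R * C = Mat.of (Matrix.single 0 0
      (∑ i, ∑ j, star (c i) * (Mat.of.symm R) i j * c j)) := by
    have h2 : R = Mat.of (Mat.of.symm R) := rfl
    conv_lhs => rw [h2, hC, ← map_star, ← map_mul, ← map_mul]
    rw [col_sandwich]
  have h2 : star C * C = Mat.of (Matrix.single 0 0 (((N : ℂ) + 1) • (1 : B))) := by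
    have h3 : star C * C = Mat.of (star (colM c) * 1 * colM c) := by
      rw [mul_one, map_mul, map_star]
    rw [h3, col_sandwich]
    congr 2
    have h4 : ∀ i : Fin (N + 1), ∑ j, star (c i) * (1 : Matrix (Fin (N + 1)) (Fin (N + 1)) B) i j *
        c j = 1 := by
      intro i
      rw [Finset.sum_eq_single i]
      · rw [Matrix.one_apply_eq, mul_one, hc]
      · intro j _ hj
        rw [Matrix.one_apply_ne (Ne.symm hj), mul_zero, zero_mul]
      · intro h; exact absurd (Finset.mem_univ i) h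
    simp only [h4, Finset.sum_const, Finset.card_univ, Fintype.card_fin]
    rw [← Nat.cast_smul_eq_nsmul ℂ]
    push_cast; rfl
  have hCn : ‖C‖ * ‖C‖ ≤ N + 1 := by
    rw [← CStarRing.norm_star_mul_self, h2, norm_corner, norm_smul]
    have h5 : ‖(1 : B)‖ ≤ 1 := by
      by_cases hn : Nontrivial B
      · rw [CStarRing.norm_one]
      · rw [not_nontrivial_iff_subsingleton] at hn
        rw [Subsingleton.elim (1 : B) 0, norm_zero]; exact zero_le_one
    have h6 : ‖(N : ℂ) + 1‖ = N + 1 := by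
      have : (N : ℂ) + 1 = ((N + 1 : ℝ) : ℂ) := by push_cast; rfl
      rw [this, Complex.norm_real, Real.norm_eq_abs, abs_of_nonneg (by positivity)]
    rw [h6]
    nlinarith [norm_nonneg (1 : B)]
  rw [← norm_corner N, ← h1]
  calc ‖star C * R * C‖ ≤ ‖star C * R‖ * ‖C‖ := norm_mul_le _ _
    _ ≤ (‖star C‖ * ‖R‖) * ‖C‖ := mul_le_mul_of_nonneg_right (norm_mul_le _ _) (norm_nonneg _)
    _ = (‖C‖ * ‖C‖) * ‖R‖ := by rw [norm_star]; ring
    _ ≤ (N + 1) * ‖R‖ := mul_le_mul_of_nonneg_right hCn (norm_nonneg _)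

/-- the norm estimate -/
lemma fejer {π : C(X, ℂ) →⋆ₐ[ℂ] B} {v : unitary B} (hc : Covariant T π v) (L : ℕ)
    (f : ℤ → C(X, ℂ)) (hf : ∀ k : ℤ, (L : ℤ) < |k| → f k = 0) (M : ℝ) (hM0 : 0 ≤ M)
    (hM : ∀ x, ‖laur Sh (rep T x) L f‖ ≤ M) : ‖laur v π L f‖ ≤ M := by
  set t : ℤ → B := fun k => π (f k) * up v k with ht
  have ht0 : ∀ k : ℤ, (L : ℤ) < |k| → t k = 0 := by
    intro k hk
    rw [ht]
    simp only
    rw [hf k hk, map_zero, zero_mul]
  -- bound for the double sums
  have h1 : ∀ N : ℕ, ‖∑ i ∈ Finset.range (N + 1), ∑ j ∈ Finset.range (N + 1),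
      t ((i : ℤ) - j)‖ ≤ (N + 1) * M := by
    intro N
    let G : C(X, Mat (N + 1) ℂ) := mkG fun i j => cT T ((i : ℕ) : ℤ) (f (((i : ℕ) : ℤ) - ((j : ℕ) : ℤ)))
    have hG : ‖G‖ ≤ M := by
      refine (ContinuousMap.norm_le _ hM0).mpr fun x => ?_
      refine le_trans ?_ (hM x)
      rw [mE_sum (N + 1) (G x)]
      have h2 := mu_norm (mE (N + 1)) (mE_mul _) (mE_star _) (fun i => ((i : ℕ) : ℤ)) (by
        intro i j h
        apply Fin.ext
        simp only at h
        exact_mod_cast h) (laur Sh (rep T x) L f)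
      have h3 : ∑ i : Fin (N + 1), ∑ j : Fin (N + 1), (Mat.of.symm (G x)) i j • mE (N + 1) i j =
          ∑ i : Fin (N + 1), ∑ j : Fin (N + 1),
            ⟪dl ((i : ℕ) : ℤ), laur Sh (rep T x) L f (dl ((j : ℕ) : ℤ))⟫_ℂ • mE (N + 1) i j := by
        refine Finset.sum_congr rfl fun i _ => Finset.sum_congr rfl fun j _ => ?_
        rw [rep_laur_coef T x L f hf]; rfl
      rw [h3]
      exact h2
    have hR : ‖matHom π (N + 1) G‖ ≤ M :=
      (NonUnitalStarAlgHom.norm_apply_le (matHom π (N + 1)) G).trans hG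
    have h2 := quad_bound (fun i : Fin (N + 1) => up v (-((i : ℕ) : ℤ))) (fun i => by
      rw [star_up, neg_neg, up_mul_up_neg]) (matHom π (N + 1) G)
    have h3 : ∑ i : Fin (N + 1), ∑ j : Fin (N + 1), star (up v (-((i : ℕ) : ℤ))) *
        (Mat.of.symm (matHom π (N + 1) G)) i j * up v (-((j : ℕ) : ℤ)) =
        ∑ i ∈ Finset.range (N + 1), ∑ j ∈ Finset.range (N + 1), t ((i : ℤ) - j) := by
      rw [← Fin.sum_univ_eq_sum_range (fun i : ℕ => ∑ j ∈ Finset.range (N + 1),
        t ((i : ℤ) - j)) (N + 1)]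
      refine Finset.sum_congr rfl fun i _ => ?_
      rw [← Fin.sum_univ_eq_sum_range (fun j : ℕ => t (((i : ℕ) : ℤ) - j)) (N + 1)]
      refine Finset.sum_congr rfl fun j _ => ?_
      rw [star_up, neg_neg]
      show up v ((i : ℕ) : ℤ) * π (cT T ((i : ℕ) : ℤ) (f (((i : ℕ) : ℤ) - ((j : ℕ) : ℤ)))) *
        up v (-((j : ℕ) : ℤ)) = _
      rw [← cov_up' hc, mul_assoc, ← up_add, ← sub_eq_add_neg]
    rw [h3] at h2
    exact h2.trans (mul_le_mul_of_nonneg_left hR (by positivity))
  -- limit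
  set y := laur v π L f with hy
  have hy' : y = ∑ k ∈ Finset.Icc (-(L : ℤ)) L, t k := rfl
  set K : ℝ := 2 * L * (2 * ∑ k ∈ Finset.Icc (-(L : ℤ)) L, ‖t k‖) with hK
  have h2 : ∀ N : ℕ, ‖y‖ ≤ M + K / ((N : ℝ) + 1) := by
    intro N
    have h3 := avg_bound L (N + 1) t ht0
    rw [← hy', ← hK] at h3
    have h4 : ‖(N + 1) • y‖ ≤ (N + 1) * M + K := by
      calc ‖(N + 1) • y‖ = ‖∑ i ∈ Finset.range (N + 1), ∑ j ∈ Finset.range (N + 1),
            t ((i : ℤ) - j) - (∑ i ∈ Finset.range (N + 1), ∑ j ∈ Finset.range (N + 1),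
            t ((i : ℤ) - j) - (N + 1) • y)‖ := by congr 1; abel
        _ ≤ _ := norm_sub_le _ _
        _ ≤ _ := add_le_add (h1 N) h3
    have h5 : ‖(N + 1) • y‖ = ((N : ℝ) + 1) * ‖y‖ := by
      rw [← Nat.cast_smul_eq_nsmul ℂ, norm_smul]
      congr 1
      push_cast
      have : (N : ℂ) + 1 = ((N + 1 : ℝ) : ℂ) := by push_cast; rfl
      rw [this, Complex.norm_real, Real.norm_eq_abs, abs_of_nonneg (by positivity)]
    rw [h5] at h4
    have h6 : (0 : ℝ) < (N : ℝ) + 1 := by positivity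
    have h7 : M + K / ((N : ℝ) + 1) = (((N : ℝ) + 1) * M + K) / ((N : ℝ) + 1) := by
      field_simp
    rw [h7, le_div_iff₀ h6, mul_comm]
    exact h4
  have h3 : Tendsto (fun N : ℕ => M + K / ((N : ℝ) + 1)) atTop (𝓝 (M + 0)) := by
    refine tendsto_const_nhds.add ?_
    have := tendsto_one_div_add_atTop_nhds_zero_nat (𝕜 := ℝ)
    have h4 := this.const_mul K
    rw [mul_zero] at h4
    refine h4.congr fun N => ?_
    rw [mul_one_div]
  rw [add_zero] at h3
  exact ge_of_tendsto' h3 h2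

end mat

end Run7.h745
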