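import Mathlib
import Pool.Agent.TH249.K0

/-!
# Definitions: crossed products by the integers, Elliott invariant, radius of comparison

`K_0` with its order is taken from `Pool.Agent.TH249.K0`.
-/

set_option autoImplicit false

noncomputable section

namespace Run7.h745

open Filter Topology Matrix Pool.Agent.TH249
open scoped ENNReal NNReal

/-! ### Minimal homeomorphisms and crossed products -/

/-- `T` is minimal: every orbit `{T^n x : n ∈ ℤ}` is dense. -/
def IsMinimalHomeo {X : Type} [TopologicalSpace X] (T : X ≃ₜ X) : Prop :=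
  ∀ x : X, Dense (Set.range fun n : ℤ => (T ^ n : X ≃ₜ X) x)

/-- `f ∘ T⁻¹` -/
def pull {X : Type} [TopologicalSpace X] (T : X ≃ₜ X) (f : C(X, ℂ)) : C(X, ℂ) :=
  f.comp ⟨T.symm, T.symm.continuous⟩

/-- The unitary `u` implements the automorphism `f ↦ f ∘ T⁻¹`: `u ι(f) u* = ι(f ∘ T⁻¹)`. -/
def Covariant {X : Type} [TopologicalSpace X] [CompactSpace X] (T : X ≃ₜ X)
    {A : Type} [CStarAlgebra A] (ι : C(X, ℂ) →⋆ₐ[ℂ] A) (u : unitary A) : Prop :=
  ∀ f, (u : A) * ι f * star (u : A) = ι (pull T f)

/-- `(A, ι, u)` is the crossed product `C(X) ⋊ ℤ` by the automorphism `f ↦ f ∘ T⁻¹`: `u` is a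
unitary with `u ι(f) u* = ι(f ∘ T⁻¹)`, and `(A, ι, u)` is universal with this property. -/
structure IsCrossedProduct {X : Type} [TopologicalSpace X] [CompactSpace X] (T : X ≃ₜ X)
    {A : Type} [CStarAlgebra A] (ι : C(X, ℂ) →⋆ₐ[ℂ] A) (u : unitary A) : Prop where
  cov : Covariant T ι u
  univ : ∀ (B : Type) [CStarAlgebra B] (π : C(X, ℂ) →⋆ₐ[ℂ] B) (v : unitary B), Covariant T π v →
    ∃! φ : A →⋆ₐ[ℂ] B, (∀ f, φ (ι f) = π f) ∧ φ (u : A) = v

/-! ### Tracial states, the pairing with `K_0` -/

/-- The tracial states of a unital C*-algebra. -/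
structure TracialState (A : Type) [CStarAlgebra A] where
  val : A →ₗ[ℂ] ℂ
  map_one : val 1 = 1
  nonneg : ∀ x : A, 0 ≤ (val (star x * x)).re ∧ (val (star x * x)).im = 0
  comm : ∀ x y : A, val (x * y) = val (y * x)

/-- The weak* topology. -/
instance (A : Type) [CStarAlgebra A] : TopologicalSpace (TracialState A) :=
  TopologicalSpace.induced (fun τ => (τ.val : A → ℂ)) Pi.topologicalSpace

/-- the value `∑ i, τ (P i i)` of a tracial state on a square matrix (not normalised) -/
def TracialState.mat {A : Type} [CStarAlgebra A] (τ : TracialState A) {I : Type} [Fintype I]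
    (P : Matrix I I A) : ℂ := ∑ i, τ.val (P i i)

/-- `φ` preserves convex combinations. -/
def IsAffineMap {A B : Type} [CStarAlgebra A] [CStarAlgebra B]
    (φ : TracialState B → TracialState A) : Prop :=
  ∀ (s : ℝ) (σ τ ρ : TracialState B), 0 ≤ s → s ≤ 1 →
    (∀ x, ρ.val x = (s : ℂ) * σ.val x + ((1 - s : ℝ) : ℂ) * τ.val x) →
    ∀ x, (φ ρ).val x = (s : ℂ) * (φ σ).val x + ((1 - s : ℝ) : ℂ) * (φ τ).val x

lemma TracialState.mat_mul_comm {A : Type} [CStarAlgebra A] (τ : TracialState A) {I J : Type}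
    [Fintype I] [Fintype J] (v : Matrix I J A) (w : Matrix J I A) :
    τ.mat (v * w) = τ.mat (w * v) := by
  simp only [TracialState.mat, Matrix.mul_apply, map_sum]
  rw [Finset.sum_comm]
  exact Finset.sum_congr rfl fun j _ => Finset.sum_congr rfl fun i _ => τ.comm _ _

/-- a tracial state on the classes of projections -/
def TracialState.onV {A : Type} [CStarAlgebra A] (τ : TracialState A) : V A →+ ℝ where
  toFun x := Quotient.liftOn x (fun P => (τ.mat P.mat).re) (by
    rintro P Q ⟨v, h1, h2⟩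
    show (τ.mat P.mat).re = (τ.mat Q.mat).re
    rw [← h1, ← h2, τ.mat_mul_comm])
  map_zero' := by
    show (τ.mat (Prj.zero A).mat).re = 0
    simp [TracialState.mat, Prj.zero]
  map_add' x y := by
    induction x using V.ind with | _ P
    induction y using V.ind with | _ Q
    show (τ.mat (P.add Q).mat).re = (τ.mat P.mat).re + (τ.mat Q.mat).re
    simp only [TracialState.mat]
    rw [← Complex.add_re]
    congr 1
    have h := Fintype.sum_equiv (finSumFinEquiv (m := P.n) (n := Q.n)).symm
      (fun i => τ.val ((P.add Q).mat i i))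
      (fun i => τ.val ((fromBlocks P.mat 0 0 Q.mat) i i)) (fun i => rfl)
    rw [show ∑ i, τ.val ((P.add Q).mat i i) = _ from h, Fintype.sum_sum_type]
    simp

/-- The pairing `ρ(·, τ) : K_0(A) → ℝ` with the tracial state `τ`: the homomorphism with
`[P] ↦ τ(P)` for all projections `P` in matrix algebras over `A`. -/
def TracialState.onK0 {A : Type} [CStarAlgebra A] (τ : TracialState A) : K0 A →+ ℝ :=
  Algebra.GrothendieckAddGroup.lift τ.onV

lemma TracialState.onK0_cls {A : Type} [CStarAlgebra A] (τ : TracialState A) (P : Prj A) :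
    τ.onK0 (K0.cls P) = (τ.mat P.mat).re := by
  have h := (Algebra.GrothendieckAddGroup.lift
    (M := V A) (G := ℝ)).left_inv τ.onV
  exact DFunLike.congr_fun h (V.mk P)

/-- the class of the unit in `K_0(A)` -/
def K0.unit (A : Type) [CStarAlgebra A] : K0 A :=
  K0.cls (Prj.of (1 : A) (IsStarProjection.one A))

/-! ### `K_1` -/

/-- unitary matrices over `A` of finite size -/
structure UMat (A : Type) [CStarAlgebra A] where
  n : ℕ
  mat : Matrix (Fin n) (Fin n) A
  mem : mat ∈ unitary (Matrix (Fin n) (Fin n) A)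

/-- the matrix `M ⊕ 1` of size `N` (for `n ≤ N`) -/
def pad {A : Type} [CStarAlgebra A] {n : ℕ} (N : ℕ) (M : Matrix (Fin n) (Fin n) A) :
    Matrix (Fin N) (Fin N) A :=
  Matrix.of fun i j => if h : (i : ℕ) < n ∧ (j : ℕ) < n then M ⟨i, h.1⟩ ⟨j, h.2⟩ else
    if i = j then 1 else 0

/-- Two unitary matrices define the same class in `K_1(A)` if after adding units they have a common
size and are joined by a path of unitary matrices. -/
def UMat.Rel {A : Type} [CStarAlgebra A] (U V : UMat A) : Prop :=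
  ∃ N : ℕ, U.n ≤ N ∧ V.n ≤ N ∧
    JoinedIn (unitary (Matrix (Fin N) (Fin N) A) : Set (Matrix (Fin N) (Fin N) A))
      (pad N U.mat) (pad N V.mat)

/-- `c : UMat A → G` exhibits the group `G` as `K_1(A)`, the group of classes of unitary matrices;
the product of the classes of two unitary matrices of the same size is the class of their
product. -/
structure IsK1 (A : Type) [CStarAlgebra A] {G : Type} [Group G] (c : UMat A → G) : Prop where
  surjective : Function.Surjective c
  eq_iff : ∀ U V : UMat A, c U = c V ↔ U.Rel V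
  mul : ∀ (n : ℕ) (U V : Matrix (Fin n) (Fin n) A) (hU : U ∈ unitary (Matrix (Fin n) (Fin n) A))
    (hV : V ∈ unitary (Matrix (Fin n) (Fin n) A)),
    c ⟨n, U * V, mul_mem hU hV⟩ = c ⟨n, U, hU⟩ * c ⟨n, V, hV⟩

/-! ### The Elliott invariant -/

/-- `A` and `B` have the same Elliott invariant
`(K_0, K_0_+, [1], K_1, T, ρ)`: there are an isomorphism of the ordered groups `K_0` with order
unit, an isomorphism of the groups `K_1` and an affine homeomorphism of the spaces of tracial
states which are compatible with the pairings. -/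
def SameElliott (A B : Type) [CStarAlgebra A] [CStarAlgebra B] : Prop :=
  ∃ (φ₀ : K0 A ≃+ K0 B) (φT : TracialState B ≃ₜ TracialState A),
    (∀ x, x ∈ K0.pos A ↔ φ₀ x ∈ K0.pos B) ∧
    φ₀ (K0.unit A) = K0.unit B ∧
    IsAffineMap φT ∧
    (∀ (τ : TracialState B) (x : K0 A), τ.onK0 (φ₀ x) = (φT τ).onK0 x) ∧
    ∃ (G : Type) (_ : Group G) (c : UMat A → G) (H : Type) (_ : Group H) (c' : UMat B → H),
      IsK1 A c ∧ IsK1 B c' ∧ Nonempty (G ≃* H)

/-! ### Quasitraces and the radius of comparison -/

/-- The axioms of a quasitrace on a unital *-algebra: `0 ≤ τ(x* x) = τ(x x*)`,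
`τ(a + i b) = τ(a) + i τ(b)` for self-adjoint `a`, `b`, and `τ` is linear on commutative
*-subalgebras (two elements lie in a common commutative *-subalgebra if and only if they are normal
and each commutes with the other and its adjoint). -/
structure IsQuasitrace {R : Type} [Ring R] [StarRing R] [Algebra ℂ R] (τ : R → ℂ) : Prop where
  nonneg : ∀ x : R, 0 ≤ (τ (star x * x)).re ∧ (τ (star x * x)).im = 0
  comm : ∀ x : R, τ (star x * x) = τ (x * star x)
  add_I : ∀ a b : R, IsSelfAdjoint a → IsSelfAdjoint b →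
    τ (a + Complex.I • b) = τ a + Complex.I * τ b
  linear : ∀ (c : ℂ) (x y : R), IsStarNormal x → IsStarNormal y → Commute x y →
    Commute x (star y) → τ (c • x + y) = c * τ x + τ y

/-- the matrix `M ⊕ 0` of size `n + 1` -/
def corner {A : Type} [CStarAlgebra A] {n : ℕ} (M : Matrix (Fin n) (Fin n) A) :
    Matrix (Fin (n + 1)) (Fin (n + 1)) A :=
  Matrix.of fun i j => if h : (i : ℕ) < n ∧ (j : ℕ) < n then M ⟨i, h.1⟩ ⟨j, h.2⟩ else 0

/-- The normalised 2-quasitraces of `A`, extended to all matrix algebras over `A` (this extension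
exists and is unique, by Blackadar and Handelman): compatible quasitraces on all `M_n(A)` with
value `1` at the unit of `A`. -/
structure QT (A : Type) [CStarAlgebra A] where
  val : (n : ℕ) → Matrix (Fin n) (Fin n) A → ℂ
  isQuasitrace : ∀ n, IsQuasitrace (val n)
  corner : ∀ (n : ℕ) (a : Matrix (Fin n) (Fin n) A), val (n + 1) (Run7.h745.corner a) = val n a
  map_one : val 1 1 = 1

/-- `a` is a positive element of `M_n(A)`. -/
def IsPos {A : Type} [CStarAlgebra A] {n : ℕ} (a : Matrix (Fin n) (Fin n) A) : Prop :=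
  ∃ x : Matrix (Fin n) (Fin n) A, a = xᴴ * x

/-- Cuntz subequivalence `a ≾ b`: there are `v k` with `v k * b * (v k)* → a`. -/
def CuntzBelow {A : Type} [CStarAlgebra A] {n : ℕ} (a b : Matrix (Fin n) (Fin n) A) : Prop :=
  ∃ v : ℕ → Matrix (Fin n) (Fin n) A, Tendsto (fun k => v k * b * (v k)ᴴ) atTop (𝓝 a)

open Classical in
/-- `a ^ (1 / (k + 1))` for a positive element `a` of `M_n(A)`: the positive element `b` of `M_n(A)`
with `b ^ (k + 1) = a` (it exists and is unique; see `proot_eq`) -/
def proot {A : Type} [CStarAlgebra A] {n : ℕ} (a : Matrix (Fin n) (Fin n) A) (k : ℕ) :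
    Matrix (Fin n) (Fin n) A :=
  if h : ∃ b, IsPos b ∧ b ^ (k + 1) = a then h.choose else 0

/-- `d_τ(a) = lim τ(a^(1/k))` for a positive element `a` of `M_n(A)` -/
def QT.dimFn {A : Type} [CStarAlgebra A] (τ : QT A) {n : ℕ} (a : Matrix (Fin n) (Fin n) A) :
    ℝ≥0∞ :=
  Filter.liminf (fun k : ℕ => ENNReal.ofReal (τ.val n (proot a k)).re) atTop

/-- `A` has `r`-comparison: `d_τ(a) + r < d_τ(b)` for all normalised 2-quasitraces `τ` implies
`a ≾ b`, for all positive `a`, `b` in matrix algebras over `A`. -/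
def RComparison (A : Type) [CStarAlgebra A] (r : ℝ≥0) : Prop :=
  ∀ (n : ℕ) (a b : Matrix (Fin n) (Fin n) A), IsPos a → IsPos b →
    (∀ τ : QT A, τ.dimFn a + r < τ.dimFn b) → CuntzBelow a b

/-- the radius of comparison -/
def radComp (A : Type) [CStarAlgebra A] : ℝ≥0∞ :=
  ⨅ (r : ℝ≥0) (_ : RComparison A r), (r : ℝ≥0∞)

end Run7.h745
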