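import Pool.Agent.Run7.h745.Defs

/-!
# Auxiliary definitions: matrix algebras as C*-algebras, roots by functional calculus
-/

set_option autoImplicit false

noncomputable section

namespace Run7.h745

open Filter Topology Matrix Pool.Agent.TH249
open scoped ENNReal NNReal

/-! ### Matrix algebras -/

/-- The C*-algebra `M_k(A)` of `k × k` matrices over `A`. -/
def Mat (k : ℕ) (A : Type) [CStarAlgebra A] : Type := CStarMatrix (Fin k) (Fin k) A

instance Mat.instCStarAlgebra (k : ℕ) (A : Type) [CStarAlgebra A] : CStarAlgebra (Mat k A) :=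
  letI : PartialOrder A := CStarAlgebra.spectralOrder A
  letI : StarOrderedRing A := CStarAlgebra.spectralOrderedRing A
  inferInstanceAs (CStarAlgebra (CStarMatrix (Fin k) (Fin k) A))

/-- a matrix as an element of the C*-algebra `M_k(A)` -/
def Mat.of {k : ℕ} {A : Type} [CStarAlgebra A] : Matrix (Fin k) (Fin k) A ≃⋆ₐ[ℂ] Mat k A where
  toFun M := M
  invFun M := M
  left_inv _ := rfl
  right_inv _ := rfl
  map_mul' _ _ := rfl
  map_add' _ _ := rfl
  map_star' _ := rfl
  map_smul' _ _ := rfl

lemma Mat.continuous_of {k : ℕ} {A : Type} [CStarAlgebra A] :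
    Continuous (Mat.of : Matrix (Fin k) (Fin k) A → Mat k A) := continuous_id

lemma Mat.continuous_of_symm {k : ℕ} {A : Type} [CStarAlgebra A] :
    Continuous (Mat.of.symm : Mat k A → Matrix (Fin k) (Fin k) A) := continuous_id

/-! ### The radius of comparison -/

/-- `a ^ (1 / (k + 1))` for a positive element of `M_n(A)` (continuous functional calculus in the
C*-algebra `M_n(A)`) -/
def root {A : Type} [CStarAlgebra A] {n : ℕ} (a : Matrix (Fin n) (Fin n) A) (k : ℕ) :
    Matrix (Fin n) (Fin n) A :=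
  Mat.of.symm (cfc (fun t : ℝ => t ^ ((1 : ℝ) / (k + 1))) (Mat.of a))

/-- the rank `d_τ(a) = lim τ(a^(1/k))` of a positive element of `M_n(A)` -/
def QT.rank {A : Type} [CStarAlgebra A] (τ : QT A) {n : ℕ} (a : Matrix (Fin n) (Fin n) A) : ℝ≥0∞ :=
  Filter.liminf (fun k : ℕ => ENNReal.ofReal (τ.val n (root a k)).re) atTop

/-- `A` has `r`-comparison: `d_τ(a) + r < d_τ(b)` for all normalised 2-quasitraces `τ` implies
`a ≾ b`, for all positive `a`, `b` in matrix algebras over `A`. -/
def HasComparison (A : Type) [CStarAlgebra A] (r : ℝ≥0) : Prop :=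
  ∀ (n : ℕ) (a b : Matrix (Fin n) (Fin n) A), IsPos a → IsPos b →
    (∀ τ : QT A, τ.rank a + r < τ.rank b) → CuntzBelow a b

/-- the radius of comparison -/
def rc (A : Type) [CStarAlgebra A] : ℝ≥0∞ := ⨅ (r : ℝ≥0) (_ : HasComparison A r), (r : ℝ≥0∞)

end Run7.h745
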