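import Pool.Agent.Run7.h745.Kap

/-!
# `K_1` and its behaviour for matrix algebras
-/

set_option autoImplicit false
set_option linter.unusedSectionVars false

noncomputable section

namespace Run7.h745

open Filter Topology Matrix Pool.Agent.TH249

section pad
variable {A : Type} [CStarAlgebra A]

lemma pad_apply {n : ℕ} (N : ℕ) (M : Matrix (Fin n) (Fin n) A) (i j : Fin N) :
    pad N M i j = if h : (i : ℕ) < n ∧ (j : ℕ) < n then M ⟨i, h.1⟩ ⟨j, h.2⟩ else
      if i = j then 1 else 0 := rfl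

/-- the splitting of the indices -/
def eP {n N : ℕ} (h : n ≤ N) : Fin N ≃ Fin n ⊕ Fin (N - n) :=
  (finSumFinEquiv.trans (finCongr (Nat.add_sub_cancel' h))).symm

lemma pad_eq {n N : ℕ} (h : n ≤ N) (M : Matrix (Fin n) (Fin n) A) :
    pad N M = (fromBlocks M 0 0 1).submatrix (eP h) (eP h) := by
  have key : ∀ a b, pad N M ((eP h).symm a) ((eP h).symm b) = fromBlocks M 0 0 1 a b := by
    intro a b
    rw [pad_apply]
    rcases a with a | a <;> rcases b with b | b
    · rw [dif_pos]
      · rfl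
      · constructor <;> simp [eP]
    · rw [dif_neg, if_neg]
      · simp
      · intro hab
        have := congrArg Fin.val hab
        simp only [eP, Equiv.symm_symm, Equiv.trans_apply, finSumFinEquiv_apply_left,
          finSumFinEquiv_apply_right, finCongr_apply, Fin.val_cast, Fin.val_castAdd,
          Fin.val_natAdd] at this
        omega
      · intro hab
        have := hab.2
        simp [eP] at this
    · rw [dif_neg, if_neg]
      · simp
      · intro hab
        have := congrArg Fin.val hab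
        simp only [eP, Equiv.symm_symm, Equiv.trans_apply, finSumFinEquiv_apply_left,
          finSumFinEquiv_apply_right, finCongr_apply, Fin.val_cast, Fin.val_castAdd,
          Fin.val_natAdd] at this
        omega
      · intro hab
        have := hab.1
        simp [eP] at this
    · rw [dif_neg]
      · by_cases hab : a = b
        · subst hab; simp
        · rw [if_neg, fromBlocks_apply₂₂, Matrix.one_apply_ne hab]
          intro h1
          exact hab (Sum.inr_injective ((eP h).symm.injective h1))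
      · intro hab
        have := hab.1
        simp [eP] at this
  ext i j
  rw [submatrix_apply, ← key, Equiv.symm_apply_apply, Equiv.symm_apply_apply]

lemma pad_mul {n N : ℕ} (h : n ≤ N) (M M' : Matrix (Fin n) (Fin n) A) :
    pad N (M * M') = pad N M * pad N M' := by
  rw [pad_eq h, pad_eq h, pad_eq h, submatrix_mul_equiv, fromBlocks_multiply]
  simp

lemma pad_star {n N : ℕ} (h : n ≤ N) (M : Matrix (Fin n) (Fin n) A) :
    pad N (star M) = star (pad N M) := by
  rw [pad_eq h, pad_eq h, star_eq_conjTranspose, star_eq_conjTranspose, conjTranspose_submatrix,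
    fromBlocks_conjTranspose]
  simp

lemma pad_one {n N : ℕ} (h : n ≤ N) : pad N (1 : Matrix (Fin n) (Fin n) A) = 1 := by
  rw [pad_eq h, fromBlocks_one, submatrix_one_equiv]

lemma pad_self {n : ℕ} (M : Matrix (Fin n) (Fin n) A) : pad n M = M := by
  ext i j
  rw [pad_apply, dif_pos ⟨i.2, j.2⟩]

lemma pad_pad {n N N' : ℕ} (h : n ≤ N) (M : Matrix (Fin n) (Fin n) A) :
    pad N' (pad N M) = pad N' M := by
  ext i j
  rw [pad_apply, pad_apply]
  by_cases h1 : (i : ℕ) < n ∧ (j : ℕ) < n
  · have h2 : (i : ℕ) < N ∧ (j : ℕ) < N := ⟨by omega, by omega⟩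
    rw [dif_pos h2, dif_pos h1, pad_apply, dif_pos h1]
  · rw [dif_neg h1]
    by_cases h2 : (i : ℕ) < N ∧ (j : ℕ) < N
    · rw [dif_pos h2, pad_apply, dif_neg h1]
      simp [Fin.ext_iff]
    · rw [dif_neg h2]

lemma pad_mem {n N : ℕ} (h : n ≤ N) {M : Matrix (Fin n) (Fin n) A}
    (hM : M ∈ unitary (Matrix (Fin n) (Fin n) A)) :
    pad N M ∈ unitary (Matrix (Fin N) (Fin N) A) := by
  rw [Unitary.mem_iff, ← pad_star h, ← pad_mul h, ← pad_mul h, (Unitary.mem_iff.mp hM).1,
    (Unitary.mem_iff.mp hM).2, pad_one h]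
  exact ⟨rfl, rfl⟩

lemma continuous_pad {n N : ℕ} :
    Continuous (pad N : Matrix (Fin n) (Fin n) A → Matrix (Fin N) (Fin N) A) := by
  refine continuous_matrix fun i j => ?_
  by_cases h1 : (i : ℕ) < n ∧ (j : ℕ) < n
  · simp only [pad_apply, dif_pos h1]
    fun_prop
  · simp only [pad_apply, dif_neg h1]
    exact continuous_const

end pad

section JU
variable {A : Type} [CStarAlgebra A]

/-- connected by a path of unitary matrices -/
def JU (N : ℕ) (U V : Matrix (Fin N) (Fin N) A) : Prop :=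
  JoinedIn (unitary (Matrix (Fin N) (Fin N) A) : Set (Matrix (Fin N) (Fin N) A)) U V

lemma JU.map {B : Type} [CStarAlgebra B] {n N : ℕ} {U V : Matrix (Fin n) (Fin n) A}
    (h : JU n U V) (f : Matrix (Fin n) (Fin n) A → Matrix (Fin N) (Fin N) B) (hf : Continuous f)
    (hu : ∀ M ∈ unitary (Matrix (Fin n) (Fin n) A), f M ∈ unitary (Matrix (Fin N) (Fin N) B)) :
    JU N (f U) (f V) := by
  obtain ⟨γ, hγ⟩ := h
  exact ⟨γ.map hf, fun t => hu _ (hγ t)⟩

lemma JU.pad {n N : ℕ} (hN : n ≤ N) {U V : Matrix (Fin n) (Fin n) A} (h : JU n U V) :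
    JU N (Run7.h745.pad N U) (Run7.h745.pad N V) :=
  h.map (Run7.h745.pad N) continuous_pad fun _ hM => pad_mem hN hM

lemma JU.star {n : ℕ} {U V : Matrix (Fin n) (Fin n) A} (h : JU n U V) :
    JU n (Star.star U) (Star.star V) :=
  h.map (fun M => Star.star M) continuous_star fun _ hM => Unitary.star_mem hM

lemma JU.mul {n : ℕ} {U V U' V' : Matrix (Fin n) (Fin n) A} (h : JU n U V) (h' : JU n U' V') :
    JU n (U * U') (V * V') := by
  obtain ⟨γ, hγ⟩ := h
  obtain ⟨γ', hγ'⟩ := h'
  refine ⟨⟨⟨fun t => γ t * γ' t, γ.continuous.mul γ'.continuous⟩, ?_, ?_⟩, fun t =>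
    mul_mem (hγ t) (hγ' t)⟩
  · simp
  · simp

lemma JU.refl {n : ℕ} {U : Matrix (Fin n) (Fin n) A}
    (h : U ∈ unitary (Matrix (Fin n) (Fin n) A)) : JU n U U := JoinedIn.refl h

lemma rel_iff {U V : UMat A} : U.Rel V ↔ ∃ N : ℕ, U.n ≤ N ∧ V.n ≤ N ∧
    JU N (Run7.h745.pad N U.mat) (Run7.h745.pad N V.mat) := Iff.rfl

lemma rel_of_eq {U V : UMat A} (N : ℕ) (hU : U.n ≤ N) (hV : V.n ≤ N)
    (h : Run7.h745.pad N U.mat = Run7.h745.pad N V.mat) : U.Rel V := by
  refine ⟨N, hU, hV, ?_⟩
  rw [h]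
  exact JU.refl (pad_mem hV V.mem)

lemma UMat.Rel.at {U V : UMat A} (h : U.Rel V) : ∃ N₀, ∀ N, N₀ ≤ N → U.n ≤ N ∧ V.n ≤ N ∧
    JU N (Run7.h745.pad N U.mat) (Run7.h745.pad N V.mat) := by
  obtain ⟨N₀, hU, hV, h⟩ := h
  refine ⟨N₀, fun N hN => ⟨hU.trans hN, hV.trans hN, ?_⟩⟩
  have := JU.pad hN h
  rwa [pad_pad hU, pad_pad hV] at this

lemma UMat.rel_equiv (A : Type) [CStarAlgebra A] : Equivalence (UMat.Rel (A := A)) := by
  refine ⟨fun U => rel_of_eq U.n le_rfl le_rfl rfl, ?_, ?_⟩
  · rintro U V ⟨N, hU, hV, h⟩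
    exact ⟨N, hV, hU, h.symm⟩
  · intro U V W h h'
    obtain ⟨N₁, h1⟩ := h.at
    obtain ⟨N₂, h2⟩ := h'.at
    obtain ⟨a1, a2, a3⟩ := h1 (max N₁ N₂) (le_max_left _ _)
    obtain ⟨b1, b2, b3⟩ := h2 (max N₁ N₂) (le_max_right _ _)
    exact ⟨max N₁ N₂, a1, b2, JoinedIn.trans a3 b3⟩

/-- product of unitary matrices (padded to the same size) -/
def UMat.prod (U V : UMat A) : UMat A where
  n := max U.n V.n
  mat := Run7.h745.pad (max U.n V.n) U.mat * Run7.h745.pad (max U.n V.n) V.mat
  mem := mul_mem (pad_mem (le_max_left _ _) U.mem) (pad_mem (le_max_right _ _) V.mem)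

lemma UMat.pad_prod (U V : UMat A) {N : ℕ} (hN : max U.n V.n ≤ N) :
    Run7.h745.pad N (U.prod V).mat = Run7.h745.pad N U.mat * Run7.h745.pad N V.mat := by
  show Run7.h745.pad N (Run7.h745.pad (max U.n V.n) U.mat *
    Run7.h745.pad (max U.n V.n) V.mat) = _
  rw [pad_mul hN, pad_pad (le_max_left _ _), pad_pad (le_max_right _ _)]

/-- inverse -/
def UMat.inv (U : UMat A) : UMat A where
  n := U.n
  mat := star U.mat
  mem := Unitary.star_mem U.mem

/-- the trivial unitary -/
def UMat.one (A : Type) [CStarAlgebra A] : UMat A where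
  n := 0
  mat := 1
  mem := one_mem _

instance UMat.setoid (A : Type) [CStarAlgebra A] : Setoid (UMat A) := ⟨UMat.Rel, UMat.rel_equiv A⟩

/-- the group `K_1(A)` -/
def K1 (A : Type) [CStarAlgebra A] : Type := Quotient (UMat.setoid A)

/-- the class of a unitary matrix -/
def K1.cls (U : UMat A) : K1 A := Quotient.mk _ U

lemma K1.cls_eq {U V : UMat A} : K1.cls U = K1.cls V ↔ U.Rel V :=
  ⟨fun h => Quotient.exact h, fun h => Quotient.sound h⟩

lemma K1.ind {p : K1 A → Prop} (h : ∀ U, p (K1.cls U)) (x : K1 A) : p x := Quotient.ind h x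

lemma UMat.prod_rel {U V U' V' : UMat A} (h : U.Rel U') (h' : V.Rel V') :
    (U.prod V).Rel (U'.prod V') := by
  obtain ⟨N₁, h1⟩ := h.at
  obtain ⟨N₂, h2⟩ := h'.at
  obtain ⟨a1, a2, a3⟩ := h1 (max N₁ N₂) (le_max_left _ _)
  obtain ⟨b1, b2, b3⟩ := h2 (max N₁ N₂) (le_max_right _ _)
  refine ⟨max N₁ N₂, max_le a1 b1, max_le a2 b2, ?_⟩
  have h3 := a3.mul b3
  rwa [← UMat.pad_prod U V (max_le a1 b1), ← UMat.pad_prod U' V' (max_le a2 b2)] at h3

lemma UMat.inv_rel {U V : UMat A} (h : U.Rel V) : (U.inv).Rel V.inv := by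
  obtain ⟨N, hU, hV, h⟩ := h
  refine ⟨N, hU, hV, ?_⟩
  have h1 : JU N (star (Run7.h745.pad N U.mat)) (star (Run7.h745.pad N V.mat)) := JU.star h
  rwa [← pad_star hU, ← pad_star hV] at h1

instance : Mul (K1 A) := ⟨fun x y => Quotient.liftOn₂ x y (fun U V => K1.cls (U.prod V))
  fun _ _ _ _ h h' => K1.cls_eq.mpr (UMat.prod_rel h h')⟩

instance : Inv (K1 A) := ⟨fun x => Quotient.liftOn x (fun U => K1.cls U.inv)
  fun _ _ h => K1.cls_eq.mpr (UMat.inv_rel h)⟩

instance : One (K1 A) := ⟨K1.cls (UMat.one A)⟩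

lemma K1.mul_def (U V : UMat A) : K1.cls U * K1.cls V = K1.cls (U.prod V) := rfl

lemma K1.inv_def (U : UMat A) : (K1.cls U)⁻¹ = K1.cls U.inv := rfl

lemma K1.one_def : (1 : K1 A) = K1.cls (UMat.one A) := rfl

instance : Group (K1 A) where
  mul_assoc x y z := by
    induction x using K1.ind with | _ U
    induction y using K1.ind with | _ V
    induction z using K1.ind with | _ W
    rw [K1.mul_def, K1.mul_def, K1.mul_def, K1.mul_def, K1.cls_eq]
    have e1 : ((U.prod V).prod W).n = max (max U.n V.n) W.n := rfl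
    have e2 : (U.prod (V.prod W)).n = max U.n (max V.n W.n) := rfl
    have e3 : (U.prod V).n = max U.n V.n := rfl
    have e4 : (V.prod W).n = max V.n W.n := rfl
    refine rel_of_eq (max (max U.n V.n) W.n) le_rfl (by rw [e2, max_assoc]) ?_
    rw [UMat.pad_prod (U.prod V) W (by rw [e3]), UMat.pad_prod U (V.prod W)
      (by rw [e4, max_assoc]), UMat.pad_prod U V (le_max_left _ _), UMat.pad_prod V W
      (by rw [max_assoc]; exact le_max_right _ _), mul_assoc]
  one_mul x := by
    induction x using K1.ind with | _ U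
    rw [K1.one_def, K1.mul_def, K1.cls_eq]
    have e1 : ((UMat.one A).prod U).n = max 0 U.n := rfl
    refine rel_of_eq U.n (by rw [e1]; simp) le_rfl ?_
    rw [UMat.pad_prod _ _ (by show max 0 U.n ≤ U.n; simp)]
    show Run7.h745.pad U.n (1 : Matrix (Fin 0) (Fin 0) A) * _ = _
    rw [pad_one (Nat.zero_le _), one_mul]
  mul_one x := by
    induction x using K1.ind with | _ U
    rw [K1.one_def, K1.mul_def, K1.cls_eq]
    have e1 : (U.prod (UMat.one A)).n = max U.n 0 := rfl
    refine rel_of_eq U.n (by rw [e1]; simp) le_rfl ?_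
    rw [UMat.pad_prod _ _ (by show max U.n 0 ≤ U.n; simp)]
    show _ * Run7.h745.pad U.n (1 : Matrix (Fin 0) (Fin 0) A) = _
    rw [pad_one (Nat.zero_le _), mul_one]
  inv_mul_cancel x := by
    induction x using K1.ind with | _ U
    rw [K1.one_def, K1.inv_def, K1.mul_def, K1.cls_eq]
    have e1 : ((U.inv).prod U).n = max U.n U.n := rfl
    refine rel_of_eq U.n (by rw [e1]; simp) (Nat.zero_le _) ?_
    rw [UMat.pad_prod _ _ (by show max U.n U.n ≤ U.n; simp)]
    show Run7.h745.pad U.n (star U.mat) * _ = Run7.h745.pad U.n (1 : Matrix (Fin 0) (Fin 0) A)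
    rw [pad_one (Nat.zero_le _), ← pad_mul le_rfl, (Unitary.mem_iff.mp U.mem).1, pad_one le_rfl]

lemma isK1_cls (A : Type) [CStarAlgebra A] : IsK1 A (K1.cls (A := A)) where
  surjective x := by
    induction x using K1.ind with | _ U
    exact ⟨U, rfl⟩
  eq_iff U V := K1.cls_eq
  mul n U V hU hV := by
    rw [K1.mul_def, K1.cls_eq]
    refine rel_of_eq n le_rfl (by show max n n ≤ n; simp) ?_
    rw [UMat.pad_prod _ _ (by show max n n ≤ n; simp)]
    exact pad_mul le_rfl _ _

end JU

/-! ### Matrix algebras -/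

section flat
variable {A : Type} [CStarAlgebra A] {k : ℕ}

lemma flatM_eq {n : ℕ} (M : Matrix (Fin n) (Fin n) (Mat k A)) :
    flatM M = (fl M).submatrix finProdFinEquiv.symm finProdFinEquiv.symm := rfl

/-- the inverse of `flatM` -/
def unflat {n : ℕ} (W : Matrix (Fin (n * k)) (Fin (n * k)) A) : Matrix (Fin n) (Fin n) (Mat k A) :=
  unfl (W.submatrix finProdFinEquiv finProdFinEquiv)

lemma flat_unflat {n : ℕ} (W : Matrix (Fin (n * k)) (Fin (n * k)) A) : flatM (unflat W) = W := by
  rw [flatM_eq, unflat, fl_unfl, submatrix_submatrix]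
  simp

lemma unflat_flat {n : ℕ} (M : Matrix (Fin n) (Fin n) (Mat k A)) : unflat (flatM M) = M := by
  rw [flatM_eq, unflat, submatrix_submatrix]
  simp [unfl_fl]

lemma flatM_mul {n : ℕ} (M N : Matrix (Fin n) (Fin n) (Mat k A)) :
    flatM (M * N) = flatM M * flatM N := by
  rw [flatM_eq, flatM_eq, flatM_eq, fl_mul, submatrix_mul_equiv]

lemma flatM_star {n : ℕ} (M : Matrix (Fin n) (Fin n) (Mat k A)) :
    flatM (star M) = star (flatM M) := by
  rw [flatM_eq, flatM_eq, star_eq_conjTranspose, star_eq_conjTranspose, fl_star,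
    conjTranspose_submatrix]

lemma flatM_one {n : ℕ} : flatM (1 : Matrix (Fin n) (Fin n) (Mat k A)) = 1 := by
  rw [flatM_eq, fl_one, submatrix_one_equiv]

lemma flatM_inj {n : ℕ} {M N : Matrix (Fin n) (Fin n) (Mat k A)} (h : flatM M = flatM N) :
    M = N := by rw [← unflat_flat M, h, unflat_flat]

lemma flatM_mem {n : ℕ} {M : Matrix (Fin n) (Fin n) (Mat k A)}
    (hM : M ∈ unitary (Matrix (Fin n) (Fin n) (Mat k A))) :
    flatM M ∈ unitary (Matrix (Fin (n * k)) (Fin (n * k)) A) := by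
  rw [Unitary.mem_iff, ← flatM_star, ← flatM_mul, ← flatM_mul, (Unitary.mem_iff.mp hM).1,
    (Unitary.mem_iff.mp hM).2, flatM_one]
  exact ⟨rfl, rfl⟩

lemma unflat_mem {n : ℕ} {W : Matrix (Fin (n * k)) (Fin (n * k)) A}
    (hW : W ∈ unitary (Matrix (Fin (n * k)) (Fin (n * k)) A)) :
    unflat W ∈ unitary (Matrix (Fin n) (Fin n) (Mat k A)) := by
  rw [Unitary.mem_iff]
  constructor
  · apply flatM_inj
    rw [flatM_mul, flatM_star, flat_unflat, (Unitary.mem_iff.mp hW).1, flatM_one]
  · apply flatM_inj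
    rw [flatM_mul, flatM_star, flat_unflat, (Unitary.mem_iff.mp hW).2, flatM_one]

lemma continuous_flatM {n : ℕ} : Continuous (flatM (n := n) (k := k) (A := A)) := by
  refine continuous_matrix fun i j => ?_
  have h1 : Continuous fun M : Matrix (Fin n) (Fin n) (Mat k A) =>
      Mat.of.symm (M (finProdFinEquiv.symm i).1 (finProdFinEquiv.symm j).1) :=
    Mat.continuous_of_symm.comp (by fun_prop)
  have h2 : Continuous fun M : Matrix (Fin k) (Fin k) A => M (finProdFinEquiv.symm i).2
      (finProdFinEquiv.symm j).2 := continuous_apply_apply _ _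
  exact h2.comp h1

lemma continuous_unflat {n : ℕ} : Continuous (unflat (n := n) (k := k) (A := A)) := by
  refine continuous_matrix fun i j => ?_
  refine Mat.continuous_of.comp ?_
  refine continuous_matrix fun p q => ?_
  exact continuous_apply_apply (finProdFinEquiv (i, p)) (finProdFinEquiv (j, q))

lemma pad_flat {n : ℕ} (N : ℕ) (M : Matrix (Fin n) (Fin n) (Mat k A)) :
    pad (N * k) (flatM M) = flatM (pad N M) := by
  have key : ∀ a b, pad (N * k) (flatM M) (finProdFinEquiv a) (finProdFinEquiv b) =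
      fl (pad N M) a b := by
    rintro ⟨i, p⟩ ⟨j, q⟩
    rw [pad_apply]
    show _ = (Mat.of.symm (pad N M i j)) p q
    rw [pad_apply]
    have hi : ∀ (i : Fin N) (p : Fin k), ((finProdFinEquiv (i, p) : Fin (N * k)) : ℕ) < n * k ↔
        (i : ℕ) < n := by
      intro i p
      have h1 : ((finProdFinEquiv (i, p) : Fin (N * k)) : ℕ) = p + k * i := rfl
      rw [h1]
      constructor
      · intro h2
        by_contra h3
        push Not at h3
        have h4 : k * n ≤ k * i := Nat.mul_le_mul_left k h3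
        rw [mul_comm n k] at h2
        omega
      · intro h2
        have h4 : k * ((i : ℕ) + 1) ≤ k * n := Nat.mul_le_mul_left k h2
        have h5 := p.2
        rw [mul_comm n k]
        rw [mul_add] at h4
        omega
    by_cases h1 : (i : ℕ) < n ∧ (j : ℕ) < n
    · rw [dif_pos h1, dif_pos ⟨(hi i p).mpr h1.1, (hi j q).mpr h1.2⟩]
      have e1 : ∀ (i : Fin N) (p : Fin k) (h : (i : ℕ) < n) (h' : ((finProdFinEquiv (i, p) :
          Fin (N * k)) : ℕ) < n * k), finProdFinEquiv.symm (⟨((finProdFinEquiv (i, p) :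
          Fin (N * k)) : ℕ), h'⟩ : Fin (n * k)) = (⟨i, h⟩, p) := by
        intro i p h h'
        rw [Equiv.symm_apply_eq]
        apply Fin.ext
        rfl
      show (Mat.of.symm (M (finProdFinEquiv.symm _).1 (finProdFinEquiv.symm _).1))
        (finProdFinEquiv.symm _).2 (finProdFinEquiv.symm _).2 = _
      rw [e1 i p h1.1, e1 j q h1.2]
    · rw [dif_neg h1, dif_neg (fun h => h1 ⟨(hi i p).mp h.1, (hi j q).mp h.2⟩)]
      by_cases h2 : i = j
      · subst h2
        rw [if_pos rfl, map_one]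
        by_cases h3 : p = q
        · subst h3; simp
        · rw [if_neg, Matrix.one_apply_ne h3]
          intro h4; exact h3 (Prod.ext_iff.mp (finProdFinEquiv.injective h4)).2
      · rw [if_neg h2, map_zero, Matrix.zero_apply, if_neg]
        intro h4; exact h2 (Prod.ext_iff.mp (finProdFinEquiv.injective h4)).1
  ext i j
  rw [flatM_eq (pad N M), submatrix_apply, ← key, Equiv.apply_symm_apply,
    Equiv.apply_symm_apply]

/-- a unitary matrix over `M_k(A)` as a unitary matrix over `A` -/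
def UMat.flat (U : UMat (Mat k A)) : UMat A := ⟨U.n * k, flatM U.mat, flatM_mem U.mem⟩

lemma flat_rel {k : ℕ} {U V : UMat (Mat (k + 1) A)} : U.flat.Rel V.flat ↔ U.Rel V := by
  constructor
  · intro h
    obtain ⟨N, h1⟩ := h.at
    obtain ⟨a1, a2, a3⟩ := h1 ((N + U.n + V.n) * (k + 1)) (by nlinarith)
    refine ⟨N + U.n + V.n, by omega, by omega, ?_⟩
    have h2 : JU ((N + U.n + V.n) * (k + 1)) (flatM (pad (N + U.n + V.n) U.mat))
        (flatM (pad (N + U.n + V.n) V.mat)) := by
      rw [← pad_flat, ← pad_flat]; exact a3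
    have h3 := h2.map unflat continuous_unflat fun _ h => unflat_mem h
    rwa [unflat_flat, unflat_flat] at h3
  · rintro ⟨N, hU, hV, h⟩
    refine ⟨N * (k + 1), Nat.mul_le_mul_right _ hU, Nat.mul_le_mul_right _ hV, ?_⟩
    show JU _ (pad _ (flatM U.mat)) (pad _ (flatM V.mat))
    rw [pad_flat, pad_flat]
    exact JU.map h flatM continuous_flatM fun _ h => flatM_mem h

lemma isK1_flat (A : Type) [CStarAlgebra A] (k : ℕ) :
    IsK1 (Mat (k + 1) A) (fun U => K1.cls U.flat) where
  surjective x := by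
    induction x using K1.ind with | _ U
    have h0 : U.n ≤ U.n * (k + 1) := Nat.le_mul_of_pos_right _ (Nat.succ_pos k)
    refine ⟨⟨U.n, unflat (pad (U.n * (k + 1)) U.mat), unflat_mem (pad_mem h0 U.mem)⟩, ?_⟩
    show K1.cls (UMat.flat _) = _
    rw [K1.cls_eq]
    refine rel_of_eq (U.n * (k + 1)) le_rfl h0 ?_
    show pad _ (flatM (unflat _)) = _
    rw [flat_unflat, pad_self]
  eq_iff U V := by
    show K1.cls U.flat = K1.cls V.flat ↔ _
    rw [K1.cls_eq, flat_rel]
  mul n U V hU hV := by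
    show K1.cls ⟨n * (k + 1), flatM (U * V), _⟩ = K1.cls ⟨n * (k + 1), flatM U, _⟩ *
      K1.cls ⟨n * (k + 1), flatM V, _⟩
    have h := (isK1_cls A).mul (n * (k + 1)) (flatM U) (flatM V) (flatM_mem hU) (flatM_mem hV)
    rw [← h]
    congr 2
    exact flatM_mul U V

end flat

end Run7.h745
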