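import Pool.Agent.Run7.h745.Basic

/-!
# Piece KH, part 1: functional calculus modulo an ideal
-/

set_option autoImplicit false
set_option linter.unusedSectionVars false

noncomputable section

namespace Run7.h745

open Filter Topology

section
variable {B : Type} [CStarAlgebra B]

/-- the step function -/
def stepF (lam t : ℝ) : ℝ := if lam < t then 1 else 0

lemma stepF_lt {lam t : ℝ} (h : lam < t) : stepF lam t = 1 := if_pos h
lemma stepF_ge {lam t : ℝ} (h : t < lam) : stepF lam t = 0 := if_neg (not_lt.mpr h.le)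

/-- functions which are continuous on both sides of a gap -/
lemma contOn_gap {S : Set ℝ} {lam : ℝ} (hl : lam ∉ S) {f g : ℝ → ℝ}
    (hf : ContinuousOn f (S ∩ Set.Iio lam)) (hg : ContinuousOn g (S ∩ Set.Ioi lam)) :
    ContinuousOn (fun t => if lam < t then g t else f t) S := by
  intro t ht
  rcases lt_trichotomy t lam with h | h | h
  · have h1 : ContinuousWithinAt f S t := by
      have := hf t ⟨ht, h⟩
      exact (continuousWithinAt_inter (Iio_mem_nhds h)).mp this
    refine h1.congr_of_eventuallyEq ?_ ?_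
    · refine eventually_nhdsWithin_of_eventually_nhds ?_
      filter_upwards [Iio_mem_nhds h] with a ha
      exact if_neg (not_lt.mpr (le_of_lt ha))
    · exact if_neg (not_lt.mpr h.le)
  · exact absurd (h ▸ ht) hl
  · have h1 : ContinuousWithinAt g S t := by
      have := hg t ⟨ht, h⟩
      exact (continuousWithinAt_inter (Ioi_mem_nhds h)).mp this
    refine h1.congr_of_eventuallyEq ?_ ?_
    · refine eventually_nhdsWithin_of_eventually_nhds ?_
      filter_upwards [Ioi_mem_nhds h] with a ha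
      exact if_pos ha
    · exact if_pos h

lemma contOn_step {S : Set ℝ} {lam : ℝ} (hl : lam ∉ S) : ContinuousOn (stepF lam) S :=
  contOn_gap hl continuousOn_const continuousOn_const

lemma stepF_idem (lam t : ℝ) : stepF lam t * stepF lam t = stepF lam t := by
  unfold stepF; split_ifs <;> norm_num

lemma isStarProjection_step {b : B} {lam : ℝ} (hl : lam ∉ spectrum ℝ b) :
    IsStarProjection (cfc (stepF lam) b) := by
  refine ⟨?_, cfc_predicate _ b⟩
  show cfc (stepF lam) b * cfc (stepF lam) b = cfc (stepF lam) b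
  rw [← cfc_mul _ _ b (contOn_step hl) (contOn_step hl)]
  exact cfc_congr fun t _ => stepF_idem lam t

variable (K : Submodule ℂ B)

/-- the abstract part of piece KH -/
lemma KH_abs (hl : ∀ b, ∀ k ∈ K, b * k ∈ K) (hr : ∀ b, ∀ k ∈ K, k * b ∈ K)
    (hcount : ∀ c ∈ K, IsSelfAdjoint c → {ν : ℝ | ν ≠ 0 ∧ (ν : ℂ) ∈ spectrum ℂ c}.Countable)
    (p₀ d : B) (hp₀ : IsStarProjection p₀) (hd : IsSelfAdjoint d) (hk : p₀ - d ∈ K)
    (hdd : d - d * d ∈ K) :
    ∃ t e v : B, IsStarProjection t ∧ (∀ x, Commute d x → Commute t x) ∧ t - p₀ ∈ K ∧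
      IsStarProjection e ∧ e ∈ K ∧ Commute e p₀ ∧ Commute e t ∧ v - p₀ ∈ K ∧
      star v * v = p₀ * (1 - e) ∧ v * star v = t * (1 - e) ∧ e * v = 0 ∧ v * e = 0 := by
  -- gap of d
  have hsp : ∀ (c : B) (ν : ℝ), ν ∈ spectrum ℝ c ↔ (ν : ℂ) ∈ spectrum ℂ c := fun c ν =>
    (spectrum.algebraMap_mem_iff ℂ).symm
  have hddsa : IsSelfAdjoint (d - d * d) := by
    refine hd.sub ?_
    show star (d * d) = d * d
    rw [star_mul, hd.star_eq]
  obtain ⟨lam, hl0, hl1, hlam⟩ : ∃ lam : ℝ, 0 < lam ∧ lam < 1 ∧ lam ∉ spectrum ℝ d := by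
    have hc := hcount _ hdd hddsa
    have hc2 : {x : ℝ | x ∈ Set.Ioo (0 : ℝ) (1 / 2) ∧ x - x * x ∈
        {ν : ℝ | ν ≠ 0 ∧ (ν : ℂ) ∈ spectrum ℂ (d - d * d)}}.Countable := by
      refine Set.countable_of_injective_of_countable_image (f := fun x : ℝ => x - x * x) ?_
        (hc.mono ?_)
      · rintro x ⟨hx, -⟩ y ⟨hy, -⟩ hxy
        simp only at hxy
        have h1 : (x - y) * (1 - (x + y)) = 0 := by ring_nf; linarith
        rcases mul_eq_zero.mp h1 with h2 | h2
        · linarith
        · have := hx.2; have := hy.2; linarith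
      · rintro _ ⟨x, ⟨-, hx⟩, rfl⟩
        exact hx
    have hdense := hc2.dense_compl ℝ
    obtain ⟨x, hx1, hx2⟩ := hdense.inter_open_nonempty (Set.Ioo (0 : ℝ) (1 / 2)) isOpen_Ioo
      ⟨1 / 4, by norm_num, by norm_num⟩
    refine ⟨x, hx1.1, by linarith [hx1.2], fun hx => hx2 ⟨hx1, ?_, ?_⟩⟩
    · have := hx1.1
      have := hx1.2
      have h3 : x - x * x = x * (1 - x) := by ring
      rw [h3]
      exact (mul_pos (by assumption) (by linarith)).ne'
    · rw [← hsp]
      have h1 : cfc (fun t : ℝ => t - t * t) d = d - d * d := by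
        rw [cfc_sub (fun t : ℝ => t) (fun t : ℝ => t * t) d, cfc_mul (fun t : ℝ => t)
          (fun t : ℝ => t) d, cfc_id' ℝ d]
      rw [← h1, cfc_map_spectrum (fun t : ℝ => t - t * t) d]
      exact ⟨x, hx, rfl⟩
  -- the projection t
  set t := cfc (stepF lam) d with ht
  have htp : IsStarProjection t := isStarProjection_step hlam
  have htc : ∀ x, Commute d x → Commute t x := fun x hx => hx.cfc_real _
  let hfun : ℝ → ℝ := fun x => if lam < x then 1 / x else -1 / (1 - x)
  have hhc : ContinuousOn hfun (spectrum ℝ d) := by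
    refine contOn_gap hlam ?_ ?_
    · refine ContinuousOn.div continuousOn_const (by fun_prop) ?_
      rintro x ⟨-, hx⟩
      rw [Set.mem_Iio] at hx
      linarith
    · refine ContinuousOn.div continuousOn_const (by fun_prop) ?_
      rintro x ⟨-, hx⟩
      rw [Set.mem_Ioi] at hx
      linarith
  have htd : t - d = (d - d * d) * cfc hfun d := by
    have h1 : cfc (fun t : ℝ => t - t * t) d = d - d * d := by
      rw [cfc_sub (fun t : ℝ => t) (fun t : ℝ => t * t) d, cfc_mul (fun t : ℝ => t)
        (fun t : ℝ => t) d, cfc_id' ℝ d]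
    rw [← h1, ← cfc_mul _ _ d (by fun_prop) hhc, ht]
    nth_rewrite 2 [← cfc_id' ℝ d]
    rw [← cfc_sub _ _ d (contOn_step hlam) (by fun_prop)]
    refine cfc_congr fun x hx => ?_
    have hne : x ≠ lam := fun h => hlam (h ▸ hx)
    simp only [hfun, stepF]
    split_ifs with h
    · have : x ≠ 0 := by linarith
      field_simp
    · have : 1 - x ≠ 0 := by
        have := lt_of_le_of_ne (not_lt.mp h) hne
        linarith
      field_simp
      ring
  have htK : t - p₀ ∈ K := by
    have h1 : t - p₀ = (t - d) - (p₀ - d) := by abel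
    rw [h1, htd]
    exact K.sub_mem (hr _ _ hdd) hk
  -- the operator b
  have hpp := hp₀.isIdempotentElem.eq
  have hps := hp₀.isSelfAdjoint.star_eq
  have htt := htp.isIdempotentElem.eq
  have hts := htp.isSelfAdjoint.star_eq
  set b := (p₀ - t) * (p₀ - t) with hb
  have hbsa : IsSelfAdjoint b := by
    show star b = b
    rw [hb, star_mul, star_sub, hps, hts]
  have hbK : b ∈ K := by
    refine hl _ _ ?_
    have := K.neg_mem htK
    rwa [neg_sub] at this
  have hbe : b = p₀ - p₀ * t - t * p₀ + t := by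
    have : b = p₀ * p₀ - p₀ * t - t * p₀ + t * t := by rw [hb]; noncomm_ring
    rw [this, hpp, htt]
  have hpb : p₀ * b = p₀ - p₀ * t * p₀ := by
    rw [hbe, mul_add, mul_sub, mul_sub, hpp, ← mul_assoc, ← mul_assoc, hpp]; abel
  have hbp : b * p₀ = p₀ - p₀ * t * p₀ := by
    rw [hbe, add_mul, sub_mul, sub_mul, hpp, mul_assoc t, hpp]; abel
  have htb : t * b = t - t * p₀ * t := by
    rw [hbe, mul_add, mul_sub, mul_sub, htt, ← mul_assoc, ← mul_assoc, htt]; abel
  have hbt : b * t = t - t * p₀ * t := by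
    rw [hbe, add_mul, sub_mul, sub_mul, htt, mul_assoc p₀, htt]; abel
  have cbp : Commute b p₀ := by
    show b * p₀ = p₀ * b
    rw [hbp, hpb]
  have cbt : Commute b t := by
    show b * t = t * b
    rw [hbt, htb]
  obtain ⟨mu, hm0, hm1, hmu⟩ : ∃ mu : ℝ, 0 < mu ∧ mu < 1 ∧ mu ∉ spectrum ℝ b := by
    have hdense := (hcount _ hbK hbsa).dense_compl ℝ
    obtain ⟨x, hx1, hx2⟩ := hdense.inter_open_nonempty (Set.Ioo (0 : ℝ) 1) isOpen_Ioo
      ⟨1 / 2, by norm_num, by norm_num⟩
    refine ⟨x, hx1.1, hx1.2, fun hx => hx2 ⟨hx1.1.ne', ?_⟩⟩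
    rwa [← hsp]
  set e := cfc (stepF mu) b with he
  have hep : IsStarProjection e := isStarProjection_step hmu
  have cep : Commute e p₀ := cbp.cfc_real _
  have cet : Commute e t := cbt.cfc_real _
  let H : ℝ → ℝ := fun x => if mu < x then 0 else 1 / √(1 - x)
  have hHc : ContinuousOn H (spectrum ℝ b) := by
    refine contOn_gap hmu ?_ continuousOn_const
    refine ContinuousOn.div continuousOn_const (by fun_prop) ?_
    rintro x ⟨-, hx⟩
    rw [Set.mem_Iio] at hx
    exact (Real.sqrt_pos.mpr (by linarith)).ne'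
  set w := cfc H b with hw
  have hws : star w = w := (cfc_predicate H b : IsSelfAdjoint _).star_eq
  have cwp : Commute w p₀ := cbp.cfc_real _
  have cwt : Commute w t := cbt.cfc_real _
  have cwb : Commute w b := (Commute.refl b).cfc_real _
  have hlt : ∀ x ∈ spectrum ℝ b, ¬ mu < x → 0 < 1 - x := by
    intro x _ h
    have := not_lt.mp h
    linarith
  have hww : w * w * (1 - b) = 1 - e := by
    have h1 : (1 : B) - b = cfc (fun x : ℝ => 1 - x) b := by
      rw [cfc_sub (fun _ : ℝ => (1 : ℝ)) (fun x : ℝ => x) b, cfc_id' ℝ b, cfc_const_one ℝ b]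
    have h2 : (1 : B) - e = cfc (fun x : ℝ => 1 - stepF mu x) b := by
      rw [cfc_sub (fun _ : ℝ => (1 : ℝ)) (stepF mu) b (by fun_prop) (contOn_step hmu),
        cfc_const_one ℝ b]
    rw [h1, h2, hw, ← cfc_mul _ _ b hHc hHc,
      ← cfc_mul (fun x => H x * H x) (fun x => 1 - x) b (hHc.mul hHc) (by fun_prop)]
    refine cfc_congr fun x hx => ?_
    simp only [H, stepF]
    split_ifs with h
    · ring
    · have h3 := hlt x hx h
      have h4 : √(1 - x) * √(1 - x) = 1 - x := Real.mul_self_sqrt h3.le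
      have h5 := (Real.sqrt_pos.mpr h3).ne'
      field_simp
      rw [Real.sq_sqrt h3.le]; ring
  have hew : e * w = 0 := by
    rw [he, hw, ← cfc_mul _ _ b (contOn_step hmu) hHc, ← cfc_const_zero ℝ b]
    refine cfc_congr fun x hx => ?_
    simp only [H, stepF]
    split_ifs <;> simp
  have hwe : w * e = 0 := by
    have := congrArg star hew
    rwa [star_mul, hws, hep.isSelfAdjoint.star_eq, star_zero] at this
  let H2 : ℝ → ℝ := fun x => if mu < x then -1 / x else (1 / √(1 - x)) ^ 2 / (1 / √(1 - x) + 1)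
  have hH2c : ContinuousOn H2 (spectrum ℝ b) := by
    refine contOn_gap hmu ?_ ?_
    · have h1 : ContinuousOn (fun x : ℝ => 1 / √(1 - x)) (spectrum ℝ b ∩ Set.Iio mu) := by
        refine ContinuousOn.div continuousOn_const (by fun_prop) ?_
        rintro x ⟨-, hx⟩
        rw [Set.mem_Iio] at hx
        exact (Real.sqrt_pos.mpr (by linarith)).ne'
      refine ContinuousOn.div (h1.pow 2) (h1.add continuousOn_const) ?_
      rintro x -
      have : 0 ≤ 1 / √(1 - x) := by positivity
      linarith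
    · refine ContinuousOn.div continuousOn_const (by fun_prop) ?_
      rintro x ⟨-, hx⟩
      rw [Set.mem_Ioi] at hx
      linarith
  have hw1 : w - 1 = b * cfc H2 b := by
    nth_rewrite 1 [← cfc_id' ℝ b]
    rw [← cfc_mul _ _ b (by fun_prop) hH2c, hw, ← cfc_const_one ℝ b,
      ← cfc_sub _ _ b hHc (by fun_prop)]
    refine cfc_congr fun x hx => ?_
    simp only [H, H2]
    split_ifs with h
    · have : x ≠ 0 := by linarith
      field_simp
      norm_num
    · have h3 := hlt x hx h
      set s := √(1 - x) with hs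
      have h5 : 0 < s := Real.sqrt_pos.mpr h3
      have h6 : s ^ 2 = 1 - x := Real.sq_sqrt h3.le
      have h7 : x = 1 - s ^ 2 := by rw [h6]; ring
      rw [h7]
      field_simp
      ring
  have hwK : w - 1 ∈ K := by rw [hw1]; exact hr _ _ hbK
  have heK : e ∈ K := by
    have h1 : e = b * cfc (fun x => if mu < x then 1 / x else 0) b := by
      nth_rewrite 1 [← cfc_id' ℝ b]
      have hc : ContinuousOn (fun x : ℝ => if mu < x then 1 / x else 0) (spectrum ℝ b) := by
        refine contOn_gap hmu continuousOn_const ?_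
        refine ContinuousOn.div continuousOn_const (by fun_prop) ?_
        rintro x ⟨-, hx⟩
        rw [Set.mem_Ioi] at hx
        linarith
      rw [← cfc_mul _ _ b (by fun_prop) hc, he]
      refine cfc_congr fun x hx => ?_
      simp only [stepF]
      split_ifs with h
      · have : x ≠ 0 := by linarith
        field_simp
      · ring
    rw [h1]; exact hr _ _ hbK
  have hptp : p₀ * t * p₀ = p₀ * (1 - b) := by rw [mul_sub, mul_one, hpb]; abel
  have htpt : t * p₀ * t = t * (1 - b) := by rw [mul_sub, mul_one, htb]; abel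
  have cwb1 : Commute w (1 - b) := (Commute.one_right w).sub_right cwb
  refine ⟨t, e, t * p₀ * w, htp, htc, htK, hep, heK, cep, cet, ?_, ?_, ?_, ?_, ?_⟩
  · have h1 : t * p₀ * w - p₀ = t * p₀ * (w - 1) + (t - p₀) * p₀ := by
      rw [mul_sub, mul_one, sub_mul, hpp]; abel
    rw [h1]
    exact K.add_mem (hl _ _ hwK) (hr _ _ htK)
  · rw [star_mul, star_mul, hws, hps, hts]
    calc w * (p₀ * t) * (t * p₀ * w) = w * (p₀ * (t * t) * p₀) * w := by noncomm_ring
      _ = w * (p₀ * (1 - b)) * w := by rw [htt, hptp]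
      _ = (w * p₀) * ((1 - b) * w) := by noncomm_ring
      _ = (p₀ * w) * (w * (1 - b)) := by rw [cwp.eq, cwb1.eq]
      _ = p₀ * (w * w * (1 - b)) := by noncomm_ring
      _ = p₀ * (1 - e) := by rw [hww]
  · rw [star_mul, star_mul, hws, hps, hts]
    calc t * p₀ * w * (w * (p₀ * t)) = t * (p₀ * w) * (w * p₀) * t := by noncomm_ring
      _ = t * (w * p₀) * (p₀ * w) * t := by rw [cwp.eq]
      _ = (t * w) * (p₀ * p₀) * (w * t) := by noncomm_ring
      _ = (w * t) * p₀ * (t * w) := by rw [hpp, cwt.eq]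
      _ = w * (t * p₀ * t) * w := by noncomm_ring
      _ = (w * t) * ((1 - b) * w) := by rw [htpt]; noncomm_ring
      _ = (t * w) * (w * (1 - b)) := by rw [cwt.eq, cwb1.eq]
      _ = t * (w * w * (1 - b)) := by noncomm_ring
      _ = t * (1 - e) := by rw [hww]
  · calc e * (t * p₀ * w) = (e * t) * p₀ * w := by noncomm_ring
      _ = t * (e * p₀) * w := by rw [cet.eq]; noncomm_ring
      _ = t * p₀ * (e * w) := by rw [cep.eq]; noncomm_ring
      _ = 0 := by rw [hew, mul_zero]
  · rw [mul_assoc, hwe, mul_zero]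

end

end Run7.h745
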