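import Pool.Agent.Run7.h745.Basic3

/-!
# Piece KT, part 1: matrix units, compact operators, the maps `Th n`
-/

set_option autoImplicit false
set_option linter.unusedSectionVars false

noncomputable section

namespace Run7.h745

open Filter Topology Matrix
open scoped InnerProductSpace

/-! ### Homomorphisms from matrix units -/

/-- matrix units define a homomorphism -/
def muHom {B : Type} [CStarAlgebra B] {N : ℕ} (e : Fin N → Fin N → B)
    (h1 : ∀ i j k l, e i j * e k l = if j = k then e i l else 0)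
    (h2 : ∀ i j, star (e i j) = e j i) : Mat N ℂ →⋆ₙₐ[ℂ] B where
  toFun M := ∑ i, ∑ j, (Mat.of.symm M) i j • e i j
  map_zero' := by simp
  map_add' M M' := by
    simp only [map_add, Matrix.add_apply, add_smul, Finset.sum_add_distrib]
  map_smul' c M := by
    simp only [map_smul, Matrix.smul_apply, smul_eq_mul, mul_smul, Finset.smul_sum]
    rfl
  map_mul' M M' := by
    have h3 : ∀ i j k l, ((Mat.of.symm M) i j • e i j) * ((Mat.of.symm M') k l • e k l) =
        if j = k then ((Mat.of.symm M) i j * (Mat.of.symm M') k l) • e i l else 0 := by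
      intro i j k l
      rw [smul_mul_smul_comm, h1]
      split_ifs
      · rfl
      · rw [smul_zero]
    calc ∑ i, ∑ l, (Mat.of.symm (M * M')) i l • e i l
        = ∑ i, ∑ l, ∑ j, ((Mat.of.symm M) i j * (Mat.of.symm M') j l) • e i l := by
          refine Finset.sum_congr rfl fun i _ => Finset.sum_congr rfl fun l _ => ?_
          rw [map_mul, Matrix.mul_apply, Finset.sum_smul]
      _ = ∑ i, ∑ j, ∑ l, ((Mat.of.symm M) i j * (Mat.of.symm M') j l) • e i l :=
          Finset.sum_congr rfl fun i _ => Finset.sum_comm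
      _ = ∑ i, ∑ j, ∑ k, ∑ l, ((Mat.of.symm M) i j • e i j) * ((Mat.of.symm M') k l • e k l) := by
          refine Finset.sum_congr rfl fun i _ => Finset.sum_congr rfl fun j _ => ?_
          symm
          rw [Finset.sum_eq_single j]
          · refine Finset.sum_congr rfl fun l _ => ?_
            rw [h3, if_pos rfl]
          · intro k _ hk
            refine Finset.sum_eq_zero fun l _ => ?_
            rw [h3, if_neg (Ne.symm hk)]
          · intro h; exact absurd (Finset.mem_univ j) h
      _ = _ := by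
          rw [Finset.sum_mul]
          refine Finset.sum_congr rfl fun i _ => ?_
          rw [Finset.sum_mul]
          refine Finset.sum_congr rfl fun j _ => ?_
          rw [Finset.mul_sum]
          refine Finset.sum_congr rfl fun k _ => ?_
          rw [Finset.mul_sum]
  map_star' M := by
    simp only [star_sum, star_smul, h2, map_star, Matrix.star_apply]
    rw [Finset.sum_comm]

lemma muHom_apply {B : Type} [CStarAlgebra B] {N : ℕ} (e : Fin N → Fin N → B)
    (h1 : ∀ i j k l, e i j * e k l = if j = k then e i l else 0)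
    (h2 : ∀ i j, star (e i j) = e j i) (M : Matrix (Fin N) (Fin N) ℂ) :
    muHom e h1 h2 (Mat.of M) = ∑ i, ∑ j, M i j • e i j := rfl

lemma EE_apply (i j : ℤ) (f : HH) : EE i j f = ⟪dl j, f⟫_ℂ • dl i := rfl

lemma EE_dl (i j k : ℤ) : EE i j (dl k) = if j = k then dl i else 0 := by
  rw [EE_apply, dl_dl]
  split_ifs <;> simp

lemma EE_mul (i j k l : ℤ) : EE i j * EE k l = if j = k then EE i l else 0 := by
  refine HH_ext fun a => ?_
  rw [mul_apply_eq_comp, EE_dl]
  by_cases h1 : l = a
  · rw [if_pos h1, EE_dl]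
    by_cases h2 : j = k
    · rw [if_pos h2, if_pos h2, EE_dl, if_pos h1]
    · rw [if_neg h2, if_neg h2]; rfl
  · rw [if_neg h1, map_zero]
    by_cases h2 : j = k
    · rw [if_pos h2, EE_dl, if_neg h1]
    · rw [if_neg h2]; rfl

lemma EE_star (i j : ℤ) : star (EE i j) = EE j i := by
  refine HH_ext' fun a b => ?_
  rw [star_coef, EE_dl, EE_dl]
  by_cases h1 : j = a <;> by_cases h2 : i = b
  · rw [if_pos h1, if_pos h2, dl_dl, dl_dl, if_pos h2.symm, if_pos h1.symm]; simp
  · rw [if_pos h1, if_neg h2, dl_dl, inner_zero_right, if_neg (fun h => h2 h.symm)]; simp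
  · rw [if_neg h1, if_pos h2, dl_dl, inner_zero_right, if_neg (fun h => h1 h.symm)]; simp
  · rw [if_neg h1, if_neg h2, inner_zero_right, inner_zero_right]; simp

lemma EE_coef (i j a b : ℤ) : ⟪dl a, EE i j (dl b)⟫_ℂ = if a = i ∧ j = b then 1 else 0 := by
  rw [EE_dl]
  by_cases h1 : j = b
  · rw [if_pos h1, dl_dl]
    by_cases h2 : a = i
    · rw [if_pos h2, if_pos ⟨h2, h1⟩]
    · rw [if_neg h2, if_neg fun h => h2 h.1]
  · rw [if_neg h1, inner_zero_right, if_neg fun h => h1 h.2]

/-- norm bound for sums over matrix units -/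
lemma mu_norm {B : Type} [CStarAlgebra B] {N : ℕ} (e : Fin N → Fin N → B)
    (h1 : ∀ i j k l, e i j * e k l = if j = k then e i l else 0)
    (h2 : ∀ i j, star (e i j) = e j i) (a : Fin N → ℤ) (ha : Function.Injective a)
    (S : HH →L[ℂ] HH) : ‖∑ i, ∑ j, ⟪dl (a i), S (dl (a j))⟫_ℂ • e i j‖ ≤ ‖S‖ := by
  have k1 : ∀ i j k l : Fin N, EE (a i) (a j) * EE (a k) (a l) = if j = k then EE (a i) (a l) else 0 := by
    intro i j k l
    rw [EE_mul]
    by_cases h : j = k
    · rw [if_pos h, if_pos (congrArg a h)]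
    · rw [if_neg h, if_neg fun h' => h (ha h')]
  have k2 : ∀ i j : Fin N, star (EE (a i) (a j)) = EE (a j) (a i) := fun i j => EE_star _ _
  let φ := muHom e h1 h2
  let ψ := muHom (fun i j => EE (a i) (a j)) k1 k2
  let M : Matrix (Fin N) (Fin N) ℂ := fun i j => ⟪dl (a i), S (dl (a j))⟫_ℂ
  have hφ : φ (Mat.of M) = ∑ i, ∑ j, ⟪dl (a i), S (dl (a j))⟫_ℂ • e i j := rfl
  rw [← hφ]
  have hψinj : Function.Injective ψ := by
    rw [injective_iff_map_eq_zero]
    intro x hx
    have h3 : ∀ i j, (Mat.of.symm x) i j = 0 := by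
      intro i j
      have h4 : ⟪dl (a i), ψ x (dl (a j))⟫_ℂ = (Mat.of.symm x) i j := by
        show ⟪dl (a i), (∑ i', ∑ j', (Mat.of.symm x) i' j' • EE (a i') (a j')) (dl (a j))⟫_ℂ = _
        simp only [_root_.sum_apply, _root_.smul_apply, inner_sum, inner_smul_right, EE_coef]
        rw [Finset.sum_eq_single i, Finset.sum_eq_single j]
        · simp
        · intro j' _ hj'
          rw [if_neg fun h => hj' (ha h.2), mul_zero]
        · intro h; exact absurd (Finset.mem_univ j) h
        · intro i' _ hi'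
          refine Finset.sum_eq_zero fun j' _ => ?_
          rw [if_neg fun h => hi' (ha h.1).symm, mul_zero]
        · intro h; exact absurd (Finset.mem_univ i) h
      rw [← h4, hx]; simp
    exact Mat.of.symm.injective (by ext i j; exact h3 i j)
  refine (NonUnitalStarAlgHom.norm_apply_le φ _).trans ?_
  rw [← NonUnitalStarAlgHom.norm_map ψ hψinj]
  -- ψ M = Q S Q
  let Q : HH →L[ℂ] HH := ∑ i, EE (a i) (a i)
  have hQ : IsStarProjection Q := by
    constructor
    · show Q * Q = Q
      simp only [Q, Finset.sum_mul, Finset.mul_sum, k1]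
      refine Finset.sum_congr rfl fun i _ => ?_
      simp
    · show star Q = Q
      simp only [Q, star_sum, k2]
  have hQdl : ∀ j, Q (dl (a j)) = dl (a j) := by
    intro j
    simp only [Q, _root_.sum_apply, EE_dl]
    rw [Finset.sum_eq_single j]
    · simp
    · intro i _ hi
      rw [if_neg fun h => hi (ha h)]
    · intro h; exact absurd (Finset.mem_univ j) h
  have hQdl' : ∀ k, (∀ j, k ≠ a j) → Q (dl k) = 0 := by
    intro k hk
    simp only [Q, _root_.sum_apply, EE_dl]
    exact Finset.sum_eq_zero fun i _ => by rw [if_neg fun h => hk i h.symm]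
  have hQs : ∀ f g : HH, ⟪f, Q g⟫_ℂ = ⟪Q f, g⟫_ℂ := by
    intro f g
    conv_lhs => rw [← hQ.isSelfAdjoint.star_eq]
    rw [ContinuousLinearMap.star_eq_adjoint, ContinuousLinearMap.adjoint_inner_right]
  have h5 : ψ (Mat.of M) = Q * S * Q := by
    refine HH_ext' fun p q => ?_
    rw [mul_apply_eq_comp, mul_apply_eq_comp, hQs]
    show ⟪dl p, (∑ i', ∑ j', M i' j' • EE (a i') (a j')) (dl q)⟫_ℂ = _
    simp only [_root_.sum_apply, _root_.smul_apply, inner_sum, inner_smul_right, EE_coef]
    by_cases hp : ∃ i, p = a i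
    · obtain ⟨i, rfl⟩ := hp
      by_cases hq : ∃ j, q = a j
      · obtain ⟨j, rfl⟩ := hq
        rw [hQdl, hQdl, Finset.sum_eq_single i, Finset.sum_eq_single j]
        · simp [M]
        · intro j' _ hj'
          rw [if_neg fun h => hj' (ha h.2), mul_zero]
        · intro h; exact absurd (Finset.mem_univ j) h
        · intro i' _ hi'
          refine Finset.sum_eq_zero fun j' _ => ?_
          rw [if_neg fun h => hi' (ha h.1).symm, mul_zero]
        · intro h; exact absurd (Finset.mem_univ i) h
      · push Not at hq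
        rw [hQdl' q hq, map_zero, inner_zero_right]
        exact Finset.sum_eq_zero fun i' _ => Finset.sum_eq_zero fun j' _ => by
          rw [if_neg fun h => hq j' h.2.symm, mul_zero]
    · push Not at hp
      rw [hQdl' p hp, inner_zero_left]
      exact Finset.sum_eq_zero fun i' _ => Finset.sum_eq_zero fun j' _ => by
        rw [if_neg fun h => hp i' h.1, mul_zero]
  rw [h5]
  have hQn := IsStarProjection.norm_le Q hQ
  calc ‖Q * S * Q‖ ≤ ‖Q * S‖ * ‖Q‖ := norm_mul_le _ _
    _ ≤ (‖Q‖ * ‖S‖) * ‖Q‖ := mul_le_mul_of_nonneg_right (norm_mul_le _ _) (norm_nonneg _)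
    _ ≤ (1 * ‖S‖) * 1 := by
        refine mul_le_mul (mul_le_mul_of_nonneg_right hQn (norm_nonneg _)) hQn (norm_nonneg _)
          (by positivity)
    _ = ‖S‖ := by ring

/-! ### Compact operators -/

lemma EE_mem_Kc (i j : ℤ) : EE i j ∈ Kc :=
  Submodule.le_topologicalClosure _ (Submodule.subset_span ⟨(i, j), rfl⟩)

lemma isClosed_Kc : IsClosed (Kc : Set (HH →L[ℂ] HH)) :=
  Submodule.isClosed_topologicalClosure _

/-- induction for `Kc` -/
lemma Kc_induction {p : (HH →L[ℂ] HH) → Prop} (hcl : IsClosed {S | p S})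
    (hE : ∀ i j, p (EE i j)) (h0 : p 0) (hadd : ∀ S S', p S → p S' → p (S + S'))
    (hsmul : ∀ (c : ℂ) S, p S → p (c • S)) {S : HH →L[ℂ] HH} (hS : S ∈ Kc) : p S := by
  have h1 : (Submodule.span ℂ (Set.range fun p : ℤ × ℤ => EE p.1 p.2) : Set (HH →L[ℂ] HH)) ⊆
      {S | p S} := by
    intro S hS
    refine Submodule.span_induction (p := fun S _ => p S) ?_ h0 (fun S S' _ _ => hadd S S')
      (fun c S _ => hsmul c S) hS
    rintro _ ⟨⟨i, j⟩, rfl⟩
    exact hE i j
  exact closure_minimal h1 hcl hS

lemma continuous_star_HH : Continuous fun S : HH →L[ℂ] HH => star S := continuous_star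

lemma Kc_star {S : HH →L[ℂ] HH} (hS : S ∈ Kc) : star S ∈ Kc := by
  refine Kc_induction (p := fun S => star S ∈ Kc) ?_ ?_ ?_ ?_ ?_ hS
  · exact isClosed_Kc.preimage continuous_star
  · intro i j; rw [EE_star]; exact EE_mem_Kc j i
  · rw [star_zero]; exact Kc.zero_mem
  · intro S S' h h'; rw [star_add]; exact Kc.add_mem h h'
  · intro c S h; rw [star_smul]; exact Kc.smul_mem _ h

lemma Kc_mul_left (B : HH →L[ℂ] HH) {S : HH →L[ℂ] HH} (hS : S ∈ Kc) : B * S ∈ Kc := by
  refine Kc_induction (p := fun S => B * S ∈ Kc) ?_ ?_ ?_ ?_ ?_ hS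
  · exact isClosed_Kc.preimage (continuous_const.mul continuous_id)
  · intro i j
    -- B * EE i j is the limit of finite combinations
    have h1 : ∀ η : HH, (innerSL ℂ (dl j)).smulRight η ∈ Kc := by
      intro η
      have h2 : HasSum (fun k => (η k) • dl k) η := by
        have h3 := (lp.hasSum_single (by norm_num : (2 : ENNReal) ≠ ⊤) η)
        convert h3 using 2 with k
        rw [dl, ← lp.single_smul]
        simp
      have h4 : Continuous fun η : HH => (innerSL ℂ (dl j)).smulRight η :=
        (ContinuousLinearMap.smulRightL ℂ HH HH (innerSL ℂ (dl j))).continuous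
      have h5 := isClosed_Kc.preimage h4
      refine h5.mem_of_tendsto h2 (Eventually.of_forall fun s => ?_)
      show (innerSL ℂ (dl j)).smulRight (∑ k ∈ s, (η k) • dl k) ∈ Kc
      have h6 : (innerSL ℂ (dl j)).smulRight (∑ k ∈ s, (η k) • dl k) =
          ∑ k ∈ s, (η k) • EE k j := by
        refine HH_ext fun a => ?_
        simp only [_root_.sum_apply, _root_.smul_apply, EE_apply,
          ContinuousLinearMap.smulRight_apply, innerSL_apply_apply, Finset.smul_sum]
        exact Finset.sum_congr rfl fun k _ => smul_comm _ _ _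
      rw [h6]
      exact Kc.sum_mem fun k _ => Kc.smul_mem _ (EE_mem_Kc k j)
    have h2 : B * EE i j = (innerSL ℂ (dl j)).smulRight (B (dl i)) := by
      refine HH_ext fun a => ?_
      rw [mul_apply_eq_comp, EE_apply, map_smul]; rfl
    rw [h2]; exact h1 _
  · rw [mul_zero]; exact Kc.zero_mem
  · intro S S' h h'; rw [mul_add]; exact Kc.add_mem h h'
  · intro c S h; rw [mul_smul_comm]; exact Kc.smul_mem _ h

lemma Kc_mul_right (B : HH →L[ℂ] HH) {S : HH →L[ℂ] HH} (hS : S ∈ Kc) : S * B ∈ Kc := by
  have h1 := Kc_star (Kc_mul_left (star B) (Kc_star hS))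
  rwa [star_mul, star_star, star_star] at h1

/-- elements of `Kc` are compact operators -/
lemma isCompactOperator_of_Kc {S : HH →L[ℂ] HH} (hS : S ∈ Kc) : IsCompactOperator S := by
  refine Kc_induction (p := fun S => IsCompactOperator S) ?_ ?_ ?_ ?_ ?_ hS
  · exact isClosed_setOfPred_isCompactOperator
  · intro i j
    have h1 : IsCompactOperator (ContinuousLinearMap.toSpanSingleton ℂ (dl i) : ℂ →L[ℂ] HH) :=
      isCompactOperator_of_locallyCompactSpace_rng _
    exact h1.comp_clm (innerSL ℂ (dl j))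
  · exact isCompactOperator_zero
  · intro S S' h h'; exact h.add h'
  · intro c S h; exact h.smul c

end Run7.h745
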