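import Pool.Agent.Run7.h745.KTa

/-!
# Piece KT, part 2: the asymptotic homomorphisms
-/

set_option autoImplicit false
set_option linter.unusedSectionVars false

noncomputable section

namespace Run7.h745

open Filter Topology Matrix
open scoped InnerProductSpace

section
variable {X : Type} [TopologicalSpace X] [CompactSpace X] [T2Space X] {T : X ≃ₜ X}
  (D : TowerData X T) {A : Type} [CStarAlgebra A] (ι : C(X, ℂ) →⋆ₐ[ℂ] A) (u : unitary A)

/-- half of the height -/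
def TowerData.lh (n : ℕ) : ℕ := (D.h n - 1) / 2

lemma TowerData.lh_spec (n : ℕ) : 2 * D.lh n < D.h n := by
  have := D.h_pos n
  unfold TowerData.lh; omega

lemma TowerData.lh_tendsto : Tendsto D.lh atTop atTop := by
  refine tendsto_atTop.mpr fun b => ?_
  filter_upwards [tendsto_atTop.mp D.h_tendsto (2 * b + 1)] with n hn
  unfold TowerData.lh; omega

/-- `Th n S = ∑ ⟨S δ_j, δ_i⟩ u^i χ_{V n} u^{-j}` -/
def TowerData.Th (n : ℕ) : (HH →L[ℂ] HH) →ₗ[ℂ] A where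
  toFun S := ∑ i ∈ Finset.Icc (-(D.lh n : ℤ)) (D.lh n), ∑ j ∈ Finset.Icc (-(D.lh n : ℤ)) (D.lh n),
    ⟪dl i, S (dl j)⟫_ℂ • D.eu ι u n 1 i j
  map_add' S S' := by
    simp only [_root_.add_apply, inner_add_right, add_smul, Finset.sum_add_distrib]
  map_smul' c S := by
    simp only [_root_.smul_apply, inner_smul_right, mul_smul, Finset.smul_sum, RingHom.id_apply]

lemma TowerData.Th_apply (n : ℕ) (S : HH →L[ℂ] HH) : D.Th ι u n S =
    ∑ i ∈ Finset.Icc (-(D.lh n : ℤ)) (D.lh n), ∑ j ∈ Finset.Icc (-(D.lh n : ℤ)) (D.lh n),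
    ⟪dl i, S (dl j)⟫_ℂ • D.eu ι u n 1 i j := rfl

lemma TowerData.Th_star (n : ℕ) (S : HH →L[ℂ] HH) : star (D.Th ι u n S) = D.Th ι u n (star S) := by
  rw [TowerData.Th_apply, TowerData.Th_apply]
  simp only [star_sum, star_smul, D.star_eu, star_one, star_coef]
  rw [Finset.sum_comm]

lemma sum_Icc_fin (l : ℕ) {M : Type} [AddCommMonoid M] (f : ℤ → M) :
    ∑ i ∈ Finset.Icc (-(l : ℤ)) l, f i = ∑ i : Fin (2 * l + 1), f ((i : ℕ) - (l : ℤ)) := by
  refine (Finset.sum_bij (fun (i : Fin (2 * l + 1)) _ => ((i : ℕ) : ℤ) - l) ?_ ?_ ?_ ?_).symm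
  · intro i _
    have := i.2
    rw [Finset.mem_Icc]; omega
  · intro i _ j _ h
    apply Fin.ext; omega
  · intro k hk
    rw [Finset.mem_Icc] at hk
    refine ⟨⟨(k + l).toNat, by omega⟩, Finset.mem_univ _, ?_⟩
    simp only; omega
  · intro i _; rfl

lemma TowerData.Th_norm (hc : Covariant T ι u) (n : ℕ) (S : HH →L[ℂ] HH) :
    ‖D.Th ι u n S‖ ≤ ‖S‖ := by
  rw [TowerData.Th_apply]
  simp only [sum_Icc_fin]
  have hl := D.lh_spec n
  refine mu_norm (fun i j : Fin (2 * D.lh n + 1) =>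
    D.eu ι u n 1 ((i : ℕ) - (D.lh n : ℤ)) ((j : ℕ) - (D.lh n : ℤ))) ?_ ?_
    (fun i => ((i : ℕ) : ℤ) - D.lh n) ?_ S
  · intro i j k l
    by_cases h : j = k
    · subst h
      rw [if_pos rfl, D.eu_mul_same, mul_one]
    · rw [if_neg h]
      refine D.eu_mul_diff hc n 1 1 _ _ _ _ ?_ ?_
      · intro h'; apply h; apply Fin.ext; omega
      · rw [abs_lt]; omega
  · intro i j
    rw [D.star_eu, star_one]
  · intro i j h
    apply Fin.ext
    simp only at h
    omega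

/-- for large `n`, `Th n` maps matrix units to matrix units -/
lemma TowerData.Th_EE (n : ℕ) (i j : ℤ) (hi : |i| ≤ D.lh n) (hj : |j| ≤ D.lh n) :
    D.Th ι u n (EE i j) = D.eu ι u n 1 i j := by
  rw [abs_le] at hi hj
  rw [TowerData.Th_apply, Finset.sum_eq_single i, Finset.sum_eq_single j]
  · rw [EE_coef, if_pos ⟨rfl, rfl⟩, one_smul]
  · intro b _ hb
    rw [EE_coef, if_neg fun h => hb h.2.symm, zero_smul]
  · intro h; exact absurd (Finset.mem_Icc.mpr ⟨hj.1, hj.2⟩) h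
  · intro a _ ha
    refine Finset.sum_eq_zero fun b _ => ?_
    rw [EE_coef, if_neg fun h => ha h.1, zero_smul]
  · intro h; exact absurd (Finset.mem_Icc.mpr ⟨hi.1, hi.2⟩) h

lemma TowerData.ev_lh (i : ℤ) : ∀ᶠ n in atTop, |i| ≤ (D.lh n : ℤ) := by
  filter_upwards [tendsto_atTop.mp D.lh_tendsto i.natAbs] with n hn
  rw [Int.abs_eq_natAbs]; exact_mod_cast hn

/-- approximation principle -/
lemma tend_Kc (F : ℕ → (HH →L[ℂ] HH) →ₗ[ℂ] A) (C : ℝ) (hC : ∀ n S, ‖F n S‖ ≤ C * ‖S‖)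
    (hE : ∀ i j, Tendsto (fun n => F n (EE i j)) atTop (𝓝 0)) {S : HH →L[ℂ] HH} (hS : S ∈ Kc) :
    Tendsto (fun n => F n S) atTop (𝓝 0) := by
  have hC0 : 0 ≤ C ∨ ∀ S : HH →L[ℂ] HH, S = 0 := by
    by_cases h : 0 ≤ C
    · exact Or.inl h
    · right
      intro S
      have h1 := hC 0 S
      have h2 : 0 ≤ ‖F 0 S‖ := norm_nonneg _
      push Not at h
      have h3 : ‖S‖ ≤ 0 := by nlinarith [norm_nonneg S]
      exact norm_le_zero_iff.mp h3
  rcases hC0 with hC0 | hC0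
  · refine Kc_induction (p := fun S => Tendsto (fun n => F n S) atTop (𝓝 0)) ?_ hE ?_ ?_ ?_ hS
    · rw [← isSeqClosed_iff_isClosed]
      intro Sk S hSk hlim
      rw [Set.mem_ofPred_eq, Metric.tendsto_atTop]
      intro ε hε
      have h1 : Tendsto (fun k => ‖Sk k - S‖) atTop (𝓝 0) := by
        rw [← tendsto_iff_norm_sub_tendsto_zero]; exact hlim
      obtain ⟨k, hk⟩ := (Metric.tendsto_atTop.mp h1 (ε / (2 * (C + 1))) (by positivity))
      have hk' := hk k le_rfl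
      rw [Real.dist_eq, sub_zero, abs_norm] at hk'
      obtain ⟨N, hN⟩ := (Metric.tendsto_atTop.mp (hSk k) (ε / 2) (by positivity))
      refine ⟨N, fun n hn => ?_⟩
      have h2 := hN n hn
      rw [dist_zero_right] at h2 ⊢
      calc ‖F n S‖ = ‖F n (Sk k) - F n (Sk k - S)‖ := by rw [map_sub]; congr 1; abel
        _ ≤ ‖F n (Sk k)‖ + ‖F n (Sk k - S)‖ := norm_sub_le _ _
        _ ≤ ‖F n (Sk k)‖ + C * ‖Sk k - S‖ := by linarith [hC n (Sk k - S)]
        _ ≤ ‖F n (Sk k)‖ + (C + 1) * (ε / (2 * (C + 1))) := by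
            have : C * ‖Sk k - S‖ ≤ (C + 1) * (ε / (2 * (C + 1))) :=
              mul_le_mul (by linarith) hk'.le (norm_nonneg _) (by linarith)
            linarith
        _ < ε / 2 + ε / 2 := by
            have : (C + 1) * (ε / (2 * (C + 1))) = ε / 2 := by field_simp
            rw [this]; linarith
        _ = ε := by ring
    · simp only [map_zero]; exact tendsto_const_nhds
    · intro S S' h h'
      simp only [map_add]
      simpa using h.add h'
    · intro c S h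
      simp only [map_smul]
      simpa using h.const_smul c
  · rw [hC0 S]
    simp only [map_zero]; exact tendsto_const_nhds

/-! ### Shrinking -/

variable {x₀ : X} (hx₀ : ⋂ n, D.V n = {x₀})

lemma TowerData.shrink (hx₀ : ⋂ n, D.V n = {x₀}) (g : C(X, ℂ)) (hg : g x₀ = 0) :
    Tendsto (fun n => ‖ind (D.V n) * g‖) atTop (𝓝 0) := by
  rw [Metric.tendsto_atTop]
  intro ε hε
  have hU : IsOpen {x : X | ‖g x‖ < ε / 2} := isOpen_lt g.continuous.norm continuous_const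
  have h1 : ∃ N, D.V N ⊆ {x : X | ‖g x‖ < ε / 2} := by
    by_contra hc
    push Not at hc
    have h2 : ∀ n, (D.V n ∩ {x : X | ‖g x‖ < ε / 2}ᶜ).Nonempty := by
      intro n
      obtain ⟨x, hx, hx'⟩ := Set.not_subset.mp (hc n)
      exact ⟨x, hx, hx'⟩
    obtain ⟨y, hy⟩ := IsCompact.nonempty_iInter_of_sequence_nonempty_isCompact_isClosed
      (fun n => D.V n ∩ {x : X | ‖g x‖ < ε / 2}ᶜ)
      (fun n => Set.inter_subset_inter_left _ (D.V_succ n)) h2
      (((D.isClopen_V 0).isClosed.inter hU.isClosed_compl).isCompact)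
      (fun n => (D.isClopen_V n).isClosed.inter hU.isClosed_compl)
    rw [Set.mem_iInter] at hy
    have h3 : y ∈ ⋂ n, D.V n := Set.mem_iInter.mpr fun n => (hy n).1
    rw [hx₀, Set.mem_singleton_iff] at h3
    have h4 := (hy 0).2
    apply h4
    rw [h3]
    show ‖g x₀‖ < ε / 2
    rw [hg, norm_zero]; positivity
  obtain ⟨N, hN⟩ := h1
  refine ⟨N, fun n hn => ?_⟩
  rw [Real.dist_eq, sub_zero, abs_norm]
  refine lt_of_le_of_lt ((ContinuousMap.norm_le _ (by positivity)).mpr fun x => ?_) (half_lt_self hε)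
  rw [ContinuousMap.mul_apply]
  by_cases hx : x ∈ D.V n
  · rw [ind_mem (D.isClopen_V n) hx, one_mul]
    exact (hN (D.V_anti hn hx)).le
  · rw [ind_notMem (D.isClopen_V n) hx, zero_mul, norm_zero]; positivity

lemma up_norm_le (k : ℤ) : ‖up u k‖ ≤ 1 := by
  have h := CStarRing.norm_coe_unitary_mul (E := A) (u ^ k) 1
  unfold up
  rw [mul_one] at h
  rw [h]
  by_cases hn : Nontrivial A
  · rw [CStarRing.norm_one]
  · rw [not_nontrivial_iff_subsingleton] at hn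
    rw [Subsingleton.elim (1 : A) 0, norm_zero]; exact zero_le_one

lemma TowerData.eu_norm (n : ℕ) (f : C(X, ℂ)) (i j : ℤ) :
    ‖D.eu ι u n f i j‖ ≤ ‖ind (D.V n) * f‖ := by
  unfold TowerData.eu
  have h1 := up_norm_le u i
  have h2 := up_norm_le u (-j)
  have h3 := NonUnitalStarAlgHom.norm_apply_le ι (ind (D.V n) * f)
  calc ‖up u i * ι (ind (D.V n) * f) * up u (-j)‖
      ≤ ‖up u i * ι (ind (D.V n) * f)‖ * ‖up u (-j)‖ := norm_mul_le _ _
    _ ≤ (‖up u i‖ * ‖ι (ind (D.V n) * f)‖) * ‖up u (-j)‖ :=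
        mul_le_mul_of_nonneg_right (norm_mul_le _ _) (norm_nonneg _)
    _ ≤ (1 * ‖ind (D.V n) * f‖) * 1 :=
        mul_le_mul (mul_le_mul h1 h3 (norm_nonneg _) zero_le_one) h2 (norm_nonneg _) (by positivity)
    _ = _ := by ring

/-! ### The module property -/

variable {ι u}
variable {P : A →⋆ₐ[ℂ] (HH →L[ℂ] HH)}

/-- `a Th(S) - Th(P(a) S) → 0` -/
def TowerData.Md (P : A →⋆ₐ[ℂ] (HH →L[ℂ] HH)) (a : A) : Prop :=
  ∀ S ∈ Kc, Tendsto (fun n => a * D.Th ι u n S - D.Th ι u n (P a * S)) atTop (𝓝 0)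

/-- the linear map `S ↦ a Th(S) - Th(P(a) S)` -/
def TowerData.MdL (ι : C(X, ℂ) →⋆ₐ[ℂ] A) (u : unitary A) (P : A →⋆ₐ[ℂ] (HH →L[ℂ] HH)) (a : A)
    (n : ℕ) : (HH →L[ℂ] HH) →ₗ[ℂ] A :=
  (LinearMap.mulLeft ℂ a).comp (D.Th ι u n) - (D.Th ι u n).comp (LinearMap.mulLeft ℂ (P a))

lemma TowerData.MdL_apply (a : A) (n : ℕ) (S : HH →L[ℂ] HH) :
    D.MdL ι u P a n S = a * D.Th ι u n S - D.Th ι u n (P a * S) := rfl

lemma TowerData.MdL_norm (hc : Covariant T ι u) (a : A) (n : ℕ) (S : HH →L[ℂ] HH) :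
    ‖D.MdL ι u P a n S‖ ≤ 2 * ‖a‖ * ‖S‖ := by
  rw [TowerData.MdL_apply]
  have h1 : ‖a * D.Th ι u n S‖ ≤ ‖a‖ * ‖S‖ :=
    (norm_mul_le _ _).trans (mul_le_mul_of_nonneg_left (D.Th_norm ι u hc n S) (norm_nonneg _))
  have h2 : ‖D.Th ι u n (P a * S)‖ ≤ ‖a‖ * ‖S‖ := by
    refine (D.Th_norm ι u hc n _).trans ((norm_mul_le _ _).trans ?_)
    exact mul_le_mul_of_nonneg_right (NonUnitalStarAlgHom.norm_apply_le P a) (norm_nonneg _)
  calc _ ≤ ‖a * D.Th ι u n S‖ + ‖D.Th ι u n (P a * S)‖ := norm_sub_le _ _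
    _ ≤ _ := by linarith

lemma TowerData.Md_of_EE (hc : Covariant T ι u) (a : A)
    (h : ∀ i j, Tendsto (fun n => a * D.Th ι u n (EE i j) - D.Th ι u n (P a * EE i j)) atTop
      (𝓝 0)) : D.Md (ι := ι) (u := u) P a := by
  intro S hS
  exact tend_Kc (fun n => D.MdL ι u P a n) (2 * ‖a‖) (D.MdL_norm hc a) h hS

lemma TowerData.Md_fn (hc : Covariant T ι u) (hx₀ : ⋂ n, D.V n = {x₀}) (hP : IsOrbitRep T ι u x₀ P)
    (f : C(X, ℂ)) : D.Md (ι := ι) (u := u) P (ι f) := by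
  refine D.Md_of_EE hc _ fun i j => ?_
  have h1 : P (ι f) * EE i j = f ((T ^ i : X ≃ₜ X) x₀) • EE i j := by
    refine HH_ext fun k => ?_
    rw [mul_apply_eq_comp, EE_dl, _root_.smul_apply, EE_dl]
    split_ifs
    · exact hP.fn f i
    · rw [map_zero, smul_zero]
  rw [h1]
  have h2 := D.shrink hx₀ (cT T i f - algebraMap ℂ C(X, ℂ) (f ((T ^ i : X ≃ₜ X) x₀))) (by
    rw [ContinuousMap.sub_apply, cT_apply]
    exact sub_self _)
  refine squeeze_zero_norm' ?_ h2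
  filter_upwards [D.ev_lh i, D.ev_lh j] with n hi hj
  rw [map_smul, D.Th_EE ι u n i j hi hj, D.ind_eu hc]
  have h3 : D.eu ι u n (cT T i f * 1) i j - f ((T ^ i : X ≃ₜ X) x₀) • D.eu ι u n 1 i j =
      D.eu ι u n (cT T i f - algebraMap ℂ C(X, ℂ) (f ((T ^ i : X ≃ₜ X) x₀))) i j := by
    rw [← D.eu_smul, sub_eq_iff_eq_add, ← D.eu_add, mul_one, Algebra.algebraMap_eq_smul_one,
      sub_add_cancel]
  rw [h3]
  exact D.eu_norm ι u n _ i j

lemma TowerData.Md_up (hc : Covariant T ι u) (hP : IsOrbitRep T ι u x₀ P)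
    (k : ℤ) : D.Md (ι := ι) (u := u) P (up u k) := by
  refine D.Md_of_EE hc _ fun i j => ?_
  have h1 : P (up u k) * EE i j = EE (k + i) j := by
    refine HH_ext fun b => ?_
    rw [mul_apply_eq_comp, EE_dl, EE_dl]
    split_ifs
    · rw [hP.up, add_comm]
    · rw [map_zero]
  rw [h1]
  refine tendsto_const_nhds.congr' ?_
  filter_upwards [D.ev_lh i, D.ev_lh j, D.ev_lh (k + i)] with n hi hj hk
  rw [D.Th_EE ι u n i j hi hj, D.Th_EE ι u n _ j hk hj, D.up_eu, sub_self]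

lemma TowerData.Md_mul {a b : A} (ha : D.Md (ι := ι) (u := u) P a)
    (hb : D.Md (ι := ι) (u := u) P b) : D.Md (ι := ι) (u := u) P (a * b) := by
  intro S hS
  have h1 := (hb S hS).const_mul a
  have h2 := ha (P b * S) (Kc_mul_left _ hS)
  have h3 := h1.add h2
  rw [mul_zero, add_zero] at h3
  refine h3.congr fun n => ?_
  rw [map_mul P, mul_assoc (P a)]
  noncomm_ring

lemma TowerData.Md_add {a b : A} (ha : D.Md (ι := ι) (u := u) P a)
    (hb : D.Md (ι := ι) (u := u) P b) : D.Md (ι := ι) (u := u) P (a + b) := by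
  intro S hS
  have h3 := (ha S hS).add (hb S hS)
  rw [add_zero] at h3
  refine h3.congr fun n => ?_
  rw [map_add, add_mul, add_mul, map_add]
  abel

lemma TowerData.Md_zero : D.Md (ι := ι) (u := u) P (0 : A) := by
  intro S _
  simp only [zero_mul, map_zero, sub_zero]
  exact tendsto_const_nhds

lemma TowerData.Md_all (hA : IsCrossedProduct T ι u) (cp3 : S_CP3) (hx₀ : ⋂ n, D.V n = {x₀})
    (hP : IsOrbitRep T ι u x₀ P) (a : A) : D.Md (ι := ι) (u := u) P a := by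
  intro S hS
  rw [Metric.tendsto_atTop]
  intro ε hε
  obtain ⟨L, f, hf⟩ := cp3 X T A ι u hA a (ε / (4 * (‖S‖ + 1))) (by positivity)
  set y : A := ∑ j ∈ Finset.Icc (-(L : ℤ)) L, ι (f j) * ((u ^ j : unitary A) : A) with hy
  have hyM : D.Md (ι := ι) (u := u) P y := by
    rw [hy]
    refine Finset.sum_induction _ (fun a => D.Md (ι := ι) (u := u) P a)
      (fun a b => D.Md_add) D.Md_zero fun j _ => ?_
    exact D.Md_mul (D.Md_fn hA.cov hx₀ hP (f j)) (D.Md_up hA.cov hP j)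
  obtain ⟨N, hN⟩ := (Metric.tendsto_atTop.mp (hyM S hS) (ε / 2) (by positivity))
  refine ⟨N, fun n hn => ?_⟩
  have h2 := hN n hn
  rw [dist_zero_right] at h2 ⊢
  have h3 : a * D.Th ι u n S - D.Th ι u n (P a * S) =
      (y * D.Th ι u n S - D.Th ι u n (P y * S)) + D.MdL ι u P (a - y) n S := by
    rw [TowerData.MdL_apply, sub_mul, map_sub, sub_mul, map_sub]; abel
  rw [h3]
  calc _ ≤ ‖y * D.Th ι u n S - D.Th ι u n (P y * S)‖ + ‖D.MdL ι u P (a - y) n S‖ := norm_add_le _ _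
    _ ≤ ‖y * D.Th ι u n S - D.Th ι u n (P y * S)‖ + 2 * (ε / (4 * (‖S‖ + 1))) * (‖S‖ + 1) := by
        have h4 := D.MdL_norm (P := P) hA.cov (a - y) n S
        have h5 : 2 * ‖a - y‖ * ‖S‖ ≤ 2 * (ε / (4 * (‖S‖ + 1))) * (‖S‖ + 1) := by
          refine mul_le_mul (by linarith) (by linarith) (norm_nonneg _) (by positivity)
        linarith
    _ < ε / 2 + ε / 2 := by
        have : 2 * (ε / (4 * (‖S‖ + 1))) * (‖S‖ + 1) = ε / 2 := by field_simp; ring
        rw [this]; linarith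
    _ = ε := by ring

/-- right version -/
lemma TowerData.Md_right (hA : IsCrossedProduct T ι u) (cp3 : S_CP3) (hx₀ : ⋂ n, D.V n = {x₀})
    (hP : IsOrbitRep T ι u x₀ P) (a : A) {S : HH →L[ℂ] HH} (hS : S ∈ Kc) :
    Tendsto (fun n => D.Th ι u n S * a - D.Th ι u n (S * P a)) atTop (𝓝 0) := by
  have h1 := (D.Md_all hA cp3 hx₀ hP (star a) (star S) (Kc_star hS)).star
  rw [star_zero] at h1
  refine h1.congr fun n => ?_
  rw [star_sub, star_mul, star_star, D.Th_star, star_star, D.Th_star, star_mul, star_star, map_star,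
    star_star]

/-- asymptotic multiplicativity on compact operators -/
lemma TowerData.Th_mul (hc : Covariant T ι u) {S S' : HH →L[ℂ] HH} (hS : S ∈ Kc) (hS' : S' ∈ Kc) :
    Tendsto (fun n => D.Th ι u n S * D.Th ι u n S' - D.Th ι u n (S * S')) atTop (𝓝 0) := by
  have step1 : ∀ k l : ℤ, ∀ S ∈ Kc, Tendsto (fun n => D.Th ι u n S * D.Th ι u n (EE k l) -
      D.Th ι u n (S * EE k l)) atTop (𝓝 0) := by
    intro k l S hS
    refine tend_Kc (fun n => (LinearMap.mulRight ℂ (D.Th ι u n (EE k l))).comp (D.Th ι u n) -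
      (D.Th ι u n).comp (LinearMap.mulRight ℂ (EE k l))) (2 * ‖EE k l‖) ?_ ?_ hS
    · intro n S
      have h1 : ‖D.Th ι u n S * D.Th ι u n (EE k l)‖ ≤ ‖S‖ * ‖EE k l‖ :=
        (norm_mul_le _ _).trans (mul_le_mul (D.Th_norm ι u hc n S) (D.Th_norm ι u hc n _)
          (norm_nonneg _) (norm_nonneg _))
      have h2 : ‖D.Th ι u n (S * EE k l)‖ ≤ ‖S‖ * ‖EE k l‖ :=
        (D.Th_norm ι u hc n _).trans (norm_mul_le _ _)
      calc _ ≤ ‖D.Th ι u n S * D.Th ι u n (EE k l)‖ + ‖D.Th ι u n (S * EE k l)‖ := norm_sub_le _ _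
        _ ≤ _ := by linarith
    · intro i j
      refine tendsto_const_nhds.congr' ?_
      filter_upwards [D.ev_lh i, D.ev_lh j, D.ev_lh k, D.ev_lh l] with n hi hj hk hl
      show 0 = D.Th ι u n (EE i j) * D.Th ι u n (EE k l) - D.Th ι u n (EE i j * EE k l)
      rw [D.Th_EE ι u n i j hi hj, D.Th_EE ι u n k l hk hl, EE_mul]
      by_cases h : j = k
      · subst h
        rw [if_pos rfl, D.Th_EE ι u n i l hi hl, D.eu_mul_same, mul_one, sub_self]
      · rw [if_neg h, map_zero, sub_zero]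
        refine (D.eu_mul_diff hc n 1 1 i j k l h ?_).symm
        have := D.lh_spec n
        rw [abs_le] at hj hk
        rw [abs_lt]; omega
  refine tend_Kc (fun n => (LinearMap.mulLeft ℂ (D.Th ι u n S)).comp (D.Th ι u n) -
      (D.Th ι u n).comp (LinearMap.mulLeft ℂ S)) (2 * ‖S‖) ?_ (fun k l => step1 k l S hS) hS'
  intro n S'
  have h1 : ‖D.Th ι u n S * D.Th ι u n S'‖ ≤ ‖S‖ * ‖S'‖ :=
    (norm_mul_le _ _).trans (mul_le_mul (D.Th_norm ι u hc n S) (D.Th_norm ι u hc n _)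
      (norm_nonneg _) (norm_nonneg _))
  have h2 : ‖D.Th ι u n (S * S')‖ ≤ ‖S‖ * ‖S'‖ :=
    (D.Th_norm ι u hc n _).trans (norm_mul_le _ _)
  calc _ ≤ ‖D.Th ι u n S * D.Th ι u n S'‖ + ‖D.Th ι u n (S * S')‖ := norm_sub_le _ _
    _ ≤ _ := by linarith

/-- `Phi n a S = a + Th n (S - P a)` -/
def TowerData.Phi (ι : C(X, ℂ) →⋆ₐ[ℂ] A) (u : unitary A) (P : A →⋆ₐ[ℂ] (HH →L[ℂ] HH)) (n : ℕ)
    (a : A) (S : HH →L[ℂ] HH) : A :=
  a + D.Th ι u n (S - P a)

/-- asymptotic multiplicativity of `Phi` -/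
lemma TowerData.Phi_mul (hA : IsCrossedProduct T ι u) (cp3 : S_CP3) (hx₀ : ⋂ n, D.V n = {x₀})
    (hP : IsOrbitRep T ι u x₀ P) {a b : A} {S R : HH →L[ℂ] HH} (hS : S - P a ∈ Kc)
    (hR : R - P b ∈ Kc) :
    Tendsto (fun n => D.Phi ι u P n a S * D.Phi ι u P n b R - D.Phi ι u P n (a * b) (S * R)) atTop
      (𝓝 0) := by
  have h1 := D.Md_all hA cp3 hx₀ hP a _ hR
  have h2 := D.Md_right hA cp3 hx₀ hP b hS
  have h3 := D.Th_mul hA.cov hS hR
  have h4 := (h1.add h2).add h3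
  rw [add_zero, add_zero] at h4
  refine h4.congr fun n => ?_
  simp only [TowerData.Phi]
  have e : S * R - P (a * b) = P a * (R - P b) + (S - P a) * P b + (S - P a) * (R - P b) := by
    rw [map_mul]; noncomm_ring
  rw [e, map_add, map_add]
  noncomm_ring

end

end Run7.h745
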