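import Pool.Agent.Run7.h745.MatTr

/-!
# Piece KAP: `K_0(M_{k+1}(A)) ≅ K_0(A)`
-/

set_option autoImplicit false
set_option linter.unusedSectionVars false

noncomputable section

namespace Run7.h745

open Filter Topology Matrix Pool.Agent.TH249

section
variable {A : Type} [CStarAlgebra A] {k : ℕ} {I J L : Type} [Fintype I] [Fintype J] [Fintype L]

lemma isPrj_fl {P : Matrix I I (Mat k A)} (hP : IsPrj P) : IsPrj (fl P) :=
  ⟨by rw [← fl_star, hP.1], by rw [← fl_mul, hP.2]⟩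

lemma Eqv_fl {P : Matrix I I (Mat k A)} {Q : Matrix J J (Mat k A)} :
    Eqv (fl P) (fl Q) ↔ Eqv P Q := by
  constructor
  · rintro ⟨v, h1, h2⟩
    refine ⟨unfl v, ?_, ?_⟩
    · apply fl_inj
      rw [fl_mul, fl_star, fl_unfl, h1]
    · apply fl_inj
      rw [fl_mul, fl_star, fl_unfl, h2]
  · rintro ⟨v, h1, h2⟩
    exact ⟨fl v, by rw [← fl_star, ← fl_mul, h1], by rw [← fl_star, ← fl_mul, h2]⟩

/-- the projection `Q ⊗ e_00` -/
def cr (Q : Matrix I I A) (k : ℕ) : Matrix I I (Mat (k + 1) A) :=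
  unfl (Matrix.of fun i j => if i.2 = 0 ∧ j.2 = 0 then Q i.1 j.1 else 0)

lemma cr_eqv {Q : Matrix I I A} (hQ : IsPrj Q) (k : ℕ) : Eqv Q (fl (cr Q k)) := by
  have hs : ∀ i j, star (Q j i) = Q i j := by
    intro i j
    have := congrFun (congrFun hQ.1 i) j
    rwa [conjTranspose_apply] at this
  have hm : ∀ i j, ∑ l, Q i l * Q l j = Q i j := by
    intro i j
    have := congrFun (congrFun hQ.2 i) j
    rwa [mul_apply] at this
  refine ⟨Matrix.of fun i j => if i.2 = 0 then Q i.1 j else 0, ?_, ?_⟩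
  · ext i j
    simp only [mul_apply, conjTranspose_apply, of_apply, Fintype.sum_prod_type]
    rw [← hm i j]
    refine Finset.sum_congr rfl fun l _ => ?_
    rw [Finset.sum_eq_single (0 : Fin (k + 1))]
    · simp [hs]
    · intro b _ hb; simp [hb]
    · intro h; exact absurd (Finset.mem_univ _) h
  · ext ⟨i, p⟩ ⟨j, q⟩
    rw [cr, fl_unfl]
    simp only [mul_apply, conjTranspose_apply, of_apply]
    by_cases hp : p = 0
    · by_cases hq : q = 0
      · rw [if_pos (⟨hp, hq⟩ : p = 0 ∧ q = 0), ← hm i j]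
        refine Finset.sum_congr rfl fun l _ => ?_
        rw [if_pos hp, if_pos hq, hs]
      · rw [if_neg (fun h : p = 0 ∧ q = 0 => hq h.2)]
        refine Finset.sum_eq_zero fun l _ => ?_
        rw [if_neg hq, star_zero, mul_zero]
    · rw [if_neg (fun h : p = 0 ∧ q = 0 => hp h.1)]
      refine Finset.sum_eq_zero fun l _ => ?_
      rw [if_neg hp, zero_mul]

lemma isPrj_of_fl {P : Matrix I I (Mat k A)} (hP : IsPrj (fl P)) : IsPrj P :=
  ⟨fl_inj (by rw [fl_star, hP.1]), fl_inj (by rw [fl_mul, hP.2])⟩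

lemma isPrj_cr {Q : Matrix I I A} (hQ : IsPrj Q) (k : ℕ) : IsPrj (cr Q k) := by
  apply isPrj_of_fl
  obtain ⟨v, h1, h2⟩ := cr_eqv hQ k
  rw [← h2]
  refine ⟨by rw [conjTranspose_mul, conjTranspose_conjTranspose], ?_⟩
  have hs : ∀ i j, star (Q j i) = Q i j := by
    intro i j
    have := congrFun (congrFun hQ.1 i) j
    rwa [conjTranspose_apply] at this
  rw [h2]
  ext ⟨i, p⟩ ⟨j, q⟩
  rw [Run7.h745.cr, fl_unfl]
  have hm : ∀ i j, ∑ l, Q i l * Q l j = Q i j := by
    intro i j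
    have := congrFun (congrFun hQ.2 i) j
    rwa [mul_apply] at this
  simp only [mul_apply, of_apply, Fintype.sum_prod_type]
  by_cases hp : p = 0
  · by_cases hq : q = 0
    · rw [if_pos (⟨hp, hq⟩ : p = 0 ∧ q = 0), ← hm i j]
      refine Finset.sum_congr rfl fun l _ => ?_
      rw [Finset.sum_eq_single (0 : Fin (k + 1))]
      · simp [hp, hq]
      · intro b _ hb; simp [hb]
      · intro h; exact absurd (Finset.mem_univ _) h
    · rw [if_neg (fun h : p = 0 ∧ q = 0 => hq h.2)]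
      refine Finset.sum_eq_zero fun l _ => Finset.sum_eq_zero fun r _ => ?_
      rw [if_neg (fun h : r = 0 ∧ q = 0 => hq h.2), mul_zero]
  · rw [if_neg (fun h : p = 0 ∧ q = 0 => hp h.1)]
    refine Finset.sum_eq_zero fun l _ => Finset.sum_eq_zero fun r _ => ?_
    rw [if_neg (fun h : p = 0 ∧ r = 0 => hp h.1), zero_mul]

end

section
variable (A : Type) [CStarAlgebra A] (k : ℕ)

/-- the map `V(M_{k+1}(A)) → V(A)` -/
def kapV : V (Mat (k + 1) A) →+ V A where
  toFun x := Quotient.liftOn x (fun P => vI (fl P.mat) (isPrj_fl P.isPrj)) (by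
    intro P Q h
    show vI (fl P.mat) (isPrj_fl P.isPrj) = vI (fl Q.mat) (isPrj_fl Q.isPrj)
    rw [vI_eq, Eqv_fl]
    exact h)
  map_zero' := by
    show vI (fl (Prj.zero (Mat (k + 1) A)).mat) _ = 0
    have : IsEmpty (Fin (Prj.zero (Mat (k + 1) A)).n × Fin (k + 1)) :=
      ⟨fun x => Fin.elim0 x.1⟩
    exact vI_empty _ _
  map_add' x y := by
    induction x using V.ind with | _ P
    induction y using V.ind with | _ Q
    show vI (fl (P.add Q).mat) _ = vI (fl P.mat) _ + vI (fl Q.mat) _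
    rw [← vI_blocks, vI_eq]
    refine Eqv.of_submatrix (isPrj_fl (P.add Q).isPrj) ((Equiv.sumProdDistrib _ _ _).symm.trans
      ((finSumFinEquiv (m := P.n) (n := Q.n)).prodCongr (Equiv.refl (Fin (k + 1))))) ?_
    have key : ∀ a b p q, fl (P.add Q).mat (finSumFinEquiv a, p) (finSumFinEquiv b, q) =
        (Mat.of.symm (fromBlocks P.mat 0 0 Q.mat a b)) p q := by
      intro a b p q
      show (Mat.of.symm (fromBlocks P.mat 0 0 Q.mat (finSumFinEquiv.symm (finSumFinEquiv a))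
        (finSumFinEquiv.symm (finSumFinEquiv b)))) p q = _
      rw [Equiv.symm_apply_apply, Equiv.symm_apply_apply]
    ext i j
    rcases i with ⟨i, p⟩ | ⟨i, p⟩ <;> rcases j with ⟨j, q⟩ | ⟨j, q⟩
    · exact (key (Sum.inl i) (Sum.inl j) p q).symm
    · exact (key (Sum.inl i) (Sum.inr j) p q).symm
    · exact (key (Sum.inr i) (Sum.inl j) p q).symm
    · exact (key (Sum.inr i) (Sum.inr j) p q).symm

lemma kapV_mk (P : Prj (Mat (k + 1) A)) : kapV A k (V.mk P) = vI (fl P.mat) (isPrj_fl P.isPrj) := rfl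

lemma kapV_bij : Function.Bijective (kapV A k) := by
  constructor
  · intro x y h
    induction x using V.ind with | _ P
    induction y using V.ind with | _ Q
    rw [kapV_mk, kapV_mk, vI_eq, Eqv_fl] at h
    exact V.mk_eq.mpr h
  · intro y
    induction y using V.ind with | _ Q
    refine ⟨V.mk ⟨Q.n, cr Q.mat k, isPrj_cr Q.isPrj k⟩, ?_⟩
    rw [kapV_mk, vI_mk Q, vI_eq]
    exact (cr_eqv Q.isPrj k).symm

/-- the isomorphism `V(M_{k+1}(A)) ≃ V(A)` -/
def kapE : V (Mat (k + 1) A) ≃+ V A := AddEquiv.ofBijective (kapV A k) (kapV_bij A k)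

/-- the homomorphism of `K_0` groups given by a homomorphism of the monoids of classes -/
def liftK {B C : Type} [CStarAlgebra B] [CStarAlgebra C] (f : V B →+ V C) : K0 B →+ K0 C :=
  Algebra.GrothendieckAddGroup.lift ((K0.ofV C).comp f)

lemma lift_ofV {B C : Type} [CStarAlgebra B] [CStarAlgebra C] (f : V B →+ V C) (x : V B) :
    liftK f (K0.ofV B x) = K0.ofV C (f x) := by
  have h := (Algebra.GrothendieckAddGroup.lift
    (M := V B) (G := K0 C)).left_inv ((K0.ofV C).comp f)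
  exact DFunLike.congr_fun h x

lemma lift_lift {B C : Type} [CStarAlgebra B] [CStarAlgebra C] (f : V B →+ V C) (g : V C →+ V B)
    (h : ∀ x, g (f x) = x) (x : K0 B) : liftK g (liftK f x) = x := by
  obtain ⟨P, Q, rfl⟩ := K0.exists_sub x
  rw [map_sub, map_sub]
  unfold K0.cls
  rw [lift_ofV, lift_ofV, lift_ofV, lift_ofV, h, h]

/-- the isomorphism `K_0(M_{k+1}(A)) ≃ K_0(A)` -/
def kapK : K0 (Mat (k + 1) A) ≃+ K0 A where
  toFun := liftK (kapE A k).toAddMonoidHom
  invFun := liftK (kapE A k).symm.toAddMonoidHom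
  left_inv x := lift_lift _ _ (fun y => (kapE A k).symm_apply_apply y) x
  right_inv x := lift_lift _ _ (fun y => (kapE A k).apply_symm_apply y) x
  map_add' x y := map_add _ x y

lemma kapK_ofV (x : V (Mat (k + 1) A)) : kapK A k (K0.ofV _ x) = K0.ofV A (kapE A k x) :=
  lift_ofV (kapE A k).toAddMonoidHom x

end

lemma mem_pos {B : Type} [CStarAlgebra B] {x : K0 B} : x ∈ K0.pos B ↔ ∃ y : V B, x = K0.ofV B y := by
  constructor
  · rintro ⟨P, rfl⟩
    exact ⟨_, rfl⟩
  · rintro ⟨y, rfl⟩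
    obtain ⟨P, rfl⟩ := V.exists_rep y
    exact ⟨P, rfl⟩

lemma kapK_pos (A : Type) [CStarAlgebra A] (k : ℕ) (x : K0 (Mat (k + 1) A)) :
    x ∈ K0.pos (Mat (k + 1) A) ↔ kapK A k x ∈ K0.pos A := by
  rw [mem_pos, mem_pos]
  constructor
  · rintro ⟨y, rfl⟩
    exact ⟨_, kapK_ofV A k y⟩
  · rintro ⟨y, hy⟩
    refine ⟨(kapE A k).symm y, ?_⟩
    apply (kapK A k).injective
    rw [hy, kapK_ofV, AddEquiv.apply_symm_apply]

theorem kap : S_KAP := by
  intro A _ k
  refine ⟨kapK A k, kapK_pos A k, ?_⟩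
  intro P Q h hQ
  unfold K0.cls
  rw [kapK_ofV]
  congr 1
  show kapV A k (V.mk P) = V.mk Q
  rw [kapV_mk, vI_mk Q, vI_eq]
  refine Eqv.of_submatrix (isPrj_fl P.isPrj) ((finCongr h).trans finProdFinEquiv.symm) ?_
  rw [hQ]
  rfl

end Run7.h745
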