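import Pool.Agent.Run7.h745.K0lem

/-!
# Matrices over `M_k(A)` as matrices over `A`; traces; pieces PR1, PR2
-/

set_option autoImplicit false
set_option linter.unusedSectionVars false

noncomputable section

namespace Run7.h745

open Filter Topology Matrix Pool.Agent.TH249
open scoped ComplexOrder

section fl
variable {A : Type} [CStarAlgebra A] {k : ℕ} {I J L : Type}

/-- an `I × J` matrix over `M_k(A)` as a matrix over `A` -/
def fl (M : Matrix I J (Mat k A)) : Matrix (I × Fin k) (J × Fin k) A :=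
  Matrix.of fun i j => (Mat.of.symm (M i.1 j.1)) i.2 j.2

/-- the inverse of `fl` -/
def unfl (W : Matrix (I × Fin k) (J × Fin k) A) : Matrix I J (Mat k A) :=
  Matrix.of fun i j => Mat.of (Matrix.of fun p q => W (i, p) (j, q))

lemma fl_unfl (W : Matrix (I × Fin k) (J × Fin k) A) : fl (unfl W) = W := rfl

lemma unfl_fl (M : Matrix I J (Mat k A)) : unfl (fl M) = M := rfl

lemma fl_inj {M N : Matrix I J (Mat k A)} (h : fl M = fl N) : M = N := by
  rw [← unfl_fl M, h, unfl_fl]

lemma fl_add (M N : Matrix I J (Mat k A)) : fl (M + N) = fl M + fl N := rfl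

lemma fl_sub (M N : Matrix I J (Mat k A)) : fl (M - N) = fl M - fl N := rfl

lemma fl_star (M : Matrix I J (Mat k A)) : fl Mᴴ = (fl M)ᴴ := rfl

lemma fl_one [DecidableEq I] : fl (1 : Matrix I I (Mat k A)) = 1 := by
  ext ⟨i, p⟩ ⟨j, q⟩
  show (Mat.of.symm ((1 : Matrix I I (Mat k A)) i j)) p q = _
  by_cases h : i = j
  · subst h
    rw [Matrix.one_apply_eq, map_one]
    by_cases h2 : p = q
    · subst h2; simp
    · rw [Matrix.one_apply_ne h2, Matrix.one_apply_ne]
      intro h3; exact h2 (Prod.ext_iff.mp h3).2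
  · rw [Matrix.one_apply_ne h, map_zero, Matrix.zero_apply, Matrix.one_apply_ne]
    intro h3; exact h (Prod.ext_iff.mp h3).1

lemma Mat_symm_sum {α : Type} (s : Finset α) (f : α → Mat k A) (p q : Fin k) :
    (Mat.of.symm (∑ a ∈ s, f a)) p q = ∑ a ∈ s, (Mat.of.symm (f a)) p q := by
  rw [map_sum, Matrix.sum_apply]

lemma fl_mul [Fintype J] (M : Matrix I J (Mat k A)) (N : Matrix J L (Mat k A)) :
    fl (M * N) = fl M * fl N := by
  ext ⟨i, p⟩ ⟨j, q⟩
  show (Mat.of.symm ((M * N) i j)) p q = _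
  rw [Matrix.mul_apply, Mat_symm_sum, Matrix.mul_apply, Fintype.sum_prod_type]
  refine Finset.sum_congr rfl fun l _ => ?_
  rw [map_mul, Matrix.mul_apply]
  rfl

/-- the trace `M ↦ (1/k) ∑ τ(M_pp)` on `M_k(A)` -/
def _root_.Run7.h745.TracialState.up (τ : TracialState A) (k : ℕ) :
    TracialState (Mat (k + 1) A) where
  val :=
    { toFun := fun M => ((k : ℂ) + 1)⁻¹ * τ.mat (Mat.of.symm M)
      map_add' := fun M N => by
        simp only [TracialState.mat, map_add, Matrix.add_apply, Finset.sum_add_distrib]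
        ring
      map_smul' := fun c M => by
        simp only [TracialState.mat, map_smul, Matrix.smul_apply, smul_eq_mul, RingHom.id_apply,
          ← Finset.mul_sum]
        ring }
  map_one := by
    show ((k : ℂ) + 1)⁻¹ * τ.mat (Mat.of.symm 1) = 1
    simp only [TracialState.mat, map_one, Matrix.one_apply_eq, τ.map_one, Finset.sum_const,
      Finset.card_univ, Fintype.card_fin, nsmul_eq_mul, mul_one]
    push_cast
    exact inv_mul_cancel₀ (by exact_mod_cast Nat.succ_ne_zero k)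
  nonneg := fun M => by
    have h0 : τ.mat (Mat.of.symm (star M * M)) =
        ∑ p, ∑ q, τ.val (star (Mat.of.symm M q p) * Mat.of.symm M q p) := by
      simp only [TracialState.mat, map_mul, map_star]
      refine Finset.sum_congr rfl fun p _ => ?_
      rw [Matrix.mul_apply, map_sum]
      rfl
    have h1 : ((k : ℂ) + 1)⁻¹ = (((k : ℝ) + 1)⁻¹ : ℝ) := by push_cast; rfl
    show 0 ≤ (((k : ℂ) + 1)⁻¹ * τ.mat (Mat.of.symm (star M * M))).re ∧
      (((k : ℂ) + 1)⁻¹ * τ.mat (Mat.of.symm (star M * M))).im = 0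
    rw [h1, Complex.re_ofReal_mul, Complex.im_ofReal_mul, h0, Complex.re_sum, Complex.im_sum]
    constructor
    · refine mul_nonneg (by positivity) (Finset.sum_nonneg fun p _ => ?_)
      rw [Complex.re_sum]
      exact Finset.sum_nonneg fun q _ => (τ.nonneg _).1
    · rw [Finset.sum_eq_zero, mul_zero]
      intro p _
      rw [Complex.im_sum]
      exact Finset.sum_eq_zero fun q _ => (τ.nonneg _).2
  comm := fun M N => by
    show ((k : ℂ) + 1)⁻¹ * τ.mat (Mat.of.symm (M * N)) =
      ((k : ℂ) + 1)⁻¹ * τ.mat (Mat.of.symm (N * M))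
    rw [map_mul, map_mul, τ.mat_mul_comm]

lemma TracialState.up_val (τ : TracialState A) (k : ℕ) (M : Mat (k + 1) A) :
    (τ.up k).val M = ((k : ℂ) + 1)⁻¹ * τ.mat (Mat.of.symm M) := rfl

lemma TracialState.up_mat [Fintype I] (τ : TracialState A) (k : ℕ)
    (M : Matrix I I (Mat (k + 1) A)) :
    (τ.up k).mat M = ((k : ℂ) + 1)⁻¹ * τ.mat (fl M) := by
  simp only [TracialState.mat, TracialState.up_val, ← Finset.mul_sum, Fintype.sum_prod_type]
  rfl

lemma TracialState.mat_submatrix [Fintype I] [Fintype J] (τ : TracialState A)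
    (M : Matrix I I A) (e : J ≃ I) : τ.mat (M.submatrix e e) = τ.mat M := by
  simp only [TracialState.mat, Matrix.submatrix_apply]
  exact Equiv.sum_comp e fun i => τ.val (M i i)

end fl

theorem pr1 : S_PR1 := by
  intro A _ r ⟨τ₀, h⟩
  refine ⟨τ₀.up 1, ?_⟩
  intro t k c hc1 hc2 hc3 ε hε
  let ek : Fin (k * 2) ≃ Fin k × Fin 2 := finProdFinEquiv.symm
  let et : Fin (t * 2) ≃ Fin t × Fin 2 := finProdFinEquiv.symm
  obtain ⟨y, hy⟩ := hc1
  obtain ⟨y', hy'⟩ := hc2
  have g1 : ∃ y : Matrix (Fin (k * 2)) (Fin (k * 2)) A, (fl c).submatrix ek ek = yᴴ * y := by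
    refine ⟨(fl y).submatrix ek ek, ?_⟩
    rw [hy, fl_mul, fl_star, conjTranspose_submatrix, submatrix_mul_equiv]
  have g2 : ∃ y : Matrix (Fin (k * 2)) (Fin (k * 2)) A, 1 - (fl c).submatrix ek ek = yᴴ * y := by
    refine ⟨(fl y').submatrix ek ek, ?_⟩
    have h1 : (1 : Matrix (Fin (k * 2)) (Fin (k * 2)) A) = (1 : Matrix _ _ A).submatrix ek ek := by
      rw [submatrix_one_equiv]
    rw [h1, conjTranspose_submatrix, submatrix_mul_equiv, ← fl_star, ← fl_mul, ← hy', fl_sub, fl_one]
    rfl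
  have g3 : ∀ τ : TracialState A, ((t * 2 : ℕ) : ℝ) + 2 * r ≤ (τ.mat ((fl c).submatrix ek ek)).re := by
    intro τ
    have h1 := hc3 (τ.up 1)
    rw [TracialState.up_mat] at h1
    have h2 : (((1 : ℕ) : ℂ) + 1)⁻¹ = (((2 : ℝ))⁻¹ : ℝ) := by push_cast; norm_num
    rw [h2, Complex.re_ofReal_mul] at h1
    rw [TracialState.mat_submatrix]
    push_cast
    linarith
  obtain ⟨l, e, v, he1, he2, he3⟩ := h (t * 2) (k * 2) ((fl c).submatrix ek ek) g1 g2 g3 ε hε
  · -- construct
    let e' : Matrix (Fin l) (Fin l) (Mat 2 A) := unfl (Matrix.of fun i j =>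
      if i.2 = 0 ∧ j.2 = 0 then e i.1 j.1 else 0)
    let w : Matrix ((Fin k ⊕ Fin l) × Fin 2) (Fin t × Fin 2) A := Matrix.of fun i j =>
      Sum.elim (fun a => v (Sum.inl (ek.symm (a, i.2))) (et.symm j))
        (fun a => if i.2 = 0 then v (Sum.inr a) (et.symm j) else 0) i.1
    refine ⟨l, e', unfl w, ⟨?_, ?_⟩, ?_, ?_⟩
    · apply fl_inj
      rw [fl_star, fl_unfl]
      ext ⟨i, p⟩ ⟨j, q⟩
      have h1 := congrFun (congrFun he1.1 i) j
      rw [conjTranspose_apply] at h1
      simp only [conjTranspose_apply, of_apply]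
      by_cases hpq : p = 0 ∧ q = 0
      · rw [if_pos hpq, if_pos ⟨hpq.2, hpq.1⟩, h1]
      · rw [if_neg hpq, if_neg (fun h => hpq ⟨h.2, h.1⟩), star_zero]
    · apply fl_inj
      rw [fl_mul, fl_unfl]
      ext ⟨i, p⟩ ⟨j, q⟩
      have h1 := congrFun (congrFun he1.2 i) j
      rw [mul_apply] at h1
      simp only [mul_apply, of_apply, Fintype.sum_prod_type, Fin.sum_univ_two]
      by_cases hp : p = 0 <;> by_cases hq : q = 0 <;> simp [hp, hq, h1]
    · rw [TracialState.up_mat, fl_unfl]
      have h1 : τ₀.mat (Matrix.of fun i j : Fin l × Fin 2 =>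
          if i.2 = 0 ∧ j.2 = 0 then e i.1 j.1 else 0) = τ₀.mat e := by
        simp only [TracialState.mat, of_apply, Fintype.sum_prod_type, Fin.sum_univ_two]
        simp
      have h0 : 0 ≤ (τ₀.mat e).re := by
        have h2 : τ₀.mat e = ∑ i, ∑ j, τ₀.val (star (e j i) * e j i) := by
          conv_lhs => rw [← he1.2]
          simp only [TracialState.mat, mul_apply, map_sum]
          refine Finset.sum_congr rfl fun i _ => Finset.sum_congr rfl fun j _ => ?_
          have h3 := congrFun (congrFun he1.1 i) j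
          rw [conjTranspose_apply] at h3
          rw [h3]
        rw [h2, Complex.re_sum]
        refine Finset.sum_nonneg fun i _ => ?_
        rw [Complex.re_sum]
        exact Finset.sum_nonneg fun j _ => (τ₀.nonneg _).1
      have h2 : (((1 : ℕ) : ℂ) + 1)⁻¹ = (((2 : ℝ))⁻¹ : ℝ) := by push_cast; norm_num
      rw [h1, h2, Complex.re_ofReal_mul]
      linarith
    · apply fl_inj
      rw [fl_mul, fl_mul, fl_star, fl_unfl, fl_one]
      have he3' : ∀ x y : Fin t × Fin 2, (vᴴ * Matrix.fromBlocks ((fl c).submatrix ek ek) 0 0 e * v)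
          (et.symm x) (et.symm y) = (1 : Matrix (Fin t × Fin 2) (Fin t × Fin 2) A) x y := by
        intro x y
        rw [he3]
        by_cases hxy : x = y
        · subst hxy; simp
        · rw [Matrix.one_apply_ne hxy, Matrix.one_apply_ne]
          intro h; exact hxy (et.symm.injective h)
      ext x y
      rw [← he3' x y]
      simp only [mul_apply, conjTranspose_apply, Fintype.sum_prod_type, Fintype.sum_sum_type,
        Fin.sum_univ_two, fromBlocks_apply₁₁, fromBlocks_apply₁₂, fromBlocks_apply₂₁,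
        fromBlocks_apply₂₂, Matrix.zero_apply, mul_zero, Finset.sum_const_zero, add_zero,
        zero_add]
      have s1 : ∀ f : Fin (k * 2) → A, ∑ i, f i = ∑ a, (f (ek.symm (a, 0)) + f (ek.symm (a, 1))) := by
        intro f
        rw [← Equiv.sum_comp ek.symm f, Fintype.sum_prod_type]
        simp only [Fin.sum_univ_two]
      simp only [s1]
      simp only [submatrix_apply, Equiv.apply_symm_apply]
      simp only [w, e', fl, unfl, of_apply, Sum.elim_inl, Sum.elim_inr, fromBlocks_apply₁₁,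
        fromBlocks_apply₁₂, fromBlocks_apply₂₁, fromBlocks_apply₂₂, Matrix.zero_apply, map_zero,
        mul_zero, StarAlgEquiv.symm_apply_apply]
      simp

/-- transport of a tracial state along an isomorphism -/
def TracialState.comap {A B : Type} [CStarAlgebra A] [CStarAlgebra B] (f : A →⋆ₐ[ℂ] B)
    (τ : TracialState B) : TracialState A where
  val := τ.val ∘ₗ f.toAlgHom.toLinearMap
  map_one := by
    show τ.val (f 1) = 1
    rw [_root_.map_one, τ.map_one]
  nonneg := fun x => by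
    show 0 ≤ (τ.val (f (star x * x))).re ∧ (τ.val (f (star x * x))).im = 0
    rw [map_mul, map_star]
    exact τ.nonneg _
  comm := fun x y => by
    show τ.val (f (x * y)) = τ.val (f (y * x))
    rw [map_mul f, map_mul f, τ.comm]

lemma TracialState.comap_val {A B : Type} [CStarAlgebra A] [CStarAlgebra B] (f : A →⋆ₐ[ℂ] B)
    (τ : TracialState B) (a : A) : (τ.comap f).val a = τ.val (f a) := rfl

lemma TracialState.comap_mat {A B I : Type} [Fintype I] [CStarAlgebra A] [CStarAlgebra B]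
    (f : A →⋆ₐ[ℂ] B) (τ : TracialState B) (M : Matrix I I A) :
    (τ.comap f).mat M = τ.mat (M.map f) := rfl

lemma map_conjT {A B I J : Type} [CStarAlgebra A] [CStarAlgebra B] (f : A →⋆ₐ[ℂ] B)
    (M : Matrix I J A) : Mᴴ.map f = (M.map f)ᴴ := by
  ext i j
  simp [conjTranspose_apply, map_star]

lemma map_mulM {A B I J L : Type} [Fintype J] [CStarAlgebra A] [CStarAlgebra B] (f : A →⋆ₐ[ℂ] B)
    (M : Matrix I J A) (N : Matrix J L A) : (M * N).map f = M.map f * N.map f := by
  ext i j
  simp [mul_apply, map_sum, map_mul]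

lemma map_oneM {A B I : Type} [DecidableEq I] [CStarAlgebra A] [CStarAlgebra B] (f : A →⋆ₐ[ℂ] B) :
    (1 : Matrix I I A).map f = 1 := by
  ext i j
  by_cases h : i = j
  · subst h; simp
  · simp [Matrix.one_apply_ne h]

lemma map_subM {A B I J : Type} [CStarAlgebra A] [CStarAlgebra B] (f : A →⋆ₐ[ℂ] B)
    (M N : Matrix I J A) : (M - N).map f = M.map f - N.map f := by
  ext i j
  simp

theorem pr2 : S_PR2 := by
  intro A B _ _ ⟨e⟩ r ⟨τ₀, h⟩
  let f : A →⋆ₐ[ℂ] B := (e : A →⋆ₐ[ℂ] B)
  let g : B →⋆ₐ[ℂ] A := (e.symm : B →⋆ₐ[ℂ] A)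
  have fg : ∀ b, f (g b) = b := fun b => e.apply_symm_apply b
  have gf : ∀ a, g (f a) = a := fun a => e.symm_apply_apply a
  have fgM : ∀ {I J : Type} (M : Matrix I J B), (M.map g).map f = M := by
    intro I J M; ext i j; exact fg _
  refine ⟨τ₀.comap g, ?_⟩
  intro t k c ⟨y, hy⟩ ⟨y', hy'⟩ hc3 ε hε
  obtain ⟨l, e', v, he1, he2, he3⟩ := h t k (c.map g) ⟨y.map g, by
    rw [hy, map_mulM, map_conjT]⟩ ⟨y'.map g, by
    rw [← map_conjT, ← map_mulM, ← hy', map_subM, map_oneM]⟩ (by
    intro τ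
    exact hc3 (τ.comap g)) ε hε
  refine ⟨l, e'.map f, v.map f, ⟨?_, ?_⟩, ?_, ?_⟩
  · rw [← map_conjT, he1.1]
  · rw [← map_mulM, he1.2]
  · rw [TracialState.comap_mat]
    have h1 : (e'.map f).map g = e' := by ext i j; exact gf _
    rw [h1]; exact he2
  · have h1 : fromBlocks c 0 0 (e'.map f) = (fromBlocks (c.map g) 0 0 e').map f := by
      rw [fromBlocks_map, fgM]
      congr 1 <;> ext <;> simp
    rw [h1, ← map_conjT, ← map_mulM, ← map_mulM, he3, map_oneM]

end Run7.h745
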