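import Pool.Agent.Run7.h745.OBa

/-!
# Piece OB, part 2: the obstruction
-/

set_option autoImplicit false
set_option linter.unusedSectionVars false

noncomputable section

namespace Run7.h745

namespace OB

open Filter Topology Matrix
open scoped InnerProductSpace

/-! ### Matrices over `A` acting on families of vectors -/

section act
variable {A : Type} [CStarAlgebra A] (π : A →⋆ₐ[ℂ] (HH →L[ℂ] HH)) {α β γ : Type}
  [Fintype α] [Fintype β] [Fintype γ]

/-- a matrix over `A` acts on families of vectors -/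
def act (M : Matrix α β A) (η : β → HH) : α → HH := fun a => ∑ b, π (M a b) (η b)

lemma act_mul (M : Matrix α β A) (N : Matrix β γ A) (η : γ → HH) :
    act π (M * N) η = act π M (act π N η) := by
  funext a
  simp only [act, Matrix.mul_apply, map_sum, map_mul, _root_.sum_apply]
  rw [Finset.sum_comm]
  rfl

lemma act_one [DecidableEq α] (η : α → HH) : act π (1 : Matrix α α A) η = η := by
  funext a
  simp only [act]
  rw [Finset.sum_eq_single a]
  · rw [Matrix.one_apply_eq, map_one]; rfl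
  · intro b _ hb
    rw [Matrix.one_apply_ne (Ne.symm hb), map_zero]; rfl
  · intro h; exact absurd (Finset.mem_univ a) h

lemma act_sub (M N : Matrix α β A) (η : β → HH) : act π (M - N) η = act π M η - act π N η := by
  funext a
  simp only [act, Matrix.sub_apply, map_sub, Pi.sub_apply]
  rw [← Finset.sum_sub_distrib]
  rfl

lemma act_zero (M : Matrix α β A) : act π M 0 = 0 := by
  funext a
  simp [act]

/-- a small perturbation of the identity has no kernel -/
lemma eq_zero_of_act {t : ℕ} (M : Matrix (Fin t) (Fin t) A) (hM : ∀ i j, ‖M i j‖ ≤ 1 / ((t : ℝ) + 1))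
    (η : Fin t → HH) (h : act π M η = η) : η = 0 := by
  have h1 : ∀ i, ‖η i‖ ≤ ∑ j, 1 / ((t : ℝ) + 1) * ‖η j‖ := by
    intro i
    calc ‖η i‖ = ‖act π M η i‖ := by rw [h]
      _ ≤ ∑ j, ‖π (M i j) (η j)‖ := norm_sum_le _ _
      _ ≤ ∑ j, 1 / ((t : ℝ) + 1) * ‖η j‖ := by
          refine Finset.sum_le_sum fun j _ => ?_
          refine ((π (M i j)).le_opNorm _).trans ?_
          exact mul_le_mul_of_nonneg_right
            ((NonUnitalStarAlgHom.norm_apply_le π _).trans (hM i j)) (norm_nonneg _)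
  have h2 : ∑ i, ‖η i‖ ≤ (t : ℝ) / (t + 1) * ∑ j, ‖η j‖ := by
    calc ∑ i, ‖η i‖ ≤ ∑ i : Fin t, ∑ j, 1 / ((t : ℝ) + 1) * ‖η j‖ :=
          Finset.sum_le_sum fun i _ => h1 i
      _ = (t : ℝ) / (t + 1) * ∑ j, ‖η j‖ := by
          rw [Finset.sum_const, Finset.card_univ, Fintype.card_fin, ← Finset.mul_sum, nsmul_eq_mul]
          ring
  have h3 : (t : ℝ) / (t + 1) < 1 := by
    rw [div_lt_one (by positivity)]; linarith
  have h4 : 0 ≤ ∑ j, ‖η j‖ := Finset.sum_nonneg fun _ _ => norm_nonneg _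
  have h5 : ∑ j, ‖η j‖ = 0 := by nlinarith
  funext j
  have h6 := (Finset.sum_eq_zero_iff_of_nonneg fun _ _ => norm_nonneg _).mp h5 j (Finset.mem_univ j)
  exact norm_eq_zero.mp h6

end act

/-! ### The matrix `bF` at letters -/

section bF
variable {X : Type} [TopologicalSpace X] {T : X ≃ₜ X} (D : TowerData X T)

lemma zM_apply (m : ℕ) (a b : Fin (2 * (m + 1) + 1)) (y : X) :
    D.zM m a b y = (((D.z y m).1 a b : ℝ) : ℂ) := rfl

/-- `bF` vanishes on vectors orthogonal to the unit vector of the letter -/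
lemma bF_kill (n₀ m : ℕ) (y : X) (ζ : ℕ → ℝ) (hζ : S2 m ζ ≠ 0) (hz : D.z y = letter m ζ)
    (Y : Nb m → ℂ) (hY : ∀ p, ∑ a : Fin (2 * (m + 1) + 1), (ζ a : ℂ) * Y (Sum.inl (a, p)) = 0)
    (r : Nb m) : ∑ r', D.bF n₀ m r r' y * Y r' = 0 := by
  have hzM : ∀ a b : Fin (2 * (m + 1) + 1), D.zM m a b y = (ζ a : ℂ) * ζ b / S2 m ζ := by
    intro a b
    rw [zM_apply, hz]
    simp only [letter, if_true]
    push_cast; rfl
  have hS : (S2 m ζ : ℂ) = ∑ c : Fin (2 * (m + 1) + 1), (ζ c : ℂ) ^ 2 := by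
    rw [S2, Finset.sum_range]; push_cast; rfl
  have hS0 : (S2 m ζ : ℂ) ≠ 0 := by exact_mod_cast hζ
  have htr : (D.zM m).trace y = 1 := by
    rw [Matrix.trace, ContinuousMap.sum_apply]
    simp only [Matrix.diag_apply, hzM]
    rw [← Finset.sum_div]
    rw [div_eq_one_iff_eq hS0, hS]
    exact Finset.sum_congr rfl fun a _ => by ring
  have hsq : ∀ a b, (D.zM m * D.zM m) a b y = (ζ a : ℂ) * ζ b / S2 m ζ := by
    intro a b
    rw [Matrix.mul_apply, ContinuousMap.sum_apply]
    simp only [ContinuousMap.mul_apply, hzM]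
    have h1 : ∀ c : Fin (2 * (m + 1) + 1), (ζ a : ℂ) * ζ c / S2 m ζ * (ζ c * ζ b / S2 m ζ) =
        (ζ a : ℂ) * ζ b / S2 m ζ / S2 m ζ * (ζ c : ℂ) ^ 2 := by
      intro c; ring
    simp only [h1]
    rw [← Finset.mul_sum, ← hS]
    field_simp
  rw [Fintype.sum_sum_type]
  rcases r with ⟨a, p⟩ | p
  · have h2 : ∀ p' : Fin (m + 1), D.bF n₀ m (Sum.inl (a, p)) (Sum.inr p') y = 0 := by
      intro p'
      simp [TowerData.bF]
    simp only [h2, zero_mul, Finset.sum_const_zero, add_zero]
    rw [Fintype.sum_prod_type]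
    have h3 : ∀ a' p', D.bF n₀ m (Sum.inl (a, p)) (Sum.inl (a', p')) y * Y (Sum.inl (a', p')) =
        if p = p' then ind (D.FS n₀) y * ((ζ a : ℂ) / S2 m ζ) * ((ζ a' : ℂ) * Y (Sum.inl (a', p)))
          else 0 := by
      intro a' p'
      simp only [TowerData.bF, Matrix.smul_apply, Matrix.fromBlocks_apply₁₁,
        Matrix.blockDiagonal_apply, smul_eq_mul, ContinuousMap.mul_apply]
      by_cases hp : p = p'
      · subst hp
        simp only [if_true, hsq]
        ring
      · simp only [hp, if_false]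
        simp
    simp only [h3]
    rw [Finset.sum_comm, Finset.sum_eq_single p]
    · simp only [if_true]
      rw [← Finset.mul_sum, hY p, mul_zero]
    · intro p' _ hp
      simp [Ne.symm hp]
    · intro h; exact absurd (Finset.mem_univ p) h
  · have h2 : ∀ ap, D.bF n₀ m (Sum.inr p) (Sum.inl ap) y = 0 := by
      intro ap
      simp [TowerData.bF]
    have h3 : ∀ p', D.bF n₀ m (Sum.inr p) (Sum.inr p') y = 0 := by
      intro p'
      simp only [TowerData.bF, Matrix.smul_apply, Matrix.fromBlocks_apply₂₂, Matrix.diagonal_apply,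
        smul_eq_mul, ContinuousMap.mul_apply]
      by_cases hp : p = p'
      · simp [hp, htr]
      · simp [hp]
    simp only [h2, h3, zero_mul, Finset.sum_const_zero, add_zero]

lemma bF_off (n₀ m : ℕ) (y : X) (hy : y ∉ D.FS n₀) (r r' : Nb m) : D.bF n₀ m r r' y = 0 := by
  simp only [TowerData.bF, Matrix.smul_apply, smul_eq_mul, ContinuousMap.mul_apply]
  rw [ind_notMem (D.isClopen_FS n₀) hy, zero_mul]

end bF

lemma sum_range_mul (t N : ℕ) (g : ℕ → ℂ) :
    ∑ a ∈ Finset.range (t * N), g a = ∑ j ∈ Finset.range t, ∑ p ∈ Finset.range N, g (j * N + p) := by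
  induction t with
  | zero => simp
  | succ t ih => rw [add_mul, one_mul, Finset.sum_range_add, ih, Finset.sum_range_succ]

end OB

end Run7.h745
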