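import Pool.Agent.Run7.h745.PC_Defs

namespace Pool.Agent.Run7.h745.PC

open scoped BigOperators

theorem cl_val {t : ℝ} (h0 : 0 ≤ t) (h1 : t ≤ 1) : (cl t).1 = t := by
  unfold cl
  rw [Set.projIcc_of_mem zero_le_one ⟨h0, h1⟩]

theorem fI_val (x : II) : (fI x).1 = x.1 / 2 :=
  cl_val (by linarith [x.2.1]) (by linarith [x.2.2])

theorem gI_val (x : II) : (gI x).1 = (x.1 + 1) / 2 :=
  cl_val (by linarith [x.2.1]) (by linarith [x.2.2])

theorem common_surj (w : WW ⊕ II) : ∃ (j : Fin 4) (y : WW ⊕ II), common j y = Sum.inr w := by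
  rcases w with w | x
  · refine ⟨2, Sum.inl (fun n => Nat.casesOn n ⟨0, by norm_num⟩ w), ?_⟩
    have : ¬ ((2 : Fin 4) = 0 ∨ (2 : Fin 4) = 1) := by decide
    simp only [common, Sum.elim_inl, this, if_false]
    rfl
  · refine ⟨0, Sum.inl (fun _ => x), ?_⟩
    simp only [common, Sum.elim_inl, true_or, if_true]
    rfl

theorem common_inr (j : Fin 4) (y : WW ⊕ II) : ∃ w, common j y = Sum.inr w := by
  rcases y with w | x
  · simp only [common, Sum.elim_inl]
    split_ifs
    · exact ⟨_, rfl⟩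
    · exact ⟨_, rfl⟩
  · simp only [common, Sum.elim_inr]
    split_ifs
    · exact ⟨_, rfl⟩
    · exact ⟨_, rfl⟩

theorem sig_inr (j : Fin 4) (y : XX) : ∃ w, sig j y = Sum.inr w := by
  rcases y with z | y
  · exact ⟨_, rfl⟩
  · exact common_inr j y

theorem tau_inr (j : Fin 4) (y : XX) : ∃ w, tau j y = Sum.inr w := by
  rcases y with z | y
  · exact ⟨_, rfl⟩
  · exact common_inr j y

theorem common_W1 {j : Fin 4} (h : j = 0 ∨ j = 1) (w : WW) :
    common j (Sum.inl w) = Sum.inr (Sum.inr (fW w)) := by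
  simp only [common, Sum.elim_inl, if_pos h]

theorem common_W2 {j : Fin 4} (h : ¬ (j = 0 ∨ j = 1)) (w : WW) :
    common j (Sum.inl w) = Sum.inr (Sum.inl (gW w)) := by
  simp only [common, Sum.elim_inl, if_neg h]

theorem common_I1 {j : Fin 4} (h : j = 3) (x : II) :
    common j (Sum.inr x) = Sum.inr (Sum.inr (gI x)) := by
  simp only [common, Sum.elim_inr, if_pos h]

theorem common_I2 {j : Fin 4} (h : ¬ j = 3) (x : II) :
    common j (Sum.inr x) = Sum.inr (Sum.inr (fI x)) := by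
  simp only [common, Sum.elim_inr, if_neg h]

theorem pig1 : ∀ p : P4, ∃ i i' : Fin 4, i ≠ 3 ∧ i' ≠ 3 ∧ (p i = 0 ∨ p i = 1) ∧
    ¬ (p i' = 0 ∨ p i' = 1) := by decide

theorem pig2 : ∀ p : P4, ∃ i i' : Fin 4, (i = 0 ∨ i = 1) ∧ ¬ (i' = 0 ∨ i' = 1) ∧ p i ≠ 3 ∧
    p i' ≠ 3 := by decide

theorem pig3 : ∀ p : P4, ∃ i : Fin 4, i ≠ 3 ∧ p i ≠ 3 := by decide

theorem pig4 : ∀ p : P4, p 3 ≠ 3 → ∃ i : Fin 4, i ≠ 3 ∧ p i = 3 := by decide

theorem rigid (δ : XX ≃ XX)
    (h : ∀ y, ∃ p : P4, ∀ i, sig (p i) (δ y) = δ (tau i y)) :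
    (∀ w, δ (Sum.inr (Sum.inl w)) = Sum.inr (Sum.inl w)) ∧ ∀ z, δ (Sum.inl z) = Sum.inl z := by
  -- the two parts are preserved
  have s1 : ∀ w, ∃ w', δ (Sum.inr w) = Sum.inr w' := by
    intro w
    obtain ⟨j, y, hy⟩ := common_surj w
    obtain ⟨p, hp⟩ := h (Sum.inr y)
    have h1 := hp j
    have h2 : tau j (Sum.inr y) = Sum.inr w := hy
    rw [h2] at h1
    rw [← h1]
    exact sig_inr _ _
  have s2 : ∀ z, ∃ z', δ (Sum.inl z) = Sum.inl z' := by
    intro z
    rcases hz : δ (Sum.inl z) with z' | w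
    · exact ⟨z', rfl⟩
    · exfalso
      obtain ⟨j, y, hy⟩ := common_surj w
      obtain ⟨p, hp⟩ := h (δ.symm (Sum.inr y))
      have h1 := hp (p⁻¹ j)
      have h2 : sig j (Sum.inr y) = Sum.inr w := hy
      have hpj : p (p⁻¹ j) = j := Equiv.apply_symm_apply p j
      rw [Equiv.apply_symm_apply, hpj, h2, ← hz] at h1
      have h3 := δ.injective h1
      obtain ⟨w', hw'⟩ := tau_inr (p⁻¹ j) (δ.symm (Sum.inr y))
      rw [hw'] at h3
      exact absurd h3 (by simp)
  have s3 : ∀ x : II, ∃ x' : II, δ (Sum.inr (Sum.inr x)) = Sum.inr (Sum.inr x') := by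
    intro x
    obtain ⟨w', hw'⟩ := s1 (Sum.inr x)
    rcases w' with w | x'
    · exfalso
      obtain ⟨p, hp⟩ := h (Sum.inr (Sum.inr x))
      obtain ⟨i, i', hi, hi', hpi, hpi'⟩ := pig1 p
      have h1 := hp i
      have h2 := hp i'
      rw [hw'] at h1 h2
      have e1 : sig (p i) (Sum.inr (Sum.inl w)) = Sum.inr (Sum.inr (fW w)) := common_W1 hpi w
      have e2 : sig (p i') (Sum.inr (Sum.inl w)) = Sum.inr (Sum.inl (gW w)) := common_W2 hpi' w
      have e3 : tau i (Sum.inr (Sum.inr x)) = Sum.inr (Sum.inr (fI x)) := common_I2 hi x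
      have e4 : tau i' (Sum.inr (Sum.inr x)) = Sum.inr (Sum.inr (fI x)) := common_I2 hi' x
      rw [e1, e3] at h1
      rw [e2, e4, ← h1] at h2
      exact absurd h2 (by simp)
    · exact ⟨x', hw'⟩
  have s4 : ∀ w : WW, ∃ w' : WW, δ (Sum.inr (Sum.inl w)) = Sum.inr (Sum.inl w') := by
    intro w
    obtain ⟨w', hw'⟩ := s1 (Sum.inl w)
    rcases w' with w' | x
    · exact ⟨w', hw'⟩
    · exfalso
      obtain ⟨p, hp⟩ := h (Sum.inr (Sum.inl w))
      obtain ⟨i, i', hi, hi', hpi, hpi'⟩ := pig2 p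
      have h1 := hp i
      have h2 := hp i'
      rw [hw'] at h1 h2
      have e1 : sig (p i) (Sum.inr (Sum.inr x)) = Sum.inr (Sum.inr (fI x)) := common_I2 hpi x
      have e2 : sig (p i') (Sum.inr (Sum.inr x)) = Sum.inr (Sum.inr (fI x)) := common_I2 hpi' x
      have e3 : tau i (Sum.inr (Sum.inl w)) = Sum.inr (Sum.inr (fW w)) := common_W1 hi w
      have e4 : tau i' (Sum.inr (Sum.inl w)) = Sum.inr (Sum.inl (gW w)) := common_W2 hi' w
      rw [e1, e3] at h1
      rw [e2, e4, h1] at h2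
      exact absurd (δ.injective h2) (by simp)
  choose dI hdI using s3
  choose dW hdW using s4
  choose dZ hdZ using s2
  -- the interval
  have f1 : ∀ x, dI (fI x) = fI (dI x) := by
    intro x
    obtain ⟨p, hp⟩ := h (Sum.inr (Sum.inr x))
    obtain ⟨i, hi, hpi⟩ := pig3 p
    have h1 := hp i
    have e3 : tau i (Sum.inr (Sum.inr x)) = Sum.inr (Sum.inr (fI x)) := common_I2 hi x
    have e1 : sig (p i) (Sum.inr (Sum.inr (dI x))) = Sum.inr (Sum.inr (fI (dI x))) :=
      common_I2 hpi _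
    rw [hdI, e3, e1, hdI] at h1
    exact (Sum.inr_injective (Sum.inr_injective h1)).symm
  have g1 : ∀ x, dI (gI x) = gI (dI x) := by
    intro x
    obtain ⟨p, hp⟩ := h (Sum.inr (Sum.inr x))
    by_cases h3 : p 3 = 3
    · have h1 := hp 3
      have e3 : tau 3 (Sum.inr (Sum.inr x)) = Sum.inr (Sum.inr (gI x)) := common_I1 rfl x
      have e1 : sig (p 3) (Sum.inr (Sum.inr (dI x))) = Sum.inr (Sum.inr (gI (dI x))) :=
        common_I1 h3 _
      rw [hdI, e3, e1, hdI] at h1
      exact (Sum.inr_injective (Sum.inr_injective h1)).symm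
    · exfalso
      obtain ⟨i, hi, hpi⟩ := pig4 p h3
      have h1 := hp i
      have e3 : tau i (Sum.inr (Sum.inr x)) = Sum.inr (Sum.inr (fI x)) := common_I2 hi x
      have e1 : sig (p i) (Sum.inr (Sum.inr (dI x))) = Sum.inr (Sum.inr (gI (dI x))) :=
        common_I1 hpi _
      rw [hdI, e3, e1, hdI, f1] at h1
      have h2 := congrArg Subtype.val (Sum.inr_injective (Sum.inr_injective h1))
      rw [gI_val, fI_val] at h2
      linarith
  have b1 : ∀ n : ℕ, ∀ x : II, |(dI x).1 - x.1| ≤ (1 / 2) ^ n := by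
    intro n
    induction n with
    | zero =>
      intro x
      rw [pow_zero, abs_le]
      constructor <;> linarith [(dI x).2.1, (dI x).2.2, x.2.1, x.2.2]
    | succ n ih =>
      intro x
      by_cases hx : x.1 ≤ 1 / 2
      · obtain ⟨y, hy⟩ : ∃ y : II, fI y = x := by
          refine ⟨⟨2 * x.1, ⟨by linarith [x.2.1], by linarith⟩⟩, ?_⟩
          apply Subtype.ext
          rw [fI_val]
          ring
        have h1 := ih y
        rw [← hy, f1, fI_val, fI_val]
        have : (dI y).1 / 2 - y.1 / 2 = (1 / 2) * ((dI y).1 - y.1) := by ring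
        rw [this, abs_mul, pow_succ]
        rw [abs_of_pos (by norm_num : (0 : ℝ) < 1 / 2)]
        nlinarith
      · obtain ⟨y, hy⟩ : ∃ y : II, gI y = x := by
          refine ⟨⟨2 * x.1 - 1, ⟨by linarith, by linarith [x.2.2]⟩⟩, ?_⟩
          apply Subtype.ext
          rw [gI_val]
          ring
        have h1 := ih y
        rw [← hy, g1, gI_val, gI_val]
        have : ((dI y).1 + 1) / 2 - (y.1 + 1) / 2 = (1 / 2) * ((dI y).1 - y.1) := by ring
        rw [this, abs_mul, pow_succ]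
        rw [abs_of_pos (by norm_num : (0 : ℝ) < 1 / 2)]
        nlinarith
  have dI_id : ∀ x, dI x = x := by
    intro x
    apply Subtype.ext
    by_contra hne
    have hpos : 0 < |(dI x).1 - x.1| := abs_pos.mpr (sub_ne_zero.mpr hne)
    obtain ⟨n, hn⟩ := exists_pow_lt_of_lt_one hpos (by norm_num : (1 / 2 : ℝ) < 1)
    exact absurd (b1 n x) (not_le.mpr hn)
  -- the cube
  have f2 : ∀ w, fW (dW w) = fW w ∧ gW (dW w) = dW (gW w) := by
    intro w
    obtain ⟨p, hp⟩ := h (Sum.inr (Sum.inl w))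
    constructor
    · have h1 := hp 0
      have e3 : tau 0 (Sum.inr (Sum.inl w)) = Sum.inr (Sum.inr (fW w)) :=
        common_W1 (Or.inl rfl) w
      rw [e3, hdI, dI_id, hdW] at h1
      by_cases h0 : p 0 = 0 ∨ p 0 = 1
      · have e1 : sig (p 0) (Sum.inr (Sum.inl (dW w))) = Sum.inr (Sum.inr (fW (dW w))) :=
          common_W1 h0 _
        rw [e1] at h1
        exact Sum.inr_injective (Sum.inr_injective h1)
      · have e1 : sig (p 0) (Sum.inr (Sum.inl (dW w))) = Sum.inr (Sum.inl (gW (dW w))) :=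
          common_W2 h0 _
        rw [e1] at h1
        exact absurd h1 (by simp)
    · have h1 := hp 2
      have e3 : tau 2 (Sum.inr (Sum.inl w)) = Sum.inr (Sum.inl (gW w)) :=
        common_W2 (j := 2) (by decide) w
      rw [e3, hdW, hdW] at h1
      by_cases h0 : p 2 = 0 ∨ p 2 = 1
      · have e1 : sig (p 2) (Sum.inr (Sum.inl (dW w))) = Sum.inr (Sum.inr (fW (dW w))) :=
          common_W1 h0 _
        rw [e1] at h1
        exact absurd h1 (by simp)
      · have e1 : sig (p 2) (Sum.inr (Sum.inl (dW w))) = Sum.inr (Sum.inl (gW (dW w))) :=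
          common_W2 h0 _
        rw [e1] at h1
        exact Sum.inl_injective (Sum.inr_injective h1)
  have dW_id : ∀ w, dW w = w := by
    have key : ∀ n : ℕ, ∀ w, dW w n = w n := by
      intro n
      induction n with
      | zero => intro w; exact (f2 w).1
      | succ n ih =>
        intro w
        have h1 : dW w (n + 1) = gW (dW w) n := rfl
        rw [h1, (f2 w).2, ih]
        rfl
    intro w
    funext n
    exact key n w
  refine ⟨fun w => by rw [hdW, dW_id], fun z => ?_⟩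
  rw [hdZ]
  congr 1
  obtain ⟨p, hp⟩ := h (Sum.inl z)
  have h1 := hp 0
  rw [hdZ] at h1
  have e1 : sig (p 0) (Sum.inl (dZ z)) = Sum.inr (Sum.inl (sZ (p 0) (dZ z))) := rfl
  have e2 : tau 0 (Sum.inl z) = Sum.inr (Sum.inl (tZ 0 z)) := rfl
  rw [e1, e2, hdW, dW_id] at h1
  have h2 := Sum.inl_injective (Sum.inr_injective h1)
  apply Subtype.ext
  funext π
  obtain ⟨n, hn⟩ := enum_surjective (Sum.inr π)
  have h3 := congrArg Subtype.val (congrFun h2 n)
  have hb : ∀ z : ZZ, 0 ≤ z.1 π ∧ z.1 π ≤ 1 := fun z =>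
    ⟨z.2.1 π, by
      rw [← z.2.2]
      exact Finset.single_le_sum (fun i _ => z.2.1 i) (Finset.mem_univ π)⟩
  simp only [sZ, tZ, hn, sval, tval] at h3
  rw [cl_val (hb _).1 (hb _).2, cl_val (hb _).1 (hb _).2] at h3
  exact h3

end Pool.Agent.Run7.h745.PC
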