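import Pool.Agent.Run7.h745.PC_Defs

namespace Pool.Agent.Run7.h745.PC

open unitInterval

theorem exists_log {E : Type*} [NormedAddCommGroup E] [NormedSpace ℝ E] {R : Set E}
    (hR : Convex ℝ R) {f : E → ℂ} (hf : ContinuousOn f R) (h1 : ∀ x ∈ R, ‖f x‖ = 1) :
    ∃ g : E → ℝ, ContinuousOn g R ∧ ∀ x ∈ R, f x = Complex.exp (g x * Complex.I) := by
  classical
  rcases R.eq_empty_or_nonempty with hE | ⟨x0, hx0⟩
  · exact ⟨fun _ => 0, continuousOn_const, fun x hx => by rw [hE] at hx; exact absurd hx (by simp)⟩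
  let fc : R → Circle := fun x => ⟨f x.1, mem_sphere_zero_iff_norm.mpr (h1 x.1 x.2)⟩
  have hfc : Continuous fc := by
    refine Continuous.subtype_mk ?_ _
    exact continuousOn_iff_continuous_domRestrict.mp hf
  let q : I × R → R := fun z => ⟨x0 + z.1.1 • (z.2.1 - x0), by
    have := hR hx0 z.2.2 (sub_nonneg.mpr z.1.2.2) z.1.2.1 (by ring)
    convert this using 1
    rw [sub_smul, one_smul, smul_sub]
    abel⟩
  have hq : Continuous q := by
    refine Continuous.subtype_mk ?_ _
    fun_prop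
  let H : C(I × R, AddCircle (2 * Real.pi)) :=
    ⟨fun z => AddCircle.homeomorphCircle'.symm (fc (q z)),
      AddCircle.homeomorphCircle'.symm.continuous.comp (hfc.comp hq)⟩
  obtain ⟨θ, hθ⟩ : ∃ θ : ℝ, (θ : AddCircle (2 * Real.pi)) =
      AddCircle.homeomorphCircle'.symm (fc ⟨x0, hx0⟩) := QuotientAddGroup.mk_surjective _
  have hcov : IsCoveringMap ((↑) : ℝ → AddCircle (2 * Real.pi)) := AddCircle.isCoveringMap_coe _
  have H0 : ∀ a : R, H (0, a) = ((ContinuousMap.const R θ) a : ℝ) := by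
    intro a
    have hq0 : q (0, a) = ⟨x0, hx0⟩ := by
      apply Subtype.ext
      simp [q]
    show AddCircle.homeomorphCircle'.symm (fc (q (0, a))) = ((θ : ℝ) : AddCircle (2 * Real.pi))
    rw [hq0, hθ]
  let L := hcov.liftHomotopy H (ContinuousMap.const R θ) H0
  have hL : ∀ z, ((L z : ℝ) : AddCircle (2 * Real.pi)) = H z := fun z =>
    congrFun (hcov.liftHomotopy_lifts H (ContinuousMap.const R θ) H0) z
  let g : E → ℝ := fun x => if h : x ∈ R then L (1, ⟨x, h⟩) else 0
  have hg : ∀ (x : E) (hx : x ∈ R), g x = L (1, ⟨x, hx⟩) := fun x hx => dif_pos hx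
  refine ⟨g, ?_, ?_⟩
  · rw [continuousOn_iff_continuous_domRestrict]
    have : R.domRestrict g = fun x : R => L (1, x) := by
      funext x
      exact hg x.1 x.2
    rw [this]
    exact L.continuous.comp (by fun_prop)
  · intro x hx
    have h2 := hL (1, ⟨x, hx⟩)
    have hq1 : q (1, ⟨x, hx⟩) = ⟨x, hx⟩ := by
      apply Subtype.ext
      simp [q]
    have h3 : H (1, ⟨x, hx⟩) = AddCircle.homeomorphCircle'.symm (fc ⟨x, hx⟩) := by
      show AddCircle.homeomorphCircle'.symm (fc (q (1, ⟨x, hx⟩))) = _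
      rw [hq1]
    rw [h3, ← hg x hx] at h2
    have h4 := congrArg AddCircle.homeomorphCircle' h2
    rw [Homeomorph.apply_symm_apply, AddCircle.homeomorphCircle'_apply_mk] at h4
    have h5 := congrArg Subtype.val h4
    have h6 : ((Circle.exp (g x) : Circle) : ℂ) = f x := h5
    rw [← h6, Circle.coe_exp]

theorem const_of_int {E : Type*} [NormedAddCommGroup E] [NormedSpace ℝ E] {R : Set E}
    (hR : Convex ℝ R) {g : E → ℝ} (hg : ContinuousOn g R)
    (h : ∀ x ∈ R, ∃ k : ℤ, g x = k * Real.pi) {x y : E} (hx : x ∈ R) (hy : y ∈ R) :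
    g x = g y := by
  have key : ∀ x ∈ R, ∀ y ∈ R, ¬ g x < g y := by
    intro x hx y hy hlt
    obtain ⟨k, hk⟩ := h x hx
    obtain ⟨m, hm⟩ := h y hy
    have hpi := Real.pi_pos
    have hkm : k < m := by
      rw [hk, hm] at hlt
      exact_mod_cast lt_of_mul_lt_mul_right hlt hpi.le
    have hkm' : (k : ℝ) + 1 ≤ m := by exact_mod_cast hkm
    obtain ⟨z, hz, hzz⟩ := hR.isPreconnected.intermediate_value hx hy hg
      (show ((k : ℝ) + 1 / 2) * Real.pi ∈ Set.Icc (g x) (g y) by
        rw [hk, hm]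
        constructor <;> nlinarith)
    obtain ⟨n, hn⟩ := h z hz
    rw [hn] at hzz
    have h1 := mul_right_cancel₀ hpi.ne' hzz
    have h2 : (2 * n : ℤ) = 2 * k + 1 := by
      have : (2 * n : ℝ) = 2 * k + 1 := by linarith
      exact_mod_cast this
    omega
  exact le_antisymm (not_lt.mp (key y hy x hx)) (not_lt.mp (key x hx y hy))

end Pool.Agent.Run7.h745.PC
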