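import Pool.Agent.Run7.h745.PC_C1

namespace Pool.Agent.Run7.h745.PC

open scoped BigOperators

/-- The region where the block `B → A` is separated. -/
def QQ (B A : Finset (Fin 4)) : Set (P4 → ℝ) :=
  {x | x ∈ stdSimplex ℝ P4 ∧ ∀ π : P4, B.map π.toEmbedding ≠ A → x π < 1 / 25}

theorem convex_QQ (B A : Finset (Fin 4)) : Convex ℝ (QQ B A) := by
  intro x hx y hy s t hs ht hst
  refine ⟨convex_stdSimplex ℝ P4 hx.1 hy.1 hs ht hst, fun π hπ => ?_⟩
  have h1 := hx.2 π hπ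
  have h2 := hy.2 π hπ
  simp only [Pi.add_apply, Pi.smul_apply, smul_eq_mul]
  rcases lt_or_eq_of_le hs with h | h
  · nlinarith
  · rw [← h] at hst ⊢
    simp only [zero_add] at hst
    rw [hst]
    linarith

theorem vertex_mem_QQ (σ : P4) {B A : Finset (Fin 4)} (h : B.map σ.toEmbedding = A) :
    (Pi.single σ 1 : P4 → ℝ) ∈ QQ B A := by
  refine ⟨single_mem_stdSimplex ℝ σ, fun π hπ => ?_⟩
  have : π ≠ σ := fun e => hπ (by rw [e]; exact h)
  rw [Pi.single_eq_of_ne this]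
  norm_num

theorem vertex_mem_QQ1 (σ : P4) {a p : Fin 4} (h : σ a = p) :
    (Pi.single σ 1 : P4 → ℝ) ∈ QQ {a} {p} :=
  vertex_mem_QQ σ (by rw [Finset.map_singleton]; simp [h])

theorem QQ_inter_subset (a b p q : Fin 4) : QQ {a} {p} ∩ QQ {b} {q} ⊆ QQ {a, b} {p, q} := by
  rintro x ⟨hx, hy⟩
  refine ⟨hx.1, fun π hπ => ?_⟩
  by_cases h1 : π a = p
  · by_cases h2 : π b = q
    · exfalso
      apply hπ
      rw [Finset.map_insert, Finset.map_singleton]
      simp [h1, h2]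
    · refine hy.2 π ?_
      rw [Finset.map_singleton]
      simpa using h2
  · refine hx.2 π ?_
    rw [Finset.map_singleton]
    simpa using h1

/-- Real phases of a product up to sign are constant. -/
theorem blk {T : Set (P4 → ℝ)} (hT : Convex ℝ T) {m l1 l2 : (P4 → ℝ) → ℝ}
    (hm : ContinuousOn m T) (h1 : ContinuousOn l1 T) (h2 : ContinuousOn l2 T) (ε : ℂ)
    (hε : ε = 1 ∨ ε = -1)
    (h : ∀ x ∈ T, Complex.exp (m x * Complex.I) =
      ε * (Complex.exp (l1 x * Complex.I) * Complex.exp (l2 x * Complex.I)))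
    {x y : P4 → ℝ} (hx : x ∈ T) (hy : y ∈ T) :
    m x - l1 x - l2 x = m y - l1 y - l2 y := by
  refine const_of_int (g := fun x => m x - l1 x - l2 x) hT ((hm.sub h1).sub h2) ?_ hx hy
  intro z hz
  have h3 : Complex.exp (((m z - l1 z - l2 z : ℝ) : ℂ) * Complex.I) = ε := by
    have h4 := h z hz
    rw [← Complex.exp_add] at h4
    have h5 : Complex.exp (((m z - l1 z - l2 z : ℝ) : ℂ) * Complex.I) =
        Complex.exp (m z * Complex.I) *
          Complex.exp (-(l1 z * Complex.I + l2 z * Complex.I)) := by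
      rw [← Complex.exp_add]
      congr 1
      push_cast
      ring
    rw [h5, h4, mul_assoc, ← Complex.exp_add, add_neg_cancel, Complex.exp_zero, mul_one]
  have h6 : Complex.exp (2 * (((m z - l1 z - l2 z : ℝ) : ℂ) * Complex.I)) = 1 := by
    rw [two_mul, Complex.exp_add, h3]
    rcases hε with h | h <;> rw [h] <;> norm_num
  rw [Complex.exp_eq_one_iff] at h6
  obtain ⟨n, hn⟩ := h6
  refine ⟨n, ?_⟩
  have h7 : ((m z - l1 z - l2 z : ℝ) : ℂ) = ((n * Real.pi : ℝ) : ℂ) := by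
    have h8 : (2 * Complex.I) * ((m z - l1 z - l2 z : ℝ) : ℂ) =
        (2 * Complex.I) * ((n * Real.pi : ℝ) : ℂ) := by
      push_cast at hn ⊢
      linear_combination hn
    exact mul_left_cancel₀ (by simp) h8
  exact_mod_cast h7

/-- a unitary `4 × 4` matrix with a block structure -/
theorem block_det (N : Matrix (Fin 4) (Fin 4) ℂ)
    (h : ∀ i j, N i j ≠ 0 → ((i = 0 ∨ i = 1) ↔ (j = 0 ∨ j = 1))) :
    N.det = (N 0 0 * N 1 1 - N 0 1 * N 1 0) * (N 2 2 * N 3 3 - N 2 3 * N 3 2) := by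
  have h02 : N 0 2 = 0 := by by_contra hh; exact absurd (h 0 2 hh) (by decide)
  have h03 : N 0 3 = 0 := by by_contra hh; exact absurd (h 0 3 hh) (by decide)
  have h12 : N 1 2 = 0 := by by_contra hh; exact absurd (h 1 2 hh) (by decide)
  have h13 : N 1 3 = 0 := by by_contra hh; exact absurd (h 1 3 hh) (by decide)
  have h20 : N 2 0 = 0 := by by_contra hh; exact absurd (h 2 0 hh) (by decide)
  have h30 : N 3 0 = 0 := by by_contra hh; exact absurd (h 3 0 hh) (by decide)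
  have h21 : N 2 1 = 0 := by by_contra hh; exact absurd (h 2 1 hh) (by decide)
  have h31 : N 3 1 = 0 := by by_contra hh; exact absurd (h 3 1 hh) (by decide)
  rw [Matrix.det_succ_row_zero]
  simp [Fin.sum_univ_succ, Matrix.det_fin_three, Matrix.submatrix_apply, Fin.succAbove,
    h02, h03, h12, h13, h20, h30, h21, h31]
  ring

theorem block_norm (N : Matrix (Fin 4) (Fin 4) ℂ) (hN : N.conjTranspose * N = 1)
    (h : ∀ i j, N i j ≠ 0 → ((i = 0 ∨ i = 1) ↔ (j = 0 ∨ j = 1))) :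
    ‖N 0 0 * N 1 1 - N 0 1 * N 1 0‖ = 1 ∧ ‖N 2 2 * N 3 3 - N 2 3 * N 3 2‖ = 1 := by
  have h02 : N 0 2 = 0 := by by_contra hh; exact absurd (h 0 2 hh) (by decide)
  have h03 : N 0 3 = 0 := by by_contra hh; exact absurd (h 0 3 hh) (by decide)
  have h12 : N 1 2 = 0 := by by_contra hh; exact absurd (h 1 2 hh) (by decide)
  have h13 : N 1 3 = 0 := by by_contra hh; exact absurd (h 1 3 hh) (by decide)
  have h20 : N 2 0 = 0 := by by_contra hh; exact absurd (h 2 0 hh) (by decide)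
  have h30 : N 3 0 = 0 := by by_contra hh; exact absurd (h 3 0 hh) (by decide)
  have h21 : N 2 1 = 0 := by by_contra hh; exact absurd (h 2 1 hh) (by decide)
  have h31 : N 3 1 = 0 := by by_contra hh; exact absurd (h 3 1 hh) (by decide)
  have key : ∀ i j, (N.conjTranspose * N) i j = (1 : Matrix (Fin 4) (Fin 4) ℂ) i j := by
    intro i j; rw [hN]
  have two : ∀ W : Matrix (Fin 2) (Fin 2) ℂ, W.conjTranspose * W = 1 → ‖W.det‖ = 1 := by
    intro W hW
    have h1 : (W.conjTranspose * W).det = 1 := by rw [hW, Matrix.det_one]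
    rw [Matrix.det_mul, Matrix.det_conjTranspose] at h1
    have h2 : ‖star W.det * W.det‖ = 1 := by rw [h1]; simp
    rw [norm_mul, norm_star] at h2
    nlinarith [norm_nonneg W.det]
  constructor
  · have h1 := two !![N 0 0, N 0 1; N 1 0, N 1 1] (by
      ext i j
      fin_cases i <;> fin_cases j
      · simpa [Matrix.mul_apply, Fin.sum_univ_succ, h20, h30] using key 0 0
      · simpa [Matrix.mul_apply, Fin.sum_univ_succ, h20, h30, h21, h31] using key 0 1
      · simpa [Matrix.mul_apply, Fin.sum_univ_succ, h20, h30, h21, h31] using key 1 0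
      · simpa [Matrix.mul_apply, Fin.sum_univ_succ, h21, h31] using key 1 1)
    rw [Matrix.det_fin_two_of] at h1
    exact h1
  · have h1 := two !![N 2 2, N 2 3; N 3 2, N 3 3] (by
      ext i j
      fin_cases i <;> fin_cases j
      · simpa [Matrix.mul_apply, Fin.sum_univ_succ, h02, h12] using key 2 2
      · simpa [Matrix.mul_apply, Fin.sum_univ_succ, h02, h12, h03, h13] using key 2 3
      · simpa [Matrix.mul_apply, Fin.sum_univ_succ, h02, h12, h03, h13] using key 3 2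
      · simpa [Matrix.mul_apply, Fin.sum_univ_succ, h03, h13] using key 3 3)
    rw [Matrix.det_fin_two_of] at h1
    exact h1

/-- a row of a unitary matrix with a single non-zero entry -/
theorem entry_norm (M : Matrix (Fin 4) (Fin 4) ℂ) (hM : M.conjTranspose * M = 1) {a p : Fin 4}
    (h : ∀ j, M a j ≠ 0 → j = p) : ‖M a p‖ = 1 := by
  have h1 : M * M.conjTranspose = 1 := mul_eq_one_comm.mp hM
  have h2 : (M * M.conjTranspose) a a = 1 := by rw [h1, Matrix.one_apply_eq]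
  rw [Matrix.mul_apply, Finset.sum_eq_single p] at h2
  · rw [Matrix.conjTranspose_apply] at h2
    have h3 : ‖M a p * star (M a p)‖ = 1 := by rw [h2]; simp
    rw [norm_mul, norm_star] at h3
    nlinarith [norm_nonneg (M a p)]
  · intro j _ hj
    have : M a j = 0 := by
      by_contra hh
      exact hj (h j hh)
    rw [this, zero_mul]
  · intro hh
    exact absurd (Finset.mem_univ p) hh

/-- determinant of a monomial matrix -/
theorem monomial_det (M : Matrix (Fin 4) (Fin 4) ℂ) (σ : P4) (h : ∀ i j, M i j ≠ 0 → j = σ i) :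
    M.det = ((Equiv.Perm.sign σ : ℤ) : ℂ) * ∏ a, M a (σ a) := by
  rw [Matrix.det_apply', Finset.sum_eq_single σ⁻¹]
  · rw [Equiv.Perm.sign_inv]
    congr 1
    rw [← Equiv.prod_comp σ (fun i => M (σ⁻¹ i) i)]
    refine Finset.prod_congr rfl fun a _ => ?_
    simp
  · intro π _ hπ
    have : ∃ i, M (π i) i = 0 := by
      by_contra hh
      push Not at hh
      apply hπ
      ext i
      have h1 := h (π i) i (hh i)
      have h2 : σ⁻¹ i = π i := by
        conv_lhs => rw [h1]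
        simp
      rw [h2]
    obtain ⟨i, hi⟩ := this
    rw [Finset.prod_eq_zero (f := fun i => M (π i) i) (Finset.mem_univ i) hi, mul_zero]
  · intro hh
    exact absurd (Finset.mem_univ _) hh

/-- The obstruction: numbers `S(σ)` with the parity of `σ` and the square relations. -/
theorem exists_S (u : (P4 → ℝ) → Matrix (Fin 4) (Fin 4) ℂ)
    (hu : ContinuousOn u (stdSimplex ℝ P4))
    (hU : ∀ x ∈ stdSimplex ℝ P4, (u x).conjTranspose * u x = 1)
    (hz : ∀ x ∈ stdSimplex ℝ P4, ∀ B A : Finset (Fin 4),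
      (∀ π : P4, B.map π.toEmbedding ≠ A → x π < 1 / 25) →
        ∀ i j, u x i j ≠ 0 → (i ∈ B ↔ j ∈ A)) :
    ∃ S : P4 → ℤ, (∀ σ, (Equiv.Perm.sign σ = 1 ↔ Even (S σ))) ∧
      ∀ (σ : P4) (a b c d : Fin 4), a ≠ b → c ≠ d → a ≠ c → a ≠ d → b ≠ c → b ≠ d →
        S σ + S (σ * (Equiv.swap a b * Equiv.swap c d)) =
          S (σ * Equiv.swap a b) + S (σ * Equiv.swap c d) := by
  have hQ : ∀ B A, QQ B A ⊆ stdSimplex ℝ P4 := fun B A x hx => hx.1
  have hcont : ∀ i j, ContinuousOn (fun x => u x i j) (stdSimplex ℝ P4) := fun i j =>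
    ((continuous_id (X := Matrix (Fin 4) (Fin 4) ℂ)).matrix_elem i j).comp_continuousOn hu
  have hpat : ∀ B A x, x ∈ QQ B A → ∀ i j, u x i j ≠ 0 → (i ∈ B ↔ j ∈ A) :=
    fun B A x hx => hz x hx.1 B A hx.2
  have hpat1 : ∀ {a p : Fin 4} {x}, x ∈ QQ {a} {p} → ∀ j, u x a j ≠ 0 → j = p := by
    intro a p x hx j hj
    have := (hpat {a} {p} x hx a j hj).mp (Finset.mem_singleton_self a)
    simpa using this
  have hent : ∀ a p x, x ∈ QQ {a} {p} → ‖u x a p‖ = 1 := fun a p x hx =>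
    entry_norm (u x) (hU x hx.1) (hpat1 hx)
  choose l hl1 hl2 using fun a p =>
    exists_log (convex_QQ {a} {p}) ((hcont a p).mono (hQ _ _)) (hent a p)
  have hdetn : ∀ x ∈ stdSimplex ℝ P4, ‖(u x).det‖ = 1 := by
    intro x hx
    have h1 : ((u x).conjTranspose * u x).det = 1 := by rw [hU x hx, Matrix.det_one]
    rw [Matrix.det_mul, Matrix.det_conjTranspose] at h1
    have h2 : ‖star (u x).det * (u x).det‖ = 1 := by rw [h1]; simp
    rw [norm_mul, norm_star] at h2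
    nlinarith [norm_nonneg (u x).det]
  have hdetc : ContinuousOn (fun x => (u x).det) (stdSimplex ℝ P4) :=
    ((continuous_id (X := Matrix (Fin 4) (Fin 4) ℂ)).matrix_det).comp_continuousOn hu
  obtain ⟨d, hd1, hd2⟩ := exists_log (convex_stdSimplex ℝ P4) hdetc hdetn
  let v : P4 → (P4 → ℝ) := fun σ => Pi.single σ 1
  have hvS : ∀ σ, v σ ∈ stdSimplex ℝ P4 := fun σ => single_mem_stdSimplex ℝ σ
  let s : P4 → ℝ := fun σ => d (v σ) - ∑ a, l a (σ a) (v σ)
  have hs : ∀ σ, ∃ k : ℤ, s σ = k * Real.pi ∧ (Equiv.Perm.sign σ = 1 ↔ Even k) := by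
    intro σ
    have hmem : ∀ a, v σ ∈ QQ {a} {σ a} := fun a => vertex_mem_QQ1 σ rfl
    have h1 := monomial_det (u (v σ)) σ (fun i j hij => hpat1 (hmem i) j hij)
    rw [hd2 _ (hvS σ), Finset.prod_congr rfl (fun a _ => hl2 a (σ a) (v σ) (hmem a)),
      ← Complex.exp_sum] at h1
    have h2 : Complex.exp ((s σ : ℂ) * Complex.I) = ((Equiv.Perm.sign σ : ℤ) : ℂ) := by
      have h3 : ((s σ : ℝ) : ℂ) * Complex.I = (d (v σ)) * Complex.I +
          -(∑ a, ((l a (σ a) (v σ) : ℝ) : ℂ) * Complex.I) := by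
        simp only [s]
        push_cast
        rw [sub_mul, Finset.sum_mul, sub_eq_add_neg]
      rw [h3, Complex.exp_add, h1, mul_assoc, ← Complex.exp_add, add_neg_cancel,
        Complex.exp_zero, mul_one]
    rcases Int.units_eq_one_or (Equiv.Perm.sign σ) with h | h
    · rw [h] at h2
      simp only [Units.val_one, Int.cast_one] at h2
      rw [Complex.exp_eq_one_iff] at h2
      obtain ⟨n, hn⟩ := h2
      refine ⟨2 * n, ?_, by simp [h]⟩
      have h4 : Complex.I * ((s σ : ℝ) : ℂ) = Complex.I * (((2 * n : ℤ) * Real.pi : ℝ) : ℂ) := by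
        push_cast
        linear_combination hn
      exact_mod_cast mul_left_cancel₀ Complex.I_ne_zero h4
    · rw [h] at h2
      have h5 : Complex.exp ((s σ : ℂ) * Complex.I + Real.pi * Complex.I) = 1 := by
        rw [Complex.exp_add, h2, Complex.exp_pi_mul_I]
        norm_num
      rw [Complex.exp_eq_one_iff] at h5
      obtain ⟨n, hn⟩ := h5
      refine ⟨2 * n - 1, ?_, ?_⟩
      · have h4 : Complex.I * ((s σ : ℝ) : ℂ) =
            Complex.I * (((2 * n - 1 : ℤ) * Real.pi : ℝ) : ℂ) := by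
          push_cast
          linear_combination hn
        exact_mod_cast mul_left_cancel₀ Complex.I_ne_zero h4
      · rw [h]
        constructor
        · intro hh
          exact absurd hh (by decide)
        · intro hh
          exfalso
          obtain ⟨k, hk⟩ := hh
          omega
  choose S hS1 hS2 using hs
  refine ⟨S, hS2, ?_⟩
  intro σ a b c d' hab hcd hac had hbc hbd
  obtain ⟨e, he0, he1, he2, he3⟩ : ∃ e : P4, e 0 = a ∧ e 1 = b ∧ e 2 = c ∧ e 3 = d' := by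
    have hinj : Function.Injective ![a, b, c, d'] := by
      intro i j hij
      fin_cases i <;> fin_cases j <;> first | rfl | (exfalso; simp at hij; tauto)
    exact ⟨Equiv.ofBijective _ (Finite.injective_iff_bijective.mp hinj), rfl, rfl, rfl, rfl⟩
  have key : s σ + s (σ * (Equiv.swap a b * Equiv.swap c d')) =
      s (σ * Equiv.swap a b) + s (σ * Equiv.swap c d') := by
    subst he0 he1 he2 he3
    set p := σ (e 0) with hp
    set q := σ (e 1) with hq
    set r := σ (e 2) with hr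
    set t := σ (e 3) with ht
    have hpq : p ≠ q := fun h => by simp [hp, hq] at h
    have hrt : r ≠ t := fun h => by simp [hr, ht] at h
    let N : (P4 → ℝ) → Matrix (Fin 4) (Fin 4) ℂ := fun x => (u x).submatrix e (e.trans σ)
    have hNU : ∀ x ∈ stdSimplex ℝ P4, (N x).conjTranspose * N x = 1 := by
      intro x hx
      simp only [N]
      rw [Matrix.conjTranspose_submatrix, Matrix.submatrix_mul_equiv, hU x hx,
        Matrix.submatrix_one_equiv]
    have hNdet : ∀ x, (N x).det = ((Equiv.Perm.sign σ : ℤ) : ℂ) * (u x).det := by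
      intro x
      have h1 : N x = ((u x).submatrix id σ).submatrix e e := rfl
      rw [h1, Matrix.det_submatrix_equiv_self, Matrix.det_permute']
    have hP1 : ∀ x ∈ QQ {e 0, e 1} {p, q}, ∀ i j, N x i j ≠ 0 →
        ((i = 0 ∨ i = 1) ↔ (j = 0 ∨ j = 1)) := by
      intro x hx i j hij
      have h1 := hpat _ _ x hx (e i) (σ (e j)) hij
      simpa [hp, hq] using h1
    have hP2 : ∀ x ∈ QQ {e 2, e 3} {r, t}, ∀ i j, N x i j ≠ 0 →
        ((i = 0 ∨ i = 1) ↔ (j = 0 ∨ j = 1)) := by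
      intro x hx i j hij
      have h1 := hpat _ _ x hx (e i) (σ (e j)) hij
      have h2 : (i = 2 ∨ i = 3) ↔ (j = 2 ∨ j = 3) := by simpa [hr, ht] using h1
      clear * - h2
      revert i j
      decide
    obtain ⟨m1, hm1c, hm1⟩ := exists_log (convex_QQ {e 0, e 1} {p, q})
      (f := fun x => u x (e 0) p * u x (e 1) q - u x (e 0) q * u x (e 1) p)
      (((((hcont _ _).mul (hcont _ _)).sub ((hcont _ _).mul (hcont _ _)))).mono (hQ _ _))
      (fun x hx => (block_norm (N x) (hNU x hx.1) (hP1 x hx)).1)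
    obtain ⟨m2, hm2c, hm2⟩ := exists_log (convex_QQ {e 2, e 3} {r, t})
      (f := fun x => u x (e 2) r * u x (e 3) t - u x (e 2) t * u x (e 3) r)
      (((((hcont _ _).mul (hcont _ _)).sub ((hcont _ _).mul (hcont _ _)))).mono (hQ _ _))
      (fun x hx => (block_norm (N x) (hNU x hx.1) (hP2 x hx)).2)
    have hsign : ((Equiv.Perm.sign σ : ℤ) : ℂ) = 1 ∨ ((Equiv.Perm.sign σ : ℤ) : ℂ) = -1 := by
      rcases Int.units_eq_one_or (Equiv.Perm.sign σ) with h | h
      · left; rw [h]; simp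
      · right; rw [h]; simp
    have hK : ∀ x ∈ QQ {e 0, e 1} {p, q} ∩ QQ {e 2, e 3} {r, t},
        ∀ y ∈ QQ {e 0, e 1} {p, q} ∩ QQ {e 2, e 3} {r, t},
          d x - m1 x - m2 x = d y - m1 y - m2 y := by
      intro x hx y hy
      refine blk ((convex_QQ _ _).inter (convex_QQ _ _)) (hd1.mono fun z hz => hz.1.1)
        (hm1c.mono Set.inter_subset_left) (hm2c.mono Set.inter_subset_right) _ hsign ?_ hx hy
      intro z hz
      rw [← hd2 z hz.1.1, ← hm1 z hz.1, ← hm2 z hz.2]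
      have h1 := block_det (N z) (hP1 z hz.1)
      rw [hNdet z] at h1
      have h2 : ((Equiv.Perm.sign σ : ℤ) : ℂ) * ((Equiv.Perm.sign σ : ℤ) : ℂ) = 1 := by
        rcases hsign with h | h <;> rw [h] <;> norm_num
      have h3 : (u z).det = ((Equiv.Perm.sign σ : ℤ) : ℂ) *
          (((Equiv.Perm.sign σ : ℤ) : ℂ) * (u z).det) := by
        rw [← mul_assoc, h2, one_mul]
      rw [h3, h1]
      rfl
    have hdir : ∀ (a b p q : Fin 4) (m : (P4 → ℝ) → ℝ), p ≠ q →
        ContinuousOn m (QQ {a, b} {p, q}) →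
        (∀ x ∈ QQ {a, b} {p, q}, u x a p * u x b q - u x a q * u x b p =
          Complex.exp (m x * Complex.I)) →
        (∀ x ∈ QQ {a} {p} ∩ QQ {b} {q}, ∀ y ∈ QQ {a} {p} ∩ QQ {b} {q},
          m x - l a p x - l b q x = m y - l a p y - l b q y) ∧
        (∀ x ∈ QQ {a} {q} ∩ QQ {b} {p}, ∀ y ∈ QQ {a} {q} ∩ QQ {b} {p},
          m x - l a q x - l b p x = m y - l a q y - l b p y) := by
      intro a b p q m hpq hmc hm
      have hsub : QQ {a} {q} ∩ QQ {b} {p} ⊆ QQ {a, b} {p, q} := by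
        rw [Finset.pair_comm p q]
        exact QQ_inter_subset a b q p
      constructor
      · intro x hx y hy
        refine blk ((convex_QQ _ _).inter (convex_QQ _ _))
          (hmc.mono (QQ_inter_subset a b p q))
          ((hl1 a p).mono Set.inter_subset_left) ((hl1 b q).mono Set.inter_subset_right) 1
          (Or.inl rfl) ?_ hx hy
        intro z hz
        rw [← hm z (QQ_inter_subset a b p q hz), ← hl2 a p z hz.1, ← hl2 b q z hz.2]
        have h0 : u z a q = 0 := by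
          by_contra hh
          exact hpq (hpat1 hz.1 q hh).symm
        rw [h0]
        ring
      · intro x hx y hy
        refine blk ((convex_QQ _ _).inter (convex_QQ _ _))
          (hmc.mono hsub)
          ((hl1 a q).mono Set.inter_subset_left) ((hl1 b p).mono Set.inter_subset_right) (-1)
          (Or.inr rfl) ?_ hx hy
        intro z hz
        rw [← hm z (hsub hz), ← hl2 a q z hz.1, ← hl2 b p z hz.2]
        have h0 : u z a p = 0 := by
          by_contra hh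
          exact hpq (hpat1 hz.1 p hh)
        rw [h0]
        ring
    obtain ⟨hA1, hA2⟩ := hdir (e 0) (e 1) p q m1 hpq hm1c hm1
    obtain ⟨hB1, hB2⟩ := hdir (e 2) (e 3) r t m2 hrt hm2c hm2
    -- the four permutations
    have hsum : ∀ ρ : P4, s ρ = d (v ρ) - (l (e 0) (ρ (e 0)) (v ρ) + l (e 1) (ρ (e 1)) (v ρ) +
        l (e 2) (ρ (e 2)) (v ρ) + l (e 3) (ρ (e 3)) (v ρ)) := by
      intro ρ
      simp only [s]
      rw [← Equiv.sum_comp e, Fin.sum_univ_four]
    have sw : ∀ i j k : Fin 4, Equiv.swap (e i) (e j) (e k) = e (Equiv.swap i j k) := by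
      intro i j k
      rw [Equiv.swap_apply_def, Equiv.swap_apply_def]
      simp only [EmbeddingLike.apply_eq_iff_eq]
      split_ifs <;> rfl
    set ρ1 := σ * Equiv.swap (e 0) (e 1) with hρ1
    set ρ2 := σ * Equiv.swap (e 2) (e 3) with hρ2
    set ρ3 := σ * (Equiv.swap (e 0) (e 1) * Equiv.swap (e 2) (e 3)) with hρ3
    have w1 : ρ1 (e 0) = q ∧ ρ1 (e 1) = p ∧ ρ1 (e 2) = r ∧ ρ1 (e 3) = t := by
      simp only [hρ1, Equiv.Perm.mul_apply, sw]
      exact ⟨rfl, rfl, rfl, rfl⟩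
    have w2 : ρ2 (e 0) = p ∧ ρ2 (e 1) = q ∧ ρ2 (e 2) = t ∧ ρ2 (e 3) = r := by
      simp only [hρ2, Equiv.Perm.mul_apply, sw]
      exact ⟨rfl, rfl, rfl, rfl⟩
    have w3 : ρ3 (e 0) = q ∧ ρ3 (e 1) = p ∧ ρ3 (e 2) = t ∧ ρ3 (e 3) = r := by
      simp only [hρ3, Equiv.Perm.mul_apply, sw]
      exact ⟨rfl, rfl, rfl, rfl⟩
    have hfl : ∀ {a b p q : Fin 4} {x : P4 → ℝ}, x ∈ QQ {a} {q} ∩ QQ {b} {p} →
        x ∈ QQ {a, b} {p, q} := by
      intro a b p q x hx
      rw [Finset.pair_comm p q]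
      exact QQ_inter_subset a b q p hx
    have a0 : v σ ∈ QQ {e 0} {p} ∩ QQ {e 1} {q} := ⟨vertex_mem_QQ1 σ rfl, vertex_mem_QQ1 σ rfl⟩
    have b0 : v σ ∈ QQ {e 2} {r} ∩ QQ {e 3} {t} := ⟨vertex_mem_QQ1 σ rfl, vertex_mem_QQ1 σ rfl⟩
    have a1 : v ρ1 ∈ QQ {e 0} {q} ∩ QQ {e 1} {p} :=
      ⟨vertex_mem_QQ1 ρ1 w1.1, vertex_mem_QQ1 ρ1 w1.2.1⟩
    have b1 : v ρ1 ∈ QQ {e 2} {r} ∩ QQ {e 3} {t} :=
      ⟨vertex_mem_QQ1 ρ1 w1.2.2.1, vertex_mem_QQ1 ρ1 w1.2.2.2⟩
    have a2 : v ρ2 ∈ QQ {e 0} {p} ∩ QQ {e 1} {q} :=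
      ⟨vertex_mem_QQ1 ρ2 w2.1, vertex_mem_QQ1 ρ2 w2.2.1⟩
    have b2 : v ρ2 ∈ QQ {e 2} {t} ∩ QQ {e 3} {r} :=
      ⟨vertex_mem_QQ1 ρ2 w2.2.2.1, vertex_mem_QQ1 ρ2 w2.2.2.2⟩
    have a3 : v ρ3 ∈ QQ {e 0} {q} ∩ QQ {e 1} {p} :=
      ⟨vertex_mem_QQ1 ρ3 w3.1, vertex_mem_QQ1 ρ3 w3.2.1⟩
    have b3 : v ρ3 ∈ QQ {e 2} {t} ∩ QQ {e 3} {r} :=
      ⟨vertex_mem_QQ1 ρ3 w3.2.2.1, vertex_mem_QQ1 ρ3 w3.2.2.2⟩
    have c0 := (⟨QQ_inter_subset _ _ _ _ a0, QQ_inter_subset _ _ _ _ b0⟩ :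
      v σ ∈ QQ {e 0, e 1} {p, q} ∩ QQ {e 2, e 3} {r, t})
    have c1 := (⟨hfl a1, QQ_inter_subset _ _ _ _ b1⟩ :
      v ρ1 ∈ QQ {e 0, e 1} {p, q} ∩ QQ {e 2, e 3} {r, t})
    have c2 := (⟨QQ_inter_subset _ _ _ _ a2, hfl b2⟩ :
      v ρ2 ∈ QQ {e 0, e 1} {p, q} ∩ QQ {e 2, e 3} {r, t})
    have c3 := (⟨hfl a3, hfl b3⟩ :
      v ρ3 ∈ QQ {e 0, e 1} {p, q} ∩ QQ {e 2, e 3} {r, t})
    have k1 := hK _ c0 _ c1
    have k2 := hK _ c0 _ c2
    have k3 := hK _ c0 _ c3
    have n1 := hA1 _ a0 _ a2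
    have n2 := hA2 _ a1 _ a3
    have n3 := hB1 _ b0 _ b1
    have n4 := hB2 _ b2 _ b3
    rw [hsum σ, hsum ρ1, hsum ρ2, hsum ρ3, w1.1, w1.2.1, w1.2.2.1, w1.2.2.2, w2.1, w2.2.1,
      w2.2.2.1, w2.2.2.2, w3.1, w3.2.1, w3.2.2.1, w3.2.2.2, ← hp, ← hq, ← hr, ← ht]
    linarith
  simp only [hS1] at key
  have hpi : (Real.pi : ℝ) ≠ 0 := Real.pi_ne_zero
  have h1 : (((S σ + S (σ * (Equiv.swap a b * Equiv.swap c d')) : ℤ)) : ℝ) * Real.pi =
      ((S (σ * Equiv.swap a b) + S (σ * Equiv.swap c d') : ℤ) : ℝ) * Real.pi := by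
    push_cast
    linarith
  exact_mod_cast mul_right_cancel₀ hpi h1

end Pool.Agent.Run7.h745.PC
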