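import Pool.Agent.Run7.h745.PC_Defs

namespace Pool.Agent.Run7.h745.PC

theorem no_S (S : P4 → ℤ) (h1 : ∀ σ, (Equiv.Perm.sign σ = 1 ↔ Even (S σ)))
    (h2 : ∀ (σ : P4) (a b c d : Fin 4), a ≠ b → c ≠ d → a ≠ c → a ≠ d → b ≠ c → b ≠ d →
        S σ + S (σ * (Equiv.swap a b * Equiv.swap c d)) =
          S (σ * Equiv.swap a b) + S (σ * Equiv.swap c d)) : False := by
  let P : (Fin 4 → Fin 4) → P4 := fun f =>
    if h : Function.Bijective f then Equiv.ofBijective f h else 1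
  have hP : ∀ (f : Fin 4 → Fin 4) (σ : P4), (∀ i, σ i = f i) → P f = σ := by
    intro f σ h
    have hf : f = σ := by funext i; exact (h i).symm
    have hb : Function.Bijective f := by rw [hf]; exact σ.bijective
    simp only [P, dif_pos hb]
    ext i
    simp [h]
  have sq : ∀ (f0 f1 f2 f3 : Fin 4 → Fin 4) (a b c d : Fin 4), Function.Bijective f0 →
      a ≠ b → c ≠ d → a ≠ c → a ≠ d → b ≠ c → b ≠ d →
      (∀ i, f1 i = f0 (Equiv.swap a b i)) → (∀ i, f2 i = f0 (Equiv.swap c d i)) →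
      (∀ i, f3 i = f0 (Equiv.swap a b (Equiv.swap c d i))) →
      S (P f0) + S (P f3) = S (P f1) + S (P f2) := by
    intro f0 f1 f2 f3 a b c d hb hab hcd hac had hbc hbd e1 e2 e3
    have k0 : ∀ i, (P f0) i = f0 i := by
      intro i
      simp only [P, dif_pos hb, Equiv.ofBijective_apply]
    have k1 : P f1 = P f0 * Equiv.swap a b := hP _ _ fun i => by
      rw [Equiv.Perm.mul_apply, k0, e1]
    have k2 : P f2 = P f0 * Equiv.swap c d := hP _ _ fun i => by
      rw [Equiv.Perm.mul_apply, k0, e2]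
    have k3 : P f3 = P f0 * (Equiv.swap a b * Equiv.swap c d) := hP _ _ fun i => by
      rw [Equiv.Perm.mul_apply, Equiv.Perm.mul_apply, k0, e3]
    rw [k1, k2, k3]
    exact h2 _ a b c d hab hcd hac had hbc hbd
  have q0 := sq ![0, 1, 3, 2] ![2, 1, 3, 0] ![0, 3, 1, 2] ![2, 3, 1, 0] 0 3 1 2 (by decide) (by decide) (by decide) (by decide)
    (by decide) (by decide) (by decide) (by decide) (by decide) (by decide)
  have q1 := sq ![0, 1, 2, 3] ![2, 1, 0, 3] ![0, 3, 2, 1] ![2, 3, 0, 1] 0 2 1 3 (by decide) (by decide) (by decide) (by decide)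
    (by decide) (by decide) (by decide) (by decide) (by decide) (by decide)
  have q2 := sq ![0, 2, 3, 1] ![1, 2, 3, 0] ![0, 3, 2, 1] ![1, 3, 2, 0] 0 3 1 2 (by decide) (by decide) (by decide) (by decide)
    (by decide) (by decide) (by decide) (by decide) (by decide) (by decide)
  have q3 := sq ![0, 1, 2, 3] ![3, 1, 2, 0] ![0, 2, 1, 3] ![3, 2, 1, 0] 0 3 1 2 (by decide) (by decide) (by decide) (by decide)
    (by decide) (by decide) (by decide) (by decide) (by decide) (by decide)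
  have q4 := sq ![1, 3, 0, 2] ![3, 1, 0, 2] ![1, 3, 2, 0] ![3, 1, 2, 0] 0 1 2 3 (by decide) (by decide) (by decide) (by decide)
    (by decide) (by decide) (by decide) (by decide) (by decide) (by decide)
  have q5 := sq ![0, 2, 1, 3] ![1, 2, 0, 3] ![0, 3, 1, 2] ![1, 3, 0, 2] 0 2 1 3 (by decide) (by decide) (by decide) (by decide)
    (by decide) (by decide) (by decide) (by decide) (by decide) (by decide)
  have q6 := sq ![2, 3, 0, 1] ![3, 2, 0, 1] ![2, 3, 1, 0] ![3, 2, 1, 0] 0 1 2 3 (by decide) (by decide) (by decide) (by decide)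
    (by decide) (by decide) (by decide) (by decide) (by decide) (by decide)
  have q7 := sq ![1, 2, 0, 3] ![2, 1, 0, 3] ![1, 2, 3, 0] ![2, 1, 3, 0] 0 1 2 3 (by decide) (by decide) (by decide) (by decide)
    (by decide) (by decide) (by decide) (by decide) (by decide) (by decide)
  have q8 := sq ![0, 1, 3, 2] ![3, 1, 0, 2] ![0, 2, 3, 1] ![3, 2, 0, 1] 0 2 1 3 (by decide) (by decide) (by decide) (by decide)
    (by decide) (by decide) (by decide) (by decide) (by decide) (by decide)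
  have s0123 := (h1 (P ![0, 1, 2, 3])).mp (by decide)
  have s0132 : ¬ Even (S (P ![0, 1, 3, 2])) := fun h => absurd ((h1 (P ![0, 1, 3, 2])).mpr h) (by decide)
  have s0213 : ¬ Even (S (P ![0, 2, 1, 3])) := fun h => absurd ((h1 (P ![0, 2, 1, 3])).mpr h) (by decide)
  have s0231 := (h1 (P ![0, 2, 3, 1])).mp (by decide)
  have s0312 := (h1 (P ![0, 3, 1, 2])).mp (by decide)
  have s0321 : ¬ Even (S (P ![0, 3, 2, 1])) := fun h => absurd ((h1 (P ![0, 3, 2, 1])).mpr h) (by decide)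
  have s1203 := (h1 (P ![1, 2, 0, 3])).mp (by decide)
  have s1230 : ¬ Even (S (P ![1, 2, 3, 0])) := fun h => absurd ((h1 (P ![1, 2, 3, 0])).mpr h) (by decide)
  have s1302 : ¬ Even (S (P ![1, 3, 0, 2])) := fun h => absurd ((h1 (P ![1, 3, 0, 2])).mpr h) (by decide)
  have s1320 := (h1 (P ![1, 3, 2, 0])).mp (by decide)
  have s2103 : ¬ Even (S (P ![2, 1, 0, 3])) := fun h => absurd ((h1 (P ![2, 1, 0, 3])).mpr h) (by decide)
  have s2130 := (h1 (P ![2, 1, 3, 0])).mp (by decide)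
  have s2301 := (h1 (P ![2, 3, 0, 1])).mp (by decide)
  have s2310 : ¬ Even (S (P ![2, 3, 1, 0])) := fun h => absurd ((h1 (P ![2, 3, 1, 0])).mpr h) (by decide)
  have s3102 := (h1 (P ![3, 1, 0, 2])).mp (by decide)
  have s3120 : ¬ Even (S (P ![3, 1, 2, 0])) := fun h => absurd ((h1 (P ![3, 1, 2, 0])).mpr h) (by decide)
  have s3201 : ¬ Even (S (P ![3, 2, 0, 1])) := fun h => absurd ((h1 (P ![3, 2, 0, 1])).mpr h) (by decide)
  have s3210 := (h1 (P ![3, 2, 1, 0])).mp (by decide)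
  generalize S (P ![0, 1, 2, 3]) = x0123 at *
  generalize S (P ![0, 1, 3, 2]) = x0132 at *
  generalize S (P ![0, 2, 1, 3]) = x0213 at *
  generalize S (P ![0, 2, 3, 1]) = x0231 at *
  generalize S (P ![0, 3, 1, 2]) = x0312 at *
  generalize S (P ![0, 3, 2, 1]) = x0321 at *
  generalize S (P ![1, 2, 0, 3]) = x1203 at *
  generalize S (P ![1, 2, 3, 0]) = x1230 at *
  generalize S (P ![1, 3, 0, 2]) = x1302 at *
  generalize S (P ![1, 3, 2, 0]) = x1320 at *
  generalize S (P ![2, 1, 0, 3]) = x2103 at *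
  generalize S (P ![2, 1, 3, 0]) = x2130 at *
  generalize S (P ![2, 3, 0, 1]) = x2301 at *
  generalize S (P ![2, 3, 1, 0]) = x2310 at *
  generalize S (P ![3, 1, 0, 2]) = x3102 at *
  generalize S (P ![3, 1, 2, 0]) = x3120 at *
  generalize S (P ![3, 2, 0, 1]) = x3201 at *
  generalize S (P ![3, 2, 1, 0]) = x3210 at *
  rw [Int.not_even_iff_odd] at s0132 s0213 s0321 s1230 s1302 s2103 s2310 s3120 s3201
  obtain ⟨y0123, t0123⟩ := s0123
  obtain ⟨y0132, t0132⟩ := s0132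
  obtain ⟨y0213, t0213⟩ := s0213
  obtain ⟨y0231, t0231⟩ := s0231
  obtain ⟨y0312, t0312⟩ := s0312
  obtain ⟨y0321, t0321⟩ := s0321
  obtain ⟨y1203, t1203⟩ := s1203
  obtain ⟨y1230, t1230⟩ := s1230
  obtain ⟨y1302, t1302⟩ := s1302
  obtain ⟨y1320, t1320⟩ := s1320
  obtain ⟨y2103, t2103⟩ := s2103
  obtain ⟨y2130, t2130⟩ := s2130
  obtain ⟨y2301, t2301⟩ := s2301
  obtain ⟨y2310, t2310⟩ := s2310
  obtain ⟨y3102, t3102⟩ := s3102
  obtain ⟨y3120, t3120⟩ := s3120
  obtain ⟨y3201, t3201⟩ := s3201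
  obtain ⟨y3210, t3210⟩ := s3210
  omega

end Pool.Agent.Run7.h745.PC
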