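import Mathlib

/-!
# Piecewise conjugacy does not imply unitary equivalence (problem MP_7f766c_an)

Definitions for classical multivariable systems on compact Hausdorff spaces, and the example.
-/

namespace Pool.Agent.Run7.h745.PC

open scoped BigOperators

section Statement

variable {X Y : Type} [TopologicalSpace X] [TopologicalSpace Y] {n : ℕ}

/-- The `C(X)`-valued inner product `⟨ξ, η⟩ = ∑ i, ξ_i^* η_i` on the correspondence `C(X)^n`. -/
noncomputable def ip (ξ η : Fin n → C(X, ℂ)) : C(X, ℂ) := ∑ i, star (ξ i) * η i

/-- The left action `(φ(a) ξ)_i = (a ∘ σ_i) ξ_i` of `C(X)` on `C(X)^n` defined by the system `σ`. -/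
noncomputable def act (σ : Fin n → C(X, X)) (a : C(X, ℂ)) (ξ : Fin n → C(X, ℂ)) :
    Fin n → C(X, ℂ) := fun i => a.comp (σ i) * ξ i

/-- Unitary equivalence of the correspondences of the systems `σ` and `τ`. -/
def UnitarilyEquivalent (σ : Fin n → C(X, X)) (τ : Fin n → C(Y, Y)) : Prop :=
  ∃ (ρ : C(X, ℂ) ≃⋆ₐ[ℂ] C(Y, ℂ)) (U : (Fin n → C(X, ℂ)) →ₗ[ℂ] (Fin n → C(Y, ℂ))),
    Function.Surjective U ∧ (∀ ξ η, ip (U ξ) (U η) = ρ (ip ξ η)) ∧
      ∀ a ξ, U (act σ a ξ) = act τ (ρ a) (U ξ)

/-- Piecewise conjugacy of the systems `σ` and `τ`. -/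
def PiecewiseConjugate (σ : Fin n → C(X, X)) (τ : Fin n → C(Y, Y)) : Prop :=
  ∃ (γ : X ≃ₜ Y) (V : Equiv.Perm (Fin n) → Set X), (∀ π, IsOpen (V π)) ∧
    (⋃ π, V π) = Set.univ ∧ ∀ π, ∀ x ∈ V π, ∀ i, τ i (γ x) = γ (σ (π i) x)

end Statement

/-! ### The example -/

/-- The group of permutations of four letters. -/
abbrev P4 := Equiv.Perm (Fin 4)

/-- The simplex with vertex set `P4`. -/
abbrev ZZ := stdSimplex ℝ P4

/-- The unit interval. -/
abbrev II := Set.Icc (0 : ℝ) 1

/-- The Hilbert cube. -/
abbrev WW := ℕ → II

/-- The space of the example. -/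
abbrev XX := ZZ ⊕ (WW ⊕ II)

/-- Coordinates of the cube that are used: pairs of subsets, and permutations. -/
abbrev Idx := (Finset (Fin 4) × Finset (Fin 4)) ⊕ P4

/-- positive exactly when `x_π < 1/25` for all `π` that do not map `B` onto `A`. -/
noncomputable def hh (B A : Finset (Fin 4)) (x : P4 → ℝ) : ℝ :=
  ∏ π : P4, if B.map π.toEmbedding = A then 1 else max 0 (1 / 25 - x π)

/-- An enumeration of `Idx`. -/
noncomputable def enum : ℕ → Idx := (exists_surjective_nat Idx).choose

theorem enum_surjective : Function.Surjective enum := (exists_surjective_nat Idx).choose_spec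

/-- the value of coordinate `k` of `σ_j(x)` -/
noncomputable def sval (j : Fin 4) (x : P4 → ℝ) : Idx → ℝ
  | Sum.inl (B, A) => if j ∈ A then hh B A x else 0
  | Sum.inr π => x π

/-- the value of coordinate `k` of `τ_i(x)` -/
noncomputable def tval (i : Fin 4) (x : P4 → ℝ) : Idx → ℝ
  | Sum.inl (B, A) => if i ∈ B then hh B A x else 0
  | Sum.inr π => x π

theorem continuous_hh (B A : Finset (Fin 4)) : Continuous (hh B A) := by
  unfold hh
  refine continuous_finsetProd _ fun π _ => ?_
  split_ifs
  · exact continuous_const
  · exact continuous_const.max (continuous_const.sub (continuous_apply π))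

theorem continuous_sval (j : Fin 4) (k : Idx) : Continuous fun x => sval j x k := by
  rcases k with ⟨B, A⟩ | π
  · simp only [sval]
    split_ifs
    · exact continuous_hh B A
    · exact continuous_const
  · exact continuous_apply π

theorem continuous_tval (j : Fin 4) (k : Idx) : Continuous fun x => tval j x k := by
  rcases k with ⟨B, A⟩ | π
  · simp only [tval]
    split_ifs
    · exact continuous_hh B A
    · exact continuous_const
  · exact continuous_apply π

/-- clamp to the unit interval -/
noncomputable def cl (t : ℝ) : II := Set.projIcc 0 1 zero_le_one t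

theorem continuous_cl : Continuous cl := continuous_projIcc (h := zero_le_one)

/-- The maps `σ_j` on the simplex. -/
noncomputable def sZ (j : Fin 4) (x : ZZ) : WW := fun n => cl (sval j x.1 (enum n))

/-- The maps `τ_i` on the simplex. -/
noncomputable def tZ (i : Fin 4) (x : ZZ) : WW := fun n => cl (tval i x.1 (enum n))

theorem continuous_sZ (j : Fin 4) : Continuous (sZ j) :=
  continuous_pi fun n => continuous_cl.comp ((continuous_sval j (enum n)).comp continuous_subtype_val)

theorem continuous_tZ (j : Fin 4) : Continuous (tZ j) :=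
  continuous_pi fun n => continuous_cl.comp ((continuous_tval j (enum n)).comp continuous_subtype_val)

/-- first coordinate -/
def fW (w : WW) : II := w 0

/-- the shift -/
def gW (w : WW) : WW := fun n => w (n + 1)

/-- `x ↦ x / 2` -/
noncomputable def fI (x : II) : II := cl (x.1 / 2)

/-- `x ↦ (x + 1) / 2` -/
noncomputable def gI (x : II) : II := cl ((x.1 + 1) / 2)

theorem continuous_fW : Continuous fW := continuous_apply 0
theorem continuous_gW : Continuous gW := continuous_pi fun n => continuous_apply (n + 1)
theorem continuous_fI : Continuous fI := continuous_cl.comp (by fun_prop)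
theorem continuous_gI : Continuous gI := continuous_cl.comp (by fun_prop)

/-- The common part of both systems, on `WW ⊕ II`. -/
noncomputable def common (j : Fin 4) : WW ⊕ II → XX :=
  Sum.elim
    (fun w => if j = 0 ∨ j = 1 then Sum.inr (Sum.inr (fW w)) else Sum.inr (Sum.inl (gW w)))
    (fun x => if j = 3 then Sum.inr (Sum.inr (gI x)) else Sum.inr (Sum.inr (fI x)))

theorem continuous_common (j : Fin 4) : Continuous (common j) := by
  unfold common
  refine Continuous.sumElim ?_ ?_
  · by_cases h : j = 0 ∨ j = 1
    · simp only [h, if_true]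
      exact continuous_inr.comp (continuous_inr.comp continuous_fW)
    · simp only [h, if_false]
      exact continuous_inr.comp (continuous_inl.comp continuous_gW)
  · by_cases h : j = 3
    · simp only [h, if_true]
      exact continuous_inr.comp (continuous_inr.comp continuous_gI)
    · simp only [h, if_false]
      exact continuous_inr.comp (continuous_inr.comp continuous_fI)

/-- The first system. -/
noncomputable def sig (j : Fin 4) : C(XX, XX) where
  toFun := Sum.elim (fun z => Sum.inr (Sum.inl (sZ j z))) (common j)
  continuous_toFun :=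
    (continuous_inr.comp (continuous_inl.comp (continuous_sZ j))).sumElim (continuous_common j)

/-- The second system. -/
noncomputable def tau (i : Fin 4) : C(XX, XX) where
  toFun := Sum.elim (fun z => Sum.inr (Sum.inl (tZ i z))) (common i)
  continuous_toFun :=
    (continuous_inr.comp (continuous_inl.comp (continuous_tZ i))).sumElim (continuous_common i)

end Pool.Agent.Run7.h745.PC
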