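import Pool.Agent.Run7.h745.PC_B
import Pool.Agent.Run7.h745.PC_C3
import Pool.Agent.Run7.h745.PC_C4
import Pool.Agent.Run7.h24.PC_A
import Pool.Agent.Run7.h416.PC_D
import Pool.Agent.Run7.h803.PC.PC_E

/-! # Assembly: the two systems are piecewise conjugate but not unitarily equivalent -/

namespace Pool.Agent.Run7.h745.PC

theorem not_equiv : ¬ UnitarilyEquivalent sig tau := by
  intro h
  obtain ⟨δ, u, hu1, hu2⟩ := Pool.Agent.Run7.h24.PC.exists_unitary h
  have hp : ∀ y, ∃ p : P4, ∀ i, sig (p i) (δ y) = δ (tau i y) := by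
    intro y
    obtain ⟨p, hp⟩ := Pool.Agent.Run7.h24.PC.exists_perm _ (hu1 y)
    exact ⟨p, fun i => hu2 i (p i) y (hp i)⟩
  obtain ⟨hW, hZ⟩ := rigid δ hp
  classical
  let v : (P4 → ℝ) → Matrix (Fin 4) (Fin 4) ℂ := fun x =>
    if hx : x ∈ stdSimplex ℝ P4 then Matrix.of fun i j => u i j (Sum.inl ⟨x, hx⟩) else 0
  have hv : ∀ (x : P4 → ℝ) (hx : x ∈ stdSimplex ℝ P4),
      v x = Matrix.of fun i j => u i j (Sum.inl ⟨x, hx⟩) := fun x hx => by
    simp only [v, dif_pos hx]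
  have c1 : ContinuousOn v (stdSimplex ℝ P4) := by
    rw [continuousOn_iff_continuous_domRestrict]
    have : (stdSimplex ℝ P4).domRestrict v =
        fun x : ZZ => Matrix.of fun i j => u i j (Sum.inl x) := by
      funext x
      exact hv x.1 x.2
    rw [this]
    refine continuous_matrix fun i j => ?_
    exact (u i j).continuous.comp continuous_inl
  have c2 : ∀ x ∈ stdSimplex ℝ P4, (v x).conjTranspose * v x = 1 := by
    intro x hx
    rw [hv x hx]
    exact hu1 _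
  have c3 : ∀ x ∈ stdSimplex ℝ P4, ∀ B A : Finset (Fin 4),
      (∀ π : P4, B.map π.toEmbedding ≠ A → x π < 1 / 25) →
        ∀ i j, v x i j ≠ 0 → (i ∈ B ↔ j ∈ A) := by
    intro x hx B A hBA i j hij
    rw [hv x hx] at hij
    have h3 := hu2 i j _ hij
    rw [hZ] at h3
    have h4 : δ (tau i (Sum.inl ⟨x, hx⟩)) = tau i (Sum.inl ⟨x, hx⟩) := hW _
    rw [h4] at h3
    have h5 : sZ j ⟨x, hx⟩ = tZ i ⟨x, hx⟩ := Sum.inl_injective (Sum.inr_injective h3)
    exact Run7.h803.PC.eq_imp h5 hBA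
  obtain ⟨S, h1, h2⟩ := exists_S v c1 c2 c3
  exact no_S S h1 h2

end Pool.Agent.Run7.h745.PC
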