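import Pool.Agent.Run7.h745.Defs2

/-!
# Roots: the two definitions of the radius of comparison agree
-/

set_option autoImplicit false
set_option linter.unusedSectionVars false

noncomputable section

namespace Run7.h745

open Filter Topology Matrix Pool.Agent.TH249
open scoped ENNReal NNReal

section
variable {B : Type} [CStarAlgebra B]

lemma rpow_aux (k : ℕ) {t : ℝ} (ht : 0 ≤ t) : (t ^ ((1 : ℝ) / (k + 1))) ^ (k + 1) = t := by
  rw [← Real.rpow_natCast, ← Real.rpow_mul ht]
  have : (1 : ℝ) / (k + 1) * ((k + 1 : ℕ) : ℝ) = 1 := by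
    push_cast
    field_simp
  rw [this, Real.rpow_one]

lemma rpow_aux' (k : ℕ) {t : ℝ} (ht : 0 ≤ t) : (t ^ (k + 1)) ^ ((1 : ℝ) / (k + 1)) = t := by
  rw [← Real.rpow_natCast, ← Real.rpow_mul ht]
  have : ((k + 1 : ℕ) : ℝ) * ((1 : ℝ) / (k + 1)) = 1 := by
    push_cast
    field_simp
  rw [this, Real.rpow_one]

lemma continuous_rt (k : ℕ) : Continuous fun t : ℝ => t ^ ((1 : ℝ) / (k + 1)) :=
  Real.continuous_rpow_const (by positivity)

lemma root_pos (a y : B) (h : a = star y * y) (k : ℕ) :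
    ∃ z, cfc (fun t : ℝ => t ^ ((1 : ℝ) / (k + 1))) a = star z * z := by
  let _ : PartialOrder B := CStarAlgebra.spectralOrder B
  have _ : StarOrderedRing B := CStarAlgebra.spectralOrderedRing B
  have h0 : 0 ≤ a := by rw [h]; exact star_mul_self_nonneg y
  refine CStarAlgebra.nonneg_iff_eq_star_mul_self.mp ?_
  refine cfc_nonneg fun x hx => ?_
  exact Real.rpow_nonneg (spectrum_nonneg_of_nonneg h0 hx) _

lemma root_pow (a y : B) (h : a = star y * y) (k : ℕ) :
    (cfc (fun t : ℝ => t ^ ((1 : ℝ) / (k + 1))) a) ^ (k + 1) = a := by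
  let _ : PartialOrder B := CStarAlgebra.spectralOrder B
  have _ : StarOrderedRing B := CStarAlgebra.spectralOrderedRing B
  have h0 : 0 ≤ a := by rw [h]; exact star_mul_self_nonneg y
  have hsa : IsSelfAdjoint a := by rw [h]; exact IsSelfAdjoint.star_mul_self y
  rw [← cfc_pow _ (k + 1) a (continuous_rt k).continuousOn]
  conv_rhs => rw [← cfc_id ℝ a]
  refine cfc_congr fun x hx => ?_
  exact rpow_aux k (spectrum_nonneg_of_nonneg h0 hx)

lemma root_unique (b y : B) (h : b = star y * y) (k : ℕ) :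
    cfc (fun t : ℝ => t ^ ((1 : ℝ) / (k + 1))) (b ^ (k + 1)) = b := by
  let _ : PartialOrder B := CStarAlgebra.spectralOrder B
  have _ : StarOrderedRing B := CStarAlgebra.spectralOrderedRing B
  have h0 : 0 ≤ b := by rw [h]; exact star_mul_self_nonneg y
  have hsa : IsSelfAdjoint b := by rw [h]; exact IsSelfAdjoint.star_mul_self y
  rw [← cfc_comp_pow (fun t : ℝ => t ^ ((1 : ℝ) / (k + 1))) (k + 1) b
    (continuous_rt k).continuousOn]
  conv_rhs => rw [← cfc_id ℝ b]
  refine cfc_congr fun x hx => ?_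
  exact rpow_aux' k (spectrum_nonneg_of_nonneg h0 hx)

end

section
variable {A : Type} [CStarAlgebra A] {n : ℕ}

lemma of_inj {a b : Matrix (Fin n) (Fin n) A} (h : Mat.of a = Mat.of b) : a = b := by
  have := congrArg Mat.of.symm h
  rwa [StarAlgEquiv.symm_apply_apply, StarAlgEquiv.symm_apply_apply] at this

lemma isPos_iff (a : Matrix (Fin n) (Fin n) A) :
    IsPos a ↔ ∃ y : Mat n A, Mat.of a = star y * y := by
  constructor
  · rintro ⟨x, hx⟩
    refine ⟨Mat.of x, ?_⟩
    rw [hx, map_mul, ← star_eq_conjTranspose, map_star]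
  · rintro ⟨y, hy⟩
    refine ⟨Mat.of.symm y, ?_⟩
    rw [← star_eq_conjTranspose, ← map_star, ← map_mul, ← hy, StarAlgEquiv.symm_apply_apply]

lemma root_spec (a : Matrix (Fin n) (Fin n) A) (ha : IsPos a) (k : ℕ) :
    IsPos (root a k) ∧ root a k ^ (k + 1) = a := by
  obtain ⟨y, hy⟩ := (isPos_iff a).mp ha
  refine ⟨(isPos_iff _).mpr ?_, ?_⟩
  · obtain ⟨z, hz⟩ := root_pos _ y hy k
    exact ⟨z, by rw [root, StarAlgEquiv.apply_symm_apply]; exact hz⟩
  · apply of_inj
    rw [map_pow, root, StarAlgEquiv.apply_symm_apply]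
    exact root_pow _ y hy k

/-- the positive `(k + 1)`-st root is unique -/
lemma root_eq (a b : Matrix (Fin n) (Fin n) A) (k : ℕ) (hb : IsPos b) (h : b ^ (k + 1) = a) :
    b = root a k := by
  obtain ⟨y, hy⟩ := (isPos_iff b).mp hb
  apply of_inj
  rw [root, StarAlgEquiv.apply_symm_apply, ← h, map_pow]
  exact (root_unique _ y hy k).symm

lemma proot_eq (a : Matrix (Fin n) (Fin n) A) (ha : IsPos a) (k : ℕ) : proot a k = root a k := by
  have h : ∃ b, IsPos b ∧ b ^ (k + 1) = a := ⟨root a k, root_spec a ha k⟩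
  unfold proot
  rw [dif_pos h]
  exact root_eq a _ k h.choose_spec.1 h.choose_spec.2

lemma QT.dimFn_eq (τ : QT A) (a : Matrix (Fin n) (Fin n) A) (ha : IsPos a) :
    τ.dimFn a = τ.rank a := by
  unfold QT.dimFn QT.rank
  simp only [proot_eq a ha]

end

lemma rcomparison_iff (A : Type) [CStarAlgebra A] (r : ℝ≥0) :
    RComparison A r ↔ HasComparison A r := by
  constructor
  · intro h n a b ha hb hr
    refine h n a b ha hb fun τ => ?_
    rw [τ.dimFn_eq a ha, τ.dimFn_eq b hb]
    exact hr τ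
  · intro h n a b ha hb hr
    refine h n a b ha hb fun τ => ?_
    rw [← τ.dimFn_eq a ha, ← τ.dimFn_eq b hb]
    exact hr τ

lemma radComp_eq (A : Type) [CStarAlgebra A] : radComp A = rc A := by
  unfold radComp rc
  simp only [rcomparison_iff]

end Run7.h745
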