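import Pool.Agent.Run7.h745.Sys1

/-!
# Piece SYS1, part 2: the space
-/

set_option autoImplicit false
set_option linter.unusedSectionVars false

noncomputable section

namespace Run7.h745

namespace Sys1

open Filter Topology

/-! ### Blocks -/

open Classical in
/-- the level `m` block with type `s` and content `w` -/
def blk (m : ℕ) (s : Bool) (w : ℕ → QQ) (i : ℕ) : Bool × QQ :=
  if i ∈ free m then (s, w i) else fr m i

lemma blk_free {m : ℕ} {s : Bool} {w : ℕ → QQ} {i : ℕ} (h : i ∈ free m) :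
    blk m s w i = (s, w i) := by simp [blk, h]

lemma blk_frozen {m : ℕ} {s : Bool} {w : ℕ → QQ} {i : ℕ} (h : i ∉ free m) :
    blk m s w i = fr m i := by simp [blk, h]

/-- admissible contents -/
def Val (m : ℕ) (s : Bool) (w : ℕ → QQ) : Prop := ∀ i ∈ free m, w i ∈ QS s

lemma frozen_idx {n j : ℕ} (hj : j < q n) :
    (j - f n) / 2 < k n := by
  have hk := k_pos n
  unfold q at hj
  omega

lemma C_val {n j : ℕ} (hj : j < q n) :
    Val n (sty n j) (C n ((j - f n) / 2)).2 := fun i hi =>
  (net_spec n (free n)).2.1 _ (frozen_idx hj) i hi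

lemma div_mod_aux {n j i : ℕ} (hi : i < h n) :
    (j * h n + i) / h n = j ∧ (j * h n + i) % h n = i := by
  constructor
  · rw [add_comm, Nat.add_mul_div_right _ _ (h_pos n), Nat.div_eq_of_lt hi, zero_add]
  · rw [add_comm, Nat.add_mul_mod_self_right, Nat.mod_eq_of_lt hi]

lemma free_succ' {n j i : ℕ} (hi : i < h n) :
    j * h n + i ∈ free (n + 1) ↔ j ∈ Finset.Icc 1 (f n) ∧ i ∈ free n := by
  rw [free_succ, (div_mod_aux hi).1, (div_mod_aux hi).2]

lemma fr_succ' {n j i : ℕ} (hi : i < h n) :
    fr (n + 1) (j * h n + i) = blk n (sty n j) (C n ((j - f n) / 2)).2 i := by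
  rw [fr_succ, (div_mod_aux hi).1, (div_mod_aux hi).2]
  rfl

/-- sub-blocks of a block of the next level -/
lemma blk_sub (n : ℕ) (s : Bool) (w : ℕ → QQ) (hw : Val (n + 1) s w) (j : ℕ) (hj : j < q n) :
    ∃ s' w', Val n s' w' ∧ ∀ i < h n, blk (n + 1) s w (j * h n + i) = blk n s' w' i := by
  by_cases hf : j ∈ Finset.Icc 1 (f n)
  · refine ⟨s, fun i => w (j * h n + i), fun i hi => hw _ ?_, fun i hi => ?_⟩
    · rw [free_succ' (free_lt n i hi)]; exact ⟨hf, hi⟩
    · by_cases h1 : i ∈ free n
      · rw [blk_free h1, blk_free ((free_succ' hi).mpr ⟨hf, h1⟩)]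
      · have h2 : j * h n + i ∉ free (n + 1) := by
          rw [free_succ' hi]; exact fun h => h1 h.2
        rw [blk_frozen h2, fr_succ' hi, blk_frozen h1, blk_frozen h1]
  · refine ⟨sty n j, (C n ((j - f n) / 2)).2, C_val hj, fun i hi => ?_⟩
    have h2 : j * h n + i ∉ free (n + 1) := by
      rw [free_succ' hi]; exact fun h => hf h.1
    rw [blk_frozen h2, fr_succ' hi]

/-- sub-blocks of lower levels -/
lemma blk_sub' {l m : ℕ} (hlm : l ≤ m) : ∀ (s : Bool) (w : ℕ → QQ), Val m s w → ∀ a : ℕ,
    (a + 1) * h l ≤ h m →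
    ∃ s' w', Val l s' w' ∧ ∀ i < h l, blk m s w (a * h l + i) = blk l s' w' i := by
  induction m, hlm using Nat.le_induction with
  | base =>
    intro s w hw a ha
    have h1 := h_pos l
    have h2 : a = 0 := by
      by_contra hc
      have : 2 * h l ≤ (a + 1) * h l := Nat.mul_le_mul_right _ (by omega)
      omega
    subst h2
    exact ⟨s, w, hw, fun i _ => by rw [zero_mul, zero_add]⟩
  | succ m hm ih =>
    intro s w hw a ha
    obtain ⟨r, hr⟩ := h_dvd hm
    have hl := h_pos l
    have hmpos := h_pos m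
    have hr0 : 0 < r := by
      rcases Nat.eq_zero_or_pos r with h0 | h0
      · rw [h0] at hr; omega
      · exact h0
    have hj : a / r < q m := by
      have h1 : (a + 1) * h l ≤ q m * (h l * r) := by rw [← hr, ← h_succ]; exact ha
      have h2 : a + 1 ≤ q m * r := by
        have : (a + 1) * h l ≤ (q m * r) * h l := by nlinarith
        exact Nat.le_of_mul_le_mul_right this hl
      exact (Nat.div_lt_iff_lt_mul hr0).mpr (by omega)
    obtain ⟨s1, w1, hw1, h1⟩ := blk_sub m s w hw (a / r) hj
    have ha' : (a % r + 1) * h l ≤ h m := by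
      rw [hr, mul_comm (h l) r]
      exact Nat.mul_le_mul_right _ (Nat.mod_lt a hr0)
    obtain ⟨s2, w2, hw2, h2⟩ := ih s1 w1 hw1 (a % r) ha'
    refine ⟨s2, w2, hw2, fun i hi => ?_⟩
    rw [← h2 i hi]
    have h3 : a % r * h l + i < h m := by nlinarith
    rw [← h1 _ h3]
    congr 1
    have h4 : a = a / r * r + a % r := (Nat.div_add_mod' a r).symm
    calc a * h l + i = (a / r * r + a % r) * h l + i := by rw [← h4]
      _ = a / r * (h l * r) + (a % r * h l + i) := by ring
      _ = _ := by rw [← hr]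

lemma fr_val (m : ℕ) : ∀ i < h m, i ∉ free m → (fr m i).2 ∈ QS (fr m i).1 := by
  induction m with
  | zero =>
    intro i hi hi'
    rw [h_zero] at hi
    rw [free_zero, Finset.mem_singleton] at hi'
    omega
  | succ n ih =>
    intro i hi hi'
    have h1 := h_pos n
    have h2 : i = i / h n * h n + i % h n := (Nat.div_add_mod' i (h n)).symm
    have h3 : i % h n < h n := Nat.mod_lt i h1
    have h4 : i / h n < q n := by
      rw [h_succ] at hi
      exact (Nat.div_lt_iff_lt_mul h1).mpr hi
    rw [h2, fr_succ' h3]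
    rw [h2, free_succ' h3] at hi'
    by_cases h5 : i % h n ∈ free n
    · rw [blk_free h5]
      exact C_val h4 _ h5
    · rw [blk_frozen h5]
      exact ih _ h3 h5

lemma blk_val {m : ℕ} {s : Bool} {w : ℕ → QQ} (hw : Val m s w) {i : ℕ} (hi : i < h m) :
    (blk m s w i).2 ∈ QS (blk m s w i).1 := by
  by_cases h1 : i ∈ free m
  · rw [blk_free h1]; exact hw i h1
  · rw [blk_frozen h1]; exact fr_val m i hi h1

/-- a free position at level `m` shows a whole free block of level `n` -/
lemma free_block {n m : ℕ} (hnm : n ≤ m) : ∀ i₀ ∈ free m, ∀ i ∈ free n,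
    (i₀ / h n) * h n + i ∈ free m := by
  induction m, hnm using Nat.le_induction with
  | base =>
    intro i₀ hi₀ i hi
    rw [Nat.div_eq_of_lt (free_lt n i₀ hi₀), zero_mul, zero_add]; exact hi
  | succ m hm ih =>
    intro i₀ hi₀ i hi
    have h1 := (free_succ m i₀).mp hi₀
    have h2 := ih _ h1.2 i hi
    obtain ⟨r, hr⟩ := h_dvd hm
    have hn := h_pos n
    have h3 : i₀ / h n * h n + i = (i₀ / h m) * h m + ((i₀ % h m) / h n * h n + i) := by
      have h4 : i₀ / h n = (i₀ / h m) * r + (i₀ % h m) / h n := by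
        conv_lhs => rw [← Nat.div_add_mod' i₀ (h m)]
        rw [hr]
        have : i₀ / (h n * r) * (h n * r) + i₀ % (h n * r) =
          i₀ % (h n * r) + (i₀ / (h n * r) * r) * h n := by ring
        rw [this, Nat.add_mul_div_right _ _ hn, add_comm]
      have key : ∀ J : ℕ, J * r * h n = J * h m := fun J => by rw [hr]; ring
      have h5 := key (i₀ / h m)
      rw [h4, add_mul, h5]
      ring
    rw [h3, free_succ' (free_lt m _ h2)]
    exact ⟨h1.1, h2⟩

/-! ### The space -/

/-- letters with marks of the beginnings of blocks -/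
abbrev Alph : Type := (ℕ → Bool) × (Bool × QQ)

/-- bi-infinite words -/
abbrev Pt : Type := ℤ → Alph

/-- conditions at level `n` -/
structure Good (n : ℕ) (x : Pt) : Prop where
  ex : ∀ k : ℤ, ∃ i ∈ Finset.range (h n), (x (k - (i : ℕ))).1 n = true
  uniq : ∀ k : ℤ, ∀ i ∈ Finset.range (h n), ∀ j ∈ Finset.range (h n), i ≠ j →
    (x (k - (i : ℕ))).1 n = true → (x (k - (j : ℕ))).1 n = false
  ret : ∀ k : ℤ, (x k).1 n = true → (x (k + h n)).1 n = true
  dec : ∀ k : ℤ, (x k).1 (n + 1) = true → (x k).1 n = true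
  val : ∀ k : ℤ, (x k).2.2 ∈ QS (x k).2.1
  fro : ∀ k : ℤ, (x k).1 n = true → ∀ i ∈ Finset.range (h n), i ∉ free n →
    (x (k + (i : ℕ))).2 = fr n i
  typ : ∀ k : ℤ, (x k).1 n = true → ∀ i ∈ free n, ∀ j ∈ free n,
    (x (k + (i : ℕ))).2.1 = (x (k + (j : ℕ))).2.1

lemma cont_mark (k : ℤ) (n : ℕ) : Continuous fun x : Pt => (x k).1 n :=
  (continuous_apply n).comp (continuous_fst.comp (continuous_apply k))

lemma cont_let (k : ℤ) : Continuous fun x : Pt => (x k).2 :=
  continuous_snd.comp (continuous_apply k)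

lemma clopen_mark (k : ℤ) (n : ℕ) (b : Bool) : IsClopen {x : Pt | (x k).1 n = b} :=
  (isClopen_discrete {b}).preimage (cont_mark k n)

lemma isClosed_good (n : ℕ) : IsClosed {x : Pt | Good n x} := by
  have h : {x : Pt | Good n x} =
      (⋂ k : ℤ, ⋃ i ∈ Finset.range (h n), {x : Pt | (x (k - (i : ℕ))).1 n = true}) ∩
      ((⋂ k : ℤ, ⋂ i ∈ Finset.range (h n), ⋂ j ∈ Finset.range (h n), ⋂ (_ : i ≠ j),
        {x : Pt | (x (k - (i : ℕ))).1 n = true → (x (k - (j : ℕ))).1 n = false}) ∩
      ((⋂ k : ℤ, {x : Pt | (x k).1 n = true → (x (k + h n)).1 n = true}) ∩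
      ((⋂ k : ℤ, {x : Pt | (x k).1 (n + 1) = true → (x k).1 n = true}) ∩
      ((⋂ k : ℤ, {x : Pt | (x k).2.2 ∈ QS (x k).2.1}) ∩
      ((⋂ k : ℤ, ⋂ i ∈ Finset.range (h n), ⋂ (_ : i ∉ free n),
        {x : Pt | (x k).1 n = true → (x (k + (i : ℕ))).2 = fr n i}) ∩
      (⋂ k : ℤ, ⋂ i ∈ free n, ⋂ j ∈ free n,
        {x : Pt | (x k).1 n = true → (x (k + (i : ℕ))).2.1 = (x (k + (j : ℕ))).2.1})))))) := by
    ext x
    simp only [Set.mem_inter_iff, Set.mem_iInter, Set.mem_iUnion, Set.mem_ofPred_eq]
    constructor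
    · intro hx
      refine ⟨fun k => ?_, fun k i hi j hj hij hm => hx.uniq k i hi j hj hij hm, hx.ret, hx.dec,
        hx.val, fun k i hi hi' hm => hx.fro k hm i hi hi', fun k i hi j hj hm =>
          hx.typ k hm i hi j hj⟩
      obtain ⟨i, hi, hi'⟩ := hx.ex k
      exact ⟨i, hi, hi'⟩
    · rintro ⟨h1, h2, h3, h4, h5, h6, h7⟩
      refine ⟨fun k => ?_, fun k i hi j hj hij hm => h2 k i hi j hj hij hm, h3, h4, h5,
        fun k hm i hi hi' => h6 k i hi hi' hm, fun k hm i hi j hj => h7 k i hi j hj hm⟩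
      obtain ⟨i, hi, hi'⟩ := h1 k
      exact ⟨i, hi, hi'⟩
  rw [h]
  refine IsClosed.inter ?_ (IsClosed.inter ?_ (IsClosed.inter ?_ (IsClosed.inter ?_
    (IsClosed.inter ?_ (IsClosed.inter ?_ ?_)))))
  · exact isClosed_iInter fun k => isClosed_biUnion_finset fun i _ => (clopen_mark _ _ _).isClosed
  · exact isClosed_iInter fun k => isClosed_iInter fun i => isClosed_iInter fun _ =>
      isClosed_iInter fun j => isClosed_iInter fun _ => isClosed_iInter fun _ =>
        isClosed_imp (clopen_mark _ _ _).isOpen (clopen_mark _ _ _).isClosed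
  · exact isClosed_iInter fun k => isClosed_imp (clopen_mark _ _ _).isOpen
      (clopen_mark _ _ _).isClosed
  · exact isClosed_iInter fun k => isClosed_imp (clopen_mark _ _ _).isOpen
      (clopen_mark _ _ _).isClosed
  · refine isClosed_iInter fun k => ?_
    have h1 : {x : Pt | (x k).2.2 ∈ QS (x k).2.1} =
        {x : Pt | (x k).2.1 = false → (x k).2.2 ∈ QS false} := by
      ext x
      simp only [Set.mem_ofPred_eq]
      rcases hb : (x k).2.1 with _ | _
      · simp
      · simp [QS]
    rw [h1]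
    refine isClosed_imp ?_ ?_
    · exact ((isClopen_discrete {false}).preimage (continuous_fst.comp (cont_let k))).isOpen
    · exact (isClosed_QS false).preimage (continuous_snd.comp (cont_let k))
  · exact isClosed_iInter fun k => isClosed_iInter fun i => isClosed_iInter fun _ =>
      isClosed_iInter fun _ => isClosed_imp (clopen_mark _ _ _).isOpen
        (isClosed_eq (cont_let _) continuous_const)
  · exact isClosed_iInter fun k => isClosed_iInter fun i => isClosed_iInter fun _ =>
      isClosed_iInter fun j => isClosed_iInter fun _ => isClosed_imp (clopen_mark _ _ _).isOpen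
        (isClosed_eq (continuous_fst.comp (cont_let _)) (continuous_fst.comp (cont_let _)))

/-- the set of points -/
def XS : Set Pt := {x | ∀ n, Good n x}

lemma isClosed_XS : IsClosed XS := by
  have h : XS = ⋂ n, {x : Pt | Good n x} := by ext x; simp [XS]
  rw [h]; exact isClosed_iInter isClosed_good

/-- the space -/
abbrev XX : Type := ↥XS

instance : CompactSpace Pt := inferInstance

instance : CompactSpace XX := isCompact_iff_compactSpace.mp isClosed_XS.isCompact

instance : T2Space XX := inferInstance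

instance : SecondCountableTopology XX := inferInstance

/-- the shift on all words -/
def shP : Pt ≃ₜ Pt where
  toFun x k := x (k + 1)
  invFun x k := x (k - 1)
  left_inv x := by ext1 k; simp
  right_inv x := by ext1 k; simp
  continuous_toFun := continuous_pi fun k => continuous_apply (k + 1)
  continuous_invFun := continuous_pi fun k => continuous_apply (k - 1)

lemma good_sh (n : ℕ) (x : Pt) (l : ℤ) (hx : Good n x) : Good n fun k => x (k + l) where
  ex k := by
    obtain ⟨i, hi, h⟩ := hx.ex (k + l)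
    exact ⟨i, hi, by rw [← h]; ring_nf⟩
  uniq k i hi j hj hij h := by
    have h1 := hx.uniq (k + l) i hi j hj hij (by rw [← h]; ring_nf)
    rw [← h1]; ring_nf
  ret k h := by
    have h1 := hx.ret (k + l) h
    rw [← h1]; ring_nf
  dec k h := hx.dec (k + l) h
  val k := hx.val (k + l)
  fro k h i hi hi' := by
    have h1 := hx.fro (k + l) h i hi hi'
    rw [← h1]; ring_nf
  typ k h i hi j hj := by
    have h1 := hx.typ (k + l) h i hi j hj
    have e1 : k + (i : ℤ) + l = k + l + i := by ring
    have e2 : k + (j : ℤ) + l = k + l + j := by ring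
    rw [e1, e2]; exact h1

/-- the shift -/
def TT : XX ≃ₜ XX := shP.subtype (fun x => by
  constructor
  · intro hx n
    exact good_sh n x 1 (hx n)
  · intro hx n
    have h1 := good_sh n (shP x) (-1) (hx n)
    have h2 : (fun k => (shP x) (k + -1)) = x := by
      ext1 k; simp [shP]
    rwa [h2] at h1)

lemma TT_apply (x : XX) (k : ℤ) : (TT x).1 k = x.1 (k + 1) := rfl

lemma TT_zpow (x : XX) (l k : ℤ) : ((TT ^ l : XX ≃ₜ XX) x).1 k = x.1 (k + l) := by
  induction l using Int.induction_on generalizing k with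
  | zero => rw [zp_zero, add_zero]
  | succ l ih =>
    rw [add_comm, zp_add, zp_one, TT_apply, ih]
    ring_nf
  | pred l ih =>
    have h1 : (TT ^ (-(l : ℤ)) : XX ≃ₜ XX) x = TT ((TT ^ (-(l : ℤ) - 1) : XX ≃ₜ XX) x) := by
      rw [← zp_one TT, ← zp_add]; congr 2; ring
    have h2 := ih (k - 1)
    rw [h1, TT_apply, sub_add_cancel] at h2
    rw [h2]; ring_nf

end Sys1

end Run7.h745
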