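import Pool.Agent.Run7.h745.MatTr
import Pool.Agent.Run7.h745.CPc

/-!
# Traces concentrated on one type of blocks
-/

set_option autoImplicit false
set_option linter.unusedSectionVars false

noncomputable section

namespace Run7.h745

open Filter Topology Matrix Pool.Agent.TH249
open scoped InnerProductSpace

section basic
variable {X : Type} [TopologicalSpace X] [CompactSpace X] {T : X ≃ₜ X} (D : TowerData X T)
  {A : Type} [CStarAlgebra A] {ι : C(X, ℂ) →⋆ₐ[ℂ] A} {u : unitary A}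

lemma tr_conj (τ : TracialState A) (n : ℤ) (a : A) :
    τ.val (up u n * a * up u (-n)) = τ.val a := by
  rw [τ.comm, ← mul_assoc, up_neg_mul_up, one_mul]

lemma tr_cT (hc : Covariant T ι u) (τ : TracialState A) (n : ℤ) (f : C(X, ℂ)) :
    τ.val (ι (cT T n f)) = τ.val (ι f) := by
  have h := cov_conj hc (-n) f
  rw [neg_neg] at h
  rw [← h]
  have h2 := tr_conj (u := u) τ (-n) (ι f)
  rwa [neg_neg] at h2

lemma tr_V (hc : Covariant T ι u) (τ : TracialState A) (n : ℕ) :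
    τ.val (ι (ind (D.V n))) = ((D.h n : ℂ))⁻¹ := by
  have h := D.sum_eu (ι := ι) (u := u) hc n
  have h1 := congrArg τ.val h
  rw [map_sum, τ.map_one] at h1
  have h2 : ∀ i ∈ Finset.range (D.h n), τ.val (D.eu ι u n 1 i i) = τ.val (ι (ind (D.V n))) := by
    intro i _
    unfold TowerData.eu
    rw [mul_one, tr_conj]
  rw [Finset.sum_congr rfl h2, Finset.sum_const, Finset.card_range, nsmul_eq_mul] at h1
  have h3 : (D.h n : ℂ) ≠ 0 := by exact_mod_cast (D.h_pos n).ne'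
  exact eq_inv_of_mul_eq_one_right h1

lemma tr_VT_add (hc : Covariant T ι u) (τ : TracialState A) (n : ℕ) :
    (τ.val (ι (ind (D.VT n false)))).re + (τ.val (ι (ind (D.VT n true)))).re =
      ((D.h n : ℝ))⁻¹ := by
  rw [← Complex.add_re, ← map_add, ← map_add, ← ind_union (D.isClopen_VT n false)
    (D.isClopen_VT n true) (D.VT_disj n), D.VT_union, tr_V D hc]
  have : ((D.h n : ℂ))⁻¹ = (((D.h n : ℝ))⁻¹ : ℝ) := by push_cast; rfl
  rw [this, Complex.ofReal_re]

lemma tr_ind_nonneg (τ : TracialState A) {S : Set X} (hS : IsClopen S) :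
    0 ≤ (τ.val (ι (ind S))).re := by
  have h := (τ.nonneg (ι (ind S))).1
  rwa [← map_star, star_ind, ← map_mul, ind_mul_self hS] at h

lemma tr_fn_nonneg (τ : TracialState A) (f : C(X, ℂ)) (hf : ∀ x, 0 ≤ (f x).re ∧
    (f x).im = 0) : 0 ≤ (τ.val (ι f)).re := by
  let g : C(X, ℂ) := ⟨fun x => ((Real.sqrt (f x).re : ℝ) : ℂ),
    Complex.continuous_ofReal.comp (Real.continuous_sqrt.comp
      (Complex.continuous_re.comp f.continuous))⟩
  have h1 : f = star g * g := by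
    ext x
    show f x = star (g x) * g x
    rw [show g x = ((Real.sqrt (f x).re : ℝ) : ℂ) from rfl, Complex.star_def, Complex.conj_ofReal,
      ← Complex.ofReal_mul, Real.mul_self_sqrt (hf x).1]
    exact Complex.ext (by simp) (by simp [(hf x).2])
  rw [h1, map_mul, map_star]
  exact (τ.nonneg _).1

end basic

/-! ### Counting -/

section count
variable {X : Type} [TopologicalSpace X] {T : X ≃ₜ X} (D : TowerData X T)

lemma TowerData.card_free_le {k m : ℕ} (hk : k ≤ m) (s : Bool) (x : X) (hx : x ∈ D.VT m s)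
    [DecidablePred fun i : ℕ => (T ^ (i : ℤ) : X ≃ₜ X) x ∈ D.VT k s] :
    (D.free m).card ≤ (D.free k).card *
      ((Finset.range (D.h m)).filter fun i : ℕ => (T ^ (i : ℤ) : X ≃ₜ X) x ∈ D.VT k s).card := by
  classical
  have h1 : (D.free m).card ≤ (D.free k).card * ((D.free m).image fun i => i - i % D.h k).card := by
    refine Finset.card_le_mul_card_image _ _ fun a _ => ?_
    refine Finset.card_le_card_of_injOn (fun i => i % D.h k) ?_ ?_
    · intro i hi
      exact D.free_mod hk i (Finset.mem_filter.mp hi).1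
    · intro i hi j hj hij
      have hi' := (Finset.mem_filter.mp hi).2
      have hj' := (Finset.mem_filter.mp hj).2
      simp only at hij
      have h2 := Nat.mod_le i (D.h k)
      have h3 := Nat.mod_le j (D.h k)
      omega
  refine h1.trans (Nat.mul_le_mul_left _ (Finset.card_le_card ?_))
  intro a ha
  obtain ⟨i, hi, rfl⟩ := Finset.mem_image.mp ha
  have hi' := D.free_lt m i hi
  rw [Finset.mem_filter, Finset.mem_range]
  refine ⟨by omega, ?_⟩
  have h2 := Nat.mod_le i (D.h k)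
  have hV : (T ^ (((i - i % D.h k : ℕ)) : ℤ) : X ≃ₜ X) x ∈ D.V k := by
    rw [D.mem_V_iff k _ x (D.V_anti hk hx.1)]
    exact_mod_cast Nat.dvd_sub_mod i
  refine ⟨hV, fun p hp => ?_⟩
  have h3 := D.free_ty k _ hV p hp (i % D.h k) (D.free_mod hk i hi)
  rw [h3, ← zp_add]
  have h4 : ((i % D.h k : ℕ) : ℤ) + ((i - i % D.h k : ℕ) : ℤ) = (i : ℤ) := by omega
  rw [h4]
  exact hx.2 i hi

lemma TowerData.card_V_le {k m : ℕ} (hk : k ≤ m) (x : X) (hx : x ∈ D.V m)
    [DecidablePred fun i : ℕ => (T ^ (i : ℤ) : X ≃ₜ X) x ∈ D.V k] :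
    D.h k * ((Finset.range (D.h m)).filter fun i : ℕ => (T ^ (i : ℤ) : X ≃ₜ X) x ∈ D.V k).card ≤
      D.h m := by
  classical
  have h1 : ((Finset.range (D.h m)).filter fun i : ℕ => (T ^ (i : ℤ) : X ≃ₜ X) x ∈ D.V k) ⊆
      (Finset.range (D.h m / D.h k)).image fun j => D.h k * j := by
    intro i hi
    obtain ⟨h2, h3⟩ := Finset.mem_filter.mp hi
    rw [Finset.mem_range] at h2
    rw [D.mem_V_iff k _ x (D.V_anti hk hx)] at h3
    obtain ⟨j, hj⟩ := Int.natCast_dvd_natCast.mp h3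
    rw [Finset.mem_image]
    refine ⟨j, ?_, hj.symm⟩
    rw [Finset.mem_range, Nat.lt_div_iff_mul_lt' (D.h_dvd hk), ← hj]
    exact h2
  have h2 := (Finset.card_le_card h1).trans Finset.card_image_le
  rw [Finset.card_range] at h2
  calc _ ≤ D.h k * (D.h m / D.h k) := Nat.mul_le_mul_left _ h2
    _ = D.h m := Nat.mul_div_cancel' (D.h_dvd hk)

/-- the number of level `k` blocks of the other type -/
lemma TowerData.card_other {k m : ℕ} (hk : k ≤ m) (s : Bool) (x : X) (hx : x ∈ D.VT m s)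
    [DecidablePred fun i : ℕ => (T ^ (i : ℤ) : X ≃ₜ X) x ∈ D.VT k (!s)] :
    D.h k * ((D.free k).card * ((Finset.range (D.h m)).filter fun i : ℕ =>
      (T ^ (i : ℤ) : X ≃ₜ X) x ∈ D.VT k (!s)).card + (D.free m).card) ≤
        (D.free k).card * D.h m := by
  classical
  have h1 := D.card_free_le hk s x hx
  have h2 := D.card_V_le hk x hx.1
  have h3 : ((Finset.range (D.h m)).filter fun i : ℕ => (T ^ (i : ℤ) : X ≃ₜ X) x ∈ D.V k).card =
      ((Finset.range (D.h m)).filter fun i : ℕ => (T ^ (i : ℤ) : X ≃ₜ X) x ∈ D.VT k (!s)).card +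
      ((Finset.range (D.h m)).filter fun i : ℕ => (T ^ (i : ℤ) : X ≃ₜ X) x ∈ D.VT k s).card := by
    rw [← Finset.card_union_of_disjoint]
    · congr 1
      rw [← Finset.filter_or]
      refine Finset.filter_congr fun i _ => ?_
      rw [← D.VT_union k]
      cases s
      · exact Or.comm
      · exact Iff.rfl
    · rw [Finset.disjoint_filter]
      intro i _ h4 h5
      have h6 := D.VT_disj k
      rw [Set.disjoint_left] at h6
      cases s
      · exact h6 h5 h4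
      · exact h6 h4 h5
  rw [h3] at h2
  calc _ ≤ D.h k * ((D.free k).card * ((Finset.range (D.h m)).filter fun i : ℕ =>
      (T ^ (i : ℤ) : X ≃ₜ X) x ∈ D.VT k (!s)).card + (D.free k).card *
      ((Finset.range (D.h m)).filter fun i : ℕ => (T ^ (i : ℤ) : X ≃ₜ X) x ∈ D.VT k s).card) :=
        Nat.mul_le_mul_left _ (by omega)
    _ = (D.free k).card * (D.h k * (((Finset.range (D.h m)).filter fun i : ℕ =>
      (T ^ (i : ℤ) : X ≃ₜ X) x ∈ D.VT k (!s)).card +
      ((Finset.range (D.h m)).filter fun i : ℕ => (T ^ (i : ℤ) : X ≃ₜ X) x ∈ D.VT k s).card)) := by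
        ring
    _ ≤ _ := Nat.mul_le_mul_left _ h2

/-- density of the free positions at level `n` -/
def TowerData.dn (n : ℕ) : ℝ := ((D.free n).card : ℝ) / D.h n

lemma TowerData.dn_pos (n : ℕ) : 0 < D.dn n := by
  have h1 := D.h_pos n
  have h2 := Finset.card_pos.mpr (D.free_nonempty n)
  unfold TowerData.dn
  positivity

lemma TowerData.dn_anti : Antitone D.dn := by
  refine antitone_nat_of_succ_le fun n => ?_
  unfold TowerData.dn
  have h1 : (0 : ℝ) < D.h n := by exact_mod_cast D.h_pos n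
  have h2 : (0 : ℝ) < D.q n := by exact_mod_cast D.q_pos n
  rw [D.card_free_succ, D.h_succ]
  push_cast
  have h3 : ((D.fidx n).card : ℝ) ≤ D.q n := by
    have h4 : D.fidx n ⊆ Finset.range (D.q n) := by
      intro j hj
      have := (D.fidx_lt n j hj).2
      rw [Finset.mem_range]; omega
    have h5 := Finset.card_le_card h4
    rw [Finset.card_range] at h5
    exact_mod_cast h5
  rw [mul_div_mul_comm]
  have h4 : ((D.fidx n).card : ℝ) / D.q n ≤ 1 := (div_le_one h2).mpr h3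
  have h5 : 0 ≤ ((D.free n).card : ℝ) / D.h n := by positivity
  nlinarith

lemma TowerData.dn_ge (n : ℕ) : D.δ ≤ D.dn n := by
  unfold TowerData.dn
  have h1 : (0 : ℝ) < D.h n := by exact_mod_cast D.h_pos n
  rw [le_div_iff₀ h1]
  exact D.density n

/-- limit density -/
def TowerData.di : ℝ := ⨅ n, D.dn n

lemma TowerData.bdd : BddBelow (Set.range D.dn) := ⟨D.δ, by
  rintro _ ⟨n, rfl⟩; exact D.dn_ge n⟩

lemma TowerData.di_le (n : ℕ) : D.di ≤ D.dn n := ciInf_le D.bdd n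

lemma TowerData.di_ge : D.δ ≤ D.di := le_ciInf D.dn_ge

lemma TowerData.di_pos : 0 < D.di := D.δ_pos.trans_le D.di_ge

lemma TowerData.dn_tendsto : Tendsto D.dn atTop (𝓝 D.di) := tendsto_atTop_ciInf D.dn_anti D.bdd

/-- `1 - δ_∞ / δ_n`, which converges to `0` -/
def TowerData.ep (n : ℕ) : ℝ := 1 - D.di / D.dn n

lemma TowerData.ep_tendsto : Tendsto D.ep atTop (𝓝 0) := by
  have h1 := (tendsto_const_nhds (x := D.di)).div D.dn_tendsto D.di_pos.ne'
  rw [div_self D.di_pos.ne'] at h1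
  have h2 := (tendsto_const_nhds (x := (1 : ℝ))).sub h1
  rwa [sub_self] at h2

end count

/-! ### The traces -/

section trace
variable {X : Type} [TopologicalSpace X] [CompactSpace X] [T2Space X] {T : X ≃ₜ X}
  (D : TowerData X T) {A : Type} [CStarAlgebra A] {ι : C(X, ℂ) →⋆ₐ[ℂ] A} {u : unitary A}
  {π : X → (A →⋆ₐ[ℂ] (HH →L[ℂ] HH))}

lemma IsCrossedProduct.ext {B : Type} [CStarAlgebra B] (h : IsCrossedProduct T ι u)
    (φ ψ : A →⋆ₐ[ℂ] B) (h1 : ∀ f, φ (ι f) = ψ (ι f)) (h2 : φ (u : A) = ψ (u : A)) : φ = ψ := by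
  have hv : φ (u : A) ∈ unitary B := by
    rw [Unitary.mem_iff, ← map_star, ← map_mul, ← map_mul, (Unitary.mem_iff.mp u.2).1,
      (Unitary.mem_iff.mp u.2).2, map_one]
    exact ⟨rfl, rfl⟩
  have hcov : Covariant T (φ.comp ι) ⟨φ (u : A), hv⟩ := by
    intro f
    show φ (u : A) * φ (ι f) * star (φ (u : A)) = φ (ι (pull T f))
    rw [← map_star, ← map_mul, ← map_mul, h.cov f]
  obtain ⟨χ, -, hχ⟩ := h.univ B (φ.comp ι) ⟨φ (u : A), hv⟩ hcov
  exact (hχ φ ⟨fun _ => rfl, rfl⟩).trans (hχ ψ ⟨fun f => (h1 f).symm, h2.symm⟩).symm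

lemma IsOrbitRep.coef_fn {x : X} {P : A →⋆ₐ[ℂ] (HH →L[ℂ] HH)} (h : IsOrbitRep T ι u x P)
    (f : C(X, ℂ)) (i : ℤ) : ⟪dl i, P (ι f) (dl i)⟫_ℂ = f ((T ^ i : X ≃ₜ X) x) := by
  rw [h.fn, inner_smul_right, dl_dl, if_pos rfl, mul_one]

/-- covariance of the orbit representations -/
lemma IsOrbitFamily.shift (hA : IsCrossedProduct T ι u) (hπ : IsOrbitFamily T ι u π) (x : X)
    (n : ℤ) (a : A) : π x a = ((Sh ^ n : unitary (HH →L[ℂ] HH)) : HH →L[ℂ] HH) *
      π ((T ^ n : X ≃ₜ X) x) a * star ((Sh ^ n : unitary (HH →L[ℂ] HH)) : HH →L[ℂ] HH) := by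
  have hs : ∀ (n : ℤ) (i : ℤ), ((Sh ^ n : unitary (HH →L[ℂ] HH)) : HH →L[ℂ] HH) (dl i) =
      dl (i + n) := by
    intro n
    induction n using Int.induction_on with
    | zero => intro i; simp
    | succ n ih =>
      intro i
      rw [_root_.zpow_add_one, Submonoid.coe_mul]
      show ((Sh ^ (n : ℤ) : unitary (HH →L[ℂ] HH)) : HH →L[ℂ] HH) ((Sh : HH →L[ℂ] HH) (dl i)) = _
      rw [Sh_dl, ih]
      congr 1; ring
    | pred n ih =>
      intro i
      rw [_root_.zpow_sub_one, Submonoid.coe_mul]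
      show ((Sh ^ (-(n : ℤ)) : unitary (HH →L[ℂ] HH)) : HH →L[ℂ] HH)
        (((Sh⁻¹ : unitary (HH →L[ℂ] HH)) : HH →L[ℂ] HH) (dl i)) = _
      have h1 : ((Sh⁻¹ : unitary (HH →L[ℂ] HH)) : HH →L[ℂ] HH) = star (Sh : HH →L[ℂ] HH) := rfl
      rw [h1, Sh_star_dl, ih]
      congr 1; ring
  have hs' : ∀ (i : ℤ), (star ((Sh ^ n : unitary (HH →L[ℂ] HH)) : HH →L[ℂ] HH)) (dl i) =
      dl (i - n) := by
    intro i
    have h1 : star ((Sh ^ n : unitary (HH →L[ℂ] HH)) : HH →L[ℂ] HH) =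
        ((Sh ^ (-n) : unitary (HH →L[ℂ] HH)) : HH →L[ℂ] HH) := by
      rw [_root_.zpow_neg]; rfl
    rw [h1, hs]
    rfl
  have hm : ∀ S S' : HH →L[ℂ] HH, ((Sh ^ n : unitary (HH →L[ℂ] HH)) : HH →L[ℂ] HH) *
      (S * S') * star ((Sh ^ n : unitary (HH →L[ℂ] HH)) : HH →L[ℂ] HH) =
      (((Sh ^ n : unitary (HH →L[ℂ] HH)) : HH →L[ℂ] HH) * S *
        star ((Sh ^ n : unitary (HH →L[ℂ] HH)) : HH →L[ℂ] HH)) *
      (((Sh ^ n : unitary (HH →L[ℂ] HH)) : HH →L[ℂ] HH) * S' *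
        star ((Sh ^ n : unitary (HH →L[ℂ] HH)) : HH →L[ℂ] HH)) := by
    intro S S'
    calc ((Sh ^ n : unitary (HH →L[ℂ] HH)) : HH →L[ℂ] HH) *
      (S * S') * star ((Sh ^ n : unitary (HH →L[ℂ] HH)) : HH →L[ℂ] HH)
        = ((Sh ^ n : unitary (HH →L[ℂ] HH)) : HH →L[ℂ] HH) * S * 1 * S' *
          star ((Sh ^ n : unitary (HH →L[ℂ] HH)) : HH →L[ℂ] HH) := by noncomm_ring
      _ = _ := by
        rw [← (Unitary.mem_iff.mp (Sh ^ n : unitary (HH →L[ℂ] HH)).2).1]
        noncomm_ring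
  let φ : A →⋆ₐ[ℂ] (HH →L[ℂ] HH) :=
    { toFun := fun a => ((Sh ^ n : unitary (HH →L[ℂ] HH)) : HH →L[ℂ] HH) *
        π ((T ^ n : X ≃ₜ X) x) a * star ((Sh ^ n : unitary (HH →L[ℂ] HH)) : HH →L[ℂ] HH)
      map_one' := by
        rw [map_one, mul_one, (Unitary.mem_iff.mp (Sh ^ n : unitary (HH →L[ℂ] HH)).2).2]
      map_mul' := fun a b => by rw [map_mul, hm]
      map_zero' := by rw [map_zero, mul_zero, zero_mul]
      map_add' := fun a b => by rw [map_add, mul_add, add_mul]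
      commutes' := fun c => by
        rw [Algebra.algebraMap_eq_smul_one, map_smul, map_one, mul_smul_comm, smul_mul_assoc,
          mul_one, (Unitary.mem_iff.mp (Sh ^ n : unitary (HH →L[ℂ] HH)).2).2,
          Algebra.algebraMap_eq_smul_one]
      map_star' := fun a => by
        rw [map_star, star_mul, star_mul, star_star, mul_assoc] }
  have hφ : ∀ a, φ a = ((Sh ^ n : unitary (HH →L[ℂ] HH)) : HH →L[ℂ] HH) *
        π ((T ^ n : X ≃ₜ X) x) a * star ((Sh ^ n : unitary (HH →L[ℂ] HH)) : HH →L[ℂ] HH) :=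
    fun _ => rfl
  have h1 : π x = φ := by
    refine hA.ext _ _ ?_ ?_
    · intro f
      apply HH_ext
      intro i
      rw [(hπ.rep x).fn, hφ]
      show _ = ((Sh ^ n : unitary (HH →L[ℂ] HH)) : HH →L[ℂ] HH) (π ((T ^ n : X ≃ₜ X) x) (ι f)
        (star ((Sh ^ n : unitary (HH →L[ℂ] HH)) : HH →L[ℂ] HH) (dl i)))
      rw [hs', (hπ.rep _).fn, map_smul, hs, ← zp_add]
      congr 3 <;> ring_nf
    · apply HH_ext
      intro i
      rw [(hπ.rep x).sh, hφ]
      show _ = ((Sh ^ n : unitary (HH →L[ℂ] HH)) : HH →L[ℂ] HH) (π ((T ^ n : X ≃ₜ X) x) (u : A)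
        (star ((Sh ^ n : unitary (HH →L[ℂ] HH)) : HH →L[ℂ] HH) (dl i)))
      rw [hs', (hπ.rep _).sh, hs]
      congr 1; ring
  rw [h1]
  exact hφ a

lemma IsOrbitFamily.coef_shift (hA : IsCrossedProduct T ι u) (hπ : IsOrbitFamily T ι u π) (x : X)
    (n : ℤ) (a : A) : ⟪dl n, π x a (dl n)⟫_ℂ =
      ⟪dl 0, π ((T ^ n : X ≃ₜ X) x) a (dl 0)⟫_ℂ := by
  have hs' : ∀ (n : ℤ) (i : ℤ), (((Sh ^ n : unitary (HH →L[ℂ] HH)) : HH →L[ℂ] HH)) (dl i) =
      dl (i + n) := by
    intro n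
    induction n using Int.induction_on with
    | zero => intro i; simp
    | succ n ih =>
      intro i
      rw [_root_.zpow_add_one, Submonoid.coe_mul]
      show ((Sh ^ (n : ℤ) : unitary (HH →L[ℂ] HH)) : HH →L[ℂ] HH) ((Sh : HH →L[ℂ] HH) (dl i)) = _
      rw [Sh_dl, ih]
      congr 1; ring
    | pred n ih =>
      intro i
      rw [_root_.zpow_sub_one, Submonoid.coe_mul]
      show ((Sh ^ (-(n : ℤ)) : unitary (HH →L[ℂ] HH)) : HH →L[ℂ] HH)
        (((Sh⁻¹ : unitary (HH →L[ℂ] HH)) : HH →L[ℂ] HH) (dl i)) = _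
      have h1 : ((Sh⁻¹ : unitary (HH →L[ℂ] HH)) : HH →L[ℂ] HH) = star (Sh : HH →L[ℂ] HH) := rfl
      rw [h1, Sh_star_dl, ih]
      congr 1; ring
  have h1 : star ((Sh ^ n : unitary (HH →L[ℂ] HH)) : HH →L[ℂ] HH) =
      ((Sh ^ (-n) : unitary (HH →L[ℂ] HH)) : HH →L[ℂ] HH) := by
    rw [_root_.zpow_neg]; rfl
  rw [hπ.shift hA x n a]
  show ⟪dl n, ((Sh ^ n : unitary (HH →L[ℂ] HH)) : HH →L[ℂ] HH) (π ((T ^ n : X ≃ₜ X) x) a
    (star ((Sh ^ n : unitary (HH →L[ℂ] HH)) : HH →L[ℂ] HH) (dl n)))⟫_ℂ = _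
  rw [← ContinuousLinearMap.adjoint_inner_left]
  have h2 : ContinuousLinearMap.adjoint ((Sh ^ n : unitary (HH →L[ℂ] HH)) : HH →L[ℂ] HH) =
    star ((Sh ^ n : unitary (HH →L[ℂ] HH)) : HH →L[ℂ] HH) := rfl
  rw [h2, h1, hs', add_neg_cancel]

/-- strict positivity of average traces -/
lemma av_pos (hmin : IsMinimalHomeo T) (hA : IsCrossedProduct T ι u) (hπ : IsOrbitFamily T ι u π)
    (F : Ultrafilter ℕ) (N : ℕ → ℕ) (x : ℕ → X) (τ : TracialState A)
    (hτ : ∀ a : A, Tendsto (fun k =>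
        ((N k : ℂ))⁻¹ * ∑ i ∈ Finset.range (N k), ⟪dl i, π (x k) a (dl i)⟫_ℂ) F (𝓝 (τ.val a)))
    (a : A) (ha : a ≠ 0) : 0 < (τ.val (star a * a)).re := by
  let f : C(X, ℂ) := ⟨fun y => ⟪dl 0, π y (star a * a) (dl 0)⟫_ℂ, hπ.cont _ _ _⟩
  have hf : ∀ y, f y = ((‖π y a (dl 0)‖ ^ 2 : ℝ) : ℂ) := by
    intro y
    show ⟪dl 0, π y (star a * a) (dl 0)⟫_ℂ = _
    rw [map_mul, map_star]
    show ⟪dl 0, ContinuousLinearMap.adjoint (π y a) (π y a (dl 0))⟫_ℂ = _
    rw [ContinuousLinearMap.adjoint_inner_right, inner_self_eq_norm_sq_to_K]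
    norm_cast
  -- the two values agree
  have h1 : τ.val (star a * a) = τ.val (ι f) := by
    refine tendsto_nhds_unique (hτ _) ?_
    refine (hτ (ι f)).congr fun k => ?_
    congr 1
    refine Finset.sum_congr rfl fun i _ => ?_
    rw [(hπ.rep (x k)).coef_fn, hπ.coef_shift hA]
    rfl
  -- a point where f does not vanish
  have h2 : ∃ y, 0 < ‖π y a (dl 0)‖ ^ 2 := by
    by_contra hcon
    push Not at hcon
    apply ha
    apply hπ.faithful
    intro y
    apply HH_ext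
    intro i
    have h3 := hπ.coef_shift hA y i (star a * a)
    have h4 : ⟪dl i, π y (star a * a) (dl i)⟫_ℂ = ((‖π y a (dl i)‖ ^ 2 : ℝ) : ℂ) := by
      rw [map_mul, map_star]
      show ⟪dl i, ContinuousLinearMap.adjoint (π y a) (π y a (dl i))⟫_ℂ = _
      rw [ContinuousLinearMap.adjoint_inner_right, inner_self_eq_norm_sq_to_K]
      norm_cast
    have h5 := hf ((T ^ i : X ≃ₜ X) y)
    have h6 : f ((T ^ i : X ≃ₜ X) y) = ⟪dl 0, π ((T ^ i : X ≃ₜ X) y) (star a * a) (dl 0)⟫_ℂ := rfl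
    rw [h4, ← h6, h5] at h3
    have h7 : ‖π y a (dl i)‖ ^ 2 = ‖π ((T ^ i : X ≃ₜ X) y) a (dl 0)‖ ^ 2 := by exact_mod_cast h3
    have h8 := hcon ((T ^ i : X ≃ₜ X) y)
    rw [← h7] at h8
    have h9 : ‖π y a (dl i)‖ = 0 := by
      have := sq_nonneg ‖π y a (dl i)‖
      exact pow_eq_zero_iff (two_ne_zero) |>.mp (le_antisymm h8 this)
    rw [norm_eq_zero] at h9
    rw [h9]; rfl
  obtain ⟨y₀, hy₀⟩ := h2
  let c : ℝ := ‖π y₀ a (dl 0)‖ ^ 2 / 2
  have hc : 0 < c := by show 0 < ‖π y₀ a (dl 0)‖ ^ 2 / 2; positivity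
  let U : Set X := {y | c < (f y).re}
  have hU : IsOpen U := isOpen_lt continuous_const (Complex.continuous_re.comp f.continuous)
  have hy₀U : y₀ ∈ U := by
    show c < (f y₀).re
    rw [hf, Complex.ofReal_re]
    show ‖π y₀ a (dl 0)‖ ^ 2 / 2 < _
    linarith
  obtain ⟨t, ht⟩ := isCompact_univ.elim_finite_subcover
    (fun j : ℤ => (T ^ j : X ≃ₜ X) ⁻¹' U) (fun j => hU.preimage (T ^ j : X ≃ₜ X).continuous) (by
      intro x _
      obtain ⟨z, hz, j, hj⟩ := (hmin x).inter_open_nonempty U hU ⟨y₀, hy₀U⟩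
      rw [Set.mem_iUnion]
      refine ⟨j, ?_⟩
      show (T ^ j : X ≃ₜ X) x ∈ U
      have : (T ^ j : X ≃ₜ X) x = z := hj
      rw [this]; exact hz)
  have hcov : Covariant T ι u := hA.cov
  let g : C(X, ℂ) := ∑ j ∈ t, cT T j f - ContinuousMap.const X (c : ℂ)
  have hfre : ∀ y, 0 ≤ (f y).re ∧ (f y).im = 0 := by
    intro y
    rw [hf, Complex.ofReal_re, Complex.ofReal_im]
    exact ⟨by positivity, rfl⟩
  have hg := tr_fn_nonneg (ι := ι) τ g (by
    intro y
    have e1 : g y = ∑ j ∈ t, f ((T ^ j : X ≃ₜ X) y) - (c : ℂ) := by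
      show (∑ j ∈ t, cT T j f - ContinuousMap.const X (c : ℂ)) y = _
      rw [ContinuousMap.sub_apply, ContinuousMap.sum_apply]
      rfl
    rw [e1, Complex.sub_re, Complex.sub_im, Complex.re_sum, Complex.im_sum, Complex.ofReal_re,
      Complex.ofReal_im]
    constructor
    · have h3 := ht (Set.mem_univ y)
      simp only [Set.mem_iUnion] at h3
      obtain ⟨j, hj, hj'⟩ := h3
      have h4 : c < (f ((T ^ j : X ≃ₜ X) y)).re := hj'
      have h5 := Finset.single_le_sum (f := fun j => (f ((T ^ j : X ≃ₜ X) y)).re)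
        (fun j _ => (hfre _).1) hj
      have h6 : (f ((T ^ j : X ≃ₜ X) y)).re ≤ ∑ j ∈ t, (f ((T ^ j : X ≃ₜ X) y)).re := h5
      linarith
    · rw [Finset.sum_eq_zero fun j _ => (hfre _).2, sub_zero])
  have e2 : τ.val (ι g) = (t.card : ℂ) * τ.val (ι f) - c := by
    show τ.val (ι (∑ j ∈ t, cT T j f - ContinuousMap.const X (c : ℂ))) = _
    rw [map_sub, map_sub, map_sum, map_sum, Finset.sum_congr rfl fun j _ => tr_cT hcov τ j f,
      Finset.sum_const, nsmul_eq_mul]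
    have e3 : ContinuousMap.const X (c : ℂ) = (c : ℂ) • (1 : C(X, ℂ)) := by
      ext y; simp
    rw [e3, map_smul, map_smul, map_one, τ.map_one]
    simp
  rw [e2, Complex.sub_re, Complex.ofReal_re] at hg
  have e4 : ((t.card : ℂ) * τ.val (ι f)).re = t.card * (τ.val (ι f)).re := by
    have : (t.card : ℂ) = ((t.card : ℝ) : ℂ) := by push_cast; rfl
    rw [this, Complex.re_ofReal_mul]
  rw [e4] at hg
  rw [h1]
  by_contra hcon
  push Not at hcon
  have h5 : (t.card : ℝ) * (τ.val (ι f)).re ≤ 0 :=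
    mul_nonpos_of_nonneg_of_nonpos (Nat.cast_nonneg _) hcon
  linarith

/-- the trace of the blocks of type `s` -/
lemma TowerData.type_trace (av : S_AV) (hA : IsCrossedProduct T ι u) (hπ : IsOrbitFamily T ι u π)
    (s : Bool) : ∃ τ : TracialState A,
      (∀ k, (D.h k : ℝ) * (τ.val (ι (ind (D.VT k (!s))))).re ≤ D.ep k) ∧
      (IsMinimalHomeo T → ∀ a : A, a ≠ 0 → 0 < (τ.val (star a * a)).re) := by
  classical
  have hex : ∀ m, ∃ x, x ∈ D.VT m s := fun m => D.VT_nonempty m s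
  choose x hx using hex
  have hN : Tendsto D.h (hyperfilter ℕ : Filter ℕ) atTop :=
    D.h_tendsto.mono_left (Nat.hyperfilter_le_atTop)
  obtain ⟨τ, hτ⟩ := av X T A ι u π hA hπ (hyperfilter ℕ) D.h x hN
  refine ⟨τ, ?_, fun hmin a ha => av_pos hmin hA hπ _ _ _ τ hτ a ha⟩
  intro k
  have h1 := (Complex.continuous_re.tendsto _).comp (hτ (ι (ind (D.VT k (!s)))))
  have h2 : (τ.val (ι (ind (D.VT k (!s))))).re ≤ (D.h k : ℝ)⁻¹ * D.ep k := by
    refine le_of_tendsto h1 ?_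
    have hev : ∀ᶠ m in (hyperfilter ℕ : Filter ℕ), k ≤ m :=
      Nat.hyperfilter_le_atTop (eventually_ge_atTop k)
    filter_upwards [hev] with m hm
    simp only [Function.comp_apply]
    have hpos : (0 : ℝ) < D.h m := by exact_mod_cast D.h_pos m
    have hposk : (0 : ℝ) < D.h k := by exact_mod_cast D.h_pos k
    have hfk : (0 : ℝ) < (D.free k).card := by exact_mod_cast Finset.card_pos.mpr (D.free_nonempty k)
    have h3 : ((D.h m : ℂ))⁻¹ = (((D.h m : ℝ))⁻¹ : ℝ) := by push_cast; rfl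
    rw [h3, Complex.re_ofReal_mul]
    have h4 : (∑ i ∈ Finset.range (D.h m), ⟪dl i, π (x m) (ι (ind (D.VT k (!s)))) (dl i)⟫_ℂ).re =
        ((Finset.range (D.h m)).filter fun i : ℕ =>
          (T ^ (i : ℤ) : X ≃ₜ X) (x m) ∈ D.VT k (!s)).card := by
      rw [Finset.sum_congr rfl fun i _ => (hπ.rep (x m)).coef_fn _ _]
      rw [Finset.sum_congr rfl fun i _ => ind_apply (D.isClopen_VT k (!s)) _]
      rw [Finset.sum_ite, Finset.sum_const, Finset.sum_const_zero, add_zero, nsmul_eq_mul, mul_one,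
        Complex.natCast_re]
    rw [h4]
    have h5 := D.card_other hm s (x m) (hx m)
    set cnt := ((Finset.range (D.h m)).filter fun i : ℕ =>
          (T ^ (i : ℤ) : X ≃ₜ X) (x m) ∈ D.VT k (!s)).card with hcnt
    have h6 : (D.h k : ℝ) * ((D.free k).card * cnt + (D.free m).card) ≤ (D.free k).card * D.h m := by
      exact_mod_cast h5
    have h7 : D.di ≤ (D.free m).card / D.h m := D.di_le m
    have h8 : D.ep k = 1 - D.di * D.h k / (D.free k).card := by
      unfold TowerData.ep TowerData.dn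
      rw [div_div_eq_mul_div]
    rw [h8, inv_mul_le_iff₀ hpos]
    rw [le_div_iff₀ hpos] at h7
    have h9 : (cnt : ℝ) ≤ D.h m / D.h k - (D.free m).card / (D.free k).card := by
      rw [le_sub_iff_add_le, le_div_iff₀ hposk]
      have : ((cnt : ℝ) + (D.free m).card / (D.free k).card) * D.h k =
          (D.h k : ℝ) * ((D.free k).card * cnt + (D.free m).card) / (D.free k).card := by
        field_simp
      rw [this, div_le_iff₀ hfk]
      linarith
    refine h9.trans ?_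
    have h10 : D.h m * ((D.h k : ℝ)⁻¹ * (1 - D.di * D.h k / (D.free k).card)) =
        D.h m / D.h k - (D.di * D.h m) / (D.free k).card := by
      field_simp
    rw [h10]
    have := div_le_div_of_nonneg_right h7 hfk.le
    linarith
  have hposk : (0 : ℝ) < D.h k := by exact_mod_cast D.h_pos k
  rw [le_inv_mul_iff₀ hposk] at h2
  exact h2

theorem u0 : S_U0 := by
  intro X _ _ _ T D A _ ι u π hA hπ av
  obtain ⟨τ, h1, -⟩ := D.type_trace av hA hπ false
  refine ⟨τ, fun ε hε => ?_⟩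
  obtain ⟨n₀, hn₀⟩ := (D.ep_tendsto.eventually (gt_mem_nhds hε)).exists_forall_of_atTop
  exact ⟨n₀, fun n hn => (h1 n).trans_lt (hn₀ n hn)⟩

end trace

end Run7.h745
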