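import Pool.Agent.Run7.h745.Psi
import Pool.Agent.Run7.h745.KTd

/-!
# Piece U1, part 1: general lemmas
-/

set_option autoImplicit false
set_option linter.unusedSectionVars false

noncomputable section

namespace Run7.h745

open Filter Topology Matrix
open scoped InnerProductSpace ComplexOrder

/-- pointwise positive elements are positive -/
lemma pos_of_pointwise {R S : Type} [CStarAlgebra R] [CStarAlgebra S] {α : Type}
    (φ : α → R →⋆ₐ[ℂ] S) (hφ : ∀ a b, (∀ x, φ x a = φ x b) → a = b) (H : R)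
    (hH : ∀ x, ∃ b, φ x H = star b * b) : ∃ s : R, H = star s * s := by
  have hsa : IsSelfAdjoint H := by
    refine hφ _ _ fun x => ?_
    obtain ⟨b, hb⟩ := hH x
    rw [map_star, hb, star_mul, star_star]
  refine ⟨cfc (fun t : ℝ => √t) H, ?_⟩
  have h1 : star (cfc (fun t : ℝ => √t) H) = cfc (fun t : ℝ => √t) H :=
    (cfc_predicate (fun t : ℝ => √t) H : IsSelfAdjoint _).star_eq
  rw [h1, ← cfc_mul (fun t : ℝ => √t) (fun t : ℝ => √t) H (by fun_prop) (by fun_prop)]
  refine hφ _ _ fun x => ?_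
  have hc : Continuous (φ x) := AddMonoidHomClass.continuous_of_bound (φ x) 1 fun a => by
    rw [one_mul]; exact NonUnitalStarAlgHom.norm_apply_le (φ x) a
  have h2 := StarAlgHomClass.map_cfc (R := ℝ) (S := ℂ) (φ x) (fun t : ℝ => √t * √t) H (by fun_prop)
    hc hsa (hsa.map (φ x))
  rw [h2]
  obtain ⟨b, hb⟩ := hH x
  have h3 : cfc (fun t : ℝ => √t * √t) (φ x H) = cfc (fun t : ℝ => t) (φ x H) := by
    refine cfc_congr fun t ht => ?_
    rw [hb] at ht
    exact Real.mul_self_sqrt (spectrum_star_mul_self_nonneg t ht)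
  rw [h3]
  exact (cfc_id' ℝ (φ x H) (hsa.map (φ x))).symm

/-- positive semidefinite matrices factor -/
lemma psd_factor {n : Type} [Fintype n] [DecidableEq n] (M : Matrix n n ℂ) (hM : M.PosSemidef) :
    ∃ B : Matrix n n ℂ, M = Bᴴ * B := by
  open scoped MatrixOrder in
  exact ⟨CFC.sqrt M, by
    have h0 : (0 : Matrix n n ℂ) ≤ M := hM.nonneg
    have h1 : (CFC.sqrt M)ᴴ = CFC.sqrt M := (IsSelfAdjoint.of_nonneg (CFC.sqrt_nonneg M)).star_eq
    rw [h1, CFC.sqrt_mul_sqrt_self M h0]⟩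

/-! ### Lower bounds for averages -/

lemma AVlow (av : S_AV) {X : Type} [TopologicalSpace X] [CompactSpace X] [T2Space X] {T : X ≃ₜ X}
    (D : TowerData X T) {A : Type} [CStarAlgebra A] {ι : C(X, ℂ) →⋆ₐ[ℂ] A} {u : unitary A}
    {π : X → (A →⋆ₐ[ℂ] (HH →L[ℂ] HH))} (hA : IsCrossedProduct T ι u) (hπ : IsOrbitFamily T ι u π)
    (c : A) (κ : ℝ) (hκ : ∀ τ : TracialState A, κ < (τ.val c).re) :
    ∃ n₀, ∀ n, n₀ ≤ n → ∀ x, κ * D.h n ≤
      (∑ i ∈ Finset.range (D.h n), ⟪dl i, π x c (dl i)⟫_ℂ).re := by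
  by_contra hcon
  push Not at hcon
  choose n hn x hx using hcon
  have hnt : Tendsto n atTop atTop := tendsto_atTop_mono hn tendsto_id
  have hN : Tendsto (fun k => D.h (n k)) (hyperfilter ℕ : Filter ℕ) atTop :=
    (D.h_tendsto.comp hnt).mono_left (Nat.hyperfilter_le_atTop)
  obtain ⟨τ, hτ⟩ := av X T A ι u π hA hπ (hyperfilter ℕ) (fun k => D.h (n k)) x hN
  have h1 := (Complex.continuous_re.tendsto _).comp (hτ c)
  have h2 : (τ.val c).re ≤ κ := by
    refine le_of_tendsto h1 (Eventually.of_forall fun k => ?_)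
    simp only [Function.comp_apply]
    have hpos : (0 : ℝ) < D.h (n k) := by exact_mod_cast D.h_pos (n k)
    have h3 : ((D.h (n k) : ℂ))⁻¹ = (((D.h (n k) : ℝ))⁻¹ : ℝ) := by push_cast; rfl
    rw [h3, Complex.re_ofReal_mul]
    have h4 := hx k
    rw [inv_mul_le_iff₀ hpos, mul_comm]
    exact h4.le
  exact absurd (hκ τ) (not_lt.mpr h2)

/-! ### Lipschitz functions -/

/-- bounded Lipschitz functions on `K` -/
def LipB {E : Type} [NormedAddCommGroup E] (K : Set E) (g : E → ℂ) : Prop :=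
  ∃ (L C : ℝ), 0 ≤ L ∧ 0 ≤ C ∧ (∀ x ∈ K, ‖g x‖ ≤ C) ∧ ∀ x ∈ K, ∀ y ∈ K, ‖g x - g y‖ ≤ L * ‖x - y‖

section lip
variable {E : Type} [NormedAddCommGroup E] {K : Set E}

lemma LipB.const (c : ℂ) : LipB K fun _ => c :=
  ⟨0, ‖c‖, le_rfl, norm_nonneg _, fun _ _ => le_rfl, fun _ _ _ _ => by simp⟩

lemma LipB.add {f g : E → ℂ} (hf : LipB K f) (hg : LipB K g) : LipB K fun x => f x + g x := by
  obtain ⟨L, C, h1, h2, h3, h4⟩ := hf
  obtain ⟨L', C', h1', h2', h3', h4'⟩ := hg
  refine ⟨L + L', C + C', by positivity, by positivity, fun x hx => ?_, fun x hx y hy => ?_⟩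
  · exact (norm_add_le _ _).trans (add_le_add (h3 x hx) (h3' x hx))
  · calc ‖f x + g x - (f y + g y)‖ = ‖(f x - f y) + (g x - g y)‖ := by congr 1; ring
      _ ≤ ‖f x - f y‖ + ‖g x - g y‖ := norm_add_le _ _
      _ ≤ L * ‖x - y‖ + L' * ‖x - y‖ := add_le_add (h4 x hx y hy) (h4' x hx y hy)
      _ = _ := by ring

lemma LipB.mul {f g : E → ℂ} (hf : LipB K f) (hg : LipB K g) : LipB K fun x => f x * g x := by
  obtain ⟨L, C, h1, h2, h3, h4⟩ := hf
  obtain ⟨L', C', h1', h2', h3', h4'⟩ := hg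
  refine ⟨L * C' + C * L', C * C', by positivity, by positivity, fun x hx => ?_,
    fun x hx y hy => ?_⟩
  · rw [norm_mul]
    exact mul_le_mul (h3 x hx) (h3' x hx) (norm_nonneg _) h2
  · calc ‖f x * g x - f y * g y‖ = ‖(f x - f y) * g x + f y * (g x - g y)‖ := by congr 1; ring
      _ ≤ ‖(f x - f y) * g x‖ + ‖f y * (g x - g y)‖ := norm_add_le _ _
      _ ≤ (L * ‖x - y‖) * C' + C * (L' * ‖x - y‖) := by
          rw [norm_mul, norm_mul]
          exact add_le_add (mul_le_mul (h4 x hx y hy) (h3' x hx) (norm_nonneg _) (by positivity))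
            (mul_le_mul (h3 y hy) (h4' x hx y hy) (norm_nonneg _) h2)
      _ = _ := by ring

lemma LipB.star {f : E → ℂ} (hf : LipB K f) : LipB K fun x => star (f x) := by
  obtain ⟨L, C, h1, h2, h3, h4⟩ := hf
  refine ⟨L, C, h1, h2, fun x hx => by rw [norm_star]; exact h3 x hx, fun x hx y hy => ?_⟩
  rw [← star_sub, norm_star]; exact h4 x hx y hy

lemma LipB.sum {α : Type} (s : Finset α) {f : α → E → ℂ} (hf : ∀ a ∈ s, LipB K (f a)) :
    LipB K fun x => ∑ a ∈ s, f a x := by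
  classical
  induction s using Finset.induction_on with
  | empty => simpa using LipB.const (K := K) 0
  | insert a s ha ih =>
    simp only [Finset.sum_insert ha]
    exact (hf a (Finset.mem_insert_self _ _)).add (ih fun b hb => hf b (Finset.mem_insert_of_mem hb))

lemma LipB.poly {σ : Type} (P : MvPolynomial σ ℂ) {g : σ → E → ℂ} (hg : ∀ i, LipB K (g i)) :
    LipB K fun x => MvPolynomial.eval (fun i => g i x) P := by
  induction P using MvPolynomial.induction_on with
  | C a => simpa using LipB.const (K := K) a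
  | add p q hp hq =>
    simp only [map_add]
    exact hp.add hq
  | mul_X p n hp =>
    simp only [map_mul, MvPolynomial.eval_X]
    exact hp.mul (hg n)

end lip

end Run7.h745
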