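import Pool.Agent.Run7.h745.U1a

/-!
# Piece U1, part 2: from matrices to the crossed product
-/

set_option autoImplicit false
set_option linter.unusedSectionVars false

noncomputable section

namespace Run7.h745

open Filter Topology Matrix
open scoped InnerProductSpace ComplexOrder

section
variable {X : Type} [TopologicalSpace X] [CompactSpace X] [T2Space X] {T : X ≃ₜ X}
  (D : TowerData X T) {A : Type} [CStarAlgebra A] {ι : C(X, ℂ) →⋆ₐ[ℂ] A} {u : unitary A}

/-- the matrix `f_{p-j}(T^p x)` -/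
def TowerData.YM (n : ℕ) (f : ℤ → C(X, ℂ)) : C(X, Mat (D.h n) ℂ) :=
  mkG fun p j => cT T ((p : ℕ) : ℤ) (f (((p : ℕ) : ℤ) - ((j : ℕ) : ℤ)))

lemma TowerData.laur_psi (hc : Covariant T ι u) (n L : ℕ) (f : ℤ → C(X, ℂ))
    (hf : ∀ k : ℤ, (L : ℤ) < |k| → f k = 0) (G : C(X, Mat (D.h n) ℂ))
    (hG : ∀ j l : Fin (D.h n), ((j : ℕ) < L ∨ D.h n ≤ (j : ℕ) + L) → ent G j l = 0) :
    laur u ι L f * D.psiHom hc n G = D.psiHom hc n (D.YM n f * G) := by
  have h1 : ∀ j l : Fin (D.h n), laur u ι L f *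
      D.eu ι u n (ent G j l) ((j : ℕ) : ℤ) ((l : ℕ) : ℤ) =
      ∑ p : Fin (D.h n), D.eu ι u n (cT T ((p : ℕ) : ℤ) (f (((p : ℕ) : ℤ) - ((j : ℕ) : ℤ))) *
        ent G j l) ((p : ℕ) : ℤ) ((l : ℕ) : ℤ) := by
    intro j l
    by_cases hj : (j : ℕ) < L ∨ D.h n ≤ (j : ℕ) + L
    · rw [hG j l hj, D.eu_zero', mul_zero]
      symm
      refine Finset.sum_eq_zero fun p _ => ?_
      rw [mul_zero, D.eu_zero']
    · push Not at hj
      have h2 : laur u ι L f * D.eu ι u n (ent G j l) ((j : ℕ) : ℤ) ((l : ℕ) : ℤ) =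
          ∑ k ∈ Finset.Icc (-(L : ℤ)) L, D.eu ι u n (cT T (k + ((j : ℕ) : ℤ)) (f k) * ent G j l)
            (k + ((j : ℕ) : ℤ)) ((l : ℕ) : ℤ) := by
        unfold laur
        rw [Finset.sum_mul]
        refine Finset.sum_congr rfl fun k _ => ?_
        rw [mul_assoc, D.up_eu, D.ind_eu hc]
      rw [h2, ← sum_Ico_fin (D.h n) (fun p => D.eu ι u n (cT T p (f (p - ((j : ℕ) : ℤ))) *
        ent G j l) p ((l : ℕ) : ℤ))]
      have h3 : ∑ k ∈ Finset.Icc (-(L : ℤ)) L, D.eu ι u n (cT T (k + ((j : ℕ) : ℤ)) (f k) *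
          ent G j l) (k + ((j : ℕ) : ℤ)) ((l : ℕ) : ℤ) =
          ∑ p ∈ Finset.Icc (((j : ℕ) : ℤ) - L) (((j : ℕ) : ℤ) + L),
            D.eu ι u n (cT T p (f (p - ((j : ℕ) : ℤ))) * ent G j l) p ((l : ℕ) : ℤ) := by
        refine Finset.sum_bij (fun k _ => k + ((j : ℕ) : ℤ)) ?_ ?_ ?_ ?_
        · intro k hk
          rw [Finset.mem_Icc] at hk ⊢; omega
        · intro a _ b _ h; omega
        · intro p hp
          rw [Finset.mem_Icc] at hp
          exact ⟨p - ((j : ℕ) : ℤ), by rw [Finset.mem_Icc]; omega, by ring⟩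
        · intro k _
          rw [add_sub_cancel_right]
      rw [h3]
      refine Finset.sum_subset ?_ ?_
      · intro p hp
        rw [Finset.mem_Icc] at hp
        rw [Finset.mem_Ico]; omega
      · intro p _ hp
        rw [Finset.mem_Icc] at hp
        have h4 : f (p - ((j : ℕ) : ℤ)) = 0 := by
          apply hf
          rw [lt_abs]; omega
        rw [h4]
        have h5 : cT T p (0 : C(X, ℂ)) = 0 := rfl
        rw [h5, zero_mul, D.eu_zero']
  rw [D.psiHom_apply, D.psiHom_apply, Finset.mul_sum]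
  simp only [Finset.mul_sum, h1, ent_mul, D.eu_sum]
  calc ∑ j : Fin (D.h n), ∑ l : Fin (D.h n), ∑ p : Fin (D.h n),
        D.eu ι u n (cT T ((p : ℕ) : ℤ) (f (((p : ℕ) : ℤ) - ((j : ℕ) : ℤ))) * ent G j l)
          ((p : ℕ) : ℤ) ((l : ℕ) : ℤ)
      = ∑ j : Fin (D.h n), ∑ p : Fin (D.h n), ∑ l : Fin (D.h n),
        D.eu ι u n (cT T ((p : ℕ) : ℤ) (f (((p : ℕ) : ℤ) - ((j : ℕ) : ℤ))) * ent G j l)
          ((p : ℕ) : ℤ) ((l : ℕ) : ℤ) := Finset.sum_congr rfl fun j _ => Finset.sum_comm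
    _ = ∑ p : Fin (D.h n), ∑ j : Fin (D.h n), ∑ l : Fin (D.h n),
        D.eu ι u n (cT T ((p : ℕ) : ℤ) (f (((p : ℕ) : ℤ) - ((j : ℕ) : ℤ))) * ent G j l)
          ((p : ℕ) : ℤ) ((l : ℕ) : ℤ) := Finset.sum_comm
    _ = ∑ p : Fin (D.h n), ∑ l : Fin (D.h n), ∑ j : Fin (D.h n),
        D.eu ι u n (cT T ((p : ℕ) : ℤ) (f (((p : ℕ) : ℤ) - ((j : ℕ) : ℤ))) * ent G j l)
          ((p : ℕ) : ℤ) ((l : ℕ) : ℤ) := Finset.sum_congr rfl fun p _ => Finset.sum_comm
    _ = _ := rfl

/-- the matrix `f_{p-i-L}(T^p x)` -/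
def TowerData.BM (n L : ℕ) (f : ℤ → C(X, ℂ)) (x : X) :
    Matrix (Fin (D.h n)) (Fin (D.h n - 2 * L)) ℂ :=
  Matrix.of fun p i => f (((p : ℕ) : ℤ) - ((i : ℕ) + L : ℕ)) ((T ^ ((p : ℕ) : ℤ) : X ≃ₜ X) x)

/-- the compressions of `y* y` -/
def TowerData.CM (n L : ℕ) (f : ℤ → C(X, ℂ)) (x : X) :
    Matrix (Fin (D.h n - 2 * L)) (Fin (D.h n - 2 * L)) ℂ :=
  (D.BM n L f x)ᴴ * D.BM n L f x

lemma TowerData.continuous_CM (n L : ℕ) (f : ℤ → C(X, ℂ)) : Continuous (D.CM n L f) := by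
  have h1 : Continuous (D.BM n L f) := by
    refine continuous_pi fun p => continuous_pi fun i => ?_
    exact (f _).continuous.comp (T ^ ((p : ℕ) : ℤ) : X ≃ₜ X).continuous
  exact (h1.matrix_conjTranspose).matrix_mul h1

/-- placing rows -/
def RM (h L : ℕ) : Matrix (Fin h) (Fin (h - 2 * L)) ℂ :=
  Matrix.of fun p i => if (p : ℕ) = (i : ℕ) + L then 1 else 0

lemma RM_star_mul (h L : ℕ) (hL : 2 * L ≤ h) : (RM h L)ᴴ * RM h L = 1 := by
  ext i j
  rw [Matrix.mul_apply, Matrix.one_apply]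
  simp only [Matrix.conjTranspose_apply, RM, of_apply]
  have hi := i.2
  rw [Finset.sum_eq_single (⟨(i : ℕ) + L, by omega⟩ : Fin h)]
  · by_cases hij : i = j
    · subst hij; simp
    · rw [if_pos rfl, if_neg hij, if_neg]
      · simp
      · intro h'; apply hij; apply Fin.ext; simp only at h'; omega
  · intro p _ hp
    rw [if_neg]
    · simp
    · intro h'; apply hp; apply Fin.ext; exact h'
  · intro h'; exact absurd (Finset.mem_univ _) h'

lemma TowerData.YM_RM (n L : ℕ) (hL : 2 * L ≤ D.h n) (f : ℤ → C(X, ℂ)) (x : X) :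
    Mat.of.symm (D.YM n f x) * RM (D.h n) L = D.BM n L f x := by
  ext p i
  rw [Matrix.mul_apply]
  have hi := i.2
  rw [Finset.sum_eq_single (⟨(i : ℕ) + L, by omega⟩ : Fin (D.h n))]
  · simp only [RM, of_apply, if_true, mul_one]
    rfl
  · intro q _ hq
    simp only [RM, of_apply]
    rw [if_neg, mul_zero]
    intro h'; apply hq; apply Fin.ext; exact h'
  · intro h'; exact absurd (Finset.mem_univ _) h'

/-- placing columns -/
def QM {h s : ℕ} (e : Fin s → Fin h) : Matrix (Fin s) (Fin h) ℂ :=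
  Matrix.of fun k j => if e k = j then 1 else 0

/-- the indicator function of the levels `e k` over `S` -/
def chiE {h s : ℕ} (T : X ≃ₜ X) (e : Fin s → Fin h) (S : Set X) : C(X, ℂ) :=
  ∑ k : Fin s, cT T (-((e k : ℕ) : ℤ)) (ind S)

lemma TowerData.psi_chi (hc : Covariant T ι u) (n : ℕ) {s : ℕ} (e : Fin s → Fin (D.h n))
    {S : Set X} (hS : IsClopen S) (hSV : S ⊆ D.V n)
    (E : C(X, Mat (D.h n) ℂ))
    (hE : ∀ x, E x = ind S x • (Mat.of ((QM e)ᴴ * QM e) : Mat (D.h n) ℂ)) :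
    D.psiHom hc n E = ι (chiE T e S) := by
  have h1 : ∀ i j : Fin (D.h n), ((QM e)ᴴ * QM e) i j =
      ∑ k : Fin s, (if e k = i ∧ i = j then (1 : ℂ) else 0) := by
    intro i j
    rw [Matrix.mul_apply]
    refine Finset.sum_congr rfl fun k _ => ?_
    simp only [Matrix.conjTranspose_apply, QM, of_apply]
    by_cases h1 : e k = i
    · by_cases h2 : i = j
      · rw [if_pos h1, if_pos (h1.trans h2), if_pos ⟨h1, h2⟩]; simp
      · rw [if_pos h1, if_neg (fun h => h2 (h1.symm.trans h)), if_neg (fun h => h2 h.2)]; simp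
    · have hne : ¬(e k = i ∧ i = j) := fun h => h1 h.1
      rw [if_neg h1, if_neg hne]; simp
  have h2 : ∀ i j : Fin (D.h n), ent E i j =
      if i = j then ∑ k : Fin s, (if e k = i then ind S else 0) else 0 := by
    intro i j
    ext x
    rw [ent_apply, hE, map_smul]
    show ind S x * ((QM e)ᴴ * QM e) i j = _
    rw [h1]
    by_cases hij : i = j
    · subst hij
      rw [if_pos rfl, ContinuousMap.sum_apply, Finset.mul_sum]
      refine Finset.sum_congr rfl fun k _ => ?_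
      by_cases h3 : e k = i
      · rw [if_pos ⟨h3, rfl⟩, if_pos h3, mul_one]
      · rw [if_neg (fun h => h3 h.1), if_neg h3, mul_zero]; rfl
    · rw [if_neg hij]
      simp [hij]
  rw [D.psiHom_apply]
  have h3 : ∀ i j : Fin (D.h n), D.eu ι u n (ent E i j) ((i : ℕ) : ℤ) ((j : ℕ) : ℤ) =
      if i = j then ∑ k : Fin s, (if e k = i then ι (cT T (-((e k : ℕ) : ℤ)) (ind S)) else 0)
      else 0 := by
    intro i j
    rw [h2]
    by_cases hij : i = j
    · subst hij
      rw [if_pos rfl, if_pos rfl, D.eu_sum]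
      refine Finset.sum_congr rfl fun k _ => ?_
      by_cases h4 : e k = i
      · rw [if_pos h4, if_pos h4]
        unfold TowerData.eu
        rw [ind_mul (D.isClopen_V n) hS, Set.inter_eq_right.mpr hSV, cov_conj hc, h4]
      · rw [if_neg h4, if_neg h4, D.eu_zero']
    · rw [if_neg hij, if_neg hij, D.eu_zero']
  simp only [h3, Finset.sum_ite_eq, Finset.mem_univ, if_true]
  rw [Finset.sum_comm]
  unfold chiE
  rw [map_sum]
  refine Finset.sum_congr rfl fun k _ => ?_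
  rw [Finset.sum_ite_eq, if_pos (Finset.mem_univ _)]

/-- evaluation of matrix-valued functions -/
def evX (X : Type) [TopologicalSpace X] [CompactSpace X] (N : ℕ) (x : X) :
    C(X, Mat N ℂ) →⋆ₐ[ℂ] Mat N ℂ where
  toFun G := G x
  map_one' := rfl
  map_mul' _ _ := rfl
  map_zero' := rfl
  map_add' _ _ := rfl
  commutes' _ := rfl
  map_star' _ := rfl

/-- the core of U1 -/
lemma TowerData.U1_core (hc : Covariant T ι u) (n L : ℕ) (hL : 2 * L ≤ D.h n) (f : ℤ → C(X, ℂ))
    (hf : ∀ k : ℤ, (L : ℤ) < |k| → f k = 0) {s : ℕ} (e : Fin s → Fin (D.h n))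
    (he : Function.Injective e) {S : Set X} (hS : IsClopen S) (hSV : S ⊆ D.V n)
    (V : X → Matrix (Fin (D.h n - 2 * L)) (Fin s) ℂ) (hV : Continuous V) (θ c₀ : ℝ)
    (hpos : ∀ x ∈ S, ((V x)ᴴ * (D.CM n L f x - (θ : ℂ) • (1 : Matrix _ _ ℂ)) * V x -
      (c₀ : ℂ) • (1 : Matrix _ _ ℂ)).PosSemidef) :
    ∃ v : A, v = v * ι (chiE T e S) ∧ ∃ z : A,
      star v * (star (laur u ι L f) * laur u ι L f) * v - (θ : ℂ) • (star v * v) -
        (c₀ : ℂ) • ι (chiE T e S) = star z * z := by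
  classical
  set R := RM (D.h n) L with hR
  set Q := QM e with hQ
  have hRR : Rᴴ * R = 1 := RM_star_mul (D.h n) L hL
  have hQQ : Q * Qᴴ = 1 := by
    ext k l
    rw [Matrix.mul_apply, Matrix.one_apply]
    simp only [Matrix.conjTranspose_apply, hQ, QM, of_apply]
    rw [Finset.sum_eq_single (e k)]
    · by_cases hkl : k = l
      · subst hkl; simp
      · rw [if_pos rfl, if_neg hkl, if_neg (fun h' => hkl (he h').symm)]; simp
    · intro j _ hj
      rw [if_neg (Ne.symm hj), zero_mul]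
    · intro h'; exact absurd (Finset.mem_univ _) h'
  let G : C(X, Mat (D.h n) ℂ) := ⟨fun x => ind S x • (Mat.of (R * V x * Q) : Mat (D.h n) ℂ), by
    refine (ind S).continuous.smul (Mat.continuous_of.comp ?_)
    exact (continuous_const.matrix_mul hV).matrix_mul continuous_const⟩
  let E : C(X, Mat (D.h n) ℂ) := ⟨fun x => ind S x • (Mat.of (Qᴴ * Q) : Mat (D.h n) ℂ),
    (ind S).continuous.smul continuous_const⟩
  have hGin : ∀ x ∈ S, G x = Mat.of (R * V x * Q) := by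
    intro x hx
    show ind S x • (Mat.of (R * V x * Q) : Mat (D.h n) ℂ) = _
    rw [ind_mem hS hx, one_smul]
  have hGout : ∀ x, x ∉ S → G x = 0 := by
    intro x hx
    show ind S x • (Mat.of (R * V x * Q) : Mat (D.h n) ℂ) = _
    rw [ind_notMem hS hx, zero_smul]
  have hEin : ∀ x ∈ S, E x = Mat.of (Qᴴ * Q) := by
    intro x hx
    show ind S x • (Mat.of (Qᴴ * Q) : Mat (D.h n) ℂ) = _
    rw [ind_mem hS hx, one_smul]
  have hEout : ∀ x, x ∉ S → E x = 0 := by
    intro x hx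
    show ind S x • (Mat.of (Qᴴ * Q) : Mat (D.h n) ℂ) = _
    rw [ind_notMem hS hx, zero_smul]
  set Ψ := D.psiHom hc n with hΨ
  have hΨE : Ψ E = ι (chiE T e S) := D.psi_chi hc n e hS hSV E fun x => rfl
  -- rows of G
  have hGrow : ∀ j l : Fin (D.h n), ((j : ℕ) < L ∨ D.h n ≤ (j : ℕ) + L) → ent G j l = 0 := by
    intro j l hj
    ext x
    rw [ent_apply]
    show (Mat.of.symm (ind S x • (Mat.of (R * V x * Q) : Mat (D.h n) ℂ))) j l = 0
    rw [map_smul]
    show ind S x * (R * V x * Q) j l = 0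
    have h1 : ∀ i, R j i = 0 := by
      intro i
      have := i.2
      simp only [hR, RM, of_apply]
      rw [if_neg]; omega
    rw [Matrix.mul_assoc, Matrix.mul_apply]
    simp only [h1, zero_mul, Finset.sum_const_zero, mul_zero]
  have hyG : laur u ι L f * Ψ G = Ψ (D.YM n f * G) := D.laur_psi hc n L f hf G hGrow
  refine ⟨Ψ G, ?_, ?_⟩
  · rw [← hΨE, ← map_mul]
    congr 1
    ext1 x
    rw [ContinuousMap.mul_apply]
    by_cases hx : x ∈ S
    · rw [hGin x hx, hEin x hx, ← map_mul]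
      congr 1
      calc R * V x * Q = R * V x * (Q * Qᴴ) * Q := by rw [hQQ, Matrix.mul_one]
        _ = _ := by simp only [Matrix.mul_assoc]
    · rw [hGout x hx, zero_mul]
  · let H : C(X, Mat (D.h n) ℂ) := star (D.YM n f * G) * (D.YM n f * G) - (θ : ℂ) • (star G * G) -
      (c₀ : ℂ) • E
    have hHx : ∀ x, ∃ b : Mat (D.h n) ℂ, evX X (D.h n) x H = star b * b := by
      intro x
      have hHe : evX X (D.h n) x H = star (D.YM n f x * G x) * (D.YM n f x * G x) -
        (θ : ℂ) • (star (G x) * G x) - (c₀ : ℂ) • E x := rfl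
      by_cases hx : x ∈ S
      · have hps := (hpos x hx).conjTranspose_mul_mul_same Q
        obtain ⟨b, hb⟩ := psd_factor _ hps
        refine ⟨Mat.of b, ?_⟩
        have hy : D.YM n f x = Mat.of (Mat.of.symm (D.YM n f x)) := rfl
        rw [hHe, hGin x hx, hEin x hx, hy, ← map_mul, ← map_star, ← map_star, ← map_mul, ← map_mul,
          ← map_smul, ← map_smul, ← map_sub, ← map_sub, ← map_star, ← map_mul]
        congr 1
        rw [show star b * b = bᴴ * b from rfl, ← hb]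
        set Y := Mat.of.symm (D.YM n f x) with hY
        have hYR : Y * R = D.BM n L f x := D.YM_RM n L hL f x
        have e1 : star (Y * (R * V x * Q)) * (Y * (R * V x * Q)) =
            Qᴴ * ((V x)ᴴ * ((Y * R)ᴴ * (Y * R)) * V x) * Q := by
          simp only [Matrix.star_eq_conjTranspose, Matrix.conjTranspose_mul, Matrix.mul_assoc]
        have e2 : star (R * V x * Q) * (R * V x * Q) = Qᴴ * ((V x)ᴴ * V x) * Q := by
          calc star (R * V x * Q) * (R * V x * Q) = Qᴴ * ((V x)ᴴ * (Rᴴ * R) * V x) * Q := by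
                simp only [Matrix.star_eq_conjTranspose, Matrix.conjTranspose_mul,
                  Matrix.mul_assoc]
            _ = _ := by rw [hRR, Matrix.mul_one]
        rw [e1, e2, hYR]
        show Qᴴ * ((V x)ᴴ * D.CM n L f x * V x) * Q - (θ : ℂ) • (Qᴴ * ((V x)ᴴ * V x) * Q) -
          (c₀ : ℂ) • (Qᴴ * Q) = _
        simp only [Matrix.mul_sub, Matrix.sub_mul, Matrix.mul_smul, Matrix.smul_mul,
          Matrix.mul_one, Matrix.mul_assoc]
      · refine ⟨0, ?_⟩
        rw [hHe, hGout x hx, hEout x hx]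
        simp
    obtain ⟨z, hz⟩ := pos_of_pointwise (evX X (D.h n)) (fun a b hab => ContinuousMap.ext hab) H hHx
    refine ⟨Ψ z, ?_⟩
    have e1 : Ψ H = star (Ψ G) * (star (laur u ι L f) * laur u ι L f) * Ψ G -
        (θ : ℂ) • (star (Ψ G) * Ψ G) - (c₀ : ℂ) • ι (chiE T e S) := by
      show Ψ (star (D.YM n f * G) * (D.YM n f * G) - (θ : ℂ) • (star G * G) - (c₀ : ℂ) • E) = _
      rw [map_sub, map_sub, map_smul, map_smul, hΨE, map_mul Ψ (star (D.YM n f * G)),
        map_star Ψ (D.YM n f * G), ← hyG, map_mul Ψ (star G) G, map_star, star_mul]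
      simp only [mul_assoc]
    rw [← e1, hz, map_mul, map_star]

end

end Run7.h745
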