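import Pool.Agent.Run7.h745.U1b

/-!
# Piece U1, part 3: bounds for the compressions
-/

set_option autoImplicit false
set_option linter.unusedSectionVars false

noncomputable section

namespace Run7.h745

open Filter Topology Matrix
open scoped InnerProductSpace ComplexOrder

lemma orthonormal_dl : Orthonormal ℂ dl := by
  constructor
  · exact dl_norm
  · intro i j h
    show ⟪dl i, dl j⟫_ℂ = 0
    rw [dl_dl, if_neg h]

lemma dot_self {n : Type} [Fintype n] (ξ : n → ℂ) :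
    star ξ ⬝ᵥ ξ = ((∑ i, ‖ξ i‖ ^ 2 : ℝ) : ℂ) := by
  unfold dotProduct
  push_cast
  refine Finset.sum_congr rfl fun i _ => ?_
  rw [Pi.star_apply, Complex.star_def, Complex.conj_mul']

lemma norm_sum_dl {n : Type} [Fintype n] (a : n → ℤ) (ha : Function.Injective a) (ξ : n → ℂ) :
    ‖∑ i, ξ i • dl (a i)‖ ^ 2 = ∑ i, ‖ξ i‖ ^ 2 := by
  have h1 : Orthonormal ℂ fun i => dl (a i) := orthonormal_dl.comp a ha
  have h2 := h1.inner_sum ξ ξ Finset.univ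
  have h3 : (‖∑ i, ξ i • dl (a i)‖ ^ 2 : ℝ) = (⟪∑ i, ξ i • dl (a i), ∑ i, ξ i • dl (a i)⟫_ℂ).re := by
    rw [inner_self_eq_norm_sq_to_K]
    norm_cast
  rw [h3, h2, Complex.re_sum]
  refine Finset.sum_congr rfl fun i _ => ?_
  rw [Complex.conj_mul']
  norm_cast

section
variable {X : Type} [TopologicalSpace X] [CompactSpace X] [T2Space X] {T : X ≃ₜ X}
  (D : TowerData X T) {A : Type} [CStarAlgebra A] {ι : C(X, ℂ) →⋆ₐ[ℂ] A} {u : unitary A}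
  {x : X} {P : A →⋆ₐ[ℂ] (HH →L[ℂ] HH)}

lemma TowerData.BM_apply (hP : IsOrbitRep T ι u x P) (n L : ℕ) (f : ℤ → C(X, ℂ))
    (hf : ∀ k : ℤ, (L : ℤ) < |k| → f k = 0) (p : Fin (D.h n)) (i : Fin (D.h n - 2 * L)) :
    D.BM n L f x p i = ⟪dl ((p : ℕ) : ℤ), P (laur u ι L f) (dl (((i : ℕ) + L : ℕ) : ℤ))⟫_ℂ := by
  rw [hP.laur_coef L f hf]; rfl

lemma TowerData.BM_mulVec (hP : IsOrbitRep T ι u x P) (n L : ℕ) (f : ℤ → C(X, ℂ))
    (hf : ∀ k : ℤ, (L : ℤ) < |k| → f k = 0) (ξ : Fin (D.h n - 2 * L) → ℂ) :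
    ∑ p, ‖(D.BM n L f x *ᵥ ξ) p‖ ^ 2 ≤ ‖laur u ι L f‖ ^ 2 * ∑ i, ‖ξ i‖ ^ 2 := by
  set η : HH := ∑ i, ξ i • dl (((i : ℕ) + L : ℕ) : ℤ) with hη
  have h1 : ∀ p, (D.BM n L f x *ᵥ ξ) p = ⟪dl ((p : ℕ) : ℤ), P (laur u ι L f) η⟫_ℂ := by
    intro p
    rw [hη, map_sum, inner_sum]
    unfold mulVec dotProduct
    refine Finset.sum_congr rfl fun i _ => ?_
    rw [map_smul, inner_smul_right, ← D.BM_apply hP n L f hf, mul_comm]
  simp only [h1]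
  have h2 : Orthonormal ℂ fun p : Fin (D.h n) => dl ((p : ℕ) : ℤ) :=
    orthonormal_dl.comp _ fun p q h => Fin.ext (by exact_mod_cast h)
  have h3 := h2.sum_inner_products_le (P (laur u ι L f) η) (s := Finset.univ)
  have h4 : ‖P (laur u ι L f) η‖ ≤ ‖laur u ι L f‖ * ‖η‖ :=
    ((P (laur u ι L f)).le_opNorm η).trans (mul_le_mul_of_nonneg_right
      (NonUnitalStarAlgHom.norm_apply_le P _) (norm_nonneg _))
  have h5 : ‖η‖ ^ 2 = ∑ i, ‖ξ i‖ ^ 2 := norm_sum_dl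
    (fun i : Fin (D.h n - 2 * L) => (((i : ℕ) + L : ℕ) : ℤ)) (fun i j h => by
    apply Fin.ext
    have h' : (((i : ℕ) + L : ℕ) : ℤ) = (((j : ℕ) + L : ℕ) : ℤ) := h
    omega) ξ
  calc _ ≤ ‖P (laur u ι L f) η‖ ^ 2 := h3
    _ ≤ (‖laur u ι L f‖ * ‖η‖) ^ 2 := pow_le_pow_left₀ (norm_nonneg _) h4 2
    _ = _ := by rw [mul_pow, h5]

lemma TowerData.CM_psd (n L : ℕ) (f : ℤ → C(X, ℂ)) : (D.CM n L f x).PosSemidef :=
  posSemidef_conjTranspose_mul_self _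

lemma TowerData.CM_bound (hP : IsOrbitRep T ι u x P) (n L : ℕ) (f : ℤ → C(X, ℂ))
    (hf : ∀ k : ℤ, (L : ℤ) < |k| → f k = 0) (θ : ℝ) (hy : ‖laur u ι L f‖ ^ 2 ≤ 1 + θ) :
    (((1 + θ : ℝ) : ℂ) • (1 : Matrix _ _ ℂ) - D.CM n L f x).PosSemidef := by
  refine PosSemidef.of_dotProduct_mulVec_nonneg ?_ fun ξ => ?_
  · have h1 := (D.CM_psd (x := x) n L f).1
    unfold Matrix.IsHermitian at h1 ⊢
    rw [conjTranspose_sub, h1, conjTranspose_smul, conjTranspose_one, Complex.star_def,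
      Complex.conj_ofReal]
  · rw [sub_mulVec, dotProduct_sub, smul_mulVec, one_mulVec, dotProduct_smul, dot_self]
    have h1 : star ξ ⬝ᵥ D.CM n L f x *ᵥ ξ = star (D.BM n L f x *ᵥ ξ) ⬝ᵥ (D.BM n L f x *ᵥ ξ) := by
      unfold TowerData.CM
      rw [star_mulVec, ← dotProduct_mulVec, mulVec_mulVec]
    rw [h1, dot_self, smul_eq_mul, ← Complex.ofReal_mul, ← Complex.ofReal_sub]
    have h2 := D.BM_mulVec hP n L f hf ξ
    have h3 : 0 ≤ ∑ i, ‖ξ i‖ ^ 2 := Finset.sum_nonneg fun i _ => sq_nonneg _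
    have h4 : 0 ≤ (1 + θ) * ∑ i, ‖ξ i‖ ^ 2 - ∑ p, ‖(D.BM n L f x *ᵥ ξ) p‖ ^ 2 := by
      nlinarith [mul_le_mul_of_nonneg_right hy h3]
    exact_mod_cast h4

/-- the diagonal coefficients of `y* y` -/
lemma diag_coef (y : A) (η : HH) : ⟪η, P (star y * y) η⟫_ℂ = ((‖P y η‖ ^ 2 : ℝ) : ℂ) := by
  rw [map_mul, map_star, mul_apply_eq_comp, ContinuousLinearMap.star_eq_adjoint,
    ContinuousLinearMap.adjoint_inner_right, inner_self_eq_norm_sq_to_K]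
  norm_cast

lemma TowerData.col_low (hP : IsOrbitRep T ι u x P) (n L : ℕ) (f : ℤ → C(X, ℂ))
    (i : Fin (D.h n - 2 * L)) :
    ‖P (laur u ι L f) (dl (((i : ℕ) + L : ℕ) : ℤ))‖ ^ 2 ≤ ∑ p, ‖D.BM n L f x p i‖ ^ 2 := by
  set m : ℤ := (((i : ℕ) + L : ℕ) : ℤ) with hm
  have hi := i.2
  have h1 : P (laur u ι L f) (dl m) = ∑ k : (Finset.Icc (-(L : ℤ)) L : Finset ℤ),
      f k.1 ((T ^ (m + k.1) : X ≃ₜ X) x) • dl (m + k.1) := by
    rw [hP.laur_dl, ← Finset.sum_coe_sort]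
  have h2 : ‖P (laur u ι L f) (dl m)‖ ^ 2 = ∑ k ∈ Finset.Icc (-(L : ℤ)) L,
      ‖f k ((T ^ (m + k) : X ≃ₜ X) x)‖ ^ 2 := by
    rw [h1, norm_sum_dl (fun k : (Finset.Icc (-(L : ℤ)) L : Finset ℤ) => m + k.1)
      (fun a b h => Subtype.ext (by simpa using h)) (fun k => f k.1 ((T ^ (m + k.1) : X ≃ₜ X) x))]
    exact Finset.sum_coe_sort (Finset.Icc (-(L : ℤ)) L)
      (fun k => ‖f k ((T ^ (m + k) : X ≃ₜ X) x)‖ ^ 2)
  rw [h2]
  have h3 : ∑ p : Fin (D.h n), ‖D.BM n L f x p i‖ ^ 2 =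
      ∑ p ∈ Finset.Ico (0 : ℤ) (D.h n), ‖f (p - m) ((T ^ p : X ≃ₜ X) x)‖ ^ 2 :=
    (sum_Ico_fin (D.h n) (fun p => ‖f (p - m) ((T ^ p : X ≃ₜ X) x)‖ ^ 2)).symm
  rw [h3]
  have h4 : ∑ k ∈ Finset.Icc (-(L : ℤ)) L, ‖f k ((T ^ (m + k) : X ≃ₜ X) x)‖ ^ 2 =
      ∑ p ∈ Finset.Icc (m - L) (m + L), ‖f (p - m) ((T ^ p : X ≃ₜ X) x)‖ ^ 2 := by
    refine Finset.sum_bij (fun k _ => m + k) ?_ ?_ ?_ ?_
    · intro k hk
      rw [Finset.mem_Icc] at hk ⊢; omega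
    · intro a _ b _ h; omega
    · intro p hp
      rw [Finset.mem_Icc] at hp
      exact ⟨p - m, by rw [Finset.mem_Icc]; omega, by ring⟩
    · intro k _
      rw [add_sub_cancel_left]
  rw [h4]
  refine Finset.sum_le_sum_of_subset_of_nonneg ?_ fun p _ _ => sq_nonneg _
  intro p hp
  rw [Finset.mem_Icc] at hp
  rw [Finset.mem_Ico]; omega

lemma TowerData.trace_low (hP : IsOrbitRep T ι u x P) (n L : ℕ) (hL : 2 * L ≤ D.h n)
    (f : ℤ → C(X, ℂ)) (c : A) (θ : ℝ) (hθ : θ ≤ 1)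
    (hc : ‖c - star (laur u ι L f) * laur u ι L f‖ ≤ θ) (hy : ‖laur u ι L f‖ ^ 2 ≤ 1 + θ) :
    (∑ i ∈ Finset.range (D.h n), ⟪dl i, P c (dl i)⟫_ℂ).re - θ * D.h n - 4 * L ≤
      (D.CM n L f x).trace.re := by
  set y := laur u ι L f with hyd
  have h1 : ∀ i : ℤ, (⟪dl i, P c (dl i)⟫_ℂ).re ≤ ‖P y (dl i)‖ ^ 2 + θ := by
    intro i
    have h2 : (⟪dl i, P c (dl i)⟫_ℂ).re = (⟪dl i, P (c - star y * y) (dl i)⟫_ℂ).re +
        ‖P y (dl i)‖ ^ 2 := by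
      rw [map_sub, _root_.sub_apply, inner_sub_right, Complex.sub_re, diag_coef, Complex.ofReal_re]
      ring
    rw [h2]
    have h3 : (⟪dl i, P (c - star y * y) (dl i)⟫_ℂ).re ≤ θ := by
      refine (Complex.re_le_norm _).trans ((coef_le _ i i).trans ?_)
      exact (NonUnitalStarAlgHom.norm_apply_le P _).trans hc
    linarith
  have h2 : ∀ i : ℤ, ‖P y (dl i)‖ ^ 2 ≤ 2 := by
    intro i
    have h3 : ‖P y (dl i)‖ ≤ ‖y‖ := by
      refine ((P y).le_opNorm _).trans ?_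
      rw [dl_norm, mul_one]
      exact NonUnitalStarAlgHom.norm_apply_le P y
    calc ‖P y (dl i)‖ ^ 2 ≤ ‖y‖ ^ 2 := pow_le_pow_left₀ (norm_nonneg _) h3 2
      _ ≤ 2 := by linarith
  have h3 : (∑ i ∈ Finset.range (D.h n), ⟪dl i, P c (dl i)⟫_ℂ).re ≤
      ∑ i ∈ Finset.range (D.h n), ‖P y (dl i)‖ ^ 2 + θ * D.h n := by
    rw [Complex.re_sum]
    calc _ ≤ ∑ i ∈ Finset.range (D.h n), (‖P y (dl i)‖ ^ 2 + θ) :=
          Finset.sum_le_sum fun i _ => h1 i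
      _ = _ := by
          rw [Finset.sum_add_distrib, Finset.sum_const, Finset.card_range, nsmul_eq_mul, mul_comm θ]
  have h4 : ∑ i ∈ Finset.range (D.h n), ‖P y (dl i)‖ ^ 2 ≤
      ∑ i ∈ Finset.range (D.h n - 2 * L), ‖P y (dl ((i + L : ℕ) : ℤ))‖ ^ 2 + 4 * L := by
    have h5 : ∑ i ∈ Finset.range (D.h n), ‖P y (dl i)‖ ^ 2 =
        ∑ i ∈ Finset.Ico 0 L, ‖P y (dl ((i : ℕ) : ℤ))‖ ^ 2 +
        ∑ i ∈ Finset.Ico L (D.h n - L), ‖P y (dl ((i : ℕ) : ℤ))‖ ^ 2 +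
        ∑ i ∈ Finset.Ico (D.h n - L) (D.h n), ‖P y (dl ((i : ℕ) : ℤ))‖ ^ 2 := by
      rw [Finset.range_eq_Ico, Finset.sum_Ico_consecutive _ (by omega) (by omega),
        Finset.sum_Ico_consecutive _ (by omega) (by omega)]
    have h6 : ∑ i ∈ Finset.Ico 0 L, ‖P y (dl ((i : ℕ) : ℤ))‖ ^ 2 ≤ 2 * L := by
      refine (Finset.sum_le_card_nsmul _ _ 2 fun i _ => h2 _).trans ?_
      rw [Nat.card_Ico, nsmul_eq_mul, Nat.sub_zero, mul_comm]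
    have h7 : ∑ i ∈ Finset.Ico (D.h n - L) (D.h n), ‖P y (dl ((i : ℕ) : ℤ))‖ ^ 2 ≤ 2 * L := by
      refine (Finset.sum_le_card_nsmul _ _ 2 fun i _ => h2 _).trans ?_
      rw [Nat.card_Ico, nsmul_eq_mul, mul_comm]
      have : D.h n - (D.h n - L) ≤ L := by omega
      have : ((D.h n - (D.h n - L) : ℕ) : ℝ) ≤ L := by exact_mod_cast this
      linarith
    have h8 : ∑ i ∈ Finset.Ico L (D.h n - L), ‖P y (dl ((i : ℕ) : ℤ))‖ ^ 2 =
        ∑ i ∈ Finset.range (D.h n - 2 * L), ‖P y (dl ((i + L : ℕ) : ℤ))‖ ^ 2 := by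
      rw [Finset.sum_Ico_eq_sum_range]
      have : D.h n - L - L = D.h n - 2 * L := by omega
      rw [this]
      refine Finset.sum_congr rfl fun i _ => ?_
      rw [add_comm L i]
    rw [h5, h8]
    linarith
  have h5 : ∑ i ∈ Finset.range (D.h n - 2 * L), ‖P y (dl ((i + L : ℕ) : ℤ))‖ ^ 2 ≤
      (D.CM n L f x).trace.re := by
    rw [← Fin.sum_univ_eq_sum_range (fun i => ‖P y (dl ((i + L : ℕ) : ℤ))‖ ^ 2)]
    unfold Matrix.trace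
    rw [Complex.re_sum]
    refine Finset.sum_le_sum fun i _ => ?_
    refine (D.col_low hP n L f i).trans (le_of_eq ?_)
    unfold TowerData.CM
    rw [Matrix.diag_apply, Matrix.mul_apply, Complex.re_sum]
    refine Finset.sum_congr rfl fun p _ => ?_
    rw [Matrix.conjTranspose_apply, Complex.star_def, Complex.conj_mul']
    norm_cast
  linarith

end

end Run7.h745
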