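import Pool.Agent.Run7.h745.U1c

/-!
# Piece U1, part 4: application of general position
-/

set_option autoImplicit false
set_option linter.unusedSectionVars false

noncomputable section

namespace Run7.h745

open Filter Topology Matrix
open scoped InnerProductSpace ComplexOrder

/-- the letter of type `false` with parameter `ζ` -/
def letF (ζ : Fin 5 → ℝ) (h : ∑ a, ζ a ^ 2 ≤ 1) : QQ := fun m' =>
  ⟨fun a b => if m' = 1 then (if h : (a : ℕ) < 5 then ζ ⟨a, h⟩ else 0) *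
    (if h : (b : ℕ) < 5 then ζ ⟨b, h⟩ else 0) else 0, by
    by_cases hm : m' = 1
    · subst hm
      refine ⟨fun a => if h : (a : ℕ) < 5 then ζ ⟨a, h⟩ else 0, ?_, fun i j => by simp⟩
      refine le_trans (le_of_eq ?_) h
      refine Finset.sum_congr rfl fun a _ => ?_
      show (if h : (a : ℕ) < 5 then ζ ⟨a, h⟩ else 0) ^ 2 = ζ a ^ 2
      rw [dif_pos (show (a : ℕ) < 5 from a.2)]
    · exact ⟨0, by simp, fun i j => by simp [hm]⟩⟩

lemma letF_mem (ζ : Fin 5 → ℝ) (h : ∑ a, ζ a ^ 2 ≤ 1) : letF ζ h ∈ QS false := by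
  intro m hm i j
  simp only [letF]
  rw [if_neg hm]

lemma letF_apply (ζ : Fin 5 → ℝ) (h : ∑ a, ζ a ^ 2 ≤ 1) (a b : Fin 5) :
    ((letF ζ h) 1).1 a b = ζ a * ζ b := by
  show (if (1 : ℕ) = 1 then (if h : (a : ℕ) < 5 then ζ ⟨a, h⟩ else 0) *
    (if h : (b : ℕ) < 5 then ζ ⟨b, h⟩ else 0) else 0) = _
  rw [if_pos rfl, dif_pos a.2, dif_pos b.2]

section
variable {X : Type} [TopologicalSpace X] [CompactSpace X] [T2Space X] {T : X ≃ₜ X}
  (D : TowerData X T)

lemma TowerData.g2_apply (g2 : S_G2) (n L : ℕ) (f : ℤ → C(X, ℂ)) (hP : ∀ k, D.IsP n (f k))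
    (θ : ℝ) (hθ : 0 < θ) (s : ℕ)
    (hbd : ∀ x ∈ D.VT n false, (((1 + θ : ℝ) : ℂ) • (1 : Matrix _ _ ℂ) - D.CM n L f x).PosSemidef)
    (htr : ∀ x ∈ D.VT n false, (1 + θ) * (s + (3 * (D.free n).card : ℕ)) +
      2 * θ * ((D.h n - 2 * L : ℕ) : ℝ) ≤ (D.CM n L f x).trace.re) :
    ∃ V : X → Matrix (Fin (D.h n - 2 * L)) (Fin s) ℂ, Continuous V ∧ ∃ c₀ : ℝ, 0 < c₀ ∧
      ∀ x ∈ D.VT n false, ((V x)ᴴ * (D.CM n L f x - (θ : ℂ) • (1 : Matrix _ _ ℂ)) * V x -
        (c₀ : ℂ) • (1 : Matrix _ _ ℂ)).PosSemidef := by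
  classical
  let M := Fintype.card (D.free n × Fin 5)
  let e5 : Fin M ≃ D.free n × Fin 5 := (Fintype.equivFin _).symm
  have hM : M ≤ 2 * (3 * (D.free n).card) + 1 := by
    have : M = (D.free n).card * 5 := by
      show Fintype.card (D.free n × Fin 5) = _
      rw [Fintype.card_prod, Fintype.card_coe, Fintype.card_fin]
    omega
  let zeta : (Fin M → ℝ) → ℕ → Fin 5 → ℝ := fun w j a =>
    if h : j ∈ D.free n then w (e5.symm (⟨j, h⟩, a)) else 0
  let K : Set (Fin M → ℝ) := {w | ∀ j : D.free n, ∑ a, (w (e5.symm (j, a))) ^ 2 ≤ 1}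
  have hKc : IsCompact K := by
    have h1 : IsClosed K := by
      have : K = ⋂ j : D.free n, {w : Fin M → ℝ | ∑ a, (w (e5.symm (j, a))) ^ 2 ≤ 1} := by
        ext w; simp [K]
      rw [this]
      exact isClosed_iInter fun j => isClosed_le (by fun_prop) continuous_const
    have h2 : IsCompact (Set.pi Set.univ fun _ : Fin M => Set.Icc (-1 : ℝ) 1) :=
      isCompact_univ_pi fun _ => isCompact_Icc
    refine h2.of_isClosed_subset h1 fun w hw q _ => ?_
    have h3 := hw (e5 q).1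
    have h4 : (w q) ^ 2 ≤ 1 := by
      refine le_trans ?_ h3
      have h5 := Finset.single_le_sum (f := fun a => (w (e5.symm ((e5 q).1, a))) ^ 2)
        (fun a _ => sq_nonneg _) (Finset.mem_univ (e5 q).2)
      simp only [Prod.mk.eta, Equiv.symm_apply_apply] at h5
      exact h5
    exact abs_le.mp (by nlinarith [sq_abs (w q), abs_nonneg (w q)])
  -- polynomials
  have hpol : ∀ (k : ℤ) (p : Fin (D.h n)), ∃ Q : MvPolynomial (ℕ × Fin 5) ℂ,
      ∀ x ∈ D.VT n false, ∀ ζ : ℕ → Fin 5 → ℝ,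
      (∀ j ∈ D.free n, ∀ a b : Fin 5,
        (D.z ((T ^ (j : ℤ) : X ≃ₜ X) x) 1).1 a b = ζ j a * ζ j b) →
      f k ((T ^ ((p : ℕ) : ℤ) : X ≃ₜ X) x) = MvPolynomial.eval (fun p => (ζ p.1 p.2 : ℂ)) Q :=
    fun k p => hP k p p.2
  choose Q hQ using hpol
  let Bw : (Fin M → ℝ) → Matrix (Fin (D.h n)) (Fin (D.h n - 2 * L)) ℂ := fun w =>
    Matrix.of fun p i => MvPolynomial.eval (fun q : ℕ × Fin 5 => (zeta w q.1 q.2 : ℂ))
      (Q (((p : ℕ) : ℤ) - ((i : ℕ) + L : ℕ)) p)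
  have hBw : ∀ w, ∀ x ∈ D.VT n false, (∀ j ∈ D.free n, ∀ a b : Fin 5,
      (D.z ((T ^ (j : ℤ) : X ≃ₜ X) x) 1).1 a b = zeta w j a * zeta w j b) →
      D.BM n L f x = Bw w := by
    intro w x hx h
    ext p i
    exact hQ _ p x hx (zeta w) h
  let Cw : (Fin M → ℝ) → Matrix (Fin (D.h n - 2 * L)) (Fin (D.h n - 2 * L)) ℂ := fun w =>
    (Bw w)ᴴ * Bw w
  have hCw : ∀ w, ∀ x ∈ D.VT n false, (∀ j ∈ D.free n, ∀ a b : Fin 5,
      (D.z ((T ^ (j : ℤ) : X ≃ₜ X) x) 1).1 a b = zeta w j a * zeta w j b) →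
      D.CM n L f x = Cw w := by
    intro w x hx h
    show (D.BM n L f x)ᴴ * D.BM n L f x = (Bw w)ᴴ * Bw w
    rw [hBw w x hx h]
  -- parameters come from points
  have fact1 : ∀ w ∈ K, ∃ x ∈ D.VT n false, D.CM n L f x = Cw w := by
    intro w hw
    have hz : ∀ j : D.free n, ∑ a, (zeta w j a) ^ 2 ≤ 1 := by
      intro j
      have := hw j
      simp only [zeta, j.2, dif_pos]
      exact this
    obtain ⟨x, hx, h⟩ := D.surj n false
      (fun j => if h : j ∈ D.free n then letF (zeta w j) (hz ⟨j, h⟩) else fun _ =>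
        ⟨0, ⟨0, by simp, by simp⟩⟩) (by
        intro j hj
        simp only [hj, dif_pos]
        exact letF_mem _ _)
    have hxV : x ∈ D.VT n false := ⟨hx, fun i hi => (h i hi).1⟩
    refine ⟨x, hxV, hCw w x hxV fun j hj a b => ?_⟩
    rw [(h j hj).2, dif_pos hj, letF_apply]
  -- points have parameters
  have fact2 : ∀ x ∈ D.VT n false, ∃ w ∈ K, D.CM n L f x = Cw w := by
    intro x hx
    have h1 : ∀ j : D.free n, ∃ ζ : Fin 5 → ℝ, ∑ a, ζ a ^ 2 ≤ 1 ∧ ∀ a b : Fin 5,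
        (D.z ((T ^ ((j : ℕ) : ℤ) : X ≃ₜ X) x) 1).1 a b = ζ a * ζ b := by
      intro j
      obtain ⟨ζ, h1, h2⟩ := (D.z ((T ^ ((j : ℕ) : ℤ) : X ≃ₜ X) x) 1).2
      exact ⟨ζ, h1, h2⟩
    choose ζ hζ1 hζ2 using h1
    let w : Fin M → ℝ := fun q => ζ (e5 q).1 (e5 q).2
    have hw : ∀ (j : D.free n) (a : Fin 5), w (e5.symm (j, a)) = ζ j a := by
      intro j a
      simp only [w, Equiv.apply_symm_apply]
    refine ⟨w, ?_, hCw w x hx fun j hj a b => ?_⟩
    · intro j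
      simp only [hw]
      exact hζ1 j
    · simp only [zeta, hj, dif_pos, hw]
      exact hζ2 ⟨j, hj⟩ a b
  -- Lipschitz
  have hzl : ∀ q : ℕ × Fin 5, LipB K fun w => ((zeta w q.1 q.2 : ℝ) : ℂ) := by
    intro q
    by_cases hq : q.1 ∈ D.free n
    · refine ⟨1, 1, zero_le_one, zero_le_one, fun w hw => ?_, fun w _ w' _ => ?_⟩
      · simp only [zeta, hq, dif_pos]
        rw [Complex.norm_real, Real.norm_eq_abs]
        have h3 := hw ⟨q.1, hq⟩
        have h5 := Finset.single_le_sum (f := fun a => (w (e5.symm (⟨q.1, hq⟩, a))) ^ 2)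
          (fun a _ => sq_nonneg _) (Finset.mem_univ q.2)
        nlinarith [sq_abs (w (e5.symm (⟨q.1, hq⟩, q.2))), abs_nonneg (w (e5.symm (⟨q.1, hq⟩, q.2)))]
      · simp only [zeta, hq, dif_pos]
        rw [← Complex.ofReal_sub, Complex.norm_real, one_mul]
        exact norm_le_pi_norm (w - w') _
    · refine ⟨0, 0, le_rfl, le_rfl, fun w _ => ?_, fun w _ w' _ => ?_⟩ <;>
        simp [zeta, hq]
  have hClip : ∀ i j, LipB K fun w => Cw w i j := by
    intro i j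
    have h1 : (fun w => Cw w i j) = fun w => ∑ p, star (Bw w p i) * Bw w p j := by
      funext w
      show ((Bw w)ᴴ * Bw w) i j = _
      rw [Matrix.mul_apply]; rfl
    rw [h1]
    refine LipB.sum _ fun p _ => LipB.mul (LipB.star ?_) ?_
    · exact LipB.poly (Q (((p : ℕ) : ℤ) - ((i : ℕ) + L : ℕ)) p) hzl
    · exact LipB.poly (Q (((p : ℕ) : ℤ) - ((j : ℕ) + L : ℕ)) p) hzl
  choose Lc Cc hLc _ _ hLip using hClip
  let Lt : ℝ := ∑ i, ∑ j, Lc i j
  have hLt : ∀ i j, Lc i j ≤ Lt := by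
    intro i j
    have h1 : Lc i j ≤ ∑ j, Lc i j := Finset.single_le_sum (f := fun j => Lc i j)
      (fun j _ => hLc i j) (Finset.mem_univ j)
    have h2 : ∑ j, Lc i j ≤ Lt := Finset.single_le_sum (f := fun i => ∑ j, Lc i j)
      (fun i _ => Finset.sum_nonneg fun j _ => hLc i j) (Finset.mem_univ i)
    exact h1.trans h2
  obtain ⟨v, c₀, hc₀, hv, hpos⟩ := g2 M (D.h n - 2 * L) s (3 * (D.free n).card) θ K Cw Lt hθ hKc
    (fun x hx y hy i j => (hLip i j x hx y hy).trans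
      (mul_le_mul_of_nonneg_right (hLt i j) (norm_nonneg _)))
    (fun w hw => by
      obtain ⟨x, hx, hxw⟩ := fact1 w hw
      rw [← hxw]
      exact ⟨D.CM_psd n L f, hbd x hx⟩)
    (fun w hw => by
      obtain ⟨x, hx, hxw⟩ := fact1 w hw
      rw [← hxw]
      exact htr x hx) hM
  refine ⟨fun x => v (D.CM n L f x), ?_, c₀, hc₀, fun x hx => ?_⟩
  · exact hv.comp_continuous (D.continuous_CM n L f) fun x => (D.CM_psd n L f).1
  · obtain ⟨w, hw, hxw⟩ := fact2 x hx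
    have h1 := hpos w hw
    rw [← hxw] at h1
    exact h1

end

end Run7.h745
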