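import Pool.Agent.Run7.h745.U1d

/-!
# Piece U1, part 5: end of the proof
-/

set_option autoImplicit false
set_option linter.unusedSectionVars false

noncomputable section

namespace Run7.h745

open Filter Topology Matrix
open scoped InnerProductSpace ComplexOrder

section
variable {X : Type} [TopologicalSpace X] [CompactSpace X] [T2Space X] {T : X ≃ₜ X}
  (D : TowerData X T)

/-- positions in a level `n` block which are in `I` modulo `h n₁` -/
def TowerData.JI (n n₁ : ℕ) (I : Finset ℕ) : Finset (Fin (D.h n)) :=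
  Finset.univ.filter fun i => (i : ℕ) % D.h n₁ ∈ I

/-- enumeration -/
def TowerData.eI (n n₁ : ℕ) (I : Finset ℕ) : Fin (D.JI n n₁ I).card → Fin (D.h n) := fun k =>
  ((D.JI n n₁ I).equivFin.symm k).1

lemma TowerData.eI_inj (n n₁ : ℕ) (I : Finset ℕ) : Function.Injective (D.eI n n₁ I) := by
  intro k l h
  exact (D.JI n n₁ I).equivFin.symm.injective (Subtype.ext h)

lemma TowerData.card_JI (n n₁ : ℕ) (hn : n₁ ≤ n) (I : Finset ℕ) :
    (D.JI n n₁ I).card ≤ I.card * (D.h n / D.h n₁) := by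
  have h1 : (I ×ˢ Finset.range (D.h n / D.h n₁)).card = I.card * (D.h n / D.h n₁) := by
    rw [Finset.card_product, Finset.card_range]
  rw [← h1]
  refine Finset.card_le_card_of_injOn (fun i => ((i : ℕ) % D.h n₁, (i : ℕ) / D.h n₁)) ?_ ?_
  · intro i hi
    have h2 := (Finset.mem_filter.mp hi).2
    rw [Finset.mem_coe, Finset.mem_product, Finset.mem_range]
    refine ⟨h2, ?_⟩
    obtain ⟨a, ha⟩ := D.h_dvd hn
    have h3 := i.2
    have hq : D.h n / D.h n₁ = a := by rw [ha, Nat.mul_div_cancel_left _ (D.h_pos n₁)]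
    show (i : ℕ) / D.h n₁ < D.h n / D.h n₁
    rw [hq]
    exact Nat.div_lt_of_lt_mul (by rw [← ha]; exact h3)
  · intro i _ j _ h
    simp only [Prod.mk.injEq] at h
    apply Fin.ext
    rw [← Nat.div_add_mod (i : ℕ) (D.h n₁), ← Nat.div_add_mod (j : ℕ) (D.h n₁), h.1, h.2]

open Classical in
lemma TowerData.chi_formula (n n₁ : ℕ) (hn : n₁ ≤ n) (I : Finset ℕ)
    (hI : ∀ i ∈ I, i < D.h n₁) (x : X) :
    chiE T (D.eI n n₁ I) (D.VT n false) x =
      if (∃ i ∈ I, (T ^ (-(i : ℤ)) : X ≃ₜ X) x ∈ D.V n₁) ∧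
        (∃ i < D.h n, (T ^ (-(i : ℤ)) : X ≃ₜ X) x ∈ D.VT n false) then 1 else 0 := by
  have hcl := D.isClopen_VT n false
  unfold chiE
  rw [ContinuousMap.sum_apply]
  simp only [cT_apply]
  by_cases h : ∃ i < D.h n, (T ^ (-(i : ℤ)) : X ≃ₜ X) x ∈ D.VT n false
  · obtain ⟨i₀, hi₀, hx₀⟩ := h
    have h1 : ∀ k, ind (D.VT n false) ((T ^ (-((D.eI n n₁ I k : ℕ) : ℤ)) : X ≃ₜ X) x) =
        if D.eI n n₁ I k = ⟨i₀, hi₀⟩ then (1 : ℂ) else 0 := by
      intro k
      by_cases hk : D.eI n n₁ I k = ⟨i₀, hi₀⟩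
      · rw [if_pos hk, hk]
        exact ind_mem hcl hx₀
      · rw [if_neg hk]
        refine ind_notMem hcl fun h2 => hk ?_
        obtain ⟨j, -, hj⟩ := D.part n x
        apply Fin.ext
        show ((D.eI n n₁ I k : Fin (D.h n)) : ℕ) = i₀
        rw [hj _ ⟨(D.eI n n₁ I k).2, h2.1⟩, hj i₀ ⟨hi₀, hx₀.1⟩]
    simp only [h1]
    have h2 : (∃ i ∈ I, (T ^ (-(i : ℤ)) : X ≃ₜ X) x ∈ D.V n₁) ↔ i₀ % D.h n₁ ∈ I := by
      have hz := D.V_anti hn hx₀.1
      have key : ∀ i : ℕ, (T ^ (-(i : ℤ)) : X ≃ₜ X) x ∈ D.V n₁ ↔ (D.h n₁ : ℤ) ∣ (i₀ : ℤ) - i := by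
        intro i
        rw [← D.mem_V_iff n₁ ((i₀ : ℤ) - i) _ hz, ← zp_add]
        have : ((i₀ : ℤ) - i + -(i₀ : ℤ)) = -(i : ℤ) := by ring
        rw [this]
      constructor
      · rintro ⟨i, hi, h3⟩
        rw [key] at h3
        have h4 : i₀ % D.h n₁ = i % D.h n₁ := by
          have h5 : (i : ℤ) ≡ i₀ [ZMOD D.h n₁] := Int.modEq_iff_dvd.mpr h3
          have h6 : i ≡ i₀ [MOD D.h n₁] := (Int.natCast_modEq_iff).mp h5
          exact h6.symm
        rw [h4, Nat.mod_eq_of_lt (hI i hi)]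
        exact hi
      · intro h3
        refine ⟨i₀ % D.h n₁, h3, ?_⟩
        rw [key]
        refine ⟨(i₀ / D.h n₁ : ℕ), ?_⟩
        have := Nat.div_add_mod i₀ (D.h n₁)
        have h4 : (i₀ : ℤ) = (D.h n₁ : ℤ) * ((i₀ / D.h n₁ : ℕ) : ℤ) + ((i₀ % D.h n₁ : ℕ) : ℤ) := by
          exact_mod_cast this.symm
        linarith
    by_cases h3 : i₀ % D.h n₁ ∈ I
    · rw [if_pos ⟨h2.mpr h3, ⟨i₀, hi₀, hx₀⟩⟩]
      have hmem : (⟨i₀, hi₀⟩ : Fin (D.h n)) ∈ D.JI n n₁ I := by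
        rw [TowerData.JI, Finset.mem_filter]
        exact ⟨Finset.mem_univ _, h3⟩
      have hk0 : D.eI n n₁ I ((D.JI n n₁ I).equivFin ⟨⟨i₀, hi₀⟩, hmem⟩) = ⟨i₀, hi₀⟩ := by
        unfold TowerData.eI
        rw [Equiv.symm_apply_apply]
      rw [Finset.sum_eq_single ((D.JI n n₁ I).equivFin ⟨⟨i₀, hi₀⟩, hmem⟩)]
      · rw [if_pos hk0]
      · intro k _ hk
        rw [if_neg fun h' => hk (D.eI_inj n n₁ I (h'.trans hk0.symm))]
      · intro h'; exact absurd (Finset.mem_univ _) h'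
    · rw [if_neg fun h' => h3 (h2.mp h'.1)]
      refine Finset.sum_eq_zero fun k _ => ?_
      rw [if_neg]
      intro h'
      apply h3
      have h4 := ((D.JI n n₁ I).equivFin.symm k).2
      have h5 : (((D.JI n n₁ I).equivFin.symm k).1 : Fin (D.h n)) = ⟨i₀, hi₀⟩ := h'
      rw [h5, TowerData.JI, Finset.mem_filter] at h4
      exact h4.2
  · rw [if_neg fun h' => h h'.2]
    refine Finset.sum_eq_zero fun k _ => ind_notMem hcl fun h2 => h ?_
    exact ⟨_, (D.eI n n₁ I k).2, h2⟩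

end

lemma norm_le_one_of {A : Type} [CStarAlgebra A] {c y w : A} (hy : c = star y * y)
    (hw : 1 - c = star w * w) : ‖y‖ ≤ 1 := by
  let _ : PartialOrder A := CStarAlgebra.spectralOrder A
  have _ : StarOrderedRing A := CStarAlgebra.spectralOrderedRing A
  have h0 : 0 ≤ c := by rw [hy]; exact star_mul_self_nonneg y
  have h1 : c ≤ 1 := by
    rw [← sub_nonneg, hw]; exact star_mul_self_nonneg w
  have h2 : ‖c‖ ≤ 1 := (CStarAlgebra.norm_le_one_iff_of_nonneg c h0).mpr h1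
  rw [hy, CStarRing.norm_star_mul_self] at h2
  nlinarith [norm_nonneg y]

/-- sums of positive elements -/
lemma add_pos_factor {A : Type} [CStarAlgebra A] (y z : A) :
    ∃ s, star y * y + star z * z = star s * s := by
  let _ : PartialOrder A := CStarAlgebra.spectralOrder A
  have _ : StarOrderedRing A := CStarAlgebra.spectralOrderedRing A
  exact CStarAlgebra.nonneg_iff_eq_star_mul_self.mp
    (add_nonneg (star_mul_self_nonneg y) (star_mul_self_nonneg z))

/-- `a + θ` is positive for self-adjoint `a` with `‖a‖ ≤ θ` -/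
lemma shift_pos_factor {A : Type} [CStarAlgebra A] {a : A} (ha : IsSelfAdjoint a) (θ : ℝ)
    (hθ : ‖a‖ ≤ θ) : ∃ s, a + (θ : ℂ) • (1 : A) = star s * s := by
  let _ : PartialOrder A := CStarAlgebra.spectralOrder A
  have _ : StarOrderedRing A := CStarAlgebra.spectralOrderedRing A
  refine CStarAlgebra.nonneg_iff_eq_star_mul_self.mp ?_
  have h1 := IsSelfAdjoint.neg_algebraMap_norm_le_self (a := a) ha
  have h2 : algebraMap ℝ A ‖a‖ ≤ algebraMap ℝ A θ := by
    rw [← sub_nonneg, ← map_sub]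
    exact algebraMap_nonneg A (sub_nonneg.mpr hθ)
  have h3 : (θ : ℂ) • (1 : A) = algebraMap ℝ A θ := by
    rw [Algebra.algebraMap_eq_smul_one]
    exact (RCLike.real_smul_eq_coe_smul (K := ℂ) θ (1 : A)).symm
  rw [h3]
  have h4 : -(algebraMap ℝ A θ) ≤ a := (neg_le_neg h2).trans h1
  have h5 := add_le_add_left h4 (algebraMap ℝ A θ)
  rw [neg_add_cancel] at h5
  exact h5

theorem u1 : S_U1 := by
  classical
  intro X _ _ _ T D A _ ι u π hA hπ s3b s3c cp3 psi av g2 c n₁ I ρ η ⟨y, hy⟩ ⟨w, hw⟩ hI hρ hη hτ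
  have hyn : ‖y‖ ≤ 1 := norm_le_one_of hy hw
  have hρ0 : 0 ≤ ρ := by
    have h1 := hρ 0
    have h2 : (0 : ℝ) < D.h 0 := by exact_mod_cast D.h_pos 0
    have h3 : (0 : ℝ) ≤ 3 * ((D.free 0).card : ℝ) := by positivity
    by_contra hc
    push Not at hc
    nlinarith [mul_neg_of_neg_of_pos hc h2]
  set K₀ : ℝ := (I.card : ℝ) / D.h n₁ + ρ with hK₀
  have hK0 : 0 ≤ K₀ := by positivity
  set θ : ℝ := min 1 (η / (8 * (K₀ + 2))) with hθd
  have hθ0 : 0 < θ := lt_min one_pos (by positivity)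
  have hθ1 : θ ≤ 1 := min_le_left _ _
  have hθ2 : θ * (K₀ + 2) ≤ η / 8 := by
    have h1 : θ ≤ η / (8 * (K₀ + 2)) := min_le_right _ _
    calc θ * (K₀ + 2) ≤ η / (8 * (K₀ + 2)) * (K₀ + 2) :=
          mul_le_mul_of_nonneg_right h1 (by positivity)
      _ = η / 8 := by field_simp
  have hθ3 : θ ≤ η / 16 := by nlinarith
  obtain ⟨L, N₀, f, hf1, hf2, hf3⟩ := laur_approx D hA s3b cp3 y (θ / 3) (by positivity)
  set y' := laur u ι L f with hy'
  have hn2 : ‖y'‖ ≤ 1 + θ / 3 := by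
    calc ‖y'‖ = ‖y - (y - y')‖ := by congr 1; abel
      _ ≤ ‖y‖ + ‖y - y'‖ := norm_sub_le _ _
      _ ≤ 1 + θ / 3 := by linarith
  have hn3 : ‖y'‖ ^ 2 ≤ 1 + θ := by
    have h1 : ‖y'‖ ^ 2 ≤ (1 + θ / 3) ^ 2 := pow_le_pow_left₀ (norm_nonneg _) hn2 2
    nlinarith
  have hn4 : ‖c - star y' * y'‖ ≤ θ := by
    have e : c - star y' * y' = star (y - y') * y + star y' * (y - y') := by
      rw [hy, star_sub]; noncomm_ring
    rw [e]
    calc _ ≤ ‖star (y - y') * y‖ + ‖star y' * (y - y')‖ := norm_add_le _ _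
      _ ≤ θ / 3 * 1 + (1 + θ / 3) * (θ / 3) := by
          refine add_le_add ?_ ?_
          · refine (norm_mul_le _ _).trans (mul_le_mul ?_ hyn (norm_nonneg _) (by positivity))
            rw [norm_star]; exact hf3.le
          · refine (norm_mul_le _ _).trans (mul_le_mul ?_ hf3.le (norm_nonneg _) (by positivity))
            rw [norm_star]; exact hn2
      _ ≤ θ := by nlinarith
  obtain ⟨n₀', hn₀'⟩ := AVlow av D hA hπ c (K₀ + 7 * η / 8) (fun τ => by
    have := hτ τ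
    have h1 : K₀ + η ≤ (τ.val c).re := this
    linarith)
  have hht : Tendsto (fun n => (D.h n : ℝ)) atTop atTop :=
    tendsto_natCast_atTop_atTop.comp D.h_tendsto
  obtain ⟨N₂, hN₂⟩ := eventually_atTop.mp (tendsto_atTop.mp hht (max (2 * L) (16 * L / η)))
  refine ⟨max (max N₀ n₀') (max n₁ N₂), fun n hn => ?_⟩
  have hnN₀ : N₀ ≤ n := (le_max_left _ _).trans ((le_max_left _ _).trans hn)
  have hnn₀ : n₀' ≤ n := (le_max_right _ _).trans ((le_max_left _ _).trans hn)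
  have hnn₁ : n₁ ≤ n := (le_max_left _ _).trans ((le_max_right _ _).trans hn)
  have hnN₂ : N₂ ≤ n := (le_max_right _ _).trans ((le_max_right _ _).trans hn)
  have hh := hN₂ n hnN₂
  have hL : 2 * L ≤ D.h n := by
    have := (le_max_left (2 * (L : ℝ)) (16 * L / η)).trans hh
    exact_mod_cast this
  have hL2 : 4 * (L : ℝ) ≤ η / 4 * D.h n := by
    have := (le_max_right (2 * (L : ℝ)) (16 * L / η)).trans hh
    rw [div_le_iff₀ hη] at this
    linarith
  have hhpos : (0 : ℝ) < D.h n := by exact_mod_cast D.h_pos n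
  set s := (D.JI n n₁ I).card with hs
  have hs1 : (s : ℝ) ≤ (I.card : ℝ) / D.h n₁ * D.h n := by
    have h1 := D.card_JI n n₁ hnn₁ I
    obtain ⟨a, ha⟩ := D.h_dvd hnn₁
    have hq : D.h n / D.h n₁ = a := by rw [ha, Nat.mul_div_cancel_left _ (D.h_pos n₁)]
    rw [hq] at h1
    have h2 : (s : ℝ) ≤ I.card * a := by exact_mod_cast h1
    have hha : (D.h n : ℝ) = D.h n₁ * a := by exact_mod_cast ha
    rw [hha]
    have h3 : (0 : ℝ) < D.h n₁ := by exact_mod_cast D.h_pos n₁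
    calc (s : ℝ) ≤ I.card * a := h2
      _ = _ := by rw [← mul_assoc, div_mul_cancel₀ _ h3.ne']
  obtain ⟨V, hV, c₀, hc₀, hpos⟩ := D.g2_apply g2 n L f (fun k => (hf1 k n hnN₀).2) θ hθ0 s
    (fun x _ => D.CM_bound (hπ.rep x) n L f hf2 θ hn3) (fun x _ => by
      have h1 := D.trace_low (hπ.rep x) n L hL f c θ hθ1 hn4 hn3
      have h2 := hn₀' n hnn₀ x
      have h3 := hρ n
      have h4 : ((D.h n - 2 * L : ℕ) : ℝ) ≤ D.h n := by exact_mod_cast Nat.sub_le _ _
      have h5 : (s : ℝ) + ((3 * (D.free n).card : ℕ) : ℝ) ≤ K₀ * D.h n := by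
        push_cast
        rw [hK₀, add_mul]
        linarith
      have h6 : (1 + θ) * ((s : ℝ) + ((3 * (D.free n).card : ℕ) : ℝ)) +
          2 * θ * ((D.h n - 2 * L : ℕ) : ℝ) ≤ (1 + θ) * (K₀ * D.h n) + 2 * θ * D.h n := by
        have := mul_le_mul_of_nonneg_left h5 (by linarith : (0 : ℝ) ≤ 1 + θ)
        have := mul_le_mul_of_nonneg_left h4 (by linarith : (0 : ℝ) ≤ 2 * θ)
        linarith
      have h7 : (1 + θ) * (K₀ * D.h n) + 2 * θ * D.h n = (K₀ + θ * (K₀ + 2)) * D.h n := by ring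
      have h8 : (K₀ + θ * (K₀ + 2)) * D.h n ≤ (K₀ + η / 8) * D.h n :=
        mul_le_mul_of_nonneg_right (by linarith) hhpos.le
      have h9 : θ * D.h n ≤ η / 16 * D.h n := mul_le_mul_of_nonneg_right hθ3 hhpos.le
      have h10 : 0 ≤ η * D.h n := by positivity
      nlinarith)
  obtain ⟨v, hv, z, hz⟩ := D.U1_core hA.cov n L hL f hf2 (D.eI n n₁ I) (D.eI_inj n n₁ I)
    (D.isClopen_VT n false) (D.VT_sub n false) V hV θ c₀ hpos
  refine ⟨v, c₀, chiE T (D.eI n n₁ I) (D.VT n false), hc₀,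
    fun x => D.chi_formula n n₁ hnn₁ I hI x, hv, ?_⟩
  have hsa : IsSelfAdjoint (c - star y' * y') := by
    show star (c - star y' * y') = _
    rw [hy]
    simp only [star_sub, star_mul, star_star]
  obtain ⟨r, hr⟩ := shift_pos_factor hsa θ hn4
  have e : star v * c * v - (c₀ : ℂ) • ι (chiE T (D.eI n n₁ I) (D.VT n false)) =
      star z * z + star (r * v) * (r * v) := by
    rw [← hz, star_mul]
    have h1 : star v * star r * (r * v) = star v * (star r * r) * v := by noncomm_ring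
    rw [h1, ← hr]
    have h2 : star v * (c - star y' * y' + (θ : ℂ) • (1 : A)) * v =
        star v * c * v - star v * (star y' * y') * v + (θ : ℂ) • (star v * v) := by
      rw [mul_add, add_mul, mul_sub, sub_mul, mul_smul_comm, mul_one, smul_mul_assoc]
    rw [h2]
    abel
  rw [e]
  exact add_pos_factor z (r * v)

end Run7.h745
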