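import Pool.Agent.Run7.h745.U1e
import Pool.Agent.Run7.h745.Tr
import Pool.Agent.Run7.h745.Sys2

/-!
# Piece U: preparations
-/

set_option autoImplicit false
set_option linter.unusedSectionVars false

noncomputable section

namespace Run7.h745

open Filter Topology Matrix Pool.Agent.TH249
open scoped InnerProductSpace

/-! ### Positive elements -/

lemma sum_pos_factor {B : Type} [CStarAlgebra B] {α : Type} (s : Finset α) (z : α → B) :
    ∃ w, ∑ a ∈ s, star (z a) * z a = star w * w := by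
  classical
  induction s using Finset.induction_on with
  | empty => exact ⟨0, by simp⟩
  | insert a s ha ih =>
    obtain ⟨w, hw⟩ := ih
    rw [Finset.sum_insert ha, hw]
    exact add_pos_factor _ _

lemma rect_pos {A : Type} [CStarAlgebra A] {m n : ℕ} (Z : Matrix (Fin m) (Fin n) A) :
    ∃ Y : Mat n A, Mat.of (Zᴴ * Z) = star Y * Y := by
  cases n with
  | zero =>
    refine ⟨0, ?_⟩
    apply Mat.of.symm.injective
    ext i
    exact Fin.elim0 i
  | succ n =>
    obtain ⟨w, hw⟩ := sum_pos_factor (Finset.univ : Finset (Fin m)) (fun p : Fin m =>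
      (Mat.of (Matrix.of fun (i j : Fin (n + 1)) => if i = 0 then Z p j else 0) : Mat (n + 1) A))
    refine ⟨w, ?_⟩
    rw [← hw]
    have h1 : ∀ p : Fin m, star (Mat.of (Matrix.of fun (i j : Fin (n + 1)) =>
        if i = 0 then Z p j else 0) : Mat (n + 1) A) * Mat.of (Matrix.of fun (i j : Fin (n + 1)) =>
        if i = 0 then Z p j else 0) = Mat.of (Matrix.of fun a b => star (Z p a) * Z p b) := by
      intro p
      rw [← map_star, ← map_mul]
      congr 1
      ext a b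
      rw [star_eq_conjTranspose, mul_apply, Finset.sum_eq_single 0]
      · simp [conjTranspose_apply]
      · intro i _ hi
        simp [conjTranspose_apply, hi]
      · intro h; exact absurd (Finset.mem_univ _) h
    rw [Finset.sum_congr rfl fun p _ => h1 p, ← map_sum]
    congr 1
    ext a b
    rw [mul_apply, Matrix.sum_apply]
    rfl

lemma normalize {B : Type} [CStarAlgebra B] (S y : B) (κ : ℝ) (hκ : 0 < κ)
    (h : S - (κ : ℂ) • (1 : B) = star y * y) : ∃ R : B, IsSelfAdjoint R ∧ R * S * R = 1 := by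
  let _ : PartialOrder B := CStarAlgebra.spectralOrder B
  have _ : StarOrderedRing B := CStarAlgebra.spectralOrderedRing B
  have h3 : (κ : ℂ) • (1 : B) = algebraMap ℝ B κ := by
    rw [Algebra.algebraMap_eq_smul_one]
    exact (RCLike.real_smul_eq_coe_smul (K := ℂ) κ (1 : B)).symm
  rw [h3] at h
  have hle : algebraMap ℝ B κ ≤ S := by
    rw [← sub_nonneg, h]; exact star_mul_self_nonneg y
  have hS : IsSelfAdjoint S := by
    have h4 : S = star y * y + algebraMap ℝ B κ := by rw [← h]; abel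
    rw [h4]
    refine (IsSelfAdjoint.star_mul_self y).add ?_
    rw [← h3]
    show star _ = _
    rw [star_smul, star_one]
    simp
  have hsp : ∀ x ∈ spectrum ℝ S, κ ≤ x := (algebraMap_le_iff_le_spectrum hS).mp hle
  have hcont : ContinuousOn (fun x : ℝ => (Real.sqrt x)⁻¹) (spectrum ℝ S) := by
    refine ContinuousOn.inv₀ Real.continuous_sqrt.continuousOn fun x hx => ?_
    exact (Real.sqrt_pos.mpr (hκ.trans_le (hsp x hx))).ne'
  refine ⟨cfc (fun x : ℝ => (Real.sqrt x)⁻¹) S, cfc_predicate _ _, ?_⟩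
  have e1 : cfc (fun x : ℝ => (Real.sqrt x)⁻¹) S * S * cfc (fun x : ℝ => (Real.sqrt x)⁻¹) S =
      cfc (fun x : ℝ => (Real.sqrt x)⁻¹ * x * (Real.sqrt x)⁻¹) S := by
    conv_lhs => rw [← cfc_id ℝ S]
    rw [cfc_id ℝ S]
    conv_lhs => enter [1, 2]; rw [← cfc_id ℝ S]
    rw [← cfc_mul _ _ S hcont continuousOn_id, ← cfc_mul _ _ S
      (show ContinuousOn (fun x : ℝ => (Real.sqrt x)⁻¹ * id x) (spectrum ℝ S) from
        hcont.mul continuousOn_id) hcont]
    rfl
  rw [e1, ← cfc_one ℝ S]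
  refine cfc_congr fun x hx => ?_
  have hx0 : 0 < x := hκ.trans_le (hsp x hx)
  have h5 : Real.sqrt x * Real.sqrt x = x := Real.mul_self_sqrt hx0.le
  have h6 : Real.sqrt x ≠ 0 := (Real.sqrt_pos.mpr hx0).ne'
  show (Real.sqrt x)⁻¹ * x * (Real.sqrt x)⁻¹ = 1
  field_simp
  nlinarith

/-! ### The indicator function of the towers of type `s` -/

section chi
variable {X : Type} [TopologicalSpace X] [CompactSpace X] {T : X ≃ₜ X} (D : TowerData X T)
  {A : Type} [CStarAlgebra A] {ι : C(X, ℂ) →⋆ₐ[ℂ] A} {u : unitary A}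

/-- indicator function of the towers of type `s` -/
def TowerData.chiT (n : ℕ) (s : Bool) : C(X, ℂ) :=
  ∑ i ∈ Finset.range (D.h n), cT T (-(i : ℤ)) (ind (D.VT n s))

open Classical in
lemma TowerData.chiT_apply (n : ℕ) (s : Bool) (x : X) : D.chiT n s x =
    if ∃ i < D.h n, (T ^ (-(i : ℤ)) : X ≃ₜ X) x ∈ D.VT n s then 1 else 0 := by
  unfold TowerData.chiT
  rw [ContinuousMap.sum_apply]
  obtain ⟨i₀, ⟨hi₀, hi₀'⟩, huniq⟩ := D.part n x
  simp only at huniq
  have h1 : ∀ i ∈ Finset.range (D.h n), i ≠ i₀ → cT T (-(i : ℤ)) (ind (D.VT n s)) x = 0 := by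
    intro i hi hne
    show ind (D.VT n s) ((T ^ (-(i : ℤ)) : X ≃ₜ X) x) = 0
    rw [ind_notMem (D.isClopen_VT n s)]
    intro hmem
    exact hne (huniq i ⟨Finset.mem_range.mp hi, hmem.1⟩)
  rw [Finset.sum_eq_single i₀ h1 (fun h => absurd (Finset.mem_range.mpr hi₀) h)]
  show ind (D.VT n s) ((T ^ (-(i₀ : ℤ)) : X ≃ₜ X) x) = _
  by_cases h2 : (T ^ (-(i₀ : ℤ)) : X ≃ₜ X) x ∈ D.VT n s
  · rw [ind_mem (D.isClopen_VT n s) h2, if_pos ⟨i₀, hi₀, h2⟩]
  · rw [ind_notMem (D.isClopen_VT n s) h2, if_neg]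
    rintro ⟨i, hi, h3⟩
    exact h2 (huniq i ⟨hi, h3.1⟩ ▸ h3)

lemma TowerData.chiT_add (n : ℕ) : D.chiT n false + D.chiT n true = 1 := by
  classical
  ext x
  rw [ContinuousMap.add_apply, ContinuousMap.one_apply, D.chiT_apply, D.chiT_apply]
  obtain ⟨i₀, ⟨hi₀, hi₀'⟩, huniq⟩ := D.part n x
  simp only at huniq
  rcases D.mem_VT_or n _ hi₀' with h | h
  · rw [if_pos ⟨i₀, hi₀, h⟩, if_neg, add_zero]
    rintro ⟨i, hi, h3⟩
    have := huniq i ⟨hi, h3.1⟩
    subst this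
    exact Set.disjoint_left.mp (D.VT_disj n) h h3
  · rw [if_neg, if_pos ⟨i₀, hi₀, h⟩, zero_add]
    rintro ⟨i, hi, h3⟩
    have := huniq i ⟨hi, h3.1⟩
    subst this
    exact Set.disjoint_left.mp (D.VT_disj n) h3 h

lemma TowerData.chiT_mul (n : ℕ) (s : Bool) : D.chiT n s * D.chiT n s = D.chiT n s := by
  classical
  ext x
  rw [ContinuousMap.mul_apply, D.chiT_apply]
  split_ifs <;> simp

lemma TowerData.chiT_star (n : ℕ) (s : Bool) : star (D.chiT n s) = D.chiT n s := by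
  classical
  ext x
  rw [ContinuousMap.star_apply, D.chiT_apply]
  split_ifs <;> simp

lemma TowerData.isStarProjection_chiT (ι : C(X, ℂ) →⋆ₐ[ℂ] A) (n : ℕ) (s : Bool) :
    IsStarProjection (ι (D.chiT n s)) :=
  ⟨by show ι (D.chiT n s) * ι (D.chiT n s) = _; rw [← map_mul, D.chiT_mul],
    by show star (ι (D.chiT n s)) = _; rw [← map_star, D.chiT_star]⟩

lemma tr_chiT (hc : Covariant T ι u) (τ : TracialState A) (n : ℕ) (s : Bool) :
    τ.val (ι (D.chiT n s)) = (D.h n : ℂ) * τ.val (ι (ind (D.VT n s))) := by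
  unfold TowerData.chiT
  rw [map_sum, map_sum, Finset.sum_congr rfl fun i _ => tr_cT hc τ _ _, Finset.sum_const,
    Finset.card_range, nsmul_eq_mul]

end chi

/-! ### Towers -/

section tower
variable {X : Type} [TopologicalSpace X] (T : X ≃ₜ X) (K : ℕ)

lemma Sys2.dvd_iffS (x : X) (j : ℤ) (S : Set X) :
    ((Sys2.FF T K x j).1 ∈ S ∧ (Sys2.FF T K x j).2 = 0) ↔
      ∃ a : ℤ, j = ((K + 1 : ℕ) : ℤ) * a ∧ (T ^ a : X ≃ₜ X) x ∈ S := by
  constructor
  · rintro ⟨h1, h2⟩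
    have h0 := Int.emod_nonneg j (show ((K + 1 : ℕ) : ℤ) ≠ 0 by omega)
    have h3 : (j % ((K + 1 : ℕ) : ℤ)).toNat = 0 := congrArg Fin.val h2
    refine ⟨j / ((K + 1 : ℕ) : ℤ), ?_, h1⟩
    have h4 := Int.mul_ediv_add_emod j ((K + 1 : ℕ) : ℤ)
    omega
  · rintro ⟨a, rfl, h⟩
    have h1 := Sys2.FF_mul T K x a 0 (by omega)
    rw [Nat.cast_zero, add_zero] at h1
    rw [h1]
    exact ⟨h, rfl⟩

/-- position of a point of the tower -/
lemma Sys2.pos_iff (x : X) (p : Fin (K + 1)) (S : Set X) (H : ℕ) (q : ℕ → Prop)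
    (hq : ∀ i, q i ↔ q (i % (K + 1))) :
    (∃ i, i < (K + 1) * H ∧ q i ∧ (Sys2.TK T K ^ (-(i : ℤ)) : _ ≃ₜ _) (x, p) ∈
      {y : X × Fin (K + 1) | y.1 ∈ S ∧ y.2 = 0}) ↔
      q p ∧ ∃ i < H, (T ^ (-(i : ℤ)) : X ≃ₜ X) x ∈ S := by
  have hp := p.2
  constructor
  · rintro ⟨i, hi, hqi, h⟩
    rw [Sys2.zp_TK] at h
    obtain ⟨a, ha, hS⟩ := (Sys2.dvd_iffS T K x _ S).mp h
    have ha0 : a ≤ 0 := by
      by_contra hcon
      push Not at hcon
      have : ((K + 1 : ℕ) : ℤ) * 1 ≤ ((K + 1 : ℕ) : ℤ) * a :=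
        mul_le_mul_of_nonneg_left (by omega) (by omega)
      omega
    obtain ⟨b, hb⟩ := Int.eq_ofNat_of_zero_le (show 0 ≤ -a by omega)
    have hab : a = -(b : ℤ) := by omega
    subst hab
    have hib : i = (K + 1) * b + p := by
      have : (i : ℤ) = ((K + 1 : ℕ) : ℤ) * b + (p : ℕ) := by linarith
      exact_mod_cast this
    have hmod : i % (K + 1) = p := by
      rw [hib, Nat.mul_add_mod, Nat.mod_eq_of_lt hp]
    refine ⟨?_, b, ?_, hS⟩
    · rw [hq, hmod] at hqi; exact hqi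
    · by_contra hcon
      push Not at hcon
      have : (K + 1) * H ≤ (K + 1) * b := Nat.mul_le_mul_left _ hcon
      omega
  · rintro ⟨hqp, b, hb, hS⟩
    have h1 : (K + 1) * (b + 1) ≤ (K + 1) * H := Nat.mul_le_mul_left _ hb
    refine ⟨(K + 1) * b + p, ?_, ?_, ?_⟩
    · rw [mul_add] at h1; omega
    · rw [hq, Nat.mul_add_mod, Nat.mod_eq_of_lt hp]; exact hqp
    · rw [Sys2.zp_TK]
      refine (Sys2.dvd_iffS T K x _ S).mpr ⟨-(b : ℤ), ?_, hS⟩
      push_cast; ring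

end tower

end Run7.h745
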